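import Pool.Agent.SK.Defs
/-! ## MP_9cfccf_an, module A1 -/
open Set Metric Filter Topology Polynomial
namespace SkewBif

theorem A1_step {C M1 ρ s R : ℝ} {b z z' : ℂ} {f : ℂ → ℂ} (hC : 0 < C) (hs : 0 < s)
    (hρ : ρ + s ≤ R) (hf : DifferentiableOn ℂ f (ball b R)) (hre : ∀ z ∈ ball b R, (f z).re ≤ C)
    (hz' : dist z' b ≤ ρ) (hM : ‖f z'‖ ≤ M1) (hz : dist z z' ≤ s / 2) :
    ‖f z‖ ≤ 2 * C + 3 * M1 := by
  have hsub : ∀ w ∈ ball (0 : ℂ) s, z' + w ∈ ball b R := by
    intro w hw
    rw [mem_ball_zero_iff] at hw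
    rw [mem_ball]
    calc dist (z' + w) b ≤ dist (z' + w) z' + dist z' b := dist_triangle _ _ _
      _ = ‖w‖ + dist z' b := by rw [dist_eq_norm, add_sub_cancel_left]
      _ < s + ρ := by linarith
      _ ≤ R := by linarith
  have h1 : DifferentiableOn ℂ (fun w => f (z' + w)) (ball 0 s) :=
    hf.comp (by fun_prop) hsub
  have h2 : MapsTo (fun w => f (z' + w)) (ball 0 s) {w | w.re ≤ C} :=
    fun w hw => hre _ (hsub w hw)
  have hw : ‖z - z'‖ ≤ s / 2 := by rwa [← dist_eq_norm]
  have hwb : z - z' ∈ ball (0 : ℂ) s := by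
    rw [mem_ball_zero_iff]; linarith
  have h3 := Complex.borelCaratheodory hC h1 h2 hs hwb
  simp only [add_sub_cancel, add_zero] at h3
  have h4 : 0 < s - ‖z - z'‖ := by linarith
  have hn := norm_nonneg (z - z')
  have hM0 : 0 ≤ ‖f z'‖ := norm_nonneg _
  have h5 : 2 * C * ‖z - z'‖ / (s - ‖z - z'‖) ≤ 2 * C := by
    rw [div_le_iff₀ h4]
    nlinarith
  have h6 : ‖f z'‖ * (s + ‖z - z'‖) / (s - ‖z - z'‖) ≤ 3 * ‖f z'‖ := by
    rw [div_le_iff₀ h4]
    nlinarith
  linarith

/-- A1a. Bound for holomorphic functions with real part bounded above and with a bound at an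
arbitrary point `o` of the disc (chain of discs and `Complex.borelCaratheodory`). -/
theorem bc_off_center {b o : ℂ} {R C M r' : ℝ} (ho : o ∈ ball b R) (hr' : r' < R) :
    ∃ M' : ℝ, ∀ f : ℂ → ℂ, DifferentiableOn ℂ f (ball b R) → (∀ z ∈ ball b R, (f z).re ≤ C) →
      ‖f o‖ ≤ M → ∀ z ∈ closedBall b r', ‖f z‖ ≤ M' := by
  rw [mem_ball] at ho
  obtain ⟨ρ, hρ1, hρ2⟩ := exists_between (max_lt ho hr')
  have hρo : dist o b ≤ ρ := (le_max_left _ _).trans hρ1.le
  have hρr : r' ≤ ρ := (le_max_right _ _).trans hρ1.le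
  set s := R - ρ with hs
  have hs0 : 0 < s := by rw [hs]; linarith
  set C1 := max C 1 with hC1
  have hC1p : 0 < C1 := lt_of_lt_of_le one_pos (le_max_right _ _)
  have key : ∀ n : ℕ, ∃ M' : ℝ, ∀ f : ℂ → ℂ, DifferentiableOn ℂ f (ball b R) →
      (∀ z ∈ ball b R, (f z).re ≤ C) → ‖f o‖ ≤ M → ∀ z, dist z b ≤ ρ →
      dist z o ≤ n * (s / 2) → ‖f z‖ ≤ M' := by
    intro n
    induction n with
    | zero =>
      refine ⟨M, fun f _ _ hfo z _ hz => ?_⟩
      rw [Nat.cast_zero, zero_mul] at hz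
      have : z = o := dist_le_zero.1 hz
      rw [this]; exact hfo
    | succ n ih =>
      obtain ⟨M1, hM1⟩ := ih
      refine ⟨2 * C1 + 3 * M1, fun f hf hre hfo z hzb hz => ?_⟩
      have hn1 : (0 : ℝ) < (n : ℝ) + 1 := by positivity
      set t : ℝ := (n : ℝ) / ((n : ℝ) + 1) with ht
      have ht0 : 0 ≤ t := by positivity
      have ht1 : 1 - t = 1 / ((n : ℝ) + 1) := by rw [ht]; field_simp; ring
      have ht2 : 0 ≤ 1 - t := by rw [ht1]; positivity
      set z' : ℂ := (1 - t) • o + t • z with hz'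
      have hz'b : dist z' b ≤ ρ := by
        have hconv := convex_closedBall b ρ
        exact hconv (mem_closedBall.2 hρo) (mem_closedBall.2 hzb) ht2 ht0 (by ring)
      have hzz : dist z' o ≤ n * (s / 2) := by
        have h1 : z' - o = t • (z - o) := by
          rw [hz', sub_smul, one_smul, smul_sub]; abel
        rw [dist_eq_norm, h1, norm_smul, Real.norm_of_nonneg ht0, ← dist_eq_norm]
        rw [Nat.cast_succ] at hz
        calc t * dist z o ≤ t * (((n : ℝ) + 1) * (s / 2)) := by gcongr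
          _ = n * (s / 2) := by rw [ht]; field_simp
      have hz2 : dist z z' ≤ s / 2 := by
        have h1 : z - z' = (1 - t) • (z - o) := by
          rw [hz', sub_smul, sub_smul, one_smul, one_smul, smul_sub]; abel
        rw [dist_eq_norm, h1, norm_smul, Real.norm_of_nonneg ht2, ← dist_eq_norm, ht1]
        rw [Nat.cast_succ] at hz
        calc 1 / ((n : ℝ) + 1) * dist z o ≤ 1 / ((n : ℝ) + 1) * (((n : ℝ) + 1) * (s / 2)) := by
              gcongr
          _ = s / 2 := by field_simp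
      exact A1_step hC1p hs0 (by rw [hs]; linarith) hf
        (fun w hw => (hre w hw).trans (le_max_left _ _)) hz'b (hM1 f hf hre hfo z' hz'b hzz) hz2
  obtain ⟨n, hn⟩ := exists_nat_gt (2 * ρ / (s / 2))
  obtain ⟨M', hM'⟩ := key n
  refine ⟨M', fun f hf hre hfo z hz => ?_⟩
  rw [mem_closedBall] at hz
  have hzb : dist z b ≤ ρ := hz.trans hρr
  refine hM' f hf hre hfo z hzb ?_
  have h1 : dist z o ≤ 2 * ρ := by
    have := dist_triangle_right z o b
    linarith
  rw [div_lt_iff₀ (by positivity)] at hn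
  linarith

/-- A1b. A nonvanishing bounded function on a disc which is not small at `ζ` is not small at `0`
(holomorphic branch of the logarithm and A1a). -/
theorem nonvanishing_lower_bound {δ M c : ℝ} (hδ : 0 < δ) (hM : 0 < M) (hc : 0 < c) {ζ : ℂ}
    (hζ : ζ ∈ ball (0 : ℂ) δ) :
    ∃ c' : ℝ, 0 < c' ∧ ∀ f : ℂ → ℂ, DifferentiableOn ℂ f (ball 0 δ) →
      (∀ z ∈ ball (0 : ℂ) δ, f z ≠ 0) → (∀ z ∈ ball (0 : ℂ) δ, ‖f z‖ ≤ M) → c ≤ ‖f ζ‖ →
      c' ≤ ‖f 0‖ := by
  obtain ⟨M', hM'⟩ := bc_off_center (C := Real.log M) (M := |Real.log c| + |Real.log M| + Real.pi)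
    hζ hδ
  refine ⟨Real.exp (-M'), Real.exp_pos _, fun f hf hf0 hfM hfc => ?_⟩
  have hd : DifferentiableOn ℂ (fun z => deriv f z / f z) (ball 0 δ) :=
    (hf.deriv isOpen_ball).div hf hf0
  obtain ⟨g, hgζ, hg⟩ := hd.isExactOn_ball.with_val_at ζ (Complex.log (f ζ))
  have hconst : ∀ z ∈ ball (0 : ℂ) δ, f z * Complex.exp (-g z) = 1 := by
    have hder : ∀ z ∈ ball (0 : ℂ) δ, HasDerivAt (fun z => f z * Complex.exp (-g z)) 0 z := by
      intro z hz
      have h1 : HasDerivAt f (deriv f z) z :=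
        (hf.differentiableAt (isOpen_ball.mem_nhds hz)).hasDerivAt
      have h2 := (hg z hz).fun_neg.cexp
      have h3 := h1.mul h2
      refine h3.congr_deriv ?_
      have := hf0 z hz
      field_simp
      ring
    have h0 : ∀ z ∈ ball (0 : ℂ) δ, f z * Complex.exp (-g z) = f ζ * Complex.exp (-g ζ) := by
      intro z hz
      refine (convex_ball (0 : ℂ) δ).is_const_of_fderivWithin_eq_zero (𝕜 := ℂ)
        (f := fun z => f z * Complex.exp (-g z)) ?_ ?_ hz hζ
      · intro w hw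
        exact (hder w hw).differentiableAt.differentiableWithinAt
      · intro w hw
        rw [fderivWithin_of_isOpen isOpen_ball hw]
        have h5 := (hder w hw).hasFDerivAt.fderiv
        rw [h5]
        ext
        simp
    intro z hz
    rw [h0 z hz, hgζ, Complex.exp_neg, Complex.exp_log (hf0 ζ hζ), mul_inv_cancel₀ (hf0 ζ hζ)]
  have hexp : ∀ z ∈ ball (0 : ℂ) δ, f z = Complex.exp (g z) := by
    intro z hz
    have h1 := hconst z hz
    rw [Complex.exp_neg] at h1
    exact eq_of_mul_inv_eq_one h1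
  have hnorm : ∀ z ∈ ball (0 : ℂ) δ, ‖f z‖ = Real.exp (g z).re := by
    intro z hz
    rw [hexp z hz, Complex.norm_exp]
  have hgd : DifferentiableOn ℂ g (ball 0 δ) := fun z hz =>
    (hg z hz).differentiableAt.differentiableWithinAt
  have hre : ∀ z ∈ ball (0 : ℂ) δ, (g z).re ≤ Real.log M := by
    intro z hz
    rw [← Real.log_exp (g z).re, ← hnorm z hz]
    exact Real.log_le_log (norm_pos_iff.2 (hf0 z hz)) (hfM z hz)
  have hgo : ‖g ζ‖ ≤ |Real.log c| + |Real.log M| + Real.pi := by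
    rw [hgζ]
    have h1 := Complex.norm_le_abs_re_add_abs_im (Complex.log (f ζ))
    rw [Complex.log_re, Complex.log_im] at h1
    have h2 := Complex.abs_arg_le_pi (f ζ)
    have h3 : |Real.log ‖f ζ‖| ≤ |Real.log c| + |Real.log M| := by
      have h4 := Real.log_le_log hc hfc
      have h5 := Real.log_le_log (norm_pos_iff.2 (hf0 ζ hζ)) (hfM ζ hζ)
      rw [abs_le]
      constructor
      · have := neg_abs_le (Real.log c)
        have := abs_nonneg (Real.log M)
        linarith
      · have := le_abs_self (Real.log M)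
        have := abs_nonneg (Real.log c)
        linarith
    linarith
  have h0 := hM' g hgd hre hgo 0 (mem_closedBall_self le_rfl)
  rw [hnorm 0 (mem_ball_self hδ)]
  apply Real.exp_le_exp.2
  have := Complex.abs_re_le_norm (g 0)
  have := neg_abs_le (g 0).re
  linarith

end SkewBif
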