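import Pool.Agent.SK.Defs
/-! ## MP_9cfccf_an, module A2 -/
open Set Metric Filter Topology Polynomial
namespace SkewBif

/-- three circles, in the simplest form -/
theorem A2_annulus {g : ℂ → ℂ} {c : ℂ} {R R' r1 ρ η M : ℝ} (p : ℕ) (hr1 : 0 < r1) (hR' : R' < R)
    (hρ : ρ < R') (hg : DifferentiableOn ℂ g (ball c R)) (hM : ∀ z ∈ ball c R, ‖g z‖ ≤ M)
    (hη : ∀ z ∈ closedBall c r1, ‖g z‖ ≤ η) (h0η : 0 ≤ η) (h0M : 0 ≤ M) (h1R : r1 < R')
    {ε : ℝ} (h1 : η ≤ ε) (h2 : η * (ρ / r1) ^ p ≤ ε) (h3 : M * (ρ / R') ^ p ≤ ε) :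
    ∀ z ∈ closedBall c ρ, ‖g z‖ ≤ ε := by
  intro z hz
  by_cases hzr : z ∈ closedBall c r1
  · exact (hη z hzr).trans h1
  have hz1 : r1 < dist z c := not_le.1 hzr
  have hz2 : dist z c ≤ ρ := hz
  have hR'0 : 0 < R' := hr1.trans h1R
  have hρ0 : 0 < ρ := hr1.trans (hz1.trans_le hz2)
  set A : Set ℂ := ball c R' ∩ (closedBall c r1)ᶜ with hA
  have hzA : z ∈ A := ⟨lt_of_le_of_lt hz2 hρ, hzr⟩
  have hclA : closure A ⊆ closedBall c R' ∩ {w | r1 ≤ dist w c} := by
    have hcl : IsClosed (closedBall c R' ∩ {w | r1 ≤ dist w c}) :=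
      isClosed_closedBall.inter (isClosed_le continuous_const (by fun_prop))
    refine closure_minimal ?_ hcl
    rintro w ⟨hw1, hw2⟩
    have hw3 : ¬ dist w c ≤ r1 := hw2
    exact ⟨ball_subset_closedBall hw1, (not_le.1 hw3).le⟩
  have hd : DiffContOnCl ℂ (fun w => g w / (w - c) ^ p) A := by
    apply DifferentiableOn.diffContOnCl
    intro w hw
    obtain ⟨hw1, hw2⟩ := hclA hw
    have hwR : w ∈ ball c R := closedBall_subset_ball hR' hw1
    have hne : w - c ≠ 0 := by
      intro h
      rw [sub_eq_zero] at h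
      rw [h] at hw2
      have : r1 ≤ dist c c := hw2
      rw [dist_self] at this
      linarith
    have hgw : DifferentiableAt ℂ g w := hg.differentiableAt (isOpen_ball.mem_nhds hwR)
    exact (hgw.div ((differentiableAt_id.sub_const c).pow p)
      (pow_ne_zero p hne)).differentiableWithinAt
  have hbd : Bornology.IsBounded A := isBounded_ball.subset inter_subset_left
  have hfr : ∀ w ∈ frontier A, ‖g w / (w - c) ^ p‖ ≤ max (η / r1 ^ p) (M / R' ^ p) := by
    intro w hw
    rcases frontier_inter_subset _ _ hw with ⟨h, _⟩ | ⟨_, h⟩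
    · rw [frontier_ball c hR'0.ne'] at h
      refine le_max_of_le_right ?_
      have hwR : w ∈ ball c R := by
        rw [mem_sphere] at h
        rw [mem_ball, h]
        exact hR'
      rw [mem_sphere, dist_eq_norm] at h
      rw [norm_div, norm_pow, h]
      exact div_le_div_of_nonneg_right (hM w hwR) (by positivity)
    · rw [frontier_compl, frontier_closedBall c hr1.ne'] at h
      refine le_max_of_le_left ?_
      have hw1 := hη w (sphere_subset_closedBall h)
      rw [mem_sphere, dist_eq_norm] at h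
      rw [norm_div, norm_pow, h]
      exact div_le_div_of_nonneg_right hw1 (by positivity)
  have hmax := Complex.norm_le_of_forall_mem_frontier_norm_le hbd hd hfr (subset_closure hzA)
  have hzc : 0 < ‖z - c‖ := by
    rw [← dist_eq_norm]
    linarith
  rw [norm_div, norm_pow, div_le_iff₀ (pow_pos hzc p)] at hmax
  refine hmax.trans ?_
  have hle : ‖z - c‖ ^ p ≤ ρ ^ p := by
    rw [← dist_eq_norm]
    exact pow_le_pow_left₀ dist_nonneg hz2 p
  have h4 : max (η / r1 ^ p) (M / R' ^ p) * ‖z - c‖ ^ p ≤ max (η / r1 ^ p) (M / R' ^ p) * ρ ^ p :=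
    mul_le_mul_of_nonneg_left hle (le_max_of_le_left (by positivity))
  refine h4.trans ?_
  rw [max_mul_of_nonneg _ _ (by positivity)]
  refine max_le ?_ ?_
  · have e : η / r1 ^ p * ρ ^ p = η * (ρ / r1) ^ p := by
      rw [div_pow]
      ring
    rw [e]
    exact h2
  · have e : M / R' ^ p * ρ ^ p = M * (ρ / R') ^ p := by
      rw [div_pow]
      ring
    rw [e]
    exact h3

theorem A2_step {ι : Type*} {l : Filter ι} {f : ι → ℂ → ℂ} {M : ℝ} {c : ℂ} {R ρ r : ℝ}
    (hr : 0 < r) (hρ : ρ < R) (hf : ∀ n, DifferentiableOn ℂ (f n) (ball c R))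
    (hb : ∀ n, ∀ z ∈ ball c R, ‖f n z‖ ≤ M)
    (h0 : TendstoUniformlyOn f (fun _ => 0) l (ball c r)) :
    TendstoUniformlyOn f (fun _ => 0) l (closedBall c ρ) := by
  rw [Metric.tendstoUniformlyOn_iff] at h0 ⊢
  intro ε hε
  simp only [dist_zero_left] at h0 ⊢
  rcases le_or_gt R 0 with hR | hR
  · refine Eventually.of_forall (fun n z hz => ?_)
    rw [mem_closedBall] at hz
    have := dist_nonneg (x := z) (y := c)
    linarith
  -- constants
  obtain ⟨R', hR'1, hR'2⟩ := exists_between (show max ρ (R / 2) < R from max_lt hρ (by linarith))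
  have hR'ρ : ρ < R' := (le_max_left _ _).trans_lt hR'1
  have hR'h : R / 2 < R' := (le_max_right _ _).trans_lt hR'1
  have hR'0 : 0 < R' := by linarith
  set r1 := min (r / 2) (R / 4) with hr1
  have hr10 : 0 < r1 := lt_min (by linarith) (by linarith)
  have hr1r : r1 < r := (min_le_left _ _).trans_lt (by linarith)
  have hr1R : r1 < R' := (min_le_right _ _).trans_lt (by linarith)
  set M' := max M 0 + 1 with hM'
  have hM'0 : 0 < M' := by
    have := le_max_right M 0
    linarith
  have hq : max ρ 0 / R' < 1 := by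
    rw [div_lt_one hR'0]
    exact max_lt hR'ρ hR'0
  obtain ⟨p, hp⟩ := exists_pow_lt_of_lt_one (show 0 < ε / 2 / M' by positivity) hq
  set Q := (max ρ 0 / r1) ^ p + 1 with hQ
  have hQ0 : 0 < Q := by positivity
  have hQ1 : 1 ≤ Q := by
    have : 0 ≤ (max ρ 0 / r1) ^ p := by positivity
    linarith
  have hη : 0 < ε / 2 / Q := by positivity
  filter_upwards [h0 (ε / 2 / Q) hη] with n hn z hz
  by_cases hρ0 : 0 ≤ ρ
  · have hmaxρ : max ρ 0 = ρ := max_eq_left hρ0
    rw [hmaxρ] at hp hQ
    have key := A2_annulus (g := f n) (c := c) (R := R) (R' := R') (r1 := r1) (ρ := ρ)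
      (η := ε / 2 / Q) (M := M') p hr10 hR'2 hR'ρ (hf n)
      (fun w hw => (hb n w hw).trans (by
        have := le_max_left M 0
        linarith))
      (fun w hw => (hn w (closedBall_subset_ball hr1r hw)).le) hη.le hM'0.le hr1R
      (ε := ε / 2) (div_le_self (by positivity) hQ1) (by
        rw [div_mul_eq_mul_div, div_le_iff₀ hQ0]
        refine mul_le_mul_of_nonneg_left ?_ (by positivity)
        rw [hQ]
        linarith) (by
        rw [lt_div_iff₀ hM'0] at hp
        linarith) z hz
    linarith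
  · exfalso
    rw [mem_closedBall] at hz
    have := dist_nonneg (x := z) (y := c)
    exact hρ0 (this.trans hz)

/-- A2a. Propagation of smallness. For a filter `l`, a family of holomorphic functions bounded by
`M` on a preconnected open set which tends to `0` uniformly on some ball tends to `0` locally
uniformly. -/
theorem vitali_zero {ι : Type*} {l : Filter ι} {U : Set ℂ} (hU : IsOpen U) (hc : IsPreconnected U)
    {f : ι → ℂ → ℂ} {M : ℝ} (hf : ∀ n, DifferentiableOn ℂ (f n) U)
    (hb : ∀ n, ∀ z ∈ U, ‖f n z‖ ≤ M) {o : ℂ} {r : ℝ} (hr : 0 < r) (hbr : ball o r ⊆ U)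
    (h0 : TendstoUniformlyOn f (fun _ => 0) l (ball o r)) :
    TendstoLocallyUniformlyOn f (fun _ => 0) l U := by
  set A : Set ℂ := {z | ∃ s > 0, ball z s ⊆ U ∧ TendstoUniformlyOn f (fun _ => 0) l (ball z s)}
    with hA
  have hAo : IsOpen A := by
    rw [Metric.isOpen_iff]
    rintro z ⟨s, hs, hsU, hst⟩
    refine ⟨s, hs, fun z' hz' => ?_⟩
    rw [mem_ball] at hz'
    have hsub : ball z' (s - dist z' z) ⊆ ball z s := by
      intro w hw
      rw [mem_ball] at hw ⊢
      have := dist_triangle w z' z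
      linarith
    exact ⟨s - dist z' z, by linarith, hsub.trans hsU, hst.mono hsub⟩
  have hsub : U ⊆ A := by
    apply hc.subset_of_closure_inter_subset hAo
    · exact ⟨o, hbr (mem_ball_self hr), r, hr, hbr, h0⟩
    · rintro z ⟨hzA, hzU⟩
      obtain ⟨R, hR, hRU⟩ := Metric.isOpen_iff.1 hU z hzU
      obtain ⟨z', hz'A, hz'⟩ := Metric.mem_closure_iff.1 hzA (R / 4) (by positivity)
      obtain ⟨s, hs, hsU, hst⟩ := hz'A
      have hbig : ball z' (3 * R / 4) ⊆ ball z R := by
        intro w hw
        rw [mem_ball] at hw ⊢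
        have := dist_triangle w z' z
        rw [dist_comm] at hz'
        linarith
      have hst2 := A2_step (R := 3 * R / 4) (ρ := R / 2) hs (by linarith)
        (fun n => (hf n).mono (hbig.trans hRU)) (fun n w hw => hb n w (hRU (hbig hw))) hst
      refine ⟨R / 4, by positivity, (ball_subset_ball (by linarith)).trans hRU, hst2.mono ?_⟩
      intro w hw
      rw [mem_ball] at hw
      rw [mem_closedBall]
      have := dist_triangle w z z'
      linarith
  intro u hu z hz
  obtain ⟨s, hs, _, hst⟩ := hsub hz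
  exact ⟨ball z s, mem_nhdsWithin_of_mem_nhds (ball_mem_nhds z hs), hst u hu⟩

/-- A2b. Vitali: a sequence of holomorphic functions, locally bounded on a ball,
which is uniformly Cauchy on some ball, converges locally uniformly on compact subsets to a
holomorphic function. -/
theorem vitali_ball {b : ℂ} {R : ℝ} {f : ℕ → ℂ → ℂ}
    (hf : ∀ n, DifferentiableOn ℂ (f n) (ball b R))
    (hb : ∀ r' < R, ∃ M : ℝ, ∀ n, ∀ z ∈ closedBall b r', ‖f n z‖ ≤ M) {o : ℂ} {r : ℝ} (hr : 0 < r)
    (hbr : ball o r ⊆ ball b R)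
    (h0 : ∀ ε > 0, ∃ N : ℕ, ∀ m ≥ N, ∀ k ≥ N, ∀ z ∈ ball o r, ‖f m z - f k z‖ ≤ ε) :
    ∃ g : ℂ → ℂ, DifferentiableOn ℂ g (ball b R) ∧
      TendstoLocallyUniformlyOn f g atTop (ball b R) := by
  have ho : o ∈ ball b R := hbr (mem_ball_self hr)
  -- locally uniformly Cauchy
  have hloc : ∀ z ∈ ball b R, ∃ s > 0, UniformCauchySeqOn f atTop (ball z s) := by
    intro z hz
    rw [mem_ball] at hz ho
    obtain ⟨r', hr'1, hr'2⟩ := exists_between (max_lt hz ho)
    have hzr' : dist z b < r' := (le_max_left _ _).trans_lt hr'1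
    have hor' : dist o b < r' := (le_max_right _ _).trans_lt hr'1
    obtain ⟨M, hM⟩ := hb r' hr'2
    have hsub : ball b r' ⊆ ball b R := ball_subset_ball hr'2.le
    have hsm : ball o (min r (r' - dist o b)) ⊆ ball b r' := by
      intro w hw
      rw [mem_ball] at hw ⊢
      have h1 := dist_triangle w o b
      have h2 := min_le_right r (r' - dist o b)
      linarith
    have hV := vitali_zero (ι := ℕ × ℕ) (l := atTop) (U := ball b r') (M := M + M) isOpen_ball
      (convex_ball b r').isPreconnected (f := fun q z => f q.1 z - f q.2 z)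
      (fun q => ((hf q.1).mono hsub).sub ((hf q.2).mono hsub))
      (fun q w hw => (norm_sub_le _ _).trans (add_le_add (hM q.1 w (ball_subset_closedBall hw))
        (hM q.2 w (ball_subset_closedBall hw))))
      (o := o) (r := min r (r' - dist o b)) (lt_min hr (by linarith)) hsm (by
        rw [Metric.tendstoUniformlyOn_iff]
        intro ε hε
        obtain ⟨N, hN⟩ := h0 (ε / 2) (by positivity)
        filter_upwards [eventually_ge_atTop (N, N)] with q hq w hw
        rw [dist_zero_left]
        have := hN q.1 hq.1 q.2 hq.2 w (ball_subset_ball (min_le_left _ _) hw)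
        linarith)
    rw [Metric.tendstoLocallyUniformlyOn_iff] at hV
    -- a ball around z
    have hz' : z ∈ ball b r' := hzr'
    -- uniform convergence on a compact ball
    have hVc := (tendstoLocallyUniformlyOn_iff_forall_isCompact isOpen_ball).1
      (Metric.tendstoLocallyUniformlyOn_iff.2 hV)
      (closedBall z ((r' - dist z b) / 2)) (by
        intro w hw
        rw [mem_closedBall] at hw
        rw [mem_ball]
        have := dist_triangle w z b
        linarith) (isCompact_closedBall _ _)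
    refine ⟨(r' - dist z b) / 2, by linarith, ?_⟩
    rw [Metric.uniformCauchySeqOn_iff]
    intro ε hε
    rw [Metric.tendstoUniformlyOn_iff] at hVc
    obtain ⟨q, hq⟩ := (eventually_atTop.1 (hVc ε hε))
    refine ⟨max q.1 q.2, fun m hm k hk w hw => ?_⟩
    have h5 := hq (m, k) ⟨(le_max_left _ _).trans hm, (le_max_right _ _).trans hk⟩ w
      (ball_subset_closedBall hw)
    rw [dist_zero_left] at h5
    rw [dist_eq_norm]
    exact h5
  have hlim : ∀ z, z ∈ ball b R → ∃ g : ℂ, Tendsto (fun n => f n z) atTop (𝓝 g) := by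
    intro z hz
    obtain ⟨s, hs, hcau⟩ := hloc z hz
    exact cauchySeq_tendsto_of_complete (hcau.cauchySeq (mem_ball_self hs))
  choose! g hg using hlim
  have htl : TendstoLocallyUniformlyOn f g atTop (ball b R) := by
    intro u hu z hz
    obtain ⟨s, hs, hcau⟩ := hloc z hz
    have h1 : UniformCauchySeqOn f atTop (ball z s ∩ ball b R) := hcau.mono inter_subset_left
    have h2 : TendstoUniformlyOn f g atTop (ball z s ∩ ball b R) :=
      h1.tendstoUniformlyOn_of_tendsto (fun w hw => hg w hw.2)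
    refine ⟨ball z s ∩ ball b R, ?_, h2 u hu⟩
    exact mem_nhdsWithin_of_mem_nhds (inter_mem (ball_mem_nhds z hs) (isOpen_ball.mem_nhds hz))
  exact ⟨g, htl.differentiableOn (Eventually.of_forall hf) isOpen_ball, htl⟩

end SkewBif
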