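import Pool.Agent.SK.Defs
/-! ## MP_9cfccf_an, module A6 -/
open Set Metric Filter Topology Polynomial
namespace SkewBif

theorem A6_deriv {V : Type*} [NormedAddCommGroup V] [NormedSpace ℂ V] [CompleteSpace V]
    {b : ℂ} {r2 s2 e : ℝ} (h2 : r2 < s2) {g : ℂ → V} (hg : DifferentiableOn ℂ g (ball b s2))
    (hb : ∀ v ∈ ball b s2, ‖g v‖ ≤ e) (v : ℂ) (hv : v ∈ closedBall b r2) :
    ‖deriv g v‖ ≤ e / (s2 - r2) := by
  have hpos : 0 < s2 - r2 := by linarith
  have hvb : v ∈ ball b s2 := closedBall_subset_ball h2 hv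
  have he : 0 ≤ e := (norm_nonneg _).trans (hb v hvb)
  rw [le_div_iff₀ hpos]
  by_contra hcon
  push Not at hcon
  set D := ‖deriv g v‖ with hD
  have hD0 : 0 < D := by
    by_contra h
    have h0 : D = 0 := le_antisymm (not_lt.1 h) (norm_nonneg _)
    rw [h0, zero_mul] at hcon
    linarith
  have h3 : e / D < s2 - r2 := by
    rw [div_lt_iff₀ hD0]
    linarith
  set ρ := (e / D + (s2 - r2)) / 2 with hρd
  have h4 : 0 ≤ e / D := by positivity
  have hρ : 0 < ρ := by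
    rw [hρd]
    linarith
  have hρlt : ρ < s2 - r2 := by
    rw [hρd]
    linarith
  have hρgt : e / D < ρ := by
    rw [hρd]
    linarith
  have hsub : closedBall v ρ ⊆ ball b s2 := by
    intro z hz
    rw [mem_closedBall] at hz hv
    rw [mem_ball]
    have := dist_triangle z v b
    linarith
  have hd : DiffContOnCl ℂ g (ball v ρ) := hg.diffContOnCl_ball hsub
  have := Complex.norm_deriv_le_of_forall_mem_sphere_norm_le hρ hd
    (fun z hz => hb z (hsub (sphere_subset_closedBall hz)))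
  rw [le_div_iff₀ hρ] at this
  rw [div_lt_iff₀ hD0] at hρgt
  linarith

/-- A6 in one variable. -/
theorem lip_of_bound_one {V : Type*} [NormedAddCommGroup V] [NormedSpace ℂ V] [CompleteSpace V]
    {b : ℂ} {r2 s2 e : ℝ} (h2 : r2 < s2) {g : ℂ → V} (hg : DifferentiableOn ℂ g (ball b s2))
    (hb : ∀ v ∈ ball b s2, ‖g v‖ ≤ e) :
    ∀ v ∈ closedBall b r2, ∀ v' ∈ closedBall b r2, ‖g v - g v'‖ ≤ e / (s2 - r2) * ‖v - v'‖ := by
  intro v hv v' hv'
  exact (convex_closedBall b r2).norm_image_sub_le_of_norm_deriv_le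
    (fun x hx => hg.differentiableAt (isOpen_ball.mem_nhds (closedBall_subset_ball h2 hx)))
    (fun x hx => A6_deriv h2 hg hb x hx) hv' hv

/-- A6. -/
theorem lip_of_bound {V : Type*} [NormedAddCommGroup V] [NormedSpace ℂ V] [CompleteSpace V]
    {a b : ℂ} {r1 r2 s1 s2 e : ℝ} (h1 : r1 < s1) (h2 : r2 < s2)
    {g : ℂ × ℂ → V} (hg : DifferentiableOn ℂ g (ball a s1 ×ˢ ball b s2))
    (hb : ∀ v ∈ ball a s1 ×ˢ ball b s2, ‖g v‖ ≤ e) :
    ∀ v ∈ closedBall a r1 ×ˢ closedBall b r2, ∀ v' ∈ closedBall a r1 ×ˢ closedBall b r2,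
      ‖g v - g v'‖ ≤ e / (s1 - r1) * ‖v.1 - v'.1‖ + e / (s2 - r2) * ‖v.2 - v'.2‖ := by
  rintro ⟨z, w⟩ ⟨hz, hw⟩ ⟨z', w'⟩ ⟨hz', hw'⟩
  simp only at hz hw hz' hw' ⊢
  have hwb : w ∈ ball b s2 := closedBall_subset_ball h2 hw
  have hzb : z' ∈ ball a s1 := closedBall_subset_ball h1 hz'
  have g1 : DifferentiableOn ℂ (fun x : ℂ => g (x, w)) (ball a s1) := by
    intro x hx
    have h3 : DifferentiableWithinAt ℂ (fun x : ℂ => (x, w)) (ball a s1) x := by fun_prop
    have h4 : MapsTo (fun x : ℂ => (x, w)) (ball a s1) (ball a s1 ×ˢ ball b s2) :=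
      fun y hy => ⟨hy, hwb⟩
    exact (hg (x, w) ⟨hx, hwb⟩).comp x h3 h4
  have g2 : DifferentiableOn ℂ (fun x : ℂ => g (z', x)) (ball b s2) := by
    intro x hx
    have h3 : DifferentiableWithinAt ℂ (fun x : ℂ => (z', x)) (ball b s2) x := by fun_prop
    have h4 : MapsTo (fun x : ℂ => (z', x)) (ball b s2) (ball a s1 ×ˢ ball b s2) :=
      fun y hy => ⟨hzb, hy⟩
    exact (hg (z', x) ⟨hzb, hx⟩).comp x h3 h4
  have k1 := lip_of_bound_one h1 g1 (fun x hx => hb (x, w) ⟨hx, hwb⟩) z hz z' hz'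
  have k2 := lip_of_bound_one h2 g2 (fun x hx => hb (z', x) ⟨hzb, hx⟩) w hw w' hw'
  have e : g (z, w) - g (z', w') = (g (z, w) - g (z', w)) + (g (z', w) - g (z', w')) := by abel
  rw [e]
  exact (norm_add_le _ _).trans (add_le_add k1 k2)

end SkewBif
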