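import Pool.Agent.SK.A1
import Pool.Agent.SK.A2
import Pool.Agent.SK.A6
/-! ## MP_9cfccf_an, module A3 -/
open Set Metric Filter Topology Polynomial
namespace SkewBif

theorem A3_log {g : ℂ → ℂ} {b o : ℂ} {R : ℝ} (hg : DifferentiableOn ℂ g (ball b R))
    (hne : ∀ z ∈ ball b R, g z ≠ 0) (ho : o ∈ ball b R) :
    ∃ L : ℂ → ℂ, DifferentiableOn ℂ L (ball b R) ∧ (∀ z ∈ ball b R, Complex.exp (L z) = g z) ∧
      L o = Complex.log (g o) := by
  have hdg : DifferentiableOn ℂ (deriv g) (ball b R) := hg.deriv isOpen_ball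
  have hq : DifferentiableOn ℂ (fun z => deriv g z / g z) (ball b R) := hdg.div hg hne
  obtain ⟨L, hLo, hL⟩ := hq.isExactOn_ball.with_val_at o (Complex.log (g o))
  have hLd : DifferentiableOn ℂ L (ball b R) := fun z hz =>
    (hL z hz).differentiableAt.differentiableWithinAt
  refine ⟨L, hLd, ?_, hLo⟩
  -- `exp L / g` is constant
  have hder : ∀ z ∈ ball b R, HasDerivAt (fun z => Complex.exp (L z) / g z) 0 z := by
    intro z hz
    have h1 : HasDerivAt g (deriv g z) z :=
      (hg.differentiableAt (isOpen_ball.mem_nhds hz)).hasDerivAt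
    have h2 := ((hL z hz).cexp).div h1 (hne z hz)
    have h3 : (Complex.exp (L z) * (deriv g z / g z) * g z - Complex.exp (L z) * deriv g z)
        / g z ^ 2 = 0 := by
      have := hne z hz
      field_simp
      ring
    rw [h3] at h2
    exact h2
  intro z hz
  have hconst : (fun z => Complex.exp (L z) / g z) z = (fun z => Complex.exp (L z) / g z) o := by
    refine (convex_ball b R).is_const_of_fderivWithin_eq_zero (𝕜 := ℂ)
      (fun w hw => (hder w hw).differentiableAt.differentiableWithinAt) (fun w hw => ?_) hz ho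
    rw [fderivWithin_of_isOpen isOpen_ball hw]
    have := (hder w hw).hasFDerivAt.fderiv
    rw [this]
    ext
    simp
  simp only at hconst
  rw [hLo, Complex.exp_log (hne o ho), div_self (hne o ho), div_eq_one_iff_eq (hne z hz)] at hconst
  exact hconst

theorem A3_unif {F : ℕ → ℂ → ℝ} {u : ℂ → ℝ} {s : Set ℂ} (hs : IsCompact s) {K : ℝ} (hK : 0 ≤ K)
    (hF : ∀ m, ∀ z ∈ s, ∀ w ∈ s, |F m z - F m w| ≤ K * ‖z - w‖)
    (hu : ∀ z ∈ s, Tendsto (fun m => F m z) atTop (𝓝 (u z))) {ε : ℝ} (hε : 0 < ε) :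
    ∃ N : ℕ, ∀ m ≥ N, ∀ k ≥ N, ∀ z ∈ s, |F m z - F k z| ≤ ε := by
  have he : 0 < ε / (4 * (K + 1)) := by positivity
  obtain ⟨t, hts, htf, hcov⟩ := hs.finite_cover_balls he
  have hev : ∀ᶠ m in atTop, ∀ x ∈ t, |F m x - u x| < ε / 4 := by
    rw [eventually_all_finite htf]
    intro x hx
    have := (Metric.tendsto_nhds.1 (hu x (hts hx))) (ε / 4) (by positivity)
    simpa only [Real.dist_eq] using this
  obtain ⟨N, hN⟩ := eventually_atTop.1 hev
  refine ⟨N, fun m hm k hk z hz => ?_⟩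
  obtain ⟨x, hx, hzx⟩ := mem_iUnion₂.1 (hcov hz)
  rw [mem_ball, dist_eq_norm] at hzx
  have h1 := hF m z hz x (hts hx)
  have h2 := hF k z hz x (hts hx)
  have h3 := hN m hm x hx
  have h4 := hN k hk x hx
  have h5 : K * ‖z - x‖ ≤ ε / 4 := by
    calc K * ‖z - x‖ ≤ K * (ε / (4 * (K + 1))) := mul_le_mul_of_nonneg_left hzx.le hK
      _ ≤ ε / 4 := by
        rw [mul_div_assoc', div_le_div_iff₀ (by positivity) (by norm_num)]
        nlinarith
  have e : F m z - F k z = (F m z - F m x) + (F m x - u x) - (F k x - u x) - (F k z - F k x) := by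
    ring
  rw [abs_le] at h1 h2 ⊢
  rw [abs_lt] at h3 h4
  constructor <;> linarith [h1.1, h1.2, h2.1, h2.2, h3.1, h3.2, h4.1, h4.2]

theorem A3_bc {f : ℂ → ℂ} {o : ℂ} {ρ η δ : ℝ} (hρ : 0 < ρ) (hη : 0 < η)
    (hf : DifferentiableOn ℂ f (ball o ρ)) (hre : ∀ z ∈ ball o ρ, (f z).re ≤ η) (ho : ‖f o‖ ≤ δ) :
    ∀ z ∈ ball o (ρ / 2), ‖f z‖ ≤ 2 * η + 3 * δ := by
  intro z hz
  rw [mem_ball, dist_eq_norm] at hz
  have hmaps : MapsTo (fun w : ℂ => w + o) (ball 0 ρ) (ball o ρ) := by
    intro w hw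
    rw [mem_ball, dist_zero_right] at hw
    rw [mem_ball, dist_eq_norm, add_sub_cancel_right]
    exact hw
  have hd : DifferentiableOn ℂ (fun w => f (w + o)) (ball 0 ρ) :=
    hf.comp (differentiableOn_id.add_const o) hmaps
  have hzb : z - o ∈ ball (0 : ℂ) ρ := by
    rw [mem_ball, dist_zero_right]
    linarith
  have h := Complex.borelCaratheodory (f := fun w => f (w + o)) (z := z - o) hη hd
    (fun w hw => hre _ (hmaps hw)) hρ hzb
  simp only [sub_add_cancel, zero_add] at h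
  have h0 : 0 < ρ - ‖z - o‖ := by linarith
  refine h.trans (add_le_add ?_ ?_)
  · rw [div_le_iff₀ h0]
    have := norm_nonneg (z - o)
    nlinarith
  · rw [div_le_iff₀ h0]
    have h1 := norm_nonneg (z - o)
    have h2 := norm_nonneg (f o)
    have hδ : 0 ≤ δ := h2.trans ho
    calc ‖f o‖ * (ρ + ‖z - o‖) ≤ δ * (ρ + ‖z - o‖) := mul_le_mul_of_nonneg_right ho (by linarith)
      _ ≤ 3 * δ * (ρ - ‖z - o‖) := by nlinarith

/-- A3. Let `g m` be nonvanishing holomorphic functions on a disc, `‖g m‖ ≤ exp (C * A m)`,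
`A m → ∞`. Assume `log ‖g m z‖ / A m` converges to a positive limit at every point of a nonempty
open set `O`, and at one point `b0` is frequently `≤ ε` for each `ε > 0`. Then at some point `b1`
the values `g m b1` decay like `exp (- ε * A m)`. -/
theorem neg_lemma {b : ℂ} {R C : ℝ} {g : ℕ → ℂ → ℂ} {A : ℕ → ℝ} (hApos : ∀ m, 0 < A m)
    (hA : Tendsto A atTop atTop) (hg : ∀ m, DifferentiableOn ℂ (g m) (ball b R))
    (hne : ∀ m, ∀ z ∈ ball b R, g m z ≠ 0)
    (hbd : ∀ m, ∀ z ∈ ball b R, ‖g m z‖ ≤ Real.exp (C * A m))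
    {O : Set ℂ} (hO : IsOpen O) (hOne : O.Nonempty) (hOsub : O ⊆ ball b R) {u : ℂ → ℝ}
    (hu : ∀ z ∈ O, 0 < u z ∧ Tendsto (fun m => Real.log ‖g m z‖ / A m) atTop (𝓝 (u z)))
    {b0 : ℂ} (hb0 : b0 ∈ ball b R)
    (hlow : ∀ ε > 0, ∃ᶠ m in atTop, Real.log ‖g m b0‖ / A m ≤ ε) :
    ∃ b1 ∈ ball b R, ∃ ε > 0, ∀ᶠ m in atTop, ‖g m b1‖ ≤ Real.exp (-ε * A m) := by
  obtain ⟨o, hoO⟩ := hOne
  have ho : o ∈ ball b R := hOsub hoO
  choose L hLd hLe hLo using fun m => A3_log (hg m) (hne m) ho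
  set h : ℕ → ℂ → ℂ := fun m z => L m z / (A m : ℂ) with hh
  have hhd : ∀ m, DifferentiableOn ℂ (h m) (ball b R) := fun m => (hLd m).div_const _
  have hnorm : ∀ m, ∀ z ∈ ball b R, ‖g m z‖ = Real.exp (L m z).re := by
    intro m z hz
    rw [← hLe m z hz, Complex.norm_exp]
  have hlog : ∀ m, ∀ z ∈ ball b R, Real.log ‖g m z‖ = (L m z).re := by
    intro m z hz
    rw [hnorm m z hz, Real.log_exp]
  have hre : ∀ m, ∀ z, (h m z).re = (L m z).re / A m := by
    intro m z
    simp only [hh]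
    rw [Complex.div_ofReal_re]
  have hreC : ∀ m, ∀ z ∈ ball b R, (h m z).re ≤ C := by
    intro m z hz
    rw [hre, div_le_iff₀ (hApos m)]
    have := hbd m z hz
    rw [hnorm m z hz, Real.exp_le_exp] at this
    exact this
  have hreu : ∀ z ∈ O, Tendsto (fun m => (h m z).re) atTop (𝓝 (u z)) := by
    intro z hz
    refine (hu z hz).2.congr (fun m => ?_)
    rw [hre, hlog m z (hOsub hz)]
  -- the values at `o`
  have him : Tendsto (fun m => (h m o).im) atTop (𝓝 0) := by
    have h1 : ∀ m, ‖(h m o).im‖ ≤ Real.pi / A m := by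
      intro m
      have e : (h m o).im = (Complex.log (g m o)).im / A m := by
        simp only [hh]
        rw [Complex.div_ofReal_im, hLo]
      rw [e, Real.norm_eq_abs, abs_div, abs_of_pos (hApos m), Complex.log_im]
      exact div_le_div_of_nonneg_right (Complex.abs_arg_le_pi _) (hApos m).le
    exact squeeze_zero_norm h1 (hA.const_div_atTop Real.pi)
  have hho : Tendsto (fun m => h m o) atTop (𝓝 ((u o : ℝ) : ℂ)) := by
    have h1 := (hreu o hoO).ofReal
    have h2 := him.ofReal.mul_const Complex.I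
    have h3 := h1.add h2
    simp only [Complex.coe_algebraMap, Complex.ofReal_zero, zero_mul, add_zero] at h3
    refine h3.congr (fun m => ?_)
    exact Complex.re_add_im (h m o)
  obtain ⟨M0, hM0⟩ : ∃ M0, ∀ m, ‖h m o‖ ≤ M0 := by
    obtain ⟨M0, hM0⟩ := (Metric.isBounded_range_of_tendsto _ hho).exists_norm_le
    exact ⟨M0, fun m => hM0 _ (mem_range_self m)⟩
  have hbdd : ∀ r' < R, ∃ M : ℝ, ∀ n, ∀ z ∈ closedBall b r', ‖h n z‖ ≤ M := by
    intro r' hr'
    obtain ⟨M', hM'⟩ := bc_off_center (C := C) (M := M0) ho hr'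
    exact ⟨M', fun n z hz => hM' (h n) (hhd n) (hreC n) (hM0 n) z hz⟩
  -- uniformly Cauchy near `o`
  obtain ⟨ρ, hρ, hρO⟩ := Metric.isOpen_iff.1 hO o hoO
  have hcau : ∀ ε > 0, ∃ N : ℕ, ∀ m ≥ N, ∀ k ≥ N, ∀ z ∈ ball o (ρ / 8), ‖h m z - h k z‖ ≤ ε := by
    -- uniform bound on `ball o (ρ / 2)`
    have hcl : closedBall o (ρ / 2) ⊆ ball b R :=
      (closedBall_subset_ball (by linarith)).trans (hρO.trans hOsub)
    obtain ⟨r', hr', hr'sub⟩ : ∃ r' < R, closedBall o (ρ / 2) ⊆ closedBall b r' := by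
      have hcont : ContinuousOn (fun z => dist z b) (closedBall o (ρ / 2)) := by fun_prop
      obtain ⟨w, hw, hwmax⟩ := (isCompact_closedBall o (ρ / 2)).exists_isMaxOn
        ⟨o, mem_closedBall_self (by linarith)⟩ hcont
      exact ⟨dist w b, hcl hw, fun z hz => hwmax hz⟩
    obtain ⟨M, hM⟩ := hbdd r' hr'
    have hMpos : 0 ≤ M := (norm_nonneg _).trans (hM 0 o (hr'sub (mem_closedBall_self (by linarith))))
    have hlip : ∀ m, ∀ z ∈ closedBall o (ρ / 4), ∀ w ∈ closedBall o (ρ / 4),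
        |(h m z).re - (h m w).re| ≤ M / (ρ / 2 - ρ / 4) * ‖z - w‖ := by
      intro m z hz w hw
      have h1 := lip_of_bound_one (show ρ / 4 < ρ / 2 by linarith)
        ((hhd m).mono (ball_subset_closedBall.trans hcl))
        (fun v hv => hM m v (hr'sub (ball_subset_closedBall hv))) z hz w hw
      rw [← Complex.sub_re]
      exact (Complex.abs_re_le_norm _).trans h1
    intro ε hε
    obtain ⟨N1, hN1⟩ := A3_unif (F := fun m z => (h m z).re) (u := u)
      (isCompact_closedBall o (ρ / 4)) (by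
        have : 0 < ρ / 2 - ρ / 4 := by linarith
        positivity) hlip
      (fun z hz => hreu z (hρO (closedBall_subset_ball (by linarith) hz)))
      (show 0 < ε / 4 by positivity)
    have hco := hho.cauchySeq
    obtain ⟨N2, hN2⟩ := Metric.cauchySeq_iff.1 hco (ε / 6) (by positivity)
    refine ⟨max N1 N2, fun m hm k hk z hz => ?_⟩
    have hsub2 : ball o (ρ / 4) ⊆ ball b R :=
      (ball_subset_ball (by linarith)).trans (hρO.trans hOsub)
    have h1 := A3_bc (f := fun z => h m z - h k z) (o := o) (ρ := ρ / 4) (η := ε / 4) (δ := ε / 6)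
      (by positivity) (by positivity) (((hhd m).mono hsub2).sub ((hhd k).mono hsub2))
      (fun w hw => by
        rw [Complex.sub_re]
        have := hN1 m ((le_max_left _ _).trans hm) k ((le_max_left _ _).trans hk) w
          (ball_subset_closedBall hw)
        exact (le_abs_self _).trans this)
      (by
        have := hN2 m ((le_max_right _ _).trans hm) k ((le_max_right _ _).trans hk)
        rw [dist_eq_norm] at this
        exact this.le) z (by
        have e : ρ / 4 / 2 = ρ / 8 := by ring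
        rw [e]
        exact hz)
    refine h1.trans (le_of_eq ?_)
    ring
  obtain ⟨H, hHd, hHt⟩ := vitali_ball hhd hbdd (o := o) (r := ρ / 8) (by positivity)
    ((ball_subset_ball (by linarith)).trans (hρO.trans hOsub)) hcau
  have hpt : ∀ z ∈ ball b R, Tendsto (fun m => h m z) atTop (𝓝 (H z)) := fun z hz =>
    hHt.tendsto_at hz
  have hptre : ∀ z ∈ ball b R, Tendsto (fun m => (h m z).re) atTop (𝓝 (H z).re) := fun z hz =>
    (Complex.continuous_re.tendsto _).comp (hpt z hz)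
  have hHo : 0 < (H o).re := by
    rw [tendsto_nhds_unique (hptre o ho) (hreu o hoO)]
    exact (hu o hoO).1
  have hHb0 : (H b0).re ≤ 0 := by
    by_contra hcon
    push Not at hcon
    have h1 : ∀ᶠ m in atTop, (H b0).re / 2 < (h m b0).re :=
      (hptre b0 hb0).eventually (lt_mem_nhds (by linarith))
    obtain ⟨m, hm1, hm2⟩ := ((hlow ((H b0).re / 2) (by positivity)).and_eventually h1).exists
    rw [hre, ← hlog m b0 hb0] at hm2
    linarith
  -- open mapping
  have han : AnalyticOnNhd ℂ H (ball b R) := hHd.analyticOnNhd isOpen_ball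
  have hopen : IsOpen (H '' ball b R) := by
    rcases han.is_constant_or_isOpen (convex_ball b R).isPreconnected with ⟨w, hw⟩ | hop
    · exfalso
      rw [hw o ho] at hHo
      rw [hw b0 hb0] at hHb0
      linarith
    · exact hop _ Subset.rfl isOpen_ball
  obtain ⟨δ, hδ, hδsub⟩ := Metric.isOpen_iff.1 hopen (H b0) (mem_image_of_mem H hb0)
  obtain ⟨b1, hb1, hHb1⟩ : H b0 - ((δ / 2 : ℝ) : ℂ) ∈ H '' ball b R := by
    apply hδsub
    rw [mem_ball, dist_eq_norm, sub_sub_cancel_left, norm_neg, Complex.norm_real,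
      Real.norm_of_nonneg (by positivity)]
    linarith
  have hb1re : (H b1).re = (H b0).re - δ / 2 := by
    rw [hHb1, Complex.sub_re, Complex.ofReal_re]
  refine ⟨b1, hb1, δ / 4, by positivity, ?_⟩
  have h1 : ∀ᶠ m in atTop, (h m b1).re < -(δ / 4) :=
    (hptre b1 hb1).eventually (gt_mem_nhds (by rw [hb1re]; linarith))
  filter_upwards [h1] with m hm
  rw [hnorm m b1 hb1, Real.exp_le_exp]
  rw [hre, div_lt_iff₀ (hApos m)] at hm
  exact hm.le

end SkewBif
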