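import Pool.Agent.SK.Defs
/-! ## MP_9cfccf_an, module A4 -/
open Set Metric Filter Topology Polynomial
namespace SkewBif

/-- A4a. If `‖f‖` on the circle is larger than at the centre then `f` has a zero in the disc. -/
theorem exists_zero_of_small {f : ℂ → ℂ} {z₀ : ℂ} {r : ℝ} (hr : 0 < r)
    (hf : DiffContOnCl ℂ f (ball z₀ r)) (h : ∀ z ∈ sphere z₀ r, ‖f z₀‖ < ‖f z‖) :
    ∃ z ∈ ball z₀ r, f z = 0 := by
  by_contra hcon
  push Not at hcon
  have hne : ∀ z ∈ closure (ball z₀ r), f z ≠ 0 := by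
    intro z hz
    rw [closure_ball z₀ hr.ne'] at hz
    by_cases hz' : z ∈ ball z₀ r
    · exact hcon z hz'
    · have hs : z ∈ sphere z₀ r := by
        rw [mem_closedBall] at hz
        rw [mem_ball] at hz'
        rw [mem_sphere]
        exact le_antisymm hz (not_lt.1 hz')
      have := h z hs
      intro h0
      rw [h0, norm_zero] at this
      exact absurd this (not_lt.2 (norm_nonneg _))
  have hinv := hf.inv hne
  have hsne : (sphere z₀ r).Nonempty := NormedSpace.sphere_nonempty.2 hr.le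
  have hcont : ContinuousOn (fun z => ‖f z‖) (sphere z₀ r) := by
    refine (hf.continuousOn.mono ?_).norm
    rw [closure_ball z₀ hr.ne']
    exact sphere_subset_closedBall
  obtain ⟨w, hw, hwmin⟩ := (isCompact_sphere z₀ r).exists_isMinOn hsne hcont
  have hw1 : ‖f z₀‖ < ‖f w‖ := h w hw
  have hwpos : 0 < ‖f w‖ := lt_of_le_of_lt (norm_nonneg _) hw1
  have hz0 : z₀ ∈ closure (ball z₀ r) := subset_closure (mem_ball_self hr)
  have hle := Complex.norm_le_of_forall_mem_frontier_norm_le (C := ‖f w‖⁻¹) isBounded_ball hinv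
    (fun z hz => by
      rw [frontier_ball z₀ hr.ne'] at hz
      have h1 : ‖f w‖ ≤ ‖f z‖ := hwmin hz
      rw [Pi.inv_apply, norm_inv]
      exact inv_anti₀ hwpos h1) hz0
  rw [Pi.inv_apply, norm_inv] at hle
  have hz0pos : 0 < ‖f z₀‖ := norm_pos_iff.2 (hne z₀ hz0)
  have := (inv_le_inv₀ hz0pos hwpos).1 hle
  linarith

theorem A4_isolated {f : ℂ → ℂ} {z₀ : ℂ} {R : ℝ} (hR : 0 < R)
    (hf : DifferentiableOn ℂ f (ball z₀ R)) (hne : ¬ ∀ᶠ z in 𝓝 z₀, f z = 0) {η : ℝ} (hη : 0 < η) :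
    ∃ ρ > 0, ρ < η ∧ ρ < R ∧ ∀ z ∈ sphere z₀ ρ, f z ≠ 0 := by
  have han : AnalyticAt ℂ f z₀ := hf.analyticAt (isOpen_ball.mem_nhds (mem_ball_self hR))
  rcases han.eventually_eq_zero_or_eventually_ne_zero with h | h
  · exact absurd h hne
  · rw [eventually_nhdsWithin_iff, Metric.eventually_nhds_iff] at h
    obtain ⟨ε, hε, hball⟩ := h
    refine ⟨min ε (min η R) / 2, by positivity, ?_, ?_, fun z hz => ?_⟩
    · have h1 : min ε (min η R) ≤ η := (min_le_right _ _).trans (min_le_left _ _)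
      linarith
    · have h1 : min ε (min η R) ≤ R := (min_le_right _ _).trans (min_le_right _ _)
      linarith
    · rw [mem_sphere] at hz
      have h0 : 0 < min ε (min η R) := lt_min hε (lt_min hη hR)
      apply hball
      · have h1 : min ε (min η R) ≤ ε := min_le_left _ _
        rw [hz]
        linarith
      · intro h2
        rw [mem_singleton_iff] at h2
        rw [h2, dist_self] at hz
        linarith

/-- A4b. Stability of a zero in a continuous family: `H : X → ℂ → ℂ`, `H x` holomorphic near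
`z₀`, jointly continuous, `H x₀ z₀ = 0`, `H x₀` not identically zero near `z₀`. Then for `x` near
`x₀` the function `H x` has a zero close to `z₀`. -/
theorem zero_persists {X : Type*} [TopologicalSpace X] {x₀ : X} {z₀ : ℂ} {R : ℝ} (hR : 0 < R)
    {N : Set X} (hN : N ∈ 𝓝 x₀) {H : X → ℂ → ℂ} (hH : ContinuousOn (fun x : X × ℂ => H x.1 x.2) (N ×ˢ ball z₀ R))
    (hhol : ∀ x ∈ N, DifferentiableOn ℂ (H x) (ball z₀ R)) (h0 : H x₀ z₀ = 0)
    (hne : ¬ ∀ᶠ z in 𝓝 z₀, H x₀ z = 0) {η : ℝ} (hη : 0 < η) :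
    ∀ᶠ x in 𝓝 x₀, ∃ z ∈ ball z₀ η, H x z = 0 := by
  have hx₀ : x₀ ∈ N := mem_of_mem_nhds hN
  obtain ⟨ρ, hρ, hρη, hρR, hsph⟩ := A4_isolated hR (hhol x₀ hx₀) hne hη
  have hcat : ∀ y ∈ ball z₀ R, ContinuousAt (fun x : X × ℂ => H x.1 x.2) (x₀, y) := fun y hy =>
    hH.continuousAt (prod_mem_nhds hN (isOpen_ball.mem_nhds hy))
  have hev : ∀ᶠ x in 𝓝 x₀, ∀ y ∈ sphere z₀ ρ, ‖H x z₀‖ < ‖H x y‖ := by
    apply (isCompact_sphere z₀ ρ).eventually_forall_of_forall_eventually
    intro y hy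
    have hy' : y ∈ ball z₀ R := by
      rw [mem_sphere] at hy
      rw [mem_ball, hy]
      exact hρR
    have h1 : ContinuousAt (fun x : X × ℂ => ‖H x.1 x.2‖) (x₀, y) := (hcat y hy').norm
    have h2 : ContinuousAt (fun x : X × ℂ => ‖H x.1 z₀‖) (x₀, y) := by
      have h3 : ContinuousAt (fun x : X × ℂ => (x.1, z₀)) (x₀, y) := by fun_prop
      have h4 : ContinuousAt (fun x : X × ℂ => ‖H x.1 x.2‖) ((fun x : X × ℂ => (x.1, z₀)) (x₀, y)) :=
        (hcat z₀ (mem_ball_self hR)).norm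
      exact ContinuousAt.comp (g := fun x : X × ℂ => ‖H x.1 x.2‖) (f := fun x : X × ℂ => (x.1, z₀))
        h4 h3
    have h5 : ‖H (x₀, y).1 z₀‖ < ‖H (x₀, y).1 (x₀, y).2‖ := by
      show ‖H x₀ z₀‖ < ‖H x₀ y‖
      rw [h0, norm_zero]
      exact norm_pos_iff.2 (hsph y hy)
    exact h2.eventually_lt h1 h5
  filter_upwards [hev, hN] with x hx hxN
  have hdc : DiffContOnCl ℂ (H x) (ball z₀ ρ) :=
    (hhol x hxN).diffContOnCl_ball (closedBall_subset_ball hρR)
  obtain ⟨z, hz, hz0⟩ := exists_zero_of_small hρ hdc hx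
  exact ⟨z, ball_subset_ball hρη.le hz, hz0⟩

/-- A4c. Robust covering: if a compact set `K` is contained in `g '' V` (`g` holomorphic on the open
set `V`, nowhere locally constant) then `K ⊆ f '' V` for every holomorphic `f` which is uniformly
close to `g` on a suitable compact subset of `V`. -/
theorem robust_cover {V : Set ℂ} (hV : IsOpen V) {g : ℂ → ℂ} (hg : DifferentiableOn ℂ g V)
    (hnc : ∀ a ∈ V, ¬ ∀ᶠ z in 𝓝 a, g z = g a) {K : Set ℂ} (hK : IsCompact K) (hKV : K ⊆ g '' V) :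
    ∃ η > 0, ∃ V' : Set ℂ, IsCompact V' ∧ V' ⊆ V ∧ ∀ f : ℂ → ℂ, DifferentiableOn ℂ f V →
      (∀ z ∈ V', ‖f z - g z‖ ≤ η) → K ⊆ f '' V := by
  classical
  have hloc : ∀ t : ℂ, t ∈ K → ∃ (w : ℂ) (ρ c : ℝ), 0 < ρ ∧ 0 < c ∧ closedBall w ρ ⊆ V ∧ g w = t ∧
      ∀ z ∈ sphere w ρ, 2 * c ≤ ‖g z - t‖ := by
    intro t ht
    obtain ⟨w, hw, hwt⟩ := hKV ht
    obtain ⟨R, hR, hRV⟩ := Metric.isOpen_iff.1 hV w hw
    have hdiff : DifferentiableOn ℂ (fun z => g z - t) (ball w R) :=
      (hg.mono hRV).sub (differentiableOn_const t)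
    have hne : ¬ ∀ᶠ z in 𝓝 w, g z - t = 0 := by
      intro h
      apply hnc w hw
      filter_upwards [h] with z hz
      rw [hwt]
      exact sub_eq_zero.1 hz
    obtain ⟨ρ, hρ, _, hρR, hsph⟩ := A4_isolated hR hdiff hne one_pos
    have hsub : closedBall w ρ ⊆ V := (closedBall_subset_ball hρR).trans hRV
    have hcont : ContinuousOn (fun z => ‖g z - t‖) (sphere w ρ) :=
      ((hg.continuousOn.mono (sphere_subset_closedBall.trans hsub)).sub continuousOn_const).norm
    obtain ⟨y, hy, hymin⟩ := (isCompact_sphere w ρ).exists_isMinOn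
      (NormedSpace.sphere_nonempty.2 hρ.le) hcont
    have hypos : 0 < ‖g y - t‖ := norm_pos_iff.2 (hsph y hy)
    refine ⟨w, ρ, ‖g y - t‖ / 2, hρ, by positivity, hsub, hwt, fun z hz => ?_⟩
    have h1 : ‖g y - t‖ ≤ ‖g z - t‖ := hymin hz
    linarith
  choose! w ρ c hρ hc hsub hw hsph using hloc
  obtain ⟨s, hsK, hscov⟩ := hK.elim_nhds_subcover (fun t => ball t (c t / 4))
    (fun t ht => ball_mem_nhds t (by have := hc t ht; positivity))
  obtain ⟨η, hη, hηs⟩ : ∃ η : ℝ, 0 < η ∧ ∀ t ∈ s, η ≤ c t / 4 := by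
    rcases s.eq_empty_or_nonempty with hs | hs
    · exact ⟨1, one_pos, by simp [hs]⟩
    · obtain ⟨t0, ht0, hmin⟩ := s.exists_min_image (fun t => c t / 4) hs
      exact ⟨c t0 / 4, by have := hc t0 (hsK t0 ht0); positivity, hmin⟩
  refine ⟨η, hη, ⋃ t ∈ s, closedBall (w t) (ρ t), ?_, ?_, ?_⟩
  · exact s.isCompact_biUnion (fun t _ => isCompact_closedBall _ _)
  · exact iUnion₂_subset (fun t ht => hsub t (hsK t ht))
  · intro f hf hfg t' ht'
    obtain ⟨t, hts, htt'⟩ : ∃ t ∈ s, t' ∈ ball t (c t / 4) := by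
      have := hscov ht'
      simpa using this
    have htK := hsK t hts
    have hcl : ∀ z ∈ closedBall (w t) (ρ t), ‖f z - g z‖ ≤ c t / 4 := by
      intro z hz
      refine (hfg z ?_).trans (hηs t hts)
      exact mem_iUnion₂.2 ⟨t, hts, hz⟩
    have hd : DiffContOnCl ℂ (fun z => f z - t') (ball (w t) (ρ t)) :=
      (hf.sub (differentiableOn_const t')).diffContOnCl_ball (hsub t htK)
    have htt : ‖t - t'‖ < c t / 4 := by
      rw [mem_ball, dist_comm, dist_eq_norm] at htt'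
      exact htt'
    have hctr : ‖f (w t) - t'‖ < c t / 2 := by
      have h1 := hcl (w t) (mem_closedBall_self (hρ t htK).le)
      have e : f (w t) - t' = (f (w t) - g (w t)) + (t - t') := by
        rw [hw t htK]
        ring
      rw [e]
      refine lt_of_le_of_lt (norm_add_le _ _) ?_
      linarith
    obtain ⟨z, hz, hz0⟩ := exists_zero_of_small (hρ t htK) hd (fun z hz => by
      have h1 := hcl z (sphere_subset_closedBall hz)
      have h2 := hsph t htK z hz
      have e : g z - t = (f z - t') - (f z - g z) - (t - t') := by ring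
      have h3 : ‖g z - t‖ ≤ ‖f z - t'‖ + ‖f z - g z‖ + ‖t - t'‖ := by
        rw [e]
        refine (norm_sub_le _ _).trans ?_
        have := norm_sub_le (f z - t') (f z - g z)
        linarith
      have hcp := hc t htK
      show ‖f (w t) - t'‖ < ‖f z - t'‖
      linarith)
    exact ⟨z, hsub t htK (ball_subset_closedBall hz), sub_eq_zero.1 hz0⟩

end SkewBif
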