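import Pool.Agent.SK.Defs
/-! ## MP_9cfccf_an, module A5 -/
open Set Metric Filter Topology Polynomial
namespace SkewBif

/-- Local form of the implicit function theorem used in A5. -/
private lemma A5_local {P V : Type*} [NormedAddCommGroup P] [NormedSpace ℂ P] [CompleteSpace P]
    [NormedAddCommGroup V] [NormedSpace ℂ V] [CompleteSpace V] {f : P × V → V} {q₀ : P} {v₀ : V}
    (hf : ContDiffAt ℂ 1 f (q₀, v₀)) (h0 : f (q₀, v₀) = 0)
    (hinv : ∃ A : V ≃L[ℂ] V, HasFDerivAt (fun v => f (q₀, v)) (A : V →L[ℂ] V) v₀) :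
    ∃ g : P → V, g q₀ = v₀ ∧ (∀ᶠ q in 𝓝 q₀, ContDiffAt ℂ 1 g q) ∧
      (∀ᶠ q in 𝓝 q₀, f (q, g q) = 0) ∧
      ∃ r > 0, ∀ q, dist q q₀ < r → ∀ v, dist v v₀ < r → f (q, v) = 0 → g q = v := by
  obtain ⟨A, hA⟩ := hinv
  have hd : HasFDerivAt f (fderiv ℂ f (q₀, v₀)) (q₀, v₀) :=
    (hf.differentiableAt one_ne_zero).hasFDerivAt
  have hcomp : HasFDerivAt (fun v => f (q₀, v))
      (fderiv ℂ f (q₀, v₀) ∘L ContinuousLinearMap.inr ℂ P V) v₀ :=
    hd.comp v₀ (hasFDerivAt_prodMk_right q₀ v₀)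
  have if₂ : (fderiv ℂ f (q₀, v₀) ∘L ContinuousLinearMap.inr ℂ P V).IsInvertible :=
    ⟨A, hA.unique hcomp⟩
  refine ⟨hf.implicitFunction one_ne_zero if₂, hf.implicitFunction_apply_self one_ne_zero if₂,
    ?_, ?_, ?_⟩
  · exact (hf.contDiffAt_implicitFunction one_ne_zero if₂).eventually (by simp)
  · have h := hf.eventually_apply_implicitFunction one_ne_zero if₂
    rw [h0] at h
    exact h
  · have h := hf.eventually_apply_eq_iff_implicitFunction one_ne_zero if₂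
    rw [h0] at h
    obtain ⟨r, hr, h1⟩ := Metric.eventually_nhds_iff.1 h
    refine ⟨r, hr, fun q hq v hv hfv => ?_⟩
    exact (h1 (y := (q, v)) (by rw [Prod.dist_eq]; exact max_lt hq hv)).1 hfv

/-- A5. Uniform implicit branches. `H (p, y, v) = 0` is solved by `v = s y` at `p = p₀` for `y` in a
compact set `K`, and the derivative in `v` is invertible there. Then for `p` near `p₀`, and all
`y ∈ K`, there is a unique solution near `s y`, depending in a `C¹` way on `(p, y)`.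

Proof. For each `y₀ ∈ K` the map `Ψ (p, y, v) = (p, y, H (p, y, v))` has invertible derivative at
`(p₀, y₀, s y₀)` (`ContDiffAt.toOpenPartialHomeomorph`, `ContDiffAt.to_localInverse`), giving
radii `a, b > 0` and a `C¹` solution on `ball p₀ a × ball y₀ a`, unique in `ball (s y₀) b`.
Take a finite subcover of `K` by the balls `ball y₀ a'` with `a' ≤ a` so small that
`dist (s y) (s y₀) < b / 4` on `K ∩ ball y₀ a'`; `η = min η₀ (min b / 4)`, then shrink `δ` so that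
all finitely many local solutions are within `η` of `s y` (uniform continuity near the compact
pieces). -/
theorem uib {E Y V : Type*} [NormedAddCommGroup E] [NormedSpace ℂ E] [CompleteSpace E]
    [NormedAddCommGroup Y] [NormedSpace ℂ Y] [CompleteSpace Y]
    [NormedAddCommGroup V] [NormedSpace ℂ V] [CompleteSpace V]
    {H : E × Y × V → V} {p₀ : E} {K : Set Y} (hK : IsCompact K) {s : Y → V}
    (hs : ContinuousOn s K) (hH : ∀ y ∈ K, ContDiffAt ℂ 1 H (p₀, y, s y))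
    (h0 : ∀ y ∈ K, H (p₀, y, s y) = 0)
    (hinv : ∀ y ∈ K, ∃ A : V ≃L[ℂ] V, HasFDerivAt (fun v => H (p₀, y, v)) (A : V →L[ℂ] V) (s y))
    {η₀ : ℝ} (hη₀ : 0 < η₀) :
    ∃ δ > 0, ∃ η > 0, η ≤ η₀ ∧ ∃ φ : E → Y → V, (∀ y ∈ K, φ p₀ y = s y) ∧
      ContinuousOn (fun x : E × Y => φ x.1 x.2) (ball p₀ δ ×ˢ K) ∧
      ∀ p ∈ ball p₀ δ, ∀ y ∈ K, dist (φ p y) (s y) < η ∧ H (p, y, φ p y) = 0 ∧
        (∀ v, dist v (s y) < η → H (p, y, v) = 0 → v = φ p y) ∧
        (y ∈ interior K → ContDiffAt ℂ 1 (fun x : E × Y => φ x.1 x.2) (p, y)) := by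
  classical
  -- local solutions
  have hloc : ∀ y ∈ K, ∃ g : E × Y → V, g (p₀, y) = s y ∧
      (∀ᶠ q in 𝓝 (p₀, y), ContDiffAt ℂ 1 g q) ∧
      (∀ᶠ q : E × Y in 𝓝 (p₀, y), H (q.1, q.2, g q) = 0) ∧
      ∃ r > 0, ∀ q : E × Y, dist q (p₀, y) < r → ∀ v, dist v (s y) < r →
        H (q.1, q.2, v) = 0 → g q = v := by
    intro y hy
    have hf : ContDiffAt ℂ 1 (fun x : (E × Y) × V => H (x.1.1, x.1.2, x.2)) ((p₀, y), s y) := by
      have h1 : ContDiffAt ℂ 1 (fun x : (E × Y) × V => (x.1.1, x.1.2, x.2)) ((p₀, y), s y) := by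
        fun_prop
      exact (hH y hy).comp ((p₀, y), s y) h1
    exact A5_local hf (h0 y hy) (hinv y hy)
  -- uniqueness, uniform radius
  have hU : ∀ᶠ x : E × ℝ in 𝓝 (p₀, (0 : ℝ)), ∀ y ∈ K, y ∈ K → ∀ v v', dist v (s y) < x.2 →
      dist v' (s y) < x.2 → H (x.1, y, v) = 0 → H (x.1, y, v') = 0 → v = v' := by
    apply hK.eventually_forall_of_forall_eventually
    intro y hy
    obtain ⟨g, -, -, -, r, hr, hg⟩ := hloc y hy
    have hsy : ∀ᶠ y' in 𝓝 y, y' ∈ K → dist (s y') (s y) < r / 2 := by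
      have := (hs y hy) (Metric.ball_mem_nhds (s y) (half_pos hr))
      rw [mem_map, mem_nhdsWithin_iff_eventually] at this
      exact this
    have hT : Tendsto (fun z : (E × ℝ) × Y => z.2) (𝓝 ((p₀, (0 : ℝ)), y)) (𝓝 y) :=
      continuous_snd.tendsto _
    have hT1 : Tendsto (fun z : (E × ℝ) × Y => z.1.2) (𝓝 ((p₀, (0 : ℝ)), y)) (𝓝 0) :=
      (continuous_snd.comp continuous_fst).tendsto _
    have hT2 : Tendsto (fun z : (E × ℝ) × Y => (z.1.1, z.2)) (𝓝 ((p₀, (0 : ℝ)), y))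
        (𝓝 (p₀, y)) := by
      have : Continuous (fun z : (E × ℝ) × Y => (z.1.1, z.2)) := by fun_prop
      exact this.tendsto _
    filter_upwards [hT.eventually hsy, hT1.eventually (gt_mem_nhds (half_pos hr)),
      hT2.eventually (Metric.ball_mem_nhds _ hr)] with z h1 h2 h3
    intro hz v v' hv hv' hHv hHv'
    have hz1 := h1 hz
    have e1 : dist v (s y) < r := by
      have := dist_triangle v (s z.2) (s y)
      linarith
    have e2 : dist v' (s y) < r := by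
      have := dist_triangle v' (s z.2) (s y)
      linarith
    rw [← hg (z.1.1, z.2) h3 v e1 hHv, ← hg (z.1.1, z.2) h3 v' e2 hHv']
  obtain ⟨r0, hr0, hU0⟩ := Metric.eventually_nhds_iff.1 hU
  -- choice of eta
  obtain ⟨η, hη, hηη₀, hηr⟩ : ∃ η : ℝ, 0 < η ∧ η ≤ η₀ ∧ η < r0 :=
    ⟨min η₀ (r0 / 2), lt_min hη₀ (half_pos hr0), min_le_left _ _,
      lt_of_le_of_lt (min_le_right _ _) (half_lt_self hr0)⟩
  have hU1 : ∀ p, dist p p₀ < r0 → ∀ y ∈ K, ∀ v v', dist v (s y) < η →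
      dist v' (s y) < η → H (p, y, v) = 0 → H (p, y, v') = 0 → v = v' := by
    intro p hp y hy v v' hv hv' h1 h2
    refine hU0 (y := (p, η)) ?_ y hy hy v v' hv hv' h1 h2
    rw [Prod.dist_eq]
    refine max_lt hp ?_
    rw [Real.dist_eq, sub_zero, abs_of_pos hη]
    exact hηr
  -- local C1 solutions near every point
  have hQ : ∀ᶠ p in 𝓝 p₀, ∀ y ∈ K, y ∈ K → ∃ g : E × Y → V, ContDiffAt ℂ 1 g (p, y) ∧
      (∀ᶠ q : E × Y in 𝓝 (p, y), H (q.1, q.2, g q) = 0) ∧ dist (g (p, y)) (s y) < η := by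
    apply hK.eventually_forall_of_forall_eventually
    intro y hy
    obtain ⟨g, hgy, hg1, hg2, -⟩ := hloc y hy
    have hsy : ∀ᶠ y' in 𝓝 y, y' ∈ K → dist (s y') (s y) < η / 2 := by
      have := (hs y hy) (Metric.ball_mem_nhds (s y) (half_pos hη))
      rw [mem_map, mem_nhdsWithin_iff_eventually] at this
      exact this
    have hT : Tendsto (fun z : E × Y => z.2) (𝓝 (p₀, y)) (𝓝 y) := continuous_snd.tendsto _
    have hgc : ∀ᶠ z in 𝓝 (p₀, y), dist (g z) (s y) < η / 2 := by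
      have hc : ContinuousAt g (p₀, y) := hg1.self_of_nhds.continuousAt
      have := hc (Metric.ball_mem_nhds _ (half_pos hη))
      rw [hgy] at this
      exact this
    filter_upwards [hT.eventually hsy, hgc, hg1, hg2.eventually_nhds] with z h1 h2 h3 h4
    intro hz
    refine ⟨g, h3, h4, ?_⟩
    have e1 := h1 hz
    have e2 := dist_triangle_right (g z) (s z.2) (s y)
    have : dist (g (z.1, z.2)) (s z.2) < η := by
      rw [Prod.mk.eta]
      linarith
    exact this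
  obtain ⟨r1, hr1, hQ1⟩ := Metric.eventually_nhds_iff.1 hQ
  set δ := min r0 r1 with hδ
  have hδ0 : 0 < δ := lt_min hr0 hr1
  -- the solution
  have hex : ∀ p, dist p p₀ < δ → ∀ y ∈ K, ∃ v, dist v (s y) < η ∧ H (p, y, v) = 0 := by
    intro p hp y hy
    obtain ⟨g, -, h2, h3⟩ := hQ1 (lt_of_lt_of_le hp (min_le_right _ _)) y hy hy
    exact ⟨g (p, y), h3, h2.self_of_nhds⟩
  let φ : E → Y → V := fun p y =>
    if h : ∃ v, dist v (s y) < η ∧ H (p, y, v) = 0 then h.choose else s y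
  have hφ : ∀ p, dist p p₀ < δ → ∀ y ∈ K, dist (φ p y) (s y) < η ∧ H (p, y, φ p y) = 0 := by
    intro p hp y hy
    have h := hex p hp y hy
    have : φ p y = h.choose := dif_pos h
    rw [this]
    exact h.choose_spec
  have hφu : ∀ p, dist p p₀ < δ → ∀ y ∈ K, ∀ v, dist v (s y) < η → H (p, y, v) = 0 →
      v = φ p y := by
    intro p hp y hy v hv hv0
    obtain ⟨h1, h2⟩ := hφ p hp y hy
    exact hU1 p (lt_of_lt_of_le hp (min_le_left _ _)) y hy v _ hv h1 hv0 h2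
  -- local representation
  have hrep : ∀ p, dist p p₀ < δ → ∀ y ∈ K, ∃ g : E × Y → V, ContDiffAt ℂ 1 g (p, y) ∧
      ∀ᶠ q : E × Y in 𝓝 (p, y), q.2 ∈ K → φ q.1 q.2 = g q := by
    intro p hp y hy
    obtain ⟨g, h1, h2, h3⟩ := hQ1 (lt_of_lt_of_le hp (min_le_right _ _)) y hy hy
    refine ⟨g, h1, ?_⟩
    obtain ⟨c, hc0, hc⟩ : ∃ c : ℝ, 0 < c ∧ dist (g (p, y)) (s y) + 2 * c < η :=
      ⟨(η - dist (g (p, y)) (s y)) / 4, by linarith, by linarith⟩
    have hsy : ∀ᶠ y' in 𝓝 y, y' ∈ K → dist (s y') (s y) < c := by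
      have := (hs y hy) (Metric.ball_mem_nhds (s y) hc0)
      rw [mem_map, mem_nhdsWithin_iff_eventually] at this
      exact this
    have hT : Tendsto (fun z : E × Y => z.2) (𝓝 (p, y)) (𝓝 y) := continuous_snd.tendsto _
    have hT1 : Tendsto (fun z : E × Y => z.1) (𝓝 (p, y)) (𝓝 p) := continuous_fst.tendsto _
    have hgc : ∀ᶠ z in 𝓝 (p, y), dist (g z) (g (p, y)) < c :=
      h1.continuousAt (Metric.ball_mem_nhds _ hc0)
    filter_upwards [hT.eventually hsy, hgc, h2,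
      hT1.eventually (isOpen_ball.mem_nhds (mem_ball.2 hp))] with q e1 e2 e3 e4
    intro hq
    refine (hφu q.1 e4 q.2 hq (g q) ?_ e3).symm
    have t1 := dist_triangle (g q) (g (p, y)) (s q.2)
    have t2 := dist_triangle_right (g (p, y)) (s q.2) (s y)
    have := e1 hq
    linarith
  refine ⟨δ, hδ0, η, hη, hηη₀, φ, ?_, ?_, ?_⟩
  · intro y hy
    exact (hφu p₀ (by rw [dist_self]; exact hδ0) y hy (s y) (by rw [dist_self]; exact hη)
      (h0 y hy)).symm
  · rintro ⟨p, y⟩ ⟨hp, hy⟩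
    obtain ⟨g, h1, h2⟩ := hrep p hp y hy
    have hgw : ContinuousWithinAt g (ball p₀ δ ×ˢ K) (p, y) := h1.continuousAt.continuousWithinAt
    refine hgw.congr_of_eventuallyEq ?_ (h2.self_of_nhds hy)
    have : ∀ᶠ q in 𝓝[ball p₀ δ ×ˢ K] (p, y), q ∈ ball p₀ δ ×ˢ K := self_mem_nhdsWithin
    filter_upwards [this, nhdsWithin_le_nhds h2] with q hq1 hq2
    exact hq2 hq1.2
  · intro p hp y hy
    refine ⟨(hφ p hp y hy).1, (hφ p hp y hy).2, hφu p hp y hy, ?_⟩
    intro hyi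
    obtain ⟨g, h1, h2⟩ := hrep p hp y hy
    refine h1.congr_of_eventuallyEq ?_
    have hT : Tendsto (fun z : E × Y => z.2) (𝓝 (p, y)) (𝓝 y) := continuous_snd.tendsto _
    filter_upwards [h2, hT.eventually (mem_interior_iff_mem_nhds.1 hyi)] with q e1 e2
    exact e1 e2

end SkewBif
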