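import Pool.Agent.SK.A1
import Pool.Agent.SK.A4
/-! ## MP_9cfccf_an, module A7 -/
open Set Metric Filter Topology Polynomial
namespace SkewBif

/-- a holomorphic function on a ball which does not vanish on a smaller circle is nowhere locally
zero -/
theorem A7_not_ev_zero {f : ℂ → ℂ} {cc : ℂ} {r R : ℝ} (hr : 0 < r) (hrR : r < R)
    (hf : DifferentiableOn ℂ f (ball cc R)) (hs : ∀ z ∈ sphere cc r, f z ≠ 0) {y : ℂ}
    (hy : y ∈ ball cc R) : ¬ ∃ᶠ z in 𝓝[≠] y, f z = 0 := by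
  intro h
  have han : AnalyticOnNhd ℂ f (ball cc R) := hf.analyticOnNhd isOpen_ball
  have heq := han.eqOn_zero_of_preconnected_of_frequently_eq_zero
    (convex_ball cc R).isPreconnected hy h
  obtain ⟨w, hw⟩ : (sphere cc r).Nonempty := NormedSpace.sphere_nonempty.2 hr.le
  apply hs w hw
  exact heq (by
    rw [mem_sphere] at hw
    rw [mem_ball, hw]
    exact hrR)

theorem A7_not_ev_zero' {f : ℂ → ℂ} {cc : ℂ} {r R : ℝ} (hr : 0 < r) (hrR : r < R)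
    (hf : DifferentiableOn ℂ f (ball cc R)) (hs : ∀ z ∈ sphere cc r, f z ≠ 0) {y : ℂ}
    (hy : y ∈ ball cc R) : ¬ ∀ᶠ z in 𝓝 y, f z = 0 := by
  intro h
  apply A7_not_ev_zero hr hrR hf hs hy
  exact (h.filter_mono nhdsWithin_le_nhds).frequently

theorem A7_finite {f : ℂ → ℂ} {cc : ℂ} {r R : ℝ} (hr : 0 < r) (hrR : r < R)
    (hf : DifferentiableOn ℂ f (ball cc R)) (hs : ∀ z ∈ sphere cc r, f z ≠ 0) :
    {z | z ∈ closedBall cc r ∧ f z = 0}.Finite := by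
  by_contra hinf
  obtain ⟨x, hx, hacc⟩ := Set.Infinite.exists_accPt_of_subset_isCompact
    (s := {z | z ∈ closedBall cc r ∧ f z = 0}) hinf (isCompact_closedBall cc r) (fun z hz => hz.1)
  apply A7_not_ev_zero hr hrR hf hs (closedBall_subset_ball hrR hx)
  rw [accPt_iff_frequently_nhdsNE] at hacc
  exact hacc.mono (fun z hz => hz.2)

/-- local uniqueness of the zero at a simple zero -/
theorem A7_unique {F : ℂ × ℂ → ℂ} {ζ y : ℂ} (hF : ContDiffAt ℂ 1 F (ζ, y))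
    (hd : deriv (fun z => F (ζ, z)) y ≠ 0) :
    ∀ᶠ q in 𝓝 (((ζ, y) : ℂ × ℂ), ((ζ, y) : ℂ × ℂ)),
      (q.1.1 = q.2.1 → F q.1 = 0 → F q.2 = 0 → q.1.2 = q.2.2) := by
  have hst := hF.hasStrictFDerivAt one_ne_zero
  set F' := fderiv ℂ F (ζ, y) with hF'
  have hder : HasDerivAt (fun z => F (ζ, z)) (F' (0, 1)) y := by
    have h1 : HasDerivAt (fun z : ℂ => ((ζ, z) : ℂ × ℂ)) ((0, 1) : ℂ × ℂ) y :=
      (hasDerivAt_const y ζ).prodMk (hasDerivAt_id y)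
    exact hst.hasFDerivAt.comp_hasDerivAt y h1
  have hne : F' (0, 1) ≠ 0 := by
    rw [← hder.deriv]
    exact hd
  have hpos : 0 < ‖F' (0, 1)‖ / 2 := by
    have := norm_pos_iff.2 hne
    positivity
  have hlo := hst.isLittleO.def hpos
  filter_upwards [hlo] with q hq h1 h2 h3
  obtain ⟨⟨p1, p2⟩, ⟨q1, q2⟩⟩ := q
  simp only at hq h1 h2 h3 ⊢
  subst h1
  rw [h2, h3] at hq
  have e1 : ((p1, p2) : ℂ × ℂ) - (p1, q2) = (p2 - q2) • ((0, 1) : ℂ × ℂ) := by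
    ext <;> simp
  rw [e1, map_smul, smul_eq_mul, sub_zero, zero_sub, norm_neg, norm_mul, norm_smul] at hq
  have e2 : ‖((0, 1) : ℂ × ℂ)‖ = 1 := by
    simp [Prod.norm_def]
  rw [e2, mul_one] at hq
  by_contra hcon
  have h4 : 0 < ‖p2 - q2‖ := norm_pos_iff.2 (sub_ne_zero.2 hcon)
  have h5 := norm_pos_iff.2 hne
  nlinarith

/-- all zeros over `0` belong to motions starting from zeros over `ζ1` -/
theorem A7_motion {δ r R : ℝ} {cc ζ1 : ℂ} (hδ : 0 < δ) (hr : 0 < r)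
    (hrR : r < R) (hζ1 : ζ1 ∈ ball (0 : ℂ) δ) {F : ℂ → ℂ → ℂ}
    (ha : ContDiffOn ℂ 1 (fun x : ℂ × ℂ => F x.1 x.2) (ball 0 δ ×ˢ ball cc R))
    (hcirc : ∀ ζ ∈ ball (0 : ℂ) δ, ∀ z ∈ sphere cc r, F ζ z ≠ 0)
    (zc : ℂ → ℂ → ℂ)
    (hmot : ∀ z1 ∈ closedBall cc r, F ζ1 z1 = 0 →
      DifferentiableOn ℂ (zc z1) (ball 0 δ) ∧ zc z1 ζ1 = z1 ∧
        ∀ ζ ∈ ball (0 : ℂ) δ, zc z1 ζ ∈ closedBall cc r ∧ F ζ (zc z1 ζ) = 0 ∧
          deriv (F ζ) (zc z1 ζ) ≠ 0)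
    {y0 : ℂ} (hy0 : y0 ∈ closedBall cc r) (hFy0 : F 0 y0 = 0) :
    ∃ z1 ∈ closedBall cc r, F ζ1 z1 = 0 ∧ zc z1 0 = y0 := by
  have hopen : IsOpen (ball (0 : ℂ) δ ×ˢ ball cc R) := isOpen_ball.prod isOpen_ball
  have hFd : ∀ ζ ∈ ball (0 : ℂ) δ, DifferentiableOn ℂ (F ζ) (ball cc R) := by
    intro ζ hζ z hz
    have h1 : DifferentiableAt ℂ (fun x : ℂ × ℂ => F x.1 x.2) (ζ, z) :=
      ((ha.contDiffAt (hopen.mem_nhds ⟨hζ, hz⟩)).differentiableAt one_ne_zero)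
    have h2 : DifferentiableAt ℂ (fun z : ℂ => ((ζ, z) : ℂ × ℂ)) z := by fun_prop
    exact (DifferentiableAt.comp z (g := fun x : ℂ × ℂ => F x.1 x.2)
      (f := fun z : ℂ => ((ζ, z) : ℂ × ℂ)) h1 h2).differentiableWithinAt
  have hcont : ContinuousOn (fun x : ℂ × ℂ => F x.1 x.2) (ball 0 δ ×ˢ ball cc R) := ha.continuousOn
  set J : Set ℂ := {z | z ∈ closedBall cc r ∧ F ζ1 z = 0} with hJ
  have hJfin : J.Finite := A7_finite hr hrR (hFd ζ1 hζ1) (hcirc ζ1 hζ1)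
  set N : Set ℂ := {ζ | ζ ∈ ball (0 : ℂ) δ ∧ ∃ y ∈ closedBall cc r, F ζ y = 0 ∧ ∀ j ∈ J, zc j ζ ≠ y}
    with hN
  -- N is open
  have hNo : IsOpen N := by
    rw [isOpen_iff_mem_nhds]
    rintro ζ ⟨hζ, y, hy, hFy, hyJ⟩
    have hyB : y ∈ ball cc r := by
      by_contra hcon
      have hs : y ∈ sphere cc r := by
        rw [mem_closedBall] at hy
        rw [mem_ball] at hcon
        rw [mem_sphere]
        exact le_antisymm hy (not_lt.1 hcon)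
      exact hcirc ζ hζ y hs hFy
    obtain ⟨R1, hR1, hR1sub⟩ := Metric.isOpen_iff.1 isOpen_ball y hyB
    have hR1B : ball y R1 ⊆ ball cc R := hR1sub.trans (ball_subset_ball hrR.le)
    -- distance to the other motions
    obtain ⟨η, hη, hηJ⟩ : ∃ η > 0, ∀ j ∈ J, 2 * η ≤ ‖zc j ζ - y‖ := by
      rcases J.eq_empty_or_nonempty with hJe | hJne
      · exact ⟨1, one_pos, by simp [hJe]⟩
      · obtain ⟨j0, hj0, hmin⟩ := J.exists_min_image (fun j => ‖zc j ζ - y‖) hJfin hJne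
        have hp : 0 < ‖zc j0 ζ - y‖ := norm_pos_iff.2 (sub_ne_zero.2 (hyJ j0 hj0))
        refine ⟨‖zc j0 ζ - y‖ / 2, by positivity, fun j hj => ?_⟩
        have := hmin j hj
        linarith
    have hz := zero_persists (X := ℂ) (x₀ := ζ) (z₀ := y) (R := R1) hR1
      (isOpen_ball.mem_nhds hζ) (H := F) (hcont.mono (prod_mono Subset.rfl hR1B))
      (fun x hx => (hFd x hx).mono hR1B) hFy
      (A7_not_ev_zero' hr hrR (hFd ζ hζ) (hcirc ζ hζ) (hR1B (mem_ball_self hR1)))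
      (η := min R1 η) (lt_min hR1 hη)
    have hcl : ∀ᶠ ζ' in 𝓝 ζ, ∀ j ∈ J, ‖zc j ζ' - zc j ζ‖ < η := by
      rw [eventually_all_finite hJfin]
      intro j hj
      have h1 : ContinuousAt (zc j) ζ :=
        ((hmot j hj.1 hj.2).1.differentiableAt (isOpen_ball.mem_nhds hζ)).continuousAt
      have h2 := Metric.continuousAt_iff'.1 h1 η hη
      simpa only [dist_eq_norm] using h2
    filter_upwards [hz, hcl, isOpen_ball.mem_nhds hζ] with ζ' h1 h2 h3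
    obtain ⟨y', hy', hFy'⟩ := h1
    refine ⟨h3, y', ball_subset_closedBall (hR1sub (ball_subset_ball (min_le_left _ _) hy')),
      hFy', fun j hj heq => ?_⟩
    have h4 := h2 j hj
    have h5 := hηJ j hj
    rw [heq] at h4
    have h6 : ‖y' - y‖ < η := by
      rw [mem_ball, dist_eq_norm] at hy'
      exact hy'.trans_le (min_le_right _ _)
    have e : zc j ζ - y = (y' - y) - (y' - zc j ζ) := by ring
    have h7 : ‖zc j ζ - y‖ ≤ ‖y' - y‖ + ‖y' - zc j ζ‖ := by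
      rw [e]
      exact norm_sub_le _ _
    linarith
  -- N is relatively closed
  have hNc : closure N ∩ ball (0 : ℂ) δ ⊆ N := by
    rintro ζ ⟨hζN, hζ⟩
    obtain ⟨x, hxN, hxζ⟩ := mem_closure_iff_seq_limit.1 hζN
    choose hxD y hycl hFy hyJ using hxN
    obtain ⟨yi, hyi, φ, hφ, hyφ⟩ := (isCompact_closedBall cc r).tendsto_subseq hycl
    have hxφ : Tendsto (fun n => x (φ n)) atTop (𝓝 ζ) := hxζ.comp hφ.tendsto_atTop
    have hpair : Tendsto (fun n => ((x (φ n), y (φ n)) : ℂ × ℂ)) atTop (𝓝 (ζ, yi)) :=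
      hxφ.prodMk_nhds hyφ
    have hyiB : yi ∈ ball cc R := closedBall_subset_ball hrR hyi
    have hFat : ContinuousAt (fun x : ℂ × ℂ => F x.1 x.2) (ζ, yi) :=
      hcont.continuousAt (hopen.mem_nhds ⟨hζ, hyiB⟩)
    have hF0 : F ζ yi = 0 := by
      have h1 : Tendsto (fun n => F (x (φ n)) (y (φ n))) atTop (𝓝 (F ζ yi)) :=
        hFat.tendsto.comp hpair
      have h2 : Tendsto (fun n => F (x (φ n)) (y (φ n))) atTop (𝓝 0) := by
        simp only [hFy]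
        exact tendsto_const_nhds
      exact tendsto_nhds_unique h1 h2
    refine ⟨hζ, yi, hyi, hF0, fun j hj heq => ?_⟩
    -- local uniqueness
    have hd : deriv (fun z => (fun x : ℂ × ℂ => F x.1 x.2) (ζ, z)) yi ≠ 0 := by
      have := ((hmot j hj.1 hj.2).2.2 ζ hζ).2.2
      rw [heq] at this
      exact this
    have huq := A7_unique (ha.contDiffAt (hopen.mem_nhds ⟨hζ, hyiB⟩)) hd
    have hzcont : ContinuousAt (zc j) ζ :=
      ((hmot j hj.1 hj.2).1.differentiableAt (isOpen_ball.mem_nhds hζ)).continuousAt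
    have hzφ : Tendsto (fun n => zc j (x (φ n))) atTop (𝓝 yi) := by
      rw [← heq]
      exact hzcont.tendsto.comp hxφ
    have hpair2 : Tendsto (fun n => ((x (φ n), zc j (x (φ n))) : ℂ × ℂ)) atTop (𝓝 (ζ, yi)) :=
      hxφ.prodMk_nhds hzφ
    obtain ⟨n, hn⟩ := ((hpair.prodMk_nhds hpair2).eventually huq).exists
    have h3 := hn rfl (hFy (φ n)) (((hmot j hj.1 hj.2).2.2 (x (φ n)) (hxD (φ n))).2.1)
    exact hyJ (φ n) j hj h3.symm
  -- conclusion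
  by_contra hcon
  push Not at hcon
  have h0N : (0 : ℂ) ∈ N := ⟨mem_ball_self hδ, y0, hy0, hFy0, fun j hj => hcon j hj.1 hj.2⟩
  have hsub := (convex_ball (0 : ℂ) δ).isPreconnected.subset_of_closure_inter_subset hNo
    ⟨0, mem_ball_self hδ, h0N⟩ hNc
  obtain ⟨_, y, hy, hFy, hyJ⟩ := hsub hζ1
  exact hyJ y ⟨hy, hFy⟩ (hmot y hy hFy).2.1

/-- A7. `ζ` is the parameter, `z` the reduced unknown. `a L ζ z = 0` describes the periodic points
of the `L`-th return map, `h L` is the critical determinant. The limits as `L → ∞` at `ζ = 0` are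
`a0`, `h0`, and `a0` has a zero `zs` at which `h0` vanishes. At one parameter `ζ1`, for large `L`,
all zeros `z` of `a L ζ1` have `‖h L‖ ≥ c`, and every one of them moves holomorphically over the
whole disc `ball 0 δ`, as a simple zero at which `h L` does not vanish. Contradiction. -/
theorem criterion_contradiction {δ r R M c : ℝ} {cc ζ1 zs : ℂ} (hδ : 0 < δ) (hr : 0 < r)
    (hrR : r < R) (hM : 0 < M) (hc : 0 < c) (hζ1 : ζ1 ∈ ball (0 : ℂ) δ)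
    {a h : ℕ → ℂ → ℂ → ℂ} {a0 h0 : ℂ → ℂ} {L0 : ℕ}
    (ha : ∀ L ≥ L0, ContDiffOn ℂ 1 (fun x : ℂ × ℂ => a L x.1 x.2) (ball 0 δ ×ˢ ball cc R))
    (hh : ∀ L ≥ L0, DifferentiableOn ℂ (fun x : ℂ × ℂ => h L x.1 x.2) (ball 0 δ ×ˢ ball cc R))
    (hcirc : ∀ L ≥ L0, ∀ ζ ∈ ball (0 : ℂ) δ, ∀ z ∈ sphere cc r, a L ζ z ≠ 0)
    (hhM : ∀ L ≥ L0, ∀ ζ ∈ ball (0 : ℂ) δ, ∀ z ∈ closedBall cc r, ‖h L ζ z‖ ≤ M)
    (ha0 : DifferentiableOn ℂ a0 (ball cc R)) (ha0c : ∀ z ∈ sphere cc r, a0 z ≠ 0)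
    (hh0 : ContinuousOn h0 (closedBall cc r))
    (hlim : TendstoUniformlyOn (fun L => a L 0) a0 atTop (closedBall cc r))
    (hlimh : TendstoUniformlyOn (fun L => h L 0) h0 atTop (closedBall cc r))
    (hzs : zs ∈ ball cc r) (hzs0 : a0 zs = 0) (hzsh : h0 zs = 0)
    (hmot : ∀ L ≥ L0, ∀ z1 ∈ closedBall cc r, a L ζ1 z1 = 0 → c ≤ ‖h L ζ1 z1‖ ∧
      ∃ zc : ℂ → ℂ, DifferentiableOn ℂ zc (ball 0 δ) ∧ zc ζ1 = z1 ∧
        ∀ ζ ∈ ball (0 : ℂ) δ, zc ζ ∈ closedBall cc r ∧ a L ζ (zc ζ) = 0 ∧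
          deriv (a L ζ) (zc ζ) ≠ 0 ∧ h L ζ (zc ζ) ≠ 0) :
    False := by
  obtain ⟨c', hc', hlow⟩ := nonvanishing_lower_bound hδ hM hc hζ1
  -- a small radius
  have hcw : ContinuousWithinAt h0 (closedBall cc r) zs := hh0 zs (ball_subset_closedBall hzs)
  obtain ⟨ρ0, hρ0, hρh⟩ := Metric.continuousWithinAt_iff.1 hcw (c' / 2) (by positivity)
  obtain ⟨R1, hR1, hR1sub⟩ := Metric.isOpen_iff.1 isOpen_ball zs hzs
  have hR1B : ball zs R1 ⊆ ball cc R := hR1sub.trans (ball_subset_ball hrR.le)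
  obtain ⟨ρ, hρ, hρη, hρR, hsph⟩ := A4_isolated hR1 (ha0.mono hR1B)
    (A7_not_ev_zero' hr hrR ha0 ha0c (hR1B (mem_ball_self hR1))) hρ0
  have hclsub : closedBall zs ρ ⊆ ball cc r := (closedBall_subset_ball hρR).trans hR1sub
  have hclsub2 : closedBall zs ρ ⊆ closedBall cc r := hclsub.trans ball_subset_closedBall
  -- minimum of `|a0|` on the small circle
  obtain ⟨w, hw, hwmin⟩ := (isCompact_sphere zs ρ).exists_isMinOn
    (NormedSpace.sphere_nonempty.2 hρ.le)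
    (ContinuousOn.norm (ha0.continuousOn.mono
      (sphere_subset_closedBall.trans (hclsub.trans (ball_subset_ball hrR.le)))))
  have hwpos : 0 < ‖a0 w‖ := norm_pos_iff.2 (hsph w hw)
  have hev1 := Metric.tendstoUniformlyOn_iff.1 hlim (‖a0 w‖ / 2) (by positivity)
  have hev2 := Metric.tendstoUniformlyOn_iff.1 hlimh (c' / 2) (by positivity)
  obtain ⟨L, hL1, hL2, hL3⟩ := (hev1.and (hev2.and (eventually_ge_atTop L0))).exists
  -- a zero of `a L 0` close to `zs`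
  have h0D : (0 : ℂ) ∈ ball (0 : ℂ) δ := mem_ball_self hδ
  have hopen : IsOpen (ball (0 : ℂ) δ ×ˢ ball cc R) := isOpen_ball.prod isOpen_ball
  have hFd : DifferentiableOn ℂ (a L 0) (ball cc R) := by
    intro z hz
    have h1 : DifferentiableAt ℂ (fun x : ℂ × ℂ => a L x.1 x.2) (0, z) :=
      (((ha L hL3).contDiffAt (hopen.mem_nhds ⟨h0D, hz⟩)).differentiableAt one_ne_zero)
    have h2 : DifferentiableAt ℂ (fun z : ℂ => ((0, z) : ℂ × ℂ)) z := by fun_prop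
    exact (DifferentiableAt.comp z (g := fun x : ℂ × ℂ => a L x.1 x.2)
      (f := fun z : ℂ => ((0, z) : ℂ × ℂ)) h1 h2).differentiableWithinAt
  have hdc : DiffContOnCl ℂ (a L 0) (ball zs ρ) :=
    hFd.diffContOnCl_ball (hclsub.trans (ball_subset_ball hrR.le))
  obtain ⟨y, hy, hy0⟩ := exists_zero_of_small hρ hdc (fun z hz => by
    have h1 := hL1 zs (hclsub2 (mem_closedBall_self hρ.le))
    have h2 := hL1 z (hclsub2 (sphere_subset_closedBall hz))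
    have h3 : ‖a0 w‖ ≤ ‖a0 z‖ := hwmin hz
    rw [dist_eq_norm, hzs0, zero_sub, norm_neg] at h1
    rw [dist_eq_norm] at h2
    have h4 := norm_sub_norm_le (a0 z) (a L 0 z)
    linarith)
  have hycl : y ∈ closedBall cc r := hclsub2 (ball_subset_closedBall hy)
  -- the motion through it
  have hmotL := hmot L hL3
  choose! zc hzc using fun z1 h1 h2 => (hmotL z1 h1 h2).2
  obtain ⟨z1, hz1, hFz1, hz10⟩ := A7_motion hδ hr hrR hζ1 (F := a L) (ha L hL3) (hcirc L hL3) zc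
    (fun z1 h1 h2 => ⟨(hzc z1 h1 h2).1, (hzc z1 h1 h2).2.1, fun ζ hζ =>
      ⟨((hzc z1 h1 h2).2.2 ζ hζ).1, ((hzc z1 h1 h2).2.2 ζ hζ).2.1,
        ((hzc z1 h1 h2).2.2 ζ hζ).2.2.1⟩⟩) hycl hy0
  obtain ⟨k1, k2, k3⟩ := hzc z1 hz1 hFz1
  have hφd : DifferentiableOn ℂ (fun ζ => h L ζ (zc z1 ζ)) (ball 0 δ) := by
    intro ζ hζ
    have h1 : DifferentiableAt ℂ (fun x : ℂ × ℂ => h L x.1 x.2) (ζ, zc z1 ζ) :=
      (hh L hL3).differentiableAt (hopen.mem_nhds ⟨hζ, closedBall_subset_ball hrR (k3 ζ hζ).1⟩)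
    have h2 : DifferentiableAt ℂ (fun ζ : ℂ => ((ζ, zc z1 ζ) : ℂ × ℂ)) ζ :=
      differentiableAt_id.prodMk (k1.differentiableAt (isOpen_ball.mem_nhds hζ))
    exact (DifferentiableAt.comp ζ (g := fun x : ℂ × ℂ => h L x.1 x.2)
      (f := fun ζ : ℂ => ((ζ, zc z1 ζ) : ℂ × ℂ)) h1 h2).differentiableWithinAt
  have hfin := hlow (fun ζ => h L ζ (zc z1 ζ)) hφd (fun ζ hζ => (k3 ζ hζ).2.2.2)
    (fun ζ hζ => hhM L hL3 ζ hζ _ (k3 ζ hζ).1) (by
      show c ≤ ‖h L ζ1 (zc z1 ζ1)‖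
      rw [k2]
      exact (hmotL z1 hz1 hFz1).1)
  simp only [hz10] at hfin
  -- `h L 0 y` is small
  have h5 := hL2 y hycl
  have h6 := hρh hycl (show dist y zs < ρ0 from lt_trans hy hρη)
  rw [hzsh, dist_zero_right] at h6
  rw [dist_eq_norm] at h5
  have h7 := norm_sub_norm_le (h L 0 y) (h0 y)
  rw [norm_sub_rev] at h7
  linarith

end SkewBif
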