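import Pool.Agent.SK.Defs
/-! ## MP_9cfccf_an, module A8 -/
open Set Metric Filter Topology Polynomial
namespace SkewBif

/-- A8. Solve, for every `w` in a closed disc, `μ⁻¹ Z + α Z w = ψ (β Z w)` for `Z`.
Proof: for fixed `w` the map `Z ↦ μ (ψ (β Z w) - α Z w)` maps `closedBall 0 K` into itself (`hbd`)
and is a `1/2`-contraction (`hq`); let `φ w` be its fixed point. Then
`‖φ w - φ w'‖ ≤ (1/2) ‖φ w - φ w'‖ + ‖μ‖ (C lw + Lw) ‖w - w'‖`. -/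
theorem graph_step {μ wb : ℂ} {ρ K Lz Lw lz lw C : ℝ} {D' : Set ℂ} {α β : ℂ → ℂ → ℂ}
    {ψ : ℂ → ℂ} (hμ : μ ≠ 0) (hK : 0 ≤ K) (hC : 0 ≤ C)
    (hβ : ∀ Z ∈ closedBall (0 : ℂ) K, ∀ w ∈ closedBall wb ρ, β Z w ∈ D')
    (hαL : ∀ Z ∈ closedBall (0 : ℂ) K, ∀ Z' ∈ closedBall (0 : ℂ) K, ∀ w ∈ closedBall wb ρ,
      ∀ w' ∈ closedBall wb ρ, ‖α Z w - α Z' w'‖ ≤ Lz * ‖Z - Z'‖ + Lw * ‖w - w'‖)
    (hβL : ∀ Z ∈ closedBall (0 : ℂ) K, ∀ Z' ∈ closedBall (0 : ℂ) K, ∀ w ∈ closedBall wb ρ,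
      ∀ w' ∈ closedBall wb ρ, ‖β Z w - β Z' w'‖ ≤ lz * ‖Z - Z'‖ + lw * ‖w - w'‖)
    (hψL : ∀ w ∈ D', ∀ w' ∈ D', ‖ψ w - ψ w'‖ ≤ C * ‖w - w'‖)
    (hbd : ∀ Z ∈ closedBall (0 : ℂ) K, ∀ w ∈ closedBall wb ρ,
      ‖μ‖ * ‖ψ (β Z w) - α Z w‖ ≤ K)
    (hq : ‖μ‖ * (C * lz + Lz) ≤ 1 / 2) :
    ∃ φ : ℂ → ℂ, (∀ w ∈ closedBall wb ρ, ‖φ w‖ ≤ K ∧ μ⁻¹ * φ w + α (φ w) w = ψ (β (φ w) w)) ∧
      ∀ w ∈ closedBall wb ρ, ∀ w' ∈ closedBall wb ρ,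
        ‖φ w - φ w'‖ ≤ 2 * ‖μ‖ * (C * lw + Lw) * ‖w - w'‖ := by
  have hstep : ∀ Z ∈ closedBall (0 : ℂ) K, ∀ Z' ∈ closedBall (0 : ℂ) K, ∀ w ∈ closedBall wb ρ,
      ∀ w' ∈ closedBall wb ρ, ‖μ * (ψ (β Z w) - α Z w) - μ * (ψ (β Z' w') - α Z' w')‖ ≤
        1 / 2 * ‖Z - Z'‖ + ‖μ‖ * (C * lw + Lw) * ‖w - w'‖ := by
    intro Z hZ Z' hZ' w hw w' hw'
    have e1 : μ * (ψ (β Z w) - α Z w) - μ * (ψ (β Z' w') - α Z' w') =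
        μ * ((ψ (β Z w) - ψ (β Z' w')) - (α Z w - α Z' w')) := by ring
    have h1 := hψL _ (hβ Z hZ w hw) _ (hβ Z' hZ' w' hw')
    have h2 := hβL Z hZ Z' hZ' w hw w' hw'
    have h3 := hαL Z hZ Z' hZ' w hw w' hw'
    have h4 : ‖(ψ (β Z w) - ψ (β Z' w')) - (α Z w - α Z' w')‖ ≤
        C * (lz * ‖Z - Z'‖ + lw * ‖w - w'‖) + (Lz * ‖Z - Z'‖ + Lw * ‖w - w'‖) := by
      refine (norm_sub_le _ _).trans (add_le_add (h1.trans ?_) h3)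
      exact mul_le_mul_of_nonneg_left h2 hC
    rw [e1, norm_mul]
    calc ‖μ‖ * ‖(ψ (β Z w) - ψ (β Z' w')) - (α Z w - α Z' w')‖
        ≤ ‖μ‖ * (C * (lz * ‖Z - Z'‖ + lw * ‖w - w'‖) + (Lz * ‖Z - Z'‖ + Lw * ‖w - w'‖)) :=
          mul_le_mul_of_nonneg_left h4 (norm_nonneg _)
      _ = ‖μ‖ * (C * lz + Lz) * ‖Z - Z'‖ + ‖μ‖ * (C * lw + Lw) * ‖w - w'‖ := by ring
      _ ≤ 1 / 2 * ‖Z - Z'‖ + ‖μ‖ * (C * lw + Lw) * ‖w - w'‖ := by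
          gcongr
  have key : ∀ w : ℂ, ∃ Z : ℂ, w ∈ closedBall wb ρ →
      (Z ∈ closedBall (0 : ℂ) K ∧ μ * (ψ (β Z w) - α Z w) = Z) := by
    intro w
    by_cases hw : w ∈ closedBall wb ρ
    · have hmaps : MapsTo (fun Z => μ * (ψ (β Z w) - α Z w)) (closedBall (0 : ℂ) K)
          (closedBall (0 : ℂ) K) := by
        intro Z hZ
        rw [mem_closedBall, dist_zero_right, norm_mul]
        exact hbd Z hZ w hw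
      have hcon : ContractingWith (1 / 2 : NNReal)
          (hmaps.restrict (fun Z => μ * (ψ (β Z w) - α Z w)) (closedBall (0 : ℂ) K)
            (closedBall (0 : ℂ) K)) := by
        refine ⟨by norm_num, LipschitzWith.of_dist_le_mul ?_⟩
        rintro ⟨Z, hZ⟩ ⟨Z', hZ'⟩
        have h := hstep Z hZ Z' hZ' w hw w hw
        rw [sub_self, norm_zero, mul_zero, add_zero] at h
        rw [Subtype.dist_eq, Subtype.dist_eq, dist_eq_norm, dist_eq_norm]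
        simpa using h
      obtain ⟨Z, hZ, hfix, -⟩ := hcon.exists_fixedPoint' isClosed_closedBall.isComplete hmaps
        (mem_closedBall_self hK) (edist_ne_top _ _)
      exact ⟨Z, fun _ => ⟨hZ, hfix⟩⟩
    · exact ⟨0, fun h => absurd h hw⟩
  choose φ hφ using key
  refine ⟨φ, ?_, ?_⟩
  · intro w hw
    obtain ⟨h1, h2⟩ := hφ w hw
    refine ⟨by simpa using h1, ?_⟩
    have h3 : μ⁻¹ * φ w = ψ (β (φ w) w) - α (φ w) w := by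
      conv_lhs => rw [← h2]
      rw [← mul_assoc, inv_mul_cancel₀ hμ, one_mul]
    rw [h3]; ring
  · intro w hw w' hw'
    obtain ⟨h1, h2⟩ := hφ w hw
    obtain ⟨h1', h2'⟩ := hφ w' hw'
    have h := hstep _ h1 _ h1' w hw w' hw'
    rw [h2, h2'] at h
    linarith

end SkewBif
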