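import Pool.Agent.SK.Defs
/-! ## The arena: the local data near the skew product used by the criterion -/
open Set Metric Filter Topology Polynomial
namespace SkewBif

/-- `e` is the limit point of the sequence of branches `σ`. -/
def IsLimPt {ι : Type} (g : ι → X2 → X2) (σ : ℕ → ι) (P : Set X2) (e : X2) : Prop :=
  ∀ v ∈ P, Tendsto (fun k => word g σ k v) atTop (𝓝 e)

/-- The data of an arena (see `IsArena`). -/
structure AData (d : ℕ) (ι J : Type) where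
  /-- parameter domain -/
  Lam : Set (Coef d)
  /-- phase domain of the function system -/
  P : Set X2
  /-- `G i F` is an inverse branch of the iterate of order `Nb i` -/
  Nb : ι → ℕ
  G : ι → Coef d → X2 → X2
  Cc : ℝ
  θ : ℝ
  /-- the distinguished letter and the number of initial letters -/
  o : ι
  M0 : ℕ
  /-- centre `(c, w0)` of the critical bidisc, and the periodic point `(xs, ws)` -/
  c : ℂ
  w0 : ℂ
  xs : ℂ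
  ws : ℂ
  r : ℝ
  r' : ℝ
  ρ0 : ℝ
  rt : ℝ
  ρt : ℝ
  m1 : ℕ
  m2 : ℕ
  gret : Coef d → X2 → X2
  ψ : Coef d → ℂ → ℂ → ℂ
  γ : J → Coef d → ℂ → ℂ
  j0 : J
  /-- a reference parameter -/
  F1 : Coef d

namespace AData
variable {d : ℕ} {ι J : Type}

/-- The critical bidisc. -/
def Rg (A : AData d ι J) : Set X2 := closedBall A.c A.r' ×ˢ closedBall A.w0 A.ρ0
/-- The target bidisc near the periodic point. -/
def Pt (A : AData d ι J) : Set X2 := closedBall A.xs A.rt ×ˢ closedBall A.ws A.ρt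
/-- The composition of the first `k` branches of `σ` at the parameter `F`. -/
def wd (A : AData d ι J) (F : Coef d) (σ : ℕ → ι) (k : ℕ) : X2 → X2 :=
  word (fun i => A.G i F) σ k
/-- The sequence `σ` starts with `M0` letters `o`. -/
def Start (A : AData d ι J) (σ : ℕ → ι) : Prop := ∀ k < A.M0, σ k = A.o

end AData

/-- The arena. `P` is a compact convex neighbourhood (bidisc) on which the inverse branches `G i F`
(of the `Nb i`-th iterate) form a uniformly contracting system, for `F ∈ Lam`; `o` is a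
distinguished letter. `gret F` is an inverse branch of the `m1`-th iterate from the critical bidisc
`Rg` into `P`. On `Rg` the `m2`-th iterate is defined, and
its second coordinate can be solved for `w`: `w = ψ F z t`. The critical values of the `m2`-th
iterate on `Rg`, inside `Pt`, are on the graphs `z = γ j F t`; the points of the graph
`γ j0` are critical values. -/
structure IsArena {d : ℕ} {ι J : Type} (A : AData d ι J) : Prop where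
  Lam_open : IsOpen A.Lam
  Lam_convex : Convex ℝ A.Lam
  nondeg : ∀ F ∈ A.Lam, Nondeg d F
  P_compact : IsCompact A.P
  P_convex : Convex ℝ A.P
  Nb_pos : ∀ i, 1 ≤ A.Nb i
  G_maps : ∀ i, ∀ F ∈ A.Lam, ∀ v ∈ A.P, A.G i F v ∈ interior A.P
  G_inv : ∀ i, ∀ F ∈ A.Lam, ∀ v ∈ A.P,
    Good d (A.Nb i) F (A.G i F v) ∧ (T d F)^[A.Nb i] (A.G i F v) = v
  G_smooth : ∀ i, ∀ F ∈ A.Lam, ∀ v ∈ A.P,
    ContDiffAt ℂ 1 (fun q : Coef d × X2 => A.G i q.1 q.2) (F, v)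
  Cc_nonneg : 0 ≤ A.Cc
  th0 : 0 ≤ A.θ
  th1 : A.θ < 1
  contr : ∀ F ∈ A.Lam, ∀ (σ : ℕ → ι) (k : ℕ), ∀ v ∈ A.P, ∀ v' ∈ A.P,
    dist (A.wd F σ k v) (A.wd F σ k v') ≤ A.Cc * A.θ ^ k * dist v v'
  r_pos : 0 < A.r
  r_lt : A.r < A.r'
  ρ0_pos : 0 < A.ρ0
  rt_pos : 0 < A.rt
  ρt_pos : 0 < A.ρt
  m1_pos : 1 ≤ A.m1
  m2_pos : 1 ≤ A.m2
  gret_maps : ∀ F ∈ A.Lam, ∀ u ∈ A.Rg, A.gret F u ∈ interior A.P
  gret_inv : ∀ F ∈ A.Lam, ∀ u ∈ A.Rg,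
    Good d A.m1 F (A.gret F u) ∧ (T d F)^[A.m1] (A.gret F u) = u
  gret_smooth : ∀ F ∈ A.Lam, ∀ u ∈ A.Rg,
    ContDiffAt ℂ 1 (fun q : Coef d × X2 => A.gret q.1 q.2) (F, u)
  good2 : ∀ F ∈ A.Lam, ∀ u ∈ A.Rg, Good d A.m2 F u
  ψ_mem : ∀ F ∈ A.Lam, ∀ z ∈ closedBall A.c A.r', ∀ t ∈ closedBall A.ws A.ρt,
    A.ψ F z t ∈ ball A.w0 A.ρ0 ∧ ((T d F)^[A.m2] (z, A.ψ F z t)).2 = t
  ψ_uniq : ∀ F ∈ A.Lam, ∀ z ∈ closedBall A.c A.r', ∀ w ∈ closedBall A.w0 A.ρ0,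
    ∀ t ∈ closedBall A.ws A.ρt, ((T d F)^[A.m2] (z, w)).2 = t → w = A.ψ F z t
  ψ_smooth : ∀ F ∈ A.Lam, ∀ z ∈ closedBall A.c A.r', ∀ t ∈ closedBall A.ws A.ρt,
    ContDiffAt ℂ 1 (fun q : Coef d × ℂ × ℂ => A.ψ q.1 q.2.1 q.2.2) (F, z, t)
  bdry : ∀ F ∈ A.Lam, ∀ q ∈ A.Pt, ∀ z ∈ sphere A.c A.r,
    ((T d F)^[A.m2] (z, A.ψ F z q.2)).1 ≠ q.1
  first : ∀ F ∈ A.Lam, ∀ σ : ℕ → ι, A.Start σ → ∀ k ≥ A.M0, ∀ v ∈ A.P, A.wd F σ k v ∈ A.Pt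
  γ_smooth : ∀ j, ∀ F ∈ A.Lam, ∀ t ∈ closedBall A.ws A.ρt,
    ContDiffAt ℂ 1 (fun q : Coef d × ℂ => A.γ j q.1 q.2) (F, t)
  crit : ∀ F ∈ A.Lam, ∀ u ∈ A.Rg, (T d F)^[A.m2] u ∈ A.Pt →
    (fderiv ℂ ((T d F)^[A.m2]) u).det = 0 →
      ∃ j, ((T d F)^[A.m2] u).1 = A.γ j F ((T d F)^[A.m2] u).2
  crit0 : ∀ F ∈ A.Lam, ∀ q ∈ A.Pt, q.1 = A.γ A.j0 F q.2 →
    ∃ u ∈ ball A.c A.r ×ˢ ball A.w0 A.ρ0, (T d F)^[A.m2] u = q ∧
      (fderiv ℂ ((T d F)^[A.m2]) u).det = 0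
  F1_mem : A.F1 ∈ A.Lam
  generic : ∀ σ : ℕ → ι, A.Start σ → ∀ e, IsLimPt (fun i => A.G i A.F1) σ A.P e →
    ∀ j, e.1 ≠ A.γ j A.F1 e.2

section
variable {d : ℕ} {ι J : Type}

/-- The inverse return map of length `L`. -/
noncomputable def AData.KL (A : AData d ι J) (F : Coef d) (σ : ℕ → ι) (L : ℕ) (u : X2) : X2 :=
  A.wd F σ L (A.gret F u)

/-- The period of the periodic points constructed from `KL`. -/
def AData.Per (A : AData d ι J) (σ : ℕ → ι) (L : ℕ) : ℕ :=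
  A.m2 + (∑ i ∈ Finset.range L, A.Nb (σ i) + A.m1)

/-- The reduced data: `ω ζ z` is the solution `w` of `w = ψ (F ζ) z (KL (z, w)).2`. -/
structure Reduced (A : AData d ι J) (F' V : Coef d) (σ : ℕ → ι) (δ : ℝ) (L : ℕ)
    (ω : ℂ → ℂ → ℂ) : Prop where
  mem : ∀ ζ ∈ closedBall (0 : ℂ) δ, ∀ z ∈ closedBall A.c A.r', ω ζ z ∈ ball A.w0 A.ρ0
  eq : ∀ ζ ∈ closedBall (0 : ℂ) δ, ∀ z ∈ closedBall A.c A.r',
    ω ζ z = A.ψ (F' + ζ • V) z (A.KL (F' + ζ • V) σ L (z, ω ζ z)).2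
  uniq : ∀ ζ ∈ closedBall (0 : ℂ) δ, ∀ z ∈ closedBall A.c A.r', ∀ w ∈ closedBall A.w0 A.ρ0,
    w = A.ψ (F' + ζ • V) z (A.KL (F' + ζ • V) σ L (z, w)).2 → w = ω ζ z
  smooth : ContDiffOn ℂ 1 (fun q : ℂ × ℂ => ω q.1 q.2) (ball 0 δ ×ˢ ball A.c A.r')

/-- The reduced equation. -/
noncomputable def redA (A : AData d ι J) (F' V : Coef d) (σ : ℕ → ι) (L : ℕ) (ω : ℂ → ℂ → ℂ)
    (ζ z : ℂ) : ℂ :=
  ((T d (F' + ζ • V))^[A.m2] (z, ω ζ z)).1 - (A.KL (F' + ζ • V) σ L (z, ω ζ z)).1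

/-- The critical determinant along the reduced curve. -/
noncomputable def redH (A : AData d ι J) (F' V : Coef d) (ω : ℂ → ℂ → ℂ) (ζ z : ℂ) : ℂ :=
  (fderiv ℂ ((T d (F' + ζ • V))^[A.m2]) (z, ω ζ z)).det

end

/-- The neutral data: everything needed to run D3b at `(pb, bb)`. -/
structure Neutral (d : ℕ) (p : ℂ[X]) (b : Mon d → ℂ) (n : ℕ) (x lam wb : ℂ) (R θ : ℝ)
    (u A : ℂ → ℂ) (l : ℕ) (y : ℂ) : Prop where
  hp : p.natDegree = d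
  hb : topCoef d b ≠ 0
  simple : ∀ c, p.derivative.eval c = 0 → p.derivative.derivative.eval c ≠ 0
  hn : 1 ≤ n
  hx : (pt p 0)^[n] x = x
  hlam : lam = deriv ((pt p 0)^[n]) x
  hl : ‖lam‖ = 1
  hl2 : lam ^ 2 ≠ 1
  lin : FibLin (fib d p b 0 n x) (drift d p b 0 n x) lam wb R θ u A
  hl1 : 1 ≤ l
  hy : y ∈ ball wb R
  hQy : (fib d p b 0 n x)^[l] y = wb
  hder : deriv ((fib d p b 0 n x)^[l]) y ≠ 0
  hne : A wb ≠ lam ^ l * A y + dsum (fib d p b 0 n x) (drift d p b 0 n x) lam l y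

/-- The standing hypotheses on an arena at a skew product, as produced by `exists_arena`. -/
structure SkArena (d : ℕ) (p : ℂ[X]) (b : Mon d → ℂ) (n N : ℕ) (x wb ws : ℂ) (ρ R θ : ℝ)
    {q q' : ℕ} (u : ℂ → ℂ) (U : Fin q → ℂ → ℂ) (c : ℂ) (m2 : ℕ)
    (A : AData d (Option (Fin q)) (Fin (q' + 1))) : Prop where
  arena : IsArena A
  hd : 2 ≤ d
  hp : p.natDegree = d
  hn : 1 ≤ n
  hN : 1 ≤ N
  hx : (pt p 0)^[n] x = x
  hmul : 1 < ‖deriv ((pt p 0)^[n]) x‖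
  hρ : 0 < ρ
  hρR : ρ < R
  hu : DifferentiableOn ℂ u (ball wb R)
  hU : ∀ i, DifferentiableOn ℂ (U i) (ball wb R)
  huinv : ∀ w ∈ ball wb R, fib d p b 0 n x (u w) = w
  hUinv : ∀ i, ∀ w ∈ ball wb R, fib d p b 0 (n * N) x (U i w) = w
  hθ0 : 0 ≤ θ
  hθ : θ < 1
  huder : ∀ w ∈ ball wb R, ‖deriv u w‖ ≤ θ
  hUder : ∀ i, ∀ w ∈ ball wb R, ‖deriv (U i) w‖ ≤ θ
  hws : ws ∈ ball wb ρ
  huws : u ws = ws
  mem : skew d p b ∈ A.Lam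
  ho : A.o = none
  hxs : A.xs = x
  hws' : A.ws = ws
  hP : ∃ rP > 0, A.P = closedBall x rP ×ˢ closedBall wb ρ
  Nb0 : A.Nb none = n
  Nb1 : ∀ i, A.Nb (some i) = n * N
  G0 : ∀ w ∈ closedBall wb ρ, A.G none (skew d p b) (x, w) = (x, u w)
  G1 : ∀ i, ∀ w ∈ closedBall wb ρ, A.G (some i) (skew d p b) (x, w) = (x, U i w)
  hγ : ∀ τ, fam d p b 0 τ ∈ A.Lam → ∀ t ∈ closedBall ws A.ρt,
    A.γ A.j0 (fam d p b 0 τ) t = (pt p τ)^[m2] c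
  land : (pt p 0)^[m2] c = x

end SkewBif
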