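import Pool.Agent.SK.Defs
/-! ## MP_9cfccf_an, module B1 -/
open Set Metric Filter Topology Polynomial
namespace SkewBif

/-- B1a. Uniform escape radius: for `‖τ‖ ≤ T0` and `‖z‖ ≥ R` one has `‖p z + τ‖ ≥ 2 ‖z‖`
(and `R ≥ 1`). -/
theorem exists_escape_radius {p : ℂ[X]} (hp : 2 ≤ p.natDegree) (T0 : ℝ) :
    ∃ R : ℝ, 1 ≤ R ∧ ∀ τ : ℂ, ‖τ‖ ≤ T0 → ∀ z : ℂ, R ≤ ‖z‖ → 2 * ‖z‖ ≤ ‖pt p τ z‖ := by
  have hdeg : 0 < (divX p).degree := by
    rw [← natDegree_pos_iff_degree_pos, natDegree_divX_eq_natDegree_tsub_one]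
    omega
  have ht : Tendsto (fun z : ℂ => ‖(divX p).eval z‖) (comap (fun z : ℂ => ‖z‖) atTop) atTop :=
    Polynomial.tendsto_norm_atTop (divX p) hdeg tendsto_comap
  have hev := ht.eventually (eventually_ge_atTop (3 + ‖p.coeff 0‖ + T0))
  rw [eventually_comap, eventually_atTop] at hev
  obtain ⟨R, hR⟩ := hev
  refine ⟨max 1 R, le_max_left _ _, fun τ hτ z hz => ?_⟩
  have hz1 : 1 ≤ ‖z‖ := (le_max_left _ _).trans hz
  have h1 : 3 + ‖p.coeff 0‖ + T0 ≤ ‖(divX p).eval z‖ :=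
    hR ‖z‖ ((le_max_right _ _).trans hz) z rfl
  have e : pt p τ z = (divX p).eval z * z + (p.coeff 0 + τ) := by
    unfold pt
    conv_lhs => rw [← divX_mul_X_add p]
    simp only [eval_add, eval_mul, eval_X, eval_C]
    ring
  have h2 : ‖(divX p).eval z * z‖ - ‖p.coeff 0 + τ‖ ≤ ‖pt p τ z‖ := by
    rw [e]
    have := norm_sub_norm_le ((divX p).eval z * z) (-(p.coeff 0 + τ))
    rwa [norm_neg, sub_neg_eq_add] at this
  have h3 : ‖p.coeff 0 + τ‖ ≤ ‖p.coeff 0‖ + T0 := (norm_add_le _ _).trans (by linarith)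
  rw [norm_mul] at h2
  have h0 : 0 ≤ ‖p.coeff 0‖ := norm_nonneg _
  have hT : 0 ≤ T0 := (norm_nonneg _).trans hτ
  have h4 : (3 + ‖p.coeff 0‖ + T0) * ‖z‖ ≤ ‖(divX p).eval z‖ * ‖z‖ :=
    mul_le_mul_of_nonneg_right h1 (norm_nonneg _)
  have h5 : (‖p.coeff 0‖ + T0) * 1 ≤ (‖p.coeff 0‖ + T0) * ‖z‖ :=
    mul_le_mul_of_nonneg_left hz1 (by linarith)
  nlinarith

theorem b1_iter_growth {p : ℂ[X]} {R : ℝ} (hR : 1 ≤ R) {τ : ℂ}
    (hesc : ∀ z : ℂ, R ≤ ‖z‖ → 2 * ‖z‖ ≤ ‖pt p τ z‖) {y : ℂ} (hy : R ≤ ‖y‖) (k : ℕ) :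
    R ≤ ‖(pt p τ)^[k] y‖ ∧ 2 ^ k * ‖y‖ ≤ ‖(pt p τ)^[k] y‖ := by
  induction k with
  | zero => simpa using hy
  | succ k ih =>
    rw [Function.iterate_succ_apply']
    have h1 := hesc _ ih.1
    have h2 : 2 ^ (k + 1) * ‖y‖ = 2 * (2 ^ k * ‖y‖) := by ring
    constructor
    · linarith [ih.1]
    · rw [h2]; linarith [ih.2]

/-- B1b. Consequence: an orbit is bounded iff it stays in `closedBall 0 R`, and it is unbounded iff
some iterate has norm `> R`; then it tends to infinity. -/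
theorem bounded_or_escape {p : ℂ[X]} {R : ℝ} (hR : 1 ≤ R) {τ : ℂ}
    (hesc : ∀ z : ℂ, R ≤ ‖z‖ → 2 * ‖z‖ ≤ ‖pt p τ z‖) (z : ℂ) :
    (∀ m, ‖(pt p τ)^[m] z‖ ≤ R) ∨
      ((∃ m, R < ‖(pt p τ)^[m] z‖) ∧ Tendsto (fun m => ‖(pt p τ)^[m] z‖) atTop atTop) := by
  by_cases h : ∀ m, ‖(pt p τ)^[m] z‖ ≤ R
  · exact Or.inl h
  · right
    push Not at h
    refine ⟨h, ?_⟩
    obtain ⟨m, hm⟩ := h
    rw [← tendsto_add_atTop_iff_nat m]
    have h2 : Tendsto (fun k : ℕ => (2 : ℝ) ^ k * ‖(pt p τ)^[m] z‖) atTop atTop :=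
      Tendsto.atTop_mul_const (by linarith) (tendsto_pow_atTop_atTop_of_one_lt (by norm_num))
    refine tendsto_atTop_mono (fun k => ?_) h2
    rw [Function.iterate_add_apply]
    exact (b1_iter_growth hR hesc hm.le k).2

theorem b1_poly_bound (p : ℂ[X]) (z : ℂ) {A : ℝ} (hA : 1 ≤ A) (hz : ‖z‖ ≤ A) :
    ‖p.eval z‖ ≤ (∑ i ∈ Finset.range (p.natDegree + 1), ‖p.coeff i‖) * A ^ p.natDegree := by
  rw [eval_eq_sum_range, Finset.sum_mul]
  refine (norm_sum_le _ _).trans (Finset.sum_le_sum (fun i hi => ?_))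
  rw [norm_mul, norm_pow]
  refine mul_le_mul_of_nonneg_left ?_ (norm_nonneg _)
  exact (pow_le_pow_left₀ (norm_nonneg _) hz i).trans
    (pow_le_pow_right₀ hA (Nat.lt_succ_iff.1 (Finset.mem_range.1 hi)))

/-- B1c. Upper growth: with `D = p.natDegree`, for `‖τ‖ ≤ T0`, `‖z‖ ≤ Z0`,
`‖(pt p τ)^[m] z - x‖ ≤ exp (C * D ^ m)` for all `‖x‖ ≤ X0`. -/
theorem growth_upper {p : ℂ[X]} (hp : 2 ≤ p.natDegree) (T0 Z0 X0 : ℝ) :
    ∃ C : ℝ, 0 < C ∧ ∀ τ : ℂ, ‖τ‖ ≤ T0 → ∀ z : ℂ, ‖z‖ ≤ Z0 → ∀ x : ℂ, ‖x‖ ≤ X0 →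
      ∀ m : ℕ, ‖(pt p τ)^[m] z - x‖ ≤ Real.exp (C * (p.natDegree : ℝ) ^ m) := by
  set S : ℝ := ∑ i ∈ Finset.range (p.natDegree + 1), ‖p.coeff i‖ with hS
  have hS0 : 0 ≤ S := Finset.sum_nonneg (fun i _ => norm_nonneg _)
  set M : ℝ := 1 + S + |T0| with hM
  have hM1 : 1 ≤ M := by
    have := abs_nonneg T0
    linarith
  set A0 : ℝ := 1 + |Z0| with hA0
  have hA1 : 1 ≤ A0 := by
    have := abs_nonneg Z0
    linarith
  set B : ℝ := M * A0 * (1 + |X0|) with hB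
  have hX1 : 1 ≤ 1 + |X0| := by
    have := abs_nonneg X0
    linarith
  have hMA : 1 ≤ M * A0 := one_le_mul_of_one_le_of_one_le hM1 hA1
  have hB1 : 1 ≤ B := one_le_mul_of_one_le_of_one_le hMA hX1
  refine ⟨Real.log B + 1, by have := Real.log_nonneg hB1; linarith, ?_⟩
  intro τ hτ z hz x hx m
  have key : M * max 1 ‖(pt p τ)^[m] z‖ ≤ (M * A0) ^ (p.natDegree ^ m) := by
    induction m with
    | zero =>
      rw [pow_zero, pow_one]
      refine mul_le_mul_of_nonneg_left ?_ (by linarith)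
      refine max_le hA1 ?_
      have := le_abs_self Z0
      show ‖z‖ ≤ A0
      linarith
    | succ m ih =>
      set a : ℝ := max 1 ‖(pt p τ)^[m] z‖ with ha
      have ha1 : 1 ≤ a := le_max_left _ _
      have haD : 1 ≤ a ^ p.natDegree := one_le_pow₀ ha1
      have h1 : ‖(pt p τ)^[m + 1] z‖ ≤ M * a ^ p.natDegree := by
        rw [Function.iterate_succ_apply']
        have h2 := b1_poly_bound p ((pt p τ)^[m] z) ha1 (le_max_right _ _)
        have h3 : ‖pt p τ ((pt p τ)^[m] z)‖ ≤ S * a ^ p.natDegree + |T0| :=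
          (norm_add_le _ _).trans (add_le_add h2 (hτ.trans (le_abs_self _)))
        have h4 : |T0| * 1 ≤ |T0| * a ^ p.natDegree :=
          mul_le_mul_of_nonneg_left haD (abs_nonneg _)
        calc _ ≤ _ := h3
          _ ≤ M * a ^ p.natDegree := by rw [hM]; nlinarith
      have h5 : max 1 ‖(pt p τ)^[m + 1] z‖ ≤ M * a ^ p.natDegree :=
        max_le (one_le_mul_of_one_le_of_one_le hM1 haD) h1
      calc M * max 1 ‖(pt p τ)^[m + 1] z‖ ≤ M * (M * a ^ p.natDegree) :=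
            mul_le_mul_of_nonneg_left h5 (by linarith)
        _ = M ^ 2 * a ^ p.natDegree := by ring
        _ ≤ M ^ p.natDegree * a ^ p.natDegree :=
            mul_le_mul_of_nonneg_right (pow_le_pow_right₀ hM1 hp) (by positivity)
        _ = (M * a) ^ p.natDegree := (mul_pow _ _ _).symm
        _ ≤ ((M * A0) ^ (p.natDegree ^ m)) ^ p.natDegree :=
            pow_le_pow_left₀ (by positivity) ih _
        _ = (M * A0) ^ (p.natDegree ^ (m + 1)) := by rw [← pow_mul, ← pow_succ]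
  have hpow1 : 1 ≤ (M * A0) ^ (p.natDegree ^ m) := one_le_pow₀ hMA
  have h6 : ‖(pt p τ)^[m] z‖ ≤ (M * A0) ^ (p.natDegree ^ m) := by
    refine le_trans ?_ key
    have h7 : ‖(pt p τ)^[m] z‖ ≤ max 1 ‖(pt p τ)^[m] z‖ := le_max_right _ _
    have h8 : 1 * max 1 ‖(pt p τ)^[m] z‖ ≤ M * max 1 ‖(pt p τ)^[m] z‖ :=
      mul_le_mul_of_nonneg_right hM1 (by positivity)
    linarith
  have hDm : p.natDegree ^ m ≠ 0 := pow_ne_zero _ (by omega)
  calc ‖(pt p τ)^[m] z - x‖ ≤ ‖(pt p τ)^[m] z‖ + ‖x‖ := norm_sub_le _ _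
    _ ≤ (M * A0) ^ (p.natDegree ^ m) + |X0| := add_le_add h6 (hx.trans (le_abs_self _))
    _ ≤ (M * A0) ^ (p.natDegree ^ m) * (1 + |X0|) := by
        have := mul_le_mul_of_nonneg_right hpow1 (abs_nonneg X0)
        nlinarith
    _ ≤ (M * A0) ^ (p.natDegree ^ m) * (1 + |X0|) ^ (p.natDegree ^ m) :=
        mul_le_mul_of_nonneg_left (le_self_pow₀ hX1 hDm) (by positivity)
    _ = B ^ (p.natDegree ^ m) := (mul_pow _ _ _).symm
    _ = Real.exp (Real.log B) ^ (p.natDegree ^ m) := by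
        rw [Real.exp_log (by linarith)]
    _ ≤ Real.exp (Real.log B + 1) ^ (p.natDegree ^ m) :=
        pow_le_pow_left₀ (Real.exp_pos _).le (Real.exp_le_exp.2 (by linarith)) _
    _ = Real.exp ((Real.log B + 1) * (p.natDegree : ℝ) ^ m) := by
        rw [← Real.exp_nat_mul, Nat.cast_pow, mul_comm]

/-- B1d. Escape rate: if `‖(pt p τ)^[m] z‖ → ∞` then for every `x`
`log ‖(pt p τ)^[m] z - x‖ / D ^ m` converges to a positive limit. -/
theorem escape_rate {p : ℂ[X]} (hp : 2 ≤ p.natDegree) {τ z : ℂ}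
    (hesc : Tendsto (fun m => ‖(pt p τ)^[m] z‖) atTop atTop) (x : ℂ) :
    ∃ g : ℝ, 0 < g ∧
      Tendsto (fun m : ℕ => Real.log ‖(pt p τ)^[m] z - x‖ / (p.natDegree : ℝ) ^ m) atTop (𝓝 g) := by
  set D : ℝ := (p.natDegree : ℝ) with hD
  have hD2 : 2 ≤ D := by rw [hD]; exact_mod_cast hp
  set y : ℕ → ℂ := fun m => (pt p τ)^[m] z with hy
  set P : ℂ[X] := p + C τ with hP
  have hPdeg : P.natDegree = p.natDegree := by
    rw [hP, natDegree_add_C]
  have hP0 : P ≠ 0 := by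
    intro h
    rw [h, natDegree_zero] at hPdeg
    omega
  have hstep : ∀ m, y (m + 1) = P.eval (y m) := by
    intro m
    show (pt p τ)^[m + 1] z = _
    rw [Function.iterate_succ_apply', hP, eval_add, eval_C]
    rfl
  -- the correction term
  set c : ℕ → ℝ := fun m => Real.log ‖P.reverse.eval (y m)⁻¹‖ with hc
  have hinv : Tendsto (fun m => (y m)⁻¹) atTop (𝓝 0) := by
    rw [tendsto_zero_iff_norm_tendsto_zero]
    have : (fun m => ‖(y m)⁻¹‖) = fun m => (‖y m‖)⁻¹ := by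
      funext m; rw [norm_inv]
    rw [this]
    exact tendsto_inv_atTop_zero.comp hesc
  have hlim : Tendsto c atTop (𝓝 (Real.log ‖P.leadingCoeff‖)) := by
    have h1 : Tendsto (fun m => P.reverse.eval (y m)⁻¹) atTop (𝓝 (P.reverse.eval 0)) :=
      (P.reverse.continuous.tendsto 0).comp hinv
    rw [← coeff_zero_eq_eval_zero, coeff_zero_reverse] at h1
    exact (h1.norm).log (by rw [norm_ne_zero_iff]; exact leadingCoeff_ne_zero.2 hP0)
  set K : ℝ := |Real.log ‖P.leadingCoeff‖| + 1 with hK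
  have hK0 : 0 < K := by positivity
  have hcK : ∀ᶠ m in atTop, |c m| ≤ K := by
    have h1 := (hlim.abs).eventually (gt_mem_nhds (show |Real.log ‖P.leadingCoeff‖| < K by
      rw [hK]; linarith))
    exact h1.mono (fun m hm => hm.le)
  have hy1 : ∀ᶠ m in atTop, 1 ≤ ‖y m‖ := hesc.eventually (eventually_ge_atTop 1)
  -- the recursion for the logarithms
  have hrec : ∀ m, 1 ≤ ‖y m‖ → 1 ≤ ‖y (m + 1)‖ →
      Real.log ‖y (m + 1)‖ = D * Real.log ‖y m‖ + c m := by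
    intro m h1 h1'
    have hym : y m ≠ 0 := by
      intro h; rw [h, norm_zero] at h1; linarith
    have e1 : P.eval (y m) = P.reverse.eval (y m)⁻¹ * (y m) ^ P.natDegree := by
      let := invertibleOfNonzero hym
      have h2 := eval₂_reverse_mul_pow (RingHom.id ℂ) (y m) P
      rw [invOf_eq_inv] at h2
      exact h2.symm
    have hne : P.reverse.eval (y m)⁻¹ ≠ 0 := by
      intro h
      rw [hstep, e1, h, zero_mul, norm_zero] at h1'
      linarith
    rw [hstep, e1, norm_mul, norm_pow, Real.log_mul (norm_ne_zero_iff.2 hne)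
      (pow_ne_zero _ (norm_ne_zero_iff.2 hym)), Real.log_pow, hPdeg]
    ring
  obtain ⟨m1, hm1⟩ := eventually_atTop.1 (hcK.and hy1)
  -- monotone sequences
  have hDm : ∀ m : ℕ, 0 < D ^ m := fun m => by positivity
  have hmono : ∀ m, m1 ≤ m →
      (Real.log ‖y m‖ - K) / D ^ m ≤ (Real.log ‖y (m + 1)‖ - K) / D ^ (m + 1) := by
    intro m hm
    have h1 := hrec m (hm1 m hm).2 (hm1 (m + 1) (by omega)).2
    have h2 := (abs_le.1 (hm1 m hm).1).1
    rw [div_le_div_iff₀ (hDm m) (hDm (m + 1)), pow_succ, h1]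
    have h3 : D * (Real.log ‖y m‖ - K) ≤ D * Real.log ‖y m‖ + c m - K := by nlinarith
    calc (Real.log ‖y m‖ - K) * (D ^ m * D) = (D * (Real.log ‖y m‖ - K)) * D ^ m := by ring
      _ ≤ (D * Real.log ‖y m‖ + c m - K) * D ^ m := mul_le_mul_of_nonneg_right h3 (hDm m).le
  have hanti : ∀ m, m1 ≤ m →
      (Real.log ‖y (m + 1)‖ + K) / D ^ (m + 1) ≤ (Real.log ‖y m‖ + K) / D ^ m := by
    intro m hm
    have h1 := hrec m (hm1 m hm).2 (hm1 (m + 1) (by omega)).2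
    have h2 := (abs_le.1 (hm1 m hm).1).2
    rw [div_le_div_iff₀ (hDm (m + 1)) (hDm m), pow_succ, h1]
    have h3 : D * Real.log ‖y m‖ + c m + K ≤ D * (Real.log ‖y m‖ + K) := by nlinarith
    calc (D * Real.log ‖y m‖ + c m + K) * D ^ m ≤ (D * (Real.log ‖y m‖ + K)) * D ^ m :=
          mul_le_mul_of_nonneg_right h3 (hDm m).le
      _ = (Real.log ‖y m‖ + K) * (D ^ m * D) := by ring
  set e : ℕ → ℝ := fun n => (Real.log ‖y (m1 + n)‖ - K) / D ^ (m1 + n) with he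
  have hem : Monotone e := monotone_nat_of_le_succ (fun n => hmono (m1 + n) (by omega))
  have hfm : Antitone (fun n : ℕ => (Real.log ‖y (m1 + n)‖ + K) / D ^ (m1 + n)) :=
    antitone_nat_of_succ_le (fun n => hanti (m1 + n) (by omega))
  have hbdd : BddAbove (Set.range e) := by
    refine ⟨(Real.log ‖y (m1 + 0)‖ + K) / D ^ (m1 + 0), ?_⟩
    rintro _ ⟨n, rfl⟩
    refine le_trans ?_ (hfm (Nat.zero_le n))
    show (Real.log ‖y (m1 + n)‖ - K) / D ^ (m1 + n) ≤ (Real.log ‖y (m1 + n)‖ + K) / D ^ (m1 + n)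
    exact div_le_div_of_nonneg_right (by linarith) (hDm _).le
  have hconv := tendsto_atTop_ciSup hem hbdd
  set g : ℝ := ⨆ n, e n with hg
  have hpos : 0 < g := by
    have h1 := (Real.tendsto_log_atTop.comp hesc).eventually (eventually_gt_atTop K)
    obtain ⟨m0, hm0⟩ := eventually_atTop.1 h1
    have h2 : 0 < e m0 := by
      have h3 : K < Real.log ‖y (m1 + m0)‖ := hm0 (m1 + m0) (by omega)
      exact div_pos (by linarith) (hDm _)
    exact h2.trans_le (le_ciSup hbdd m0)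
  refine ⟨g, hpos, ?_⟩
  have hDinv : Tendsto (fun m : ℕ => (D ^ m)⁻¹) atTop (𝓝 0) :=
    tendsto_inv_atTop_zero.comp (tendsto_pow_atTop_atTop_of_one_lt (by linarith))
  have hlog : Tendsto (fun m : ℕ => Real.log ‖y m‖ / D ^ m) atTop (𝓝 g) := by
    rw [← tendsto_add_atTop_iff_nat m1]
    have h1 : (fun n : ℕ => Real.log ‖y (n + m1)‖ / D ^ (n + m1)) =
        fun n => e n + K * (D ^ (n + m1))⁻¹ := by
      funext n
      simp only [he]
      rw [add_comm m1 n]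
      field_simp
      ring
    rw [h1]
    have h2 : Tendsto (fun n : ℕ => K * (D ^ (n + m1))⁻¹) atTop (𝓝 0) := by
      have h3 := (hDinv.comp (tendsto_add_atTop_nat m1)).const_mul K
      rwa [mul_zero] at h3
    have := hconv.add h2
    rwa [add_zero] at this
  -- the translation by `x`
  have hdiff : Tendsto (fun m : ℕ => (Real.log ‖y m - x‖ - Real.log ‖y m‖) * (D ^ m)⁻¹) atTop
      (𝓝 0) := by
    have hb : ∀ᶠ m in atTop, ‖Real.log ‖y m - x‖ - Real.log ‖y m‖‖ ≤ Real.log 2 := by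
      have h1 := hesc.eventually (eventually_ge_atTop (2 * ‖x‖ + 1))
      refine h1.mono (fun m hm => ?_)
      have hm' : 2 * ‖x‖ + 1 ≤ ‖y m‖ := hm
      have hx0 := norm_nonneg x
      have hlow : ‖y m‖ / 2 ≤ ‖y m - x‖ := by
        have := norm_sub_norm_le (y m) x
        linarith
      have hup : ‖y m - x‖ ≤ 2 * ‖y m‖ := by
        have := norm_sub_le (y m) x
        linarith
      have hypos : 0 < ‖y m‖ := by linarith
      have hxpos : 0 < ‖y m - x‖ := lt_of_lt_of_le (by linarith) hlow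
      rw [Real.norm_eq_abs, abs_le]
      constructor
      · have h2 := Real.log_le_log (by linarith) hlow
        rw [Real.log_div hypos.ne' (by norm_num)] at h2
        linarith
      · have h2 := Real.log_le_log hxpos hup
        rw [Real.log_mul (by norm_num) hypos.ne'] at h2
        linarith
    have h4 : Tendsto (fun m : ℕ => Real.log 2 * (D ^ m)⁻¹) atTop (𝓝 0) := by
      have := hDinv.const_mul (Real.log 2)
      rwa [mul_zero] at this
    refine squeeze_zero_norm' ?_ h4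
    refine hb.mono (fun m hm => ?_)
    rw [norm_mul, Real.norm_of_nonneg (inv_nonneg.2 (hDm m).le)]
    exact mul_le_mul_of_nonneg_right hm (inv_nonneg.2 (hDm m).le)
  have hfin := hlog.add hdiff
  rw [add_zero] at hfin
  refine hfin.congr (fun m => ?_)
  rw [div_eq_mul_inv, div_eq_mul_inv]
  ring

end SkewBif
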