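import Pool.Agent.SK.Defs
/-! ## MP_9cfccf_an, module B3a -/
open Set Metric Filter Topology Polynomial
namespace SkewBif

/-- B3a. A polynomial without critical value in a disc has a holomorphic section over the disc
through any given preimage of the centre.
Proof: `Polynomial.isCoveringMapOn_eval` (`Mathlib/Analysis/Complex/CoveringMap.lean`) and
`IsCoveringMapOn.existsUnique_continuousMap_lifts` (`Mathlib/Topology/Homotopy/Lifting.lean`, the
disc is convex hence simply connected); a continuous section of a locally invertible holomorphic map is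
holomorphic (`HasStrictDerivAt.of_local_left_inverse` or `HasDerivAt.of_local_left_inverse`). -/
theorem exists_section {F : ℂ[X]} {w0 z0 : ℂ} {r : ℝ} (hr : 0 < r)
    (hcrit : ∀ c, F.derivative.eval c = 0 → F.eval c ∉ ball w0 r) (hz0 : F.eval z0 = w0) :
    ∃ g : ℂ → ℂ, DifferentiableOn ℂ g (ball w0 r) ∧ g w0 = z0 ∧ ∀ w ∈ ball w0 r, F.eval (g w) = w := by
  classical
  have : ContractibleSpace (ball w0 r) := (convex_ball w0 r).contractibleSpace ⟨w0, mem_ball_self hr⟩
  have : LocallyPathConnectedSpace (ball w0 r) := isOpen_ball.locallyPathConnectedSpace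
  have hcov := F.isCoveringMapOn_eval
  obtain ⟨G, ⟨hG0, hG⟩, -⟩ := hcov.existsUnique_continuousMap_lifts
    (⟨Subtype.val, continuous_subtype_val⟩ : C(ball w0 r, ℂ)) (a₀ := ⟨w0, mem_ball_self hr⟩)
    (e₀ := z0) hz0 (by
      rintro ⟨a, ha⟩ ⟨c, hc, hca⟩
      exact hcrit c hc (by simpa [hca] using ha))
  have hGv : ∀ w (hw : w ∈ ball w0 r), F.eval (G ⟨w, hw⟩) = w := fun w hw =>
    congrFun hG ⟨w, hw⟩
  let g : ℂ → ℂ := fun w => if hw : w ∈ ball w0 r then G ⟨w, hw⟩ else z0
  have hg : ∀ w (hw : w ∈ ball w0 r), g w = G ⟨w, hw⟩ := fun w hw => dif_pos hw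
  have hgc : ContinuousOn g (ball w0 r) := by
    rw [continuousOn_iff_continuous_domRestrict]
    have : (ball w0 r).domRestrict g = G := by
      funext w
      exact hg w.1 w.2
    rw [this]
    exact G.continuous
  refine ⟨g, ?_, ?_, ?_⟩
  · intro w hw
    have h1 : F.derivative.eval (g w) ≠ 0 := fun h =>
      hcrit _ h (by rw [hg w hw, hGv w hw]; exact hw)
    have h2 : HasDerivAt (fun z => F.eval z) (F.derivative.eval (g w)) (g w) := F.hasDerivAt _
    have h3 := HasDerivAt.of_local_left_inverse (g := g) (a := w)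
      (hgc.continuousAt (isOpen_ball.mem_nhds hw)) h2 h1
      (by
        filter_upwards [isOpen_ball.mem_nhds hw] with v hv
        rw [hg v hv]; exact hGv v hv)
    exact h3.differentiableAt.differentiableWithinAt
  · rw [hg w0 (mem_ball_self hr)]; exact hG0
  · intro w hw
    rw [hg w hw]; exact hGv w hw

end SkewBif
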