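import Pool.Agent.SK.B1
import Pool.Agent.SK.B3a
/-! ## MP_9cfccf_an, module B3b -/
open Set Metric Filter Topology Polynomial
namespace SkewBif

private theorem b3b_crit (P : ℂ[X]) (c : ℂ) : ∀ k : ℕ,
    (derivative (P.comp^[k] X)).eval c = 0 →
      ∃ i < k, P.derivative.eval ((fun z => P.eval z)^[i] c) = 0 := by
  intro k
  induction k with
  | zero => intro h; simp at h
  | succ k ih =>
    intro h
    rw [Function.iterate_succ_apply', derivative_comp, eval_mul, eval_comp] at h
    rcases mul_eq_zero.mp h with h | h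
    · obtain ⟨i, hi, h'⟩ := ih h
      exact ⟨i, by omega, h'⟩
    · refine ⟨k, by omega, ?_⟩
      rw [iterate_comp_eval, eval_X] at h
      exact h

/-- B3b. Fatou: an attracting periodic point attracts a critical point.
Proof. Shrink `r` so that `P^[M]` maps `ball z' r` into itself. Suppose no critical orbit meets
`ball z' r` (at any time `m ≥ 0`). The multiplier `μ` is not `0` (else some point of the cycle is critical and its orbit
reaches `z'`). For each `k`, the critical values of `P^[k M]` are the points `P^[i] c`,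
`1 ≤ i ≤ k M`, `c` critical, so by B3a there is a section `g_k` of `P^[k M]` on `ball z' r` with `g_k z' = z'`. Its
values are bounded by an escape radius `R ≥ ‖z'‖ + r` (`‖z‖ > R` implies `‖P^[m] z‖ > R`).
Cauchy: `‖μ‖^(-k) = ‖g_k' z'‖ ≤ R / r'`: contradiction for large `k`. -/
theorem fatou_attracting {P : ℂ[X]} (hP : 2 ≤ P.natDegree) {M : ℕ} (hM : 1 ≤ M) {z' : ℂ}
    (hz : (fun z => P.eval z)^[M] z' = z')
    (hμ : ‖deriv ((fun z => P.eval z)^[M]) z'‖ < 1) {r : ℝ} (hr : 0 < r) :
    ∃ c : ℂ, P.derivative.eval c = 0 ∧ ∃ m : ℕ, (fun z => P.eval z)^[m] c ∈ ball z' r := by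
  by_contra hcon
  push Not at hcon
  obtain ⟨R0, hR1, hR0⟩ := exists_escape_radius hP 0
  set R : ℝ := max R0 (‖z'‖ + r) with hR
  have hRpos : 0 < R := lt_of_lt_of_le (by linarith) (le_max_left _ _)
  have hesc1 : ∀ z : ℂ, R < ‖z‖ → R < ‖P.eval z‖ := by
    intro z hz
    have h1 := hR0 0 (by simp) z (le_trans (le_max_left _ _) hz.le)
    simp only [pt, add_zero] at h1
    linarith [norm_nonneg z]
  have hesc : ∀ m : ℕ, ∀ z : ℂ, R < ‖z‖ → R < ‖(fun z => P.eval z)^[m] z‖ := by
    intro m
    induction m with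
    | zero => intro z hz; simpa using hz
    | succ m ih =>
      intro z hz
      rw [Function.iterate_succ_apply]
      exact ih _ (hesc1 z hz)
  set μ := deriv ((fun z => P.eval z)^[M]) z' with hμd
  have hdiff : Differentiable ℂ (fun z => P.eval z) := P.differentiable
  obtain ⟨k, hk⟩ := exists_pow_lt_of_lt_one (show (0 : ℝ) < (r / 2) / R by positivity) hμ
  -- the section
  set Q : ℂ[X] := P.comp^[M * k] X with hQ
  have hQe : ∀ z, Q.eval z = (fun z => P.eval z)^[M * k] z := by
    intro z; rw [hQ, iterate_comp_eval, eval_X]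
  have hzk : (fun z => P.eval z)^[M * k] z' = z' := by
    rw [Function.iterate_mul]
    exact Function.iterate_fixed hz k
  obtain ⟨g, hg, hg0, hgi⟩ := exists_section (F := Q) (w0 := z') (z0 := z') hr
    (by
      intro c hc hmem
      obtain ⟨i, hi, hi'⟩ := b3b_crit P c (M * k) hc
      refine hcon _ hi' (M * k - i) ?_
      rw [← Function.iterate_add_apply]
      have : M * k - i + i = M * k := by omega
      rw [this, ← hQe]; exact hmem) (by rw [hQe, hzk])
  have hgb : ∀ w ∈ ball z' r, ‖g w‖ ≤ R := by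
    intro w hw
    by_contra hlt
    push Not at hlt
    have h1 := hesc (M * k) _ hlt
    rw [← hQe, hgi w hw] at h1
    have h2 : ‖w‖ ≤ ‖z'‖ + r := by
      have h3 : ‖w - z'‖ < r := by simpa [dist_eq_norm] using mem_ball.mp hw
      calc ‖w‖ = ‖z' + (w - z')‖ := by ring_nf
        _ ≤ ‖z'‖ + ‖w - z'‖ := norm_add_le _ _
        _ ≤ ‖z'‖ + r := by linarith
    have h4 : ‖z'‖ + r ≤ R := le_max_right _ _
    linarith
  have hder : ‖deriv g z'‖ ≤ R / (r / 2) := by
    refine Complex.norm_deriv_le_of_forall_mem_sphere_norm_le (by positivity) ?_ ?_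
    · refine (hg.mono ?_).diffContOnCl
      rw [closure_ball z' (by positivity)]
      exact closedBall_subset_ball (by linarith)
    · intro w hw
      exact hgb w (by
        rw [mem_sphere] at hw
        rw [mem_ball]; linarith)
  have hit : Differentiable ℂ ((fun z => P.eval z)^[M]) := hdiff.iterate M
  have h1 : HasDerivAt ((fun z => P.eval z)^[M]) μ z' := (hit z').hasDerivAt
  have h2 : HasDerivAt (((fun z => P.eval z)^[M])^[k]) (μ ^ k) z' := HasDerivAt.iterate z' h1 hz k
  rw [← Function.iterate_mul] at h2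
  have h3 : HasDerivAt g (deriv g z') z' :=
    ((hg z' (mem_ball_self hr)).differentiableAt (isOpen_ball.mem_nhds (mem_ball_self hr))).hasDerivAt
  have h4 : HasDerivAt (fun w => (fun z => P.eval z)^[M * k] (g w)) (μ ^ k * deriv g z') z' := by
    have := HasDerivAt.comp (h₂ := (fun z => P.eval z)^[M * k]) z' (by rw [hg0]; exact h2) h3
    exact this
  have h5 : HasDerivAt (fun w => (fun z => P.eval z)^[M * k] (g w)) 1 z' := by
    refine (hasDerivAt_id z').congr_of_eventuallyEq ?_
    filter_upwards [isOpen_ball.mem_nhds (mem_ball_self hr)] with w hw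
    rw [← hQe, hgi w hw]; rfl
  have h6 : μ ^ k * deriv g z' = 1 := h4.unique h5
  have h7 : (1 : ℝ) = ‖μ‖ ^ k * ‖deriv g z'‖ := by
    rw [← norm_pow, ← norm_mul, h6, norm_one]
  have h8 : ‖μ‖ ^ k * ‖deriv g z'‖ ≤ ‖μ‖ ^ k * (R / (r / 2)) := by gcongr
  have h9 : ‖μ‖ ^ k * (R / (r / 2)) < (r / 2) / R * (R / (r / 2)) := by gcongr
  have h10 : (r / 2) / R * (R / (r / 2)) = 1 := by field_simp
  linarith

end SkewBif
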