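import Pool.Agent.SK.Defs
/-! ## MP_9cfccf_an, module B6 -/
open Set Metric Filter Topology Polynomial
namespace SkewBif

/-- B6'. For `k ≥ 1` the function `σ ↦ nac q σ k z` is given by a polynomial of degree
`d ^ (k - 1)`. -/
theorem nac_poly {q : ℕ → ℂ[X]} {d : ℕ} (hd : 2 ≤ d) (hq : ∀ j, (q j).natDegree = d)
    {k : ℕ} (hk : 1 ≤ k) (z : ℂ) :
    ∃ P : ℂ[X], P.natDegree = d ^ (k - 1) ∧ ∀ σ : ℂ, nac q σ k z = P.eval σ := by
  induction k, hk using Nat.le_induction with
  | base =>
    refine ⟨X + C ((q 0).eval z), ?_, fun σ => ?_⟩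
    · rw [natDegree_X_add_C]
      simp
    · show (q 0).eval z + σ = _
      simp only [eval_add, eval_X, eval_C]
      ring
  | succ k hk ih =>
    obtain ⟨P, h1, h2⟩ := ih
    have h3 : ((q k).comp P).natDegree = d ^ k := by
      rw [natDegree_comp, hq, h1, ← pow_succ']
      congr 1
      omega
    refine ⟨(q k).comp P + X, ?_, fun σ => ?_⟩
    · rw [natDegree_add_eq_left_of_natDegree_lt, h3, Nat.add_sub_cancel]
      rw [h3, natDegree_X]
      exact Nat.one_lt_pow (by omega) (by omega)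
    · show (q k).eval (nac q σ k z) + σ = _
      rw [h2 σ]
      simp only [eval_add, eval_X, eval_comp]

/-- B6. No persistent relation between iterates of a point independent of the parameter.
For `k ≥ 1`, `nac q σ k z` is a polynomial in `σ` of degree `d^(k-1)`
(with nonzero leading coefficient). Hence for `n ≥ 1` and `m ≥ 0` the set of `σ` with
`nac q σ (m + n) z = nac q σ m z` is finite. -/
theorem finite_relation {q : ℕ → ℂ[X]} {d : ℕ} (hd : 2 ≤ d) (hq : ∀ j, (q j).natDegree = d)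
    (m : ℕ) {n : ℕ} (hn : 1 ≤ n) (z : ℂ) :
    {σ : ℂ | nac q σ (m + n) z = nac q σ m z}.Finite := by
  obtain ⟨P, hP1, hP2⟩ := nac_poly hd hq (k := m + n) (by omega) z
  have hex : ∃ Q : ℂ[X], Q.natDegree < P.natDegree ∧ ∀ σ : ℂ, nac q σ m z = Q.eval σ := by
    rcases Nat.eq_zero_or_pos m with rfl | hm
    · refine ⟨C z, ?_, fun σ => ?_⟩
      · rw [natDegree_C, hP1]
        exact Nat.pow_pos (by omega)
      · rw [eval_C]
        rfl
    · obtain ⟨Q, hQ1, hQ2⟩ := nac_poly hd hq (k := m) hm z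
      refine ⟨Q, ?_, hQ2⟩
      rw [hQ1, hP1]
      exact Nat.pow_lt_pow_right (by omega) (by omega)
  obtain ⟨Q, hQ1, hQ2⟩ := hex
  have hne : P - Q ≠ 0 := by
    intro h
    rw [sub_eq_zero.1 h] at hQ1
    exact lt_irrefl _ hQ1
  refine (P - Q).roots.toFinset.finite_toSet.subset fun σ hσ => ?_
  have hσ' : nac q σ (m + n) z = nac q σ m z := hσ
  simp only [Finset.mem_coe, Multiset.mem_toFinset]
  rw [mem_roots hne]
  show (P - Q).eval σ = 0
  rw [eval_sub, ← hP2, ← hQ2, hσ', sub_self]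

/-- The autonomous case. -/
theorem nac_const (p : ℂ[X]) (τ : ℂ) (m : ℕ) : nac (fun _ => p) τ m = (pt p τ)^[m] := by
  induction m with
  | zero => rfl
  | succ m ih =>
    rw [Function.iterate_succ', ← ih]
    rfl

end SkewBif
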