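import Pool.Agent.SK.Defs
/-! ## MP_9cfccf_an, module B8 -/
open Set Metric Filter Topology Polynomial
namespace SkewBif

/-- The derivative of `X - F` at a point. -/
theorem B8_der (F : ℂ[X]) (z : ℂ) : (X - F).derivative.eval z = 1 - F.derivative.eval z := by
  simp

/-- Partial fractions: for nodes `S`, `(nodal S)(z)⁻¹ = ∑ w_i (z - i)⁻¹`. -/
theorem B8_pf {S : Finset ℂ} (hne : S.Nonempty) {z : ℂ} (hz : z ∉ S) :
    ((Lagrange.nodal S id).eval z)⁻¹ =
      ∑ i ∈ S, (z - i)⁻¹ * ((Lagrange.nodal S id).derivative.eval i)⁻¹ := by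
  have hx : ∀ i ∈ S, z ≠ (id i : ℂ) := by
    intro i hi h
    exact hz (by simpa [h] using hi)
  have h1 := Lagrange.eval_interpolate_not_at_node (s := S) (v := (id : ℂ → ℂ)) 1 hx
  rw [Lagrange.interpolate_one (injOn_id _) hne, eval_one] at h1
  refine inv_eq_of_mul_eq_one_right ?_
  rw [h1]
  congr 1
  refine Finset.sum_congr rfl fun i hi => ?_
  rw [Lagrange.nodalWeight_eq_eval_derivative_nodal hi]
  simp [mul_comm]

/-- B8a. Index bound on a disc. Proof: write `X - F = P1 * P2`, `P1 = ∏_{z ∈ S} (X - z)`; `P2` does not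
vanish on `closedBall z0 r` (simple fixed points). Lagrange:
`1 / P1(z) = ∑_{i} 1 / (P1'(z_i) (z - z_i))` (`Lagrange` interpolation of the constant `1`), Cauchy's
integral formula for `1 / P2`: `∮ dz/(z - F z) = 2πi ∑_{i} 1/(P1'(z_i) P2(z_i))
= 2πi ∑ 1/(1 - F'(z_i))`; the integral is bounded by `2π r / c`. -/
theorem index_bound {F : ℂ[X]} {z0 : ℂ} {r c : ℝ} (hr : 0 < r) (hc : 0 < c)
    (hcirc : ∀ z ∈ sphere z0 r, c ≤ ‖z - F.eval z‖)
    (hsimple : ∀ z ∈ ball z0 r, F.eval z = z → F.derivative.eval z ≠ 1) (S : Finset ℂ)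
    (hS : ∀ z, z ∈ S ↔ z ∈ ball z0 r ∧ F.eval z = z) :
    ‖∑ z ∈ S, 1 / (1 - F.derivative.eval z)‖ ≤ r / c := by
  rcases S.eq_empty_or_nonempty with hne | hne
  · subst hne
    simp only [Finset.sum_empty, norm_zero]
    positivity
  obtain ⟨P2, hP2⟩ : Lagrange.nodal S id ∣ (X - F : ℂ[X]) := by
    rw [Lagrange.nodal]
    refine Finset.prod_dvd_of_coprime ?_ ?_
    · intro a ha b hb hab
      exact isCoprime_X_sub_C_of_isUnit_sub (sub_ne_zero.2 hab).isUnit
    · intro i hi
      rw [dvd_iff_isRoot]
      have := ((hS i).1 hi).2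
      simp [IsRoot, this]
  have hg : ∀ z, z - F.eval z = (Lagrange.nodal S id).eval z * P2.eval z := by
    intro z
    have := congrArg (fun P : ℂ[X] => P.eval z) hP2
    simpa using this
  have hg' : ∀ z, 1 - F.derivative.eval z =
      (Lagrange.nodal S id).derivative.eval z * P2.eval z +
        (Lagrange.nodal S id).eval z * P2.derivative.eval z := by
    intro z
    have := congrArg (fun P : ℂ[X] => P.derivative.eval z) hP2
    simpa using this
  have hP2ne : ∀ z ∈ closedBall z0 r, P2.eval z ≠ 0 := by
    intro z hz h0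
    have hgz : z - F.eval z = 0 := by rw [hg, h0, mul_zero]
    have hzs : z ∉ sphere z0 r := by
      intro hs
      have := hcirc z hs
      rw [hgz, norm_zero] at this
      linarith
    have hzb : z ∈ ball z0 r := by
      rw [mem_ball]
      rw [mem_closedBall] at hz
      rw [mem_sphere] at hzs
      exact lt_of_le_of_ne hz hzs
    have hF : F.eval z = z := (sub_eq_zero.1 hgz).symm
    have hzS : z ∈ S := (hS z).2 ⟨hzb, hF⟩
    have h1 := hg' z
    have h2 : (Lagrange.nodal S id).eval z = 0 := by
      simpa using Lagrange.eval_nodal_at_node (s := S) (v := (id : ℂ → ℂ)) hzS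
    rw [h0, h2, mul_zero, zero_mul, add_zero] at h1
    exact hsimple z hzb hF (sub_eq_zero.1 h1).symm
  have hterm : ∀ i ∈ S, 1 / (1 - F.derivative.eval i) =
      ((Lagrange.nodal S id).derivative.eval i)⁻¹ * (P2.eval i)⁻¹ := by
    intro i hi
    have h2 : (Lagrange.nodal S id).eval i = 0 := by
      simpa using Lagrange.eval_nodal_at_node (s := S) (v := (id : ℂ → ℂ)) hi
    rw [hg', h2, zero_mul, add_zero, one_div, mul_inv]
  have hd : DifferentiableOn ℂ (fun z => (P2.eval z)⁻¹) (closedBall z0 r) :=
    P2.differentiable.differentiableOn.inv hP2ne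
  have hint : (∮ z in C(z0, r), (z - F.eval z)⁻¹) =
      (2 * Real.pi * Complex.I : ℂ) • ∑ z ∈ S, 1 / (1 - F.derivative.eval z) := by
    have h1 : (∮ z in C(z0, r), (z - F.eval z)⁻¹) =
        ∮ z in C(z0, r), ∑ i ∈ S, (z - i)⁻¹ •
          (((Lagrange.nodal S id).derivative.eval i)⁻¹ * (P2.eval z)⁻¹) := by
      refine circleIntegral.integral_congr hr.le fun z hz => ?_
      have hzS : z ∉ S := by
        intro h
        have := ((hS z).1 h).1
        rw [mem_ball, mem_sphere.1 hz] at this
        exact lt_irrefl _ this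
      rw [hg, mul_inv, B8_pf hne hzS, Finset.sum_mul]
      refine Finset.sum_congr rfl fun i hi => ?_
      rw [smul_eq_mul, mul_assoc]
    rw [h1, circleIntegral.integral_fun_sum]
    · rw [Finset.smul_sum]
      refine Finset.sum_congr rfl fun i hi => ?_
      rw [DifferentiableOn.circleIntegral_sub_inv_smul (hd.const_mul _) ((hS i).1 hi).1,
        hterm i hi]
    · intro i hi
      refine ContinuousOn.circleIntegrable hr.le ?_
      refine ContinuousOn.smul
        (ContinuousOn.inv₀ (continuousOn_id.sub continuousOn_const) ?_) ?_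
      · intro z hz h0
        have h2 : z = i := sub_eq_zero.1 h0
        have := ((hS i).1 hi).1
        rw [← h2, mem_ball, mem_sphere.1 hz] at this
        exact lt_irrefl _ this
      · exact ((hd.const_mul _).continuousOn).mono sphere_subset_closedBall
  have hb := circleIntegral.norm_two_pi_i_inv_smul_integral_le_of_norm_le_const
    (f := fun z => (z - F.eval z)⁻¹) (c := z0) (R := r) (C := 1 / c) hr.le (by
      intro z hz
      rw [norm_inv, ← one_div]
      exact one_div_le_one_div_of_le hc (hcirc z hz))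
  rw [hint, inv_smul_smul₀ (by simp [Real.pi_ne_zero])] at hb
  rwa [mul_one_div] at hb

/-- B8b. Global index: if all fixed points of a polynomial of degree `≥ 2` are simple then
`∑ 1 / (1 - F'(z_i)) = 0`. Proof: Lagrange interpolation (coefficient of the highest power of the
interpolation polynomial of the constant `1` at the `D ≥ 2` roots of `X - F`). -/
theorem index_global {F : ℂ[X]} (hF : 2 ≤ F.natDegree)
    (hsimple : ∀ z, F.eval z = z → F.derivative.eval z ≠ 1) :
    ∑ z ∈ (X - F).roots.toFinset, 1 / (1 - F.derivative.eval z) = 0 := by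
  have hdeg : (X - F : ℂ[X]).natDegree = F.natDegree := by
    rw [natDegree_sub_eq_right_of_natDegree_lt]
    rw [natDegree_X]
    omega
  have hne : (X - F : ℂ[X]) ≠ 0 := by
    intro h
    rw [h, natDegree_zero] at hdeg
    omega
  have hroot : ∀ z, z ∈ (X - F : ℂ[X]).roots.toFinset ↔ F.eval z = z := by
    intro z
    rw [Multiset.mem_toFinset, mem_roots hne, IsRoot, eval_sub, eval_X, sub_eq_zero, eq_comm]
  have hnodup : (X - F : ℂ[X]).roots.Nodup := by
    rw [Multiset.nodup_iff_count_le_one]
    intro z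
    rw [count_roots]
    by_contra hlt
    push Not at hlt
    have hz : (X - F : ℂ[X]).IsRoot z ∧ (X - F : ℂ[X]).derivative.IsRoot z :=
      (one_lt_rootMultiplicity_iff_isRoot hne).1 hlt
    have h1 : F.eval z = z := by
      have := hz.1
      rw [IsRoot, eval_sub, eval_X, sub_eq_zero] at this
      exact this.symm
    have h2 : F.derivative.eval z = 1 := by
      have := hz.2
      rw [IsRoot, B8_der, sub_eq_zero] at this
      exact this.symm
    exact hsimple z h1 h2
  have hcard : (X - F : ℂ[X]).roots.toFinset.card = F.natDegree := by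
    rw [Multiset.toFinset_card_of_nodup hnodup, ← hdeg]
    exact (splits_iff_card_roots.1 (IsAlgClosed.splits _))
  have hprod : (X - F : ℂ[X]) = C (X - F : ℂ[X]).leadingCoeff *
      Lagrange.nodal (X - F : ℂ[X]).roots.toFinset id := by
    have h1 := (IsAlgClosed.splits (X - F : ℂ[X])).eq_prod_roots
    rw [Lagrange.nodal, Finset.prod, Multiset.toFinset_val, hnodup.dedup]
    exact h1
  set S := (X - F : ℂ[X]).roots.toFinset with hSdef
  set L := (X - F : ℂ[X]).leadingCoeff with hL
  have hLne : L ≠ 0 := leadingCoeff_ne_zero.2 hne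
  have hterm : ∀ i ∈ S, 1 / (1 - F.derivative.eval i) =
      L⁻¹ * (1 / ∏ j ∈ S.erase i, (id i - id j)) := by
    intro i hi
    have h1 : (X - F : ℂ[X]).derivative.eval i = L * (Lagrange.nodal S id).derivative.eval i := by
      conv_lhs => rw [hprod]
      simp
    rw [← B8_der, h1]
    have h2 := Lagrange.eval_nodal_derivative_eval_node_eq (s := S) (v := (id : ℂ → ℂ)) hi
    simp only [id] at h2 ⊢
    rw [h2, Lagrange.eval_nodal, one_div, mul_inv, one_div]
    rfl
  rw [Finset.sum_congr rfl hterm, ← Finset.mul_sum]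
  have h3 := Lagrange.coeff_eq_sum (s := S) (v := (id : ℂ → ℂ)) (injOn_id _) (P := (1 : ℂ[X]))
    (by rw [degree_one]; exact_mod_cast (by omega : 0 < S.card))
  simp only [eval_one] at h3
  rw [← h3, coeff_one, if_neg (by omega), mul_zero]

/-- B8c. Consequence: a polynomial of degree `≥ 2` all of whose fixed points are simple has a
repelling fixed point. Proof: if all multipliers `β ≠ 1` satisfy `‖β‖ ≤ 1` then
`Re (1 / (1 - β)) ≥ 1/2`, contradiction with B8b (the set of roots is nonempty). -/
theorem exists_repelling {F : ℂ[X]} (hF : 2 ≤ F.natDegree)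
    (hsimple : ∀ z, F.eval z = z → F.derivative.eval z ≠ 1) :
    ∃ z, F.eval z = z ∧ 1 < ‖F.derivative.eval z‖ := by
  by_contra hcon
  push Not at hcon
  have hdeg : (X - F : ℂ[X]).natDegree = F.natDegree := by
    rw [natDegree_sub_eq_right_of_natDegree_lt]
    rw [natDegree_X]
    omega
  have hne : (X - F : ℂ[X]) ≠ 0 := by
    intro h
    rw [h, natDegree_zero] at hdeg
    omega
  have hroot : ∀ z, z ∈ (X - F : ℂ[X]).roots.toFinset ↔ F.eval z = z := by
    intro z
    rw [Multiset.mem_toFinset, mem_roots hne, IsRoot, eval_sub, eval_X, sub_eq_zero, eq_comm]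
  have h0 := index_global hF hsimple
  have h1 := congrArg Complex.re h0
  rw [Complex.re_sum, Complex.zero_re] at h1
  have hpos : ∀ z ∈ (X - F : ℂ[X]).roots.toFinset,
      0 < (1 / (1 - F.derivative.eval z)).re := by
    intro z hz
    have hz' := (hroot z).1 hz
    have hle := hcon z hz'
    have hne1 := hsimple z hz'
    set β := F.derivative.eval z with hβ
    have hb : 1 - β ≠ 0 := sub_ne_zero.2 (Ne.symm hne1)
    rw [one_div, Complex.inv_re]
    refine div_pos ?_ (Complex.normSq_pos.2 hb)
    rw [Complex.sub_re, Complex.one_re, sub_pos]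
    by_contra hge
    push Not at hge
    apply hne1
    have hsq : β.re * β.re + β.im * β.im ≤ 1 := by
      have h2 : ‖β‖ ^ 2 ≤ 1 := by nlinarith [norm_nonneg β]
      rwa [Complex.sq_norm, Complex.normSq_apply] at h2
    have him : β.im * β.im ≤ 0 := by nlinarith
    have him0 : β.im = 0 := by
      have : β.im * β.im = 0 := le_antisymm him (mul_self_nonneg _)
      exact mul_self_eq_zero.1 this
    have hre : β.re = 1 := by nlinarith
    apply Complex.ext
    · simpa using hre
    · simpa using him0
  have hnon : (X - F : ℂ[X]).roots.toFinset.Nonempty := by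
    obtain ⟨z, hz⟩ := IsAlgClosed.exists_root (X - F : ℂ[X]) (by
      rw [degree_eq_natDegree hne, hdeg]
      exact_mod_cast (by omega : F.natDegree ≠ 0))
    exact ⟨z, by rw [Multiset.mem_toFinset, mem_roots hne]; exact hz⟩
  have := Finset.sum_pos hpos hnon
  linarith

end SkewBif
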