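import Pool.Agent.SK.B5
import Pool.Agent.SK.B6
import Pool.Agent.SK.B8
/-! ## MP_9cfccf_an, module B9 -/
open Set Metric Filter Topology Polynomial
namespace SkewBif

/-- The polynomial of the `N`-th iterate of `p + τ`. -/
noncomputable def B9_it (p : ℂ[X]) (τ : ℂ) (N : ℕ) : ℂ[X] := ((p + C τ).comp)^[N] X

theorem B9_it_eval (p : ℂ[X]) (τ : ℂ) (N : ℕ) (z : ℂ) :
    (B9_it p τ N).eval z = (pt p τ)^[N] z := by
  rw [B9_it, iterate_comp_eval, eval_X]
  congr 1
  ext w
  simp [pt]

theorem B9_it_deg (p : ℂ[X]) (τ : ℂ) (N : ℕ) : (B9_it p τ N).natDegree = p.natDegree ^ N := by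
  rw [B9_it, natDegree_iterate_comp, natDegree_X, mul_one, natDegree_add_C]

theorem B9_it_fun (p : ℂ[X]) (τ : ℂ) (N : ℕ) :
    (pt p τ)^[N] = fun z => (B9_it p τ N).eval z := by
  ext z
  rw [B9_it_eval]

theorem B9_it_hasDerivAt (p : ℂ[X]) (τ : ℂ) (N : ℕ) (z : ℂ) :
    HasDerivAt ((pt p τ)^[N]) ((B9_it p τ N).derivative.eval z) z := by
  rw [B9_it_fun]
  exact (B9_it p τ N).hasDerivAt z

theorem B9_it_deriv (p : ℂ[X]) (τ : ℂ) (N : ℕ) (z : ℂ) :
    deriv ((pt p τ)^[N]) z = (B9_it p τ N).derivative.eval z :=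
  (B9_it_hasDerivAt p τ N z).deriv

/-- Joint continuity of the iterates. -/
theorem B9_cont (p : ℂ[X]) (N : ℕ) : Continuous fun v : ℂ × ℂ => (pt p v.1)^[N] v.2 := by
  induction N with
  | zero => simpa using continuous_snd
  | succ N ih =>
    have h : (fun v : ℂ × ℂ => (pt p v.1)^[N + 1] v.2) =
        fun v : ℂ × ℂ => p.eval ((pt p v.1)^[N] v.2) + v.1 := by
      ext v
      rw [Function.iterate_succ_apply']
      rfl
    rw [h]
    exact (p.continuous.comp ih).add continuous_fst

/-- Formula for the derivative of the iterates. -/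
theorem B9_deriv_prod (p : ℂ[X]) (τ : ℂ) (N : ℕ) (z : ℂ) :
    deriv ((pt p τ)^[N]) z = ∏ i ∈ Finset.range N, p.derivative.eval ((pt p τ)^[i] z) := by
  induction N with
  | zero => simp
  | succ N ih =>
    have h : (pt p τ)^[N + 1] = fun z => p.eval ((pt p τ)^[N] z) + τ := by
      ext v
      rw [Function.iterate_succ_apply']
      rfl
    have h1 : HasDerivAt (fun z => p.eval ((pt p τ)^[N] z) + τ)
        (p.derivative.eval ((pt p τ)^[N] z) * deriv ((pt p τ)^[N]) z) z := by
      have h3 := (B9_it_hasDerivAt p τ N z)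
      rw [← B9_it_deriv] at h3
      have h4 : HasDerivAt (fun z => p.eval ((pt p τ)^[N] z))
        (p.derivative.eval ((pt p τ)^[N] z) * deriv ((pt p τ)^[N]) z) z :=
        HasDerivAt.comp z (p.hasDerivAt _) h3
      exact h4.add_const τ
    rw [h, h1.deriv, Finset.prod_range_succ, ih, mul_comm]

/-- Joint continuity of the derivatives of the iterates. -/
theorem B9_cont_deriv (p : ℂ[X]) (N : ℕ) :
    Continuous fun v : ℂ × ℂ => deriv ((pt p v.1)^[N]) v.2 := by
  have h : (fun v : ℂ × ℂ => deriv ((pt p v.1)^[N]) v.2) =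
      fun v : ℂ × ℂ => ∏ i ∈ Finset.range N, p.derivative.eval ((pt p v.1)^[i] v.2) := by
    ext v
    exact B9_deriv_prod p v.1 N v.2
  rw [h]
  exact continuous_finsetProd _ fun i _ => p.derivative.continuous.comp (B9_cont p i)

/-- Real part estimate. -/
theorem B9_re {β : ℂ} (h1 : 1 ≤ ‖β‖) (hne : β ≠ 1) : (1 / (1 - β)).re ≤ 1 / 2 := by
  have hb : 1 - β ≠ 0 := sub_ne_zero.2 (Ne.symm hne)
  have hpos : 0 < Complex.normSq (1 - β) := Complex.normSq_pos.2 hb
  rw [one_div, Complex.inv_re, div_le_iff₀ hpos, Complex.normSq_apply]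
  have h2 : 1 ≤ β.re * β.re + β.im * β.im := by
    have h3 : 1 ≤ ‖β‖ ^ 2 := by nlinarith [norm_nonneg β]
    rwa [Complex.sq_norm, Complex.normSq_apply] at h3
  simp only [Complex.sub_re, Complex.one_re, Complex.sub_im, Complex.one_im]
  nlinarith

/-- Two fixed points in a convex set on which the derivative is close to a constant `≠ 1` agree. -/
theorem B9_inj {f : ℂ → ℂ} {K : Set ℂ} (hK : Convex ℝ K) {l : ℂ} (hl : l ≠ 1)
    (hf : ∀ z, DifferentiableAt ℂ f z) (hd : ∀ z ∈ K, ‖deriv f z - l‖ ≤ ‖l - 1‖ / 2) {z w : ℂ}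
    (hz : z ∈ K) (hw : w ∈ K) (hfz : f z = z) (hfw : f w = w) : z = w := by
  have h := hK.norm_image_sub_le_of_norm_hasDerivWithin_le (f := fun z => f z - l * z)
    (f' := fun z => deriv f z - l) (C := ‖l - 1‖ / 2) (fun x _ => by
      have h5 : HasDerivAt (fun z => f z - l * z) (deriv f x - l * 1) x :=
        (hf x).hasDerivAt.sub ((hasDerivAt_id x).const_mul l)
      rw [mul_one] at h5
      exact h5.hasDerivWithinAt) hd hz hw
  have h1 : (f w - l * w) - (f z - l * z) = -((l - 1) * (w - z)) := by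
    rw [hfz, hfw]; ring
  rw [h1, norm_neg, norm_mul] at h
  have h2 : 0 < ‖l - 1‖ := norm_pos_iff.2 (sub_ne_zero.2 hl)
  have h3 : ‖w - z‖ ≤ 0 := by
    by_contra hc
    push Not at hc
    nlinarith [mul_pos h2 hc]
  exact (sub_eq_zero.1 (norm_le_zero_iff.1 h3)).symm

/-- B9. Near a parameter `sr` on the imaginary axis with `exp (b sr) = 1` there are parameters with
`Re s > 0` having an attracting periodic point `z'` of period dividing `n b` which is not fixed by
the `n`-th iterate.

Proof. `F s = (pt p (τ s))^[n b]`, a polynomial of degree `d^(n b) ≥ 2`. `x sr` is an isolated fixed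
point of `F sr`; choose a small radius `r` such that `x sr` is the only fixed point of `F sr` in the closed ball
`closedBall (x sr) r` and such that for `s` near `sr` the only fixed point of `(pt p (τ s))^[n]` in
that closed ball is `x s` (its multiplier at `sr` is `exp sr ≠ 1`; implicit function theorem). For
`s` near `sr`, `‖z - F s z‖ ≥ c > 0` on the circle. Take `s = sr + ε'` with `ε' > 0` real and small,
outside the finite set where `F s` has a multiple fixed point (B5 with `μ = 1`, and `τ` injective).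
`F s` has multiplier `exp (b s) = exp (b ε') = 1 + ε` at `x s`, `ε > 0`. By B8a the sum of `1/(1 - F'(z_i))` over the fixed points in the ball
is bounded by `r/c`; the term of `x s` is `- 1 / ε`; the number of terms is at most `d^(n b)`; so for
`ε` small some other fixed point `z'` has `Re (1/(1 - F'(z'))) > 1/2`, i.e. `‖F'(z')‖ < 1`. -/
theorem parabolic_attracting {p : ℂ[X]} (hp : 2 ≤ p.natDegree) {n : ℕ} (hn : 1 ≤ n) {s0 : ℂ}
    {η : ℝ} {τ x : ℂ → ℂ} (h : LogParam p n s0 η τ x) {sr : ℂ} (hsr : sr ∈ ball s0 η)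
    (hre : sr.re = 0) {b : ℕ} (hb : 1 ≤ b) (hexp : Complex.exp (b * sr) = 1) {δ' : ℝ}
    (hδ' : 0 < δ') :
    ∃ s ∈ ball s0 η, 0 < s.re ∧ ‖s - sr‖ < δ' ∧ ∃ z' : ℂ, (pt p (τ s))^[n * b] z' = z' ∧
      ‖deriv ((pt p (τ s))^[n * b]) z'‖ < 1 ∧ (pt p (τ s))^[n] z' ≠ z' := by
  have hN : 1 ≤ n * b := Nat.one_le_iff_ne_zero.2 (by positivity)
  set N := n * b with hNdef
  have hdegN : ∀ t, 2 ≤ (B9_it p t N).natDegree := by
    intro t
    rw [B9_it_deg]
    calc 2 ≤ p.natDegree := hp
      _ = p.natDegree ^ 1 := (pow_one _).symm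
      _ ≤ p.natDegree ^ N := Nat.pow_le_pow_right (by omega) hN
  have hneN : ∀ t, (X - B9_it p t N : ℂ[X]) ≠ 0 := by
    intro t h0
    have h1 : B9_it p t N = X := (sub_eq_zero.1 h0).symm
    have := hdegN t
    rw [h1, natDegree_X] at this
    omega
  -- continuity of `τ` and `x` at `sr`
  have hτc : ContinuousAt τ sr := (h.hτ.differentiableAt (isOpen_ball.mem_nhds hsr)).continuousAt
  have hxc : ContinuousAt x sr := (h.hx.differentiableAt (isOpen_ball.mem_nhds hsr)).continuousAt
  -- the multiplier of `x sr` for the `n`-th iterate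
  have hl1 : Complex.exp sr ≠ 1 := h.ne1 sr hsr
  -- derivative close to `exp sr`
  have hD : ∀ᶠ v : ℂ × ℂ in 𝓝 (τ sr, x sr),
      ‖deriv ((pt p v.1)^[n]) v.2 - Complex.exp sr‖ < ‖Complex.exp sr - 1‖ / 2 := by
    have hc : ContinuousAt (fun v : ℂ × ℂ => ‖deriv ((pt p v.1)^[n]) v.2 - Complex.exp sr‖)
        (τ sr, x sr) := ((B9_cont_deriv p n).sub continuous_const).norm.continuousAt
    refine hc.eventually_lt continuousAt_const ?_
    simp only
    rw [h.mul sr hsr, sub_self, norm_zero]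
    have : 0 < ‖Complex.exp sr - 1‖ := norm_pos_iff.2 (sub_ne_zero.2 hl1)
    positivity
  obtain ⟨ε1, hε1, hD1⟩ := Metric.eventually_nhds_iff.1 hD
  -- isolated fixed point
  have hfin : {z : ℂ | (pt p (τ sr))^[N] z = z}.Finite := by
    refine ((X - B9_it p (τ sr) N : ℂ[X]).roots.toFinset.finite_toSet).subset ?_
    intro z hz
    simp only [mem_ofPred_eq] at hz
    simp only [Finset.mem_coe, Multiset.mem_toFinset]
    rw [mem_roots (hneN _), IsRoot, eval_sub, eval_X, B9_it_eval, hz, sub_self]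
  have hiso : ∀ᶠ z in 𝓝 (x sr), z ∉ {z : ℂ | (pt p (τ sr))^[N] z = z} \ {x sr} := by
    have hcl : IsClosed ({z : ℂ | (pt p (τ sr))^[N] z = z} \ {x sr}) :=
      (hfin.subset sdiff_subset).isClosed
    exact hcl.isOpen_compl.mem_nhds (by simp)
  obtain ⟨ε2, hε2, hiso1⟩ := Metric.eventually_nhds_iff.1 hiso
  -- the radius
  set r := min ε1 ε2 / 2 with hrdef
  have hr : 0 < r := by positivity
  have hr1 : r < ε1 := by
    have := min_le_left ε1 ε2
    have h2 : 0 < min ε1 ε2 := lt_min hε1 hε2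
    rw [hrdef]; linarith
  have hr2 : r < ε2 := by
    have := min_le_right ε1 ε2
    have h2 : 0 < min ε1 ε2 := lt_min hε1 hε2
    rw [hrdef]; linarith
  -- positivity on the circle
  have hcirc0 : ∀ z ∈ sphere (x sr) r, 0 < ‖z - (pt p (τ sr))^[N] z‖ := by
    intro z hz
    rw [norm_pos_iff, sub_ne_zero]
    intro heq
    refine hiso1 (y := z) (by rw [mem_sphere.1 hz]; exact hr2) ⟨heq.symm, ?_⟩
    intro h0
    rw [mem_singleton_iff] at h0
    rw [mem_sphere, h0, dist_self] at hz
    exact hr.ne hz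
  have hcont0 : Continuous fun z : ℂ => ‖z - (pt p (τ sr))^[N] z‖ := by
    have := (B9_cont p N).comp (continuous_const.prodMk continuous_id : Continuous fun z : ℂ =>
      ((τ sr, z) : ℂ × ℂ))
    exact (continuous_id.sub this).norm
  obtain ⟨c0, hc0, hc0le⟩ : ∃ c0 > 0, ∀ z ∈ sphere (x sr) r, c0 ≤ ‖z - (pt p (τ sr))^[N] z‖ := by
    have hne : (sphere (x sr) r).Nonempty := NormedSpace.sphere_nonempty.2 hr.le
    obtain ⟨z1, hz1, hmin⟩ := (isCompact_sphere (x sr) r).exists_isMinOn hne hcont0.continuousOn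
    exact ⟨_, hcirc0 z1 hz1, fun z hz => hmin hz⟩
  set c := c0 / 2 with hcdef
  have hc : 0 < c := by positivity
  have hcircτ : ∀ᶠ t in 𝓝 (τ sr), ∀ z ∈ sphere (x sr) r, c < ‖z - (pt p t)^[N] z‖ := by
    refine (isCompact_sphere (x sr) r).eventually_forall_of_forall_eventually
      (P := fun t z => c < ‖z - (pt p t)^[N] z‖) ?_
    intro z hz
    have hcc : Continuous fun v : ℂ × ℂ => ‖v.2 - (pt p v.1)^[N] v.2‖ :=
      (continuous_snd.sub (B9_cont p N)).norm
    have := hcc.continuousAt (x := (τ sr, z))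
    refine continuousAt_const.eventually_lt this ?_
    simp only
    have := hc0le z hz
    rw [hcdef]
    linarith
  -- the exceptional parameters
  have hbad : ∀ᶠ s in 𝓝 sr, s ∉ (ball s0 η ∩ τ ⁻¹'
      {σ : ℂ | ∃ w : ℂ, nac (fun _ => p) σ N w = w ∧ deriv (nac (fun _ => p) σ N) w = 1}) \ {sr} := by
    have hf := finite_multiplier (q := fun _ => p) hp (fun _ => rfl) hN 1
    have hf2 : (ball s0 η ∩ τ ⁻¹' {σ : ℂ | ∃ w : ℂ, nac (fun _ => p) σ N w = w ∧
        deriv (nac (fun _ => p) σ N) w = 1}).Finite := by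
      refine Set.Finite.of_finite_image (f := τ) (hf.subset ?_) (h.inj.mono inter_subset_left)
      rintro _ ⟨s, hs, rfl⟩
      exact hs.2
    exact (hf2.subset sdiff_subset).isClosed.isOpen_compl.mem_nhds (by simp)
  -- smallness of `exp (b t) - 1`
  have hsmall : ∀ᶠ t : ℝ in 𝓝 0, (Real.exp (b * t) - 1) * (r / c + (p.natDegree ^ N : ℕ)) < 1 := by
    have hcc : Continuous fun t : ℝ => (Real.exp (b * t) - 1) * (r / c + (p.natDegree ^ N : ℕ)) := by
      fun_prop
    have := hcc.continuousAt (x := (0 : ℝ))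
    refine this.eventually_lt continuousAt_const ?_
    simp
  -- choose `s`
  have hall : ∀ᶠ s in 𝓝 sr, s ∈ ball s0 η ∧ dist s sr < δ' ∧ dist (τ s) (τ sr) < ε1 ∧
      dist (x s) (x sr) < r ∧ (∀ z ∈ sphere (x sr) r, c < ‖z - (pt p (τ s))^[N] z‖) ∧
      s ∉ (ball s0 η ∩ τ ⁻¹' {σ : ℂ | ∃ w : ℂ, nac (fun _ => p) σ N w = w ∧
        deriv (nac (fun _ => p) σ N) w = 1}) \ {sr} := by
    filter_upwards [isOpen_ball.mem_nhds hsr, ball_mem_nhds sr hδ',
      hτc.eventually (ball_mem_nhds _ hε1), hxc.eventually (ball_mem_nhds _ hr),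
      hτc.eventually hcircτ, hbad] with s h1 h2 h3 h4 h5 h6
    exact ⟨h1, h2, h3, h4, h5, h6⟩
  have hmap : Tendsto (fun t : ℝ => sr + (t : ℂ)) (𝓝[>] 0) (𝓝 sr) := by
    have : Continuous fun t : ℝ => sr + (t : ℂ) := by fun_prop
    have h2 := this.tendsto 0
    simp only [Complex.ofReal_zero, add_zero] at h2
    exact h2.mono_left nhdsWithin_le_nhds
  have hev : ∀ᶠ t : ℝ in 𝓝[>] 0, _ := (hmap.eventually hall).and
    ((hsmall.filter_mono nhdsWithin_le_nhds).and self_mem_nhdsWithin)
  obtain ⟨t, ⟨hs1, hs2, hs3, hs4, hs5, hs6⟩, ht2, ht3⟩ := hev.exists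
  replace ht3 : 0 < t := ht3
  set s := sr + (t : ℂ) with hsdef
  have hssr : s ≠ sr := by
    intro h0
    have : (t : ℂ) = 0 := by
      have := congrArg (fun u => u - sr) h0
      simpa [hsdef] using this
    exact ht3.ne' (by exact_mod_cast this)
  -- all fixed points of `F_s` are simple
  have hsimple : ∀ z, (pt p (τ s))^[N] z = z → deriv ((pt p (τ s))^[N]) z ≠ 1 := by
    intro z hz h1
    refine hs6 ⟨⟨hs1, z, ?_, ?_⟩, hssr⟩
    · rw [nac_const]; exact hz
    · rw [nac_const]; exact h1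
  -- multiplier of `x s`
  have hfixn := h.fix s hs1
  have hfixN : (pt p (τ s))^[N] (x s) = x s := by
    rw [hNdef, Function.iterate_mul]
    exact Function.iterate_fixed hfixn b
  have hmulN : deriv ((pt p (τ s))^[N]) (x s) = ((Real.exp (b * t) : ℝ) : ℂ) := by
    have h1 := B9_it_hasDerivAt p (τ s) n (x s)
    rw [← B9_it_deriv, h.mul s hs1] at h1
    have h2 := HasDerivAt.iterate (x s) h1 hfixn b
    rw [← Function.iterate_mul, ← hNdef] at h2
    rw [h2.deriv, ← Complex.exp_nat_mul, hsdef, mul_add, Complex.exp_add, hexp, one_mul]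
    push_cast
    rfl
  -- the finite set of fixed points in the ball
  classical
  set S : Finset ℂ := ((X - B9_it p (τ s) N : ℂ[X]).roots.toFinset).filter
    (fun z => z ∈ ball (x sr) r) with hSdef
  have hS : ∀ z, z ∈ S ↔ z ∈ ball (x sr) r ∧ (B9_it p (τ s) N).eval z = z := by
    intro z
    rw [hSdef, Finset.mem_filter, Multiset.mem_toFinset, mem_roots (hneN _), IsRoot, eval_sub,
      eval_X, sub_eq_zero, and_comm, eq_comm (a := z)]
  have hib := index_bound (F := B9_it p (τ s) N) (z0 := x sr) hr hc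
    (fun z hz => by
      rw [B9_it_eval]
      exact (hs5 z hz).le)
    (fun z _ hz => by
      rw [← B9_it_deriv]
      rw [B9_it_eval] at hz
      exact hsimple z hz) S hS
  have hxS : x s ∈ S := (hS _).2 ⟨hs4, by rw [B9_it_eval]; exact hfixN⟩
  have hcardS : S.card ≤ p.natDegree ^ N := by
    calc S.card ≤ ((X - B9_it p (τ s) N : ℂ[X]).roots.toFinset).card := Finset.card_filter_le _ _
      _ ≤ Multiset.card (X - B9_it p (τ s) N : ℂ[X]).roots := Multiset.toFinset_card_le _
      _ ≤ (X - B9_it p (τ s) N : ℂ[X]).natDegree := card_roots' _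
      _ = p.natDegree ^ N := by
        rw [natDegree_sub_eq_right_of_natDegree_lt, B9_it_deg]
        rw [natDegree_X]
        exact hdegN _
  -- main estimate
  have hexists : ∃ z ∈ S, z ≠ x s ∧ ‖(B9_it p (τ s) N).derivative.eval z‖ < 1 := by
    by_contra hcon
    push Not at hcon
    have hsum : (∑ z ∈ S, 1 / (1 - (B9_it p (τ s) N).derivative.eval z)).re ≤
        -(1 / (Real.exp (b * t) - 1)) + (p.natDegree ^ N : ℕ) := by
      rw [← Finset.add_sum_erase _ _ hxS, Complex.add_re]
      have h1 : (1 / (1 - (B9_it p (τ s) N).derivative.eval (x s))).re =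
          -(1 / (Real.exp (b * t) - 1)) := by
        rw [← B9_it_deriv, hmulN]
        have : (1 : ℂ) / (1 - ((Real.exp (b * t) : ℝ) : ℂ)) =
            ((1 / (1 - Real.exp (b * t)) : ℝ) : ℂ) := by push_cast; rfl
        rw [this, Complex.ofReal_re, ← neg_sub, div_neg]
      rw [h1, Complex.re_sum]
      refine add_le_add le_rfl ?_
      calc ∑ i ∈ S.erase (x s), (1 / (1 - (B9_it p (τ s) N).derivative.eval i)).re
          ≤ ∑ i ∈ S.erase (x s), (1 : ℝ) := by
            refine Finset.sum_le_sum fun i hi => ?_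
            have hiS := Finset.mem_of_mem_erase hi
            have hine := Finset.ne_of_mem_erase hi
            have h2 := hcon i hiS hine
            have h3 : (B9_it p (τ s) N).derivative.eval i ≠ 1 := by
              rw [← B9_it_deriv]
              have := ((hS i).1 hiS).2
              rw [B9_it_eval] at this
              exact hsimple i this
            linarith [B9_re h2 h3]
        _ = ((S.erase (x s)).card : ℝ) := by simp
        _ ≤ (p.natDegree ^ N : ℕ) := by
            exact_mod_cast (Finset.card_le_card (Finset.erase_subset _ _)).trans hcardS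
    have hlow : -(r / c) ≤ (∑ z ∈ S, 1 / (1 - (B9_it p (τ s) N).derivative.eval z)).re := by
      have h1 := Complex.abs_re_le_norm (∑ z ∈ S, 1 / (1 - (B9_it p (τ s) N).derivative.eval z))
      have h2 := neg_le_of_abs_le (h1.trans hib)
      exact h2
    have hepos : 0 < Real.exp (b * t) - 1 := by
      have : (0 : ℝ) < b * t := by
        have : (0 : ℝ) < b := by exact_mod_cast hb
        positivity
      have := Real.add_one_lt_exp this.ne'
      linarith
    have h3 : 1 / (Real.exp (b * t) - 1) ≤ r / c + (p.natDegree ^ N : ℕ) := by linarith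
    rw [div_le_iff₀ hepos] at h3
    rw [mul_comm] at h3
    linarith
  obtain ⟨z', hz'S, hz'ne, hz'lt⟩ := hexists
  have hz'fix : (pt p (τ s))^[N] z' = z' := by
    have := ((hS z').1 hz'S).2
    rwa [B9_it_eval] at this
  refine ⟨s, hs1, ?_, ?_, z', hz'fix, ?_, ?_⟩
  · rw [hsdef, Complex.add_re, hre, zero_add, Complex.ofReal_re]
    exact ht3
  · rw [← dist_eq_norm]; exact hs2
  · rw [B9_it_deriv]; exact hz'lt
  · intro hfix'
    apply hz'ne
    refine B9_inj (f := (pt p (τ s))^[n]) (K := ball (x sr) r) (convex_ball _ _) hl1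
      (fun z => (B9_it_hasDerivAt p (τ s) n z).differentiableAt) ?_ ((hS z').1 hz'S).1
      ((hS (x s)).1 hxS).1 hfix' hfixn
    intro z hz
    refine (hD1 (y := (τ s, z)) ?_).le
    rw [Prod.dist_eq]
    refine max_lt hs3 ?_
    exact (mem_ball.1 hz).trans hr1

end SkewBif
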