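import Pool.Agent.SK.A2
import Pool.Agent.SK.B1
import Pool.Agent.SK.B3b
import Pool.Agent.SK.B9
/-! ## MP_9cfccf_an, module B10 -/
open Set Metric Filter Topology Polynomial
namespace SkewBif

/-- Uniform contraction near an attracting fixed point of an iterate. -/
theorem B10_contr {p : ℂ[X]} {N : ℕ} {t0 z0 : ℂ} (hfix : (pt p t0)^[N] z0 = z0)
    (hd : ‖deriv ((pt p t0)^[N]) z0‖ < 1) :
    ∃ κ : ℝ, 0 ≤ κ ∧ κ < 1 ∧ ∃ ρ > 0, ∃ ε > 0, ∀ t, dist t t0 < ε →
      (∀ z ∈ closedBall z0 ρ, (pt p t)^[N] z ∈ closedBall z0 ρ) ∧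
      (∀ z ∈ closedBall z0 ρ, ∀ w ∈ closedBall z0 ρ,
        ‖(pt p t)^[N] z - (pt p t)^[N] w‖ ≤ κ * ‖z - w‖) := by
  set κ := (1 + ‖deriv ((pt p t0)^[N]) z0‖) / 2 with hκ
  have hκ0 : 0 ≤ κ := by positivity
  have hκ1 : κ < 1 := by rw [hκ]; linarith
  have hev : ∀ᶠ v : ℂ × ℂ in 𝓝 (t0, z0), ‖deriv ((pt p v.1)^[N]) v.2‖ < κ := by
    have hc : ContinuousAt (fun v : ℂ × ℂ => ‖deriv ((pt p v.1)^[N]) v.2‖) (t0, z0) :=
      (B9_cont_deriv p N).norm.continuousAt
    refine hc.eventually_lt continuousAt_const ?_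
    simp only
    rw [hκ]; linarith
  obtain ⟨ε1, hε1, h1⟩ := Metric.eventually_nhds_iff.1 hev
  have hev2 : ∀ᶠ t in 𝓝 t0, ‖(pt p t)^[N] z0 - z0‖ < (1 - κ) * (ε1 / 2) := by
    have hc : Continuous fun t : ℂ => ‖(pt p t)^[N] z0 - z0‖ := by
      have := (B9_cont p N).comp (continuous_id.prodMk continuous_const : Continuous fun t : ℂ =>
        ((t, z0) : ℂ × ℂ))
      exact (this.sub continuous_const).norm
    refine hc.continuousAt.eventually_lt continuousAt_const ?_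
    rw [hfix, sub_self, norm_zero]
    have : 0 < 1 - κ := by linarith
    positivity
  obtain ⟨ε2, hε2, h2⟩ := Metric.eventually_nhds_iff.1 hev2
  refine ⟨κ, hκ0, hκ1, ε1 / 2, by positivity, min ε1 ε2, lt_min hε1 hε2, fun t ht => ?_⟩
  have hlip : ∀ z ∈ closedBall z0 (ε1 / 2), ∀ w ∈ closedBall z0 (ε1 / 2),
        ‖(pt p t)^[N] z - (pt p t)^[N] w‖ ≤ κ * ‖z - w‖ := by
    intro z hz w hw
    refine (convex_closedBall z0 (ε1 / 2)).norm_image_sub_le_of_norm_hasDerivWithin_le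
      (f' := fun z => deriv ((pt p t)^[N]) z) (fun y _ => ?_) (fun y hy => ?_) hw hz
    · have := B9_it_hasDerivAt p t N y
      rw [← B9_it_deriv] at this
      exact this.hasDerivWithinAt
    · refine (h1 (y := (t, y)) ?_).le
      rw [Prod.dist_eq]
      refine max_lt (ht.trans_le (min_le_left _ _)) ?_
      have := mem_closedBall.1 hy
      simp only
      linarith
  refine ⟨fun z hz => ?_, hlip⟩
  have h3 := hlip z hz z0 (mem_closedBall_self (by positivity))
  have h4 := h2 (y := t) (ht.trans_le (min_le_right _ _))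
  rw [mem_closedBall, dist_eq_norm] at hz ⊢
  have h5 : (pt p t)^[N] z - z0 = ((pt p t)^[N] z - (pt p t)^[N] z0) + ((pt p t)^[N] z0 - z0) := by
    ring
  rw [h5]
  refine (norm_add_le _ _).trans ?_
  have h6 : κ * ‖z - z0‖ ≤ κ * (ε1 / 2) := mul_le_mul_of_nonneg_left hz hκ0
  linarith

/-- Iterates of the uniform contraction. -/
theorem B10_iter {g : ℂ → ℂ} {z0 : ℂ} {κ ρ : ℝ} (hκ0 : 0 ≤ κ)
    (hmap : ∀ z ∈ closedBall z0 ρ, g z ∈ closedBall z0 ρ)
    (hlip : ∀ z ∈ closedBall z0 ρ, ∀ w ∈ closedBall z0 ρ, ‖g z - g w‖ ≤ κ * ‖z - w‖)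
    {z w : ℂ} (hz : z ∈ closedBall z0 ρ) (hw : w ∈ closedBall z0 ρ) (k : ℕ) :
    g^[k] z ∈ closedBall z0 ρ ∧ g^[k] w ∈ closedBall z0 ρ ∧
      ‖g^[k] z - g^[k] w‖ ≤ κ ^ k * ‖z - w‖ := by
  induction k with
  | zero => simp only [Function.iterate_zero, id_eq, pow_zero, one_mul, le_refl, and_true]; exact ⟨hz, hw⟩
  | succ k ih =>
    obtain ⟨h1, h2, h3⟩ := ih
    rw [Function.iterate_succ_apply', Function.iterate_succ_apply']
    refine ⟨hmap _ h1, hmap _ h2, (hlip _ h1 _ h2).trans ?_⟩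
    rw [pow_succ', mul_assoc]
    exact mul_le_mul_of_nonneg_left h3 hκ0

/-- The differences `ξ_{m+N} - ξ_m` tend to zero uniformly in the parameter near an attracting
periodic point capturing the orbit of `c`. -/
theorem B10_unif {p : ℂ[X]} {N : ℕ} (hN : 1 ≤ N) {t0 z0 c : ℂ} (hfix : (pt p t0)^[N] z0 = z0)
    (hd : ‖deriv ((pt p t0)^[N]) z0‖ < 1) {m0 : ℕ}
    (hlim : Tendsto (fun k => (pt p t0)^[m0 + k * N] c) atTop (𝓝 z0)) :
    ∃ ε > 0, ∀ e > 0, ∃ M0 : ℕ, ∀ m ≥ M0, ∀ t, dist t t0 < ε →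
      ‖(pt p t)^[m + N] c - (pt p t)^[m] c‖ ≤ e := by
  obtain ⟨κ, hκ0, hκ1, ρ, hρ, ε1, hε1, hc⟩ := B10_contr hfix hd
  obtain ⟨k0, hk0⟩ := (hlim.eventually (ball_mem_nhds z0 hρ)).exists
  set m1 := m0 + k0 * N with hm1
  have hev : ∀ᶠ t in 𝓝 t0, (pt p t)^[m1] c ∈ ball z0 ρ := by
    have hcc : Continuous fun t : ℂ => (pt p t)^[m1] c :=
      (B9_cont p m1).comp (continuous_id.prodMk continuous_const : Continuous fun t : ℂ =>
        ((t, c) : ℂ × ℂ))
    exact hcc.continuousAt.eventually (isOpen_ball.mem_nhds hk0)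
  obtain ⟨ε2, hε2, h2⟩ := Metric.eventually_nhds_iff.1 hev
  set ε := min ε1 ε2 / 2 with hε
  have hεpos : 0 < ε := by positivity
  have hεlt : ε < min ε1 ε2 := by
    have : 0 < min ε1 ε2 := lt_min hε1 hε2
    rw [hε]; linarith
  -- bound of the derivatives
  obtain ⟨B, hB⟩ := ((isCompact_closedBall t0 ε).prod
    (isCompact_closedBall z0 ρ)).exists_bound_of_continuousOn
      (f := fun v : ℂ × ℂ => ∑ l ∈ Finset.range N, ‖deriv ((pt p v.1)^[l]) v.2‖)
      (continuous_finsetSum _ fun l _ => (B9_cont_deriv p l).norm).continuousOn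
  have hBnn : 0 ≤ B := by
    have := hB (t0, z0) ⟨mem_closedBall_self hεpos.le, mem_closedBall_self hρ.le⟩
    exact (norm_nonneg _).trans this
  refine ⟨ε, hεpos, fun e he => ?_⟩
  have hpow : Tendsto (fun k : ℕ => B * (κ ^ k * (2 * ρ))) atTop (𝓝 0) := by
    have := ((tendsto_pow_atTop_nhds_zero_of_lt_one hκ0 hκ1).mul_const (2 * ρ)).const_mul B
    simpa using this
  obtain ⟨K, hK⟩ := (hpow.eventually (gt_mem_nhds he)).exists_forall_of_atTop
  refine ⟨m1 + K * N, fun m hm t ht => ?_⟩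
  obtain ⟨hmap, hlip⟩ := hc t (ht.trans_le (hεlt.le.trans (min_le_left _ _)))
  have hw : (pt p t)^[m1] c ∈ closedBall z0 ρ :=
    ball_subset_closedBall (h2 (ht.trans (hεlt.trans_le (min_le_right _ _))))
  set q := (m - m1) / N with hq
  set l := (m - m1) % N with hl
  have hdm : m = l + (q * N + m1) := by
    have h1 := Nat.div_add_mod (m - m1) N
    have h2 : m1 ≤ m := le_trans (Nat.le_add_right _ _) hm
    have h3 : N * q + l = m - m1 := h1
    rw [mul_comm] at h3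
    omega
  have hlN : l < N := Nat.mod_lt _ (by omega)
  have hqK : K ≤ q := by
    rw [hq, Nat.le_div_iff_mul_le (by omega)]
    omega
  obtain ⟨h3, h4, h5⟩ := B10_iter hκ0 hmap hlip (hmap _ hw) hw q
  have e1 : (pt p t)^[m] c = (pt p t)^[l] (((pt p t)^[N])^[q] ((pt p t)^[m1] c)) := by
    conv_lhs => rw [hdm, Function.iterate_add_apply, Function.iterate_add_apply, mul_comm q N,
      Function.iterate_mul]
  have e2 : (pt p t)^[m + N] c =
      (pt p t)^[l] (((pt p t)^[N])^[q] ((pt p t)^[N] ((pt p t)^[m1] c))) := by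
    have hdm2 : m + N = l + (q * N + (N + m1)) := by omega
    conv_lhs => rw [hdm2, Function.iterate_add_apply, Function.iterate_add_apply, mul_comm q N,
      Function.iterate_mul, Function.iterate_add_apply]
  rw [e1, e2]
  have hl2 : ‖(pt p t)^[l] (((pt p t)^[N])^[q] ((pt p t)^[N] ((pt p t)^[m1] c))) -
      (pt p t)^[l] (((pt p t)^[N])^[q] ((pt p t)^[m1] c))‖ ≤
      B * ‖((pt p t)^[N])^[q] ((pt p t)^[N] ((pt p t)^[m1] c)) -
        ((pt p t)^[N])^[q] ((pt p t)^[m1] c)‖ := by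
    refine (convex_closedBall z0 ρ).norm_image_sub_le_of_norm_hasDerivWithin_le
      (f' := fun z => deriv ((pt p t)^[l]) z) (fun y _ => ?_) (fun y hy => ?_) h4 h3
    · have := B9_it_hasDerivAt p t l y
      rw [← B9_it_deriv] at this
      exact this.hasDerivWithinAt
    · have h6 := hB (t, y) ⟨mem_closedBall.2 ht.le, hy⟩
      refine le_trans ?_ h6
      rw [Real.norm_eq_abs]
      refine le_trans ?_ (le_abs_self _)
      exact Finset.single_le_sum (f := fun l => ‖deriv ((pt p t)^[l]) y‖)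
        (fun i _ => norm_nonneg _) (Finset.mem_range.2 hlN)
  refine hl2.trans ?_
  have h7 : ‖(pt p t)^[N] ((pt p t)^[m1] c) - (pt p t)^[m1] c‖ ≤ 2 * ρ := by
    have h8 := mem_closedBall.1 (hmap _ hw)
    have h9 := mem_closedBall.1 hw
    rw [← dist_eq_norm]
    calc dist _ _ ≤ dist _ z0 + dist _ z0 := dist_triangle_right _ _ z0
      _ ≤ 2 * ρ := by linarith
  calc B * ‖((pt p t)^[N])^[q] ((pt p t)^[N] ((pt p t)^[m1] c)) -
        ((pt p t)^[N])^[q] ((pt p t)^[m1] c)‖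
      ≤ B * (κ ^ q * (2 * ρ)) := by
        refine mul_le_mul_of_nonneg_left (h5.trans ?_) hBnn
        exact mul_le_mul_of_nonneg_left h7 (pow_nonneg hκ0 _)
    _ ≤ e := (hK q hqK).le

/-- The data attached to a large prime `b`. -/
theorem B10_data {p : ℂ[X]} (hp : 2 ≤ p.natDegree) {n : ℕ} (hn : 1 ≤ n) {s0 : ℂ}
    {η : ℝ} {τ x : ℂ → ℂ} (h : LogParam p n s0 η τ x) {b : ℕ} (hb : 1 ≤ b)
    (hbη : Real.pi / η < b) :
    ∃ c : ℂ, p.derivative.eval c = 0 ∧ ∃ s ∈ ball s0 η, 0 < s.re ∧ ∃ z' : ℂ,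
      (pt p (τ s))^[n * b] z' = z' ∧ ‖deriv ((pt p (τ s))^[n * b]) z'‖ < 1 ∧
      (pt p (τ s))^[n] z' ≠ z' ∧ ∃ m0 : ℕ,
        Tendsto (fun k => (pt p (τ s))^[m0 + k * (n * b)] c) atTop (𝓝 z') := by
  have hbpos : (0 : ℝ) < b := by exact_mod_cast hb
  set a : ℤ := round (s0.im * b / (2 * Real.pi)) with ha
  set y : ℝ := 2 * Real.pi * a / b with hy
  set sr : ℂ := (y : ℂ) * Complex.I with hsr
  have hdist : |y - s0.im| < η := by
    have h1 := abs_sub_round (s0.im * b / (2 * Real.pi))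
    have h2 : y - s0.im = -((s0.im * b / (2 * Real.pi) - a) * (2 * Real.pi / b)) := by
      rw [hy]
      have := Real.pi_pos
      field_simp
      ring
    rw [h2, abs_neg, abs_mul, abs_of_pos (by have := Real.pi_pos; positivity : 0 < 2 * Real.pi / b)]
    calc |s0.im * b / (2 * Real.pi) - a| * (2 * Real.pi / b)
        ≤ 1 / 2 * (2 * Real.pi / b) := by
          refine mul_le_mul_of_nonneg_right h1 (by have := Real.pi_pos; positivity)
      _ = Real.pi / b := by ring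
      _ < η := by
        rw [div_lt_iff₀ hbpos]
        rw [div_lt_iff₀ h.pos] at hbη
        linarith
  have hsrb : sr ∈ ball s0 η := by
    rw [mem_ball, dist_eq_norm]
    have h1 : sr - s0 = ((y - s0.im : ℝ) : ℂ) * Complex.I := by
      apply Complex.ext
      · simp [hsr, h.re0]
      · simp [hsr]
    rw [h1, norm_mul, Complex.norm_I, mul_one, Complex.norm_real, Real.norm_eq_abs]
    exact hdist
  have hre : sr.re = 0 := by simp [hsr]
  have hexp : Complex.exp (b * sr) = 1 := by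
    have h1 : (b : ℂ) * sr = (a : ℂ) * (2 * Real.pi * Complex.I) := by
      rw [hsr, hy]
      push_cast
      have : (b : ℂ) ≠ 0 := by exact_mod_cast hbpos.ne'
      field_simp
    rw [h1, Complex.exp_int_mul_two_pi_mul_I]
  obtain ⟨s, hs, hspos, -, z', hz1, hz2, hz3⟩ :=
    parabolic_attracting hp hn h hsrb hre hb hexp one_pos
  obtain ⟨κ, hκ0, hκ1, ρ, hρ, ε1, hε1, hc⟩ := B10_contr hz1 hz2
  have hpt : (fun z => (p + C (τ s)).eval z) = pt p (τ s) := by
    ext w; simp [pt]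
  have hN : 1 ≤ n * b := Nat.one_le_iff_ne_zero.2 (by positivity)
  obtain ⟨c, hcrit, m, hm⟩ := fatou_attracting (P := p + C (τ s)) (by rw [natDegree_add_C]; exact hp)
    (M := n * b) hN (z' := z') (by rw [hpt]; exact hz1) (by rw [hpt]; exact hz2) hρ
  rw [hpt] at hm
  refine ⟨c, by simpa using hcrit, s, hs, hspos, z', hz1, hz2, hz3, m, ?_⟩
  obtain ⟨hmap, hlip⟩ := hc (τ s) (by rw [dist_self]; exact hε1)
  have hz0 : z' ∈ closedBall z' ρ := mem_closedBall_self hρ.le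
  have hlim : Tendsto (fun k : ℕ => κ ^ k * ‖(pt p (τ s))^[m] c - z'‖) atTop (𝓝 0) := by
    have := (tendsto_pow_atTop_nhds_zero_of_lt_one hκ0 hκ1).mul_const ‖(pt p (τ s))^[m] c - z'‖
    simpa using this
  rw [tendsto_iff_norm_sub_tendsto_zero]
  refine squeeze_zero (fun k => norm_nonneg _) (fun k => ?_) hlim
  obtain ⟨-, -, h5⟩ := B10_iter hκ0 hmap hlip (ball_subset_closedBall hm) hz0 k
  rw [Function.iterate_fixed hz1 k, ← Function.iterate_mul, ← Function.iterate_add_apply] at h5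
  rw [add_comm m, mul_comm k]
  exact h5

/-- B10. There is a critical point `c` of `p` and a parameter `s2` with `Re s2 > 0` such that the
orbit of `c` is bounded at `s2` and unbounded at parameters arbitrarily close to `s2`.

Proof. Let `Y = ball s0 η ∩ {Re s > 0}` (convex). Let `d = p.natDegree`. Choose `d` distinct primes
`b_j` and points `sr_j = 2 π i a_j / b_j ∈ ball s0 η` (possible when `b_j` is large: multiples of
`2 π i / b_j` are dense on the imaginary axis). B9 gives `s'_j ∈ Y` with an attracting point `z'_j`,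
fixed by `f^[n b_j]`, not by `f^[n]` (`f = pt p (τ s'_j)`). Choose a disc `D_j` around `z'_j` on which
`f^[n b_j]` is a contraction into `D_j` (also for nearby parameters). B3b gives a critical point `c_j` of `p` (the critical points do
not depend on `τ`) whose orbit enters `D_j`. There are at most `d - 1` critical points, so
`c_i = c_j =: c` for some `i ≠ j`. Suppose the conclusion fails for `c`. Then
`{s ∈ Y : the orbit of c is bounded}` is relatively closed (uniform escape radius B1) and open and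
contains `s'_i`, hence equals `Y`. So `ξ_m s = (pt p (τ s))^[m] c` is bounded by the escape radius on
`Y` (`τ` bounded: shrink `η` a little if necessary or use that `B7` has bounded `τ`... see hypothesis
`hτb`). `Δ_m = ξ_{m + n b_i} - ξ_m` is bounded and tends to `0` uniformly near `s'_i`: for `s` near
`s'_i`, `ξ_{m0} s ∈ D_i` and `f_s^[n b_i]` is a uniform contraction of `D_i`, and
`ξ_{m + n b_i} - ξ_m` for the other residues of `m` by uniform continuity of `f_s^[j]`, `j < n b_i`.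
By A2a `Δ_m (s'_j) → 0`. At `s'_j` along `m = m1 + k n b_j`, `ξ_m → z'_j`; so
`f^[n b_i] z'_j = z'_j` and `f^[n b_j] z'_j = z'_j`, hence `f^[n] z'_j = z'_j`
(`gcd (n b_i) (n b_j) = n`, `Function.IsPeriodicPt.gcd`): contradiction. -/
theorem boundary_point {p : ℂ[X]} (hp : 2 ≤ p.natDegree) {n : ℕ} (hn : 1 ≤ n) {s0 : ℂ}
    {η : ℝ} {τ x : ℂ → ℂ} (h : LogParam p n s0 η τ x) {T0 : ℝ}
    (hτb : ∀ s ∈ ball s0 η, ‖τ s‖ ≤ T0) :
    ∃ c : ℂ, p.derivative.eval c = 0 ∧ ∃ s2 ∈ ball s0 η, 0 < s2.re ∧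
      (∃ R : ℝ, ∀ m, ‖(pt p (τ s2))^[m] c‖ ≤ R) ∧
      ∀ δ' > 0, ∃ s' ∈ ball s0 η, 0 < s'.re ∧ ‖s' - s2‖ < δ' ∧
        Tendsto (fun m => ‖(pt p (τ s'))^[m] c‖) atTop atTop := by
  obtain ⟨R, hR1, hesc⟩ := exists_escape_radius hp T0
  -- pigeonhole over large primes
  set K : ℕ := ⌈Real.pi / η⌉₊ with hK
  have hinf : {b : ℕ | b.Prime ∧ K < b}.Infinite := by
    refine Set.infinite_of_forall_exists_gt fun a => ?_
    obtain ⟨q, hq1, hq2⟩ := Nat.exists_infinite_primes (max a K + 1)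
    exact ⟨q, ⟨hq2, by omega⟩, by omega⟩
  have hdne : p.derivative ≠ 0 := by
    intro h0
    have := derivative_eq_zero.1 h0
    omega
  have hdata : ∀ b : {b : ℕ | b.Prime ∧ K < b},
      ∃ c : ℂ, p.derivative.eval c = 0 ∧ ∃ s ∈ ball s0 η, 0 < s.re ∧ ∃ z' : ℂ,
      (pt p (τ s))^[n * b] z' = z' ∧ ‖deriv ((pt p (τ s))^[n * b]) z'‖ < 1 ∧
      (pt p (τ s))^[n] z' ≠ z' ∧ ∃ m0 : ℕ,
        Tendsto (fun k => (pt p (τ s))^[m0 + k * (n * b)] c) atTop (𝓝 z') := by
    intro b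
    refine B10_data hp hn h b.2.1.one_lt.le ?_
    calc Real.pi / η ≤ (K : ℝ) := Nat.le_ceil _
      _ < (b : ℕ) := by exact_mod_cast b.2.2
  choose c hc1 hc2 using hdata
  have : Infinite {b : ℕ | b.Prime ∧ K < b} := hinf.to_subtype
  obtain ⟨i, j, hij, hcij⟩ := Finite.exists_ne_map_eq_of_infinite
    (fun b : {b : ℕ | b.Prime ∧ K < b} =>
      (⟨c b, by rw [Multiset.mem_toFinset, mem_roots hdne]; exact hc1 b⟩ :
        p.derivative.roots.toFinset))
  have hcij' : c i = c j := congrArg Subtype.val hcij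
  obtain ⟨si, hsi, hsi0, zi, hzi1, hzi2, hzi3, mi, hmi⟩ := hc2 i
  obtain ⟨sj, hsj, hsj0, zj, hzj1, hzj2, hzj3, mj, hmj⟩ := hc2 j
  rw [← hcij'] at hmj
  refine ⟨c i, hc1 i, ?_⟩
  by_contra hcon
  push Not at hcon
  have hNi : 1 ≤ n * (i : ℕ) := by
    have := i.2.1.one_lt
    exact Nat.one_le_iff_ne_zero.2 (by positivity)
  -- the domain
  set Y : Set ℂ := ball s0 η ∩ {s : ℂ | 0 < s.re} with hY
  have hYo : IsOpen Y := isOpen_ball.inter (isOpen_lt continuous_const Complex.continuous_re)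
  have hYc : IsPreconnected Y :=
    ((convex_ball s0 η).inter (convex_halfSpace_re_gt 0)).isPreconnected
  -- holomorphy of the critical orbit
  have hξ : ∀ m : ℕ, DifferentiableOn ℂ (fun s => (pt p (τ s))^[m] (c i)) Y := by
    intro m
    induction m with
    | zero => exact differentiableOn_const _
    | succ m ih =>
      have h1 : (fun s => (pt p (τ s))^[m + 1] (c i)) =
          fun s => p.eval ((pt p (τ s))^[m] (c i)) + τ s := by
        ext s
        rw [Function.iterate_succ_apply']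
        rfl
      rw [h1]
      exact (p.differentiable.comp_differentiableOn ih).add (h.hτ.mono inter_subset_left)
  -- boundedness at `si`
  have hbi : ∀ m, ‖(pt p (τ si))^[m] (c i)‖ ≤ R := by
    rcases bounded_or_escape hR1 (hesc (τ si) (hτb si hsi)) (c i) with h1 | ⟨-, h1⟩
    · exact h1
    · exfalso
      have h2 : Tendsto (fun k : ℕ => mi + k * (n * (i : ℕ))) atTop atTop := by
        refine tendsto_atTop_mono (fun k => ?_) tendsto_id
        simp only [id]
        calc k = k * 1 := (mul_one k).symm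
          _ ≤ k * (n * (i : ℕ)) := Nat.mul_le_mul_left _ hNi
          _ ≤ mi + k * (n * (i : ℕ)) := Nat.le_add_left _ _
      have h3 := h1.comp h2
      exact not_tendsto_nhds_of_tendsto_atTop h3 _ hmi.norm
  -- bounded on `Y`
  have hall : ∀ s ∈ Y, ∀ m, ‖(pt p (τ s))^[m] (c i)‖ ≤ R := by
    by_contra hne
    push Not at hne
    obtain ⟨sb, hsb, mb, hmb⟩ := hne
    have hU1 : IsOpen {s | s ∈ Y ∧ ∀ m, ‖(pt p (τ s))^[m] (c i)‖ ≤ R} := by
      rw [Metric.isOpen_iff]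
      rintro s2 ⟨hs2, hs2b⟩
      obtain ⟨δ', hδ', hδ2⟩ := hcon s2 hs2.1 hs2.2 ⟨R, hs2b⟩
      obtain ⟨ε, hε, hεY⟩ := Metric.isOpen_iff.1 hYo s2 hs2
      refine ⟨min ε δ', lt_min hε hδ', fun s' hs' => ?_⟩
      have hs'Y : s' ∈ Y := hεY (ball_subset_ball (min_le_left _ _) hs')
      refine ⟨hs'Y, ?_⟩
      have hlt : ‖s' - s2‖ < δ' := by
        rw [← dist_eq_norm]
        exact (mem_ball.1 hs').trans_le (min_le_right _ _)
      rcases bounded_or_escape hR1 (hesc (τ s') (hτb s' hs'Y.1)) (c i) with h1 | ⟨-, h1⟩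
      · exact h1
      · exact absurd h1 (hδ2 s' hs'Y.1 hs'Y.2 hlt)
    have hU2 : IsOpen {s | s ∈ Y ∧ ∃ m, R < ‖(pt p (τ s))^[m] (c i)‖} := by
      have h1 : {s | s ∈ Y ∧ ∃ m, R < ‖(pt p (τ s))^[m] (c i)‖} =
          ⋃ m : ℕ, Y ∩ (fun s => ‖(pt p (τ s))^[m] (c i)‖) ⁻¹' (Ioi R) := by
        ext s
        simp only [mem_ofPred_eq, mem_iUnion, mem_inter_iff, mem_preimage, mem_Ioi]
        constructor
        · rintro ⟨h1, m, h2⟩
          exact ⟨m, h1, h2⟩
        · rintro ⟨m, h1, h2⟩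
          exact ⟨h1, m, h2⟩
      rw [h1]
      exact isOpen_iUnion fun m => (hξ m).continuousOn.norm.isOpen_inter_preimage hYo isOpen_Ioi
    obtain ⟨s, -, h1, h2⟩ := hYc _ _ hU1 hU2 (fun s hs => by
        by_cases hb : ∀ m, ‖(pt p (τ s))^[m] (c i)‖ ≤ R
        · exact Or.inl ⟨hs, hb⟩
        · push Not at hb
          exact Or.inr ⟨hs, hb⟩)
      ⟨si, ⟨hsi, hsi0⟩, ⟨hsi, hsi0⟩, hbi⟩ ⟨sb, hsb, hsb, mb, hmb⟩
    obtain ⟨m, hm⟩ := h2.2
    exact absurd (h1.2 m) (not_le.2 hm)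
  -- uniform convergence near `si`
  obtain ⟨ε, hε, hunif⟩ := B10_unif hNi hzi1 hzi2 hmi
  have hτc : ContinuousAt τ si := (h.hτ.differentiableAt (isOpen_ball.mem_nhds hsi)).continuousAt
  obtain ⟨r1, hr1, hr1τ⟩ := Metric.eventually_nhds_iff.1 (hτc.eventually (ball_mem_nhds _ hε))
  obtain ⟨r2, hr2, hr2Y⟩ := Metric.isOpen_iff.1 hYo si ⟨hsi, hsi0⟩
  have hv := vitali_zero (l := atTop) hYo hYc
    (f := fun (m : ℕ) s => (pt p (τ s))^[m + n * (i : ℕ)] (c i) - (pt p (τ s))^[m] (c i))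
    (M := 2 * R) (fun m => (hξ _).sub (hξ m)) (fun m s hs => by
      refine (norm_sub_le _ _).trans ?_
      linarith [hall s hs (m + n * (i : ℕ)), hall s hs m])
    (o := si) (r := min r1 r2) (lt_min hr1 hr2)
    ((ball_subset_ball (min_le_right _ _)).trans hr2Y) (by
      rw [Metric.tendstoUniformlyOn_iff]
      intro e he
      obtain ⟨M0, hM0⟩ := hunif (e / 2) (by positivity)
      filter_upwards [eventually_ge_atTop M0] with m hm s hs
      rw [dist_comm, dist_zero_right]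
      have := hM0 m hm (τ s) (hr1τ ((mem_ball.1 hs).trans_le (min_le_left _ _)))
      linarith)
  have hpt := hv.tendsto_at (a := sj) ⟨hsj, hsj0⟩
  -- conclude at `sj`
  have hNj : 1 ≤ n * (j : ℕ) := by
    have := j.2.1.one_lt
    exact Nat.one_le_iff_ne_zero.2 (by positivity)
  have hsub : Tendsto (fun k : ℕ => mj + k * (n * (j : ℕ))) atTop atTop := by
    refine tendsto_atTop_mono (fun k => ?_) tendsto_id
    simp only [id]
    calc k = k * 1 := (mul_one k).symm
      _ ≤ k * (n * (j : ℕ)) := Nat.mul_le_mul_left _ hNj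
      _ ≤ mj + k * (n * (j : ℕ)) := Nat.le_add_left _ _
  have h1 := hpt.comp hsub
  have h2 : Tendsto (fun k : ℕ => (pt p (τ sj))^[mj + k * (n * (j : ℕ)) + n * (i : ℕ)] (c i))
      atTop (𝓝 ((pt p (τ sj))^[n * (i : ℕ)] zj)) := by
    have hcc : Continuous ((pt p (τ sj))^[n * (i : ℕ)]) := by
      rw [B9_it_fun]
      exact (B9_it p (τ sj) (n * (i : ℕ))).continuous
    have h3 := (hcc.tendsto zj).comp hmj
    refine h3.congr fun k => ?_
    simp only [Function.comp]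
    rw [← Function.iterate_add_apply, add_comm]
  have h4 := h2.sub hmj
  have h5 : (pt p (τ sj))^[n * (i : ℕ)] zj - zj = 0 := tendsto_nhds_unique h4 h1
  have h6 : (pt p (τ sj))^[n * (i : ℕ)] zj = zj := sub_eq_zero.1 h5
  have h7 : Function.IsPeriodicPt (pt p (τ sj)) ((n * (i : ℕ)).gcd (n * (j : ℕ))) zj :=
    Function.IsPeriodicPt.gcd h6 hzj1
  rw [Nat.gcd_mul_left] at h7
  have h8 : Nat.gcd (i : ℕ) (j : ℕ) = 1 := by
    rw [← Nat.coprime_iff_gcd_eq_one]
    exact (Nat.coprime_primes i.2.1 j.2.1).2 fun h9 => hij (Subtype.ext h9)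
  rw [h8, mul_one] at h7
  exact hzj3 h7

end SkewBif
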