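import Pool.Agent.SK.A3
import Pool.Agent.SK.B1
/-! ## MP_9cfccf_an, module B11 -/
open Set Metric Filter Topology Polynomial
namespace SkewBif

theorem b11_diffOn {p : ℂ[X]} {τ : ℂ → ℂ} {B : Set ℂ} (hτ : DifferentiableOn ℂ τ B) (c : ℂ)
    (m : ℕ) : DifferentiableOn ℂ (fun s => (pt p (τ s))^[m] c) B := by
  induction m with
  | zero => simp
  | succ m ih =>
    have h1 : (fun s => (pt p (τ s))^[m + 1] c) =
        fun s => p.eval ((pt p (τ s))^[m] c) + τ s := by
      funext s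
      rw [Function.iterate_succ_apply']
      rfl
    rw [h1]
    exact (p.differentiable.comp_differentiableOn ih).add hτ

/-- An orbit which never hits a repelling fixed point does not converge to it. -/
theorem b11_repel {f : ℂ → ℂ} {y lam : ℂ} (hf : HasDerivAt f lam y) (hfix : f y = y)
    (hlam : 1 < ‖lam‖) {ξ : ℕ → ℂ} (hstep : ∀ m, ξ (m + 1) = f (ξ m)) (hne : ∀ m, ξ m ≠ y)
    (hlim : Tendsto ξ atTop (𝓝 y)) : False := by
  have h1 := (hasDerivAt_iff_isLittleO.1 hf).def (sub_pos.2 hlam)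
  obtain ⟨m0, hm0⟩ := eventually_atTop.1 (hlim.eventually h1)
  have hmono : ∀ j : ℕ, ‖ξ m0 - y‖ ≤ ‖ξ (m0 + j) - y‖ := by
    intro j
    induction j with
    | zero => simp
    | succ j ih =>
      refine ih.trans ?_
      have h2 := hm0 (m0 + j) (by omega)
      rw [hfix, smul_eq_mul] at h2
      have h3 : (ξ (m0 + j) - y) * lam = (ξ (m0 + (j + 1)) - y) -
          (f (ξ (m0 + j)) - y - (ξ (m0 + j) - y) * lam) := by
        have := hstep (m0 + j)
        rw [show m0 + (j + 1) = m0 + j + 1 by ring, this]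
        ring
      have h4 : ‖(ξ (m0 + j) - y) * lam‖ ≤ ‖ξ (m0 + (j + 1)) - y‖ +
          (‖lam‖ - 1) * ‖ξ (m0 + j) - y‖ := by
        rw [h3]
        refine (norm_sub_le _ _).trans ?_
        linarith
      rw [norm_mul] at h4
      nlinarith [norm_nonneg (ξ (m0 + j) - y)]
  have hpos : 0 < ‖ξ m0 - y‖ := norm_pos_iff.2 (sub_ne_zero.2 (hne m0))
  have hlim' : Tendsto (fun j : ℕ => ‖ξ (m0 + j) - y‖) atTop (𝓝 0) := by
    have h2 := (tendsto_iff_norm_sub_tendsto_zero.1 hlim)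
    have h3 := (tendsto_add_atTop_iff_nat m0).2 h2
    refine h3.congr (fun j => ?_)
    rw [add_comm]
  have := ge_of_tendsto' hlim' hmono
  linarith

/-- B11. Near the parameter `s2` of B10 the orbit of `c` lands on the repelling periodic point.
Proof. Let `B = ball s2 r ⊆ ball s0 η ∩ {Re > 0}`, `r ≤ δ'`, `g m s = (pt p (τ s))^[m] c - x s`. If `g m` has
a zero in `B` for some `m ≥ 1` we are done. Otherwise apply A3 to `g (m + 1)`, `A m = d ^ (m + 1)`:
`O` = escaping parameters in `B` (open by B1, nonempty), limits from B1d, upper bound from B1c (`x` is bounded on a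
slightly smaller ball), `b0 = s2` (bounded orbit, so `log ‖g m s2‖ ≤ C`). We get `b1 ∈ B` with
`‖ξ_m - x‖ ≤ exp (- ε d^m)` for large `m` at `b1`; so `ξ_m → x b1 =: y`, `f y = y`
(`f = pt p (τ b1)`), and `f' (y) ^ n = exp b1` has modulus `> 1`, so `‖f' y‖ > 1` and
`‖f z - y‖ ≥ ‖z - y‖` near `y`: the nonzero distances `‖ξ_m - y‖` are eventually nondecreasing and
tend to `0`: contradiction. -/
theorem landing_near {p : ℂ[X]} (hp : 2 ≤ p.natDegree) {n : ℕ} (hn : 1 ≤ n) {s0 : ℂ}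
    {η : ℝ} {τ x : ℂ → ℂ} (h : LogParam p n s0 η τ x) {T0 : ℝ}
    (hτb : ∀ s ∈ ball s0 η, ‖τ s‖ ≤ T0 ∧ ‖x s‖ ≤ T0) {c s2 : ℂ} (hs2 : s2 ∈ ball s0 η)
    (hre : 0 < s2.re) (hbd : ∃ R : ℝ, ∀ m, ‖(pt p (τ s2))^[m] c‖ ≤ R)
    (hesc : ∀ δ' > 0, ∃ s' ∈ ball s0 η, 0 < s'.re ∧ ‖s' - s2‖ < δ' ∧
        Tendsto (fun m => ‖(pt p (τ s'))^[m] c‖) atTop atTop) {δ' : ℝ} (hδ' : 0 < δ') :
    ∃ s3 ∈ ball s0 η, 0 < s3.re ∧ ‖s3 - s2‖ < δ' ∧ ∃ m ≥ 1, (pt p (τ s3))^[m] c = x s3 := by
  by_contra hcon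
  push Not at hcon
  set D : ℝ := (p.natDegree : ℝ) with hD
  have hD2 : 2 ≤ D := by rw [hD]; exact_mod_cast hp
  obtain ⟨R, hR1, hR⟩ := exists_escape_radius hp T0
  obtain ⟨C, -, hC⟩ := growth_upper hp T0 ‖c‖ T0
  have hη' : 0 < η - dist s2 s0 := sub_pos.2 hs2
  set r : ℝ := min δ' (min (η - dist s2 s0) s2.re) with hr
  have hr0 : 0 < r := lt_min hδ' (lt_min hη' hre)
  have hrδ : r ≤ δ' := min_le_left _ _
  have hrη : r ≤ η - dist s2 s0 := (min_le_right _ _).trans (min_le_left _ _)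
  have hrre : r ≤ s2.re := (min_le_right _ _).trans (min_le_right _ _)
  have hBsub : ball s2 r ⊆ ball s0 η := by
    intro s hs
    rw [mem_ball] at hs ⊢
    have := dist_triangle s s2 s0
    linarith
  have hBre : ∀ s ∈ ball s2 r, 0 < s.re := by
    intro s hs
    rw [mem_ball, dist_eq_norm] at hs
    have h1 := Complex.abs_re_le_norm (s - s2)
    rw [Complex.sub_re] at h1
    have h2 := (abs_le.1 h1).1
    linarith
  have hBδ : ∀ s ∈ ball s2 r, ‖s - s2‖ < δ' := by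
    intro s hs
    rw [mem_ball, dist_eq_norm] at hs
    linarith
  have hne : ∀ s ∈ ball s2 r, ∀ m : ℕ, (pt p (τ s))^[m + 1] c ≠ x s := fun s hs m =>
    hcon s (hBsub hs) (hBre s hs) (hBδ s hs) (m + 1) (by omega)
  have hApos : ∀ m : ℕ, 0 < D ^ (m + 1) := fun m => by positivity
  have hAtop : Tendsto (fun m : ℕ => D ^ (m + 1)) atTop atTop :=
    (tendsto_pow_atTop_atTop_of_one_lt (by linarith : 1 < D)).comp (tendsto_add_atTop_nat 1)
  have hinv : Tendsto (fun m : ℕ => (D ^ (m + 1))⁻¹) atTop (𝓝 0) :=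
    tendsto_inv_atTop_zero.comp hAtop
  have hdiff : ∀ m, DifferentiableOn ℂ (fun s => (pt p (τ s))^[m] c) (ball s2 r) := fun m =>
    b11_diffOn (h.hτ.mono hBsub) c m
  set O : Set ℂ := ⋃ m : ℕ, ball s2 r ∩ (fun s => ‖(pt p (τ s))^[m] c‖) ⁻¹' (Ioi R) with hO
  have hOo : IsOpen O := isOpen_iUnion (fun m =>
    (hdiff m).continuousOn.norm.isOpen_inter_preimage isOpen_ball isOpen_Ioi)
  have hOsub : O ⊆ ball s2 r := iUnion_subset (fun m => inter_subset_left)
  have hOne : O.Nonempty := by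
    obtain ⟨s', hs', -, hd, ht⟩ := hesc r hr0
    obtain ⟨m, hm⟩ := (ht.eventually (eventually_gt_atTop R)).exists
    exact ⟨s', mem_iUnion.2 ⟨m, by rw [mem_ball, dist_eq_norm]; exact hd, hm⟩⟩
  have hrate : ∀ s ∈ O, ∃ g : ℝ, 0 < g ∧ Tendsto (fun m : ℕ =>
      Real.log ‖(pt p (τ s))^[m + 1] c - x s‖ / D ^ (m + 1)) atTop (𝓝 g) := by
    intro s hs
    have hsB := hOsub hs
    obtain ⟨m, -, hm⟩ := mem_iUnion.1 hs
    have h1 : Tendsto (fun m => ‖(pt p (τ s))^[m] c‖) atTop atTop := by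
      rcases bounded_or_escape hR1 (hR (τ s) (hτb s (hBsub hsB)).1) c with h | h
      · exact absurd (h m) (not_le.2 hm)
      · exact h.2
    obtain ⟨g, hg, hlim⟩ := escape_rate hp h1 (x s)
    exact ⟨g, hg, (tendsto_add_atTop_iff_nat 1).2 hlim⟩
  choose! u hu using hrate
  obtain ⟨b1, hb1, ε, hε, hdec⟩ := neg_lemma (b := s2) (R := r) (C := C)
    (g := fun m s => (pt p (τ s))^[m + 1] c - x s) (A := fun m => D ^ (m + 1)) hApos hAtop
    (fun m => (hdiff (m + 1)).sub (h.hx.mono hBsub))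
    (fun m s hs => sub_ne_zero.2 (hne s hs m))
    (fun m s hs => hC (τ s) (hτb s (hBsub hs)).1 c le_rfl (x s) (hτb s (hBsub hs)).2 (m + 1))
    hOo hOne hOsub hu (mem_ball_self hr0) (by
      intro ε hε
      obtain ⟨R', hR'⟩ := hbd
      have h1 : Tendsto (fun m : ℕ => (R' + T0) * (D ^ (m + 1))⁻¹) atTop (𝓝 0) := by
        have h2 := hinv.const_mul (R' + T0)
        rwa [mul_zero] at h2
      refine Eventually.frequently ?_
      filter_upwards [h1.eventually (ge_mem_nhds hε)] with m hm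
      refine le_trans ?_ hm
      rw [div_eq_mul_inv]
      refine mul_le_mul_of_nonneg_right ?_ (by positivity)
      refine (Real.log_le_self (norm_nonneg _)).trans ((norm_sub_le _ _).trans ?_)
      exact add_le_add (hR' _) (hτb s2 hs2).2)
  set f : ℂ → ℂ := pt p (τ b1) with hf
  set y : ℂ := x b1 with hy
  set ξ : ℕ → ℂ := fun m => f^[m + 1] c with hξ
  have hdec' : ∀ᶠ m : ℕ in atTop, ‖ξ m - y‖ ≤ Real.exp (-ε * D ^ (m + 1)) := hdec
  have hlim : Tendsto ξ atTop (𝓝 y) := by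
    rw [tendsto_iff_norm_sub_tendsto_zero]
    have h1 : Tendsto (fun m : ℕ => Real.exp (-ε * D ^ (m + 1))) atTop (𝓝 0) := by
      refine Real.tendsto_exp_atBot.comp ?_
      exact Tendsto.const_mul_atTop_of_neg (by linarith) hAtop
    exact squeeze_zero' (Eventually.of_forall (fun m => norm_nonneg _)) hdec' h1
  have hstep : ∀ m, ξ (m + 1) = f (ξ m) := fun m => Function.iterate_succ_apply' _ _ _
  have hder : ∀ z, HasDerivAt f (p.derivative.eval z) z := fun z => by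
    have := (p.hasDerivAt z).add_const (τ b1)
    exact this
  have hfix : f y = y := by
    have h1 : Tendsto (fun m => ξ (m + 1)) atTop (𝓝 y) := hlim.comp (tendsto_add_atTop_nat 1)
    have h2 : Tendsto (fun m => ξ (m + 1)) atTop (𝓝 (f y)) := by
      have h3 := ((hder y).continuousAt.tendsto).comp hlim
      refine h3.congr (fun m => ?_)
      rw [hstep]; rfl
    exact tendsto_nhds_unique h2 h1
  have hmul : (p.derivative.eval y) ^ n = Complex.exp b1 := by
    rw [← h.mul b1 (hBsub hb1)]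
    exact (HasDerivAt.iterate y (hder y) hfix n).deriv.symm
  have hlam : 1 < ‖p.derivative.eval y‖ := by
    by_contra hle
    push Not at hle
    have h1 : ‖p.derivative.eval y‖ ^ n ≤ 1 := pow_le_one₀ (norm_nonneg _) hle
    rw [← norm_pow, hmul, Complex.norm_exp] at h1
    have h2 := Real.exp_le_one_iff.1 h1
    exact absurd (hBre b1 hb1) (not_lt.2 h2)
  exact b11_repel (hder y) hfix hlam hstep (fun m => hne b1 hb1 m) hlim

end SkewBif
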