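import Pool.Agent.SK.B7
import Pool.Agent.SK.B10
import Pool.Agent.SK.B11
/-! ## MP_9cfccf_an, module B12 -/
open Set Metric Filter Topology Polynomial
namespace SkewBif

/-- B12 (BASE). Assembly of B7, B10, B11. -/
theorem base_landing {p : ℂ[X]} (hp : 2 ≤ p.natDegree) {n : ℕ} (hn : 1 ≤ n) {xb : ℂ}
    (hfix : (pt p 0)^[n] xb = xb) (hl : ‖deriv ((pt p 0)^[n]) xb‖ = 1)
    (hl1 : deriv ((pt p 0)^[n]) xb ≠ 1) {δ : ℝ} (hδ : 0 < δ) :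
    ∃ τ x c : ℂ, ∃ m ≥ 1, ‖τ‖ < δ ∧ ‖x - xb‖ < δ ∧ (pt p τ)^[n] x = x ∧
      1 < ‖deriv ((pt p τ)^[n]) x‖ ∧
      ‖deriv ((pt p τ)^[n]) x - deriv ((pt p 0)^[n]) xb‖ < δ ∧
      p.derivative.eval c = 0 ∧ (pt p τ)^[m] c = x := by
  obtain ⟨s0, η, τ, x, hLP, hb⟩ := exists_logParam hp hn hfix hl hl1 hδ
  have hT : ∀ s ∈ ball s0 η, ‖τ s‖ ≤ δ + ‖xb‖ ∧ ‖x s‖ ≤ δ + ‖xb‖ := by
    intro s hs
    obtain ⟨h1, h2, -⟩ := hb s hs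
    refine ⟨?_, ?_⟩
    · have := norm_nonneg xb
      linarith
    · have := norm_le_norm_sub_add (x s) xb
      linarith
  obtain ⟨c, hc, s2, hs2, hre2, hbd, hesc⟩ := boundary_point hp hn hLP (fun s hs => (hT s hs).1)
  obtain ⟨s3, hs3, hre3, -, m, hm, hland⟩ := landing_near hp hn hLP hT hs2 hre2 hbd hesc
    (δ' := 1) one_pos
  obtain ⟨h1, h2, h3⟩ := hb s3 hs3
  have hmul := hLP.mul s3 hs3
  refine ⟨τ s3, x s3, c, m, hm, h1, h2, hLP.fix s3 hs3, ?_, ?_, hc, hland⟩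
  · rw [hmul, Complex.norm_exp]
    exact Real.one_lt_exp_iff.2 hre3
  · rw [hmul]; exact h3

end SkewBif
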