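import Pool.Agent.SK.Defs
/-! ## MP_9cfccf_an, module B5 -/
open Set Metric Filter Topology Polynomial
namespace SkewBif

/-- A nonconstant polynomial is large far from the origin. -/
theorem B5_large {Q : ℂ[X]} (hQ : 1 ≤ Q.natDegree) (L : ℝ) :
    ∃ R : ℝ, ∀ w : ℂ, R ≤ ‖w‖ → L ≤ ‖Q.eval w‖ := by
  have hdeg : 0 < Q.degree := natDegree_pos_iff_degree_pos.mp hQ
  have h1 : Tendsto (fun w : ℂ => ‖Q.eval w‖) (comap norm atTop) atTop :=
    Q.tendsto_norm_atTop hdeg tendsto_comap
  have h2 := h1.eventually (eventually_ge_atTop L)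
  rw [eventually_comap] at h2
  obtain ⟨R, hR⟩ := eventually_atTop.mp h2
  exact ⟨R, fun w hw => hR ‖w‖ hw w rfl⟩

/-- A polynomial of degree at least two grows faster than linearly. -/
theorem B5_grow {Q : ℂ[X]} (hQ : 2 ≤ Q.natDegree) :
    ∃ R : ℝ, ∀ w : ℂ, R ≤ ‖w‖ → 4 * ‖w‖ ≤ ‖Q.eval w‖ := by
  have h1 : 1 ≤ Q.divX.natDegree := by
    rw [natDegree_divX_eq_natDegree_tsub_one]; omega
  obtain ⟨R, hR⟩ := B5_large h1 5
  refine ⟨max R (‖Q.coeff 0‖), fun w hw => ?_⟩
  have hw1 : R ≤ ‖w‖ := (le_max_left _ _).trans hw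
  have hw2 : ‖Q.coeff 0‖ ≤ ‖w‖ := (le_max_right _ _).trans hw
  have h3 := hR w hw1
  have h4 : Q.eval w = Q.divX.eval w * w + Q.coeff 0 := by
    conv_lhs => rw [← divX_mul_X_add Q]
    simp
  have h5 : ‖Q.divX.eval w * w‖ ≤ ‖Q.eval w‖ + ‖Q.coeff 0‖ := by
    have : Q.divX.eval w * w = Q.eval w - Q.coeff 0 := by rw [h4]; ring
    rw [this]
    exact norm_sub_le _ _
  rw [norm_mul] at h5
  nlinarith [norm_nonneg w]

/-- A polynomial is bounded on bounded sets. -/
theorem B5_bdd (Q : ℂ[X]) (R : ℝ) : ∃ M : ℝ, ∀ w : ℂ, ‖w‖ ≤ R → ‖Q.eval w‖ ≤ M := by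
  have hc : IsCompact (closedBall (0 : ℂ) R) := isCompact_closedBall 0 R
  obtain ⟨M, hM⟩ := hc.exists_bound_of_continuousOn (f := fun w => Q.eval w)
    Q.continuous.continuousOn
  exact ⟨M, fun w hw => hM w (by simpa using hw)⟩

/-- The derivative of a nonautonomous composition. -/
theorem B5_hasDeriv (q : ℕ → ℂ[X]) (σ : ℂ) (n : ℕ) (w : ℂ) :
    HasDerivAt (nac q σ n) (∏ j ∈ Finset.range n, (q j).derivative.eval (nac q σ j w)) w := by
  induction n with
  | zero => simpa [nac] using hasDerivAt_id w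
  | succ n ih =>
    rw [Finset.prod_range_succ, mul_comm]
    have h1 : HasDerivAt (fun z => (q n).eval z + σ) ((q n).derivative.eval (nac q σ n w))
        (nac q σ n w) := ((q n).hasDerivAt _).add_const σ
    exact h1.comp w ih

/-- Large parameters: all derivatives along a periodic orbit are large. -/
theorem B5_param {q : ℕ → ℂ[X]} {d : ℕ} (hd : 2 ≤ d) (hq : ∀ j, (q j).natDegree = d)
    {n : ℕ} (hn : 1 ≤ n) (L : ℝ) :
    ∃ S : ℝ, ∀ σ : ℂ, S ≤ ‖σ‖ → ∀ w : ℂ, nac q σ n w = w →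
      ∀ j < n, L ≤ ‖(q j).derivative.eval (nac q σ j w)‖ := by
  have h2 : ∀ j, 2 ≤ (q j).natDegree := fun j => by rw [hq j]; exact hd
  have h1 : ∀ j, 1 ≤ (q j).derivative.natDegree := fun j => by
    rw [natDegree_derivative]
    have := h2 j
    omega
  choose R hR using fun j => B5_grow (h2 j)
  choose R' hR' using fun j => B5_large (h1 j) L
  choose M hM using fun j => B5_bdd (q j) (R' j)
  have hsum : ∀ (f : ℕ → ℝ), ∀ j < n, f j ≤ ∑ i ∈ Finset.range n, |f i| := fun f j hj =>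
    (le_abs_self _).trans (Finset.single_le_sum (f := fun i => |f i|)
      (fun i _ => abs_nonneg _) (Finset.mem_range.mpr hj))
  refine ⟨max (3 * ∑ i ∈ Finset.range n, |R i|) (2 * ∑ i ∈ Finset.range n, |M i| + 1),
    fun σ hσ w hw j hj => ?_⟩
  have hσ1 : 3 * ∑ i ∈ Finset.range n, |R i| ≤ ‖σ‖ := (le_max_left _ _).trans hσ
  have hσ2 : 2 * ∑ i ∈ Finset.range n, |M i| + 1 ≤ ‖σ‖ := (le_max_right _ _).trans hσ
  obtain ⟨k, hk, hmax⟩ := Finset.exists_max_image (Finset.range n)
    (fun i => ‖nac q σ i w‖) ⟨0, Finset.mem_range.mpr hn⟩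
  have hk' := Finset.mem_range.mp hk
  have hnext : ∀ i < n, ‖nac q σ (i + 1) w‖ ≤ ‖nac q σ k w‖ := by
    intro i hi
    rcases Nat.lt_or_ge (i + 1) n with h | h
    · exact hmax (i + 1) (Finset.mem_range.mpr h)
    · have h3 : i + 1 = n := by omega
      rw [h3, hw]
      exact hmax 0 (Finset.mem_range.mpr hn)
  have hstep : ∀ i, (q i).eval (nac q σ i w) = nac q σ (i + 1) w - σ := by
    intro i
    simp only [nac]
    ring
  have hm : ‖nac q σ k w‖ ≤ ‖σ‖ / 3 := by
    rcases le_or_gt (R k) ‖nac q σ k w‖ with h | h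
    · have h3 := hR k _ h
      rw [hstep] at h3
      have h4 := norm_sub_le (nac q σ (k + 1) w) σ
      have h5 := hnext k hk'
      linarith
    · have h3 := hsum R k hk'
      linarith
  have h6 : ‖σ‖ / 2 ≤ ‖(q j).eval (nac q σ j w)‖ := by
    rw [hstep]
    have h4 := norm_sub_norm_le σ (nac q σ (j + 1) w)
    rw [norm_sub_rev] at h4
    have h5 := hnext j hj
    have h7 : 0 ≤ ‖σ‖ := norm_nonneg σ
    linarith
  have h7 : M j < ‖(q j).eval (nac q σ j w)‖ := by
    have := hsum M j hj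
    linarith
  have h8 : R' j ≤ ‖nac q σ j w‖ := by
    by_contra h
    push Not at h
    exact absurd (hM j _ h.le) (not_le.mpr h7)
  exact hR' j _ h8

/-- The composition with the parameter an indeterminate. -/
noncomputable def B5_comp (q : ℕ → ℂ[X]) : ℕ → ℂ[X][X]
  | 0 => X
  | (n + 1) => ((q n).map (C : ℂ →+* ℂ[X])).comp (B5_comp q n) + C X

/-- Specialisation of `B5_comp`. -/
theorem B5_comp_succ (q : ℕ → ℂ[X]) (σ : ℂ) (n : ℕ) :
    (B5_comp q (n + 1)).map (evalRingHom σ) =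
      (q n).comp ((B5_comp q n).map (evalRingHom σ)) + C σ := by
  have h : (evalRingHom σ).comp (C : ℂ →+* ℂ[X]) = RingHom.id ℂ := by
    ext z
    simp
  simp only [B5_comp, Polynomial.map_add, Polynomial.map_comp, Polynomial.map_map, h,
    Polynomial.map_id, map_C]
  simp

theorem B5_comp_eval (q : ℕ → ℂ[X]) (σ : ℂ) (n : ℕ) (w : ℂ) :
    ((B5_comp q n).map (evalRingHom σ)).eval w = nac q σ n w := by
  induction n with
  | zero => simp [B5_comp, nac]
  | succ n ih => rw [B5_comp_succ]; simp [nac, ih]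

theorem B5_comp_natDegree {q : ℕ → ℂ[X]} {d : ℕ} (hq : ∀ j, (q j).natDegree = d) (σ : ℂ) (n : ℕ) :
    ((B5_comp q n).map (evalRingHom σ)).natDegree = d ^ n := by
  induction n with
  | zero => simp [B5_comp]
  | succ n ih => rw [B5_comp_succ, natDegree_add_C, natDegree_comp, ih, hq, pow_succ, mul_comm]

/-- B5. For polynomials `q j` of the same degree `d ≥ 2`, `n ≥ 1`, and a given `μ`, only finitely
many parameters `σ` are such that `nac q σ n` has a fixed point with multiplier `μ`.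

Proof. (i) Large parameters: for every `L` there is `S0` such that if `‖σ‖ ≥ S0` and
`nac q σ n w = w`, then `‖(q j)' (w_j)‖ ≥ L` for all `j < n`, `w_j = nac q σ j w`. Indeed let
`m = max ‖w_j‖`, `j < n`, attained at `j`; `‖w_{j+1}‖ ≤ m` (`w_n = w_0`), so
`c m^d - C - ‖σ‖ ≤ m`, hence `m = O (‖σ‖^{1/d}) ≤ ‖σ‖ / 2`; then
`‖(q j)(w_j)‖ = ‖w_{j+1} - σ‖ ≥ ‖σ‖/2` for all `j`, so all `‖w_j‖ → ∞` and `‖(q j)' (w_j)‖ → ∞`
as `‖σ‖ → ∞` (`d ≥ 2`). Hence for `‖σ‖ ≥ S0` no fixed point has multiplier `μ`.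
(ii) Let `A = comp - X`, `B = comp' - μ` in `ℂ[σ][X]`, `comp` the composition with `σ` an
indeterminate; as a polynomial in `X`, `A` has degree `d^n` with constant leading coefficient
(`Polynomial.natDegree` over the ring `ℂ[X]`). The resultant `r(σ) = resultant A B (d^n) (d^n - 1)` in
`ℂ[σ]` specialises (`Polynomial.resultant_map_map`); it vanishes at `σ0` iff `A_σ0`, `B_σ0` have a
common root (`Polynomial.resultant_eq_zero_iff` / `resultant_eq_prod_eval`; the leading coefficient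
of `A` survives). By (i) `r` is not the zero polynomial, so it has finitely many roots. -/
theorem finite_multiplier {q : ℕ → ℂ[X]} {d : ℕ} (hd : 2 ≤ d) (hq : ∀ j, (q j).natDegree = d)
    {n : ℕ} (hn : 1 ≤ n) (μ : ℂ) :
    {σ : ℂ | ∃ w : ℂ, nac q σ n w = w ∧ deriv (nac q σ n) w = μ}.Finite := by
  classical
  set r : ℂ[X] := resultant (B5_comp q n - X) (derivative (B5_comp q n) - C (C μ)) (d ^ n) (d ^ n)
    with hr
  have hdn : 1 < d ^ n := Nat.one_lt_pow (by omega) (by omega)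
  -- the specialised polynomials
  have hA : ∀ σ : ℂ, (B5_comp q n - X).map (evalRingHom σ) =
      (B5_comp q n).map (evalRingHom σ) - X := by
    intro σ; simp
  have hB : ∀ σ : ℂ, (derivative (B5_comp q n) - C (C μ)).map (evalRingHom σ) =
      derivative ((B5_comp q n).map (evalRingHom σ)) - C μ := by
    intro σ; simp [derivative_map]
  have hAdeg : ∀ σ : ℂ, ((B5_comp q n).map (evalRingHom σ) - X).natDegree = d ^ n := by
    intro σ
    rw [natDegree_sub_eq_left_of_natDegree_lt]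
    · exact B5_comp_natDegree hq σ n
    · rw [B5_comp_natDegree hq σ n, natDegree_X]; exact hdn
  have hBdeg : ∀ σ : ℂ,
      (derivative ((B5_comp q n).map (evalRingHom σ)) - C μ).natDegree ≤ d ^ n := by
    intro σ
    rw [natDegree_sub_C]
    refine (natDegree_derivative_le _).trans ?_
    rw [B5_comp_natDegree hq σ n]
    omega
  have hderiv : ∀ σ w : ℂ, (derivative ((B5_comp q n).map (evalRingHom σ))).eval w =
      deriv (nac q σ n) w := by
    intro σ w
    have : nac q σ n = fun w => ((B5_comp q n).map (evalRingHom σ)).eval w := by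
      funext w; exact (B5_comp_eval q σ n w).symm
    rw [this, Polynomial.deriv]
  have hreval : ∀ σ : ℂ, r.eval σ = ((B5_comp q n).map (evalRingHom σ) - X).leadingCoeff ^ (d ^ n) *
      (((B5_comp q n).map (evalRingHom σ) - X).roots.map
        (derivative ((B5_comp q n).map (evalRingHom σ)) - C μ).eval).prod := by
    intro σ
    rw [← resultant_eq_prod_eval _ _ _ (hBdeg σ) (IsAlgClosed.splits _), hAdeg, ← hA, ← hB,
      resultant_map_map]
    rfl
  have hA0 : ∀ σ : ℂ, (B5_comp q n).map (evalRingHom σ) - X ≠ 0 := by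
    intro σ h
    have := hAdeg σ
    rw [h, natDegree_zero] at this
    omega
  have hr0 : r ≠ 0 := by
    obtain ⟨S, hS⟩ := B5_param hd hq hn (‖μ‖ + 1)
    intro h
    have h1 := hreval ((|S| : ℝ) : ℂ)
    rw [h, eval_zero] at h1
    have h2 := mul_eq_zero.mp h1.symm
    rcases h2 with h2 | h2
    · exact hA0 _ (leadingCoeff_eq_zero.mp (pow_eq_zero_iff (by omega) |>.mp h2))
    · rw [Multiset.prod_eq_zero_iff, Multiset.mem_map] at h2
      obtain ⟨w, hw, hw2⟩ := h2
      rw [mem_roots (hA0 _), IsRoot.def, eval_sub, eval_X, B5_comp_eval, sub_eq_zero] at hw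
      rw [eval_sub, eval_C, hderiv, sub_eq_zero] at hw2
      have h3 := hS ((|S| : ℝ) : ℂ) (by
        rw [Complex.norm_real, Real.norm_eq_abs, abs_abs]; exact le_abs_self S) w hw
      rw [(B5_hasDeriv q _ n w).deriv] at hw2
      have h4 : (‖μ‖ + 1) ^ n ≤ ‖μ‖ := by
        calc (‖μ‖ + 1) ^ n = ∏ _j ∈ Finset.range n, (‖μ‖ + 1) := by
              rw [Finset.prod_const, Finset.card_range]
          _ ≤ ∏ j ∈ Finset.range n,
              ‖(q j).derivative.eval (nac q ((|S| : ℝ) : ℂ) j w)‖ :=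
              Finset.prod_le_prod (fun _ _ => by positivity)
                (fun j hj => h3 j (Finset.mem_range.mp hj))
          _ = ‖μ‖ := by rw [← norm_prod, hw2]
      have h5 : (‖μ‖ + 1) ^ 1 ≤ (‖μ‖ + 1) ^ n :=
        pow_le_pow_right₀ (by linarith [norm_nonneg μ]) hn
      linarith
  refine (r.roots.toFinset.finite_toSet).subset ?_
  rintro σ ⟨w, hw, hw2⟩
  simp only [Finset.mem_coe, Multiset.mem_toFinset]
  rw [mem_roots hr0, IsRoot.def, hreval, mul_eq_zero]
  right
  rw [Multiset.prod_eq_zero_iff, Multiset.mem_map]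
  refine ⟨w, ?_, ?_⟩
  · rw [mem_roots (hA0 _), IsRoot.def, eval_sub, eval_X, B5_comp_eval, hw, sub_self]
  · rw [eval_sub, eval_C, hderiv, hw2, sub_self]

end SkewBif
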