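import Pool.Agent.SK.B5
import Pool.Agent.SK.B6
/-! ## MP_9cfccf_an, module B7 -/
open Set Metric Filter Topology Polynomial
open scoped ContDiff
namespace SkewBif

/-- Continuation of a fixed point whose multiplier is not one. -/
theorem B7_implicit {E : Type} [NormedAddCommGroup E] [NormedSpace ℂ E] [CompleteSpace E]
    {F : E × ℂ → ℂ} (hF : ContDiff ℂ ω F) {e0 : E} {x0 : ℂ} (hfix : F (e0, x0) = x0)
    (hder : fderiv ℂ F (e0, x0) (0, 1) ≠ 1) :
    ∃ X : E → ℂ, ContDiffAt ℂ ω X e0 ∧ X e0 = x0 ∧ ∀ᶠ e in 𝓝 e0, F (e, X e) = X e := by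
  set G : E × ℂ → ℂ := fun v => F v - v.2 with hG
  have hGc : ContDiff ℂ ω G := hF.sub contDiff_snd
  have hFd : DifferentiableAt ℂ F (e0, x0) := (hF.differentiable (by simp)) _
  have hGd : fderiv ℂ G (e0, x0) = fderiv ℂ F (e0, x0) - ContinuousLinearMap.snd ℂ E ℂ := by
    have := hFd.hasFDerivAt.sub (hasFDerivAt_snd (𝕜 := ℂ) (E := E) (F := ℂ) (p := (e0, x0)))
    exact this.fderiv
  have hinv : (fderiv ℂ G (e0, x0) ∘L .inr ℂ E ℂ).IsInvertible := by
    refine ⟨ContinuousLinearEquiv.unitsEquivAut ℂ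
      (Units.mk0 (fderiv ℂ F (e0, x0) (0, 1) - 1) (sub_ne_zero.mpr hder)), ?_⟩
    ext
    simp [hGd]
  have h : ContDiffAt ℂ ω G (e0, x0) := hGc.contDiffAt
  refine ⟨h.implicitFunction (by simp) hinv, h.contDiffAt_implicitFunction (by simp) hinv,
    h.implicitFunction_apply_self (by simp) hinv, ?_⟩
  filter_upwards [h.eventually_apply_implicitFunction (by simp) hinv] with e he
  have h1 : G (e0, x0) = 0 := by simp [hG, hfix]
  rw [h1] at he
  exact sub_eq_zero.mp he

/-- Iterates of an analytic family are jointly analytic. -/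
theorem B7_iter {E : Type} [NormedAddCommGroup E] [NormedSpace ℂ E]
    {G : E × ℂ → ℂ} (hG : ContDiff ℂ ω G) (n : ℕ) :
    ContDiff ℂ ω (fun v : E × ℂ => (fun x => G (v.1, x))^[n] v.2) := by
  induction n with
  | zero => simpa using contDiff_snd
  | succ n ih =>
    simp only [Function.iterate_succ_apply']
    exact hG.comp (contDiff_fst.prodMk ih)

/-- The partial derivative with respect to the last variable. -/
theorem B7_deriv {E : Type} [NormedAddCommGroup E] [NormedSpace ℂ E]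
    {F : E × ℂ → ℂ} (hF : ContDiff ℂ ω F) (e : E) (x : ℂ) :
    deriv (fun x => F (e, x)) x = fderiv ℂ F (e, x) (0, 1) := by
  have hFd : DifferentiableAt ℂ F (e, x) := (hF.differentiable (by simp)) _
  have h1 : HasDerivAt (fun x : ℂ => ((e, x) : E × ℂ)) (0, 1) x :=
    (hasDerivAt_const x e).prodMk (hasDerivAt_id x)
  exact (hFd.hasFDerivAt.comp_hasDerivAt x h1).deriv

/-- The multiplier of the continuation is analytic. -/
theorem B7_mult {E : Type} [NormedAddCommGroup E] [NormedSpace ℂ E]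
    {F : E × ℂ → ℂ} (hF : ContDiff ℂ ω F) {X : E → ℂ} {e0 : E} (hX : ContDiffAt ℂ ω X e0) :
    ContDiffAt ℂ ω (fun e => deriv (fun x => F (e, x)) (X e)) e0 := by
  have h1 : (fun e => deriv (fun x => F (e, x)) (X e)) =
      fun e => fderiv ℂ F (e, X e) (0, 1) := by
    funext e
    exact B7_deriv hF e (X e)
  rw [h1]
  have h2 : ContDiff ℂ ω (fderiv ℂ F) := hF.fderiv_right (by simp)
  have h3 : ContDiffAt ℂ ω (fun e => fderiv ℂ F (e, X e)) e0 :=
    h2.contDiffAt.comp e0 (contDiffAt_id.prodMk hX)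
  exact h3.clm_apply contDiffAt_const

/-- The family `p + τ` is jointly analytic. -/
theorem B7_family (p : ℂ[X]) (n : ℕ) :
    ContDiff ℂ ω (fun v : ℂ × ℂ => (pt p v.1)^[n] v.2) := by
  have hG : ContDiff ℂ ω (fun v : ℂ × ℂ => p.eval v.2 + v.1) := by
    have h1 : ContDiff ℂ ω (fun x : ℂ => p.eval x) := by
      simpa using Polynomial.contDiff_aeval (𝕜 := ℂ) p ω
    exact (h1.comp contDiff_snd).add contDiff_fst
  exact B7_iter hG n

/-- B7. Proof: implicit function theorem for `x(τ)` near `τ = 0` (`λ ≠ 1`); `λ(τ)` is holomorphic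
and nonconstant near `0` (B5 with `q = fun _ => p` and `μ = λ 0`: finitely many parameters), so it is open near `0` and takes infinitely many
values on the unit circle near `λ 0`; `λ'` has finitely many zeros in a small closed disc, so there
is `τ1` close to `0` with `‖λ(τ1)‖ = 1` and `λ'(τ1) ≠ 0`. Let `s0` be purely imaginary with
`exp s0 = λ(τ1)`, `τ s = λ⁻¹ (exp s)` (local inverse near `τ1`), and `x s = x(τ s)`. -/
theorem exists_logParam {p : ℂ[X]} (hp : 2 ≤ p.natDegree) {n : ℕ} (hn : 1 ≤ n) {xb : ℂ}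
    (hfix : (pt p 0)^[n] xb = xb) (hl : ‖deriv ((pt p 0)^[n]) xb‖ = 1)
    (hl1 : deriv ((pt p 0)^[n]) xb ≠ 1) {δ : ℝ} (hδ : 0 < δ) :
    ∃ (s0 : ℂ) (η : ℝ) (τ x : ℂ → ℂ), LogParam p n s0 η τ x ∧
      ∀ s ∈ ball s0 η, ‖τ s‖ < δ ∧ ‖x s - xb‖ < δ ∧
        ‖Complex.exp s - deriv ((pt p 0)^[n]) xb‖ < δ := by
  set F : ℂ × ℂ → ℂ := fun v => (pt p v.1)^[n] v.2 with hFdef
  have hF : ContDiff ℂ ω F := B7_family p n
  obtain ⟨Y, hYc, hY0, hYfix⟩ := B7_implicit hF (e0 := (0 : ℂ)) (x0 := xb) hfix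
    (by rw [← B7_deriv hF]; exact hl1)
  set lam : ℂ → ℂ := fun τ => deriv (fun x => F (τ, x)) (Y τ) with hlam
  have hlamc : ContDiffAt ℂ ω lam 0 := B7_mult hF hYc
  have hlam0 : lam 0 = deriv ((pt p 0)^[n]) xb := by simp only [hlam, hY0]; rfl
  set l0 : ℂ := deriv ((pt p 0)^[n]) xb with hl0
  have hla : AnalyticAt ℂ lam 0 := hlamc.analyticAt
  -- finiteness
  have hfin : {τ : ℂ | ∃ w : ℂ, (pt p τ)^[n] w = w ∧ deriv ((pt p τ)^[n]) w = l0}.Finite := by
    have := finite_multiplier (q := fun _ => p) hp (fun _ => rfl) hn l0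
    simpa only [nac_const] using this
  have hnc : ¬ ∀ᶠ z in 𝓝 (0 : ℂ), lam z = l0 := by
    intro h
    have h1 : ∀ᶠ z in 𝓝 (0 : ℂ), z ∈ {τ : ℂ | ∃ w : ℂ, (pt p τ)^[n] w = w ∧
        deriv ((pt p τ)^[n]) w = l0} := by
      filter_upwards [h, hYfix] with z hz hz2
      exact ⟨Y z, hz2, hz⟩
    have h2 : {τ : ℂ | ∃ w : ℂ, (pt p τ)^[n] w = w ∧
        deriv ((pt p τ)^[n]) w = l0} ∈ 𝓝 (0 : ℂ) := h1
    exact infinite_of_mem_nhds (0 : ℂ) h2 hfin
  have hopen : 𝓝 l0 ≤ map lam (𝓝 0) := by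
    rcases hla.eventually_constant_or_nhds_le_map_nhds with h | h
    · rw [hlam0] at h; exact absurd h hnc
    · rwa [hlam0] at h
  -- the derivative of the multiplier does not vanish off the origin
  have hder : ∀ᶠ z in 𝓝[≠] (0 : ℂ), deriv lam z ≠ 0 := by
    rcases hla.deriv.eventually_eq_zero_or_eventually_ne_zero with h | h
    · exfalso
      apply hnc
      have h2 : ∀ᶠ z in 𝓝 (0 : ℂ), DifferentiableAt ℂ lam z :=
        hla.eventually_analyticAt.mono fun z hz => hz.differentiableAt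
      obtain ⟨r, hr, hr2⟩ := Metric.eventually_nhds_iff_ball.mp (h.and h2)
      refine Metric.eventually_nhds_iff_ball.mpr ⟨r, hr, fun z hz => ?_⟩
      rw [← hlam0]
      have h3 : DifferentiableOn ℂ lam (ball 0 r) := fun y hy =>
        (hr2 y hy).2.differentiableWithinAt
      have h4 : ∀ y ∈ ball (0 : ℂ) r, fderivWithin ℂ lam (ball 0 r) y = 0 := by
        intro y hy
        rw [fderivWithin_of_isOpen isOpen_ball hy]
        have := (hr2 y hy).1
        ext
        simpa using this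
      exact (convex_ball (0 : ℂ) r).is_const_of_fderivWithin_eq_zero h3 h4 hz
        (mem_ball_self hr)
    · exact h
  rw [eventually_nhdsWithin_iff] at hder
  -- the good set of parameters
  set Good : ℂ → Prop := fun t => ‖t‖ < δ ∧ ‖Y t - xb‖ < δ ∧ ‖lam t - l0‖ < δ ∧ lam t ≠ 1 ∧
    AnalyticAt ℂ Y t ∧ AnalyticAt ℂ lam t ∧ F (t, Y t) = Y t with hGood
  have hgood : ∀ᶠ t in 𝓝 (0 : ℂ), Good t := by
    have hYcont : ContinuousAt Y 0 := hYc.continuousAt
    have hlcont : ContinuousAt lam 0 := hla.continuousAt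
    have h1 : ∀ᶠ t in 𝓝 (0 : ℂ), ‖t‖ < δ := by
      have := Metric.ball_mem_nhds (0 : ℂ) hδ
      filter_upwards [this] with t ht
      simpa using ht
    have h2 : ∀ᶠ t in 𝓝 (0 : ℂ), ‖Y t - xb‖ < δ := by
      have := hYcont.eventually (Metric.ball_mem_nhds (Y 0) hδ)
      filter_upwards [this] with t ht
      rw [hY0, dist_eq_norm] at ht
      exact ht
    have h3 : ∀ᶠ t in 𝓝 (0 : ℂ), ‖lam t - l0‖ < δ := by
      have := hlcont.eventually (Metric.ball_mem_nhds (lam 0) hδ)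
      filter_upwards [this] with t ht
      rw [hlam0, dist_eq_norm] at ht
      exact ht
    have h4 : ∀ᶠ t in 𝓝 (0 : ℂ), lam t ≠ 1 :=
      hlcont.eventually_ne (by rw [hlam0]; exact hl1)
    filter_upwards [h1, h2, h3, h4, hYc.analyticAt.eventually_analyticAt,
      hla.eventually_analyticAt, hYfix] with t a1 a2 a3 a4 a5 a6 a7
    exact ⟨a1, a2, a3, a4, a5, a6, a7⟩
  have hall := (hgood.eventually_nhds).and hder
  -- choose a value on the circle
  have himg : ∀ᶠ y in 𝓝 l0, ∃ t, ((∀ᶠ t' in 𝓝 t, Good t') ∧ (t ∈ ({0}ᶜ : Set ℂ) → deriv lam t ≠ 0)) ∧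
      lam t = y := by
    apply hopen
    rw [mem_map]
    filter_upwards [hall] with t ht
    exact ⟨t, ht, rfl⟩
  have hcurve : ContinuousAt (fun θ : ℝ => l0 * Complex.exp (θ * Complex.I)) 0 := by
    fun_prop
  have hc0 : l0 * Complex.exp (((0 : ℝ) : ℂ) * Complex.I) = l0 := by simp
  have h5 : ∀ᶠ θ : ℝ in 𝓝 0, ∃ t, ((∀ᶠ t' in 𝓝 t, Good t') ∧
      (t ∈ ({0}ᶜ : Set ℂ) → deriv lam t ≠ 0)) ∧
      lam t = l0 * Complex.exp (θ * Complex.I) := by
    have := hcurve.tendsto
    simp only [hc0] at this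
    exact this.eventually himg
  obtain ⟨r, hr, hr2⟩ := Metric.eventually_nhds_iff_ball.mp h5
  set θ : ℝ := min (r / 2) 1 with hθ
  have hθ0 : 0 < θ := lt_min (by linarith) one_pos
  have hθ1 : θ ≤ 1 := min_le_right _ _
  have hθr : θ < r := (min_le_left _ _).trans_lt (by linarith)
  obtain ⟨t1, ⟨hg1, hd1⟩, hval⟩ := hr2 θ (by
    rw [mem_ball, dist_zero_right, Real.norm_eq_abs, abs_of_pos hθ0]; exact hθr)
  have hl0ne : l0 ≠ 0 := by
    intro h
    rw [h, norm_zero] at hl
    exact zero_ne_one hl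
  have hexpne : Complex.exp (θ * Complex.I) ≠ 1 := by
    intro h
    rw [Complex.exp_eq_one_iff] at h
    obtain ⟨m, hm⟩ := h
    have h6 := congrArg Complex.im hm
    simp at h6
    rcases lt_trichotomy m 0 with h7 | h7 | h7
    · have : (m : ℝ) ≤ -1 := by exact_mod_cast Int.le_sub_one_of_lt h7
      nlinarith [Real.pi_gt_three]
    · rw [h7] at h6; simp at h6; linarith
    · have : (1 : ℝ) ≤ m := by exact_mod_cast h7
      nlinarith [Real.pi_gt_three]
  have ht1 : t1 ≠ 0 := by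
    intro h
    rw [h, hlam0] at hval
    exact hexpne (mul_left_cancel₀ hl0ne (by rw [← hval, mul_one]))
  have hd1' : deriv lam t1 ≠ 0 := hd1 (by simpa using ht1)
  have hG1 : Good t1 := hg1.self_of_nhds
  have hlam1 : ‖lam t1‖ = 1 := by
    rw [hval, norm_mul, hl, Complex.norm_exp_ofReal_mul_I, one_mul]
  have hlam1ne : lam t1 ≠ 0 := by
    intro h; rw [h, norm_zero] at hlam1; exact zero_ne_one hlam1
  -- the local inverses
  have hla1 : AnalyticAt ℂ lam t1 := hG1.2.2.2.2.2.1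
  set g : ℂ → ℂ := hla1.hasStrictDerivAt.localInverse _ _ _ hd1' with hg
  have hgan : AnalyticAt ℂ g (lam t1) := hla1.analyticAt_localInverse hd1'
  have hgval : g (lam t1) = t1 := HasStrictFDerivAt.localInverse_apply_image ..
  have hgright : ∀ᶠ y in 𝓝 (lam t1), lam (g y) = y :=
    HasStrictDerivAt.eventually_right_inverse ..
  set s0 : ℂ := Complex.log (lam t1) with hs0
  have hs0exp : Complex.exp s0 = lam t1 := Complex.exp_log hlam1ne
  have hexpc : ContinuousAt Complex.exp s0 := Complex.continuous_exp.continuousAt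
  have hτa : AnalyticAt ℂ (fun s => g (Complex.exp s)) s0 := by
    have : AnalyticAt ℂ g (Complex.exp s0) := by rw [hs0exp]; exact hgan
    exact this.comp analyticAt_cexp
  have hτ0 : g (Complex.exp s0) = t1 := by rw [hs0exp, hgval]
  have hτc : Tendsto (fun s => g (Complex.exp s)) (𝓝 s0) (𝓝 t1) := by
    have := hτa.continuousAt.tendsto
    rwa [hτ0] at this
  have hxa : AnalyticAt ℂ (fun s => Y (g (Complex.exp s))) s0 := by
    have h7 : AnalyticAt ℂ Y (g (Complex.exp s0)) := by rw [hτ0]; exact hG1.2.2.2.2.1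
    exact AnalyticAt.comp (g := Y) (f := fun s => g (Complex.exp s)) h7 hτa
  have hright : ∀ᶠ s in 𝓝 s0, lam (g (Complex.exp s)) = Complex.exp s := by
    have h7 : Tendsto Complex.exp (𝓝 s0) (𝓝 (lam t1)) := by
      rw [← hs0exp]; exact hexpc.tendsto
    exact h7.eventually hgright
  have hexpinj : ∀ᶠ s in 𝓝 s0, (Complex.hasStrictDerivAt_exp s0).localInverse _ _ _
      (Complex.exp_ne_zero s0) (Complex.exp s) = s :=
    HasStrictDerivAt.eventually_left_inverse ..
  have hfinal := (((hτa.eventually_analyticAt.and hxa.eventually_analyticAt).and hright).and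
    hexpinj).and (hτc.eventually hg1)
  obtain ⟨η, hη, hη2⟩ := Metric.eventually_nhds_iff_ball.mp hfinal
  refine ⟨s0, η, fun s => g (Complex.exp s), fun s => Y (g (Complex.exp s)), ?_, ?_⟩
  · refine ⟨?_, hη, ?_, ?_, ?_, ?_, ?_, ?_⟩
    · rw [hs0, Complex.log_re, hlam1, Real.log_one]
    · intro s hs
      exact (hη2 s hs).1.1.1.1.differentiableAt.differentiableWithinAt
    · intro s hs
      exact (hη2 s hs).1.1.1.2.differentiableAt.differentiableWithinAt
    · intro s hs s' hs' h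
      have h8 := (hη2 s hs).1.1.2
      have h9 := (hη2 s' hs').1.1.2
      have h10 : Complex.exp s = Complex.exp s' := by
        rw [← h8, ← h9]
        simp only at h
        rw [h]
      rw [← (hη2 s hs).1.2, ← (hη2 s' hs').1.2, h10]
    · intro s hs
      exact (hη2 s hs).2.2.2.2.2.2.2
    · intro s hs
      exact (hη2 s hs).1.1.2
    · intro s hs
      rw [← (hη2 s hs).1.1.2]
      exact (hη2 s hs).2.2.2.2.1
  · intro s hs
    have h8 := (hη2 s hs).2
    refine ⟨h8.1, h8.2.1, ?_⟩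
    rw [← (hη2 s hs).1.1.2]
    exact h8.2.2.1

end SkewBif
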