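import Pool.Agent.SK.A4
import Pool.Agent.SK.B5
import Pool.Agent.SK.B6
import Pool.Agent.SK.B7
/-! ## MP_9cfccf_an, module B13 -/
open Set Metric Filter Topology Polynomial
open scoped ContDiff
namespace SkewBif

/-- The two parameter family `p + e X + t` is jointly analytic. -/
theorem B13_family (p : ℂ[X]) (n : ℕ) :
    ContDiff ℂ ω (fun v : (ℂ × ℂ) × ℂ =>
      (fun x => p.eval x + v.1.1 * x + v.1.2)^[n] v.2) := by
  have hG : ContDiff ℂ ω (fun v : (ℂ × ℂ) × ℂ => p.eval v.2 + v.1.1 * v.2 + v.1.2) := by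
    have h1 : ContDiff ℂ ω (fun x : ℂ => p.eval x) := by
      simpa using Polynomial.contDiff_aeval (𝕜 := ℂ) p ω
    exact ((h1.comp contDiff_snd).add ((contDiff_fst.comp contDiff_fst).mul contDiff_snd)).add
      (contDiff_snd.comp contDiff_fst)
  exact B7_iter hG n

/-- Only finitely many linear perturbations create a multiple critical point. -/
theorem B13_simple {p : ℂ[X]} (hp : 2 ≤ p.natDegree) :
    {e : ℂ | ∃ c : ℂ, p.derivative.eval c + e = 0 ∧ p.derivative.derivative.eval c = 0}.Finite := by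
  classical
  have h0 : p.derivative.derivative ≠ 0 := by
    intro h
    have h1 : p.derivative.natDegree = 0 := by
      exact derivative_eq_zero.mp h
    rw [natDegree_derivative] at h1
    omega
  refine ((p.derivative.derivative.roots.toFinset.finite_toSet).image
    (fun c => -p.derivative.eval c)).subset ?_
  rintro e ⟨c, hc1, hc2⟩
  refine ⟨c, ?_, ?_⟩
  · simp only [Finset.mem_coe, Multiset.mem_toFinset]
    rw [mem_roots h0]
    exact hc2
  · simp only
    linear_combination -hc1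

/-- B13. Near `p` there is `pb` with simple critical points and a neutral periodic point whose
multiplier is not `±1`.
Proof. Take `p'` from `BifBase`. By B5 the holomorphic function `λ(τ)` (multiplier of the
continuation of `x` for `p' + τ`) is nonconstant near `τ = 0`, hence open: choose a value `μ`,
`‖μ‖ = 1`, `μ ≠ ±1`, `μ = λ(τ1)` with `τ1` small. For `e` small, `p' + e X + τ` has a continuation
`x(e, τ)` of the periodic point with multiplier `λ(e, τ)`, and A4b gives `τ` near `τ1` with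
`λ(e, τ) = μ` (`λ(0, ·) - μ` has an isolated zero at `τ1`). The derivative `p'' + e` (here `p''` the
derivative of `p'`) has simple roots unless `-e` is a critical value of the derivative: finitely
many exceptions. -/
theorem first_perturbation {p : ℂ[X]} (hp : 2 ≤ p.natDegree) (hbif : BifBase p) {δ : ℝ}
    (hδ : 0 < δ) :
    ∃ pb : ℂ[X], pb.natDegree = p.natDegree ∧ (∀ i, ‖pb.coeff i - p.coeff i‖ < δ) ∧
      (∀ c, pb.derivative.eval c = 0 → pb.derivative.derivative.eval c ≠ 0) ∧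
      ∃ n ≥ 1, ∃ x : ℂ, (pt pb 0)^[n] x = x ∧ ‖deriv ((pt pb 0)^[n]) x‖ = 1 ∧
        deriv ((pt pb 0)^[n]) x ^ 2 ≠ 1 := by
  obtain ⟨p', hdeg, hclose, n, hn, x0, hfix, hl, hl1⟩ := hbif (δ / 3) (by linarith)
  have hp' : 2 ≤ p'.natDegree := by rw [hdeg]; exact hp
  set F : (ℂ × ℂ) × ℂ → ℂ := fun v => (fun x => p'.eval x + v.1.1 * x + v.1.2)^[n] v.2 with hFdef
  have hF : ContDiff ℂ ω F := B13_family p' n
  have hF0 : ∀ t : ℂ, (fun x => F ((0, t), x)) = (pt p' t)^[n] := by
    intro t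
    funext x
    simp only [hFdef]
    congr 2
    funext z
    simp [pt]
  have hF00 : (fun x => F ((0, 0), x)) = (fun z => p'.eval z)^[n] := by
    rw [hF0]
    congr 1
    funext z
    simp [pt]
  have hfix' : F (((0 : ℂ), (0 : ℂ)), x0) = x0 := by
    have := congrFun hF00 x0
    exact this.trans hfix
  have hder0 : deriv (fun x => F (((0 : ℂ), (0 : ℂ)), x)) x0 =
      deriv (fun z => p'.eval z)^[n] x0 := by rw [hF00]
  obtain ⟨Y, hYc, hY0, hYfix⟩ := B7_implicit hF (e0 := ((0 : ℂ), (0 : ℂ))) (x0 := x0) hfix'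
    (by rw [← B7_deriv hF, hder0]; exact hl1)
  set lam : ℂ × ℂ → ℂ := fun v => deriv (fun x => F (v, x)) (Y v) with hlam
  have hlamc : ContDiffAt ℂ ω lam (0, 0) := B7_mult hF hYc
  set l0 : ℂ := deriv (fun z => p'.eval z)^[n] x0 with hl0
  have hlam0 : lam (0, 0) = l0 := by
    simp only [hlam, hY0]
    exact hder0
  -- finiteness
  have hfin : ∀ μ : ℂ, {τ : ℂ | ∃ w : ℂ, (pt p' τ)^[n] w = w ∧
      deriv ((pt p' τ)^[n]) w = μ}.Finite := by
    intro μ
    have := finite_multiplier (q := fun _ => p') hp' (fun _ => rfl) hn μ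
    simpa only [nac_const] using this
  have hnc : ∀ (μ t0 : ℂ), (∀ᶠ z in 𝓝 t0, F (((0 : ℂ), z), Y (0, z)) = Y (0, z)) →
      ¬ ∀ᶠ z in 𝓝 t0, lam (0, z) = μ := by
    intro μ t0 hfx h
    have h2 : {τ : ℂ | ∃ w : ℂ, (pt p' τ)^[n] w = w ∧
        deriv ((pt p' τ)^[n]) w = μ} ∈ 𝓝 t0 := by
      filter_upwards [h, hfx] with z hz hz2
      refine ⟨Y (0, z), ?_, ?_⟩
      · rw [← hF0]; exact hz2
      · rw [← hF0]; exact hz
    exact infinite_of_mem_nhds t0 h2 (hfin μ)
  -- the slice `e = 0`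
  have hslice : ∀ t0 : ℂ, Tendsto (fun t : ℂ => ((0 : ℂ), t)) (𝓝 t0) (𝓝 ((0 : ℂ), t0)) := by
    intro t0
    exact (continuous_const.prodMk continuous_id).tendsto t0
  set Good : ℂ × ℂ → Prop := fun v => ContDiffAt ℂ ω Y v ∧ ContDiffAt ℂ ω lam v ∧
    F (v, Y v) = Y v with hGood
  have hgood : ∀ᶠ v in 𝓝 ((0 : ℂ), (0 : ℂ)), Good v := by
    filter_upwards [hYc.analyticAt.eventually_analyticAt,
      hlamc.analyticAt.eventually_analyticAt, hYfix] with v a1 a2 a3
    exact ⟨a1.contDiffAt, a2.contDiffAt, a3⟩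
  have hsmall : ∀ᶠ t : ℂ in 𝓝 0, ‖t‖ < δ / 6 := by
    have := Metric.ball_mem_nhds (0 : ℂ) (show (0 : ℝ) < δ / 6 by linarith)
    filter_upwards [this] with t ht
    simpa using ht
  set lam0 : ℂ → ℂ := fun t => lam (0, t) with hlam0def
  have hla0 : AnalyticAt ℂ lam0 0 := by
    have h1 : AnalyticAt ℂ lam ((fun t : ℂ => ((0 : ℂ), t)) 0) := hlamc.analyticAt
    have h2 : AnalyticAt ℂ (fun t : ℂ => ((0 : ℂ), t)) 0 := analyticAt_const.prod analyticAt_id
    exact AnalyticAt.comp (g := lam) (f := fun t : ℂ => ((0 : ℂ), t)) h1 h2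
  have hopen : 𝓝 l0 ≤ map lam0 (𝓝 0) := by
    rcases hla0.eventually_constant_or_nhds_le_map_nhds with h | h
    · exact absurd h (hnc _ 0 ((hslice 0).eventually hYfix))
    · rwa [show lam0 0 = l0 from hlam0] at h
  have himg : ∀ᶠ y in 𝓝 l0, ∃ t, ((∀ᶠ v in 𝓝 ((0 : ℂ), t), Good v) ∧ ‖t‖ < δ / 6) ∧
      lam0 t = y := by
    apply hopen
    rw [mem_map]
    filter_upwards [(hslice 0).eventually hgood.eventually_nhds, hsmall] with t ht ht2
    exact ⟨t, ⟨ht, ht2⟩, rfl⟩
  have hcurve : ContinuousAt (fun θ : ℝ => l0 * Complex.exp (θ * Complex.I)) 0 := by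
    fun_prop
  have hc0 : l0 * Complex.exp (((0 : ℝ) : ℂ) * Complex.I) = l0 := by simp
  have h5 : ∀ᶠ θ : ℝ in 𝓝 0, ∃ t, ((∀ᶠ v in 𝓝 ((0 : ℂ), t), Good v) ∧ ‖t‖ < δ / 6) ∧
      lam0 t = l0 * Complex.exp (θ * Complex.I) := by
    have := hcurve.tendsto
    simp only [hc0] at this
    exact this.eventually himg
  obtain ⟨r, hr, hr2⟩ := Metric.eventually_nhds_iff_ball.mp h5
  have hl0ne : l0 ≠ 0 := by
    intro h
    rw [h, norm_zero] at hl
    exact zero_ne_one hl
  -- a value on the circle whose square is not one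
  obtain ⟨θ, hθr, hθsq⟩ : ∃ θ : ℝ, θ ∈ ball (0 : ℝ) r ∧
      (l0 * Complex.exp (θ * Complex.I)) ^ 2 ≠ 1 := by
    set θ : ℝ := min (r / 2) 1 with hθ
    have hθ0 : 0 < θ := lt_min (by linarith) one_pos
    have hθ1 : θ ≤ 1 := min_le_right _ _
    have hθr : θ < r := (min_le_left _ _).trans_lt (by linarith)
    have hexpne : Complex.exp (θ * Complex.I) ≠ 1 := by
      intro h
      rw [Complex.exp_eq_one_iff] at h
      obtain ⟨m, hm⟩ := h
      have h6 := congrArg Complex.im hm
      simp at h6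
      rcases lt_trichotomy m 0 with h7 | h7 | h7
      · have : (m : ℝ) ≤ -1 := by exact_mod_cast Int.le_sub_one_of_lt h7
        nlinarith [Real.pi_gt_three]
      · rw [h7] at h6; simp at h6; linarith
      · have : (1 : ℝ) ≤ m := by exact_mod_cast h7
        nlinarith [Real.pi_gt_three]
    by_cases h1 : (l0 * Complex.exp (θ * Complex.I)) ^ 2 = 1
    · refine ⟨θ / 2, ?_, ?_⟩
      · rw [mem_ball, dist_zero_right, Real.norm_eq_abs, abs_of_pos (by linarith)]
        linarith
      · intro h2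
        apply hexpne
        have h3 : Complex.exp (θ * Complex.I) =
            Complex.exp (((θ / 2 : ℝ) : ℂ) * Complex.I) ^ 2 := by
          rw [← Complex.exp_nat_mul]
          congr 1
          push_cast
          ring
        rw [h3] at h1
        have h4 : (l0 * Complex.exp (((θ / 2 : ℝ) : ℂ) * Complex.I)) ^ 2 *
            Complex.exp (((θ / 2 : ℝ) : ℂ) * Complex.I) ^ 2 = 1 := by
          rw [← h1]; ring
        rw [h2, one_mul] at h4
        rw [h3, h4]
    · refine ⟨θ, ?_, h1⟩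
      rw [mem_ball, dist_zero_right, Real.norm_eq_abs, abs_of_pos hθ0]
      exact hθr
  obtain ⟨t1, ⟨hg1, ht1⟩, hval⟩ := hr2 θ hθr
  set μ : ℂ := l0 * Complex.exp (θ * Complex.I) with hμ
  have hμn : ‖μ‖ = 1 := by
    rw [hμ, norm_mul, hl, Complex.norm_exp_ofReal_mul_I, one_mul]
  -- persistence
  obtain ⟨R, hR, hR2⟩ := Metric.eventually_nhds_iff_ball.mp hg1
  have hball : ball ((0 : ℂ), t1) R = ball (0 : ℂ) R ×ˢ ball t1 R := (ball_prod_same _ _ _).symm
  rw [hball] at hR2
  have hpers : ∀ᶠ e in 𝓝 (0 : ℂ), ∃ t ∈ ball t1 (min (δ / 6) R), lam (e, t) - μ = 0 := by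
    refine zero_persists (X := ℂ) (x₀ := (0 : ℂ)) (z₀ := t1) (R := R) hR
      (N := ball (0 : ℂ) R) (ball_mem_nhds _ hR) (H := fun e t => lam (e, t) - μ) ?_ ?_ ?_ ?_
      (lt_min (by linarith) hR)
    · intro v hv
      exact ((hR2 v hv).2.1.continuousAt.sub continuousAt_const).continuousWithinAt
    · intro e he t ht
      have h1 : DifferentiableAt ℂ lam (e, t) :=
        (hR2 (e, t) ⟨he, ht⟩).2.1.differentiableAt (by simp)
      have h2 : DifferentiableAt ℂ (fun t : ℂ => ((e : ℂ), t)) t :=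
        (differentiableAt_const e).prodMk differentiableAt_id
      have h3 : DifferentiableAt ℂ (fun t => lam (e, t)) t :=
        DifferentiableAt.comp (g := lam) (f := fun t : ℂ => ((e : ℂ), t)) t h1 h2
      exact (h3.sub_const μ).differentiableWithinAt
    · exact sub_eq_zero.mpr hval
    · intro h
      refine hnc μ t1 ?_ (h.mono fun z hz => sub_eq_zero.mp hz)
      exact (hslice t1).eventually (hg1.mono fun v hv => hv.2.2)
  -- choose the linear perturbation
  have hfin2 := B13_simple hp'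
  have hbad : ∀ᶠ e in 𝓝[≠] (0 : ℂ), e ∉ {e : ℂ | ∃ c : ℂ, p'.derivative.eval c + e = 0 ∧
      p'.derivative.derivative.eval c = 0} := by
    have h1 : ({e : ℂ | ∃ c : ℂ, p'.derivative.eval c + e = 0 ∧
      p'.derivative.derivative.eval c = 0} \ {0})ᶜ ∈ 𝓝 (0 : ℂ) := by
      refine (hfin2.subset sdiff_subset).isClosed.isOpen_compl.mem_nhds ?_
      simp
    rw [eventually_nhdsWithin_iff]
    filter_upwards [h1] with e he hne hmem
    exact he ⟨hmem, hne⟩
  have hex : ∃ e : ℂ, (∃ t ∈ ball t1 (min (δ / 6) R), lam (e, t) - μ = 0) ∧ ‖e‖ < δ / 3 ∧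
      e ∈ ball (0 : ℂ) R ∧
      ∀ c, p'.derivative.eval c + e = 0 → p'.derivative.derivative.eval c ≠ 0 := by
    have h1 : ∀ᶠ e in 𝓝[≠] (0 : ℂ), ∃ t ∈ ball t1 (min (δ / 6) R), lam (e, t) - μ = 0 :=
      hpers.filter_mono nhdsWithin_le_nhds
    have h2 : ∀ᶠ e in 𝓝[≠] (0 : ℂ), ‖e‖ < δ / 3 := by
      have := Metric.ball_mem_nhds (0 : ℂ) (show (0 : ℝ) < δ / 3 by linarith)
      exact (Filter.Eventually.filter_mono nhdsWithin_le_nhds
        (by filter_upwards [this] with t ht; simpa using ht))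
    have h3 : ∀ᶠ e in 𝓝[≠] (0 : ℂ), e ∈ ball (0 : ℂ) R :=
      Filter.Eventually.filter_mono nhdsWithin_le_nhds (ball_mem_nhds _ hR)
    obtain ⟨e, ⟨⟨he1, he2⟩, he3⟩, he4⟩ := (((h1.and h2).and h3).and hbad).exists
    refine ⟨e, he1, he2, he3, fun c hc1 hc2 => he4 ⟨c, hc1, hc2⟩⟩
  obtain ⟨e, ⟨t, ht, hlt⟩, he, heR, hsimple⟩ := hex
  have htR : t ∈ ball t1 R := ball_subset_ball (min_le_right _ _) ht
  have htn : ‖t‖ < δ / 3 := by
    have h1 : ‖t - t1‖ < δ / 6 := by
      have := ball_subset_ball (min_le_left _ _) ht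
      rwa [mem_ball, dist_eq_norm] at this
    have h2 : ‖t‖ ≤ ‖t - t1‖ + ‖t1‖ := by
      have := norm_add_le (t - t1) t1
      simpa using this
    linarith
  have hptb : pt (p' + C e * X + C t) 0 = fun x => p'.eval x + e * x + t := by
    funext x
    simp [pt]
  have hFe : (fun x => F ((e, t), x)) = (pt (p' + C e * X + C t) 0)^[n] := by
    rw [hptb]
  have hgd := hR2 (e, t) ⟨heR, htR⟩
  refine ⟨p' + C e * X + C t, ?_, ?_, ?_, n, hn, Y (e, t), ?_, ?_, ?_⟩
  · rw [natDegree_add_C, natDegree_add_eq_left_of_natDegree_lt, hdeg]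
    have h1 : (C e * X : ℂ[X]).natDegree ≤ 1 := (natDegree_C_mul_le e X).trans natDegree_X_le
    omega
  · intro i
    have h1 := hclose i
    have h2 : (p' + C e * X + C t).coeff i - p.coeff i =
        (p'.coeff i - p.coeff i) + ((C e * X : ℂ[X]).coeff i + (C t : ℂ[X]).coeff i) := by
      simp only [coeff_add]
      ring
    rw [h2]
    have h3 : ‖(C e * X : ℂ[X]).coeff i + (C t : ℂ[X]).coeff i‖ ≤ 2 * (δ / 3) := by
      rcases Nat.lt_trichotomy i 1 with h | h | h
      · have : i = 0 := by omega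
        subst this
        simp
        linarith
      · subst h
        simp [coeff_C]
        linarith
      · have h4 : (C e * X : ℂ[X]).coeff i = 0 := by
          rw [coeff_C_mul, coeff_X, if_neg (by omega), mul_zero]
        have h5 : (C t : ℂ[X]).coeff i = 0 := by
          rw [coeff_C, if_neg (by omega)]
        rw [h4, h5]
        simp
        linarith
    have h4 := norm_add_le (p'.coeff i - p.coeff i)
      ((C e * X : ℂ[X]).coeff i + (C t : ℂ[X]).coeff i)
    linarith
  · intro c hc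
    have h1 : (p' + C e * X + C t).derivative = p'.derivative + C e := by
      simp [derivative_mul]
    rw [h1] at hc ⊢
    have h2 : (p'.derivative + C e).derivative = p'.derivative.derivative := by simp
    rw [h2]
    apply hsimple
    simpa using hc
  · rw [← hFe]
    exact hgd.2.2
  · rw [← hFe]
    have : lam (e, t) = μ := sub_eq_zero.mp hlt
    rw [show deriv (fun x => F ((e, t), x)) (Y (e, t)) = lam (e, t) from rfl, this, hμn]
  · rw [← hFe]
    have : lam (e, t) = μ := sub_eq_zero.mp hlt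
    rw [show deriv (fun x => F ((e, t), x)) (Y (e, t)) = lam (e, t) from rfl, this]
    exact hθsq

end SkewBif
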