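import Pool.Agent.SK.A3
import Pool.Agent.SK.B1
/-! ## MP_9cfccf_an, module B2a -/
open Set Metric Filter Topology Polynomial
namespace SkewBif

theorem b2a_pt_zero (Q : ℂ[X]) : pt Q 0 = fun w => Q.eval w := by
  funext w
  simp [pt]

theorem b2a_diff (Q : ℂ[X]) (m : ℕ) : Differentiable ℂ (fun w => Q.eval w)^[m] :=
  Q.differentiable.iterate m

/-- Some point near a repelling fixed point leaves every ball. -/
theorem b2a_escape {Q : ℂ[X]} {wb : ℂ} (hfix : Q.eval wb = wb)
    (hrep : 1 < ‖Q.derivative.eval wb‖) {r : ℝ} (hr : 0 < r) (R : ℝ) :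
    ∃ z ∈ ball wb r, ∃ m, R < ‖(fun w => Q.eval w)^[m] z‖ := by
  by_contra hcon
  push Not at hcon
  have hder : ∀ m : ℕ, ‖Q.derivative.eval wb‖ ^ m ≤ R / (r / 2) := by
    intro m
    have h1 : HasDerivAt (fun w => Q.eval w)^[m] ((Q.derivative.eval wb) ^ m) wb :=
      HasDerivAt.iterate wb (Q.hasDerivAt wb) hfix m
    have h2 := Complex.norm_deriv_le_of_forall_mem_sphere_norm_le
      (f := (fun w => Q.eval w)^[m]) (c := wb) (R := r / 2) (C := R) (by linarith)
      (b2a_diff Q m).diffContOnCl (by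
        intro z hz
        refine hcon z ?_ m
        rw [mem_sphere] at hz
        rw [mem_ball, hz]
        linarith)
    rwa [h1.deriv, norm_pow] at h2
  have ht := tendsto_pow_atTop_atTop_of_one_lt hrep
  obtain ⟨m, hm⟩ := (ht.eventually (eventually_gt_atTop (R / (r / 2)))).exists
  exact absurd (hder m) (not_le.2 hm)

/-- Local form of a polynomial at a fixed point where it is not exceptional. -/
theorem b2a_local {Q : ℂ[X]} (hQ : 2 ≤ Q.natDegree) {a : ℂ} (ha : ¬ ExcAt Q a)
    (hfix : Q.eval a = a) : ∃ (k : ℕ) (h : ℂ[X]), k + 1 ≤ Q.natDegree ∧ h.eval a ≠ 0 ∧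
      ∀ w, Q.eval w - a = (w - a) ^ k * h.eval w := by
  set P : ℂ[X] := Q - C a with hP
  have hPd : P.natDegree = Q.natDegree := natDegree_sub_C
  have hP0 : P ≠ 0 := by
    intro h
    rw [h, natDegree_zero] at hPd
    omega
  obtain ⟨q, hq, hdvd⟩ := exists_eq_pow_rootMultiplicity_mul_and_not_dvd P hP0 a
  have hq0 : q ≠ 0 := by
    rintro rfl
    exact hdvd (dvd_zero _)
  have hdeg : P.natDegree = P.rootMultiplicity a + q.natDegree := by
    conv_lhs => rw [hq]
    rw [natDegree_mul (pow_ne_zero _ (X_sub_C_ne_zero a)) hq0, natDegree_pow, natDegree_X_sub_C,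
      mul_one]
  have hev : ∀ w, Q.eval w - a = (w - a) ^ (P.rootMultiplicity a) * q.eval w := by
    intro w
    have h1 := congrArg (fun p : ℂ[X] => p.eval w) hq
    simp only [hP, eval_sub, eval_C, eval_mul, eval_pow, eval_X] at h1
    exact h1
  refine ⟨P.rootMultiplicity a, q, ?_, ?_, hev⟩
  · by_contra hcon
    apply ha
    have hqd : q.natDegree = 0 := by omega
    have hk : P.rootMultiplicity a = Q.natDegree := by omega
    obtain ⟨c, hc⟩ := natDegree_eq_zero.1 hqd
    refine ⟨c, ?_⟩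
    rw [hc, mul_comm]
    rw [← hc, hk] at hq
    rw [← sub_eq_iff_eq_add']
    rw [← hc]
    exact hq
  · intro h
    exact hdvd (dvd_iff_isRoot.2 h)

/-- The arithmetic contradiction. -/
theorem b2a_growth {E D ε s0 C' : ℝ} (hE : 1 ≤ E) (hED : E < D) (hε : 0 < ε) {s : ℕ → ℝ}
    (h0 : s 0 = s0) (hC : 0 ≤ C') (hup : ∀ j, s (j + 1) ≤ E * s j + C')
    (hlow : ∀ j, ε * D ^ j ≤ s j) : False := by
  have hs0 : 0 ≤ s0 := by
    have := hlow 0
    rw [h0, pow_zero, mul_one] at this
    linarith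
  have key : ∀ j : ℕ, s j ≤ E ^ j * (s0 + j * C') := by
    intro j
    induction j with
    | zero => simp [h0]
    | succ j ih =>
      have h1 : (1 : ℝ) ≤ E ^ (j + 1) := one_le_pow₀ hE
      calc s (j + 1) ≤ E * s j + C' := hup j
        _ ≤ E * (E ^ j * (s0 + j * C')) + E ^ (j + 1) * C' := by
            have h2 := mul_le_mul_of_nonneg_left ih (by linarith : (0 : ℝ) ≤ E)
            have h3 := mul_le_mul_of_nonneg_right h1 hC
            linarith
        _ = E ^ (j + 1) * (s0 + ((j + 1 : ℕ) : ℝ) * C') := by push_cast; ring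
  set q : ℝ := E / D with hq
  have hD : 0 < D := by linarith
  have hq0 : 0 ≤ q := by positivity
  have hq1 : q < 1 := (div_lt_one hD).2 hED
  have hle : ∀ j : ℕ, ε ≤ s0 * q ^ j + C' * (j * q ^ j) := by
    intro j
    have h1 := (hlow j).trans (key j)
    have h2 : 0 < D ^ j := by positivity
    have h3 : q ^ j = E ^ j / D ^ j := div_pow _ _ _
    have h4 : s0 * q ^ j + C' * (j * q ^ j) = (E ^ j * (s0 + j * C')) / D ^ j := by
      rw [h3]; ring
    rw [h4, le_div_iff₀ h2]
    exact h1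
  have hlim : Tendsto (fun j : ℕ => s0 * q ^ j + C' * (j * q ^ j)) atTop (𝓝 0) := by
    have h1 := (tendsto_pow_atTop_nhds_zero_of_lt_one hq0 hq1).const_mul s0
    have h2 := (tendsto_self_mul_const_pow_of_lt_one hq0 hq1).const_mul C'
    have := h1.add h2
    rwa [mul_zero, mul_zero, add_zero] at this
  have := ge_of_tendsto' hlim hle
  linarith

/-- B2a. Every point `a` at which `Q` is not exceptional is in the forward image of each disc
around a repelling fixed point. -/
theorem onto_point {Q : ℂ[X]} (hQ : 2 ≤ Q.natDegree) {wb : ℂ} (hfix : Q.eval wb = wb)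
    (hrep : 1 < ‖Q.derivative.eval wb‖) {a : ℂ} (ha : ¬ ExcAt Q a) {r : ℝ} (hr : 0 < r) :
    ∃ k : ℕ, ∃ z ∈ ball wb r, (fun w => Q.eval w)^[k] z = a := by
  by_contra hcon
  push Not at hcon
  set D : ℝ := (Q.natDegree : ℝ) with hD
  have hD2 : 2 ≤ D := by rw [hD]; exact_mod_cast hQ
  obtain ⟨R, hR1, hR⟩ := exists_escape_radius hQ 0
  have hesc : ∀ z : ℂ, R ≤ ‖z‖ → 2 * ‖z‖ ≤ ‖pt Q 0 z‖ := hR 0 (by simp)
  obtain ⟨C, -, hC⟩ := growth_upper hQ 0 (‖wb‖ + r) ‖a‖
  have hC' := hC 0 (by simp)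
  rw [b2a_pt_zero] at hC'
  have hApos : ∀ m : ℕ, 0 < D ^ m := fun m => by positivity
  have hAtop : Tendsto (fun m : ℕ => D ^ m) atTop atTop :=
    tendsto_pow_atTop_atTop_of_one_lt (by linarith)
  have hinv : Tendsto (fun m : ℕ => (D ^ m)⁻¹) atTop (𝓝 0) := tendsto_inv_atTop_zero.comp hAtop
  set O : Set ℂ := ball wb r ∩ ⋃ m : ℕ, {z | R < ‖(fun w => Q.eval w)^[m] z‖} with hO
  have hOo : IsOpen O := isOpen_ball.inter (isOpen_iUnion (fun m =>
    isOpen_lt continuous_const (b2a_diff Q m).continuous.norm))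
  have hOne : O.Nonempty := by
    obtain ⟨z, hz, m, hm⟩ := b2a_escape hfix hrep hr R
    exact ⟨z, hz, mem_iUnion.2 ⟨m, hm⟩⟩
  have hrate : ∀ z ∈ O, ∃ g : ℝ, 0 < g ∧ Tendsto (fun m : ℕ =>
      Real.log ‖(fun w => Q.eval w)^[m] z - a‖ / D ^ m) atTop (𝓝 g) := by
    rintro z ⟨hz, hz'⟩
    obtain ⟨m, hm⟩ := mem_iUnion.1 hz'
    have h1 : Tendsto (fun m => ‖(pt Q 0)^[m] z‖) atTop atTop := by
      rcases bounded_or_escape hR1 hesc z with h | h
      · exfalso
        have := h m
        rw [b2a_pt_zero] at this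
        exact absurd this (not_le.2 hm)
      · exact h.2
    have h2 := escape_rate hQ h1 a
    rwa [b2a_pt_zero] at h2
  choose! u hu using hrate
  obtain ⟨b1, hb1, ε, hε, hdec⟩ := neg_lemma (b := wb) (R := r) (C := C)
    (g := fun m z => (fun w => Q.eval w)^[m] z - a) (A := fun m => D ^ m) hApos hAtop
    (fun m => ((b2a_diff Q m).sub_const a).differentiableOn)
    (fun m z hz => sub_ne_zero.2 (hcon m z hz))
    (fun m z hz => hC' z (by
      rw [mem_ball, dist_eq_norm] at hz
      have : ‖z‖ ≤ ‖z - wb‖ + ‖wb‖ := by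
        have := norm_add_le (z - wb) wb
        simpa using this
      linarith) a le_rfl m)
    hOo hOne inter_subset_left hu (mem_ball_self hr) (by
      intro ε hε
      have hfixm : ∀ m : ℕ, (fun w => Q.eval w)^[m] wb = wb := fun m =>
        Function.iterate_fixed hfix m
      have h1 : Tendsto (fun m : ℕ => Real.log ‖(fun w => Q.eval w)^[m] wb - a‖ / D ^ m) atTop
          (𝓝 0) := by
        have h2 := hinv.const_mul (Real.log ‖wb - a‖)
        rw [mul_zero] at h2
        refine h2.congr (fun m => ?_)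
        rw [hfixm, div_eq_mul_inv]
      exact (h1.eventually (ge_mem_nhds hε)).frequently)
  -- the orbit of `b1` converges to `a`
  set y : ℕ → ℂ := fun m => (fun w => Q.eval w)^[m] b1 with hy
  have hdec' : ∀ᶠ m : ℕ in atTop, ‖y m - a‖ ≤ Real.exp (-ε * D ^ m) := hdec
  have hyne : ∀ m, y m - a ≠ 0 := fun m => sub_ne_zero.2 (hcon m b1 hb1)
  have hylim : Tendsto y atTop (𝓝 a) := by
    rw [tendsto_iff_norm_sub_tendsto_zero]
    have h1 : Tendsto (fun m : ℕ => Real.exp (-ε * D ^ m)) atTop (𝓝 0) := by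
      refine Real.tendsto_exp_atBot.comp ?_
      exact Tendsto.const_mul_atTop_of_neg (by linarith) hAtop
    exact squeeze_zero' (Eventually.of_forall (fun m => norm_nonneg _)) hdec' h1
  have hystep : ∀ m, y (m + 1) = Q.eval (y m) := fun m => Function.iterate_succ_apply' _ m b1
  have hafix : Q.eval a = a := by
    have h1 : Tendsto (fun m => y (m + 1)) atTop (𝓝 a) :=
      hylim.comp (tendsto_add_atTop_nat 1)
    have h2 : Tendsto (fun m => y (m + 1)) atTop (𝓝 (Q.eval a)) := by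
      have h3 := (Q.continuous.tendsto a).comp hylim
      refine h3.congr (fun m => ?_)
      rw [hystep]; rfl
    exact tendsto_nhds_unique h2 h1
  obtain ⟨k, h, hk, hha, hform⟩ := b2a_local hQ ha hafix
  have hc0 : 0 < ‖h.eval a‖ / 2 := by
    have := norm_pos_iff.2 hha
    linarith
  set c0 : ℝ := ‖h.eval a‖ / 2 with hc0def
  have hhlim : ∀ᶠ m in atTop, c0 ≤ ‖h.eval (y m)‖ := by
    have h1 : Tendsto (fun m => ‖h.eval (y m)‖) atTop (𝓝 ‖h.eval a‖) :=
      ((h.continuous.norm).tendsto a).comp hylim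
    exact h1.eventually (le_mem_nhds (by linarith))
  obtain ⟨m0, hm0⟩ := eventually_atTop.1 (hdec'.and hhlim)
  have hlogle : ∀ m, m0 ≤ m → ε * D ^ m ≤ - Real.log ‖y m - a‖ := by
    intro m hm
    have h1 := Real.log_le_log (norm_pos_iff.2 (hyne m)) (hm0 m hm).1
    rw [Real.log_exp] at h1
    linarith
  refine b2a_growth (E := D - 1) (D := D) (ε := ε * D ^ m0) (C' := |Real.log c0|)
    (s := fun j => - Real.log ‖y (m0 + j) - a‖) (by linarith) (by linarith) (by positivity)
    rfl (abs_nonneg _) (fun j => ?_) (fun j => ?_)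
  · have h1 : y (m0 + (j + 1)) - a = (y (m0 + j) - a) ^ k * h.eval (y (m0 + j)) := by
      rw [← hform, ← hystep]; rfl
    have h2 : 0 < ‖y (m0 + j) - a‖ := norm_pos_iff.2 (hyne _)
    have h3 : c0 ≤ ‖h.eval (y (m0 + j))‖ := (hm0 (m0 + j) (by omega)).2
    show - Real.log ‖y (m0 + (j + 1)) - a‖ ≤
      (D - 1) * (- Real.log ‖y (m0 + j) - a‖) + |Real.log c0|
    rw [h1, norm_mul, norm_pow, Real.log_mul (pow_ne_zero _ h2.ne') (by linarith), Real.log_pow]
    have h4 := Real.log_le_log hc0 h3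
    have h5 := neg_le_abs (Real.log c0)
    have h6 : 0 ≤ - Real.log ‖y (m0 + j) - a‖ :=
      le_trans (by positivity) (hlogle (m0 + j) (by omega))
    have h7 : (k : ℝ) ≤ D - 1 := by
      have : ((k + 1 : ℕ) : ℝ) ≤ D := by rw [hD]; exact_mod_cast hk
      push_cast at this
      linarith
    have h8 := mul_le_mul_of_nonneg_right h7 h6
    linarith
  · have h1 := hlogle (m0 + j) (by omega)
    show ε * D ^ m0 * D ^ j ≤ _
    rw [mul_assoc, ← pow_add]
    exact h1

end SkewBif
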