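import Pool.Agent.SK.B2a
/-! ## MP_9cfccf_an, module B2b -/
open Set Metric Filter Topology Polynomial
namespace SkewBif

theorem b2b_open {Q : ℂ[X]} (hQ : 2 ≤ Q.natDegree) : IsOpenMap (fun w => Q.eval w) := by
  have h : AnalyticOnNhd ℂ (fun w => Q.eval w) univ :=
    Q.differentiable.differentiableOn.analyticOnNhd isOpen_univ
  rcases h.is_constant_or_isOpenMap with ⟨w, hw⟩ | h
  · exfalso
    have : Q = C w := Polynomial.funext (fun z => by rw [eval_C]; exact hw z)
    rw [this, natDegree_C] at hQ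
    omega
  · exact h

theorem b2b_open_iterate {Q : ℂ[X]} (hQ : 2 ≤ Q.natDegree) (k : ℕ) :
    IsOpenMap (fun w => Q.eval w)^[k] := by
  induction k with
  | zero => exact IsOpenMap.id
  | succ k ih => exact ih.comp (b2b_open hQ)

theorem b2b_shrink {Q : ℂ[X]} {wb : ℂ} (hfix : Q.eval wb = wb)
    (hrep : 1 < ‖Q.derivative.eval wb‖) {r : ℝ} (hr : 0 < r) :
    ∃ r1, 0 < r1 ∧ r1 ≤ r ∧ ball wb r1 ⊆ (fun w => Q.eval w) '' ball wb r1 := by
  have hne : Q.derivative.eval wb ≠ 0 := by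
    intro h
    rw [h, norm_zero] at hrep
    linarith
  have hs : HasStrictDerivAt (fun w => Q.eval w) (Q.derivative.eval wb) wb := Q.hasStrictDerivAt wb
  obtain ⟨u, hu⟩ : ∃ u : ℂ → ℂ, u = hs.localInverse _ _ _ hne := ⟨_, rfl⟩
  have hright : ∀ᶠ x in 𝓝 wb, Q.eval (u x) = x := by
    have := hs.eventually_right_inverse hne
    rw [hfix, ← hu] at this
    exact this
  have hder : HasDerivAt u (Q.derivative.eval wb)⁻¹ wb := by
    have := (hs.to_localInverse hne).hasDerivAt
    rw [hfix, ← hu] at this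
    exact this
  have hu0 : u wb = wb := by
    have := (hs.eventually_left_inverse hne).self_of_nhds
    rw [hfix, ← hu] at this
    exact this
  have hinv : ‖(Q.derivative.eval wb)⁻¹‖ < 1 := by
    rw [norm_inv]
    exact inv_lt_one_of_one_lt₀ hrep
  have hlin := (hasDerivAt_iff_isLittleO.1 hder).def (sub_pos.2 hinv)
  obtain ⟨r0, hr0, hball⟩ := Metric.eventually_nhds_iff_ball.1 (hright.and hlin)
  refine ⟨min r0 r, lt_min hr0 hr, min_le_right _ _, fun w hw => ⟨u w, ?_, ?_⟩⟩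
  · have h1 := (hball w (ball_subset_ball (min_le_left _ _) hw)).2
    rw [hu0, smul_eq_mul] at h1
    rw [mem_ball, dist_eq_norm] at hw ⊢
    have h2 : u w - wb = (u w - wb - (w - wb) * (Q.derivative.eval wb)⁻¹) +
        (w - wb) * (Q.derivative.eval wb)⁻¹ := by ring
    have h3 : ‖u w - wb‖ ≤ ‖w - wb‖ := by
      rw [h2]
      refine (norm_add_le _ _).trans ?_
      rw [norm_mul]
      nlinarith [norm_nonneg (w - wb)]
    exact h3.trans_lt hw
  · exact (hball w (ball_subset_ball (min_le_left _ _) hw)).1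

/-- B2b. Compact version: `closedBall 0 R0 ⊆ Q^[k] '' ball wb r` for all `k ≥ k0`.
Proof: shrink `r` so that the local inverse `u` of `Q` at `wb` maps `ball wb r` into itself
(`‖u w - wb‖ ≤ θ ‖w - wb‖`); then `ball wb r ⊆ Q '' ball wb r`, the open sets
`Q^[k] '' ball wb r` increase with `k` and cover the compact `closedBall 0 R0` by B2a. -/
theorem onto_compact {Q : ℂ[X]} (hQ : 2 ≤ Q.natDegree) {wb : ℂ} (hfix : Q.eval wb = wb)
    (hrep : 1 < ‖Q.derivative.eval wb‖) (hexc : ∀ a, ¬ ExcAt Q a) {r : ℝ} (hr : 0 < r) (R0 : ℝ) :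
    ∃ k0 : ℕ, ∀ k ≥ k0, closedBall (0 : ℂ) R0 ⊆ (fun w => Q.eval w)^[k] '' ball wb r := by
  obtain ⟨r1, hr1, hr1r, hsub⟩ := b2b_shrink hfix hrep hr
  have hmono : Monotone (fun k : ℕ => (fun w => Q.eval w)^[k] '' ball wb r1) := by
    refine monotone_nat_of_le_succ (fun k => ?_)
    show (fun w => Q.eval w)^[k] '' ball wb r1 ⊆ (fun w => Q.eval w)^[k + 1] '' ball wb r1
    rw [Function.iterate_succ, image_comp]
    exact image_mono hsub
  obtain ⟨k0, hk0⟩ := (isCompact_closedBall (0 : ℂ) R0).elim_directed_cover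
    (fun k : ℕ => (fun w => Q.eval w)^[k] '' ball wb r1)
    (fun k => b2b_open_iterate hQ k _ isOpen_ball)
    (fun a _ => by
      obtain ⟨k, z, hz, hza⟩ := onto_point hQ hfix hrep (hexc a) hr1
      exact mem_iUnion.2 ⟨k, z, hz, hza⟩)
    hmono.directed_le
  refine ⟨k0, fun k hk => hk0.trans ((hmono hk).trans (image_mono (ball_subset_ball hr1r)))⟩

end SkewBif
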