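import Pool.Agent.SK.Defs
/-! ## MP_9cfccf_an, module C1a -/
open Set Metric Filter Topology Polynomial
namespace SkewBif

theorem qpoly_eval (d : ℕ) (b : Mon d → ℂ) (z w : ℂ) : (qpoly d b z).eval w = qv d b z w := by
  unfold qpoly qv
  rw [Polynomial.eval_finsetSum]
  refine Finset.sum_congr rfl fun m _ => ?_
  simp only [eval_mul, eval_C, eval_pow, eval_X]
  ring

/-- the top monomial -/
def C1a_top (d : ℕ) : Mon d := ⟨((0 : Fin (d + 1)), Fin.last d), by simp⟩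

theorem C1a_top_iff {d : ℕ} (m : Mon d) : (m.1.2 : ℕ) = d ↔ m = C1a_top d := by
  constructor
  · intro h
    have h2 := m.2
    apply Subtype.ext
    apply Prod.ext
    · apply Fin.ext
      show (m.1.1 : ℕ) = 0
      omega
    · apply Fin.ext
      show (m.1.2 : ℕ) = d
      exact h
  · rintro rfl
    rfl

theorem qpoly_natDegree {d : ℕ} {b : Mon d → ℂ} (hb : topCoef d b ≠ 0) (z : ℂ) :
    (qpoly d b z).natDegree = d := by
  apply natDegree_eq_of_le_of_coeff_ne_zero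
  · unfold qpoly
    refine natDegree_sum_le_of_forall_le _ _ fun m _ => ?_
    refine (natDegree_C_mul_X_pow_le _ _).trans ?_
    have h2 := m.2
    omega
  · unfold qpoly
    rw [finsetSum_coeff, Finset.sum_eq_single (C1a_top d)]
    · rw [coeff_C_mul_X_pow, if_pos ((C1a_top_iff (C1a_top d)).2 rfl).symm]
      have : ((C1a_top d).1.1 : ℕ) = 0 := rfl
      rw [this, pow_zero, mul_one]
      exact hb
    · intro m _ hm
      rw [coeff_C_mul_X_pow, if_neg]
      intro h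
      exact hm ((C1a_top_iff m).1 h.symm)
    · intro h
      exact absurd (Finset.mem_univ _) h

theorem qv_shift (d : ℕ) (b : Mon d → ℂ) (σ z w : ℂ) :
    qv d (shift d b σ) z w = qv d b z w + σ := by
  unfold qv shift
  simp only [add_mul, Finset.sum_add_distrib]
  congr 1
  rw [Finset.sum_eq_single (⟨(0, 0), by simp⟩ : Mon d)]
  · simp
  · intro m _ hm
    rw [if_neg, zero_mul]
    rintro ⟨h1, h2⟩
    apply hm
    apply Subtype.ext
    apply Prod.ext
    · exact Fin.ext h1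
    · exact Fin.ext h2
  · intro h
    exact absurd (Finset.mem_univ _) h

theorem topCoef_shift {d : ℕ} (hd : 1 ≤ d) (b : Mon d → ℂ) (σ : ℂ) :
    topCoef d (shift d b σ) = topCoef d b := by
  unfold topCoef shift
  rw [if_neg, add_zero]
  rintro ⟨_, h⟩
  have h2 : d = 0 := h
  omega

/-- Base coordinate of the iterates. -/
theorem sk_iter_fst (d : ℕ) (p : ℂ[X]) (b : Mon d → ℂ) (τ : ℂ) (M : ℕ) (v : X2) :
    ((sk d p b τ)^[M] v).1 = (pt p τ)^[M] v.1 := by
  induction M with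
  | zero => rfl
  | succ M ih =>
    rw [Function.iterate_succ_apply', Function.iterate_succ_apply', ← ih]
    rfl

/-- `fib` is a nonautonomous composition with the parameter `σ` added at each step. -/
theorem fib_eq_nac (d : ℕ) (p : ℂ[X]) (b : Mon d → ℂ) (τ σ : ℂ) (M : ℕ) (z w : ℂ) :
    fib d p (shift d b σ) τ M z w = nac (fun j => qpoly d b ((pt p τ)^[j] z)) σ M w := by
  induction M with
  | zero => rfl
  | succ M ih =>
    unfold fib at ih ⊢
    rw [Function.iterate_succ_apply']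
    show qv d (shift d b σ) ((sk d p (shift d b σ) τ)^[M] (z, w)).1
      ((sk d p (shift d b σ) τ)^[M] (z, w)).2 =
      (qpoly d b ((pt p τ)^[M] z)).eval (nac (fun j => qpoly d b ((pt p τ)^[j] z)) σ M w) + σ
    rw [qv_shift, qpoly_eval, ih, sk_iter_fst]

theorem fib_add (d : ℕ) (p : ℂ[X]) (b : Mon d → ℂ) (τ : ℂ) (M N : ℕ) (z w : ℂ) :
    fib d p b τ (M + N) z w = fib d p b τ N ((pt p τ)^[M] z) (fib d p b τ M z w) := by
  unfold fib
  rw [Nat.add_comm, Function.iterate_add_apply]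
  have h : (sk d p b τ)^[M] (z, w) = ((pt p τ)^[M] z, ((sk d p b τ)^[M] (z, w)).2) := by
    apply Prod.ext
    · exact sk_iter_fst d p b τ M (z, w)
    · rfl
  rw [← h]

theorem C1a_hasDerivAt_pt (p : ℂ[X]) (τ z : ℂ) : HasDerivAt (pt p τ) (p.derivative.eval z) z :=
  (p.hasDerivAt z).add_const τ

theorem C1a_hasDerivAt_iter (p : ℂ[X]) (τ : ℂ) (M : ℕ) (z : ℂ) :
    HasDerivAt ((pt p τ)^[M]) (∏ i ∈ Finset.range M, p.derivative.eval ((pt p τ)^[i] z)) z := by
  induction M with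
  | zero =>
    simp only [Function.iterate_zero, Finset.range_zero, Finset.prod_empty]
    exact hasDerivAt_id z
  | succ M ih =>
    rw [Function.iterate_succ', Finset.prod_range_succ, mul_comm]
    exact (C1a_hasDerivAt_pt p τ _).comp z ih

/-- Chain rule for the base. -/
theorem deriv_pt_iter (p : ℂ[X]) (τ : ℂ) (M : ℕ) (z : ℂ) :
    deriv ((pt p τ)^[M]) z = ∏ i ∈ Finset.range M, p.derivative.eval ((pt p τ)^[i] z) :=
  (C1a_hasDerivAt_iter p τ M z).deriv

/-- Uniform escape radius for the fibers over a bounded set of base points. -/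
theorem fiber_escape {d : ℕ} (hd : 2 ≤ d) {b : Mon d → ℂ} (hb : topCoef d b ≠ 0) (Z0 : ℝ) :
    ∃ R0 : ℝ, 1 ≤ R0 ∧ ∀ z : ℂ, ‖z‖ ≤ Z0 → ∀ w : ℂ, R0 ≤ ‖w‖ → 2 * ‖w‖ ≤ ‖qv d b z w‖ := by
  classical
  set Z : ℝ := max 1 Z0 with hZ
  set S : ℝ := ∑ m : Mon d, ‖b m‖ * Z ^ d with hS
  have hZ1 : 1 ≤ Z := le_max_left _ _
  have hS0 : 0 ≤ S := Finset.sum_nonneg fun m _ => by positivity
  have ht : 0 < ‖topCoef d b‖ := norm_pos_iff.2 hb
  refine ⟨max 1 ((S + 2) / ‖topCoef d b‖), le_max_left _ _, fun z hz w hw => ?_⟩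
  have hw1 : 1 ≤ ‖w‖ := (le_max_left _ _).trans hw
  have hw2 : S + 2 ≤ ‖topCoef d b‖ * ‖w‖ := by
    have := (le_max_right _ _).trans hw
    rw [div_le_iff₀ ht] at this
    linarith
  have hsplit : qv d b z w = topCoef d b * w ^ d +
      ∑ m ∈ Finset.univ.erase (C1a_top d), b m * (z ^ (m.1.1 : ℕ) * w ^ (m.1.2 : ℕ)) := by
    unfold qv
    rw [← Finset.add_sum_erase _ _ (Finset.mem_univ (C1a_top d))]
    congr 1
    show b (C1a_top d) * (z ^ 0 * w ^ d) = _
    rw [pow_zero, one_mul]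
    rfl
  have hrest : ‖∑ m ∈ Finset.univ.erase (C1a_top d), b m * (z ^ (m.1.1 : ℕ) * w ^ (m.1.2 : ℕ))‖ ≤
      S * ‖w‖ ^ (d - 1) := by
    refine (norm_sum_le _ _).trans ?_
    rw [hS, Finset.sum_mul]
    refine (Finset.sum_le_sum fun m hm => ?_).trans
      (Finset.sum_le_sum_of_subset_of_nonneg (Finset.erase_subset _ _)
        fun m _ _ => by positivity)
    rw [norm_mul, norm_mul, norm_pow, norm_pow, mul_assoc]
    have hm' : m ≠ C1a_top d := (Finset.mem_erase.1 hm).1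
    have h2 := m.2
    have h3 : (m.1.2 : ℕ) ≠ d := fun h => hm' ((C1a_top_iff m).1 h)
    refine mul_le_mul_of_nonneg_left ?_ (norm_nonneg _)
    refine mul_le_mul ?_ (pow_le_pow_right₀ hw1 (by omega)) (by positivity) (by positivity)
    calc ‖z‖ ^ (m.1.1 : ℕ) ≤ Z ^ (m.1.1 : ℕ) :=
          pow_le_pow_left₀ (norm_nonneg _) (hz.trans (le_max_right _ _)) _
      _ ≤ Z ^ d := pow_le_pow_right₀ hZ1 (by omega)
  have h1 : ‖topCoef d b‖ * ‖w‖ ^ d - S * ‖w‖ ^ (d - 1) ≤ ‖qv d b z w‖ := by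
    rw [hsplit]
    have h := norm_sub_le_norm_add (topCoef d b * w ^ d)
      (∑ m ∈ Finset.univ.erase (C1a_top d), b m * (z ^ (m.1.1 : ℕ) * w ^ (m.1.2 : ℕ)))
    rw [norm_mul, norm_pow] at h
    linarith
  have h2 : ‖w‖ ^ d = ‖w‖ ^ (d - 1) * ‖w‖ := by
    rw [← pow_succ]
    congr 1
    omega
  have h3 : ‖w‖ ≤ ‖w‖ ^ (d - 1) := by
    calc ‖w‖ = ‖w‖ ^ 1 := (pow_one _).symm
      _ ≤ ‖w‖ ^ (d - 1) := pow_le_pow_right₀ hw1 (by omega)
  calc 2 * ‖w‖ ≤ 2 * ‖w‖ ^ (d - 1) := by linarith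
    _ ≤ (‖topCoef d b‖ * ‖w‖ - S) * ‖w‖ ^ (d - 1) :=
        mul_le_mul_of_nonneg_right (by linarith) (by positivity)
    _ = ‖topCoef d b‖ * ‖w‖ ^ d - S * ‖w‖ ^ (d - 1) := by rw [h2]; ring
    _ ≤ _ := h1

end SkewBif
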