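import Pool.Agent.SK.C1a
/-! ## MP_9cfccf_an, module C1b -/
open Set Metric Filter Topology Polynomial
namespace SkewBif

theorem C1b_fib_succ (d : ℕ) (p : ℂ[X]) (b : Mon d → ℂ) (τ : ℂ) (M : ℕ) (z w : ℂ) :
    fib d p b τ (M + 1) z w = (qpoly d b ((pt p τ)^[M] z)).eval (fib d p b τ M z w) := by
  rw [qpoly_eval, fib_add]
  rfl

/-- C1. Fiber compositions of length `M` are polynomials of degree `d ^ M`. -/
theorem fib_poly {d : ℕ} (hd : 2 ≤ d) (p : ℂ[X]) {b : Mon d → ℂ} (hb : topCoef d b ≠ 0)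
    (τ : ℂ) (M : ℕ) (z : ℂ) :
    ∃ Q : ℂ[X], Q.natDegree = d ^ M ∧ ∀ w, fib d p b τ M z w = Q.eval w := by
  induction M with
  | zero =>
    refine ⟨X, by simp, fun w => ?_⟩
    rw [eval_X]
    rfl
  | succ M ih =>
    obtain ⟨Q, h1, h2⟩ := ih
    refine ⟨(qpoly d b ((pt p τ)^[M] z)).comp Q, ?_, fun w => ?_⟩
    · rw [natDegree_comp, qpoly_natDegree hb, h1, pow_succ']
    · rw [C1b_fib_succ, h2, eval_comp]

theorem C1b_drift_succ (d : ℕ) (p : ℂ[X]) (b : Mon d → ℂ) (τ : ℂ) (M : ℕ) (z w : ℂ) :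
    drift d p b τ (M + 1) z w =
      p.derivative.eval ((pt p τ)^[M] z) * drift d p b τ M z w + fib d p b τ M z w := by
  unfold drift
  rw [Finset.sum_range_succ, Finset.Ico_self, Finset.prod_empty, one_mul, Finset.mul_sum]
  congr 1
  refine Finset.sum_congr rfl fun j hj => ?_
  have hj' : j < M := Finset.mem_range.1 hj
  rw [Finset.prod_Ico_succ_top (by omega)]
  ring

/-- The drift of length `M ≥ 1` is a polynomial of degree `d ^ (M - 1)` (the last term
`fib (M - 1)` has coefficient `1`). -/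
theorem drift_poly {d : ℕ} (hd : 2 ≤ d) (p : ℂ[X]) {b : Mon d → ℂ} (hb : topCoef d b ≠ 0)
    (τ : ℂ) {M : ℕ} (hM : 1 ≤ M) (z : ℂ) :
    ∃ S : ℂ[X], S.natDegree = d ^ (M - 1) ∧ ∀ w, drift d p b τ M z w = S.eval w := by
  induction M, hM using Nat.le_induction with
  | base =>
    refine ⟨X, by simp, fun w => ?_⟩
    rw [C1b_drift_succ, eval_X]
    unfold drift
    rw [Finset.range_zero, Finset.sum_empty, mul_zero, zero_add]
    rfl
  | succ M hM ih =>
    obtain ⟨S, h1, h2⟩ := ih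
    obtain ⟨Q, h3, h4⟩ := fib_poly hd p hb τ M z
    refine ⟨C (p.derivative.eval ((pt p τ)^[M] z)) * S + Q, ?_, fun w => ?_⟩
    · rw [natDegree_add_eq_right_of_natDegree_lt, h3, Nat.add_sub_cancel]
      refine lt_of_le_of_lt (natDegree_C_mul_le _ _) ?_
      rw [h1, h3]
      exact Nat.pow_lt_pow_right (by omega) (by omega)
    · rw [C1b_drift_succ, h2, h4]
      simp only [eval_add, eval_mul, eval_C]

/-- Drift of a concatenation. -/
theorem drift_add (d : ℕ) (p : ℂ[X]) (b : Mon d → ℂ) (τ : ℂ) (M N : ℕ) (z w : ℂ) :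
    drift d p b τ (M + N) z w =
      (∏ i ∈ Finset.range N, p.derivative.eval ((pt p τ)^[i] ((pt p τ)^[M] z))) *
        drift d p b τ M z w + drift d p b τ N ((pt p τ)^[M] z) (fib d p b τ M z w) := by
  induction N with
  | zero =>
    simp [drift]
  | succ N ih =>
    rw [← add_assoc, C1b_drift_succ, ih, C1b_drift_succ, Finset.prod_range_succ, fib_add,
      Nat.add_comm M N, Function.iterate_add_apply]
    ring

end SkewBif
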