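import Pool.Agent.SK.C1b
import Pool.Agent.SK.B5
import Pool.Agent.SK.B8
/-! ## MP_9cfccf_an, module C2 -/
open Set Metric Filter Topology Polynomial
namespace SkewBif

/-- C2. For all but finitely many `σ` the return map of the fiber has a repelling fixed point.
Proof: `fib_eq_nac` and B5 with `μ = 1`: for all but finitely many `σ` all fixed points are simple;
then B8c. -/
theorem fiber_repelling {d : ℕ} (hd : 2 ≤ d) (p : ℂ[X]) {b : Mon d → ℂ} (hb : topCoef d b ≠ 0)
    {n : ℕ} (hn : 1 ≤ n) (x : ℂ) :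
    {σ : ℂ | ¬ ∃ w, fib d p (shift d b σ) 0 n x w = w ∧
      1 < ‖deriv (fib d p (shift d b σ) 0 n x) w‖}.Finite := by
  have h := finite_multiplier (q := fun j => qpoly d b ((pt p 0)^[j] x)) hd
    (fun j => qpoly_natDegree hb _) hn 1
  refine h.subset fun σ hσ => ?_
  by_contra hcon
  apply hσ
  have hb' : topCoef d (shift d b σ) ≠ 0 := by
    rw [topCoef_shift (by omega)]
    exact hb
  obtain ⟨Q, hQ1, hQ2⟩ := fib_poly hd p hb' 0 n x
  have hfun : fib d p (shift d b σ) 0 n x = fun w => Q.eval w := funext hQ2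
  have hnac : nac (fun j => qpoly d b ((pt p 0)^[j] x)) σ n = fun w => Q.eval w := by
    funext w
    rw [← hQ2, fib_eq_nac]
  have hder : ∀ w, deriv (fun w => Q.eval w) w = Q.derivative.eval w := fun w => Q.deriv
  have hdeg : 2 ≤ Q.natDegree := by
    rw [hQ1]
    calc 2 ≤ d := hd
      _ = d ^ 1 := (pow_one d).symm
      _ ≤ d ^ n := Nat.pow_le_pow_right (by omega) hn
  obtain ⟨z, hz1, hz2⟩ := exists_repelling hdeg (fun z hz hz' => hcon ⟨z, by
    rw [hnac]
    exact ⟨hz, by rw [hder]; exact hz'⟩⟩)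
  refine ⟨z, ?_⟩
  rw [hfun, hder]
  exact ⟨hz1, hz2⟩

end SkewBif
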