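import Pool.Agent.SK.C1b
import Pool.Agent.SK.B6
/-! ## MP_9cfccf_an, module C3 -/
open Set Metric Filter Topology Polynomial
namespace SkewBif

/-- C3. For all but finitely many `σ` the return map of the fiber is nowhere exceptional.
Proof: if `Q = a + c (X - a)^D` then all critical points of `Q` equal `a`; a critical point `a0` of the
first map `q(x, ·)` (independent of `σ`) is critical for `Q`, so `a = a0` and `Q a0 = a0`:
`fib n x a0 = a0` is a nonconstant polynomial equation in `σ` (B6'); finitely many `a0`. -/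
theorem fiber_nonexc {d : ℕ} (hd : 2 ≤ d) (p : ℂ[X]) {b : Mon d → ℂ} (hb : topCoef d b ≠ 0)
    {n : ℕ} (hn : 1 ≤ n) (x : ℂ) :
    {σ : ℂ | ∃ Q : ℂ[X], (∀ w, fib d p (shift d b σ) 0 n x w = Q.eval w) ∧
      ∃ a, ExcAt Q a}.Finite := by
  -- a critical point of the first map
  obtain ⟨a0, ha0⟩ : ∃ a0, (qpoly d b x).derivative.eval a0 = 0 := by
    have h1 := degree_derivative (p := qpoly d b x) (by rw [qpoly_natDegree hb]; omega)
    rw [qpoly_natDegree hb] at h1
    have h2 : (qpoly d b x).derivative.degree ≠ 0 := by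
      rw [h1]
      intro h
      have h3 : d - 1 = 0 := by exact_mod_cast h
      omega
    exact IsAlgClosed.exists_root _ h2
  have hfin := finite_relation (q := fun j => qpoly d b ((pt p 0)^[j] x)) hd
    (fun j => qpoly_natDegree hb _) 0 hn a0
  refine hfin.subset ?_
  rintro σ ⟨Q, hQ, a, c, hc⟩
  have hb' : topCoef d (shift d b σ) ≠ 0 := by
    rw [topCoef_shift (by omega)]
    exact hb
  -- degree of `Q`
  obtain ⟨Q', hQ1, hQ2⟩ := fib_poly hd p hb' 0 n x
  have hQQ : Q = Q' := Polynomial.funext fun w => by rw [← hQ, hQ2]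
  have hdeg : 2 ≤ Q.natDegree := by
    rw [hQQ, hQ1]
    calc 2 ≤ d := hd
      _ = d ^ 1 := (pow_one d).symm
      _ ≤ d ^ n := Nat.pow_le_pow_right (by omega) hn
  have hc0 : c ≠ 0 := by
    rintro rfl
    rw [C_0, zero_mul, add_zero] at hc
    rw [hc, natDegree_C] at hdeg
    omega
  -- `a0` is critical for `Q`
  obtain ⟨m, rfl⟩ : ∃ m, n = 1 + m := ⟨n - 1, by omega⟩
  obtain ⟨P, _, hP2⟩ := fib_poly hd p hb' 0 m ((pt p 0)^[1] x)
  have hcomp : Q = P.comp (qpoly d b x + C σ) := by
    apply Polynomial.funext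
    intro w
    rw [← hQ, fib_add, hP2, eval_comp, eval_add, eval_C, qpoly_eval, ← qv_shift]
    rfl
  have hcrit : Q.derivative.eval a0 = 0 := by
    rw [hcomp, derivative_comp, eval_mul, derivative_add, derivative_C, add_zero, ha0, zero_mul]
  have ha : a0 = a := by
    have h1 : Q.derivative.eval a0 = c * (Q.natDegree * (a0 - a) ^ (Q.natDegree - 1)) := by
      have h2 : Q.derivative = C c * (C (Q.natDegree : ℂ) * (X - C a) ^ (Q.natDegree - 1)) := by
        conv_lhs => rw [hc]
        rw [derivative_add, derivative_C, zero_add, derivative_C_mul, derivative_X_sub_C_pow]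
      rw [h2]
      simp only [eval_mul, eval_C, eval_pow, eval_sub, eval_X]
    rw [h1] at hcrit
    rcases mul_eq_zero.1 hcrit with h | h
    · exact absurd h hc0
    · rcases mul_eq_zero.1 h with h | h
      · rw [Nat.cast_eq_zero] at h
        omega
      · exact sub_eq_zero.1 (pow_eq_zero_iff (by omega) |>.1 h)
  show nac (fun j => qpoly d b ((pt p 0)^[j] x)) σ (0 + (1 + m)) a0 = a0
  rw [zero_add, ← fib_eq_nac, hQ]
  have h3 : Q.eval a0 = a + c * (a0 - a) ^ Q.natDegree := by
    conv_lhs => rw [hc]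
    simp only [eval_add, eval_C, eval_mul, eval_pow, eval_sub, eval_X]
  rw [h3, ha, sub_self, zero_pow (by omega), mul_zero, add_zero]

end SkewBif
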