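import Pool.Agent.SK.C1b
import Pool.Agent.SK.B6
/-! ## MP_9cfccf_an, module C4 -/
open Set Metric Filter Topology Polynomial
namespace SkewBif

theorem C4_hasDerivAt (d : ℕ) (p : ℂ[X]) (b : Mon d → ℂ) (τ : ℂ) (M : ℕ) (z w : ℂ) :
    HasDerivAt (fib d p b τ M z) (∏ j ∈ Finset.range M,
      (qpoly d b ((pt p τ)^[j] z)).derivative.eval (fib d p b τ j z w)) w := by
  induction M with
  | zero =>
    rw [Finset.range_zero, Finset.prod_empty]
    have h : fib d p b τ 0 z = id := rfl
    rw [h]
    exact hasDerivAt_id w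
  | succ M ih =>
    have h : fib d p b τ (M + 1) z = (fun v => (qpoly d b ((pt p τ)^[M] z)).eval v) ∘
        (fib d p b τ M z) := funext fun v => C1b_fib_succ d p b τ M z v
    rw [h, Finset.prod_range_succ, mul_comm]
    exact ((qpoly d b ((pt p τ)^[M] z)).hasDerivAt _).comp w ih

theorem C4_preim {p : ℂ[X]} (hp : 1 ≤ p.natDegree) (k : ℕ) (x : ℂ) :
    {z | (pt p 0)^[k] z = x}.Countable := by
  have h : ∃ P : ℂ[X], P.natDegree = p.natDegree ^ k ∧ ∀ z, (pt p 0)^[k] z = P.eval z := by
    induction k with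
    | zero => exact ⟨X, by simp, fun z => by simp⟩
    | succ k ih =>
      obtain ⟨P, h1, h2⟩ := ih
      refine ⟨p.comp P, ?_, fun z => ?_⟩
      · rw [natDegree_comp, h1, pow_succ']
      · rw [Function.iterate_succ_apply', h2, eval_comp]
        show p.eval (P.eval z) + 0 = _
        rw [add_zero]
  obtain ⟨P, h1, h2⟩ := h
  have hdeg : 1 ≤ P.natDegree := by
    rw [h1]
    exact Nat.one_le_pow _ _ hp
  have hne : P - C x ≠ 0 := by
    intro h
    rw [sub_eq_zero.1 h, natDegree_C] at hdeg
    omega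
  refine ((P - C x).roots.toFinset.finite_toSet.subset fun z hz => ?_).countable
  have hz' : (pt p 0)^[k] z = x := hz
  simp only [Finset.mem_coe, Multiset.mem_toFinset]
  rw [mem_roots hne]
  show (P - C x).eval z = 0
  rw [eval_sub, eval_C, ← h2, hz', sub_self]

theorem C4_crit {d : ℕ} (hd : 2 ≤ d) {b : Mon d → ℂ} (hb : topCoef d b ≠ 0) (z : ℂ) :
    {w | (qpoly d b z).derivative.eval w = 0}.Countable := by
  have h1 := degree_derivative (p := qpoly d b z) (by rw [qpoly_natDegree hb]; omega)
  have hne : (qpoly d b z).derivative ≠ 0 := by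
    intro h
    rw [h, degree_zero] at h1
    exact absurd h1.symm (WithBot.coe_ne_bot)
  refine ((qpoly d b z).derivative.roots.toFinset.finite_toSet.subset fun w hw => ?_).countable
  simp only [Finset.mem_coe, Multiset.mem_toFinset]
  rw [mem_roots hne]
  exact hw

theorem C4_qpoly_shift (d : ℕ) (b : Mon d → ℂ) (σ z : ℂ) :
    qpoly d (shift d b σ) z = qpoly d b z + C σ := by
  apply Polynomial.funext
  intro w
  rw [qpoly_eval, qv_shift, eval_add, eval_C, qpoly_eval]

/-- C4. For all but countably many `σ` no fiber critical orbit over the backward orbit of `x` lands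
on a fixed point of the return map over `x`.
Proof: if `deriv (fib k z) w = 0` then (chain rule) for some `j < k` the point
`w_j = fib j z w` is a critical point of `q(z_j, ·)`, `z_j = p^[j] z`: one of finitely many points
`w*` not depending on `σ`. The value `fib k z w = fib (k - j) z_j w*` satisfies
`fib (k - j + n) z_j w* = fib (k - j) z_j w*`, which holds for finitely many `σ` only by B6
(`finite_relation`, nonautonomous, `k - j ≥ 1`). The set of `(k, z, j, w*)` is countable
(`p^[k] z = x` has finitely many solutions). -/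
theorem gen_sigma {d : ℕ} (hd : 2 ≤ d) {p : ℂ[X]} (hp : 1 ≤ p.natDegree) {b : Mon d → ℂ}
    (hb : topCoef d b ≠ 0) {n : ℕ} (hn : 1 ≤ n) {x : ℂ} (hx : (pt p 0)^[n] x = x) :
    {σ : ℂ | ∃ k ≥ 1, ∃ z, (pt p 0)^[k] z = x ∧ ∃ w,
      fib d p (shift d b σ) 0 n x (fib d p (shift d b σ) 0 k z w)
        = fib d p (shift d b σ) 0 k z w ∧
      deriv (fib d p (shift d b σ) 0 k z) w = 0}.Countable := by
  have hcount : (⋃ (k : ℕ), ⋃ (j : ℕ), ⋃ z ∈ {z | (pt p 0)^[k] z = x},
      ⋃ ws ∈ {w | (qpoly d b ((pt p 0)^[j] z)).derivative.eval w = 0},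
      {σ : ℂ | nac (fun i => qpoly d b ((pt p 0)^[i] ((pt p 0)^[j] z))) σ (k - j + n) ws =
        nac (fun i => qpoly d b ((pt p 0)^[i] ((pt p 0)^[j] z))) σ (k - j) ws}).Countable := by
    refine Set.countable_iUnion fun k => Set.countable_iUnion fun j => ?_
    refine (C4_preim hp k x).biUnion fun z _ => ?_
    refine (C4_crit hd hb _).biUnion fun ws _ => ?_
    exact (finite_relation hd (fun i => qpoly_natDegree hb _) (k - j) hn ws).countable
  refine hcount.mono ?_
  rintro σ ⟨k, hk, z, hz, w, h1, h2⟩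
  rw [(C4_hasDerivAt d p (shift d b σ) 0 k z w).deriv, Finset.prod_eq_zero_iff] at h2
  obtain ⟨j, hj, h3⟩ := h2
  have hjk : j < k := Finset.mem_range.1 hj
  simp only [Set.mem_iUnion]
  refine ⟨k, j, z, hz, fib d p (shift d b σ) 0 j z w, ?_, ?_⟩
  · show (qpoly d b ((pt p 0)^[j] z)).derivative.eval _ = 0
    rw [C4_qpoly_shift, derivative_add, derivative_C, add_zero] at h3
    exact h3
  · show nac (fun i => qpoly d b ((pt p 0)^[i] ((pt p 0)^[j] z))) σ (k - j + n) _ =
      nac (fun i => qpoly d b ((pt p 0)^[i] ((pt p 0)^[j] z))) σ (k - j) _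
    rw [← fib_eq_nac, ← fib_eq_nac]
    have e1 : fib d p (shift d b σ) 0 (k - j) ((pt p 0)^[j] z) (fib d p (shift d b σ) 0 j z w) =
        fib d p (shift d b σ) 0 k z w := by
      rw [← fib_add]
      congr 1
      omega
    have e2 : (pt p 0)^[k - j] ((pt p 0)^[j] z) = x := by
      rw [← Function.iterate_add_apply, Nat.sub_add_cancel hjk.le]
      exact hz
    rw [fib_add d p (shift d b σ) 0 (k - j) n, e1, e2]
    exact h1

end SkewBif
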