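import Pool.Agent.SK.Defs
/-! ## MP_9cfccf_an, module C5 -/
open Set Metric Filter Topology Polynomial
namespace SkewBif

/-- local inverse of an entire function -/
theorem C5_inv {f : ℂ → ℂ} (hf : Differentiable ℂ f) {a : ℂ} (ha : deriv f a ≠ 0) :
    ∃ v : ℂ → ℂ, v (f a) = a ∧ (∀ᶠ w in 𝓝 (f a), f (v w) = w) ∧ AnalyticAt ℂ v (f a) ∧
      deriv v (f a) = (deriv f a)⁻¹ := by
  have hs : AnalyticAt ℂ f a := hf.analyticAt a
  refine ⟨hs.hasStrictDerivAt.localInverse _ _ _ ha, ?_, ?_, hs.analyticAt_localInverse ha, ?_⟩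
  · exact HasStrictFDerivAt.localInverse_apply_image _
  · exact hs.hasStrictDerivAt.eventually_right_inverse ha
  · exact (hs.hasStrictDerivAt.to_localInverse ha).hasDerivAt.deriv

theorem FibLin.u_le {Q S : ℂ → ℂ} {lam wb : ℂ} {R θ : ℝ} {u A : ℂ → ℂ}
    (h : FibLin Q S lam wb R θ u A) {w : ℂ} (hw : w ∈ ball wb R) :
    ‖u w - wb‖ ≤ θ * ‖w - wb‖ := by
  have h1 := (convex_ball wb R).norm_image_sub_le_of_norm_deriv_le (𝕜 := ℂ) (f := u) (C := θ)
    (fun x hx => (h.u_diff x hx).differentiableAt (isOpen_ball.mem_nhds hx)) h.u_der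
    (mem_ball_self h.Rpos) hw
  rwa [h.u_fix] at h1

theorem C5_mem {wb : ℂ} {R θ : ℝ} {u : ℂ → ℂ} (hθ1 : θ ≤ 1)
    (hu : ∀ w ∈ ball wb R, ‖u w - wb‖ ≤ θ * ‖w - wb‖) {w : ℂ} (hw : w ∈ ball wb R) :
    u w ∈ ball wb R := by
  rw [mem_ball, dist_eq_norm] at hw ⊢
  refine lt_of_le_of_lt ((hu w (by rw [mem_ball, dist_eq_norm]; exact hw)).trans ?_) hw
  nlinarith [norm_nonneg (w - wb)]

theorem C5_iter {wb : ℂ} {R θ : ℝ} {u : ℂ → ℂ} (hθ0 : 0 ≤ θ) (hθ1 : θ ≤ 1)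
    (hu : ∀ w ∈ ball wb R, ‖u w - wb‖ ≤ θ * ‖w - wb‖) {w : ℂ} (hw : w ∈ ball wb R) (k : ℕ) :
    u^[k] w ∈ ball wb R ∧ ‖u^[k] w - wb‖ ≤ θ ^ k * ‖w - wb‖ := by
  induction k with
  | zero => exact ⟨hw, by simp⟩
  | succ k ih =>
    rw [Function.iterate_succ_apply']
    refine ⟨C5_mem hθ1 hu ih.1, (hu _ ih.1).trans ?_⟩
    calc θ * ‖u^[k] w - wb‖ ≤ θ * (θ ^ k * ‖w - wb‖) := mul_le_mul_of_nonneg_left ih.2 hθ0
      _ = θ ^ (k + 1) * ‖w - wb‖ := by ring

theorem C5_diff {wb : ℂ} {R θ : ℝ} {u : ℂ → ℂ} (hθ0 : 0 ≤ θ) (hθ1 : θ ≤ 1)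
    (hd : DifferentiableOn ℂ u (ball wb R))
    (hu : ∀ w ∈ ball wb R, ‖u w - wb‖ ≤ θ * ‖w - wb‖) (k : ℕ) :
    DifferentiableOn ℂ (u^[k]) (ball wb R) := by
  induction k with
  | zero => exact differentiableOn_id
  | succ k ih =>
    rw [Function.iterate_succ']
    exact hd.comp ih (fun w hw => (C5_iter hθ0 hθ1 hu hw k).1)

/-- C5. Existence. Proof: inverse function theorem for `u`; choose `θ` with
`1/‖Q' wb‖ < θ < 1` and `‖lam‖ θ < 1`, `R` small;
`A w = S wb / (1 - lam) + ∑_{k ≥ 0} lam^k (S (u^[k+1] w) - S wb)`: the series converges uniformly on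
`ball wb R` as `‖S (u^[k+1] w) - S wb‖ ≤ C θ^(k+1) R` and `‖lam‖ θ < 1`. -/
theorem exists_fibLin {Q S : ℂ → ℂ} (hQ : Differentiable ℂ Q) (hS : Differentiable ℂ S)
    {lam wb : ℂ} (hfix : Q wb = wb) (h1 : 1 < ‖deriv Q wb‖) (hlam : ‖lam‖ < ‖deriv Q wb‖)
    (hlam1 : lam ≠ 1) {R0 : ℝ} (hR0 : 0 < R0) :
    ∃ (R θ : ℝ) (u A : ℂ → ℂ), R ≤ R0 ∧ ‖lam‖ * θ < 1 ∧ FibLin Q S lam wb R θ u A := by
  obtain ⟨t, ht1, ht2⟩ := exists_between (max_lt h1 hlam)
  have ht0 : 1 < t := (le_max_left _ _).trans_lt ht1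
  have htl : ‖lam‖ < t := (le_max_right _ _).trans_lt ht1
  set θ : ℝ := t⁻¹ with hθ
  have hθ0 : 0 < θ := inv_pos.2 (by linarith)
  have hθ1 : θ < 1 := inv_lt_one_of_one_lt₀ ht0
  have hlθ : ‖lam‖ * θ < 1 := by
    rw [hθ, ← div_eq_mul_inv, div_lt_one (by linarith)]
    exact htl
  have hQ0 : deriv Q wb ≠ 0 := by
    intro h0
    rw [h0, norm_zero] at h1
    linarith
  obtain ⟨u, hu1, hu2, hu3, hu4⟩ := C5_inv hQ hQ0
  rw [hfix] at hu1 hu2 hu3 hu4
  have hder : ∀ᶠ w in 𝓝 wb, ‖deriv u w‖ ≤ θ := by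
    have h2 : ContinuousAt (fun w => ‖deriv u w‖) wb := hu3.deriv.continuousAt.norm
    have h3 : ‖deriv u wb‖ < θ := by
      rw [hu4, norm_inv, hθ]
      exact inv_strictAnti₀ (by linarith) ht2
    filter_upwards [h2.eventually_lt continuousAt_const h3] with w hw
    exact hw.le
  have hdiff : ∀ᶠ w in 𝓝 wb, DifferentiableAt ℂ u w := by
    filter_upwards [hu3.eventually_analyticAt] with w hw
    exact hw.differentiableAt
  obtain ⟨R1, hR1, hR1'⟩ := Metric.eventually_nhds_iff_ball.1 (hder.and (hdiff.and hu2))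
  set R : ℝ := min R0 R1 with hR
  have hRpos : 0 < R := lt_min hR0 hR1
  have hball : ∀ w ∈ ball wb R, ‖deriv u w‖ ≤ θ ∧ DifferentiableAt ℂ u w ∧ Q (u w) = w := by
    intro w hw
    exact hR1' w (ball_subset_ball (min_le_right _ _) hw)
  have hud : DifferentiableOn ℂ u (ball wb R) := fun w hw => (hball w hw).2.1.differentiableWithinAt
  have hule : ∀ w ∈ ball wb R, ‖u w - wb‖ ≤ θ * ‖w - wb‖ := by
    intro w hw
    have h2 := (convex_ball wb R).norm_image_sub_le_of_norm_deriv_le (𝕜 := ℂ) (f := u) (C := θ)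
      (fun x hx => (hball x hx).2.1) (fun x hx => (hball x hx).1) (mem_ball_self hRpos) hw
    rwa [hu1] at h2
  -- Lipschitz constant of `S`
  obtain ⟨C, hC0, hC⟩ : ∃ C : ℝ, 0 ≤ C ∧ ∀ w ∈ ball wb R, ‖S w - S wb‖ ≤ C * ‖w - wb‖ := by
    have hcont : Continuous (deriv S) := (hS.contDiff (n := 1)).continuous_deriv le_rfl
    obtain ⟨C, hC⟩ := (isCompact_closedBall wb R).exists_bound_of_continuousOn hcont.continuousOn
    refine ⟨max C 0, le_max_right _ _, fun w hw => ?_⟩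
    exact (convex_ball wb R).norm_image_sub_le_of_norm_deriv_le (𝕜 := ℂ) (f := S)
      (fun x hx => hS x) (fun x hx => (hC x (ball_subset_closedBall hx)).trans (le_max_left _ _))
      (mem_ball_self hRpos) hw
  set F : ℕ → ℂ → ℂ := fun k w => lam ^ k * (S (u^[k + 1] w) - S wb) with hF
  have hFle : ∀ (k : ℕ) (w : ℂ), w ∈ ball wb R → ‖F k w‖ ≤ C * θ * R * (‖lam‖ * θ) ^ k := by
    intro k w hw
    obtain ⟨h2, h3⟩ := C5_iter hθ0.le hθ1.le hule hw (k + 1)
    have hwR : ‖w - wb‖ ≤ R := by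
      rw [mem_ball, dist_eq_norm] at hw
      exact hw.le
    rw [hF]
    simp only
    rw [norm_mul, norm_pow]
    calc ‖lam‖ ^ k * ‖S (u^[k + 1] w) - S wb‖
        ≤ ‖lam‖ ^ k * (C * (θ ^ (k + 1) * R)) := by
          refine mul_le_mul_of_nonneg_left ((hC _ h2).trans ?_) (pow_nonneg (norm_nonneg _) _)
          refine mul_le_mul_of_nonneg_left (h3.trans ?_) hC0
          exact mul_le_mul_of_nonneg_left hwR (pow_nonneg hθ0.le _)
      _ = C * θ * R * (‖lam‖ * θ) ^ k := by ring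
  have hsum : Summable (fun k : ℕ => C * θ * R * (‖lam‖ * θ) ^ k) :=
    (summable_geometric_of_lt_one (mul_nonneg (norm_nonneg _) hθ0.le) hlθ).mul_left _
  have hFd : ∀ k, DifferentiableOn ℂ (F k) (ball wb R) := by
    intro k
    have h2 := C5_diff hθ0.le hθ1.le hud hule (k + 1)
    exact ((hS.comp_differentiableOn h2).sub_const _).const_mul _
  have hFs : ∀ w ∈ ball wb R, Summable (fun k => F k w) := fun w hw =>
    Summable.of_norm_bounded hsum (fun k => hFle k w hw)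
  set A : ℂ → ℂ := fun w => S wb / (1 - lam) + ∑' k, F k w with hA
  have hAd : DifferentiableOn ℂ A (ball wb R) :=
    (Complex.differentiableOn_tsum_of_summable_norm hsum hFd isOpen_ball hFle).const_add _
  have hAeq : ∀ w ∈ ball wb R, A w = lam * A (u w) + S (u w) := by
    intro w hw
    have hw' := C5_mem hθ1.le hule hw
    have h2 : ∀ k, F (k + 1) w = lam * F k (u w) := by
      intro k
      rw [hF]
      simp only
      rw [Function.iterate_succ_apply u (k + 1) w]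
      ring
    have h3 : ∑' k, F k w = F 0 w + ∑' k, F (k + 1) w := (hFs w hw).tsum_eq_zero_add
    have h4 : ∑' k, F (k + 1) w = lam * ∑' k, F k (u w) := by
      simp_rw [h2]
      exact tsum_mul_left
    have h5 : F 0 w = S (u w) - S wb := by
      rw [hF]
      simp
    have h6 : (1 : ℂ) - lam ≠ 0 := sub_ne_zero.2 (Ne.symm hlam1)
    rw [hA]
    simp only
    rw [h3, h4, h5]
    field_simp
    ring
  exact ⟨R, θ, u, A, min_le_left _ _, hlθ, ⟨hRpos, hθ0.le, hθ1, hud, hu1, fun w hw => (hball w hw).1,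
    fun w hw => (hball w hw).2.2, hAd, hAeq⟩⟩

theorem dsum_add (Q S : ℂ → ℂ) (lam : ℂ) (M N : ℕ) (w : ℂ) :
    dsum Q S lam (M + N) w = lam ^ N * dsum Q S lam M w + dsum Q S lam N (Q^[M] w) := by
  unfold dsum
  rw [Finset.sum_range_add, Finset.mul_sum]
  congr 1
  · refine Finset.sum_congr rfl fun k hk => ?_
    rw [Finset.mem_range] at hk
    rw [← mul_assoc, ← pow_add]
    congr 2
    omega
  · refine Finset.sum_congr rfl fun k hk => ?_
    rw [Finset.mem_range] at hk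
    rw [← Function.iterate_add_apply, Nat.add_comm k M]
    congr 2
    omega

/-- Iterated functional equation. -/
theorem FibLin.A_iter {Q S : ℂ → ℂ} {lam wb : ℂ} {R θ : ℝ} {u A : ℂ → ℂ}
    (h : FibLin Q S lam wb R θ u A) (m : ℕ) {w : ℂ} (hw : w ∈ ball wb R) :
    u^[m] w ∈ ball wb R ∧ Q^[m] (u^[m] w) = w ∧
      A w = lam ^ m * A (u^[m] w) + dsum Q S lam m (u^[m] w) := by
  induction m with
  | zero =>
    refine ⟨hw, rfl, ?_⟩
    simp [dsum]
  | succ m ih =>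
    obtain ⟨h1, h2, h3⟩ := ih
    have h4 : u (u^[m] w) ∈ ball wb R := C5_mem h.th1.le (fun w hw => h.u_le hw) h1
    rw [Function.iterate_succ_apply' u m w]
    refine ⟨h4, ?_, ?_⟩
    · rw [Function.iterate_succ_apply, h.u_inv _ h1, h2]
    · have h5 := dsum_add Q S lam 1 m (u (u^[m] w))
      rw [Nat.add_comm 1 m, Function.iterate_one, h.u_inv _ h1] at h5
      have h6 : dsum Q S lam 1 (u (u^[m] w)) = S (u (u^[m] w)) := by
        simp [dsum]
      rw [h5, h6, h3, h.A_eq _ h1]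
      ring

end SkewBif
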