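import Pool.Agent.SK.Defs
/-! ## MP_9cfccf_an, module C6a -/
open Set Metric Filter Topology Polynomial
namespace SkewBif

theorem C6a_newton {n : ℕ} (f g : Fin n → ℂ)
    (h : ∀ i < n, MvPolynomial.aeval f (MvPolynomial.esymm (Fin n) ℂ i) =
      MvPolynomial.aeval g (MvPolynomial.esymm (Fin n) ℂ i)) (k : ℕ) (hk : k < n) :
    MvPolynomial.aeval f (MvPolynomial.psum (Fin n) ℂ k) =
      MvPolynomial.aeval g (MvPolynomial.psum (Fin n) ℂ k) := by
  induction k using Nat.strong_induction_on with
  | _ k ih =>
    rcases Nat.eq_zero_or_pos k with rfl | h0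
    · simp [MvPolynomial.psum]
    · rw [MvPolynomial.psum_eq_mul_esymm_sub_sum (Fin n) ℂ k h0]
      simp only [map_sub, map_mul, map_pow, map_neg, map_one, map_natCast, map_sum]
      rw [h k hk]
      congr 1
      refine Finset.sum_congr rfl fun a ha => ?_
      rw [Finset.mem_filter] at ha
      obtain ⟨h1, h2⟩ := ha
      have h1 := Finset.HasAntidiagonal.mem_antidiagonal.1 h1
      rw [Set.mem_Ioo] at h2
      rw [h a.1 (by omega), ih a.2 (by omega) (by omega)]

theorem C6a_multiset {n : ℕ} (s : Multiset ℂ) (hs : Multiset.card s = n) :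
    ∃ f : Fin n → ℂ, s = Finset.univ.val.map f := by
  subst hs
  induction s using Quotient.inductionOn with
  | _ l =>
    refine ⟨fun i => l.get i, ?_⟩
    rw [Fin.univ_val_map]
    exact congrArg _ (List.ofFn_get l).symm

/-- C6a. The sum of `S` over the roots of `Q - q` (with multiplicity) does not depend on `q` if
`deg S < deg Q`. Proof: Newton's identities (`MvPolynomial.psum`/`esymm`): the power sums of order
`< deg Q` of the roots only involve the coefficients of `Q - q` other than the constant one; or: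
the sum is `coefficient extraction` of `S(X) (Q - q)'(X) / (Q - q)(X)`; or: with the companion matrix.
-/
theorem roots_sum_const {Q S : ℂ[X]} (hQ : 1 ≤ Q.natDegree) (hS : S.natDegree < Q.natDegree) :
    ∃ s : ℂ, ∀ q : ℂ, ((Q - C q).roots.map (fun y => S.eval y)).sum = s := by
  set n := Q.natDegree with hn
  have hdeg : ∀ q : ℂ, (Q - C q).natDegree = n := fun q => natDegree_sub_C
  have hcard : ∀ q : ℂ, Multiset.card (Q - C q).roots = n := by
    intro q
    rw [← hdeg q]
    exact (IsAlgClosed.splits (Q - C q)).natDegree_eq_card_roots.symm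
  have hex : ∀ q : ℂ, ∃ f : Fin n → ℂ, (Q - C q).roots = Finset.univ.val.map f := by
    intro q
    exact C6a_multiset _ (hcard q)
  choose f hf using hex
  have hcoeff : ∀ q : ℂ, ∀ i < n, (Q - C q).coeff (n - i) = Q.coeff (n - i) := by
    intro q i hi
    rw [coeff_sub, coeff_C, if_neg (by omega), sub_zero]
  have hlead : Q.leadingCoeff ≠ 0 := by
    intro h
    rw [leadingCoeff_eq_zero] at h
    rw [h, natDegree_zero] at hn
    omega
  have hes : ∀ q : ℂ, ∀ i < n, MvPolynomial.aeval (f q) (MvPolynomial.esymm (Fin n) ℂ i) =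
      (-1) ^ i * Q.coeff (n - i) / Q.leadingCoeff := by
    intro q i hi
    rw [MvPolynomial.aeval_esymm_eq_multiset_esymm, ← hf q]
    have h1 := Polynomial.coeff_eq_esymm_roots_of_card
      (p := Q - C q) (by rw [hcard, hdeg]) (k := n - i) (by rw [hdeg]; omega)
    rw [hdeg, hcoeff q i hi, show n - (n - i) = i by omega] at h1
    have h2 : (Q - C q).leadingCoeff = Q.leadingCoeff := by
      rw [leadingCoeff, hdeg, leadingCoeff, ← hn]
      have := hcoeff q 0 (by omega)
      simpa using this
    rw [h2] at h1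
    rw [h1]
    field_simp
    rw [← pow_mul, mul_comm i 2, pow_mul]
    simp
  have hps : ∀ q : ℂ, ∀ k < n, ∑ i, (f q i) ^ k = ∑ i, (f 0 i) ^ k := by
    intro q k hk
    have := C6a_newton (f q) (f 0) (fun i hi => by rw [hes q i hi, hes 0 i hi]) k hk
    simpa [MvPolynomial.psum, map_sum] using this
  refine ⟨((Q - C 0).roots.map (fun y => S.eval y)).sum, fun q => ?_⟩
  have hgen : ∀ q : ℂ, ((Q - C q).roots.map (fun y => S.eval y)).sum =
      ∑ k ∈ Finset.range n, S.coeff k * ∑ i, (f q i) ^ k := by
    intro q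
    rw [hf q, Multiset.map_map]
    change ∑ i, S.eval (f q i) = _
    simp only [Finset.mul_sum]
    rw [Finset.sum_comm]
    refine Finset.sum_congr rfl fun i _ => ?_
    rw [eval_eq_sum_range' hS]
  rw [hgen q, hgen 0]
  refine Finset.sum_congr rfl fun k hk => ?_
  rw [hps q k (Finset.mem_range.1 hk)]

end SkewBif
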