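import Pool.Agent.SK.Defs
/-! ## MP_9cfccf_an, module C6b -/
open Set Metric Filter Topology Polynomial
namespace SkewBif

theorem C6b_expand (m0 : ℂ) (s : Multiset ℂ) :
    (s.map fun a => ‖a - m0‖ ^ 2).sum =
      (s.map fun a => ‖a‖ ^ 2).sum - 2 * (s.sum * (starRingEnd ℂ) m0).re +
        (Multiset.card s : ℝ) * ‖m0‖ ^ 2 := by
  induction s using Multiset.induction_on with
  | empty => simp
  | cons a s ih =>
    simp only [Multiset.map_cons, Multiset.sum_cons, Multiset.card_cons, Nat.cast_add,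
      Nat.cast_one]
    rw [ih]
    have h : ‖a - m0‖ ^ 2 = ‖a‖ ^ 2 - 2 * (a * (starRingEnd ℂ) m0).re + ‖m0‖ ^ 2 := by
      rw [← Complex.normSq_eq_norm_sq, ← Complex.normSq_eq_norm_sq, ← Complex.normSq_eq_norm_sq,
        Complex.normSq_sub]
      ring
    rw [h, add_mul, Complex.add_re]
    ring

theorem C6b_sum_le {s : Multiset ℂ} {M : ℝ} (hM : ∀ a ∈ s, ‖a‖ ≤ M) :
    (s.map fun a => ‖a‖ ^ 2).sum ≤ (Multiset.card s : ℝ) * M ^ 2 := by
  induction s using Multiset.induction_on with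
  | empty => simp
  | cons a s ih =>
    simp only [Multiset.map_cons, Multiset.sum_cons, Multiset.card_cons, Nat.cast_add,
      Nat.cast_one]
    have h1 := ih fun b hb => hM b (Multiset.mem_cons_of_mem hb)
    have h2 : ‖a‖ ^ 2 ≤ M ^ 2 :=
      pow_le_pow_left₀ (norm_nonneg _) (hM a (Multiset.mem_cons_self a s)) 2
    linarith

/-- C6b. Near equality in the mean: if `D` numbers of modulus `≤ M` have an average `m0` with
`‖m0‖ ≥ M - η` then all are within `√(2 D M η)` of `m0`.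
Proof: `∑ ‖a_i - m0‖² = ∑ ‖a_i‖² - D ‖m0‖² ≤ D (M² - (M - η)²) ≤ 2 D M η` (`0 ≤ η ≤ M`). -/
theorem near_equality {s : Multiset ℂ} {M η : ℝ} {m0 : ℂ} (hs : s ≠ 0) (hη : 0 ≤ η) (hηM : η ≤ M)
    (hM : ∀ a ∈ s, ‖a‖ ≤ M) (hm : s.sum = (Multiset.card s : ℂ) * m0) (hm0 : M - η ≤ ‖m0‖) :
    ∀ a ∈ s, ‖a - m0‖ ≤ Real.sqrt (2 * (Multiset.card s : ℝ) * M * η) := by
  intro a ha
  apply Real.le_sqrt_of_sq_le
  have h1 : ‖a - m0‖ ^ 2 ≤ (s.map fun a => ‖a - m0‖ ^ 2).sum := by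
    apply Multiset.single_le_sum
    · intro x hx
      obtain ⟨b, _, rfl⟩ := Multiset.mem_map.1 hx
      positivity
    · exact Multiset.mem_map_of_mem _ ha
  have h2 := C6b_expand m0 s
  have h3 := C6b_sum_le hM
  have h4 : (s.sum * (starRingEnd ℂ) m0).re = (Multiset.card s : ℝ) * ‖m0‖ ^ 2 := by
    rw [hm, mul_assoc, Complex.mul_conj, Complex.normSq_eq_norm_sq, ← Complex.ofReal_natCast,
      ← Complex.ofReal_mul, Complex.ofReal_re]
  have h5 : (M - η) ^ 2 ≤ ‖m0‖ ^ 2 := pow_le_pow_left₀ (by linarith) hm0 2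
  have hc : (0 : ℝ) ≤ (Multiset.card s : ℝ) := by positivity
  rw [h4] at h2
  have h6 := mul_le_mul_of_nonneg_left h5 hc
  have h7 : (Multiset.card s : ℝ) * (M ^ 2 - (M - η) ^ 2) ≤
      (Multiset.card s : ℝ) * (2 * M * η) :=
    mul_le_mul_of_nonneg_left (by nlinarith) hc
  nlinarith

end SkewBif
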