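import Pool.Agent.SK.B1
import Pool.Agent.SK.B2b
import Pool.Agent.SK.C5
import Pool.Agent.SK.C6a
import Pool.Agent.SK.C6b
/-! ## MP_9cfccf_an, module C6 -/
open Set Metric Filter Topology Polynomial
namespace SkewBif

/-- the value transported to `q` along an orbit ending at `wb` -/
noncomputable def C6_as (f g : ℂ → ℂ) (lam wb Aw q : ℂ) : ℂ :=
  open Classical in
  if h : ∃ l, f^[l] q = wb then lam⁻¹ ^ (Nat.find h) * (Aw - dsum f g lam (Nat.find h) q) else 0

theorem C6_dsum_one (f g : ℂ → ℂ) (lam w : ℂ) : dsum f g lam 1 w = g w := by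
  unfold dsum
  simp

theorem C6_iter_fix {f : ℂ → ℂ} {wb : ℂ} (hfix : f wb = wb) (k : ℕ) : f^[k] wb = wb :=
  Function.iterate_fixed hfix k

theorem C6_indep {f g : ℂ → ℂ} {lam wb Aw : ℂ} (hlam : lam ≠ 0) (hfix : f wb = wb)
    (hA : Aw = lam * Aw + g wb) {l : ℕ} {q : ℂ} (hq : f^[l] q = wb) (k : ℕ) :
    lam⁻¹ ^ (l + k) * (Aw - dsum f g lam (l + k) q) = lam⁻¹ ^ l * (Aw - dsum f g lam l q) := by
  induction k with
  | zero => rfl
  | succ k ih =>
    rw [← ih]
    have h1 : f^[l + k] q = wb := by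
      rw [add_comm, Function.iterate_add_apply, hq, C6_iter_fix hfix]
    have h2 : dsum f g lam (l + k + 1) q = lam * dsum f g lam (l + k) q + g wb := by
      rw [dsum_add f g lam (l + k) 1 q, h1, C6_dsum_one, pow_one]
    have h3 : l + (k + 1) = l + k + 1 := rfl
    rw [h3, h2]
    have h4 : Aw - (lam * dsum f g lam (l + k) q + g wb) =
        lam * (Aw - dsum f g lam (l + k) q) := by
      linear_combination hA
    rw [h4, pow_succ, mul_assoc, ← mul_assoc lam⁻¹ lam, inv_mul_cancel₀ hlam, one_mul]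

theorem C6_as_eq {f g : ℂ → ℂ} {lam wb Aw : ℂ} (hlam : lam ≠ 0) (hfix : f wb = wb)
    (hA : Aw = lam * Aw + g wb) {l : ℕ} {q : ℂ} (hq : f^[l] q = wb) :
    C6_as f g lam wb Aw q = lam⁻¹ ^ l * (Aw - dsum f g lam l q) := by
  classical
  have h : ∃ l, f^[l] q = wb := ⟨l, hq⟩
  unfold C6_as
  rw [dif_pos h]
  have h1 := Nat.find_min' h hq
  have h2 := Nat.find_spec h
  obtain ⟨k, hk⟩ := Nat.exists_eq_add_of_le h1
  have h3 := C6_indep (g := g) hlam hfix hA h2 k
  rw [← hk] at h3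
  exact h3.symm

theorem C6_as_pre {f g : ℂ → ℂ} {lam wb Aw : ℂ} (hlam : lam ≠ 0) (hfix : f wb = wb)
    (hA : Aw = lam * Aw + g wb) {l k : ℕ} {y : ℂ} (hq : f^[l] (f^[k] y) = wb) :
    C6_as f g lam wb Aw y = lam⁻¹ ^ k * (C6_as f g lam wb Aw (f^[k] y) - dsum f g lam k y) := by
  have h1 : f^[k + l] y = wb := by
    rw [add_comm, Function.iterate_add_apply, hq]
  rw [C6_as_eq hlam hfix hA h1, C6_as_eq hlam hfix hA hq, dsum_add f g lam k l y, pow_add]
  have h2 : lam⁻¹ ^ l * lam ^ l = 1 := by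
    rw [← mul_pow, inv_mul_cancel₀ hlam, one_pow]
  linear_combination (-(lam⁻¹ ^ k) * dsum f g lam k y) * h2

theorem C6_roots {Q : ℂ[X]} (hQ : 2 ≤ Q.natDegree) (q : ℂ) :
    (∀ y, y ∈ (Q - C q).roots ↔ Q.eval y = q) ∧
      Multiset.card (Q - C q).roots = Q.natDegree := by
  have hdeg : (Q - C q).natDegree = Q.natDegree := natDegree_sub_C
  have hne : Q - C q ≠ 0 := by
    intro h
    rw [h, natDegree_zero] at hdeg
    omega
  refine ⟨fun y => ?_, ?_⟩
  · rw [mem_roots hne, IsRoot.def, eval_sub, eval_C, sub_eq_zero]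
  · rw [← hdeg]
    exact splits_iff_card_roots.1 (IsAlgClosed.splits _)

theorem C6_onestep {Q : ℂ[X]} (hQ : 2 ≤ Q.natDegree) {lam : ℂ} (hl : ‖lam‖ = 1) {a : ℂ → ℂ}
    {O : Set ℂ} {M : ℝ} (hM : ∀ q ∈ O, ‖a q‖ ≤ M) (hO : ∀ q ∈ O, ∀ y, Q.eval y = q → y ∈ O)
    (havg : ∀ q ∈ O, ((Q - C q).roots.map a).sum = (Q.natDegree : ℂ) * (lam⁻¹ * a q)) {e : ℝ}
    (he : 0 < e) :
    ∃ η > 0, ∀ q ∈ O, M - η ≤ ‖a q‖ → ∀ y, Q.eval y = q → ‖a y - lam⁻¹ * a q‖ ≤ e := by
  have hlam : ‖lam⁻¹‖ = 1 := by rw [norm_inv, hl, inv_one]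
  rcases le_or_gt M 0 with hM0 | hM0
  · refine ⟨1, one_pos, fun q hq _ y hy => ?_⟩
    have h1 : a q = 0 := norm_le_zero_iff.1 ((hM q hq).trans hM0)
    have h2 : a y = 0 := norm_le_zero_iff.1 ((hM y (hO q hq y hy)).trans hM0)
    rw [h1, h2, mul_zero, sub_zero, norm_zero]
    exact he.le
  · have hD : (0 : ℝ) < Q.natDegree := by
      have : 0 < Q.natDegree := by omega
      exact_mod_cast this
    refine ⟨min M (e ^ 2 / (2 * Q.natDegree * M)), lt_min hM0 (by positivity), ?_⟩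
    intro q hq hqM y hy
    obtain ⟨hmem, hcard⟩ := C6_roots hQ q
    set η := min M (e ^ 2 / (2 * Q.natDegree * M)) with hη
    have hη0 : 0 ≤ η := (lt_min hM0 (by positivity)).le
    have hηM : η ≤ M := min_le_left _ _
    have hηe : η ≤ e ^ 2 / (2 * Q.natDegree * M) := min_le_right _ _
    have hcard' : Multiset.card ((Q - C q).roots.map a) = Q.natDegree := by
      rw [Multiset.card_map, hcard]
    have hne : (Q - C q).roots.map a ≠ 0 := by
      rw [Ne, ← Multiset.card_eq_zero, hcard']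
      omega
    have h1 := near_equality (s := (Q - C q).roots.map a) (M := M) (η := η)
      (m0 := lam⁻¹ * a q) hne hη0 hηM ?_ ?_ ?_ (a y)
      (Multiset.mem_map_of_mem a ((hmem y).2 hy))
    · refine h1.trans ?_
      rw [hcard']
      rw [Real.sqrt_le_left he.le]
      rw [le_div_iff₀ (by positivity)] at hηe
      linarith
    · intro b hb
      obtain ⟨z, hz, rfl⟩ := Multiset.mem_map.1 hb
      exact hM z (hO q hq z ((hmem z).1 hz))
    · rw [hcard']
      exact havg q hq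
    · rw [norm_mul, hlam, one_mul]
      exact hqM

theorem C6_ksteps {Q : ℂ[X]} (hQ : 2 ≤ Q.natDegree) {lam : ℂ} (hl : ‖lam‖ = 1) {a : ℂ → ℂ}
    {O : Set ℂ} {M : ℝ} (hM : ∀ q ∈ O, ‖a q‖ ≤ M) (hO : ∀ q ∈ O, ∀ y, Q.eval y = q → y ∈ O)
    (havg : ∀ q ∈ O, ((Q - C q).roots.map a).sum = (Q.natDegree : ℂ) * (lam⁻¹ * a q)) (k : ℕ) :
    ∀ e : ℝ, 0 < e → ∃ η > 0, ∀ q ∈ O, M - η ≤ ‖a q‖ → ∀ y, (fun w => Q.eval w)^[k] y = q →
      ‖a y - lam⁻¹ ^ k * a q‖ ≤ e := by
  have hlam : ‖lam⁻¹‖ = 1 := by rw [norm_inv, hl, inv_one]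
  induction k with
  | zero =>
    intro e he
    refine ⟨1, one_pos, fun q _ _ y hy => ?_⟩
    rw [Function.iterate_zero, id] at hy
    rw [hy, pow_zero, one_mul, sub_self, norm_zero]
    exact he.le
  | succ k ih =>
    intro e he
    obtain ⟨η1, hη1, h1⟩ := ih (e / 2) (by linarith)
    obtain ⟨η2, hη2, h2⟩ := C6_onestep hQ hl hM hO havg
      (e := min (e / 2) (η1 / 2)) (lt_min (by linarith) (by linarith))
    refine ⟨min η2 (η1 / 2), lt_min hη2 (by linarith), ?_⟩
    intro q hq hqM y hy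
    rw [Function.iterate_succ_apply'] at hy
    set q1 := (fun w => Q.eval w)^[k] y with hq1
    have hq1O : q1 ∈ O := hO q hq q1 hy
    have h3 := h2 q hq ((sub_le_sub_left (min_le_left _ _) _).trans hqM) q1 hy
    have h4 : ‖a q‖ - ‖a q1‖ ≤ η1 / 2 := by
      have h5 : ‖lam⁻¹ * a q‖ = ‖a q‖ := by rw [norm_mul, hlam, one_mul]
      rw [← h5]
      refine (norm_sub_norm_le _ _).trans ?_
      rw [norm_sub_rev]
      exact h3.trans (min_le_right _ _)
    have h6 : M - η1 ≤ ‖a q1‖ := by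
      have := min_le_right η2 (η1 / 2)
      linarith
    have h7 := h1 q1 hq1O h6 y rfl
    have h8 : a y - lam⁻¹ ^ (k + 1) * a q =
        (a y - lam⁻¹ ^ k * a q1) + lam⁻¹ ^ k * (a q1 - lam⁻¹ * a q) := by
      rw [pow_succ]; ring
    rw [h8]
    refine (norm_add_le _ _).trans ?_
    rw [norm_mul, norm_pow, hlam, one_pow, one_mul]
    have := h3.trans (min_le_left _ _)
    linarith

theorem C6_open {Q : ℂ[X]} (hQ : 2 ≤ Q.natDegree) : IsOpenMap fun w => Q.eval w := by
  have hA : AnalyticOnNhd ℂ (fun w => Q.eval w) univ :=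
    (Polynomial.differentiable Q).differentiableOn.analyticOnNhd isOpen_univ
  rcases hA.is_constant_or_isOpen isPreconnected_univ with ⟨w, hw⟩ | h
  · exfalso
    have : Q = C w := Polynomial.funext fun r => by rw [eval_C]; exact hw r (mem_univ r)
    rw [this, natDegree_C] at hQ
    omega
  · intro s hs
    exact h s (subset_univ s) hs

theorem C6_iter_open {Q : ℂ[X]} (hQ : 2 ≤ Q.natDegree) (l : ℕ) :
    IsOpenMap (fun w => Q.eval w)^[l] := by
  induction l with
  | zero => exact IsOpenMap.id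
  | succ l ih =>
    rw [Function.iterate_succ']
    exact (C6_open hQ).comp ih

theorem C6_cont (Q S : ℂ[X]) (lam : ℂ) (k : ℕ) :
    Continuous fun y => dsum (fun w => Q.eval w) (fun w => S.eval w) lam k y := by
  unfold dsum
  refine continuous_finset_sum _ fun j _ => continuous_const.mul ?_
  exact S.continuous.comp (Q.continuous.iterate j)

theorem C6_bounded {Q : ℂ[X]} (hQ : 2 ≤ Q.natDegree) {wb : ℂ} (hfix : Q.eval wb = wb) :
    ∃ R0 : ℝ, ∀ q l, (fun w => Q.eval w)^[l] q = wb → ‖q‖ ≤ R0 := by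
  obtain ⟨R0, hR0, h⟩ := exists_escape_radius hQ 0
  refine ⟨R0, fun q l hq => ?_⟩
  have hpt : pt Q 0 = fun w => Q.eval w := by
    funext w
    unfold pt
    rw [add_zero]
  rcases bounded_or_escape hR0 (h 0 (by simp)) q with h1 | ⟨-, h2⟩
  · simpa using h1 0
  · exfalso
    rw [hpt] at h2
    have h3 : ∀ᶠ m in atTop, ‖(fun w => Q.eval w)^[m] q‖ = ‖wb‖ := by
      filter_upwards [eventually_ge_atTop l] with m hm
      obtain ⟨k, rfl⟩ := Nat.exists_eq_add_of_le hm
      rw [add_comm, Function.iterate_add_apply, hq]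
      rw [C6_iter_fix (f := fun w => Q.eval w) hfix k]
    have h4 := h2.eventually_gt_atTop ‖wb‖
    obtain ⟨m, hm1, hm2⟩ := (h3.and h4).exists
    linarith

/-- C6. Suppose on the contrary that `A wb = lam^l A y + dsum l y` for all `l ≥ 1` and all
`y ∈ ball wb R` with `Q^[l] y = wb` (it also holds for `y = wb`).
Let `O = {q : ∃ l, Q^[l] q = wb}` and, for `q ∈ O`, `as q = lam^(-l) (A wb - dsum l q)`, which is independent of
the admissible `l` (since `A wb = lam A wb + S wb`); for `q ∈ O ∩ ball wb R`, `as q = A q`.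
For a root `y` of `Q - q`, `as y = lam⁻¹ (as q - S y)`. By C6a the average of `S` over the roots of
`Q - q` is a constant `s`; with `β = s / (1 - lam)`, `a q = as q - β`, the average of `a` over the roots of
`Q - q` is `lam⁻¹ a q`.
`a` is bounded on `O`: `O ⊆ closedBall 0 R0` (escape radius) `⊆ Q^[k0] '' ball wb (R/2)` (B2b), and
`as (Q^[k0] y) = lam^k0 as y + dsum k0 y` with `as y = A y` bounded on `ball wb (R/2)`. Let
`M = sup_O ‖a‖`. By C6b applied `k` times: for all `k`, `e > 0` there is `η > 0` such that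
`‖a q‖ ≥ M - η` implies `‖a y - lam^(-k) a q‖ ≤ e` for every `y` with `Q^[k] y = q`.
Take `q_j ∈ O` with `‖a q_j‖ ≥ M - η(j, 1/j)`. Let `ζ ∈ O ∩ ball wb (R/2)`. The image under `Q^[l]` of
a small disc around `ζ` contains a disc around `wb`, so by B2b for `j` large there is `y_j` close to
`ζ`, `Q^[j] y_j = q_j`; similarly `y'_j` close to `wb`. Both are in `ball wb R`, so
`‖A y_j - A y'_j‖ = ‖a y_j - a y'_j‖ ≤ 2/j`, and in the limit `A ζ = A wb`.
Finally `wb` has a preimage `y1 ≠ wb` (`Q' wb ≠ 0` and `deg Q ≥ 2`), hence (B2b) there is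
`y* ∈ O ∩ ball wb (R/2)`, `y* ≠ wb`, and the points `u^[j] y* ≠ wb` are in `O` and tend to `wb`:
`A` is constant on `ball wb R` (identity theorem), so `S (u w) = A w - lam A (u w)` is constant and
`S` is constant: contradiction with `hS1`. -/
theorem kappa {Q S : ℂ[X]} (hQ : 2 ≤ Q.natDegree) (hS1 : 1 ≤ S.natDegree)
    (hS2 : S.natDegree < Q.natDegree) {lam wb : ℂ} (hl : ‖lam‖ = 1) (hl1 : lam ≠ 1)
    (hfix : Q.eval wb = wb) (hrep : 1 < ‖Q.derivative.eval wb‖) (hexc : ∀ a, ¬ ExcAt Q a)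
    {R θ : ℝ} {u A : ℂ → ℂ}
    (h : FibLin (fun w => Q.eval w) (fun w => S.eval w) lam wb R θ u A) :
    ∃ l ≥ 1, ∃ y ∈ ball wb R, (fun w => Q.eval w)^[l] y = wb ∧
      A wb ≠ lam ^ l * A y + dsum (fun w => Q.eval w) (fun w => S.eval w) lam l y := by
  by_contra hcon
  push Not at hcon
  set f : ℂ → ℂ := fun w => Q.eval w with hf
  set g : ℂ → ℂ := fun w => S.eval w with hg
  have hlam0 : lam ≠ 0 := by
    intro h0
    rw [h0, norm_zero] at hl
    exact zero_ne_one hl
  have hffix : f wb = wb := hfix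
  have hwbR : wb ∈ ball wb R := mem_ball_self h.Rpos
  have hAwb : A wb = lam * A wb + g wb := by
    have := h.A_eq wb hwbR
    rwa [h.u_fix] at this
  set as : ℂ → ℂ := C6_as f g lam wb (A wb) with has
  set O : Set ℂ := {q | ∃ l, f^[l] q = wb} with hOdef
  have hOpre : ∀ k y, f^[k] y ∈ O → y ∈ O := by
    rintro k y ⟨l, hl'⟩
    exact ⟨l + k, by rw [Function.iterate_add_apply]; exact hl'⟩
  have hwbO : wb ∈ O := ⟨0, rfl⟩
  -- the values near `wb`
  have hasA : ∀ q ∈ O, q ∈ ball wb R → as q = A q := by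
    rintro q ⟨l, hq⟩ hqR
    have hq1 : f^[l + 1] q = wb := by
      rw [Function.iterate_succ_apply', hq, hffix]
    have h1 := hcon (l + 1) (by omega) q hqR hq1
    rw [has, C6_as_eq hlam0 hffix hAwb hq1, h1]
    have h2 : lam⁻¹ ^ (l + 1) * lam ^ (l + 1) = 1 := by
      rw [← mul_pow, inv_mul_cancel₀ hlam0, one_pow]
    linear_combination (A q) * h2
  have haspre : ∀ k y, f^[k] y ∈ O →
      as y = lam⁻¹ ^ k * (as (f^[k] y) - dsum f g lam k y) := by
    rintro k y ⟨l, hl'⟩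
    exact C6_as_pre hlam0 hffix hAwb hl'
  -- the average
  obtain ⟨s, hs⟩ := roots_sum_const (Q := Q) (S := S) (by omega) hS2
  have hD : (Q.natDegree : ℂ) ≠ 0 := by
    have : Q.natDegree ≠ 0 := by omega
    exact_mod_cast this
  have h1lam : (1 : ℂ) - lam ≠ 0 := fun h0 => hl1 (by linear_combination -h0)
  set β : ℂ := s / ((Q.natDegree : ℂ) * (1 - lam)) with hβ
  have hβs : s = (Q.natDegree : ℂ) * β * (1 - lam) := by
    rw [hβ]
    field_simp
  set a : ℂ → ℂ := fun q => as q - β with ha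
  have hO1 : ∀ q ∈ O, ∀ y, Q.eval y = q → y ∈ O := by
    intro q hq y hy
    refine hOpre 1 y ?_
    rw [Function.iterate_one]
    change Q.eval y ∈ O
    rw [hy]
    exact hq
  have havg : ∀ q ∈ O, ((Q - C q).roots.map a).sum = (Q.natDegree : ℂ) * (lam⁻¹ * a q) := by
    intro q hq
    obtain ⟨hmem, hcard⟩ := C6_roots hQ q
    have h1 : (Q - C q).roots.map a =
        (Q - C q).roots.map fun y => (lam⁻¹ * as q - β) - lam⁻¹ * S.eval y := by
      refine Multiset.map_congr rfl fun y hy => ?_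
      have hy' : Q.eval y = q := (hmem y).1 hy
      have h2 := haspre 1 y (by
        rw [Function.iterate_one]
        change Q.eval y ∈ O
        rw [hy']
        exact hq)
      rw [Function.iterate_one, pow_one, C6_dsum_one] at h2
      have h3 : f y = q := hy'
      rw [h3] at h2
      change as y - β = _
      rw [h2]
      ring
    rw [h1, Multiset.sum_map_sub, Multiset.sum_map_mul_left, hs q, Multiset.map_const',
      Multiset.sum_replicate, hcard, nsmul_eq_mul, hβs]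
    change _ = (Q.natDegree : ℂ) * (lam⁻¹ * (as q - β))
    have h4 : lam⁻¹ * lam = 1 := inv_mul_cancel₀ hlam0
    linear_combination ((Q.natDegree : ℂ) * β) * h4
  -- boundedness
  obtain ⟨R0, hR0⟩ := C6_bounded hQ hfix
  have hOR0 : ∀ q ∈ O, q ∈ closedBall (0 : ℂ) R0 := by
    rintro q ⟨l, hq⟩
    rw [mem_closedBall_zero_iff]
    exact hR0 q l hq
  have hR2 : 0 < R / 2 := by
    have := h.Rpos
    linarith
  have hR2sub : closedBall wb (R / 2) ⊆ ball wb R := closedBall_subset_ball (by linarith)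
  have hbdd : ∃ B : ℝ, ∀ q ∈ O, ‖a q‖ ≤ B := by
    obtain ⟨k0, hk0⟩ := onto_compact hQ hfix hrep hexc hR2 R0
    obtain ⟨B1, hB1⟩ := (isCompact_closedBall wb (R / 2)).exists_bound_of_continuousOn
      (h.A_diff.continuousOn.mono hR2sub)
    obtain ⟨B2, hB2⟩ := (isCompact_closedBall wb (R / 2)).exists_bound_of_continuousOn
      (C6_cont Q S lam k0).continuousOn
    refine ⟨B1 + B2 + ‖β‖, fun q hq => ?_⟩
    obtain ⟨y, hy, hyq⟩ := hk0 k0 le_rfl (hOR0 q hq)
    have hyq' : f^[k0] y = q := hyq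
    have hyO : y ∈ O := hOpre k0 y (by rw [hyq']; exact hq)
    have hyc : y ∈ closedBall wb (R / 2) := ball_subset_closedBall hy
    have h1 := haspre k0 y (by rw [hyq']; exact hq)
    rw [hyq', hasA y hyO (hR2sub hyc)] at h1
    have h2 : as q = lam ^ k0 * A y + dsum f g lam k0 y := by
      have h3 : lam ^ k0 * lam⁻¹ ^ k0 = 1 := by
        rw [← mul_pow, mul_inv_cancel₀ hlam0, one_pow]
      rw [h1]
      linear_combination -(as q - dsum f g lam k0 y) * h3
    change ‖as q - β‖ ≤ _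
    rw [h2]
    refine (norm_sub_le _ _).trans (add_le_add ((norm_add_le _ _).trans (add_le_add ?_ ?_)) le_rfl)
    · rw [norm_mul, norm_pow, hl, one_pow, one_mul]
      exact hB1 y hyc
    · exact hB2 y hyc
  obtain ⟨B, hB⟩ := hbdd
  -- the supremum
  set M : ℝ := sSup ((fun q => ‖a q‖) '' O) with hMdef
  have hbddAbove : BddAbove ((fun q => ‖a q‖) '' O) := by
    refine ⟨B, ?_⟩
    rintro _ ⟨q, hq, rfl⟩
    exact hB q hq
  have hM : ∀ q ∈ O, ‖a q‖ ≤ M := fun q hq => le_csSup hbddAbove ⟨q, hq, rfl⟩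
  have hMex : ∀ η > 0, ∃ q ∈ O, M - η ≤ ‖a q‖ := by
    intro η hη
    obtain ⟨_, ⟨q, hq, rfl⟩, hlt⟩ := exists_lt_of_lt_csSup (⟨_, ⟨wb, hwbO, rfl⟩⟩ :
      ((fun q => ‖a q‖) '' O).Nonempty) (show M - η < M by linarith)
    exact ⟨q, hq, hlt.le⟩
  -- `A` takes the value `A wb` at the points of `O` near `wb`
  have hconst : ∀ ζ ∈ O, ζ ∈ ball wb (R / 2) → A ζ = A wb := by
    rintro ζ ⟨l, hζl⟩ hζ
    have hζR : ζ ∈ ball wb R := hR2sub (ball_subset_closedBall hζ)
    have hnear : ∀ ε > 0, ‖A ζ - A wb‖ ≤ 4 * ε := by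
      intro ε hε
      have hcont := h.A_diff.continuousOn
      obtain ⟨δ1, hδ1, h1⟩ : ∃ δ > 0, ∀ y ∈ ball ζ δ, y ∈ ball wb R ∧ ‖A y - A ζ‖ < ε := by
        have h2 := (hcont.continuousAt (isOpen_ball.mem_nhds hζR))
        have h3 : ∀ᶠ y in 𝓝 ζ, y ∈ ball wb R ∧ ‖A y - A ζ‖ < ε := by
          refine (isOpen_ball.eventually_mem hζR).and ?_
          have := Metric.tendsto_nhds.1 h2 ε hε
          filter_upwards [this] with y hy
          rwa [← dist_eq_norm]
        obtain ⟨δ, hδ, h4⟩ := Metric.eventually_nhds_iff_ball.1 h3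
        exact ⟨δ, hδ, h4⟩
      obtain ⟨δ2, hδ2, h2⟩ : ∃ δ > 0, ∀ y ∈ ball wb δ, y ∈ ball wb R ∧ ‖A y - A wb‖ < ε := by
        have h2 := (hcont.continuousAt (isOpen_ball.mem_nhds hwbR))
        have h3 : ∀ᶠ y in 𝓝 wb, y ∈ ball wb R ∧ ‖A y - A wb‖ < ε := by
          refine (isOpen_ball.eventually_mem hwbR).and ?_
          have := Metric.tendsto_nhds.1 h2 ε hε
          filter_upwards [this] with y hy
          rwa [← dist_eq_norm]
        obtain ⟨δ, hδ, h4⟩ := Metric.eventually_nhds_iff_ball.1 h3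
        exact ⟨δ, hδ, h4⟩
      -- the image of a small disc around `ζ`
      have hopen : IsOpen (f^[l] '' ball ζ δ1) := C6_iter_open hQ l _ isOpen_ball
      obtain ⟨r', hr', hball⟩ := Metric.isOpen_iff.1 hopen wb ⟨ζ, mem_ball_self hδ1, hζl⟩
      obtain ⟨k1, hk1⟩ := onto_compact hQ hfix hrep hexc hr' R0
      obtain ⟨k2, hk2⟩ := onto_compact hQ hfix hrep hexc hδ2 R0
      obtain ⟨η, hη, hstep⟩ := C6_ksteps hQ hl hM hO1 havg (max k1 k2 + l) ε hε
      obtain ⟨q, hq, hqM⟩ := hMex η hη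
      obtain ⟨x, hx, hxq⟩ := hk1 (max k1 k2) (le_max_left _ _) (hOR0 q hq)
      obtain ⟨y, hy, hyx⟩ := hball hx
      obtain ⟨y', hy', hyq'⟩ := hk2 (max k1 k2 + l) ((le_max_right _ _).trans (Nat.le_add_right _ _))
        (hOR0 q hq)
      have hyq : f^[max k1 k2 + l] y = q := by
        rw [Function.iterate_add_apply, hyx]
        exact hxq
      have hyq2 : f^[max k1 k2 + l] y' = q := hyq'
      have h5 := hstep q hq hqM y hyq
      have h6 := hstep q hq hqM y' hyq2
      have hyO : y ∈ O := hOpre _ y (by rw [hyq]; exact hq)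
      have hyO' : y' ∈ O := hOpre _ y' (by rw [hyq2]; exact hq)
      have h7 : A y - A y' = (a y - lam⁻¹ ^ (max k1 k2 + l) * a q) -
          (a y' - lam⁻¹ ^ (max k1 k2 + l) * a q) := by
        rw [← hasA y hyO (h1 y hy).1, ← hasA y' hyO' (h2 y' hy').1]
        simp only [ha]
        ring
      have h8 : A ζ - A wb = -(A y - A ζ) + ((a y - lam⁻¹ ^ (max k1 k2 + l) * a q) -
          (a y' - lam⁻¹ ^ (max k1 k2 + l) * a q)) + (A y' - A wb) := by
        rw [← h7]; ring
      rw [h8]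
      have h9 := (h1 y hy).2
      have h10 := (h2 y' hy').2
      calc _ ≤ ‖-(A y - A ζ)‖ + ‖(a y - lam⁻¹ ^ (max k1 k2 + l) * a q) -
            (a y' - lam⁻¹ ^ (max k1 k2 + l) * a q)‖ + ‖A y' - A wb‖ := norm_add₃_le
        _ ≤ ε + (ε + ε) + ε := by
          rw [norm_neg]
          exact add_le_add (add_le_add h9.le ((norm_sub_le _ _).trans (add_le_add h5 h6))) h10.le
        _ = 4 * ε := by ring
    have h0 : ‖A ζ - A wb‖ ≤ 0 := by
      refine le_of_forall_pos_le_add fun ε hε => ?_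
      have := hnear (ε / 4) (by linarith)
      linarith
    exact sub_eq_zero.1 (norm_le_zero_iff.1 h0)
  -- a preimage of `wb` different from `wb`
  have hy1 : ∃ y1, Q.eval y1 = wb ∧ y1 ≠ wb := by
    by_contra hno
    push Not at hno
    obtain ⟨hmem, hcard⟩ := C6_roots hQ wb
    apply hexc wb
    refine ⟨(Q - C wb).leadingCoeff, ?_⟩
    have h1 : (Q - C wb).roots = Multiset.replicate Q.natDegree wb := by
      rw [← hcard]
      exact Multiset.eq_replicate_card.2 fun y hy => hno y ((hmem y).1 hy)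
    have h2 := (IsAlgClosed.splits (Q - C wb)).eq_prod_roots
    rw [h1, Multiset.map_replicate, Multiset.prod_replicate] at h2
    linear_combination h2
  obtain ⟨y1, hy1, hy1ne⟩ := hy1
  have hy1O : y1 ∈ O := ⟨1, hy1⟩
  obtain ⟨k3, hk3⟩ := onto_compact hQ hfix hrep hexc hR2 R0
  obtain ⟨ys, hys, hysy⟩ := hk3 k3 le_rfl (hOR0 y1 hy1O)
  have hysy' : f^[k3] ys = y1 := hysy
  have hysO : ys ∈ O := hOpre k3 ys (by rw [hysy']; exact hy1O)
  have hysne : ys ≠ wb := by
    intro h0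
    rw [h0, C6_iter_fix hffix] at hysy'
    exact hy1ne hysy'.symm
  have hysR : ys ∈ ball wb R := hR2sub (ball_subset_closedBall hys)
  have hiter := fun j => h.A_iter j hysR
  have hle : ∀ j, ‖u^[j] ys - wb‖ ≤ θ ^ j * ‖ys - wb‖ := by
    intro j
    induction j with
    | zero => simp
    | succ j ih =>
      rw [Function.iterate_succ_apply', pow_succ']
      refine (h.u_le (hiter j).1).trans ?_
      rw [mul_assoc]
      exact mul_le_mul_of_nonneg_left ih h.th0
  have hlim : Tendsto (fun j => u^[j] ys) atTop (𝓝[≠] wb) := by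
    refine tendsto_nhdsWithin_of_tendsto_nhds_of_eventually_within _ ?_ ?_
    · rw [tendsto_iff_norm_sub_tendsto_zero]
      refine squeeze_zero (fun j => norm_nonneg _) hle ?_
      have := (tendsto_pow_atTop_nhds_zero_of_lt_one h.th0 h.th1).mul_const ‖ys - wb‖
      rwa [zero_mul] at this
    · refine Eventually.of_forall fun j => ?_
      rw [mem_compl_iff, mem_singleton_iff]
      intro h0
      have h1 := (hiter j).2.1
      rw [h0, C6_iter_fix hffix] at h1
      exact hysne h1.symm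
  have hAj : ∀ j, A (u^[j] ys) = A wb := by
    intro j
    refine hconst _ (hOpre j _ ?_) ?_
    · rw [(hiter j).2.1]
      exact hysO
    · rw [mem_ball, dist_eq_norm]
      refine (hle j).trans_lt ?_
      have h1 : ‖ys - wb‖ < R / 2 := by
        rw [← dist_eq_norm]
        exact hys
      have h2 : θ ^ j ≤ 1 := pow_le_one₀ h.th0 h.th1.le
      calc θ ^ j * ‖ys - wb‖ ≤ 1 * ‖ys - wb‖ := mul_le_mul_of_nonneg_right h2 (norm_nonneg _)
        _ < R / 2 := by rw [one_mul]; exact h1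
  have hAana : AnalyticOnNhd ℂ A (ball wb R) := h.A_diff.analyticOnNhd isOpen_ball
  have hEq : EqOn A (fun _ => A wb) (ball wb R) := by
    refine hAana.eqOn_of_preconnected_of_frequently_eq analyticOnNhd_const
      (convex_ball wb R).isPreconnected hwbR ?_
    exact hlim.frequently (Eventually.of_forall hAj).frequently
  -- `S` is constant
  have hSu : ∀ w ∈ ball wb R, S.eval (u w) = (1 - lam) * A wb := by
    intro w hw
    have h1 := h.A_eq w hw
    have h2 : u w ∈ ball wb R := (h.A_iter 1 hw).1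
    rw [hEq hw, hEq h2] at h1
    change A wb = lam * A wb + S.eval (u w) at h1
    linear_combination -h1
  have hinf : Set.Infinite {x | S.eval x = (C ((1 - lam) * A wb)).eval x} := by
    have h1 : (ball wb R).Infinite := by
      refine infinite_of_mem_nhds wb (isOpen_ball.mem_nhds hwbR)
    have h2 : InjOn u (ball wb R) := by
      intro w hw w' hw' hww
      have h3 := h.u_inv w hw
      have h4 := h.u_inv w' hw'
      rw [← h3, ← h4, hww]
    refine (h1.image h2).mono ?_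
    rintro _ ⟨w, hw, rfl⟩
    change S.eval (u w) = (C ((1 - lam) * A wb)).eval (u w)
    rw [eval_C, hSu w hw]
  have hSC := Polynomial.eq_of_infinite_eval_eq S (C ((1 - lam) * A wb)) hinf
  rw [hSC, natDegree_C] at hS1
  omega

end SkewBif
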