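import Pool.Agent.SK.A4
import Pool.Agent.SK.B2b
import Pool.Agent.SK.C1b
/-! ## MP_9cfccf_an, module C7 -/
open Set Metric Filter Topology Polynomial
namespace SkewBif

theorem C7_sk_continuous (d : ℕ) (p : ℂ[X]) (b : Mon d → ℂ) (τ : ℂ) :
    Continuous (sk d p b τ) := by
  unfold sk qv
  fun_prop

theorem C7_fib_continuous (d : ℕ) (p : ℂ[X]) (b : Mon d → ℂ) (τ : ℂ) (M : ℕ) :
    Continuous (fun v : ℂ × ℂ => fib d p b τ M v.1 v.2) := by
  unfold fib
  exact continuous_snd.comp ((C7_sk_continuous d p b τ).iterate M)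

theorem C7_fib_differentiable {d : ℕ} (hd : 2 ≤ d) (p : ℂ[X]) {b : Mon d → ℂ}
    (hb : topCoef d b ≠ 0) (τ : ℂ) (M : ℕ) (z : ℂ) : Differentiable ℂ (fib d p b τ M z) := by
  obtain ⟨Q, _, h⟩ := fib_poly hd p hb τ M z
  have : fib d p b τ M z = fun w => Q.eval w := funext h
  rw [this]
  exact Q.differentiable

theorem C7_fib_iter {d : ℕ} {p : ℂ[X]} {b : Mon d → ℂ} {n : ℕ} {x : ℂ}
    (hx : (pt p 0)^[n] x = x) (k : ℕ) (w : ℂ) :
    fib d p b 0 (n * k) x w = (fib d p b 0 n x)^[k] w := by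
  induction k generalizing w with
  | zero => simp [fib]
  | succ k ih =>
    have hk : (pt p 0)^[n * k] x = x := by
      rw [Function.iterate_mul]
      exact Function.iterate_fixed hx k
    rw [Nat.mul_succ, fib_add, hk, ih, Function.iterate_succ_apply']

/-- C8a. Robust covering in the fibers: for every `η > 0` and `R0` there are `k0 ≥ 1` and `r > 0`
such that for every base point `y` with `‖y - x‖ < r` the composition of length `n k0` over `y` maps
`ball wx η` onto a set containing `closedBall 0 R0`.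
Proof: B2b over `y = x` (radius `R0`), then A4c (`robust_cover`), since `fib (n k0) y → fib (n k0) x`
uniformly on compact sets as `y → x`. -/
theorem fiber_cover {d : ℕ} (hd : 2 ≤ d) {p : ℂ[X]} {b : Mon d → ℂ} (hb : topCoef d b ≠ 0)
    {n : ℕ} (hn : 1 ≤ n) {x : ℂ} (hx : (pt p 0)^[n] x = x) {wx : ℂ}
    (hw : fib d p b 0 n x wx = wx) (hw' : 1 < ‖deriv (fib d p b 0 n x) wx‖)
    (hexc : ∀ Q : ℂ[X], (∀ w, fib d p b 0 n x w = Q.eval w) → ∀ a, ¬ ExcAt Q a)
    {η : ℝ} (hη : 0 < η) (R0 : ℝ) :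
    ∃ k0 ≥ 1, ∃ r > 0, ∀ y, ‖y - x‖ < r →
      closedBall (0 : ℂ) R0 ⊆ fib d p b 0 (n * k0) y '' ball wx η := by
  obtain ⟨Q, hQd, hQ⟩ := fib_poly hd p hb 0 n x
  have hQf : fib d p b 0 n x = fun w => Q.eval w := funext hQ
  have hdeg : 2 ≤ Q.natDegree := by
    rw [hQd]
    calc 2 ≤ d := hd
      _ = d ^ 1 := (pow_one d).symm
      _ ≤ d ^ n := Nat.pow_le_pow_right (by omega) hn
  have hfix : Q.eval wx = wx := by rw [← hQ, hw]
  have hrep : 1 < ‖Q.derivative.eval wx‖ := by
    rw [hQf, Polynomial.deriv] at hw'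
    exact hw'
  obtain ⟨k0, hk0⟩ := onto_compact hdeg hfix hrep (hexc Q hQ) hη R0
  let k := max k0 1
  have hk1 : 1 ≤ k := le_max_right _ _
  have hcov := hk0 k (le_max_left _ _)
  have hgk : fib d p b 0 (n * k) x = (fun w => Q.eval w)^[k] := by
    funext w
    rw [C7_fib_iter hx, hQf]
  rw [← hgk] at hcov
  obtain ⟨P, hPd, hP⟩ := fib_poly hd p hb 0 (n * k) x
  have hPpos : P.natDegree ≠ 0 := by
    rw [hPd]
    positivity
  have hnc : ∀ a ∈ ball wx η, ¬ ∀ᶠ z in 𝓝 a, fib d p b 0 (n * k) x z = fib d p b 0 (n * k) x a := by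
    intro a _ hcon
    have hP0 : P - C (P.eval a) ≠ 0 := by
      intro h0
      apply hPpos
      rw [sub_eq_zero.1 h0]
      exact natDegree_C _
    have hfin : {z : ℂ | (P - C (P.eval a)).eval z = 0}.Finite := by
      have := (P - C (P.eval a)).rootSet_finite ℂ
      refine this.subset fun z hz => ?_
      rw [Polynomial.mem_rootSet]
      refine ⟨hP0, ?_⟩
      simpa using hz
    have hev : ∀ᶠ z in 𝓝 a, z ∈ {z : ℂ | (P - C (P.eval a)).eval z = 0} := by
      filter_upwards [hcon] with z hz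
      rw [hP, hP] at hz
      show (P - C (P.eval a)).eval z = 0
      rw [eval_sub, eval_C, hz, sub_self]
    have hinf : ({z : ℂ | (P - C (P.eval a)).eval z = 0}).Infinite := infinite_of_mem_nhds a hev
    exact hinf hfin
  obtain ⟨η', hη', V', hV'c, hV'V, hrob⟩ := robust_cover (isOpen_ball (x := wx) (ε := η))
    ((C7_fib_differentiable hd p hb 0 (n * k) x).differentiableOn) hnc
    (isCompact_closedBall (0 : ℂ) R0) hcov
  have hunif : ∀ᶠ y in 𝓝 x, ∀ w ∈ V', ‖fib d p b 0 (n * k) y w - fib d p b 0 (n * k) x w‖ < η' := by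
    refine hV'c.eventually_forall_of_forall_eventually fun w _ => ?_
    have hc : ContinuousAt (fun v : ℂ × ℂ =>
        ‖fib d p b 0 (n * k) v.1 v.2 - fib d p b 0 (n * k) x v.2‖) (x, w) := by
      apply Continuous.continuousAt
      exact ((C7_fib_continuous d p b 0 (n * k)).sub
        ((C7_fib_continuous d p b 0 (n * k)).comp (by fun_prop :
          Continuous (fun v : ℂ × ℂ => ((x, v.2) : ℂ × ℂ))))).norm
    have h0 : ‖fib d p b 0 (n * k) (x, w).1 (x, w).2 - fib d p b 0 (n * k) x (x, w).2‖ < η' := by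
      simpa using hη'
    exact hc.eventually_lt_const h0
  obtain ⟨r, hr, hball⟩ := Metric.eventually_nhds_iff.1 hunif
  refine ⟨k, hk1, r, hr, fun y hy => ?_⟩
  exact hrob _ (C7_fib_differentiable hd p hb 0 (n * k) y).differentiableOn fun w hw'' =>
    (hball (by rwa [dist_eq_norm]) w hw'').le

end SkewBif
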