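import Pool.Agent.SK.C7
import Pool.Agent.SK.C5
/-! ## MP_9cfccf_an, module C8 -/
open Set Metric Filter Topology Polynomial
namespace SkewBif

theorem C8_pt_eq (p : ℂ[X]) : pt p 0 = fun z => p.eval z := by
  funext z
  simp [pt]

theorem C8_pt_differentiable (p : ℂ[X]) (M : ℕ) : Differentiable ℂ ((pt p 0)^[M]) := by
  rw [C8_pt_eq]
  exact p.differentiable.iterate M

/-- the iterate is a polynomial -/
theorem C8_pt_iter (p : ℂ[X]) (M : ℕ) :
    ∃ P : ℂ[X], P.natDegree = p.natDegree ^ M ∧ ∀ z, (pt p 0)^[M] z = P.eval z := by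
  refine ⟨p.comp^[M] X, ?_, fun z => ?_⟩
  · rw [natDegree_iterate_comp, natDegree_X, mul_one]
  · rw [iterate_comp_eval, eval_X, C8_pt_eq]

theorem C8_deriv_add (p : ℂ[X]) (M N : ℕ) (z : ℂ) :
    deriv ((pt p 0)^[M + N]) z = deriv ((pt p 0)^[N]) ((pt p 0)^[M] z) *
      deriv ((pt p 0)^[M]) z := by
  have h : (pt p 0)^[M + N] = (pt p 0)^[N] ∘ (pt p 0)^[M] := by
    rw [Nat.add_comm, Function.iterate_add]
  rw [h, deriv_comp _ (C8_pt_differentiable p N _) (C8_pt_differentiable p M _)]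

/-- surjectivity of a nonconstant polynomial -/
theorem C8_surj (Q : ℂ[X]) (hQ : Q.natDegree ≠ 0) (a : ℂ) : ∃ w, Q.eval w = a := by
  have hdeg : (Q - C a).degree ≠ 0 := by
    intro h0
    have h1 : (Q - C a).natDegree = 0 := natDegree_eq_of_degree_eq_some h0
    rw [natDegree_sub_C] at h1
    exact hQ h1
  obtain ⟨w, hw⟩ := IsAlgClosed.exists_root (Q - C a) hdeg
  refine ⟨w, ?_⟩
  rw [IsRoot, eval_sub, eval_C] at hw
  exact sub_eq_zero.1 hw

theorem C8_fib_surj {d : ℕ} (hd : 2 ≤ d) (p : ℂ[X]) {b : Mon d → ℂ} (hb : topCoef d b ≠ 0)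
    (M : ℕ) (z a : ℂ) : ∃ w, fib d p b 0 M z w = a := by
  obtain ⟨Q, hQd, hQ⟩ := fib_poly hd p hb 0 M z
  obtain ⟨w, hw⟩ := C8_surj Q (by rw [hQd]; positivity) a
  exact ⟨w, by rw [hQ, hw]⟩

theorem C8_fib_one (d : ℕ) (p : ℂ[X]) (b : Mon d → ℂ) (z w : ℂ) :
    fib d p b 0 1 z w = qv d b z w := by
  simp [fib, sk]

/-- preimages of bounded points are bounded -/
theorem C8_bounded {d : ℕ} (p : ℂ[X]) {b : Mon d → ℂ} {Z0 R0 R : ℝ} (h1 : 1 ≤ R0)
    (hR : R0 ≤ R)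
    (hesc : ∀ z : ℂ, ‖z‖ ≤ Z0 → ∀ w : ℂ, R0 ≤ ‖w‖ → 2 * ‖w‖ ≤ ‖qv d b z w‖) (M : ℕ) :
    ∀ z w : ℂ, (∀ i < M, ‖(pt p 0)^[i] z‖ ≤ Z0) → ‖fib d p b 0 M z w‖ ≤ R → ‖w‖ ≤ R := by
  induction M with
  | zero =>
    intro z w _ h
    simpa [fib] using h
  | succ M ih =>
    intro z w hz h
    rw [fib_add] at h
    apply ih z w (fun i hi => hz i (Nat.lt_succ_of_lt hi))
    rw [C8_fib_one] at h
    by_contra hcon
    push Not at hcon
    have h2 := hesc ((pt p 0)^[M] z) (hz M (Nat.lt_succ_self M)) (fib d p b 0 M z w) (by linarith)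
    linarith

/-- C8. The return path. -/
theorem ret {d : ℕ} (hd : 2 ≤ d) {p : ℂ[X]} (hp : p.natDegree = d) {b : Mon d → ℂ}
    (hb : topCoef d b ≠ 0) {n : ℕ} (hn : 1 ≤ n) {x : ℂ} (hx : (pt p 0)^[n] x = x)
    (hmul : 1 < ‖deriv ((pt p 0)^[n]) x‖) {wx : ℂ} (hw : fib d p b 0 n x wx = wx)
    (hw' : 1 < ‖deriv (fib d p b 0 n x) wx‖)
    (hexc : ∀ Q : ℂ[X], (∀ w, fib d p b 0 n x w = Q.eval w) → ∀ a, ¬ ExcAt Q a)
    (hgen : ∀ k ≥ 1, ∀ z, (pt p 0)^[k] z = x → ∀ w, fib d p b 0 k z w = wx →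
      deriv (fib d p b 0 k z) w ≠ 0)
    {c0 : ℂ} (hc0 : p.derivative.eval c0 = 0) {m : ℕ} (hm : 1 ≤ m) (hland : (pt p 0)^[m] c0 = x) :
    ∃ c, p.derivative.eval c = 0 ∧ ∃ m2 ≥ 1, (pt p 0)^[m2] c = x ∧ ∃ w0,
      fib d p b 0 m2 c w0 = wx ∧ deriv (fib d p b 0 m2 c) w0 ≠ 0 ∧
      ∀ η > 0, ∃ y0 w1, dist y0 x < η ∧ dist w1 wx < η ∧ ∃ m1 ≥ 1, (pt p 0)^[m1] y0 = c ∧
        fib d p b 0 m1 y0 w1 = w0 ∧ deriv ((pt p 0)^[m1]) y0 ≠ 0 ∧
        deriv (fib d p b 0 m1 y0) w1 ≠ 0 := by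
  obtain ⟨P, hPd, hP⟩ := C8_pt_iter p n
  have hPf : (pt p 0)^[n] = fun z => P.eval z := funext hP
  have hPdeg : 2 ≤ P.natDegree := by
    rw [hPd, hp]
    calc 2 ≤ d := hd
      _ = d ^ 1 := (pow_one d).symm
      _ ≤ d ^ n := Nat.pow_le_pow_right (by omega) hn
  have hPx : P.eval x = x := by rw [← hP, hx]
  have hPrep : 1 < ‖P.derivative.eval x‖ := by
    rw [hPf, Polynomial.deriv] at hmul
    exact hmul
  -- not exceptional
  have hnexc : ¬ ExcAt P c0 := by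
    rintro ⟨c, hc⟩
    have h1 : P.eval c0 = c0 := by
      rw [hc]
      simp only [eval_add, eval_C, eval_mul, eval_pow, eval_sub, eval_X, sub_self]
      rw [zero_pow (by omega)]
      simp
    have h2 : (pt p 0)^[n] c0 = c0 := by rw [hP, h1]
    have h3 : (pt p 0)^[n * m] c0 = c0 := by
      rw [Function.iterate_mul]
      exact Function.iterate_fixed h2 m
    have hle : m ≤ n * m := Nat.le_mul_of_pos_left m hn
    have h4 : (pt p 0)^[n * m - m] x = c0 := by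
      rw [← hland, ← Function.iterate_add_apply, Nat.sub_add_cancel hle]
      exact h3
    have h5 : (pt p 0)^[(n * m - m) % n] x = c0 := by
      have h6 : (pt p 0)^[n * ((n * m - m) / n)] x = x := by
        rw [Function.iterate_mul]
        exact Function.iterate_fixed hx _
      rw [← h4]
      conv_rhs => rw [← Nat.mod_add_div (n * m - m) n, Function.iterate_add_apply, h6]
    have h7 : deriv ((pt p 0)^[n]) x = 0 := by
      rw [deriv_pt_iter]
      refine Finset.prod_eq_zero (Finset.mem_range.2 (Nat.mod_lt (n * m - m) (by omega))) ?_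
      rw [h5, hc0]
    rw [h7, norm_zero] at hmul
    linarith
  -- a neighbourhood where the derivative does not vanish
  have hdc : Continuous (deriv ((pt p 0)^[n])) := by
    rw [hPf]
    have : deriv (fun z => P.eval z) = fun z => P.derivative.eval z := by
      funext z
      exact Polynomial.deriv P
    rw [this]
    exact P.derivative.continuous
  have hdx : deriv ((pt p 0)^[n]) x ≠ 0 := by
    intro h0
    rw [h0, norm_zero] at hmul
    linarith
  obtain ⟨r2, hr2, hball2⟩ := Metric.eventually_nhds_iff.1 (hdc.continuousAt.eventually_ne hdx)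
  obtain ⟨r1, θ, u, A, hr1, _, hF⟩ := exists_fibLin (Q := (pt p 0)^[n]) (S := fun _ => 0)
    (C8_pt_differentiable p n) (differentiable_const 0) (lam := 0) (wb := x) hx hmul
    (by rw [norm_zero]; linarith) zero_ne_one hr2
  have hr1pos := hF.Rpos
  have hdne : ∀ y ∈ ball x r1, deriv ((pt p 0)^[n]) y ≠ 0 := fun y hy =>
    hball2 (lt_of_lt_of_le (mem_ball.1 hy) hr1)
  have hcrit : ∀ y ∈ ball x r1, ∀ i < n, p.derivative.eval ((pt p 0)^[i] y) ≠ 0 := by
    intro y hy i hi h0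
    apply hdne y hy
    rw [deriv_pt_iter]
    exact Finset.prod_eq_zero (Finset.mem_range.2 hi) h0
  -- the orbit through the critical point
  obtain ⟨k, y1, hy1, hk⟩ := onto_point hPdeg hPx hPrep hnexc hr1pos
  rw [← hPf, ← Function.iterate_mul] at hk
  have hex : ∃ j, p.derivative.eval ((pt p 0)^[j] y1) = 0 := ⟨n * k, by rw [hk, hc0]⟩
  classical
  let ma := Nat.find hex
  have hma : p.derivative.eval ((pt p 0)^[ma] y1) = 0 := Nat.find_spec hex
  have hma' : ∀ i < ma, p.derivative.eval ((pt p 0)^[i] y1) ≠ 0 := fun i hi => Nat.find_min hex hi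
  have hmale : ma ≤ n * k := Nat.find_min' hex (by rw [hk, hc0])
  let c := (pt p 0)^[ma] y1
  have hderma : deriv ((pt p 0)^[ma]) y1 ≠ 0 := by
    rw [deriv_pt_iter, Finset.prod_ne_zero_iff]
    intro i hi
    exact hma' i (Finset.mem_range.1 hi)
  let m2 := m + (n * k - ma)
  have hm2 : 1 ≤ m2 := le_trans hm (Nat.le_add_right _ _)
  have hcx : (pt p 0)^[m2] c = x := by
    show (pt p 0)^[m + (n * k - ma)] ((pt p 0)^[ma] y1) = x
    rw [Function.iterate_add_apply, ← Function.iterate_add_apply _ (n * k - ma) ma,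
      Nat.sub_add_cancel hmale, hk, hland]
  obtain ⟨w0, hw0⟩ := C8_fib_surj hd p hb m2 c wx
  have hw0' := hgen m2 hm2 c hcx w0 hw0
  obtain ⟨w1', hw1'⟩ := C8_fib_surj hd p hb ma y1 w0
  -- bounded base points
  have hubd : ∃ Z0 : ℝ, ∀ y ∈ closedBall x r1, ∀ s < n, ‖(pt p 0)^[s] y‖ ≤ Z0 := by
    have h1 : ∀ s : ℕ, ∃ Z : ℝ, ∀ y ∈ closedBall x r1, ‖(pt p 0)^[s] y‖ ≤ Z := by
      intro s
      obtain ⟨Z, hZ⟩ := (isCompact_closedBall x r1).exists_bound_of_continuousOn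
        (C8_pt_differentiable p s).continuous.continuousOn
      exact ⟨Z, hZ⟩
    choose Z hZ using h1
    refine ⟨∑ s ∈ Finset.range n, |Z s|, fun y hy s hs => ?_⟩
    calc ‖(pt p 0)^[s] y‖ ≤ Z s := hZ s y hy
      _ ≤ |Z s| := le_abs_self _
      _ ≤ ∑ s ∈ Finset.range n, |Z s| :=
        Finset.single_le_sum (f := fun s => |Z s|) (fun i _ => abs_nonneg _) (Finset.mem_range.2 hs)
  obtain ⟨Z0, hZ0⟩ := hubd
  obtain ⟨R0, hR0, hesc⟩ := fiber_escape hd hb Z0
  let R := max R0 ‖w1'‖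
  -- the orbit of y1 under u
  have hu : ∀ j : ℕ, ∀ y ∈ ball x r1, u^[j] y ∈ ball x r1 ∧ (pt p 0)^[n * j] (u^[j] y) = y ∧
      deriv ((pt p 0)^[n * j]) (u^[j] y) ≠ 0 ∧ ‖u^[j] y - x‖ ≤ θ ^ j * ‖y - x‖ ∧
      ∀ i < n * j, ‖(pt p 0)^[i] (u^[j] y)‖ ≤ Z0 := by
    intro j
    induction j with
    | zero =>
      intro y hy
      refine ⟨hy, rfl, ?_, ?_, ?_⟩
      · simp [deriv_id]
      · simp
      · intro i hi
        simp at hi
    | succ j ih =>
      intro y hy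
      have huy : u y ∈ ball x r1 := by
        rw [mem_ball, dist_eq_norm]
        have h1 := hF.u_le hy
        rw [mem_ball, dist_eq_norm] at hy
        calc ‖u y - x‖ ≤ θ * ‖y - x‖ := h1
          _ ≤ 1 * ‖y - x‖ := mul_le_mul_of_nonneg_right hF.th1.le (norm_nonneg _)
          _ < r1 := by rw [one_mul]; exact hy
      obtain ⟨g1, g2, g3, g4, g5⟩ := ih (u y) huy
      rw [Function.iterate_succ_apply]
      have e1 : n * (j + 1) = n * j + n := by ring
      refine ⟨g1, ?_, ?_, ?_, ?_⟩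
      · rw [e1, Nat.add_comm, Function.iterate_add_apply, g2]
        exact hF.u_inv y hy
      · rw [e1, C8_deriv_add, g2]
        exact mul_ne_zero (hdne _ huy) g3
      · calc ‖u^[j] (u y) - x‖ ≤ θ ^ j * ‖u y - x‖ := g4
          _ ≤ θ ^ j * (θ * ‖y - x‖) :=
            mul_le_mul_of_nonneg_left (hF.u_le hy) (pow_nonneg hF.th0 _)
          _ = θ ^ (j + 1) * ‖y - x‖ := by ring
      · intro i hi
        rcases lt_or_ge i (n * j) with h | h
        · exact g5 i h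
        · obtain ⟨s, rfl⟩ := Nat.exists_eq_add_of_le h
          rw [Nat.add_comm (n * j) s, Function.iterate_add_apply, g2]
          exact hZ0 (u y) (ball_subset_closedBall huy) s (by rw [e1] at hi; omega)
  refine ⟨c, hma, m2, hm2, hcx, w0, hw0, hw0', fun η hη => ?_⟩
  obtain ⟨k0, hk0, r, hr, hcov⟩ := fiber_cover hd hb hn hx hw hw' hexc hη R
  have hlim : Tendsto (fun j : ℕ => θ ^ j * ‖y1 - x‖) atTop (𝓝 0) := by
    have := (tendsto_pow_atTop_nhds_zero_of_lt_one hF.th0 hF.th1).mul_const ‖y1 - x‖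
    simpa using this
  obtain ⟨j, hj⟩ := (hlim.eventually (gt_mem_nhds (lt_min hr hη))).exists
  -- choice of the points
  let y' := u^[j] y1
  let y0 := u^[j + k0] y1
  obtain ⟨a1, a2, a3, a4, a5⟩ := hu j y1 hy1
  obtain ⟨b1, b2, b3, b4, b5⟩ := hu (j + k0) y1 hy1
  have hy0y' : (pt p 0)^[n * k0] y0 = y' := by
    show (pt p 0)^[n * k0] (u^[j + k0] y1) = u^[j] y1
    rw [Nat.add_comm, Function.iterate_add_apply]
    exact (hu k0 (u^[j] y1) a1).2.1
  have hy0x : ‖y0 - x‖ < min r η := by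
    have h1 : θ ^ (j + k0) ≤ θ ^ j := pow_le_pow_of_le_one hF.th0 hF.th1.le (Nat.le_add_right _ _)
    calc ‖y0 - x‖ ≤ θ ^ (j + k0) * ‖y1 - x‖ := b4
      _ ≤ θ ^ j * ‖y1 - x‖ := mul_le_mul_of_nonneg_right h1 (norm_nonneg _)
      _ < min r η := hj
  obtain ⟨w', hw''⟩ := C8_fib_surj hd p hb (n * j) y' w1'
  have hw'R : ‖w'‖ ≤ R := C8_bounded p hR0 (le_max_left _ _) hesc (n * j) y' w' a5
    (by rw [hw'']; exact le_max_right _ _)
  obtain ⟨w1, hw1b, hw1⟩ := hcov y0 (lt_of_lt_of_le hy0x (min_le_left _ _))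
    (by rw [mem_closedBall, dist_zero_right]; exact hw'R : w' ∈ closedBall (0 : ℂ) R)
  have f1 : (pt p 0)^[n * k0 + n * j + ma] y0 = c := by
    rw [Nat.add_comm, Function.iterate_add_apply, Nat.add_comm (n * k0), Function.iterate_add_apply,
      hy0y']
    show (pt p 0)^[ma] ((pt p 0)^[n * j] (u^[j] y1)) = c
    rw [a2]
  have f0 : (pt p 0)^[n * k0 + n * j] y0 = y1 := by
    rw [Nat.add_comm (n * k0), Function.iterate_add_apply, hy0y']
    exact a2
  have f2 : fib d p b 0 (n * k0 + n * j + ma) y0 w1 = w0 := by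
    rw [fib_add, f0, fib_add, hy0y', hw1, hw'', hw1']
  have f3 : deriv ((pt p 0)^[n * k0 + n * j + ma]) y0 ≠ 0 := by
    rw [C8_deriv_add, f0]
    refine mul_ne_zero hderma ?_
    have e : n * k0 + n * j = n * (j + k0) := by ring
    rw [e]
    exact b3
  refine ⟨y0, w1, ?_, mem_ball.1 hw1b, n * k0 + n * j + ma, ?_, f1, f2, f3, ?_⟩
  · rw [dist_eq_norm]
    exact lt_of_lt_of_le hy0x (min_le_right _ _)
  · have : 1 ≤ n * k0 := Nat.mul_pos hn hk0
    omega
  · have g1 : (pt p 0)^[n * k0 + n * j + ma + m2] y0 = x := by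
      rw [Nat.add_comm, Function.iterate_add_apply, f1, hcx]
    have g2 : fib d p b 0 (n * k0 + n * j + ma + m2) y0 w1 = wx := by
      rw [fib_add, f1, f2, hw0]
    have g3 := hgen (n * k0 + n * j + ma + m2) (by omega) y0 g1 w1 g2
    have g4 : fib d p b 0 (n * k0 + n * j + ma + m2) y0 =
        fib d p b 0 m2 c ∘ fib d p b 0 (n * k0 + n * j + ma) y0 := by
      funext w
      rw [fib_add, f1]
      rfl
    rw [g4, deriv_comp _ (C7_fib_differentiable hd p hb 0 m2 c _)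
      (C7_fib_differentiable hd p hb 0 _ y0 _)] at g3
    exact right_ne_zero_of_mul g3

end SkewBif
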