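import Pool.Agent.SK.C1b
import Pool.Agent.SK.C5
/-! ## MP_9cfccf_an, module C9 -/
open Set Metric Filter Topology Polynomial
namespace SkewBif

theorem C9_poly (p : ℂ[X]) {E : Type*} [NormedAddCommGroup E] [NormedSpace ℂ E]
    {k : WithTop ℕ∞} {f : E → ℂ} (hf : ContDiff ℂ k f) : ContDiff ℂ k (fun x => p.eval (f x)) := by
  have h : (fun x => p.eval (f x)) = fun x => ∑ i ∈ Finset.range (p.natDegree + 1),
      p.coeff i * f x ^ i := funext fun x => p.eval_eq_sum_range (f x)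
  rw [h]
  exact ContDiff.sum fun i _ => contDiff_const.mul (hf.pow i)

theorem C9_qv (d : ℕ) (b : Mon d → ℂ) {E : Type*} [NormedAddCommGroup E] [NormedSpace ℂ E]
    {k : WithTop ℕ∞} {f g : E → ℂ} (hf : ContDiff ℂ k f) (hg : ContDiff ℂ k g) :
    ContDiff ℂ k (fun x => qv d b (f x) (g x)) := by
  unfold qv
  exact ContDiff.sum fun m _ => contDiff_const.mul ((hf.pow _).mul (hg.pow _))

theorem C9_pt (p : ℂ[X]) (n : ℕ) {E : Type*} [NormedAddCommGroup E] [NormedSpace ℂ E]
    {k : WithTop ℕ∞} {f g : E → ℂ} (hf : ContDiff ℂ k f) (hg : ContDiff ℂ k g) :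
    ContDiff ℂ k (fun q => (pt p (f q))^[n] (g q)) := by
  induction n with
  | zero => exact hg
  | succ n ih =>
    simp only [Function.iterate_succ_apply']
    exact (C9_poly p ih).add hf

theorem C9_fib_succ (d : ℕ) (p : ℂ[X]) (b : Mon d → ℂ) (τ σ : ℂ) (M : ℕ) (z w : ℂ) :
    fib d p (shift d b σ) τ (M + 1) z w =
      qv d b ((pt p τ)^[M] z) (fib d p (shift d b σ) τ M z w) + σ := by
  rw [C1b_fib_succ, qpoly_eval, qv_shift]

/-- Joint smoothness in `((τ, x, σ), w)`. -/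
theorem fib_contDiff (d : ℕ) (p : ℂ[X]) (b : Mon d → ℂ) (M : ℕ) (k : WithTop ℕ∞) :
    ContDiff ℂ k (fun q : (ℂ × ℂ × ℂ) × ℂ =>
      fib d p (shift d b q.1.2.2) q.1.1 M q.1.2.1 q.2) := by
  induction M with
  | zero => exact contDiff_snd
  | succ M ih =>
    simp only [C9_fib_succ]
    refine (C9_qv d b (C9_pt p M contDiff_fst.fst contDiff_fst.snd.fst) ih).add
      contDiff_fst.snd.snd

theorem drift_contDiff (d : ℕ) (p : ℂ[X]) (b : Mon d → ℂ) (M : ℕ) (k : WithTop ℕ∞) :
    ContDiff ℂ k (fun q : (ℂ × ℂ × ℂ) × ℂ =>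
      drift d p (shift d b q.1.2.2) q.1.1 M q.1.2.1 q.2) := by
  induction M with
  | zero =>
    unfold drift
    simp only [Finset.range_zero, Finset.sum_empty]
    exact contDiff_const
  | succ M ih =>
    simp only [C1b_drift_succ]
    exact ((C9_poly _ (C9_pt p M contDiff_fst.fst contDiff_fst.snd.fst)).mul ih).add
      (fib_contDiff d p b M k)

theorem mult_contDiff (p : ℂ[X]) (n : ℕ) (k : WithTop ℕ∞) :
    ContDiff ℂ k (fun q : ℂ × ℂ => deriv ((pt p q.1)^[n]) q.2) := by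
  simp only [deriv_pt_iter]
  exact contDiff_prod fun i _ => C9_poly _ (C9_pt p i contDiff_fst contDiff_snd)

theorem pt_iter_contDiff (p : ℂ[X]) (n : ℕ) (k : WithTop ℕ∞) :
    ContDiff ℂ k (fun q : ℂ × ℂ => (pt p q.1)^[n] q.2) :=
  C9_pt p n contDiff_fst contDiff_snd

theorem C9_fix (p : ℂ[X]) (τ : ℂ) {n : ℕ} {x : ℂ} (hx : (pt p τ)^[n] x = x) (N : ℕ) :
    (pt p τ)^[n * N] x = x := by
  rw [Function.iterate_mul]
  exact Function.iterate_fixed hx N

/-- Over a periodic base point, fiber compositions of length `n N` are iterates of the return map. -/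
theorem fib_iter {d : ℕ} (p : ℂ[X]) (b : Mon d → ℂ) (τ : ℂ) {n : ℕ} {x : ℂ}
    (hx : (pt p τ)^[n] x = x) (N : ℕ) :
    fib d p b τ (n * N) x = (fib d p b τ n x)^[N] := by
  induction N with
  | zero => rfl
  | succ N ih =>
    funext w
    rw [Nat.mul_succ, fib_add, C9_fix p τ hx, ih, Function.iterate_succ_apply']

theorem C9_dsum_succ (Q S : ℂ → ℂ) (lam : ℂ) (N : ℕ) (w : ℂ) :
    dsum Q S lam (N + 1) w = lam * dsum Q S lam N w + S (Q^[N] w) := by
  unfold dsum
  rw [Finset.sum_range_succ, Finset.mul_sum]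
  congr 1
  · refine Finset.sum_congr rfl fun k hk => ?_
    have hk' : k < N := Finset.mem_range.1 hk
    have e : N + 1 - 1 - k = (N - 1 - k) + 1 := by omega
    rw [e, pow_succ]
    ring
  · simp

/-- Over a periodic base point the drift of length `n N` is the partial sum `dsum`. -/
theorem drift_dsum {d : ℕ} (p : ℂ[X]) (b : Mon d → ℂ) (τ : ℂ) {n : ℕ} {x : ℂ}
    (hx : (pt p τ)^[n] x = x) (N : ℕ) (w : ℂ) :
    drift d p b τ (n * N) x w =
      dsum (fib d p b τ n x) (drift d p b τ n x) (deriv ((pt p τ)^[n]) x) N w := by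
  induction N with
  | zero => simp [drift, dsum]
  | succ N ih =>
    rw [Nat.mul_succ, drift_add, C9_fix p τ hx, ih, C9_dsum_succ, ← deriv_pt_iter,
      fib_iter p b τ hx]

theorem mult_pow (p : ℂ[X]) (τ : ℂ) {n : ℕ} {x : ℂ} (hx : (pt p τ)^[n] x = x) (N : ℕ) :
    (pt p τ)^[n * N] x = x ∧
      deriv ((pt p τ)^[n * N]) x = deriv ((pt p τ)^[n]) x ^ N := by
  refine ⟨C9_fix p τ hx N, ?_⟩
  have h1 := HasDerivAt.iterate x (C1a_hasDerivAt_iter p τ n x) hx N
  rw [Function.iterate_mul, h1.deriv, deriv_pt_iter]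

/-- `dsum` along a backward orbit. -/
theorem dsum_u {Q S u : ℂ → ℂ} {lam : ℂ} {D : Set ℂ} (hmap : ∀ w ∈ D, u w ∈ D)
    (hinv : ∀ w ∈ D, Q (u w) = w) (m : ℕ) {w : ℂ} (hw : w ∈ D) :
    dsum Q S lam m (u^[m] w) = ∑ j ∈ Finset.range m, lam ^ j * S (u^[j + 1] w) := by
  have hmem : ∀ k, u^[k] w ∈ D := by
    intro k
    induction k with
    | zero => exact hw
    | succ k ih =>
      rw [Function.iterate_succ_apply']
      exact hmap _ ih
  have hQ : ∀ k j, Q^[k] (u^[k + j] w) = u^[j] w := by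
    intro k
    induction k with
    | zero => intro j; rw [zero_add]; rfl
    | succ k ih =>
      intro j
      rw [Function.iterate_succ_apply']
      have e : k + 1 + j = k + (j + 1) := by omega
      rw [e, ih, Function.iterate_succ_apply']
      exact hinv _ (hmem j)
  unfold dsum
  rw [← Finset.sum_range_reflect]
  refine Finset.sum_congr rfl fun j hj => ?_
  have hj' : j < m := Finset.mem_range.1 hj
  have e1 : m - 1 - (m - 1 - j) = j := by omega
  have e2 : m = (m - 1 - j) + (j + 1) := by omega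
  have h := hQ (m - 1 - j) (j + 1)
  rw [← e2] at h
  rw [e1, h]

end SkewBif
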