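import Pool.Agent.SK.Defs
/-! ## MP_9cfccf_an, module D1 -/
open Set Metric Filter Topology Polynomial
open scoped ComplexConjugate
namespace SkewBif

theorem D1_conj {lam : ℂ} (h1 : ‖lam‖ = 1) (a : ℕ) : conj (lam⁻¹ ^ a) = lam ^ a := by
  have h2 : lam⁻¹ = conj lam := Complex.inv_eq_conj h1
  rw [h2, map_pow, Complex.conj_conj]

theorem D1_im {lam : ℂ} (h1 : ‖lam‖ = 1) (h2 : lam ^ 2 ≠ 1) : lam.im ≠ 0 := by
  intro h
  apply h2
  have h3 : lam.re * lam.re + lam.im * lam.im = 1 := by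
    rw [← Complex.normSq_apply, Complex.normSq_eq_norm_sq, h1, one_pow]
  rw [h, mul_zero, add_zero] at h3
  apply Complex.ext
  · rw [pow_two, Complex.mul_re, h, mul_zero, sub_zero, h3, Complex.one_re]
  · rw [pow_two, Complex.mul_im, h, Complex.one_im]
    ring

theorem D1_pos {lam : ℂ} (h1 : ‖lam‖ = 1) (h2 : lam ^ 2 ≠ 1) {W : ℂ} (hW : ‖W‖ = 1) :
    ∃ n : ℕ, 0 < (W * lam ^ n).re := by
  by_contra hcon
  push Not at hcon
  have hne : lam - 1 ≠ 0 := by
    intro h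
    apply h2
    have : lam = 1 := by linear_combination h
    rw [this, one_pow]
  have hnorm : ∀ n : ℕ, ‖W * lam ^ n‖ = 1 := fun n => by
    rw [norm_mul, norm_pow, h1, hW, one_pow, one_mul]
  -- the partial sums are bounded
  have hsum : ∀ N : ℕ, ∑ n ∈ Finset.range N, -(W * lam ^ n).re ≤ 2 / ‖lam - 1‖ := by
    intro N
    have e1 : ∑ n ∈ Finset.range N, -(W * lam ^ n).re =
        -(W * ((lam ^ N - 1) / (lam - 1))).re := by
      rw [← geom_sum_eq (by intro h; apply hne; rw [h, sub_self]) N, Finset.sum_neg_distrib,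
        Finset.mul_sum, Complex.re_sum]
    rw [e1]
    refine (neg_le_abs _).trans ((Complex.abs_re_le_norm _).trans ?_)
    rw [norm_mul, hW, one_mul, norm_div]
    have h3 : ‖lam ^ N - 1‖ ≤ 2 := by
      refine (norm_sub_le _ _).trans ?_
      rw [norm_pow, h1, one_pow, norm_one]
      norm_num
    exact div_le_div_of_nonneg_right h3 (norm_nonneg _)
  have hS : Summable fun n : ℕ => -(W * lam ^ n).re :=
    summable_of_sum_range_le (fun n => neg_nonneg.2 (hcon n)) hsum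
  have hlim : Tendsto (fun n : ℕ => (W * lam ^ n).re) atTop (𝓝 0) := by
    have := hS.tendsto_atTop_zero.neg
    simpa using this
  have hlim1 : Tendsto (fun n : ℕ => (W * lam ^ (n + 1)).re) atTop (𝓝 0) :=
    hlim.comp (tendsto_add_atTop_nat 1)
  -- the energy
  have hE : ∀ n : ℕ, (W * lam ^ (n + 1)).re ^ 2 - 2 * lam.re * ((W * lam ^ (n + 1)).re *
      (W * lam ^ n).re) + (W * lam ^ n).re ^ 2 = lam.im ^ 2 := by
    intro n
    have e1 : (W * lam ^ (n + 1)).re =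
        (W * lam ^ n).re * lam.re - (W * lam ^ n).im * lam.im := by
      rw [pow_succ, ← mul_assoc, Complex.mul_re]
    have e2 : (W * lam ^ n).re * (W * lam ^ n).re + (W * lam ^ n).im * (W * lam ^ n).im = 1 := by
      rw [← Complex.normSq_apply, Complex.normSq_eq_norm_sq, hnorm n, one_pow]
    have e3 : lam.re * lam.re + lam.im * lam.im = 1 := by
      rw [← Complex.normSq_apply, Complex.normSq_eq_norm_sq, h1, one_pow]
    rw [e1]
    generalize (W * lam ^ n).re = x at e2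
    generalize (W * lam ^ n).im = y at e2
    linear_combination (lam.im ^ 2) * e2 - x ^ 2 * e3
  have hlimE : Tendsto (fun n : ℕ => (W * lam ^ (n + 1)).re ^ 2 - 2 * lam.re *
      ((W * lam ^ (n + 1)).re * (W * lam ^ n).re) + (W * lam ^ n).re ^ 2) atTop
      (𝓝 (0 ^ 2 - 2 * lam.re * (0 * 0) + 0 ^ 2)) :=
    ((hlim1.pow 2).sub ((hlim1.mul hlim).const_mul (2 * lam.re))).add (hlim.pow 2)
  have hconst : Tendsto (fun n : ℕ => (W * lam ^ (n + 1)).re ^ 2 - 2 * lam.re *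
      ((W * lam ^ (n + 1)).re * (W * lam ^ n).re) + (W * lam ^ n).re ^ 2) atTop
      (𝓝 (lam.im ^ 2)) := by
    simp only [hE]
    exact tendsto_const_nhds
  have h5 := tendsto_nhds_unique hconst hlimE
  have h6 : lam.im ^ 2 = 0 := by
    rw [h5]; ring
  exact D1_im h1 h2 (pow_eq_zero_iff (two_ne_zero) |>.1 h6)

/-- D1. For a unit number `lam ≠ ± 1` the directions `lam^(-a)`, `a ≥ A0`, positively span the plane,
uniformly for a finite set of exponents.
Proof. By compactness of the circle (the condition `0 < Re (Z * conj (lam⁻¹ ^ a))` is open in `Z`, homogeneous), it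
suffices that for every `Z` with `‖Z‖ = 1` there is `a ≥ A0` with `Re (Z * lam ^ a) > 0`
(`conj (lam⁻¹) = lam`). If `Re (Z lam^a) ≤ 0` for all `a ≥ A0`: the partial sums of
`∑ Z lam^a` are bounded by `2 / ‖lam - 1‖`, so `∑ |Re (Z lam^a)| < ∞`, and `Re (Z lam^a) → 0`; then
`Z lam^a` approaches `{± I}`, and so does `Z lam^(a+1)`, so `lam` is arbitrarily close to `{1, -1}`:
contradiction. -/
theorem unit_cover {lam : ℂ} (h1 : ‖lam‖ = 1) (h2 : lam ^ 2 ≠ 1) (A0 : ℕ) :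
    ∃ s : Finset ℕ, (∀ a ∈ s, A0 ≤ a) ∧ ∃ ρ₁ : ℝ, 0 < ρ₁ ∧ ρ₁ ≤ 1 ∧
      ∀ Z : ℂ, ∃ a ∈ s, ρ₁ * ‖Z‖ ≤ (Z * conj (lam⁻¹ ^ a)).re := by
  set U : ℕ → Set ℂ := fun n => {Z | ∃ a, a ≤ n ∧ A0 ≤ a ∧ 1 / ((n : ℝ) + 1) < (Z * lam ^ a).re}
    with hU
  have hopen : ∀ n, IsOpen (U n) := by
    intro n
    have : U n = ⋃ a : ℕ, {Z | a ≤ n ∧ A0 ≤ a ∧ 1 / ((n : ℝ) + 1) < (Z * lam ^ a).re} := by
      ext Z
      simp [hU]
    rw [this]
    refine isOpen_iUnion fun a => ?_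
    refine (isOpen_const (p := a ≤ n)).and ((isOpen_const (p := A0 ≤ a)).and ?_)
    exact isOpen_lt continuous_const
      (Complex.continuous_re.comp (continuous_id.mul continuous_const))
  have hmono : Monotone U := by
    intro n m hnm Z hZ
    obtain ⟨a, ha, hA, hr⟩ := hZ
    refine ⟨a, ha.trans hnm, hA, lt_of_le_of_lt ?_ hr⟩
    apply one_div_le_one_div_of_le (by positivity)
    have : (n : ℝ) ≤ m := by exact_mod_cast hnm
    linarith
  have hcov : sphere (0 : ℂ) 1 ⊆ ⋃ n, U n := by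
    intro Z hZ
    rw [mem_sphere_zero_iff_norm] at hZ
    have hW : ‖Z * lam ^ A0‖ = 1 := by rw [norm_mul, norm_pow, h1, hZ, one_pow, one_mul]
    obtain ⟨n, hn⟩ := D1_pos h1 h2 hW
    rw [mul_assoc, ← pow_add] at hn
    obtain ⟨k, hk⟩ := exists_nat_one_div_lt hn
    refine mem_iUnion.2 ⟨max k (A0 + n), A0 + n, le_max_right _ _, Nat.le_add_right _ _,
      lt_of_le_of_lt ?_ hk⟩
    apply one_div_le_one_div_of_le (by positivity)
    have : (k : ℝ) ≤ ((max k (A0 + n) : ℕ) : ℝ) := by exact_mod_cast le_max_left _ _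
    linarith
  obtain ⟨n, hn⟩ := (isCompact_sphere (0 : ℂ) 1).elim_directed_cover U hopen hcov
    hmono.directed_le
  refine ⟨Finset.Icc A0 n, fun a ha => (Finset.mem_Icc.1 ha).1, 1 / ((n : ℝ) + 1),
    by positivity, ?_, ?_⟩
  · rw [div_le_one (by positivity)]
    have : (0 : ℝ) ≤ n := Nat.cast_nonneg n
    linarith
  · intro Z
    by_cases hZ : Z = 0
    · obtain ⟨a, ha, hA, -⟩ := hn (mem_sphere_zero_iff_norm.2 (norm_one : ‖(1 : ℂ)‖ = 1))
      refine ⟨a, Finset.mem_Icc.2 ⟨hA, ha⟩, ?_⟩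
      rw [hZ]
      simp
    · have hZ' : (0 : ℝ) < ‖Z‖ := norm_pos_iff.2 hZ
      have hsph : Z / (‖Z‖ : ℂ) ∈ sphere (0 : ℂ) 1 := by
        rw [mem_sphere_zero_iff_norm, norm_div, Complex.norm_real, norm_norm]
        exact div_self hZ'.ne'
      obtain ⟨a, ha, hA, hr⟩ := hn hsph
      refine ⟨a, Finset.mem_Icc.2 ⟨hA, ha⟩, ?_⟩
      rw [D1_conj h1]
      have e1 : (Z / (‖Z‖ : ℂ) * lam ^ a).re = (Z * lam ^ a).re / ‖Z‖ := by
        rw [div_mul_eq_mul_div, Complex.div_ofReal_re]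
      rw [e1, lt_div_iff₀ hZ'] at hr
      exact hr.le

end SkewBif
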