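import Pool.Agent.SK.A8
/-! ## MP_9cfccf_an, module D2 -/
open Set Metric Filter Topology Polynomial
open scoped ComplexConjugate
namespace SkewBif

/-- D2. The abstract blender lemma. The maps `G i` are close to `(Z, w) ↦ (μ⁻¹ Z + t i, ...)` with
`‖μ‖ = ‖t i‖ = 1`, and contract the second coordinate. Then every almost constant graph
`Z = ψ w` of small height contains, for a suitable sequence `σ`, points of all the images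
`G (σ 0) (G (σ 1) ( ... (closedBall 0 K0 × closedBall wb ρ)))`.

Proof. Take `K0 = max 4 (2 / ρ₁)`, `η = ρ₁ / (8 (ρ + 1))`, and `e ≤ η / 4` small (`e ≤ ρ₁ / 8`, ...).
Class: `‖ψ w‖ ≤ K0` and `ψ` is `η`-Lipschitz on the closed disc (in the statement `e ≤ η`). Step:
for `ψ` in the class let `Z0 = ψ wb`; there is `i` with `‖Z0 - t i‖ ≤ K0 - ρ₁ / 2`: if
`‖Z0‖ ≤ K0 / 2` any `i` works (`K0/2 + 1 ≤ K0 - 1`); if `K0/2 ≤ ‖Z0‖ ≤ K0` take the `i` of `hcov`: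
`‖Z0 - t i‖² = ‖Z0‖² - 2 Re (Z0 conj (t i)) + 1 ≤ ‖Z0‖² - 2 ρ₁ ‖Z0‖ + 1 ≤ K0² - 2 ρ₁ K0 + 1
≤ (K0 - ρ₁/2)²` since `ρ₁ K0 ≥ 1` (the quadratic is increasing for `‖Z0‖ ≥ ρ₁`). Solve, by A8 with
`α Z w = (G i (Z, w)).1 - μ⁻¹ Z`, `β Z w = (G i (Z, w)).2`, `D' = closedBall wb ρ`, `C = η`, `lz = e`,
`lw = 1/8`, `Lz = Lw = e`, `K = K0 + 2`, the equation `(G i (φ w, w)).1 = ψ ((G i (φ w, w)).2)`; then
`‖φ w‖ = ‖ψ(β) - α‖ ≤ ‖Z0 - t i‖ + η ρ + e ≤ K0` and `Lip φ ≤ 2 (η/8 + e) ≤ η`. So `φ` is in the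
class and `G i` maps the graph of `φ` into the graph of `ψ`. Iterate (dependent choice) to get `σ`
and `ψ_k`; the point `v = (ψ_k wb, wb)`. -/
theorem blender_abstract {ι : Type} [Finite ι] {t : ι → ℂ} {ρ₁ ρ : ℝ} (hρ₁ : 0 < ρ₁)
    (hρ₁' : ρ₁ ≤ 1) (hρ : 0 < ρ) (ht : ∀ i, ‖t i‖ = 1)
    (hcov : ∀ Z : ℂ, ∃ i, ρ₁ * ‖Z‖ ≤ (Z * conj (t i)).re) :
    ∃ K0 > 0, ∃ e > 0, ∀ (wb μ : ℂ), ‖μ‖ = 1 → ∀ G : ι → X2 → X2,
      (∀ i, ∀ v ∈ closedBall (0 : ℂ) (K0 + 2) ×ˢ closedBall wb ρ,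
        ‖(G i v).1 - (μ⁻¹ * v.1 + t i)‖ ≤ e ∧ (G i v).2 ∈ closedBall wb ρ) →
      (∀ i, ∀ v ∈ closedBall (0 : ℂ) (K0 + 2) ×ˢ closedBall wb ρ,
        ∀ v' ∈ closedBall (0 : ℂ) (K0 + 2) ×ˢ closedBall wb ρ,
        ‖((G i v).1 - μ⁻¹ * v.1) - ((G i v').1 - μ⁻¹ * v'.1)‖
            ≤ e * (‖v.1 - v'.1‖ + ‖v.2 - v'.2‖) ∧
          ‖(G i v).2 - (G i v').2‖ ≤ e * ‖v.1 - v'.1‖ + (1 / 8) * ‖v.2 - v'.2‖) →
      ∀ ψ : ℂ → ℂ, (∀ w ∈ closedBall wb ρ, ‖ψ w‖ ≤ e) →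
        (∀ w ∈ closedBall wb ρ, ∀ w' ∈ closedBall wb ρ, ‖ψ w - ψ w'‖ ≤ e * ‖w - w'‖) →
        ∃ σ : ℕ → ι, ∀ k, ∃ v ∈ closedBall (0 : ℂ) K0 ×ˢ closedBall wb ρ,
          ∃ w ∈ closedBall wb ρ, word G σ k v = (ψ w, w) := by
  obtain ⟨K0, hK4, hKρ⟩ : ∃ K0 : ℝ, 4 ≤ K0 ∧ 2 ≤ ρ₁ * K0 := by
    refine ⟨max 4 (2 / ρ₁), le_max_left _ _, ?_⟩
    calc (2 : ℝ) = ρ₁ * (2 / ρ₁) := by field_simp
      _ ≤ ρ₁ * max 4 (2 / ρ₁) := mul_le_mul_of_nonneg_left (le_max_right _ _) hρ₁.le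
  obtain ⟨η, hη, hη8, hηρ⟩ : ∃ η : ℝ, 0 < η ∧ η ≤ 1 / 8 ∧ η * ρ ≤ ρ₁ / 8 := by
    refine ⟨ρ₁ / (8 * (ρ + 1)), by positivity, ?_, ?_⟩
    · rw [div_le_div_iff₀ (by positivity) (by norm_num)]
      nlinarith
    · rw [div_mul_eq_mul_div, div_le_div_iff₀ (by positivity) (by norm_num)]
      nlinarith
  obtain ⟨e, he, heη, heρ⟩ : ∃ e : ℝ, 0 < e ∧ e ≤ η / 4 ∧ e ≤ ρ₁ / 8 :=
    ⟨min (η / 4) (ρ₁ / 8), lt_min (by positivity) (by positivity), min_le_left _ _,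
      min_le_right _ _⟩
  refine ⟨K0, by linarith, e, he, ?_⟩
  intro wb μ hμ G hG1 hG2 ψ hψ0 hψL
  have hμ0 : μ ≠ 0 := by
    intro h; rw [h, norm_zero] at hμ; norm_num at hμ
  -- choice of the index
  have hchoice : ∀ Z : ℂ, ‖Z‖ ≤ K0 → ∃ i, ‖Z - t i‖ ≤ K0 - ρ₁ / 2 := by
    intro Z hZ
    obtain ⟨i, hi⟩ := hcov Z
    refine ⟨i, ?_⟩
    rcases le_or_gt ‖Z‖ (K0 / 2) with h | h
    · have := norm_sub_le Z (t i)
      rw [ht i] at this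
      linarith
    · have h1 : ‖Z - t i‖ ^ 2 = ‖Z‖ ^ 2 + ‖t i‖ ^ 2 - 2 * (Z * conj (t i)).re := by
        rw [Complex.sq_norm, Complex.sq_norm, Complex.sq_norm, Complex.normSq_sub]
      rw [ht i] at h1
      have h2 : 0 ≤ (K0 - ‖Z‖) * (K0 + ‖Z‖ - 2 * ρ₁) :=
        mul_nonneg (by linarith) (by linarith)
      have h3 : ‖Z - t i‖ ^ 2 ≤ (K0 - ρ₁ / 2) ^ 2 := by
        nlinarith [sq_nonneg ρ₁]
      exact le_of_sq_le_sq h3 (by linarith)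
  -- one step
  have hstep : ∀ ψ : {ψ : ℂ → ℂ // (∀ w ∈ closedBall wb ρ, ‖ψ w‖ ≤ K0) ∧
      ∀ w ∈ closedBall wb ρ, ∀ w' ∈ closedBall wb ρ, ‖ψ w - ψ w'‖ ≤ η * ‖w - w'‖},
      ∃ i, ∃ φ : {ψ : ℂ → ℂ // (∀ w ∈ closedBall wb ρ, ‖ψ w‖ ≤ K0) ∧
      ∀ w ∈ closedBall wb ρ, ∀ w' ∈ closedBall wb ρ, ‖ψ w - ψ w'‖ ≤ η * ‖w - w'‖},
      ∀ w ∈ closedBall wb ρ, ∃ w' ∈ closedBall wb ρ, G i (φ.1 w, w) = (ψ.1 w', w') := by
    rintro ⟨ψ, hb, hl⟩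
    have hwb : wb ∈ closedBall wb ρ := mem_closedBall_self hρ.le
    obtain ⟨i, hi⟩ := hchoice (ψ wb) (hb wb hwb)
    have hG1' : ∀ Z ∈ closedBall (0 : ℂ) (K0 + 2), ∀ w ∈ closedBall wb ρ,
        ‖(G i (Z, w)).1 - μ⁻¹ * Z - t i‖ ≤ e ∧ (G i (Z, w)).2 ∈ closedBall wb ρ := by
      intro Z hZ w hw
      have h := hG1 i (Z, w) ⟨hZ, hw⟩
      refine ⟨?_, h.2⟩
      have h1 := h.1
      rw [sub_sub]
      exact h1
    have hbound : ∀ Z ∈ closedBall (0 : ℂ) (K0 + 2), ∀ w ∈ closedBall wb ρ,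
        ‖ψ ((G i (Z, w)).2) - ((G i (Z, w)).1 - μ⁻¹ * Z)‖ ≤ K0 := by
      intro Z hZ w hw
      obtain ⟨h1, h2⟩ := hG1' Z hZ w hw
      have h3 := hl _ h2 _ hwb
      have h4 : ‖(G i (Z, w)).2 - wb‖ ≤ ρ := by
        rw [← dist_eq_norm]; exact h2
      have h5 : η * ‖(G i (Z, w)).2 - wb‖ ≤ η * ρ := mul_le_mul_of_nonneg_left h4 hη.le
      have e1 : ψ ((G i (Z, w)).2) - ((G i (Z, w)).1 - μ⁻¹ * Z) =
          (ψ ((G i (Z, w)).2) - ψ wb) + (ψ wb - t i) - ((G i (Z, w)).1 - μ⁻¹ * Z - t i) := by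
        ring
      rw [e1]
      have h6 := norm_sub_le ((ψ ((G i (Z, w)).2) - ψ wb) + (ψ wb - t i))
        ((G i (Z, w)).1 - μ⁻¹ * Z - t i)
      have h7 := norm_add_le (ψ ((G i (Z, w)).2) - ψ wb) (ψ wb - t i)
      linarith
    obtain ⟨φ, hφ1, hφ2⟩ := graph_step (μ := μ) (wb := wb) (ρ := ρ) (K := K0 + 2) (Lz := e)
      (Lw := e) (lz := e) (lw := 1 / 8) (C := η) (D' := closedBall wb ρ)
      (α := fun Z w => (G i (Z, w)).1 - μ⁻¹ * Z) (β := fun Z w => (G i (Z, w)).2) (ψ := ψ)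
      hμ0 (by linarith) hη.le
      (fun Z hZ w hw => (hG1' Z hZ w hw).2)
      (fun Z hZ Z' hZ' w hw w' hw' => by
        have h := (hG2 i (Z, w) ⟨hZ, hw⟩ (Z', w') ⟨hZ', hw'⟩).1
        rw [mul_add] at h
        exact h)
      (fun Z hZ Z' hZ' w hw w' hw' => (hG2 i (Z, w) ⟨hZ, hw⟩ (Z', w') ⟨hZ', hw'⟩).2)
      hl
      (fun Z hZ w hw => by
        rw [hμ, one_mul]
        have := hbound Z hZ w hw
        linarith)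
      (by rw [hμ, one_mul]; nlinarith)
    have hφmem : ∀ w ∈ closedBall wb ρ, φ w ∈ closedBall (0 : ℂ) (K0 + 2) := by
      intro w hw
      rw [mem_closedBall, dist_zero_right]
      exact (hφ1 w hw).1
    refine ⟨i, ⟨φ, ?_, ?_⟩, ?_⟩
    · intro w hw
      have h1 := (hφ1 w hw).2
      have h2 : φ w = μ * (ψ ((G i (φ w, w)).2) - ((G i (φ w, w)).1 - μ⁻¹ * φ w)) := by
        rw [← h1]
        simp only [add_sub_cancel_right]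
        rw [← mul_assoc, mul_inv_cancel₀ hμ0, one_mul]
      rw [h2, norm_mul, hμ, one_mul]
      exact hbound _ (hφmem w hw) w hw
    · intro w hw w' hw'
      refine (hφ2 w hw w' hw').trans ?_
      apply mul_le_mul_of_nonneg_right _ (norm_nonneg _)
      rw [hμ]
      linarith
    · intro w hw
      refine ⟨(G i (φ w, w)).2, (hG1' _ (hφmem w hw) w hw).2, ?_⟩
      have h1 := (hφ1 w hw).2
      have h2 : (G i (φ w, w)).1 = ψ ((G i (φ w, w)).2) := by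
        rw [← h1]; ring
      exact Prod.ext h2 rfl
  choose f g hfg using hstep
  let P0 : {ψ : ℂ → ℂ // (∀ w ∈ closedBall wb ρ, ‖ψ w‖ ≤ K0) ∧
      ∀ w ∈ closedBall wb ρ, ∀ w' ∈ closedBall wb ρ, ‖ψ w - ψ w'‖ ≤ η * ‖w - w'‖} :=
    ⟨ψ, fun w hw => (hψ0 w hw).trans (by linarith), fun w hw w' hw' =>
      (hψL w hw w' hw').trans (mul_le_mul_of_nonneg_right (by linarith) (norm_nonneg _))⟩
  let seq : ℕ → {ψ : ℂ → ℂ // (∀ w ∈ closedBall wb ρ, ‖ψ w‖ ≤ K0) ∧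
      ∀ w ∈ closedBall wb ρ, ∀ w' ∈ closedBall wb ρ, ‖ψ w - ψ w'‖ ≤ η * ‖w - w'‖} :=
    fun k => Nat.rec P0 (fun _ s => g s) k
  have hseq : ∀ k, seq (k + 1) = g (seq k) := fun _ => rfl
  refine ⟨fun k => f (seq k), fun k => ?_⟩
  have hind : ∀ k, ∀ w ∈ closedBall wb ρ, ∃ w' ∈ closedBall wb ρ,
      word G (fun k => f (seq k)) k ((seq k).1 w, w) = (ψ w', w') := by
    intro k
    induction k with
    | zero => intro w hw; exact ⟨w, hw, rfl⟩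
    | succ k ih =>
      intro w hw
      obtain ⟨w', hw', h1⟩ := hfg (seq k) w hw
      obtain ⟨w'', hw'', h2⟩ := ih w' hw'
      refine ⟨w'', hw'', ?_⟩
      change word G (fun k => f (seq k)) k (G (f (seq k)) ((seq (k + 1)).1 w, w)) = _
      rw [hseq, h1, h2]
  have hwb : wb ∈ closedBall wb ρ := mem_closedBall_self hρ.le
  refine ⟨((seq k).1 wb, wb), ⟨?_, hwb⟩, hind k wb hwb⟩
  rw [mem_closedBall, dist_zero_right]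
  exact (seq k).2.1 wb hwb

end SkewBif
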