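import Pool.Agent.SK.A6
import Pool.Agent.SK.C5
/-! ## MP_9cfccf_an, module D3a -/
open Set Metric Filter Topology Polynomial
open scoped ComplexConjugate
namespace SkewBif

theorem D3a_diff_iter {Q : ℂ → ℂ} (hQ : Differentiable ℂ Q) (n : ℕ) : Differentiable ℂ (Q^[n]) := by
  induction n with
  | zero => exact differentiable_id
  | succ n ih =>
    rw [Function.iterate_succ']
    exact hQ.comp ih

theorem D3a_dsum_cont {Q S : ℂ → ℂ} (hQ : Differentiable ℂ Q) (hS : Differentiable ℂ S) (lam : ℂ)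
    (n : ℕ) : Continuous (dsum Q S lam n) := by
  unfold dsum
  refine continuous_finsetSum _ fun k _ => ?_
  exact continuous_const.mul (hS.continuous.comp (D3a_diff_iter hQ k).continuous)

theorem D3a_deriv {Q S : ℂ → ℂ} {lam wb : ℂ} {R θ : ℝ} {u A : ℂ → ℂ}
    (h : FibLin Q S lam wb R θ u A) (k : ℕ) {w : ℂ} (hw : w ∈ ball wb R) :
    ‖deriv (u^[k]) w‖ ≤ θ ^ k := by
  induction k with
  | zero => simp
  | succ k ih =>
    have h1 := (C5_iter h.th0 h.th1.le (fun w hw => h.u_le hw) hw k).1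
    have h2 : DifferentiableAt ℂ (u^[k]) w :=
      (C5_diff h.th0 h.th1.le h.u_diff (fun w hw => h.u_le hw) k).differentiableAt
        (isOpen_ball.mem_nhds hw)
    have h3 : DifferentiableAt ℂ u (u^[k] w) :=
      h.u_diff.differentiableAt (isOpen_ball.mem_nhds h1)
    rw [Function.iterate_succ', deriv_comp w h3 h2, norm_mul, pow_succ, mul_comm]
    exact mul_le_mul ih (h.u_der _ h1) (norm_nonneg _) (pow_nonneg h.th0 _)

/-- the cocycle computation -/
theorem D3a_cocycle {Q S : ℂ → ℂ} {lam wb : ℂ} {R θ : ℝ} {u A : ℂ → ℂ}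
    (h : FibLin Q S lam wb R θ u A) (hl0 : lam ≠ 0) (a l b : ℕ) {w x : ℂ} (hw : w ∈ ball wb R)
    (hx : x ∈ ball wb R) (hQx : Q^[l] x = u^[b] w) :
    lam⁻¹ ^ (a + (l + b)) * (A w - dsum Q S lam (a + (l + b)) (u^[a] x)) - A (u^[a] x) =
      lam⁻¹ ^ a * (lam⁻¹ ^ l * (A (u^[b] w) - dsum Q S lam l x) - A x) := by
  obtain ⟨_, h1, h2⟩ := h.A_iter a hx
  obtain ⟨_, _, h3⟩ := h.A_iter b hw
  have h4 := dsum_add Q S lam a (l + b) (u^[a] x)
  have h5 := dsum_add Q S lam l b x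
  rw [h1] at h4
  rw [hQx] at h5
  rw [h4, h5, h3, h2]
  simp only [pow_add, inv_pow]
  have e1 : lam ^ a ≠ 0 := pow_ne_zero _ hl0
  have e2 : lam ^ l ≠ 0 := pow_ne_zero _ hl0
  have e3 : lam ^ b ≠ 0 := pow_ne_zero _ hl0
  field_simp
  ring

/-- D3a. Homoclinic inverse branches. `U a = u^a ∘ v ∘ u^(N - l - a)` where `v` is the inverse branch
of `Q^[l]` near `wb` with `v wb = y`, and `N` is large.
Proof. `v` is defined and holomorphic on some `ball wb rv` (inverse function theorem). For `b` large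
`u^b` maps `ball wb R` into `ball wb rv` (`‖u^b w - wb‖ ≤ θ^b R`) and `v ∘ u^b` has values in a small
disc around `y`, contained in `ball wb ρ` and in `ball wb R`; as `u` maps `ball wb ρ` to itself, `U a`
maps `ball wb R` into `ball wb ρ`. The diameter of the image of `U a` tends to `0` as `b → ∞`, so by
Cauchy (A6 in one variable) `‖deriv (U a)‖ ≤ e'` on `ball wb R'`. Cocycle computation: with `w1 = u^b w`,
`b = N - l - a`: `lam^(-N) (A w - dsum N (U a w)) - A (U a w)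
 = lam^(-a) (lam^(-l) (A w1 - dsum l (v w1)) - A (v w1))` by `dsum_add` and `FibLin.A_iter`; as
`w1 → wb` the bracket tends to `κ`, uniformly in `w ∈ ball wb R` (use `R' < R` or the compact image of `u`). -/
theorem model_branches {Q S : ℂ → ℂ} (hQ : Differentiable ℂ Q) (hS : Differentiable ℂ S)
    {lam wb : ℂ} {R θ : ℝ} {u A : ℂ → ℂ} (h : FibLin Q S lam wb R θ u A) (hl : ‖lam‖ = 1)
    {l : ℕ} (hl1 : 1 ≤ l) {y : ℂ} (hy : y ∈ ball wb R) (hQy : Q^[l] y = wb)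
    (hder : deriv (Q^[l]) y ≠ 0) {κ : ℂ} (hκ : κ = lam⁻¹ ^ l * (A wb - dsum Q S lam l y) - A y)
    (hκ0 : κ ≠ 0) {ρ R' : ℝ} (hρ : dist y wb < ρ) (hR' : R' < R) (s : Finset ℕ) {e' : ℝ}
    (he' : 0 < e') :
    ∃ N ≥ 1, ∃ U : ℕ → ℂ → ℂ, ∀ a ∈ s, DifferentiableOn ℂ (U a) (ball wb R) ∧
      (∀ w ∈ ball wb R, Q^[N] (U a w) = w ∧ U a w ∈ ball wb ρ) ∧
      (∀ w ∈ ball wb R', ‖deriv (U a) w‖ ≤ e') ∧
      ∀ w ∈ ball wb R',
        ‖(lam⁻¹ ^ N * (A w - dsum Q S lam N (U a w)) - A (U a w)) / κ - lam⁻¹ ^ a‖ ≤ e' := by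
  have hRpos := h.Rpos
  have hl0 : lam ≠ 0 := by
    intro h0
    rw [h0, norm_zero] at hl
    exact zero_ne_one hl
  have hκn : 0 < ‖κ‖ := norm_pos_iff.2 hκ0
  obtain ⟨v, hv1, hv2, hv3, _⟩ := C5_inv (D3a_diff_iter hQ l) hder
  rw [hQy] at hv1 hv2 hv3
  set Φ : ℂ → ℂ := fun w1 => lam⁻¹ ^ l * (A w1 - dsum Q S lam l (v w1)) - A (v w1) with hΦ
  have hvc : ContinuousAt v wb := hv3.continuousAt
  have hAw : ContinuousAt A wb :=
    (h.A_diff.differentiableAt (isOpen_ball.mem_nhds (mem_ball_self hRpos))).continuousAt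
  have hAy : ContinuousAt A (v wb) := by
    rw [hv1]
    exact (h.A_diff.differentiableAt (isOpen_ball.mem_nhds hy)).continuousAt
  have hΦc : ContinuousAt Φ wb := by
    have h1 : ContinuousAt (fun w1 => dsum Q S lam l (v w1)) wb :=
      ContinuousAt.comp (g := dsum Q S lam l) (D3a_dsum_cont hQ hS lam l).continuousAt hvc
    have h2 : ContinuousAt (fun w1 => A (v w1)) wb := ContinuousAt.comp (g := A) hAy hvc
    exact (continuousAt_const.mul (hAw.sub h1)).sub h2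
  have hΦκ : Φ wb = κ := by
    rw [hΦ, hκ]
    simp only
    rw [hv1]
  set Cv : ℝ := ‖deriv v wb‖ + 1 with hCv
  have hCv0 : 0 < Cv := by positivity
  have e3 : ∀ᶠ w1 in 𝓝 wb, ‖deriv v w1‖ ≤ Cv := by
    have h2 : ContinuousAt (fun w => ‖deriv v w‖) wb := hv3.deriv.continuousAt.norm
    filter_upwards [h2.eventually_lt continuousAt_const (by rw [hCv]; linarith :
      ‖deriv v wb‖ < Cv)] with w hw
    exact hw.le
  have e2 : ∀ᶠ w1 in 𝓝 wb, DifferentiableAt ℂ v w1 := by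
    filter_upwards [hv3.eventually_analyticAt] with w hw
    exact hw.differentiableAt
  have e4 : ∀ᶠ w1 in 𝓝 wb, v w1 ∈ ball wb R :=
    hvc.eventually_mem (by rw [hv1]; exact isOpen_ball.mem_nhds hy)
  have e5 : ∀ᶠ w1 in 𝓝 wb, v w1 ∈ ball wb ρ :=
    hvc.eventually_mem (by rw [hv1]; exact isOpen_ball.mem_nhds hρ)
  have e6 : ∀ᶠ w1 in 𝓝 wb, ‖Φ w1 - κ‖ ≤ e' * ‖κ‖ := by
    have h2 : ContinuousAt (fun w => ‖Φ w - κ‖) wb := (hΦc.sub continuousAt_const).norm
    have h3 : ‖Φ wb - κ‖ < e' * ‖κ‖ := by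
      rw [hΦκ, sub_self, norm_zero]
      exact mul_pos he' hκn
    filter_upwards [h2.eventually_lt continuousAt_const h3] with w hw
    exact hw.le
  obtain ⟨rv, hrv, hrv'⟩ := Metric.eventually_nhds_iff_ball.1
    (hv2.and (e2.and (e3.and (e4.and (e5.and e6)))))
  obtain ⟨b0, hb0⟩ := exists_pow_lt_of_lt_one (x := min (rv / R) (e' / Cv))
    (lt_min (div_pos hrv hRpos) (div_pos he' hCv0)) h.th1
  have hb : ∀ b ≥ b0, θ ^ b * R < rv ∧ Cv * θ ^ b ≤ e' := by
    intro b hb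
    have h1 : θ ^ b < min (rv / R) (e' / Cv) :=
      (pow_le_pow_of_le_one h.th0 h.th1.le hb).trans_lt hb0
    have h2 := h1.trans_le (min_le_left _ _)
    have h3 := h1.trans_le (min_le_right _ _)
    rw [lt_div_iff₀ hRpos] at h2
    rw [lt_div_iff₀ hCv0] at h3
    exact ⟨h2, by rw [mul_comm]; exact h3.le⟩
  have hub : ∀ b ≥ b0, ∀ w ∈ ball wb R, u^[b] w ∈ ball wb rv := by
    intro b hbb w hw
    have h1 := (C5_iter h.th0 h.th1.le (fun w hw => h.u_le hw) hw b).2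
    rw [mem_ball, dist_eq_norm] at hw ⊢
    refine h1.trans_lt (lt_of_le_of_lt ?_ (hb b hbb).1)
    exact mul_le_mul_of_nonneg_left hw.le (pow_nonneg h.th0 _)
  refine ⟨l + s.sup id + b0, by omega,
    fun a w => u^[a] (v (u^[l + s.sup id + b0 - l - a] w)), ?_⟩
  intro a ha
  have hale : a ≤ s.sup id := Finset.le_sup (f := id) ha
  obtain ⟨b, hbdef⟩ : ∃ b, b = l + s.sup id + b0 - l - a := ⟨_, rfl⟩
  beta_reduce
  rw [← hbdef]
  have hbb : b ≥ b0 := by omega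
  have hN : l + s.sup id + b0 = a + (l + b) := by omega
  rw [hN]
  have hmain : ∀ w ∈ ball wb R, Q^[l] (v (u^[b] w)) = u^[b] w ∧ DifferentiableAt ℂ v (u^[b] w) ∧
      ‖deriv v (u^[b] w)‖ ≤ Cv ∧ v (u^[b] w) ∈ ball wb R ∧ v (u^[b] w) ∈ ball wb ρ ∧
      ‖Φ (u^[b] w) - κ‖ ≤ e' * ‖κ‖ := fun w hw => hrv' _ (hub b hbb w hw)
  have hdu : ∀ k, ∀ w ∈ ball wb R, DifferentiableAt ℂ (u^[k]) w := fun k w hw =>
    (C5_diff h.th0 h.th1.le h.u_diff (fun w hw => h.u_le hw) k).differentiableAt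
      (isOpen_ball.mem_nhds hw)
  have hdU : ∀ w ∈ ball wb R, HasDerivAt (fun w => u^[a] (v (u^[b] w)))
      (deriv (u^[a]) (v (u^[b] w)) * (deriv v (u^[b] w) * deriv (u^[b]) w)) w := by
    intro w hw
    obtain ⟨_, h2, _, h4, _⟩ := hmain w hw
    have h5 : HasDerivAt (fun w => v (u^[b] w)) (deriv v (u^[b] w) * deriv (u^[b]) w) w :=
      HasDerivAt.comp w h2.hasDerivAt (hdu b w hw).hasDerivAt
    exact HasDerivAt.comp w (hdu a _ h4).hasDerivAt h5
  refine ⟨fun w hw => (hdU w hw).differentiableAt.differentiableWithinAt, ?_, ?_, ?_⟩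
  · intro w hw
    obtain ⟨h1, _, _, h4, h5, _⟩ := hmain w hw
    constructor
    · rw [Nat.add_comm a (l + b), Nat.add_comm l b, Function.iterate_add_apply,
        Function.iterate_add_apply, (h.A_iter a h4).2.1, h1, (h.A_iter b hw).2.1]
    · have h6 := (C5_iter h.th0 h.th1.le (fun w hw => h.u_le hw) h4 a).2
      rw [mem_ball, dist_eq_norm] at h5 ⊢
      refine lt_of_le_of_lt (h6.trans ?_) h5
      exact mul_le_of_le_one_left (norm_nonneg _) (pow_le_one₀ h.th0 h.th1.le)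
  · intro w hw'
    have hw : w ∈ ball wb R := ball_subset_ball hR'.le hw'
    obtain ⟨_, _, h3, h4, _, _⟩ := hmain w hw
    rw [(hdU w hw).deriv, norm_mul, norm_mul]
    have h5 := D3a_deriv h a h4
    have h6 := D3a_deriv h b hw
    calc ‖deriv (u^[a]) (v (u^[b] w))‖ * (‖deriv v (u^[b] w)‖ * ‖deriv (u^[b]) w‖)
        ≤ 1 * (Cv * θ ^ b) := by
          refine mul_le_mul (h5.trans (pow_le_one₀ h.th0 h.th1.le)) ?_ (by positivity) zero_le_one
          exact mul_le_mul h3 h6 (norm_nonneg _) hCv0.le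
      _ ≤ e' := by rw [one_mul]; exact (hb b hbb).2
  · intro w hw'
    have hw : w ∈ ball wb R := ball_subset_ball hR'.le hw'
    obtain ⟨h1, _, _, h4, _, h6⟩ := hmain w hw
    have h7 := D3a_cocycle h hl0 a l b hw h4 h1
    rw [h7]
    have h8 : lam⁻¹ ^ a * (lam⁻¹ ^ l * (A (u^[b] w) - dsum Q S lam l (v (u^[b] w))) -
        A (v (u^[b] w))) / κ - lam⁻¹ ^ a = lam⁻¹ ^ a * ((Φ (u^[b] w) - κ) / κ) := by
      rw [hΦ]
      field_simp
    rw [h8, norm_mul, norm_pow, norm_inv, hl, inv_one, one_pow, one_mul, norm_div,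
      div_le_iff₀ hκn]
    exact h6

end SkewBif
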