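import Pool.Agent.SK.D1
import Pool.Agent.SK.D2
import Pool.Agent.SK.D3a
/-! ## MP_9cfccf_an, module D3 -/
open Set Metric Filter Topology Polynomial
open scoped ComplexConjugate
namespace SkewBif

theorem D3_word {ι : Type} {G G' : ι → X2 → X2} {h : X2 → X2}
    (hc : ∀ i v, G i (h v) = h (G' i v)) (σ : ℕ → ι) (k : ℕ) :
    ∀ v, word G σ k (h v) = h (word G' σ k v) := by
  induction k with
  | zero => intro v; rfl
  | succ k ih =>
    intro v
    change word G σ k (G (σ k) (h v)) = h (word G' σ k (G' (σ k) v))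
    rw [hc, ih]

/-- a holomorphic function on a disc is bounded and Lipschitz on smaller closed discs -/
theorem D3_lip {A : ℂ → ℂ} {wb : ℂ} {R ρ'' : ℝ} (hA : DifferentiableOn ℂ A (ball wb R))
    (h : ρ'' < R) : ∃ MA L : ℝ, 0 ≤ MA ∧ 0 ≤ L ∧ (∀ w ∈ closedBall wb ρ'', ‖A w‖ ≤ MA) ∧
      ∀ w ∈ closedBall wb ρ'', ∀ w' ∈ closedBall wb ρ'', ‖A w - A w'‖ ≤ L * ‖w - w'‖ := by
  have hsub : closedBall wb ρ'' ⊆ ball wb R := closedBall_subset_ball h
  obtain ⟨MA, hMA⟩ := (isCompact_closedBall wb ρ'').exists_bound_of_continuousOn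
    (hA.continuousOn.mono hsub)
  have hd : ContinuousOn (deriv A) (ball wb R) :=
    ((hA.analyticOnNhd isOpen_ball).deriv).continuousOn
  obtain ⟨L, hL⟩ := (isCompact_closedBall wb ρ'').exists_bound_of_continuousOn (hd.mono hsub)
  refine ⟨max MA 0, max L 0, le_max_right _ _, le_max_right _ _,
    fun w hw => (hMA w hw).trans (le_max_left _ _), ?_⟩
  intro w hw w' hw'
  exact (convex_closedBall wb ρ'').norm_image_sub_le_of_norm_deriv_le
    (fun x hx => hA.differentiableAt (isOpen_ball.mem_nhds (hsub hx)))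
    (fun x hx => (hL x hx).trans (le_max_left _ _)) hw' hw

/-- the change of coordinates -/
noncomputable def D3_h (A : ℂ → ℂ) (κ : ℂ) (v : X2) : X2 := (A v.2 + κ * v.1, v.2)

/-- the maps in the new coordinates -/
noncomputable def D3_G (A : ℂ → ℂ) (κ : ℂ) (G : X2 → X2) (v : X2) : X2 :=
  (((G (D3_h A κ v)).1 - A (G (D3_h A κ v)).2) / κ, (G (D3_h A κ v)).2)

theorem D3_conj (A : ℂ → ℂ) {κ : ℂ} (hκ : κ ≠ 0) (G : X2 → X2) (v : X2) :
    G (D3_h A κ v) = D3_h A κ (D3_G A κ G v) := by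
  have h1 : D3_h A κ (D3_G A κ G v) = (A (G (D3_h A κ v)).2 +
      κ * (((G (D3_h A κ v)).1 - A (G (D3_h A κ v)).2) / κ), (G (D3_h A κ v)).2) := rfl
  rw [h1, mul_div_cancel₀ _ hκ, add_sub_cancel]

/-- D3b. The neutral model has the blender property. `κ ≠ 0` is the homoclinic displacement.
Proof. Choose `ρ < ρ' < ρ'' < R` with `dist y wb < ρ`; D1 gives `s` (exponents `a`, take `A0 = 0`) and `ρ₁`; put
`t a = lam⁻¹ ^ a`; D2 gives `K0, e`. D3a with `R' = ρ''` and `e'` small gives `N`, `U`. Coordinates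
`Z = (ζ - A w) / κ`: the model becomes
`(Z, w) ↦ (lam^(-N) Z + δ a w, U a w)`, `δ a w` being the quotient estimated in D3a
(`‖δ a w - t a‖ ≤ e'`), so its `Z`-component minus `lam^(-N) Z` is `e'`-close to `t a` and, by A6 (one variable), has Lipschitz constant
`O(e')` on `closedBall wb ρ`. For `G` which is `e0`-close to the model on
`ball 0 K' × ball wb ρ'`, `K' > sup |A| + ‖κ‖ (K0 + 4)`, the maps in the coordinates `(Z, w)` are
`O(e0)`-close to the model on `ball 0 (K0 + 3) × ball wb ρ'` and holomorphic (the second components stay in `ball wb ρ`...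
`ball wb ρ'` where `A` is Lipschitz); A6 gives Lipschitz closeness on the smaller bidisc. Apply D2
(`μ = lam ^ N`, `ψ = (φ - A) / κ`), and go back: `K = sup |A| + ‖κ‖ K0`. -/
theorem neutral_blender {Q S : ℂ → ℂ} (hQ : Differentiable ℂ Q) (hS : Differentiable ℂ S)
    {lam wb : ℂ} {R θ : ℝ} {u A : ℂ → ℂ} (h : FibLin Q S lam wb R θ u A) (hl : ‖lam‖ = 1)
    (hl2 : lam ^ 2 ≠ 1) {l : ℕ} (hl1 : 1 ≤ l) {y : ℂ} (hy : y ∈ ball wb R)
    (hQy : Q^[l] y = wb) (hder : deriv (Q^[l]) y ≠ 0)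
    (hne : A wb ≠ lam ^ l * A y + dsum Q S lam l y) :
    ∃ ρ ρ' ρ'' : ℝ, 0 < ρ ∧ ρ < ρ' ∧ ρ' < ρ'' ∧ ρ'' < R ∧ ∃ (q : ℕ) (N : ℕ) (U : Fin q → ℂ → ℂ),
      1 ≤ N ∧ (∀ i, DifferentiableOn ℂ (U i) (ball wb R) ∧
        (∀ w ∈ ball wb R, Q^[N] (U i w) = w ∧ U i w ∈ ball wb ρ) ∧
        ∀ w ∈ ball wb ρ'', ‖deriv (U i) w‖ ≤ 1 / 16) ∧
      ∃ K K' e0 : ℝ, 0 < e0 ∧ 0 < K ∧ K < K' ∧ (∀ w ∈ ball wb ρ'', ‖A w‖ + 2 < K') ∧
        BlenderProp lam wb N ρ ρ' K K' e0 U (fun i w => dsum Q S lam N (U i w)) A := by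
  classical
  -- the displacement
  set κ : ℂ := lam⁻¹ ^ l * (A wb - dsum Q S lam l y) - A y with hκdef
  have hlam0 : lam ≠ 0 := by
    intro h0
    rw [h0, norm_zero] at hl
    exact zero_ne_one hl
  have hκ0 : κ ≠ 0 := by
    intro h0
    apply hne
    have h1 : lam⁻¹ ^ l * (A wb - dsum Q S lam l y) = A y := by
      linear_combination h0
    have h2 : A wb - dsum Q S lam l y = lam ^ l * A y := by
      rw [← h1, ← mul_assoc, ← mul_pow, mul_inv_cancel₀ hlam0, one_pow, one_mul]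
    linear_combination h2
  have hκn : 0 < ‖κ‖ := norm_pos_iff.2 hκ0
  -- radii
  have hr0 : dist y wb < R := hy
  set r0 := dist y wb with hr0def
  have hr00 : 0 ≤ r0 := dist_nonneg
  obtain ⟨ρ, hρ1, hρ2⟩ := exists_between hr0
  obtain ⟨ρ', hρ'1, hρ'2⟩ := exists_between hρ2
  obtain ⟨ρ'', hρ''1, hρ''2⟩ := exists_between hρ'2
  have hρ0 : 0 < ρ := lt_of_le_of_lt hr00 hρ1
  -- directions
  obtain ⟨s, -, ρ₁, hρ₁0, hρ₁1, hcov⟩ := unit_cover hl hl2 0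
  set e' := s.equivFin.symm with he'def
  have ht : ∀ i : Fin s.card, ‖lam⁻¹ ^ ((e' i : ℕ))‖ = 1 := fun i => by
    rw [norm_pow, norm_inv, hl, inv_one, one_pow]
  have hcov' : ∀ Z : ℂ, ∃ i : Fin s.card,
      ρ₁ * ‖Z‖ ≤ (Z * conj (lam⁻¹ ^ ((e' i : ℕ)))).re := by
    intro Z
    obtain ⟨a, ha, hZ⟩ := hcov Z
    refine ⟨s.equivFin ⟨a, ha⟩, ?_⟩
    rw [he'def, Equiv.symm_apply_apply]
    exact hZ
  obtain ⟨K0, hK0, e, he, hD2⟩ := blender_abstract (t := fun i : Fin s.card =>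
    lam⁻¹ ^ ((e' i : ℕ))) hρ₁0 hρ₁1 hρ0 ht hcov'
  -- bounds for A
  obtain ⟨MA, L, hMA0, hL0, hMA, hLA⟩ := D3_lip h.A_diff hρ''2
  -- the model branches
  have hgap : 0 < ρ' - ρ := by linarith
  set e1 : ℝ := e * min 1 (ρ' - ρ) with he1
  have he1pos : 0 < e1 := mul_pos he (lt_min one_pos hgap)
  have he1a : e1 ≤ e := by
    have := mul_le_mul_of_nonneg_left (min_le_left (1 : ℝ) (ρ' - ρ)) he.le
    rwa [mul_one] at this
  have he1b : e1 / (ρ' - ρ) ≤ e := by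
    rw [div_le_iff₀ hgap]
    exact mul_le_mul_of_nonneg_left (min_le_right (1 : ℝ) (ρ' - ρ)) he.le
  set e2 : ℝ := min (1 / 16) (e1 / 2) with he2
  have he2pos : 0 < e2 := lt_min (by norm_num) (by linarith)
  obtain ⟨N, hN, U, hU⟩ := model_branches hQ hS h hl hl1 hy hQy hder hκdef hκ0 hρ1 hρ''2 s he2pos
  have hUi : ∀ i : Fin s.card, DifferentiableOn ℂ (U (e' i)) (ball wb R) ∧
      (∀ w ∈ ball wb R, Q^[N] (U (e' i) w) = w ∧ U (e' i) w ∈ ball wb ρ) ∧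
      (∀ w ∈ ball wb ρ'', ‖deriv (U (e' i)) w‖ ≤ e2) ∧
      ∀ w ∈ ball wb ρ'', ‖(lam⁻¹ ^ N * (A w - dsum Q S lam N (U (e' i) w)) -
        A (U (e' i) w)) / κ - lam⁻¹ ^ ((e' i : ℕ))‖ ≤ e2 := fun i => hU (e' i) (e' i).2
  -- margin
  have hmargin : ∃ m0 > 0, ∀ i : Fin s.card, ∀ w ∈ closedBall wb ρ,
      ‖U (e' i) w - wb‖ ≤ ρ - m0 := by
    have hsub : closedBall wb ρ ⊆ ball wb R := closedBall_subset_ball (by linarith)
    have h1 : ∀ i : Fin s.card, ∃ m0 > 0, ∀ w ∈ closedBall wb ρ, ‖U (e' i) w - wb‖ ≤ ρ - m0 := by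
      intro i
      have hc : ContinuousOn (fun w => ‖U (e' i) w - wb‖) (closedBall wb ρ) :=
        (((hUi i).1.continuousOn.mono hsub).sub continuousOn_const).norm
      obtain ⟨x, hx, hmax⟩ := (isCompact_closedBall wb ρ).exists_isMaxOn
        (nonempty_closedBall.2 hρ0.le) hc
      have hx2 : ‖U (e' i) x - wb‖ < ρ := by
        have := ((hUi i).2.1 x (hsub hx)).2
        rwa [mem_ball, dist_eq_norm] at this
      refine ⟨ρ - ‖U (e' i) x - wb‖, by linarith, fun w hw => ?_⟩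
      have := hmax hw
      simp only [mem_setOf_eq] at this
      linarith
    choose m hm0 hm using h1
    rcases isEmpty_or_nonempty (Fin s.card) with hemp | hne'
    · exact ⟨1, one_pos, fun i => (hemp.false i).elim⟩
    · refine ⟨Finset.univ.inf' Finset.univ_nonempty m, ?_, fun i w hw => ?_⟩
      · rw [gt_iff_lt, Finset.lt_inf'_iff]
        exact fun i _ => hm0 i
      · have h2 := hm i w hw
        have h3 : Finset.univ.inf' Finset.univ_nonempty m ≤ m i :=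
          Finset.inf'_le m (Finset.mem_univ i)
        linarith
  obtain ⟨m0, hm0, hmarg⟩ := hmargin
  set K : ℝ := MA + ‖κ‖ * K0 with hK
  set K' : ℝ := MA + ‖κ‖ * (K0 + 3) + 3 with hK'
  -- the size of the perturbation
  obtain ⟨e0, he0pos, c1, c2, c3, c4, c5, c6⟩ : ∃ e0 > 0, e0 ≤ m0 ∧ e0 ≤ ρ'' - ρ ∧ e0 ≤ e ∧
      e0 / (ρ' - ρ) ≤ 1 / 16 ∧ (1 + L) * e0 / ‖κ‖ ≤ e1 / 2 ∧ e0 / ‖κ‖ ≤ e := by
    set b := min (min m0 (ρ'' - ρ)) (min (min e ((ρ' - ρ) / 16))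
      (min (e1 / 2 * ‖κ‖ / (1 + L)) (e * ‖κ‖))) with hb
    have hL1 : 0 < 1 + L := by linarith
    have hb1 : b ≤ m0 := (min_le_left _ _).trans (min_le_left _ _)
    have hb2 : b ≤ ρ'' - ρ := (min_le_left _ _).trans (min_le_right _ _)
    have hb3 : b ≤ e := (min_le_right _ _).trans ((min_le_left _ _).trans (min_le_left _ _))
    have hb4 : b ≤ (ρ' - ρ) / 16 :=
      (min_le_right _ _).trans ((min_le_left _ _).trans (min_le_right _ _))
    have hb5 : b ≤ e1 / 2 * ‖κ‖ / (1 + L) :=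
      (min_le_right _ _).trans ((min_le_right _ _).trans (min_le_left _ _))
    have hb6 : b ≤ e * ‖κ‖ :=
      (min_le_right _ _).trans ((min_le_right _ _).trans (min_le_right _ _))
    refine ⟨b, ?_, hb1, hb2, hb3, ?_, ?_, ?_⟩
    · rw [gt_iff_lt, hb]
      refine lt_min (lt_min hm0 (by linarith)) (lt_min (lt_min he (by linarith))
        (lt_min (by positivity) (by positivity)))
    · rw [div_le_iff₀ hgap]
      linarith
    · rw [div_le_iff₀ hκn]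
      rw [le_div_iff₀ hL1] at hb5
      linarith
    · rw [div_le_iff₀ hκn]
      exact hb6
  refine ⟨ρ, ρ', ρ'', hρ0, hρ'1, hρ''1, hρ''2, s.card, N, fun i => U (e' i), hN, ?_, K, K', e0,
    he0pos, ?_, ?_, ?_, ?_⟩
  · intro i
    obtain ⟨u1, u2, u3, -⟩ := hUi i
    exact ⟨u1, u2, fun w hw => (u3 w hw).trans (min_le_left _ _)⟩
  · rw [hK]
    positivity
  · rw [hK, hK']
    nlinarith
  · intro w hw
    have h1 := hMA w (ball_subset_closedBall hw)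
    rw [hK']
    have : 0 < ‖κ‖ * (K0 + 3) := by positivity
    linarith
  -- the blender property
  intro G hG hGm φ hφ hφL
  have hsubρ : closedBall wb ρ ⊆ ball wb ρ' := closedBall_subset_ball hρ'1
  have hsubρ' : ball wb ρ' ⊆ ball wb ρ'' := ball_subset_ball hρ''1.le
  have hsubρ'' : ball wb ρ'' ⊆ ball wb R := ball_subset_ball hρ''2.le
  -- points of the bidisc
  have hmem : ∀ v ∈ ball (0 : ℂ) (K0 + 3) ×ˢ ball wb ρ',
      D3_h A κ v ∈ ball (0 : ℂ) K' ×ˢ ball wb ρ' := by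
    rintro ⟨Z, w⟩ ⟨hZ, hw⟩
    simp only at hZ hw
    refine ⟨?_, hw⟩
    rw [mem_ball_zero_iff] at hZ ⊢
    change ‖A w + κ * Z‖ < K'
    have h1 := hMA w (ball_subset_closedBall (hsubρ' hw))
    have h2 : ‖κ * Z‖ ≤ ‖κ‖ * (K0 + 3) := by
      rw [norm_mul]
      exact mul_le_mul_of_nonneg_left hZ.le hκn.le
    calc ‖A w + κ * Z‖ ≤ ‖A w‖ + ‖κ * Z‖ := norm_add_le _ _
      _ < K' := by rw [hK']; linarith
  have hsnd : ∀ i, ∀ v ∈ ball (0 : ℂ) (K0 + 3) ×ˢ ball wb ρ',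
      (G i (D3_h A κ v)).2 ∈ ball wb ρ'' := by
    intro i v hv
    have h1 := (hGm i _ (hmem v hv)).2
    have h2 : U (e' i) v.2 ∈ ball wb ρ :=
      ((hUi i).2.1 v.2 (hsubρ'' (hsubρ' hv.2))).2
    rw [mem_ball, dist_eq_norm] at h2 ⊢
    have h3 : (G i (D3_h A κ v)).2 - wb =
        ((G i (D3_h A κ v)).2 - U (e' i) v.2) + (U (e' i) v.2 - wb) := by ring
    rw [h3]
    calc _ ≤ ‖(G i (D3_h A κ v)).2 - U (e' i) v.2‖ + ‖U (e' i) v.2 - wb‖ := norm_add_le _ _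
      _ < ρ'' := by
        have h1' : ‖(G i (D3_h A κ v)).2 - U (e' i) v.2‖ ≤ e0 := h1
        linarith
  have hhdiff : DifferentiableOn ℂ (D3_h A κ) (ball (0 : ℂ) (K0 + 3) ×ˢ ball wb ρ') := by
    have h1 : DifferentiableOn ℂ (fun v : X2 => A v.2) (ball (0 : ℂ) (K0 + 3) ×ˢ ball wb ρ') :=
      h.A_diff.comp differentiableOn_snd fun v hv => hsubρ'' (hsubρ' hv.2)
    exact (h1.add (differentiableOn_fst.const_mul κ)).prodMk differentiableOn_snd
  have hGdiff : ∀ i, DifferentiableOn ℂ (fun v => G i (D3_h A κ v))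
      (ball (0 : ℂ) (K0 + 3) ×ˢ ball wb ρ') := fun i =>
    (hG i).comp hhdiff hmem
  have hG1 : ∀ i, DifferentiableOn ℂ (fun v => (D3_G A κ (G i) v).1)
      (ball (0 : ℂ) (K0 + 3) ×ˢ ball wb ρ') := by
    intro i
    have h1 : DifferentiableOn ℂ (fun v => A (G i (D3_h A κ v)).2)
        (ball (0 : ℂ) (K0 + 3) ×ˢ ball wb ρ') :=
      h.A_diff.comp (hGdiff i).snd fun v hv => hsubρ'' (hsnd i v hv)
    have h2 : DifferentiableOn ℂ (fun v => (G i (D3_h A κ v)).1)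
        (ball (0 : ℂ) (K0 + 3) ×ˢ ball wb ρ') := (hGdiff i).fst
    have h3 : DifferentiableOn ℂ (fun v => (G i (D3_h A κ v)).1 - A (G i (D3_h A κ v)).2)
        (ball (0 : ℂ) (K0 + 3) ×ˢ ball wb ρ') := h2.sub h1
    have h4 := h3.mul_const κ⁻¹
    simp only [← div_eq_mul_inv] at h4
    exact h4
  have hG2 : ∀ i, DifferentiableOn ℂ (fun v => (D3_G A κ (G i) v).2)
      (ball (0 : ℂ) (K0 + 3) ×ˢ ball wb ρ') := fun i => (hGdiff i).snd
  have hUdiff : ∀ i, DifferentiableOn ℂ (fun v : X2 => U (e' i) v.2)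
      (ball (0 : ℂ) (K0 + 3) ×ˢ ball wb ρ') := fun i =>
    (hUi i).1.comp differentiableOn_snd fun v hv => hsubρ'' (hsubρ' hv.2)
  -- closeness
  have hclose1 : ∀ i, ∀ v ∈ ball (0 : ℂ) (K0 + 3) ×ˢ ball wb ρ',
      ‖(D3_G A κ (G i) v).1 - (lam ^ N)⁻¹ * v.1 - lam⁻¹ ^ ((e' i : ℕ))‖ ≤ e1 := by
    intro i v hv
    have h1 := (hGm i _ (hmem v hv)).1
    have h2 := (hGm i _ (hmem v hv)).2
    have h3 := (hUi i).2.2.2 v.2 (hsubρ' hv.2)
    have h4 : U (e' i) v.2 ∈ ball wb ρ := ((hUi i).2.1 v.2 (hsubρ'' (hsubρ' hv.2))).2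
    have h5 := hLA (G i (D3_h A κ v)).2 (ball_subset_closedBall (hsnd i v hv)) (U (e' i) v.2)
      (ball_subset_closedBall (ball_subset_ball (by linarith) h4))
    set g1 := (G i (D3_h A κ v)).1 with hg1
    set g2 := (G i (D3_h A κ v)).2 with hg2
    change ‖g1 - lam⁻¹ ^ N * ((A v.2 + κ * v.1) - dsum Q S lam N (U (e' i) v.2))‖ ≤ e0 at h1
    change ‖g2 - U (e' i) v.2‖ ≤ e0 at h2
    have h6 : (D3_G A κ (G i) v).1 - (lam ^ N)⁻¹ * v.1 - lam⁻¹ ^ ((e' i : ℕ)) =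
        ((lam⁻¹ ^ N * (A v.2 - dsum Q S lam N (U (e' i) v.2)) -
        A (U (e' i) v.2)) / κ - lam⁻¹ ^ ((e' i : ℕ))) +
        ((g1 - lam⁻¹ ^ N * ((A v.2 + κ * v.1) - dsum Q S lam N (U (e' i) v.2))) -
          (A g2 - A (U (e' i) v.2))) / κ := by
      change (g1 - A g2) / κ - (lam ^ N)⁻¹ * v.1 - lam⁻¹ ^ ((e' i : ℕ)) = _
      rw [← inv_pow lam N]
      generalize lam⁻¹ ^ N = cN
      generalize lam⁻¹ ^ ((e' i : ℕ)) = tN
      field_simp
      ring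
    rw [h6]
    have h7 : ‖((g1 - lam⁻¹ ^ N * ((A v.2 + κ * v.1) - dsum Q S lam N (U (e' i) v.2))) -
          (A g2 - A (U (e' i) v.2))) / κ‖ ≤ (1 + L) * e0 / ‖κ‖ := by
      rw [norm_div]
      refine div_le_div_of_nonneg_right ?_ hκn.le
      refine (norm_sub_le _ _).trans ?_
      have h8 : ‖A g2 - A (U (e' i) v.2)‖ ≤ L * e0 :=
        h5.trans (mul_le_mul_of_nonneg_left h2 hL0)
      linarith
    refine (norm_add_le _ _).trans ?_
    have h9 : e2 ≤ e1 / 2 := min_le_right _ _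
    linarith
  have hclose2 : ∀ i, ∀ v ∈ ball (0 : ℂ) (K0 + 3) ×ˢ ball wb ρ',
      ‖(D3_G A κ (G i) v).2 - U (e' i) v.2‖ ≤ e0 := fun i v hv => (hGm i _ (hmem v hv)).2
  have hcl : closedBall (0 : ℂ) (K0 + 2) ×ˢ closedBall wb ρ ⊆
      ball (0 : ℂ) (K0 + 3) ×ˢ ball wb ρ' :=
    prod_mono (closedBall_subset_ball (by linarith)) hsubρ
  have hμ : ‖lam ^ N‖ = 1 := by rw [norm_pow, hl, one_pow]
  have H1 : ∀ i, ∀ v ∈ closedBall (0 : ℂ) (K0 + 2) ×ˢ closedBall wb ρ,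
        ‖(D3_G A κ (G i) v).1 - ((lam ^ N)⁻¹ * v.1 + lam⁻¹ ^ ((e' i : ℕ)))‖ ≤ e ∧
          (D3_G A κ (G i) v).2 ∈ closedBall wb ρ := by
    -- closeness on the closed bidisc
    intro i v hv
    refine ⟨?_, ?_⟩
    · have h1 := hclose1 i v (hcl hv)
      have h2 : (D3_G A κ (G i) v).1 - ((lam ^ N)⁻¹ * v.1 + lam⁻¹ ^ ((e' i : ℕ))) =
          (D3_G A κ (G i) v).1 - (lam ^ N)⁻¹ * v.1 - lam⁻¹ ^ ((e' i : ℕ)) := by ring
      rw [h2]
      exact h1.trans he1a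
    · have h1 := hclose2 i v (hcl hv)
      have h2 := hmarg i v.2 hv.2
      rw [mem_closedBall, dist_eq_norm]
      have h3 : (D3_G A κ (G i) v).2 - wb =
          ((D3_G A κ (G i) v).2 - U (e' i) v.2) + (U (e' i) v.2 - wb) := by ring
      rw [h3]
      exact (norm_add_le _ _).trans (by linarith)
  have H2 : ∀ i, ∀ v ∈ closedBall (0 : ℂ) (K0 + 2) ×ˢ closedBall wb ρ,
        ∀ v' ∈ closedBall (0 : ℂ) (K0 + 2) ×ˢ closedBall wb ρ,
        ‖((D3_G A κ (G i) v).1 - (lam ^ N)⁻¹ * v.1) -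
            ((D3_G A κ (G i) v').1 - (lam ^ N)⁻¹ * v'.1)‖
            ≤ e * (‖v.1 - v'.1‖ + ‖v.2 - v'.2‖) ∧
          ‖(D3_G A κ (G i) v).2 - (D3_G A κ (G i) v').2‖
            ≤ e * ‖v.1 - v'.1‖ + (1 / 8) * ‖v.2 - v'.2‖ := by
    -- Lipschitz
    intro i v hv v' hv'
    refine ⟨?_, ?_⟩
    · have hd : DifferentiableOn ℂ (fun v => (D3_G A κ (G i) v).1 - (lam ^ N)⁻¹ * v.1 -
          lam⁻¹ ^ ((e' i : ℕ))) (ball (0 : ℂ) (K0 + 3) ×ˢ ball wb ρ') :=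
        ((hG1 i).sub (differentiableOn_fst.const_mul _)).sub_const _
      have h1 := lip_of_bound (r1 := K0 + 2) (r2 := ρ) (by linarith) hρ'1 hd (hclose1 i) v hv v' hv'
      have h2 : (fun v => (D3_G A κ (G i) v).1 - (lam ^ N)⁻¹ * v.1 -
          lam⁻¹ ^ ((e' i : ℕ))) v - (fun v => (D3_G A κ (G i) v).1 - (lam ^ N)⁻¹ * v.1 -
          lam⁻¹ ^ ((e' i : ℕ))) v' = ((D3_G A κ (G i) v).1 - (lam ^ N)⁻¹ * v.1) -
          ((D3_G A κ (G i) v').1 - (lam ^ N)⁻¹ * v'.1) := by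
        simp only
        ring
      rw [h2] at h1
      refine h1.trans ?_
      have h3 : K0 + 3 - (K0 + 2) = 1 := by ring
      rw [h3, div_one, mul_add]
      exact add_le_add (mul_le_mul_of_nonneg_right he1a (norm_nonneg _))
        (mul_le_mul_of_nonneg_right he1b (norm_nonneg _))
    · have hd : DifferentiableOn ℂ (fun v => (D3_G A κ (G i) v).2 - U (e' i) v.2)
          (ball (0 : ℂ) (K0 + 3) ×ˢ ball wb ρ') := (hG2 i).sub (hUdiff i)
      have h1 := lip_of_bound (r1 := K0 + 2) (r2 := ρ) (by linarith) hρ'1 hd (hclose2 i) v hv v' hv'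
      have h2 : ‖U (e' i) v.2 - U (e' i) v'.2‖ ≤ 1 / 16 * ‖v.2 - v'.2‖ := by
        refine (convex_ball wb ρ'').norm_image_sub_le_of_norm_deriv_le
          (fun x hx => (hUi i).1.differentiableAt (isOpen_ball.mem_nhds (hsubρ'' hx)))
          (fun x hx => ((hUi i).2.2.1 x hx).trans (min_le_left _ _)) ?_ ?_
        · exact hsubρ' (hsubρ hv'.2)
        · exact hsubρ' (hsubρ hv.2)
      have h3 : (D3_G A κ (G i) v).2 - (D3_G A κ (G i) v').2 =
          (((D3_G A κ (G i) v).2 - U (e' i) v.2) - ((D3_G A κ (G i) v').2 - U (e' i) v'.2)) +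
          (U (e' i) v.2 - U (e' i) v'.2) := by ring
      rw [h3]
      refine (norm_add_le _ _).trans ?_
      have h4 : K0 + 3 - (K0 + 2) = 1 := by ring
      rw [h4, div_one] at h1
      have h5 : e0 * ‖v.1 - v'.1‖ ≤ e * ‖v.1 - v'.1‖ :=
        mul_le_mul_of_nonneg_right c3 (norm_nonneg _)
      have h6 : e0 / (ρ' - ρ) * ‖v.2 - v'.2‖ ≤ 1 / 16 * ‖v.2 - v'.2‖ :=
        mul_le_mul_of_nonneg_right c4 (norm_nonneg _)
      linarith
  have H3 : ∀ w ∈ closedBall wb ρ, ‖(φ w - A w) / κ‖ ≤ e := by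
    intro w hw
    rw [norm_div]
    exact (div_le_div_of_nonneg_right (hφ w hw) hκn.le).trans c6
  have H4 : ∀ w ∈ closedBall wb ρ, ∀ w' ∈ closedBall wb ρ,
      ‖(φ w - A w) / κ - (φ w' - A w') / κ‖ ≤ e * ‖w - w'‖ := by
    intro w hw w' hw'
    have h1 : (φ w - A w) / κ - (φ w' - A w') / κ = ((φ w - A w) - (φ w' - A w')) / κ := by ring
    rw [h1, norm_div, div_le_iff₀ hκn]
    refine (hφL w hw w' hw').trans ?_
    rw [div_le_iff₀ hκn] at c6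
    calc e0 * ‖w - w'‖ ≤ (e * ‖κ‖) * ‖w - w'‖ := mul_le_mul_of_nonneg_right c6 (norm_nonneg _)
      _ = e * ‖w - w'‖ * ‖κ‖ := by ring
  obtain ⟨σ, hσ⟩ := hD2 wb (lam ^ N) hμ (fun i => D3_G A κ (G i)) H1 H2
    (fun w => (φ w - A w) / κ) H3 H4
  refine ⟨σ, fun k => ?_⟩
  obtain ⟨v, hv, w, hw, hword⟩ := hσ k
  refine ⟨D3_h A κ v, ?_, w, hw, ?_⟩
  · refine ⟨?_, hv.2⟩
    rw [mem_closedBall_zero_iff]
    change ‖A v.2 + κ * v.1‖ ≤ K
    have h1 := hMA v.2 (closedBall_subset_closedBall (by linarith) hv.2)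
    have h2 : ‖v.1‖ ≤ K0 := mem_closedBall_zero_iff.1 hv.1
    calc ‖A v.2 + κ * v.1‖ ≤ ‖A v.2‖ + ‖κ * v.1‖ := norm_add_le _ _
      _ ≤ MA + ‖κ‖ * K0 := by
        rw [norm_mul]
        exact add_le_add h1 (mul_le_mul_of_nonneg_left h2 hκn.le)
  · rw [D3_word (G' := fun i => D3_G A κ (G i)) (fun i v => D3_conj A hκ0 (G i) v) σ k v, hword]
    unfold D3_h
    simp only
    rw [mul_div_cancel₀ _ hκ0]
    ext <;> simp

end SkewBif
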