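import Pool.Agent.SK.A5
/-! ## MP_9cfccf_an, module D4a -/
open Set Metric Filter Topology Polynomial
namespace SkewBif

/-- D4a. Persistence of an inverse branch `U` of a holomorphic map over a disc under a `C¹` change of
the map. Proof: A5 with `K = closedBall wb R''`, `R' < R'' < R`, `H (p, w, v) = Qf (p, v) - w`,
`s = U` (the derivative of `Qf (p0, ·)` at `U w` is nonzero since `Qf (p0, U w) = w`). -/
theorem branch_close {E : Type*} [NormedAddCommGroup E] [NormedSpace ℂ E] [CompleteSpace E]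
    {Qf : E × ℂ → ℂ} (hQf : ContDiff ℂ 1 Qf) {p0 : E} {U : ℂ → ℂ} {wb : ℂ} {R R' : ℝ}
    (hR' : R' < R) (hU : DifferentiableOn ℂ U (ball wb R))
    (hinv : ∀ w ∈ ball wb R, Qf (p0, U w) = w) {e : ℝ} (he : 0 < e) :
    ∃ δ > 0, ∀ p ∈ ball p0 δ, ∃ U' : ℂ → ℂ, DifferentiableOn ℂ U' (ball wb R') ∧
      ∀ w ∈ ball wb R', Qf (p, U' w) = w ∧ ‖U' w - U w‖ ≤ e := by
  obtain ⟨R'', h1, h2⟩ := exists_between hR'
  have hKsub : closedBall wb R'' ⊆ ball wb R := closedBall_subset_ball h2
  have hQd : Differentiable ℂ Qf := hQf.differentiable one_ne_zero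
  have hQv : ∀ v, DifferentiableAt ℂ (fun v => Qf (p0, v)) v := fun v =>
    (hQd _).comp v (by fun_prop)
  have hder : ∀ w ∈ ball wb R, deriv (fun v => Qf (p0, v)) (U w) ≠ 0 := by
    intro w hw h0
    have hUw : HasDerivAt U (deriv U w) w :=
      (hU.differentiableAt (isOpen_ball.mem_nhds hw)).hasDerivAt
    have hc : HasDerivAt (fun w => Qf (p0, U w)) (deriv (fun v => Qf (p0, v)) (U w) * deriv U w) w :=
      (hQv (U w)).hasDerivAt.comp w hUw
    have hid : (fun w => Qf (p0, U w)) =ᶠ[𝓝 w] id := by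
      filter_upwards [isOpen_ball.mem_nhds hw] with w' hw'
      exact hinv w' hw'
    have h1 := hc.congr_of_eventuallyEq hid.symm
    have h2 := h1.unique (hasDerivAt_id w)
    rw [h0, zero_mul] at h2
    exact zero_ne_one h2
  obtain ⟨δ, hδ, η, hη, hηe, φ, -, -, hφ⟩ := uib (H := fun x : E × ℂ × ℂ => Qf (x.1, x.2.2) - x.2.1)
    (p₀ := p0) (K := closedBall wb R'') (isCompact_closedBall _ _) (s := U)
    (hU.continuousOn.mono hKsub)
    (by
      intro y _
      have : ContDiff ℂ 1 (fun x : E × ℂ × ℂ => Qf (x.1, x.2.2) - x.2.1) := by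
        have h3 : ContDiff ℂ 1 (fun x : E × ℂ × ℂ => (x.1, x.2.2)) := by fun_prop
        exact (hQf.comp h3).sub (by fun_prop)
      exact this.contDiffAt)
    (by
      intro y hy
      simp [hinv y (hKsub hy)])
    (by
      intro y hy
      have hd := (hQv (U y)).hasDerivAt.sub_const y
      exact ⟨_, hd.hasFDerivAt_equiv (hder y (hKsub hy))⟩)
    (η₀ := e) he
  refine ⟨δ, hδ, fun p hp => ⟨φ p, ?_, ?_⟩⟩
  · intro w hw
    have hwK : w ∈ closedBall wb R'' := ball_subset_closedBall (ball_subset_ball h1.le hw)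
    have hwi : w ∈ interior (closedBall wb R'') :=
      ball_subset_interior_closedBall (ball_subset_ball h1.le hw)
    have h3 := (hφ p hp w hwK).2.2.2 hwi
    have h4 : DifferentiableAt ℂ (fun x : E × ℂ => φ x.1 x.2) (p, w) :=
      h3.differentiableAt one_ne_zero
    have h5 : DifferentiableAt ℂ (fun y : ℂ => (p, y)) w := by fun_prop
    exact (DifferentiableAt.comp w h4 h5).differentiableWithinAt
  · intro w hw
    have hwK : w ∈ closedBall wb R'' := ball_subset_closedBall (ball_subset_ball h1.le hw)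
    obtain ⟨h3, h4, -, -⟩ := hφ p hp w hwK
    refine ⟨sub_eq_zero.1 h4, ?_⟩
    rw [← dist_eq_norm]
    exact h3.le.trans hηe

end SkewBif
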