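import Pool.Agent.SK.A6
import Pool.Agent.SK.C5
/-! ## MP_9cfccf_an, module D4b -/
open Set Metric Filter Topology Polynomial
namespace SkewBif

/-- A contraction of a closed disc into itself has a fixed point. -/
private theorem d4b_fix {f : ℂ → ℂ} {c : ℂ} {s K : ℝ} (hs : 0 ≤ s) (hK0 : 0 ≤ K) (hK : K < 1)
    (hmaps : ∀ w ∈ closedBall c s, f w ∈ closedBall c s)
    (hlip : ∀ w ∈ closedBall c s, ∀ w' ∈ closedBall c s, ‖f w - f w'‖ ≤ K * ‖w - w'‖) :
    ∃ x ∈ closedBall c s, f x = x := by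
  have hc : c ∈ closedBall c s := mem_closedBall_self hs
  have hm : MapsTo f (closedBall c s) (closedBall c s) := fun w hw => hmaps w hw
  obtain ⟨y, hy, hfy, -, -⟩ := ContractingWith.exists_fixedPoint' (K := ⟨K, hK0⟩)
    (isClosed_closedBall (x := c) (ε := s)).isComplete hm
    ⟨by exact_mod_cast hK, by
      refine LipschitzWith.of_dist_le_mul ?_
      rintro ⟨a, ha⟩ ⟨b, hb⟩
      have := hlip a ha b hb
      rw [← dist_eq_norm, ← dist_eq_norm] at this
      exact this⟩ hc (edist_ne_top _ _)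
  exact ⟨y, hy, hfy⟩

/-- Solution of `D = lam D ∘ u + E` for a contraction `u`. -/
private theorem d4b_series {u E : ℂ → ℂ} {c wx lam : ℂ} {r K L θ2 : ℝ} (hr : 0 < r)
    (hu : DifferentiableOn ℂ u (ball c r)) (hE : DifferentiableOn ℂ E (ball c r))
    (hmaps : ∀ w ∈ ball c r, u w ∈ ball c r) (hwx : wx ∈ ball c r) (hfix : u wx = wx)
    (hK0 : 0 ≤ K) (hcon : ∀ w ∈ ball c r, ‖u w - wx‖ ≤ K * ‖w - wx‖)
    (hL0 : 0 ≤ L) (hEL : ∀ w ∈ ball c r, ‖E w - E wx‖ ≤ L * ‖w - wx‖)
    (hlK : ‖lam‖ * K ≤ θ2) (hθ2 : θ2 < 1) (hlam : lam ≠ 1) :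
    ∃ D : ℂ → ℂ, DifferentiableOn ℂ D (ball c r) ∧
      ∀ w ∈ ball c r, D w = lam * D (u w) + E w ∧
        ‖D w‖ ≤ ‖E wx‖ / ‖1 - lam‖ + L * (2 * r) / (1 - θ2) := by
  have hm : MapsTo u (ball c r) (ball c r) := fun w hw => hmaps w hw
  have hmk : ∀ k : ℕ, MapsTo (u^[k]) (ball c r) (ball c r) := fun k => hm.iterate k
  have hθ0 : 0 ≤ θ2 := le_trans (by positivity) hlK
  have hk : ∀ k : ℕ, ∀ w ∈ ball c r, ‖u^[k] w - wx‖ ≤ K ^ k * ‖w - wx‖ := by
    intro k
    induction k with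
    | zero => intro w hw; simp
    | succ k ih =>
      intro w hw
      rw [Function.iterate_succ_apply']
      calc ‖u (u^[k] w) - wx‖ ≤ K * ‖u^[k] w - wx‖ := hcon _ (hmk k hw)
        _ ≤ K * (K ^ k * ‖w - wx‖) := by gcongr; exact ih w hw
        _ = K ^ (k + 1) * ‖w - wx‖ := by ring
  have hdist : ∀ w ∈ ball c r, ‖w - wx‖ ≤ 2 * r := by
    intro w hw
    have h1 := mem_ball.mp hw
    have h2 := mem_ball.mp hwx
    have h3 := dist_triangle_right w wx c
    rw [← dist_eq_norm]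
    linarith
  let t : ℕ → ℂ → ℂ := fun k w => lam ^ k * (E (u^[k] w) - E wx)
  have htb : ∀ k : ℕ, ∀ w ∈ ball c r, ‖t k w‖ ≤ L * (2 * r) * θ2 ^ k := by
    intro k w hw
    calc ‖t k w‖ = ‖lam‖ ^ k * ‖E (u^[k] w) - E wx‖ := by
          simp only [t, norm_mul, norm_pow]
      _ ≤ ‖lam‖ ^ k * (L * ‖u^[k] w - wx‖) := by gcongr; exact hEL _ (hmk k hw)
      _ ≤ ‖lam‖ ^ k * (L * (K ^ k * (2 * r))) := by
          gcongr
          calc ‖u^[k] w - wx‖ ≤ K ^ k * ‖w - wx‖ := hk k w hw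
            _ ≤ K ^ k * (2 * r) := by gcongr; exact hdist w hw
      _ = L * (2 * r) * (‖lam‖ * K) ^ k := by rw [mul_pow]; ring
      _ ≤ L * (2 * r) * θ2 ^ k := by gcongr
  have hsum : Summable (fun k : ℕ => L * (2 * r) * θ2 ^ k) :=
    (summable_geometric_of_lt_one hθ0 hθ2).mul_left _
  have htd : ∀ k : ℕ, DifferentiableOn ℂ (t k) (ball c r) := by
    intro k
    exact ((hE.comp (hu.iterate hm k) (hmk k)).sub_const _).const_mul _
  have hts : ∀ w ∈ ball c r, Summable (fun k => t k w) := fun w hw =>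
    Summable.of_norm_bounded hsum (fun k => htb k w hw)
  refine ⟨fun w => E wx / (1 - lam) + ∑' k, t k w, ?_, ?_⟩
  · exact (differentiableOn_const _).add
      (Complex.differentiableOn_tsum_of_summable_norm hsum htd isOpen_ball htb)
  · intro w hw
    have h1l : (1 - lam) ≠ 0 := sub_ne_zero.mpr (Ne.symm hlam)
    constructor
    · have h1 : ∑' k, t k w = t 0 w + ∑' k, t (k + 1) w := (hts w hw).tsum_eq_zero_add
      have h2 : ∀ k, t (k + 1) w = lam * t k (u w) := by
        intro k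
        simp only [t, Function.iterate_succ_apply]
        ring
      have h3 : ∑' k, t (k + 1) w = lam * ∑' k, t k (u w) := by
        simp_rw [h2]
        exact tsum_mul_left
      show E wx / (1 - lam) + ∑' k, t k w = lam * (E wx / (1 - lam) + ∑' k, t k (u w)) + E w
      rw [h1, h3]
      simp only [t, pow_zero, one_mul, Function.iterate_zero, id]
      field_simp
      ring
    · have h1 : ‖∑' k, t k w‖ ≤ L * (2 * r) / (1 - θ2) := by
        have h2 : HasSum (fun k : ℕ => L * (2 * r) * θ2 ^ k) (L * (2 * r) * (1 - θ2)⁻¹) :=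
          (hasSum_geometric_of_lt_one hθ0 hθ2).mul_left _
        rw [div_eq_mul_inv]
        exact tsum_of_norm_bounded h2 (fun k => htb k w hw)
      calc ‖E wx / (1 - lam) + ∑' k, t k w‖ ≤ ‖E wx / (1 - lam)‖ + ‖∑' k, t k w‖ := norm_add_le _ _
        _ ≤ ‖E wx‖ / ‖1 - lam‖ + L * (2 * r) / (1 - θ2) := by rw [norm_div]; gcongr

/-- D4b. Persistence of the invariant graph function `A`.
Proof. `u'` maps `ball wb R'` into itself and is a contraction there with constant `(1 + θ)/2`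
(Cauchy estimates on `ball wb R'`, `R' < R`; shrink `R'' `); its fixed point `wx` is close to `wb`. Put
`A' w = S' wx / (1 - lam') + ∑_{k ≥ 0} lam'^k (S' (u'^[k+1] w) - S' wx)`. The given `A` satisfies the same formula
(iterate `A_eq`: `A w - A wb = ∑_{k<K} lam^k (S (u^[k+1] w) - S wb) + lam^K (A (u^[K] w) - A wb)`).
The tails are uniformly small (`‖lam'‖ (1+θ)/2 < 1`), the partial sums are close. -/
theorem graph_close {Q S : ℂ → ℂ} {lam wb : ℂ} {R θ : ℝ} {u A : ℂ → ℂ}
    (h : FibLin Q S lam wb R θ u A) (hS : Differentiable ℂ S) (hl : ‖lam‖ = 1) (hl1 : lam ≠ 1) {R' : ℝ}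
    (hR'0 : 0 < R') (hR' : R' < R) {e : ℝ} (he : 0 < e) :
    ∃ δ > 0, ∀ (lam' : ℂ) (u' S' : ℂ → ℂ), ‖lam' - lam‖ ≤ δ →
      DifferentiableOn ℂ u' (ball wb R) → (∀ w ∈ ball wb R, ‖u' w - u w‖ ≤ δ) →
      DifferentiableOn ℂ S' (ball wb R) → (∀ w ∈ ball wb R, ‖S' w - S w‖ ≤ δ) →
      ∃ wx ∈ ball wb R', ‖wx - wb‖ ≤ e ∧ u' wx = wx ∧
        (∀ w ∈ ball wb R', u' w ∈ ball wb R' ∧ ‖deriv u' w‖ ≤ (1 + θ) / 2 ∧
          ‖u' w - wx‖ ≤ (1 + θ) / 2 * ‖w - wx‖) ∧
        ‖lam'‖ * ((1 + θ) / 2) < 1 ∧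
        ∃ A' : ℂ → ℂ, DifferentiableOn ℂ A' (ball wb R') ∧
          ∀ w ∈ ball wb R', A' w = lam' * A' (u' w) + S' (u' w) ∧ ‖A' w - A w‖ ≤ e := by
  have hθ0 := h.th0
  have hθ1 := h.th1
  have hRpos := h.Rpos
  set θ1 : ℝ := (1 + θ) / 2 with hθ1d
  have hθ1' : θ1 < 1 := by rw [hθ1d]; linarith
  have hθ1p : 0 < θ1 := by rw [hθ1d]; linarith
  set θ2 : ℝ := (1 + θ1) / 2 with hθ2d
  have hθ2' : θ2 < 1 := by rw [hθ2d]; linarith
  set R2 : ℝ := (2 * R' + R) / 3 with hR2
  set R3 : ℝ := (R' + 2 * R) / 3 with hR3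
  have hR'2 : R' < R2 := by rw [hR2]; linarith
  have hR23 : R2 < R3 := by rw [hR2, hR3]; linarith
  have hR3R : R3 < R := by rw [hR3]; linarith
  -- bounds of A and S
  have hAc : ContinuousOn A (closedBall wb R3) :=
    (h.A_diff.mono (closedBall_subset_ball hR3R)).continuousOn
  obtain ⟨M1, hM1⟩ := (isCompact_closedBall wb R3).exists_bound_of_continuousOn hAc
  obtain ⟨M2, hM2⟩ := (isCompact_closedBall wb R3).exists_bound_of_continuousOn
    hS.continuous.continuousOn
  set M : ℝ := max (max M1 M2) 1 with hM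
  have hM1' : ∀ w ∈ closedBall wb R3, ‖A w‖ ≤ M := fun w hw =>
    (hM1 w hw).trans ((le_max_left _ _).trans (le_max_left _ _))
  have hM2' : ∀ w ∈ closedBall wb R3, ‖S w‖ ≤ M := fun w hw =>
    (hM2 w hw).trans ((le_max_right _ _).trans (le_max_left _ _))
  have hMp : 0 < M := lt_of_lt_of_le one_pos (le_max_right _ _)
  set L : ℝ := M / (R3 - R2) with hLd
  have hLp : 0 < L := div_pos hMp (by linarith)
  have hAL : ∀ v ∈ closedBall wb R2, ∀ v' ∈ closedBall wb R2, ‖A v - A v'‖ ≤ L * ‖v - v'‖ :=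
    lip_of_bound_one hR23 (h.A_diff.mono (ball_subset_ball hR3R.le))
      (fun v hv => hM1' v (ball_subset_closedBall hv))
  have hSL : ∀ v ∈ closedBall wb R2, ∀ v' ∈ closedBall wb R2, ‖S v - S v'‖ ≤ L * ‖v - v'‖ :=
    lip_of_bound_one hR23 hS.differentiableOn
      (fun v hv => hM2' v (ball_subset_closedBall hv))
  set κ : ℝ := ‖1 - lam‖ with hκ
  have hκp : 0 < κ := norm_pos_iff.mpr (sub_ne_zero.mpr (Ne.symm hl1))
  set C : ℝ := M + L + 1 + L with hC
  have hCp : 0 < C := by rw [hC]; linarith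
  set B : ℝ := C * (2 / κ + (2 * R') / ((R2 - R') * (1 - θ2))) with hB
  have hBp : 0 < B := by
    rw [hB]
    have h1 : 0 < R2 - R' := by linarith
    have h2 : 0 < 1 - θ2 := by linarith
    positivity
  set s : ℝ := min (R' / 2) e with hs
  have hsp : 0 < s := lt_min (by linarith) he
  have hsR : s < R' := lt_of_le_of_lt (min_le_left _ _) (by linarith)
  -- choice of δ
  set δ : ℝ := min (min (min ((1 - θ) / 2 * (R - R')) ((1 - θ) * s)) (min ((1 - θ1) / 2) (κ / 2)))
    (e / B) with hδ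
  have hd1 : δ ≤ (1 - θ) / 2 * (R - R') :=
    (min_le_left _ _).trans ((min_le_left _ _).trans (min_le_left _ _))
  have hd2 : δ ≤ (1 - θ) * s :=
    (min_le_left _ _).trans ((min_le_left _ _).trans (min_le_right _ _))
  have hd3 : δ ≤ (1 - θ1) / 2 :=
    (min_le_left _ _).trans ((min_le_right _ _).trans (min_le_left _ _))
  have hd4 : δ ≤ κ / 2 :=
    (min_le_left _ _).trans ((min_le_right _ _).trans (min_le_right _ _))
  have hd5 : δ ≤ e / B := min_le_right _ _
  have h1θ : 0 < 1 - θ := by linarith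
  have hδp : 0 < δ := by
    refine lt_min (lt_min (lt_min ?_ ?_) (lt_min ?_ ?_)) (div_pos he hBp)
    · exact mul_pos (by linarith) (by linarith)
    · exact mul_pos h1θ hsp
    · linarith
    · linarith
  refine ⟨δ, hδp, ?_⟩
  intro lam' u' S' hlam' hu'd hu' hS'd hS'
  -- u' maps discs into themselves
  have hself : ∀ r : ℝ, s < r → r ≤ R → ∀ w ∈ ball wb r, u' w ∈ ball wb r := by
    intro r hr hrR w hw
    have hwR : w ∈ ball wb R := ball_subset_ball hrR hw
    rw [mem_ball, dist_eq_norm] at hw ⊢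
    have h1 := hu' w hwR
    have h2 := h.u_le hwR
    have h3 : ‖u' w - wb‖ ≤ ‖u' w - u w‖ + ‖u w - wb‖ := by
      have : u' w - wb = (u' w - u w) + (u w - wb) := by ring
      rw [this]; exact norm_add_le _ _
    have h4 : θ * ‖w - wb‖ ≤ θ * r := by gcongr
    have h5 : (1 - θ) * s < (1 - θ) * r := by gcongr
    linarith
  -- derivative bound
  have hder : ∀ w ∈ ball wb R', ‖deriv u' w‖ ≤ θ1 := by
    intro w hw
    have hwR : w ∈ ball wb R := ball_subset_ball hR'.le hw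
    have hsub : closedBall w ((R - R')) ⊆ ball wb R := by
      intro v hv
      rw [mem_closedBall] at hv
      rw [mem_ball] at hw ⊢
      linarith [dist_triangle v w wb]
    have hg : DifferentiableOn ℂ (fun v => u' v - u v) (ball wb R) := hu'd.sub h.u_diff
    have h1 : ‖deriv (fun v => u' v - u v) w‖ ≤ δ / (R - R') := by
      refine Complex.norm_deriv_le_of_forall_mem_sphere_norm_le (by linarith) ?_ ?_
      · refine (hg.mono ?_).diffContOnCl
        rw [closure_ball w (by linarith : (R - R') ≠ 0)]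
        exact hsub
      · intro v hv
        exact hu' v (hsub (sphere_subset_closedBall hv))
    have hda : DifferentiableAt ℂ u' w := (hu'd w hwR).differentiableAt (isOpen_ball.mem_nhds hwR)
    have hdb : DifferentiableAt ℂ u w := (h.u_diff w hwR).differentiableAt (isOpen_ball.mem_nhds hwR)
    have h2 : deriv u' w = deriv (fun v => u' v - u v) w + deriv u w := by
      have : deriv (fun v => u' v - u v) w = deriv u' w - deriv u w := deriv_sub hda hdb
      rw [this]; ring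
    have h3 : δ / (R - R') ≤ (1 - θ) / 2 := by
      rw [div_le_iff₀ (by linarith)]; exact hd1
    calc ‖deriv u' w‖ ≤ ‖deriv (fun v => u' v - u v) w‖ + ‖deriv u w‖ := by
          rw [h2]; exact norm_add_le _ _
      _ ≤ (1 - θ) / 2 + θ := add_le_add (h1.trans h3) (h.u_der w hwR)
      _ = θ1 := by rw [hθ1d]; ring
  have hlip : ∀ w ∈ ball wb R', ∀ w' ∈ ball wb R', ‖u' w - u' w'‖ ≤ θ1 * ‖w - w'‖ := by
    intro w hw w' hw'
    exact (convex_ball wb R').norm_image_sub_le_of_norm_deriv_le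
      (fun x hx => (hu'd x (ball_subset_ball hR'.le hx)).differentiableAt
        (isOpen_ball.mem_nhds (ball_subset_ball hR'.le hx))) hder hw' hw
  -- fixed point
  obtain ⟨wx, hwxs, hfix⟩ := d4b_fix (f := u') (c := wb) hsp.le hθ1p.le hθ1'
    (by
      intro w hw
      have hwR : w ∈ ball wb R := closedBall_subset_ball (by linarith) hw
      rw [mem_closedBall, dist_eq_norm] at hw ⊢
      have h1 := hu' w hwR
      have h2 := h.u_le hwR
      have h3 : ‖u' w - wb‖ ≤ ‖u' w - u w‖ + ‖u w - wb‖ := by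
        have : u' w - wb = (u' w - u w) + (u w - wb) := by ring
        rw [this]; exact norm_add_le _ _
      have h4 : θ * ‖w - wb‖ ≤ θ * s := by gcongr
      linarith)
    (fun w hw w' hw' => hlip w (closedBall_subset_ball hsR hw) w' (closedBall_subset_ball hsR hw'))
  have hwx : wx ∈ ball wb R' := closedBall_subset_ball hsR hwxs
  have hwxe : ‖wx - wb‖ ≤ e := by
    rw [mem_closedBall, dist_eq_norm] at hwxs
    exact hwxs.trans (min_le_right _ _)
  have hlamn : ‖lam'‖ ≤ 1 + δ := by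
    calc ‖lam'‖ = ‖(lam' - lam) + lam‖ := by ring_nf
      _ ≤ ‖lam' - lam‖ + ‖lam‖ := norm_add_le _ _
      _ ≤ 1 + δ := by rw [hl]; linarith
  have hlK : ‖lam'‖ * θ1 ≤ θ2 := by
    calc ‖lam'‖ * θ1 ≤ (1 + (1 - θ1) / 2) * θ1 := by gcongr; linarith
      _ ≤ θ2 := by rw [hθ2d]; nlinarith
  have hκ' : κ / 2 ≤ ‖1 - lam'‖ := by
    have h1 : κ ≤ ‖1 - lam'‖ + ‖lam' - lam‖ := by
      have : (1 - lam) = (1 - lam') + (lam' - lam) := by ring
      rw [hκ, this]; exact norm_add_le _ _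
    linarith
  have hlam1 : lam' ≠ 1 := by
    intro h0
    rw [h0] at hκ'
    simp at hκ'
    linarith
  -- the error function
  let E : ℂ → ℂ := fun w => lam' * A (u' w) + S' (u' w) - A w
  have hm2 : MapsTo u' (ball wb R2) (ball wb R2) := fun w hw =>
    hself R2 (by linarith) (by linarith) w hw
  have hEd : DifferentiableOn ℂ E (ball wb R2) := by
    have hsub : ball wb R2 ⊆ ball wb R := ball_subset_ball (by linarith)
    exact (((h.A_diff.mono hsub).comp (hu'd.mono hsub) hm2).const_mul _).add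
      ((hS'd.mono hsub).comp (hu'd.mono hsub) hm2) |>.sub (h.A_diff.mono hsub)
  have hEb : ∀ w ∈ ball wb R2, ‖E w‖ ≤ δ * C := by
    intro w hw
    have hwR : w ∈ ball wb R := ball_subset_ball (by linarith) hw
    have hw2 : u' w ∈ ball wb R2 := hm2 hw
    have huw2 : u w ∈ closedBall wb R2 := by
      have h2 := h.u_le hwR
      rw [mem_ball, dist_eq_norm] at hw
      rw [mem_closedBall, dist_eq_norm]
      have : θ * ‖w - wb‖ ≤ 1 * ‖w - wb‖ := by gcongr
      linarith
    have hAe := h.A_eq w hwR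
    have e1 : E w = (lam' - lam) * A (u' w) + lam * (A (u' w) - A (u w)) +
        (S' (u' w) - S (u' w)) + (S (u' w) - S (u w)) := by
      simp only [E]; rw [hAe]; ring
    have n1 : ‖(lam' - lam) * A (u' w)‖ ≤ δ * M := by
      rw [norm_mul]
      exact mul_le_mul hlam' (hM1' _ (closedBall_subset_closedBall hR23.le
        (ball_subset_closedBall hw2))) (norm_nonneg _) hδp.le
    have n2 : ‖lam * (A (u' w) - A (u w))‖ ≤ δ * L := by
      rw [norm_mul, hl, one_mul]
      calc ‖A (u' w) - A (u w)‖ ≤ L * ‖u' w - u w‖ := hAL _ (ball_subset_closedBall hw2) _ huw2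
        _ ≤ L * δ := by gcongr; exact hu' w hwR
        _ = δ * L := by ring
    have n3 : ‖S' (u' w) - S (u' w)‖ ≤ δ := hS' _ (ball_subset_ball (by linarith) hw2)
    have n4 : ‖S (u' w) - S (u w)‖ ≤ δ * L := by
      calc ‖S (u' w) - S (u w)‖ ≤ L * ‖u' w - u w‖ := hSL _ (ball_subset_closedBall hw2) _ huw2
        _ ≤ L * δ := by gcongr; exact hu' w hwR
        _ = δ * L := by ring
    calc ‖E w‖ ≤ ‖(lam' - lam) * A (u' w) + lam * (A (u' w) - A (u w)) +
        (S' (u' w) - S (u' w))‖ + ‖S (u' w) - S (u w)‖ := by rw [e1]; exact norm_add_le _ _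
      _ ≤ (‖(lam' - lam) * A (u' w) + lam * (A (u' w) - A (u w))‖ + ‖S' (u' w) - S (u' w)‖) +
          ‖S (u' w) - S (u w)‖ := by gcongr; exact norm_add_le _ _
      _ ≤ ((‖(lam' - lam) * A (u' w)‖ + ‖lam * (A (u' w) - A (u w))‖) +
          ‖S' (u' w) - S (u' w)‖) + ‖S (u' w) - S (u w)‖ := by gcongr; exact norm_add_le _ _
      _ ≤ ((δ * M + δ * L) + δ) + δ * L := by gcongr
      _ = δ * C := by rw [hC]; ring
  have hEL : ∀ w ∈ ball wb R', ‖E w - E wx‖ ≤ δ * C / (R2 - R') * ‖w - wx‖ := fun w hw =>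
    lip_of_bound_one hR'2 hEd hEb w (ball_subset_closedBall hw) wx (ball_subset_closedBall hwx)
  have hL0 : 0 ≤ δ * C / (R2 - R') := div_nonneg (by positivity) (by linarith)
  obtain ⟨D, hDd, hD⟩ := d4b_series (u := u') (E := E) (c := wb) (wx := wx) (lam := lam')
    (K := θ1) (L := δ * C / (R2 - R')) (θ2 := θ2) hR'0 (hu'd.mono (ball_subset_ball hR'.le))
    (hEd.mono (ball_subset_ball hR'2.le)) (hself R' hsR hR'.le) hwx hfix hθ1p.le
    (fun w hw => by
      have := hlip w hw wx hwx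
      rwa [hfix] at this) hL0 hEL hlK hθ2' hlam1
  refine ⟨wx, hwx, hwxe, hfix, fun w hw => ⟨hself R' hsR hR'.le w hw, hder w hw, ?_⟩,
    lt_of_le_of_lt hlK hθ2', fun w => A w + D w,
    (h.A_diff.mono (ball_subset_ball hR'.le)).add hDd, fun w hw => ⟨?_, ?_⟩⟩
  · have := hlip w hw wx hwx
    rwa [hfix] at this
  · have h1 := (hD w hw).1
    show A w + D w = lam' * (A (u' w) + D (u' w)) + S' (u' w)
    rw [h1]
    simp only [E]
    ring
  · have h1 := (hD w hw).2
    have h2 : ‖E wx‖ / ‖1 - lam'‖ ≤ δ * C / (κ / 2) :=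
      div_le_div₀ (by positivity) (hEb wx (ball_subset_ball hR'2.le hwx)) (by linarith) hκ'
    have h3 : A w + D w - A w = D w := by ring
    rw [h3]
    have hp1 : 0 < R2 - R' := by linarith
    have hp2 : 0 < 1 - θ2 := by linarith
    calc ‖D w‖ ≤ ‖E wx‖ / ‖1 - lam'‖ + δ * C / (R2 - R') * (2 * R') / (1 - θ2) := h1
      _ ≤ δ * C / (κ / 2) + δ * C / (R2 - R') * (2 * R') / (1 - θ2) := by gcongr
      _ = δ * B := by rw [hB]; field_simp
      _ ≤ e := by
        have := mul_le_mul_of_nonneg_right hd5 hBp.le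
        rwa [div_mul_cancel₀ _ hBp.ne'] at this

end SkewBif
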