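import Pool.Agent.SK.D5a
/-! ## MP_9cfccf_an, module D5 -/
open Set Metric Filter Topology Polynomial
namespace SkewBif

theorem D5_pt_contDiff (p : ℂ[X]) (M : ℕ) (n : WithTop ℕ∞) :
    ContDiff ℂ n (fun q : ℂ × ℂ => (pt p q.1)^[M] q.2) := by
  induction M with
  | zero => exact contDiff_snd
  | succ M ih =>
    have e : (fun q : ℂ × ℂ => (pt p q.1)^[M + 1] q.2) =
        fun q : ℂ × ℂ => p.eval ((pt p q.1)^[M] q.2) + q.1 := by
      funext q
      rw [Function.iterate_succ_apply']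
      rfl
    rw [e]
    have h1 : ContDiff ℂ n (fun z : ℂ => p.eval z) := by
      have := Polynomial.contDiff_aeval (𝕜 := ℂ) p n
      simpa using this
    exact (h1.comp ih).add contDiff_fst

/-- uniform local injectivity of the base iterate -/
theorem D5_inj {p : ℂ[X]} {M : ℕ} {x : ℂ} (hmul : deriv ((pt p 0)^[M]) x ≠ 0) :
    ∀ᶠ q : ℂ × ℂ × ℂ in 𝓝 (0, x, x),
      (pt p q.1)^[M] q.2.1 = (pt p q.1)^[M] q.2.2 → q.2.1 = q.2.2 := by
  set Λ := deriv ((pt p 0)^[M]) x with hΛ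
  have hs : HasStrictFDerivAt (fun q : ℂ × ℂ => (pt p q.1)^[M] q.2)
      (fderiv ℂ (fun q : ℂ × ℂ => (pt p q.1)^[M] q.2) (0, x)) (0, x) :=
    ((D5_pt_contDiff p M 1).contDiffAt).hasStrictFDerivAt (by norm_num)
  set D := fderiv ℂ (fun q : ℂ × ℂ => (pt p q.1)^[M] q.2) (0, x) with hD
  have hDa : ∀ a : ℂ, D (0, a) = Λ * a := by
    intro a
    have h1 : HasDerivAt (fun z : ℂ => ((0 : ℂ), z)) ((0 : ℂ), (1 : ℂ)) x :=
      (hasDerivAt_const x (0 : ℂ)).prodMk (hasDerivAt_id x)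
    have h2 := hs.hasFDerivAt.comp_hasDerivAt x h1
    have h3 : deriv ((pt p 0)^[M]) x = D (0, 1) := h2.deriv
    have h4 : D (0, a) = a • D (0, 1) := by
      rw [← map_smul]
      simp
    rw [h4, ← h3, smul_eq_mul, mul_comm]
  have hpos : 0 < ‖Λ‖ / 2 := by
    have : 0 < ‖Λ‖ := norm_pos_iff.mpr hmul
    positivity
  have h5 := hs.isLittleO.def hpos
  have h6 : Tendsto (fun q : ℂ × ℂ × ℂ => (((q.1, q.2.1) : ℂ × ℂ), ((q.1, q.2.2) : ℂ × ℂ)))
      (𝓝 (0, x, x)) (𝓝 ((0, x), (0, x))) := by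
    apply Continuous.tendsto'
    · fun_prop
    · rfl
  filter_upwards [h6.eventually h5] with q hq heq
  rw [heq, sub_self, zero_sub, norm_neg] at hq
  have h7 : ((q.1, q.2.1) : ℂ × ℂ) - (q.1, q.2.2) = (0, q.2.1 - q.2.2) := by
    rw [Prod.mk_sub_mk, sub_self]
  rw [h7, hDa, norm_mul, Prod.norm_mk, norm_zero, max_eq_right (norm_nonneg _)] at hq
  have h8 : ‖q.2.1 - q.2.2‖ ≤ 0 := by
    by_contra h9
    push Not at h9
    have := norm_pos_iff.mpr hmul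
    nlinarith
  exact sub_eq_zero.mp (norm_le_zero_iff.mp h8)

theorem D5_fib_cont (d : ℕ) (p : ℂ[X]) (b : Mon d → ℂ) (τ : ℂ) (M : ℕ) (z : ℂ) :
    Continuous (fun w => fib d p b τ M z w) := by
  have h1 : Continuous (sk d p b τ) := by
    unfold sk qv
    fun_prop
  exact continuous_snd.comp ((h1.iterate M).comp (by fun_prop : Continuous fun w : ℂ => ((z, w) : X2)))

theorem D5_drift_cont (d : ℕ) (p : ℂ[X]) (b : Mon d → ℂ) (τ : ℂ) (M : ℕ) (z : ℂ) :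
    Continuous (fun w => drift d p b τ M z w) := by
  unfold drift
  exact continuous_finsetSum _ fun j _ => continuous_const.mul (D5_fib_cont d p b τ j z)

/-- the derivative of the first coordinate of the branch -/
theorem D5_deriv {d : ℕ} (hd : 1 ≤ d) {p : ℂ[X]} (hp : p.natDegree ≤ d) {b : Mon d → ℂ} {M : ℕ}
    {x : ℂ} (hmul : deriv ((pt p 0)^[M]) x ≠ 0) {V1 V2 : Coef d}
    (hV : ∀ ε τ : ℂ, fam d p b ε τ = skew d p b + ε • V1 + τ • V2)
    {w0 y : ℂ} {G : Coef d → X2 → X2} {L : Coef d × X2 →L[ℂ] ℂ}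
    (hGd : DifferentiableAt ℂ (fun q : Coef d × X2 => G q.1 q.2) (skew d p b, (x, w0)))
    (hL : HasFDerivAt (fun q : Coef d × X2 => (G q.1 q.2).1) L (skew d p b, (x, w0)))
    (hGx : G (skew d p b) (x, w0) = (x, y))
    (hinv : ∀ᶠ q : Coef d × X2 in 𝓝 (skew d p b, ((x, w0) : X2)),
        (T d q.1)^[M] (G q.1 q.2) = q.2) (ζ : ℂ) :
    L (V1, ((ζ, 0) : X2)) = (deriv ((pt p 0)^[M]) x)⁻¹ * (ζ - drift d p b 0 M x y) := by
  set Λ := deriv ((pt p 0)^[M]) x with hΛ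
  -- the curve of parameters and points
  have hcv : HasDerivAt (fun ε : ℂ => ((fam d p b ε 0, ((x + ε * ζ, w0) : X2)) : Coef d × X2))
      (V1, ((ζ, 0) : X2)) 0 := by
    refine HasDerivAt.prodMk ?_ (HasDerivAt.prodMk ?_ (hasDerivAt_const _ _))
    · have e : (fun ε : ℂ => fam d p b ε 0) = fun ε : ℂ => (skew d p b + ε • V1) + (0 : ℂ) • V2 := by
        funext ε; exact hV ε 0
      rw [e]
      have h1 := ((hasDerivAt_id (0 : ℂ)).smul_const V1)
      have h2 := (h1.const_add (skew d p b)).add_const ((0 : ℂ) • V2)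
      refine h2.congr_deriv ?_
      simp
    · have h1 := ((hasDerivAt_id (0 : ℂ)).mul_const ζ).const_add x
      refine h1.congr_deriv ?_
      simp
  have hc0 : ((fam d p b 0 0, ((x + 0 * ζ, w0) : X2)) : Coef d × X2) = (skew d p b, (x, w0)) := by
    rw [zero_mul, add_zero]; rfl
  -- the curve `g ε`
  have hg : HasDerivAt (fun ε : ℂ => G (fam d p b ε 0) (x + ε * ζ, w0))
      (fderiv ℂ (fun q : Coef d × X2 => G q.1 q.2) (skew d p b, (x, w0)) (V1, ((ζ, 0) : X2))) 0 := by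
    have h1 := hGd.hasFDerivAt
    rw [← hc0] at h1
    have h2 := h1.comp_hasDerivAt (0 : ℂ) hcv
    rw [hc0] at h2
    exact h2
  set g' := fderiv ℂ (fun q : Coef d × X2 => G q.1 q.2) (skew d p b, (x, w0)) (V1, ((ζ, 0) : X2))
    with hg'
  have hg1 : g'.1 = L (V1, ((ζ, 0) : X2)) := by
    have h1 : HasFDerivAt (fun q : Coef d × X2 => (G q.1 q.2).1)
        ((ContinuousLinearMap.fst ℂ ℂ ℂ).comp
          (fderiv ℂ (fun q : Coef d × X2 => G q.1 q.2) (skew d p b, (x, w0))))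
        (skew d p b, (x, w0)) :=
      (ContinuousLinearMap.fst ℂ ℂ ℂ).hasFDerivAt.comp _ hGd.hasFDerivAt
    have h2 := h1.unique hL
    rw [← h2]
    rfl
  -- the function `Ψ`
  have hgood : Good d M (fam d p b 0 0) ((x, y) : X2) := good_fam hd hp b 0 0 M _
  have hT : ContDiffAt ℂ 1 (fun q : Coef d × X2 => (T d q.1)^[M] q.2) (fam d p b 0 0, (x, y)) :=
    iter_contDiffAt hgood 1
  have hTd := (hT.differentiableAt (by norm_num)).hasFDerivAt
  have hcv2 : HasFDerivAt (fun q : ℂ × X2 => ((fam d p b q.1 0, q.2) : Coef d × X2))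
      (((ContinuousLinearMap.fst ℂ ℂ X2).smulRight V1).prod (ContinuousLinearMap.snd ℂ ℂ X2))
      ((0 : ℂ), ((x, y) : X2)) := by
    refine HasFDerivAt.prodMk ?_ hasFDerivAt_snd
    have e : (fun q : ℂ × X2 => fam d p b q.1 0) =
        fun q : ℂ × X2 => (skew d p b + q.1 • V1) + (0 : ℂ) • V2 := by
      funext q; exact hV q.1 0
    rw [e]
    have h1 : HasFDerivAt (fun q : ℂ × X2 => q.1 • V1)
        ((ContinuousLinearMap.fst ℂ ℂ X2).smulRight V1) ((0 : ℂ), ((x, y) : X2)) :=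
      (((ContinuousLinearMap.fst ℂ ℂ X2).smulRight V1).hasFDerivAt :)
    exact (h1.const_add _).add_const _
  have hPsi : HasFDerivAt (fun q : ℂ × X2 => ((T d (fam d p b q.1 0))^[M] q.2).1)
      (((ContinuousLinearMap.fst ℂ ℂ ℂ).comp
        (fderiv ℂ (fun q : Coef d × X2 => (T d q.1)^[M] q.2) (fam d p b 0 0, (x, y)))).comp
        (((ContinuousLinearMap.fst ℂ ℂ X2).smulRight V1).prod (ContinuousLinearMap.snd ℂ ℂ X2)))
      ((0 : ℂ), ((x, y) : X2)) := by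
    have hTd' : HasFDerivAt (fun q : Coef d × X2 => ((T d q.1)^[M] q.2).1)
        ((ContinuousLinearMap.fst ℂ ℂ ℂ).comp
          (fderiv ℂ (fun q : Coef d × X2 => (T d q.1)^[M] q.2) (fam d p b 0 0, (x, y))))
        ((fun q : ℂ × X2 => ((fam d p b q.1 0, q.2) : Coef d × X2)) ((0 : ℂ), ((x, y) : X2))) :=
      (ContinuousLinearMap.fst ℂ ℂ ℂ).hasFDerivAt.comp _ hTd
    exact HasFDerivAt.comp ((0 : ℂ), ((x, y) : X2)) hTd' hcv2
  set DΨ := (((ContinuousLinearMap.fst ℂ ℂ ℂ).comp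
        (fderiv ℂ (fun q : Coef d × X2 => (T d q.1)^[M] q.2) (fam d p b 0 0, (x, y)))).comp
        (((ContinuousLinearMap.fst ℂ ℂ X2).smulRight V1).prod (ContinuousLinearMap.snd ℂ ℂ X2)))
    with hDΨ
  have hA : DΨ (1, 0) = drift d p b 0 M x y := by
    have h1 : HasDerivAt (fun ε : ℂ => (ε, ((x, y) : X2))) ((1 : ℂ), (0 : X2)) 0 :=
      (hasDerivAt_id (0 : ℂ)).prodMk (hasDerivAt_const _ _)
    have h2 := hPsi.comp_hasDerivAt (0 : ℂ) h1
    exact h2.unique (drift_eq_deriv hd hp b 0 M x y)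
  have hB : ∀ a : X2, DΨ (0, a) = Λ * a.1 := by
    intro a
    have h1 : HasFDerivAt (fun v : X2 => ((0 : ℂ), v)) ((0 : X2 →L[ℂ] ℂ).prod
        (ContinuousLinearMap.id ℂ X2)) ((x, y) : X2) :=
      (hasFDerivAt_const _ _).prodMk (hasFDerivAt_id _)
    have h2 := hPsi.comp ((x, y) : X2) h1
    have e : ((fun q : ℂ × X2 => ((T d (fam d p b q.1 0))^[M] q.2).1) ∘ fun v : X2 => ((0 : ℂ), v))
        = fun v : X2 => (pt p 0)^[M] v.1 := by
      funext v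
      change ((T d (fam d p b 0 0))^[M] (v.1, v.2)).1 = _
      rw [T_skew_iter hd hp]
    rw [e] at h2
    have h3 : HasFDerivAt (fun v : X2 => (pt p 0)^[M] v.1)
        (Λ • ContinuousLinearMap.fst ℂ ℂ ℂ) ((x, y) : X2) := by
      have h4 : HasDerivAt ((pt p 0)^[M]) Λ x := by
        have h5 : DifferentiableAt ℂ ((pt p 0)^[M]) x := by
          have h6 := (D5_pt_contDiff p M 1).differentiable (by norm_num) (0, x)
          exact h6.comp x (by fun_prop : DifferentiableAt ℂ (fun z : ℂ => ((0 : ℂ), z)) x)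
        exact h5.hasDerivAt
      have h6 : HasFDerivAt (fun v : X2 => v.1) (ContinuousLinearMap.fst ℂ ℂ ℂ) ((x, y) : X2) :=
        (ContinuousLinearMap.fst ℂ ℂ ℂ).hasFDerivAt
      exact HasDerivAt.comp_hasFDerivAt ((x, y) : X2) h4 h6
    have h5 := h2.unique h3
    have h6 := congrArg (fun l : X2 →L[ℂ] ℂ => l a) h5
    simpa using h6
  -- differentiate the identity
  have hid : (fun ε : ℂ => ((T d (fam d p b ε 0))^[M] (G (fam d p b ε 0) (x + ε * ζ, w0))).1)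
      =ᶠ[𝓝 0] fun ε : ℂ => x + ε * ζ := by
    have h1 : Tendsto (fun ε : ℂ => ((fam d p b ε 0, ((x + ε * ζ, w0) : X2)) : Coef d × X2)) (𝓝 0)
        (𝓝 (skew d p b, ((x, w0) : X2))) := by
      have := hcv.continuousAt.tendsto
      rwa [hc0] at this
    filter_upwards [h1.eventually hinv] with ε hε
    rw [hε]
  have hcv3 : HasDerivAt (fun ε : ℂ => (ε, G (fam d p b ε 0) (x + ε * ζ, w0))) ((1 : ℂ), g') 0 :=
    (hasDerivAt_id (0 : ℂ)).prodMk hg
  have hPsi' : HasFDerivAt (fun q : ℂ × X2 => ((T d (fam d p b q.1 0))^[M] q.2).1) DΨ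
      ((0 : ℂ), G (fam d p b 0 0) (x + 0 * ζ, w0)) := by
    have e : G (fam d p b 0 0) (x + 0 * ζ, w0) = (x, y) := by
      rw [zero_mul, add_zero]; exact hGx
    rw [e]; exact hPsi
  have h8 := hPsi'.comp_hasDerivAt (0 : ℂ) hcv3
  have h9 : HasDerivAt (fun ε : ℂ => x + ε * ζ) (DΨ (1, g')) 0 := h8.congr_of_eventuallyEq hid.symm
  have h10 : HasDerivAt (fun ε : ℂ => x + ε * ζ) ζ 0 := by
    have h1 := ((hasDerivAt_id (0 : ℂ)).mul_const ζ).const_add x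
    refine h1.congr_deriv ?_
    simp
  have h11 := h9.unique h10
  have h12 : DΨ (1, g') = DΨ (1, 0) + DΨ (0, g') := by
    rw [← map_add, Prod.mk_add_mk, add_zero, zero_add]
  rw [h12, hA, hB, hg1] at h11
  rw [eq_inv_mul_iff_mul_eq₀ hmul]
  linear_combination h11

/-- D5. `G` is an inverse branch of the `M`-th iterate near `{x} × closedBall wb ρ` with section `U` at the skew product.
In the rescaled coordinate `ζ`, `z = xc τ + ε ζ`, the branch converges to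
`(ζ, w) ↦ (Λ⁻¹ (ζ - drift (U w)), U w)`, `Λ = (p^[M])' (x)`. -/
theorem scale {d : ℕ} (hd : 1 ≤ d) {p : ℂ[X]} (hp : p.natDegree ≤ d) {b : Mon d → ℂ} {M : ℕ}
    {x : ℂ} (hx : (pt p 0)^[M] x = x) (hmul : deriv ((pt p 0)^[M]) x ≠ 0) {xc : ℂ → ℂ}
    (hxc0 : xc 0 = x) (hxc : ContinuousAt xc 0) (hxcfix : ∀ᶠ τ in 𝓝 (0 : ℂ), (pt p τ)^[M] (xc τ) = xc τ)
    {wb : ℂ} {ρ : ℝ} {U : ℂ → ℂ} (hU : ∀ w ∈ closedBall wb ρ, fib d p b 0 M x (U w) = w ∧
      deriv (fib d p b 0 M x) (U w) ≠ 0)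
    {G : Coef d → X2 → X2} (hG : ∀ w ∈ closedBall wb ρ,
      ContDiffAt ℂ 1 (fun q : Coef d × X2 => G q.1 q.2) (skew d p b, (x, w)) ∧
      G (skew d p b) (x, w) = (x, U w) ∧
      ∀ᶠ q : Coef d × X2 in 𝓝 (skew d p b, ((x, w) : X2)),
        Good d M q.1 (G q.1 q.2) ∧ (T d q.1)^[M] (G q.1 q.2) = q.2)
    {K e : ℝ} (he : 0 < e) :
    ∃ δ > 0, ∀ ε τ : ℂ, ε ≠ 0 → ‖ε‖ < δ → ‖τ‖ < δ → ∀ ζ ∈ closedBall (0 : ℂ) K,
      ∀ w ∈ closedBall wb ρ,
      ‖((G (fam d p b ε τ) (xc τ + ε * ζ, w)).1 - xc τ) / ε -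
          (deriv ((pt p 0)^[M]) x)⁻¹ * (ζ - drift d p b 0 M x (U w))‖ ≤ e ∧
        ‖(G (fam d p b ε τ) (xc τ + ε * ζ, w)).2 - U w‖ ≤ e := by
  obtain ⟨V1, V2, hV⟩ := fam_affine p b
  set Λ := deriv ((pt p 0)^[M]) x with hΛ
  have key : ∀ y ∈ closedBall (0 : ℂ) K ×ˢ closedBall wb ρ,
      ∀ᶠ r : (ℂ × ℂ) × (ℂ × ℂ) in 𝓝 (((0 : ℂ), (0 : ℂ)), y),
        r.1.1 ≠ 0 → r.2.2 ∈ closedBall wb ρ →
        (‖((G (fam d p b r.1.1 r.1.2) (xc r.1.2 + r.1.1 * r.2.1, r.2.2)).1 - xc r.1.2) / r.1.1 -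
          Λ⁻¹ * (r.2.1 - drift d p b 0 M x (U r.2.2))‖ ≤ e ∧
        ‖(G (fam d p b r.1.1 r.1.2) (xc r.1.2 + r.1.1 * r.2.1, r.2.2)).2 - U r.2.2‖ ≤ e) := by
    rintro ⟨ζ0, w0⟩ ⟨hζ0, hw0⟩
    simp only at hζ0 hw0
    obtain ⟨hGs, hGx, hGinv⟩ := hG w0 hw0
    have hfamc : Continuous (fun r : (ℂ × ℂ) × (ℂ × ℂ) => fam d p b r.1.1 r.1.2) := by
      simp_rw [hV]
      fun_prop
    have hfamc0 : Continuous (fun r : (ℂ × ℂ) × (ℂ × ℂ) => fam d p b 0 r.1.2) := by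
      simp_rw [hV]
      fun_prop
    have hxcc : ContinuousAt (fun r : (ℂ × ℂ) × (ℂ × ℂ) => xc r.1.2)
        (((0 : ℂ), (0 : ℂ)), (ζ0, w0)) :=
      ContinuousAt.comp (g := xc) (f := fun r : (ℂ × ℂ) × (ℂ × ℂ) => r.1.2) hxc (by fun_prop)
    have hc1 : Tendsto (fun r : (ℂ × ℂ) × (ℂ × ℂ) =>
        ((fam d p b r.1.1 r.1.2, ((xc r.1.2 + r.1.1 * r.2.1, r.2.2) : X2)) : Coef d × X2))
        (𝓝 (((0 : ℂ), (0 : ℂ)), (ζ0, w0))) (𝓝 (skew d p b, ((x, w0) : X2))) := by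
      have h1 : ContinuousAt (fun r : (ℂ × ℂ) × (ℂ × ℂ) =>
        ((fam d p b r.1.1 r.1.2, ((xc r.1.2 + r.1.1 * r.2.1, r.2.2) : X2)) : Coef d × X2))
        (((0 : ℂ), (0 : ℂ)), (ζ0, w0)) := by
        refine hfamc.continuousAt.prodMk (ContinuousAt.prodMk (hxcc.add ?_) ?_) <;> fun_prop
      have h2 := h1.tendsto
      simp only [zero_mul, add_zero, hxc0] at h2
      exact h2
    have hc0 : Tendsto (fun r : (ℂ × ℂ) × (ℂ × ℂ) =>
        ((fam d p b 0 r.1.2, ((xc r.1.2, r.2.2) : X2)) : Coef d × X2))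
        (𝓝 (((0 : ℂ), (0 : ℂ)), (ζ0, w0))) (𝓝 (skew d p b, ((x, w0) : X2))) := by
      have h1 : ContinuousAt (fun r : (ℂ × ℂ) × (ℂ × ℂ) =>
        ((fam d p b 0 r.1.2, ((xc r.1.2, r.2.2) : X2)) : Coef d × X2))
        (((0 : ℂ), (0 : ℂ)), (ζ0, w0)) := by
        refine hfamc0.continuousAt.prodMk (ContinuousAt.prodMk hxcc ?_)
        fun_prop
      have h2 := h1.tendsto
      simp only [hxc0] at h2
      exact h2
    have hGd := hGs.differentiableAt (by norm_num)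
    have hG1 : ContDiffAt ℂ 1 (fun q : Coef d × X2 => (G q.1 q.2).1)
        (skew d p b, ((x, w0) : X2)) :=
      contDiff_fst.contDiffAt.comp (skew d p b, ((x, w0) : X2)) hGs
    have hL := hG1.hasStrictFDerivAt (by norm_num)
    set L := fderiv ℂ (fun q : Coef d × X2 => (G q.1 q.2).1) (skew d p b, ((x, w0) : X2)) with hLdef
    have hLV : ∀ ζ : ℂ, L (V1, ((ζ, 0) : X2)) = Λ⁻¹ * (ζ - drift d p b 0 M x (U w0)) :=
      fun ζ => D5_deriv hd hp hmul hV hGd hL.hasFDerivAt hGx (hGinv.mono fun q hq => hq.2) ζ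
    -- claim A
    have hA : ∀ᶠ r : (ℂ × ℂ) × (ℂ × ℂ) in 𝓝 (((0 : ℂ), (0 : ℂ)), (ζ0, w0)),
        (G (fam d p b 0 r.1.2) (xc r.1.2, r.2.2)).1 = xc r.1.2 := by
      have h1 := hc0.eventually hGinv
      have h2 : ∀ᶠ r : (ℂ × ℂ) × (ℂ × ℂ) in 𝓝 (((0 : ℂ), (0 : ℂ)), (ζ0, w0)),
          (pt p r.1.2)^[M] (xc r.1.2) = xc r.1.2 :=
        (by fun_prop : ContinuousAt (fun r : (ℂ × ℂ) × (ℂ × ℂ) => r.1.2)
          (((0 : ℂ), (0 : ℂ)), (ζ0, w0))).eventually hxcfix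
      have h3 : Tendsto (fun r : (ℂ × ℂ) × (ℂ × ℂ) =>
          (r.1.2, (G (fam d p b 0 r.1.2) (xc r.1.2, r.2.2)).1, xc r.1.2))
          (𝓝 (((0 : ℂ), (0 : ℂ)), (ζ0, w0))) (𝓝 (0, x, x)) := by
        refine Tendsto.prodMk_nhds ?_ (Tendsto.prodMk_nhds ?_ ?_)
        · exact (by fun_prop : ContinuousAt (fun r : (ℂ × ℂ) × (ℂ × ℂ) => r.1.2)
            (((0 : ℂ), (0 : ℂ)), (ζ0, w0))).tendsto
        · have h4 : Tendsto (fun q : Coef d × X2 => (G q.1 q.2).1)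
              (𝓝 (skew d p b, ((x, w0) : X2))) (𝓝 x) := by
            have h5 : Tendsto (fun q : Coef d × X2 => (G q.1 q.2).1)
                (𝓝 (skew d p b, ((x, w0) : X2))) (𝓝 ((G (skew d p b) (x, w0)).1)) :=
              hL.continuousAt.tendsto
            rwa [hGx] at h5
          exact h4.comp hc0
        · have h4 := hxcc.tendsto
          simp only [hxc0] at h4
          exact h4
      filter_upwards [h1, h2, h3.eventually (D5_inj hmul)] with r a1 a2 a3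
      apply a3
      have a4 := a1.2
      rw [show (G (fam d p b 0 r.1.2) (xc r.1.2, r.2.2)) =
        ((G (fam d p b 0 r.1.2) (xc r.1.2, r.2.2)).1, (G (fam d p b 0 r.1.2) (xc r.1.2, r.2.2)).2)
        from rfl, T_skew_iter hd hp] at a4
      rw [a2]
      exact congrArg Prod.fst a4
    -- strict differentiability
    have hB0 : 0 < ‖V1‖ + ‖ζ0‖ + 1 := by positivity
    have hst := hL.isLittleO.def (c := e / 2 / (‖V1‖ + ‖ζ0‖ + 1)) (by positivity)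
    have hst2 := (hc1.prodMk_nhds hc0).eventually hst
    have hζn : ∀ᶠ r : (ℂ × ℂ) × (ℂ × ℂ) in 𝓝 (((0 : ℂ), (0 : ℂ)), (ζ0, w0)),
        ‖r.2.1‖ < ‖ζ0‖ + 1 := by
      have h1 : ContinuousAt (fun r : (ℂ × ℂ) × (ℂ × ℂ) => ‖r.2.1‖)
        (((0 : ℂ), (0 : ℂ)), (ζ0, w0)) := by fun_prop
      exact h1.eventually_lt continuousAt_const (by simp)
    -- continuity of `U`
    have hUc : ContinuousWithinAt U (closedBall wb ρ) w0 := by
      have h1 : ContinuousAt (fun w : ℂ => (G (skew d p b) (x, w)).2) w0 := by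
        have h2 : ContinuousAt (fun w : ℂ => ((skew d p b, ((x, w) : X2)) : Coef d × X2)) w0 := by
          fun_prop
        exact continuousAt_snd.comp (ContinuousAt.comp (f := fun w : ℂ =>
          ((skew d p b, ((x, w) : X2)) : Coef d × X2)) (g := fun q : Coef d × X2 => G q.1 q.2)
          hGs.continuousAt h2)
      refine h1.continuousWithinAt.congr (fun w hw => ?_) ?_
      · rw [(hG w hw).2.1]
      · rw [hGx]
    have hDc : ContinuousWithinAt (fun w => drift d p b 0 M x (U w)) (closedBall wb ρ) w0 :=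
      (D5_drift_cont d p b 0 M x).continuousAt.comp_continuousWithinAt hUc
    have hD2 : ∀ᶠ w in 𝓝 w0, w ∈ closedBall wb ρ →
        ‖Λ⁻¹ * (drift d p b 0 M x (U w) - drift d p b 0 M x (U w0))‖ < e / 2 := by
      rw [← eventually_nhdsWithin_iff]
      have h1 : Tendsto (fun w => ‖Λ⁻¹ * (drift d p b 0 M x (U w) - drift d p b 0 M x (U w0))‖)
          (𝓝[closedBall wb ρ] w0) (𝓝 0) := by
        have h2 := ((hDc.tendsto.sub_const (drift d p b 0 M x (U w0))).const_mul Λ⁻¹).norm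
        simpa using h2
      exact h1.eventually_lt_const (by positivity)
    have hU2 : ∀ᶠ w in 𝓝 w0, w ∈ closedBall wb ρ → ‖U w - U w0‖ < e / 2 := by
      rw [← eventually_nhdsWithin_iff]
      have h1 : Tendsto (fun w => ‖U w - U w0‖) (𝓝[closedBall wb ρ] w0) (𝓝 0) := by
        have h2 := (hUc.tendsto.sub_const (U w0)).norm
        simpa using h2
      exact h1.eventually_lt_const (by positivity)
    have hpw : Tendsto (fun r : (ℂ × ℂ) × (ℂ × ℂ) => r.2.2)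
        (𝓝 (((0 : ℂ), (0 : ℂ)), (ζ0, w0))) (𝓝 w0) :=
      (by fun_prop : ContinuousAt (fun r : (ℂ × ℂ) × (ℂ × ℂ) => r.2.2)
            (((0 : ℂ), (0 : ℂ)), (ζ0, w0))).tendsto
    have hG2 : ∀ᶠ r : (ℂ × ℂ) × (ℂ × ℂ) in 𝓝 (((0 : ℂ), (0 : ℂ)), (ζ0, w0)),
        ‖(G (fam d p b r.1.1 r.1.2) (xc r.1.2 + r.1.1 * r.2.1, r.2.2)).2 - U w0‖ < e / 2 := by
      have h4 : Tendsto (fun q : Coef d × X2 => ‖(G q.1 q.2).2 - U w0‖)
          (𝓝 (skew d p b, ((x, w0) : X2))) (𝓝 0) := by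
        have h5 := ((continuousAt_snd.comp hGs.continuousAt).tendsto.sub_const (U w0)).norm
        simp only [Function.comp_def, hGx, sub_self, norm_zero] at h5
        exact h5
      exact (h4.comp hc1).eventually_lt_const (by positivity)
    filter_upwards [hA, hst2, hζn, hpw.eventually hD2, hpw.eventually hU2, hG2] with
      r a1 a2 a3 a4 a5 a6 hr hw
    refine ⟨?_, ?_⟩
    · rw [a1] at a2
      have e1 : ((fam d p b r.1.1 r.1.2, ((xc r.1.2 + r.1.1 * r.2.1, r.2.2) : X2)) : Coef d × X2)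
          - (fam d p b 0 r.1.2, ((xc r.1.2, r.2.2) : X2)) = r.1.1 • (V1, ((r.2.1, 0) : X2)) := by
        rw [hV, hV 0, Prod.mk_sub_mk, Prod.mk_sub_mk, Prod.smul_mk, Prod.smul_mk, sub_self,
          smul_zero, smul_eq_mul]
        congr 1
        · rw [zero_smul, add_zero]; abel
        · congr 1; ring
      rw [e1, map_smul, hLV, norm_smul, Prod.norm_mk, Prod.norm_mk, norm_zero,
        max_eq_left (norm_nonneg r.2.1)] at a2
      have e2 : max ‖V1‖ ‖r.2.1‖ ≤ ‖V1‖ + ‖ζ0‖ + 1 :=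
        max_le (by linarith [norm_nonneg ζ0]) (by linarith [norm_nonneg V1])
      have e3 : ‖(G (fam d p b r.1.1 r.1.2) (xc r.1.2 + r.1.1 * r.2.1, r.2.2)).1 - xc r.1.2 -
          r.1.1 • (Λ⁻¹ * (r.2.1 - drift d p b 0 M x (U w0)))‖ ≤ e / 2 * ‖r.1.1‖ := by
        refine a2.trans ?_
        calc e / 2 / (‖V1‖ + ‖ζ0‖ + 1) * (‖r.1.1‖ * max ‖V1‖ ‖r.2.1‖)
            ≤ e / 2 / (‖V1‖ + ‖ζ0‖ + 1) * (‖r.1.1‖ * (‖V1‖ + ‖ζ0‖ + 1)) := by gcongr
          _ = e / 2 * ‖r.1.1‖ := by field_simp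
      have e4 : ‖((G (fam d p b r.1.1 r.1.2) (xc r.1.2 + r.1.1 * r.2.1, r.2.2)).1 - xc r.1.2) / r.1.1
          - Λ⁻¹ * (r.2.1 - drift d p b 0 M x (U w0))‖ ≤ e / 2 := by
        have h1 : ((G (fam d p b r.1.1 r.1.2) (xc r.1.2 + r.1.1 * r.2.1, r.2.2)).1 - xc r.1.2) /
            r.1.1 - Λ⁻¹ * (r.2.1 - drift d p b 0 M x (U w0)) =
            ((G (fam d p b r.1.1 r.1.2) (xc r.1.2 + r.1.1 * r.2.1, r.2.2)).1 - xc r.1.2 -
            r.1.1 • (Λ⁻¹ * (r.2.1 - drift d p b 0 M x (U w0)))) / r.1.1 := by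
          rw [smul_eq_mul]
          field_simp
        rw [h1, norm_div, div_le_iff₀ (norm_pos_iff.mpr hr)]
        exact e3
      have a4' := a4 hw
      have e5 : ((G (fam d p b r.1.1 r.1.2) (xc r.1.2 + r.1.1 * r.2.1, r.2.2)).1 - xc r.1.2) / r.1.1
          - Λ⁻¹ * (r.2.1 - drift d p b 0 M x (U r.2.2)) =
          (((G (fam d p b r.1.1 r.1.2) (xc r.1.2 + r.1.1 * r.2.1, r.2.2)).1 - xc r.1.2) / r.1.1
          - Λ⁻¹ * (r.2.1 - drift d p b 0 M x (U w0))) +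
          Λ⁻¹ * (drift d p b 0 M x (U r.2.2) - drift d p b 0 M x (U w0)) := by ring
      rw [e5]
      exact (norm_add_le _ _).trans (by linarith)
    · have a5' := a5 hw
      have e5 : (G (fam d p b r.1.1 r.1.2) (xc r.1.2 + r.1.1 * r.2.1, r.2.2)).2 - U r.2.2 =
          ((G (fam d p b r.1.1 r.1.2) (xc r.1.2 + r.1.1 * r.2.1, r.2.2)).2 - U w0) -
          (U r.2.2 - U w0) := by ring
      rw [e5]
      exact (norm_sub_le _ _).trans (by linarith)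
  have hK : IsCompact (closedBall (0 : ℂ) K ×ˢ closedBall wb ρ) :=
    (isCompact_closedBall _ _).prod (isCompact_closedBall _ _)
  have h1 := hK.eventually_forall_of_forall_eventually (x₀ := ((0 : ℂ), (0 : ℂ)))
    (P := fun (s : ℂ × ℂ) (t : ℂ × ℂ) => s.1 ≠ 0 → t.2 ∈ closedBall wb ρ →
        (‖((G (fam d p b s.1 s.2) (xc s.2 + s.1 * t.1, t.2)).1 - xc s.2) / s.1 -
          Λ⁻¹ * (t.1 - drift d p b 0 M x (U t.2))‖ ≤ e ∧
        ‖(G (fam d p b s.1 s.2) (xc s.2 + s.1 * t.1, t.2)).2 - U t.2‖ ≤ e)) key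
  rw [Metric.eventually_nhds_iff] at h1
  obtain ⟨δ, hδ, h2⟩ := h1
  refine ⟨δ, hδ, fun ε τ hε h3 h4 ζ hζ w hw => ?_⟩
  have h5 : dist ((ε, τ) : ℂ × ℂ) (0, 0) < δ := by
    rw [Prod.dist_eq, dist_zero_right, dist_zero_right]
    exact max_lt h3 h4
  exact h2 h5 (ζ, w) ⟨hζ, hw⟩ hε hw

end SkewBif
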