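import Pool.Agent.SK.E1
/-! ## MP_9cfccf_an, module D5a -/
open Set Metric Filter Topology Polynomial
namespace SkewBif

theorem D5a_drift_succ (d : ℕ) (p : ℂ[X]) (b : Mon d → ℂ) (τ : ℂ) (M : ℕ) (z w : ℂ) :
    drift d p b τ (M + 1) z w =
      p.derivative.eval ((pt p τ)^[M] z) * drift d p b τ M z w + fib d p b τ M z w := by
  unfold drift
  rw [Finset.sum_range_succ, Finset.Ico_self, Finset.prod_empty, one_mul, Finset.mul_sum]
  congr 1
  refine Finset.sum_congr rfl fun j hj => ?_
  rw [Finset.mem_range] at hj
  rw [Finset.prod_Ico_succ_top (by omega)]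
  ring

/-- D5a. First order expansion of the first coordinate: for the iterate of length `M`, the
derivative with respect to `ε` at `ε = 0` is the drift. -/
theorem drift_eq_deriv {d : ℕ} (hd : 1 ≤ d) {p : ℂ[X]} (hp : p.natDegree ≤ d) (b : Mon d → ℂ)
    (τ : ℂ) (M : ℕ) (z w : ℂ) :
    HasDerivAt (fun ε : ℂ => ((T d (fam d p b ε τ))^[M] (z, w)).1) (drift d p b τ M z w) 0 := by
  have key : HasDerivAt (fun ε : ℂ => ((T d (fam d p b ε τ))^[M] (z, w)).1)
      (drift d p b τ M z w) 0 ∧
      DifferentiableAt ℂ (fun ε : ℂ => ((T d (fam d p b ε τ))^[M] (z, w)).2) 0 := by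
    induction M with
    | zero =>
      refine ⟨?_, ?_⟩
      · simp only [Function.iterate_zero, id_eq]
        have : drift d p b τ 0 z w = 0 := by simp [drift]
        rw [this]
        exact hasDerivAt_const _ _
      · simp only [Function.iterate_zero, id_eq]
        exact differentiableAt_const _
    | succ M ih =>
      obtain ⟨h1, h2⟩ := ih
      have e0 : (T d (fam d p b 0 τ))^[M] (z, w) = ((pt p τ)^[M] z, fib d p b τ M z w) :=
        T_skew_iter hd hp b τ M z w
      refine ⟨?_, ?_⟩
      · have e1 : (fun ε : ℂ => ((T d (fam d p b ε τ))^[M + 1] (z, w)).1) =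
            fun ε : ℂ => p.eval ((T d (fam d p b ε τ))^[M] (z, w)).1 + τ +
              ε * ((T d (fam d p b ε τ))^[M] (z, w)).2 := by
          funext ε
          rw [Function.iterate_succ_apply', (ev_fam hd hp b ε τ _).2]
        rw [e1, D5a_drift_succ]
        have h3 := (p.hasDerivAt ((T d (fam d p b 0 τ))^[M] (z, w)).1).comp (0 : ℂ) h1
        have h4 := (hasDerivAt_id (0 : ℂ)).mul h2.hasDerivAt
        have h5 := (h3.add_const τ).add h4
        rw [e0] at h5
        refine h5.congr_deriv ?_
        simp
      · have e1 : (fun ε : ℂ => ((T d (fam d p b ε τ))^[M + 1] (z, w)).2) =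
            fun ε : ℂ => qv d b ((T d (fam d p b ε τ))^[M] (z, w)).1
              ((T d (fam d p b ε τ))^[M] (z, w)).2 := by
          funext ε
          rw [Function.iterate_succ_apply', (ev_fam hd hp b ε τ _).2]
        rw [e1]
        unfold qv
        refine DifferentiableAt.fun_sum fun m _ => ?_
        exact ((h1.differentiableAt.pow _).mul (h2.pow _)).const_mul _
  exact key.1

end SkewBif
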