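import Pool.Agent.SK.A6
import Pool.Agent.SK.A8
/-! ## MP_9cfccf_an, module D7 -/
open Set Metric Filter Topology Polynomial
namespace SkewBif

/-- D7. `H` is close to the model of the `m`-th power of the branch at the fixed point,
`(ζ, w) ↦ (lam^(-m) (ζ - s_m w), u^[m] w)`, `s_m w = ∑_{j<m} lam^j S (u^[j+1] w)`; `g` is a
`C`-Lipschitz function near the fixed point `ws` of `u`, with `g ws` close to `A ws`. Then the
`H`-preimage of the graph of `g` is the graph of a function `φ` close to `A` in the Lipschitz sense.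

Proof. Coordinates `Z = ζ - A w`. Since `A w = lam^m A (u^[m] w) + s_m w`, the model becomes
`(Z, w) ↦ (lam^(-m) Z, u^[m] w)`. Write `H` in these coordinates as `(lam^(-m) Z + α Z w, β Z w)`;
`α` is `O(e1)` on `ball 0 1 × ball wb ρ₂` (`ρ < ρ₂ < ρ'`, `A` is Lipschitz on `ball wb ρ₂`) and
holomorphic, so it is `O(e1)`-Lipschitz on `closedBall 0 (1/2) × closedBall wb ρ` (A6); `β` is `O(e1)`-close to
`u^[m] w`, `‖u^[m] w - ws‖ ≤ 2 ρ' θ^m`, so on the same set `β` has Lipschitz constants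
`O(e1)` in `Z` and `O(θ^m) + O(e1)` in `w`. With `ψ = g - A` near `ws` (Lipschitz constant
`C + C_A`, `‖ψ ws‖ ≤ e1`) apply A8 with `μ = lam^m`, `K = 1/2`, `D'` a small closed disc around `ws`:
`‖lam‖^m ‖ψ(β) - α‖ ≤ ‖lam‖^m ((C + C_A) (2 ρ' θ^m + O(e1)) + O(e1)) ≤ min (1/2) e` for `m ≥ m0` and
`e1` small depending on `m`; the Lipschitz constant is
`≤ 2 ‖lam‖^m ((C + C_A)(O(θ^m) + O(e1)) + O(e1)) ≤ e`. -/
theorem flatten {lam wb ws : ℂ} {ρ ρ' θ K' ρt C CA e : ℝ} {u S A : ℂ → ℂ} (hlam : lam ≠ 0)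
    (hρ : 0 < ρ) (hρρ' : ρ < ρ') (hρt : 0 < ρt) (hC : 0 ≤ C) (he : 0 < e)
    (hu : DifferentiableOn ℂ u (ball wb ρ')) (humap : ∀ w ∈ ball wb ρ', u w ∈ ball wb ρ')
    (hθ : 0 ≤ θ) (hθ1 : θ < 1) (hθl : ‖lam‖ * θ < 1)
    (hulip : ∀ w ∈ ball wb ρ', ‖u w - ws‖ ≤ θ * ‖w - ws‖) (hws : ws ∈ ball wb ρ')
    (hA : DifferentiableOn ℂ A (ball wb ρ')) (hAb : ∀ w ∈ ball wb ρ', ‖A w‖ ≤ CA)
    (hK' : CA + 1 < K') (hS : DifferentiableOn ℂ S (ball wb ρ'))
    (hAeq : ∀ w ∈ ball wb ρ', A w = lam * A (u w) + S (u w)) :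
    ∃ m0 : ℕ, ∀ m ≥ m0, ∃ e1 > 0, ∀ H : X2 → X2,
      DifferentiableOn ℂ H (ball (0 : ℂ) K' ×ˢ ball wb ρ') →
      (∀ v ∈ ball (0 : ℂ) K' ×ˢ ball wb ρ',
        ‖(H v).1 - lam⁻¹ ^ m * (v.1 - ∑ j ∈ Finset.range m, lam ^ j * S (u^[j + 1] v.2))‖ ≤ e1 ∧
          ‖(H v).2 - u^[m] v.2‖ ≤ e1) →
      ∀ g : ℂ → ℂ, (∀ t ∈ closedBall ws ρt, ∀ t' ∈ closedBall ws ρt,
          ‖g t - g t'‖ ≤ C * ‖t - t'‖) → ‖g ws - A ws‖ ≤ e1 →
        ∃ φ : ℂ → ℂ, ∀ w ∈ closedBall wb ρ, (H (φ w, w)).2 ∈ closedBall ws ρt ∧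
          (H (φ w, w)).1 = g ((H (φ w, w)).2) ∧ ‖φ w - A w‖ ≤ e ∧
          ∀ w' ∈ closedBall wb ρ, ‖(φ w - A w) - (φ w' - A w')‖ ≤ e * ‖w - w'‖ := by
  have hρ'0 : 0 < ρ' := hρ.trans hρρ'
  obtain ⟨r0, hr0, hr0t, hr0b⟩ : ∃ r0 > 0, r0 ≤ ρt ∧ ball ws (2 * r0) ⊆ ball wb ρ' := by
    obtain ⟨ε, hε, h⟩ := Metric.isOpen_iff.1 isOpen_ball ws hws
    refine ⟨min (ε / 2) ρt, by positivity, min_le_right _ _, ?_⟩
    exact (ball_subset_ball (by have := min_le_left (ε / 2) ρt; linarith)).trans h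
  have hCA : 0 ≤ CA := (norm_nonneg _).trans (hAb ws hws)
  set LA : ℝ := CA / r0 with hLAdef
  have hLA : 0 ≤ LA := by positivity
  have hsub : closedBall ws r0 ⊆ ball wb ρ' :=
    (closedBall_subset_ball (by linarith)).trans hr0b
  have hALip : ∀ v ∈ closedBall ws r0, ∀ v' ∈ closedBall ws r0,
      ‖A v - A v'‖ ≤ LA * ‖v - v'‖ := by
    have h := lip_of_bound_one (b := ws) (r2 := r0) (s2 := 2 * r0) (e := CA) (by linarith)
      (hA.mono hr0b) (fun v hv => hAb v (hr0b hv))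
    intro v hv v' hv'
    have h1 := h v hv v' hv'
    have h2 : 2 * r0 - r0 = r0 := by ring
    rwa [h2] at h1
  have hit : ∀ m : ℕ, ∀ w ∈ ball wb ρ', u^[m] w ∈ ball wb ρ' := by
    intro m
    induction m with
    | zero => intro w hw; exact hw
    | succ m ih =>
      intro w hw
      rw [Function.iterate_succ_apply']
      exact humap _ (ih w hw)
  have hdist : ∀ m : ℕ, ∀ w ∈ ball wb ρ', ‖u^[m] w - ws‖ ≤ θ ^ m * ‖w - ws‖ := by
    intro m
    induction m with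
    | zero => intro w hw; simp
    | succ m ih =>
      intro w hw
      rw [Function.iterate_succ_apply', pow_succ']
      calc ‖u (u^[m] w) - ws‖ ≤ θ * ‖u^[m] w - ws‖ := hulip _ (hit m w hw)
        _ ≤ θ * (θ ^ m * ‖w - ws‖) := mul_le_mul_of_nonneg_left (ih w hw) hθ
        _ = θ * θ ^ m * ‖w - ws‖ := by ring
  have hsum : ∀ m : ℕ, ∀ w ∈ ball wb ρ',
      A w = lam ^ m * A (u^[m] w) + ∑ j ∈ Finset.range m, lam ^ j * S (u^[j + 1] w) := by
    intro m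
    induction m with
    | zero => intro w hw; simp
    | succ m ih =>
      intro w hw
      rw [Finset.sum_range_succ, Function.iterate_succ_apply']
      have h1 := hAeq _ (hit m w hw)
      have h2 := ih w hw
      rw [h1] at h2
      rw [h2, pow_succ]
      ring
  have hdiff : ∀ m : ℕ, DifferentiableOn ℂ (u^[m]) (ball wb ρ') := by
    intro m
    induction m with
    | zero => exact differentiableOn_id
    | succ m ih =>
      rw [Function.iterate_succ']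
      exact hu.comp ih (fun w hw => hit m w hw)
  have hdist2 : ∀ m : ℕ, ∀ w ∈ ball wb ρ', ‖u^[m] w - ws‖ ≤ θ ^ m * (2 * ρ') := by
    intro m w hw
    refine (hdist m w hw).trans (mul_le_mul_of_nonneg_left ?_ (pow_nonneg hθ m))
    have h1 : dist w ws ≤ dist w wb + dist wb ws := dist_triangle _ _ _
    rw [mem_ball] at hw hws
    rw [dist_comm wb ws] at h1
    rw [← dist_eq_norm]
    linarith
  set Dp : ℝ := ρ' - ρ with hDp
  have hDp0 : 0 < Dp := by linarith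
  set C' : ℝ := C + LA with hC'
  have hC'0 : 0 ≤ C' := by positivity
  set K : ℝ := min (1 / 2) e with hKdef
  have hK0 : 0 < K := by positivity
  have hK1 : K ≤ 1 / 2 := min_le_left _ _
  have hKe : K ≤ e := min_le_right _ _
  -- the choice of `m0`
  have hlθ : 0 ≤ ‖lam‖ * θ := mul_nonneg (norm_nonneg _) hθ
  have ht1 : Tendsto (fun m : ℕ => θ ^ m * (2 * ρ')) atTop (𝓝 0) := by
    have h := (tendsto_pow_atTop_nhds_zero_of_lt_one hθ hθ1).mul_const (2 * ρ')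
    rwa [zero_mul] at h
  have ht2 : Tendsto (fun m : ℕ => (‖lam‖ * θ) ^ m * (C' * (2 * ρ'))) atTop (𝓝 0) := by
    have h := (tendsto_pow_atTop_nhds_zero_of_lt_one hlθ hθl).mul_const (C' * (2 * ρ'))
    rwa [zero_mul] at h
  have ht3 : Tendsto (fun m : ℕ => (‖lam‖ * θ) ^ m * (4 * C' * ρ' / Dp)) atTop (𝓝 0) := by
    have h := (tendsto_pow_atTop_nhds_zero_of_lt_one hlθ hθl).mul_const (4 * C' * ρ' / Dp)
    rwa [zero_mul] at h
  have hev := ((ht1.eventually_lt_const (show (0 : ℝ) < r0 / 2 by positivity)).and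
    ((ht2.eventually_lt_const (show (0 : ℝ) < K / 2 by positivity)).and
      (ht3.eventually_lt_const (show (0 : ℝ) < e / 2 by positivity))))
  obtain ⟨m0, hm0⟩ := eventually_atTop.1 hev
  refine ⟨m0, fun m hm => ?_⟩
  obtain ⟨hm1, hm2, hm3⟩ := hm0 m hm
  set Λ : ℝ := ‖lam‖ ^ m with hΛ
  have hΛ0 : 0 < Λ := pow_pos (norm_pos_iff.2 hlam) m
  set M : ℝ := (C' + LA + 2) + (2 * C' + 2 * (LA + 1)) + 2 * (C' + LA + 1) / Dp with hM
  have hM1 : 0 ≤ C' + LA + 2 := by positivity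
  have hM2 : 0 ≤ 2 * C' + 2 * (LA + 1) := by positivity
  have hM3 : 0 ≤ 2 * (C' + LA + 1) / Dp := by positivity
  have hM0 : 0 ≤ M := by positivity
  set κ : ℝ := min (K / 2) (min (1 / 2) (e / 2)) with hκ
  have hκ0 : 0 < κ := by positivity
  have hκ1 : κ ≤ K / 2 := min_le_left _ _
  have hκ2 : κ ≤ 1 / 2 := (min_le_right _ _).trans (min_le_left _ _)
  have hκ3 : κ ≤ e / 2 := (min_le_right _ _).trans (min_le_right _ _)
  set e1 : ℝ := min (r0 / 2) (κ / (Λ * M + 1)) with he1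
  have hden : 0 < Λ * M + 1 := by positivity
  have he10 : 0 < e1 := by positivity
  have he1r : e1 ≤ r0 / 2 := min_le_left _ _
  have he1M : Λ * M * e1 ≤ κ := by
    have h1 : e1 ≤ κ / (Λ * M + 1) := min_le_right _ _
    rw [le_div_iff₀ hden] at h1
    nlinarith
  have hco : ∀ c : ℝ, 0 ≤ c → c ≤ M → Λ * c * e1 ≤ κ := by
    intro c _ hcM
    refine le_trans ?_ he1M
    apply mul_le_mul_of_nonneg_right _ he10.le
    exact mul_le_mul_of_nonneg_left hcM hΛ0.le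
  refine ⟨e1, he10, fun H hH hHc g hg hgw => ?_⟩
  have hdom : ∀ Z ∈ ball (0 : ℂ) 1, ∀ w ∈ ball wb ρ',
      (Z + A w, w) ∈ ball (0 : ℂ) K' ×ˢ ball wb ρ' := by
    intro Z hZ w hw
    refine ⟨?_, hw⟩
    rw [mem_ball_zero_iff] at hZ ⊢
    calc ‖Z + A w‖ ≤ ‖Z‖ + ‖A w‖ := norm_add_le _ _
      _ < 1 + CA := add_lt_add_of_lt_of_le hZ (hAb w hw)
      _ < K' := by linarith
  have hc1 : ∀ Z ∈ ball (0 : ℂ) 1, ∀ w ∈ ball wb ρ',
      ‖(H (Z + A w, w)).1 - (lam⁻¹ ^ m * Z + A (u^[m] w))‖ ≤ e1 := by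
    intro Z hZ w hw
    have h1 := (hHc _ (hdom Z hZ w hw)).1
    have h2 : lam⁻¹ ^ m * (Z + A w - ∑ j ∈ Finset.range m, lam ^ j * S (u^[j + 1] w)) =
        lam⁻¹ ^ m * Z + A (u^[m] w) := by
      have h3 := hsum m w hw
      have h4 : Z + A w - ∑ j ∈ Finset.range m, lam ^ j * S (u^[j + 1] w) =
          Z + lam ^ m * A (u^[m] w) := by
        linear_combination h3
      rw [h4, mul_add, ← mul_assoc, ← mul_pow, inv_mul_cancel₀ hlam, one_pow, one_mul]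
    rw [← h2]
    exact h1
  have hc2 : ∀ Z ∈ ball (0 : ℂ) 1, ∀ w ∈ ball wb ρ',
      ‖(H (Z + A w, w)).2 - u^[m] w‖ ≤ e1 := fun Z hZ w hw => (hHc _ (hdom Z hZ w hw)).2
  set β : ℂ → ℂ → ℂ := fun Z w => (H (Z + A w, w)).2 with hβ
  set α : ℂ → ℂ → ℂ := fun Z w => (H (Z + A w, w)).1 - A (β Z w) - lam⁻¹ ^ m * Z with hα
  have hu0 : ∀ w ∈ ball wb ρ', u^[m] w ∈ closedBall ws r0 := by
    intro w hw
    rw [mem_closedBall, dist_eq_norm]
    linarith [hdist2 m w hw]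
  have hβ0 : ∀ Z ∈ ball (0 : ℂ) 1, ∀ w ∈ ball wb ρ', β Z w ∈ closedBall ws r0 := by
    intro Z hZ w hw
    rw [mem_closedBall, dist_eq_norm]
    calc ‖β Z w - ws‖ = ‖(β Z w - u^[m] w) + (u^[m] w - ws)‖ := by ring_nf
      _ ≤ ‖β Z w - u^[m] w‖ + ‖u^[m] w - ws‖ := norm_add_le _ _
      _ ≤ e1 + θ ^ m * (2 * ρ') := add_le_add (hc2 Z hZ w hw) (hdist2 m w hw)
      _ ≤ r0 := by linarith
  have hβ1 : ∀ Z ∈ ball (0 : ℂ) 1, ∀ w ∈ ball wb ρ', ‖β Z w - ws‖ ≤ e1 + θ ^ m * (2 * ρ') := by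
    intro Z hZ w hw
    calc ‖β Z w - ws‖ = ‖(β Z w - u^[m] w) + (u^[m] w - ws)‖ := by ring_nf
      _ ≤ ‖β Z w - u^[m] w‖ + ‖u^[m] w - ws‖ := norm_add_le _ _
      _ ≤ e1 + θ ^ m * (2 * ρ') := add_le_add (hc2 Z hZ w hw) (hdist2 m w hw)
  have hα0 : ∀ Z ∈ ball (0 : ℂ) 1, ∀ w ∈ ball wb ρ', ‖α Z w‖ ≤ (LA + 1) * e1 := by
    intro Z hZ w hw
    have h1 := hc1 Z hZ w hw
    have h2 := hALip _ (hu0 w hw) _ (hβ0 Z hZ w hw)
    have h3 : ‖u^[m] w - β Z w‖ ≤ e1 := by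
      rw [norm_sub_rev]
      exact hc2 Z hZ w hw
    have h4 : α Z w = ((H (Z + A w, w)).1 - (lam⁻¹ ^ m * Z + A (u^[m] w))) +
        (A (u^[m] w) - A (β Z w)) := by
      simp only [hα]
      ring
    rw [h4]
    calc _ ≤ ‖(H (Z + A w, w)).1 - (lam⁻¹ ^ m * Z + A (u^[m] w))‖ +
        ‖A (u^[m] w) - A (β Z w)‖ := norm_add_le _ _
      _ ≤ e1 + LA * e1 := add_le_add h1 (h2.trans (mul_le_mul_of_nonneg_left h3 hLA))
      _ = (LA + 1) * e1 := by ring
  -- holomorphy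
  set Dom : Set (ℂ × ℂ) := ball (0 : ℂ) 1 ×ˢ ball wb ρ' with hDom
  have hmap : DifferentiableOn ℂ (fun v : ℂ × ℂ => ((v.1 + A v.2, v.2) : X2)) Dom := by
    apply DifferentiableOn.prodMk
    · apply DifferentiableOn.add differentiableOn_fst
      exact hA.comp differentiableOn_snd (fun v hv => hv.2)
    · exact differentiableOn_snd
  have hHd : DifferentiableOn ℂ (fun v : ℂ × ℂ => H (v.1 + A v.2, v.2)) Dom :=
    hH.comp hmap (fun v hv => hdom v.1 hv.1 v.2 hv.2)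
  have hβd : DifferentiableOn ℂ (fun v : ℂ × ℂ => β v.1 v.2) Dom := hHd.snd
  have hαd : DifferentiableOn ℂ (fun v : ℂ × ℂ => α v.1 v.2) Dom := by
    apply DifferentiableOn.sub
    · apply DifferentiableOn.sub hHd.fst
      exact hA.comp hβd (fun v hv => hsub (hβ0 v.1 hv.1 v.2 hv.2))
    · exact differentiableOn_fst.const_mul _
  have hud : DifferentiableOn ℂ (fun v : ℂ × ℂ => β v.1 v.2 - u^[m] v.2) Dom := by
    apply DifferentiableOn.sub hβd
    exact (hdiff m).comp differentiableOn_snd (fun v hv => hv.2)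
  have hhalf : (1 : ℝ) - 1 / 2 = 1 / 2 := by norm_num
  have hLα := lip_of_bound (a := 0) (b := wb) (r1 := 1 / 2) (r2 := ρ) (s1 := 1) (s2 := ρ')
    (e := (LA + 1) * e1) (by norm_num) hρρ' hαd (fun v hv => hα0 v.1 hv.1 v.2 hv.2)
  have hLβ := lip_of_bound (a := 0) (b := wb) (r1 := 1 / 2) (r2 := ρ) (s1 := 1) (s2 := ρ')
    (e := e1) (by norm_num) hρρ' hud (fun v hv => hc2 v.1 hv.1 v.2 hv.2)
  have hLu := lip_of_bound_one (b := wb) (r2 := ρ) (s2 := ρ') (e := θ ^ m * (2 * ρ')) hρρ'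
    (g := fun w => u^[m] w - ws) ((hdiff m).sub_const ws) (hdist2 m)
  rw [hhalf] at hLα hLβ
  have hbK : ∀ Z ∈ closedBall (0 : ℂ) K, Z ∈ closedBall (0 : ℂ) (1 / 2) :=
    fun Z hZ => closedBall_subset_closedBall hK1 hZ
  have hbK1 : ∀ Z ∈ closedBall (0 : ℂ) K, Z ∈ ball (0 : ℂ) 1 :=
    fun Z hZ => closedBall_subset_ball (by linarith) hZ
  have hbρ : ∀ w ∈ closedBall wb ρ, w ∈ ball wb ρ' := fun w hw => closedBall_subset_ball hρρ' hw
  have hpow : (‖lam‖ * θ) ^ m = Λ * θ ^ m := by rw [mul_pow]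
  obtain ⟨φ, hφ1, hφ2⟩ := graph_step (μ := lam ^ m) (wb := wb) (ρ := ρ) (K := K)
    (Lz := 2 * ((LA + 1) * e1)) (Lw := (LA + 1) * e1 / Dp) (lz := 2 * e1)
    (lw := (e1 + θ ^ m * (2 * ρ')) / Dp) (C := C') (D' := closedBall ws r0) (α := α) (β := β)
    (ψ := fun t => g t - A t) (pow_ne_zero m hlam) hK0.le hC'0
    (fun Z hZ w hw => hβ0 Z (hbK1 Z hZ) w (hbρ w hw))
    (by
      intro Z hZ Z' hZ' w hw w' hw'
      have h1 := hLα (Z, w) ⟨hbK Z hZ, hw⟩ (Z', w') ⟨hbK Z' hZ', hw'⟩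
      refine h1.trans (le_of_eq ?_)
      simp only
      rw [← hDp]
      ring)
    (by
      intro Z hZ Z' hZ' w hw w' hw'
      have h1 := hLβ (Z, w) ⟨hbK Z hZ, hw⟩ (Z', w') ⟨hbK Z' hZ', hw'⟩
      have h2 := hLu w hw w' hw'
      simp only at h1 h2
      have h3 : β Z w - β Z' w' = ((β Z w - u^[m] w) - (β Z' w' - u^[m] w')) +
          ((u^[m] w - ws) - (u^[m] w' - ws)) := by ring
      rw [h3]
      refine (norm_add_le _ _).trans ((add_le_add h1 h2).trans (le_of_eq ?_))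
      rw [← hDp]
      ring)
    (by
      intro t ht t' ht'
      have h1 := hg t (closedBall_subset_closedBall hr0t ht) t'
        (closedBall_subset_closedBall hr0t ht')
      have h2 := hALip t ht t' ht'
      have h3 : (g t - A t) - (g t' - A t') = (g t - g t') - (A t - A t') := by ring
      rw [h3]
      refine (norm_sub_le _ _).trans ((add_le_add h1 h2).trans (le_of_eq ?_))
      rw [hC']
      ring)
    (by
      intro Z hZ w hw
      have hZ1 := hbK1 Z hZ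
      have hw1 := hbρ w hw
      have h1 : ‖g (β Z w) - A (β Z w)‖ ≤ e1 + C' * (e1 + θ ^ m * (2 * ρ')) := by
        have h2 := hg (β Z w) (closedBall_subset_closedBall hr0t (hβ0 Z hZ1 w hw1)) ws
          (mem_closedBall_self hρt.le)
        have h3 := hALip (β Z w) (hβ0 Z hZ1 w hw1) ws (mem_closedBall_self hr0.le)
        have h4 : g (β Z w) - A (β Z w) = (g ws - A ws) + ((g (β Z w) - g ws) -
          (A (β Z w) - A ws)) := by ring
        have h5 := hβ1 Z hZ1 w hw1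
        rw [h4]
        calc _ ≤ ‖g ws - A ws‖ + (‖g (β Z w) - g ws‖ + ‖A (β Z w) - A ws‖) :=
              (norm_add_le _ _).trans (add_le_add le_rfl (norm_sub_le _ _))
          _ ≤ e1 + (C * ‖β Z w - ws‖ + LA * ‖β Z w - ws‖) := by linarith
          _ = e1 + C' * ‖β Z w - ws‖ := by rw [hC']; ring
          _ ≤ e1 + C' * (e1 + θ ^ m * (2 * ρ')) := by
            have := mul_le_mul_of_nonneg_left h5 hC'0
            linarith
      have h6 := hα0 Z hZ1 w hw1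
      rw [norm_pow]
      have h7 : ‖g (β Z w) - A (β Z w) - α Z w‖ ≤
          (C' + LA + 2) * e1 + C' * (θ ^ m * (2 * ρ')) := by
        refine (norm_sub_le _ _).trans ((add_le_add h1 h6).trans (le_of_eq ?_))
        ring
      calc Λ * ‖g (β Z w) - A (β Z w) - α Z w‖ ≤
          Λ * ((C' + LA + 2) * e1 + C' * (θ ^ m * (2 * ρ'))) :=
            mul_le_mul_of_nonneg_left h7 hΛ0.le
        _ = Λ * (C' + LA + 2) * e1 + (‖lam‖ * θ) ^ m * (C' * (2 * ρ')) := by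
            rw [hpow]
            ring
        _ ≤ K := by
            have h8 := hco (C' + LA + 2) hM1 (by rw [hM]; linarith)
            linarith)
    (by
      rw [norm_pow]
      have h8 := hco (2 * C' + 2 * (LA + 1)) hM2 (by rw [hM]; linarith)
      have h9 : Λ * (C' * (2 * e1) + 2 * ((LA + 1) * e1)) =
        Λ * (2 * C' + 2 * (LA + 1)) * e1 := by ring
      linarith)
  refine ⟨fun w => φ w + A w, fun w hw => ?_⟩
  obtain ⟨h1, h2⟩ := hφ1 w hw
  have hZK : φ w ∈ closedBall (0 : ℂ) K := mem_closedBall_zero_iff.2 h1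
  have hb := hβ0 (φ w) (hbK1 _ hZK) w (hbρ w hw)
  refine ⟨closedBall_subset_closedBall hr0t hb, ?_, ?_, ?_⟩
  · simp only [hα] at h2
    change (H (φ w + A w, w)).1 = g (β (φ w) w)
    rw [← inv_pow] at h2
    linear_combination h2
  · simp only [add_sub_cancel_right]
    exact h1.trans hKe
  · intro w' hw'
    have h3 := hφ2 w hw w' hw'
    simp only [add_sub_cancel_right]
    refine h3.trans (mul_le_mul_of_nonneg_right ?_ (norm_nonneg _))
    rw [norm_pow]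
    have h8 := hco (2 * (C' + LA + 1) / Dp) hM3 (by rw [hM]; linarith)
    have h9 : 2 * Λ * (C' * ((e1 + θ ^ m * (2 * ρ')) / Dp) + (LA + 1) * e1 / Dp) =
        Λ * (2 * (C' + LA + 1) / Dp) * e1 + (‖lam‖ * θ) ^ m * (4 * C' * ρ' / Dp) := by
      rw [hpow]
      ring
    linarith

end SkewBif
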