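import Pool.Agent.SK.Defs
/-! ## MP_9cfccf_an, module E5a -/
open Set Metric Filter Topology Polynomial
namespace SkewBif

theorem E5a_contDiff (p : ℂ[X]) (n : ℕ) {m : WithTop ℕ∞} :
    ContDiff ℂ m (fun q : ℂ × ℂ => (pt p q.1)^[n] q.2) := by
  induction n with
  | zero => exact contDiff_snd
  | succ n ih =>
    have h : (fun q : ℂ × ℂ => (pt p q.1)^[n + 1] q.2) =
        fun q : ℂ × ℂ => p.eval ((pt p q.1)^[n] q.2) + q.1 := by
      funext q
      rw [Function.iterate_succ_apply']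
      rfl
    rw [h]
    have hp : ContDiff ℂ m (fun z : ℂ => p.eval z) := by
      have := Polynomial.contDiff_aeval (𝕜 := ℂ) p m
      simpa using this
    exact (hp.comp ih).add contDiff_fst

/-- E5a. Continuation of the base periodic point: a continuous function `xc` with `xc 0 = x` and
`(pt p τ)^[n] (xc τ) = xc τ`, unique near `x` (implicit function theorem, multiplier `≠ 1`). -/
theorem exists_xc {p : ℂ[X]} {n : ℕ} {x : ℂ} (hx : (pt p 0)^[n] x = x)
    (hmul : deriv ((pt p 0)^[n]) x ≠ 1) :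
    ∃ xc : ℂ → ℂ, xc 0 = x ∧ AnalyticAt ℂ xc 0 ∧ (∀ᶠ τ in 𝓝 (0 : ℂ), (pt p τ)^[n] (xc τ) = xc τ) ∧
      ∀ᶠ q : ℂ × ℂ in 𝓝 (0, x), (pt p q.1)^[n] q.2 = q.2 → q.2 = xc q.1 := by
  set f : ℂ × ℂ → ℂ := fun q => (pt p q.1)^[n] q.2 - q.2 with hf
  have hfc : ContDiffAt ℂ ⊤ f (0, x) := ((E5a_contDiff p n).sub contDiff_snd).contDiffAt
  have hfu : f (0, x) = 0 := by
    show (pt p 0)^[n] x - x = 0
    rw [hx, sub_self]
  have hder : HasFDerivAt f (fderiv ℂ f (0, x)) (0, x) :=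
    (hfc.differentiableAt (by simp)).hasFDerivAt
  have h1 : HasDerivAt (fun t : ℂ => ((0 : ℂ), t)) ((0 : ℂ), (1 : ℂ)) x :=
    (hasDerivAt_const x (0 : ℂ)).prodMk (hasDerivAt_id x)
  have h2 : HasDerivAt (fun t : ℂ => f (0, t)) (fderiv ℂ f (0, x) (0, 1)) x :=
    hder.comp_hasDerivAt x h1
  have h3 : DifferentiableAt ℂ ((pt p 0)^[n]) x := by
    have h4 : ContDiff ℂ 1 (fun t : ℂ => (pt p 0)^[n] t) :=
      (E5a_contDiff p n).comp (contDiff_const.prodMk contDiff_id)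
    exact (h4.differentiable (by simp)).differentiableAt
  have h5 : HasDerivAt (fun t : ℂ => f (0, t)) (deriv ((pt p 0)^[n]) x - 1) x :=
    h3.hasDerivAt.sub (hasDerivAt_id x)
  have h6 : fderiv ℂ f (0, x) (0, 1) = deriv ((pt p 0)^[n]) x - 1 := h2.unique h5
  have hne : deriv ((pt p 0)^[n]) x - 1 ≠ 0 := sub_ne_zero.2 hmul
  have hinv : (fderiv ℂ f (0, x) ∘L .inr ℂ ℂ ℂ).IsInvertible := by
    refine ⟨ContinuousLinearEquiv.unitsEquivAut ℂ (Units.mk0 _ hne), ?_⟩
    ext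
    simp [h6]
  refine ⟨hfc.implicitFunction (by simp) hinv, hfc.implicitFunction_apply_self (by simp) hinv,
    ?_, ?_, ?_⟩
  · exact (hfc.contDiffAt_implicitFunction (by simp) hinv).analyticAt
  · have := hfc.eventually_apply_implicitFunction (by simp) hinv
    filter_upwards [this] with τ hτ
    rw [hfu] at hτ
    exact sub_eq_zero.1 hτ
  · have := hfc.eventually_apply_eq_iff_implicitFunction (by simp) hinv
    filter_upwards [this] with q hq hq2
    rw [hfu] at hq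
    exact (hq.1 (sub_eq_zero.2 hq2)).symm

end SkewBif
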