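import Pool.Agent.SK.E1a
import Pool.Agent.SK.Arena
/-! ## MP_9cfccf_an, module K1 -/
open Set Metric Filter Topology Polynomial
namespace SkewBif
variable {d : ℕ} {ι J : Type} {A : AData d ι J}

theorem K1_wd_succ (A : AData d ι J) (F : Coef d) (σ : ℕ → ι) (k : ℕ) (v : X2) :
    A.wd F σ (k + 1) v = A.wd F σ k (A.G (σ k) F v) := rfl

theorem K1_G_mem (hA : IsArena A) {F : Coef d} (hF : F ∈ A.Lam) (i : ι) {v : X2}
    (hv : v ∈ A.P) : A.G i F v ∈ A.P := interior_subset (hA.G_maps i F hF v hv)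

/-- Words map `P` to itself (into the interior for `k ≥ 1`). -/
theorem IsArena.wd_maps (hA : IsArena A) {F : Coef d} (hF : F ∈ A.Lam) (σ : ℕ → ι) (k : ℕ) {v : X2}
    (hv : v ∈ A.P) : A.wd F σ k v ∈ A.P ∧ (v ∈ interior A.P → A.wd F σ k v ∈ interior A.P) := by
  induction k generalizing v with
  | zero => exact ⟨hv, fun h => h⟩
  | succ k ih =>
    rw [K1_wd_succ]
    have h1 := ih (K1_G_mem hA hF (σ k) hv)
    exact ⟨h1.1, fun _ => h1.2 (hA.G_maps (σ k) F hF v hv)⟩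

/-- Words are inverse branches of the iterate of order `∑ Nb (σ i)`. -/
theorem IsArena.wd_inv (hA : IsArena A) {F : Coef d} (hF : F ∈ A.Lam) (σ : ℕ → ι) (k : ℕ) {v : X2}
    (hv : v ∈ A.P) :
    Good d (∑ i ∈ Finset.range k, A.Nb (σ i)) F (A.wd F σ k v) ∧
      (T d F)^[∑ i ∈ Finset.range k, A.Nb (σ i)] (A.wd F σ k v) = v := by
  induction k generalizing v with
  | zero =>
    refine ⟨?_, rfl⟩
    intro j hj
    simp at hj
  | succ k ih =>
    rw [K1_wd_succ, Finset.sum_range_succ]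
    have h1 := ih (K1_G_mem hA hF (σ k) hv)
    have h2 := hA.G_inv (σ k) F hF v hv
    refine ⟨good_add.2 ⟨h1.1, ?_⟩, ?_⟩
    · rw [h1.2]
      exact h2.1
    · rw [add_comm, Function.iterate_add_apply, h1.2]
      exact h2.2

theorem IsArena.wd_smooth (hA : IsArena A) (σ : ℕ → ι) (k : ℕ) {F : Coef d} (hF : F ∈ A.Lam)
    {v : X2} (hv : v ∈ A.P) :
    ContDiffAt ℂ 1 (fun q : Coef d × X2 => A.wd q.1 σ k q.2) (F, v) := by
  induction k generalizing v with
  | zero => exact contDiffAt_snd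
  | succ k ih =>
    have h1 := ih (K1_G_mem hA hF (σ k) hv)
    have h2 : ContDiffAt ℂ 1 (fun q : Coef d × X2 => (q.1, A.G (σ k) q.1 q.2)) (F, v) :=
      contDiffAt_fst.prodMk (hA.G_smooth (σ k) F hF v hv)
    exact ContDiffAt.comp (F, v) (g := fun q : Coef d × X2 => A.wd q.1 σ k q.2)
      (f := fun q : Coef d × X2 => (q.1, A.G (σ k) q.1 q.2)) h1 h2

theorem K1_wd_add (hA : IsArena A) {F : Coef d} (hF : F ∈ A.Lam) (σ : ℕ → ι) (k m : ℕ) {v : X2}
    (hv : v ∈ A.P) : ∃ v' ∈ A.P, A.wd F σ (k + m) v = A.wd F σ k v' := by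
  induction m generalizing v with
  | zero => exact ⟨v, hv, rfl⟩
  | succ m ih => exact ih (K1_G_mem hA hF (σ (k + m)) hv)

theorem K1_dist (hA : IsArena A) {F : Coef d} (hF : F ∈ A.Lam) (σ : ℕ → ι) {k l m : ℕ}
    (hl : k ≤ l) (hm : k ≤ m) {v v' : X2} (hv : v ∈ A.P) (hv' : v' ∈ A.P) :
    dist (A.wd F σ l v) (A.wd F σ m v') ≤ A.Cc * A.θ ^ k * Metric.diam A.P := by
  obtain ⟨a, rfl⟩ := Nat.exists_eq_add_of_le hl
  obtain ⟨b, rfl⟩ := Nat.exists_eq_add_of_le hm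
  obtain ⟨u, hu, e1⟩ := K1_wd_add hA hF σ k a hv
  obtain ⟨u', hu', e2⟩ := K1_wd_add hA hF σ k b hv'
  rw [e1, e2]
  refine (hA.contr F hF σ k u hu u' hu').trans ?_
  apply mul_le_mul_of_nonneg_left (Metric.dist_le_diam_of_mem hA.P_compact.isBounded hu hu')
  exact mul_nonneg hA.Cc_nonneg (pow_nonneg hA.th0 k)

theorem K1_tendsto (hA : IsArena A) :
    Tendsto (fun k => A.Cc * A.θ ^ k * Metric.diam A.P) atTop (𝓝 0) := by
  have h := ((tendsto_pow_atTop_nhds_zero_of_lt_one hA.th0 hA.th1).const_mul A.Cc).mul_const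
    (Metric.diam A.P)
  simpa using h

/-- Existence of the limit point, and geometric speed of convergence:
`dist (A.wd F σ k v) e ≤ Cc * θ ^ k * diam P`. -/
theorem IsArena.exists_limPt (hA : IsArena A) (hne : A.P.Nonempty) {F : Coef d} (hF : F ∈ A.Lam)
    (σ : ℕ → ι) :
    ∃ e ∈ A.P, IsLimPt (fun i => A.G i F) σ A.P e ∧
      ∀ k, ∀ v ∈ A.P, dist (A.wd F σ k v) e ≤ A.Cc * A.θ ^ k * Metric.diam A.P := by
  obtain ⟨v0, hv0⟩ := hne
  have hcau : CauchySeq (fun k => A.wd F σ k v0) := by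
    refine cauchySeq_of_le_tendsto_0' (fun k => A.Cc * A.θ ^ k * Metric.diam A.P) ?_
      (K1_tendsto hA)
    intro n m hnm
    exact K1_dist hA hF σ le_rfl hnm hv0 hv0
  obtain ⟨e, he⟩ := cauchySeq_tendsto_of_complete hcau
  have heP : e ∈ A.P := hA.P_compact.isClosed.mem_of_tendsto he
    (Filter.Eventually.of_forall fun k => (hA.wd_maps hF σ k hv0).1)
  have hb : ∀ k, ∀ v ∈ A.P, dist (A.wd F σ k v) e ≤ A.Cc * A.θ ^ k * Metric.diam A.P := by
    intro k v hv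
    have h1 : Tendsto (fun m => dist (A.wd F σ k v) (A.wd F σ m v0)) atTop
        (𝓝 (dist (A.wd F σ k v) e)) := tendsto_const_nhds.dist he
    refine le_of_tendsto h1 ?_
    filter_upwards [Filter.eventually_ge_atTop k] with m hm
    exact K1_dist hA hF σ le_rfl hm hv hv0
  refine ⟨e, heP, ?_, hb⟩
  intro v hv
  rw [tendsto_iff_dist_tendsto_zero]
  exact squeeze_zero (fun _ => dist_nonneg) (fun k => hb k v hv) (K1_tendsto hA)

/-- Limit points of sequences starting with `M0` letters `o` are in `Pt`. -/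
theorem IsArena.limPt_mem (hA : IsArena A) (hne : A.P.Nonempty) {F : Coef d} (hF : F ∈ A.Lam)
    {σ : ℕ → ι} (hσ : A.Start σ) {e : X2} (he : IsLimPt (fun i => A.G i F) σ A.P e) :
    e ∈ A.Pt := by
  obtain ⟨v0, hv0⟩ := hne
  have hcl : IsClosed A.Pt := isClosed_closedBall.prod isClosed_closedBall
  refine hcl.mem_of_tendsto (he v0 hv0) ?_
  filter_upwards [Filter.eventually_ge_atTop A.M0] with k hk
  exact hA.first F hF σ hσ k hk v0 hv0

/-- On a complex line the limit point is holomorphic. Proof: uniform limit of the holomorphic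
functions `ζ ↦ A.wd (F0 + ζ • V) σ k v0`
(`TendstoLocallyUniformlyOn.differentiableOn`). -/
theorem IsArena.limPt_holo (hA : IsArena A) (hne : A.P.Nonempty) (σ : ℕ → ι) {F0 V : Coef d}
    {Ω : Set ℂ} (hΩ : IsOpen Ω) (hmem : ∀ ζ ∈ Ω, F0 + ζ • V ∈ A.Lam) {e : ℂ → X2}
    (he : ∀ ζ ∈ Ω, IsLimPt (fun i => A.G i (F0 + ζ • V)) σ A.P (e ζ)) :
    DifferentiableOn ℂ e Ω := by
  obtain ⟨v0, hv0⟩ := hne
  have hun : TendstoUniformlyOn (fun k ζ => A.wd (F0 + ζ • V) σ k v0) e atTop Ω := by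
    rw [Metric.tendstoUniformlyOn_iff]
    intro ε hε
    have h1 := (K1_tendsto hA).eventually (gt_mem_nhds hε)
    filter_upwards [h1] with k hk ζ hζ
    obtain ⟨e', he'P, he', hb⟩ := hA.exists_limPt ⟨v0, hv0⟩ (hmem ζ hζ) σ
    have heq : e ζ = e' := tendsto_nhds_unique (he ζ hζ v0 hv0) (he' v0 hv0)
    rw [heq, dist_comm]
    exact (hb k v0 hv0).trans_lt hk
  refine hun.tendstoLocallyUniformlyOn.differentiableOn ?_ hΩ
  refine Filter.Eventually.of_forall fun k ζ hζ => ?_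
  have h1 : ContDiffAt ℂ 1 (fun q : Coef d × X2 => A.wd q.1 σ k q.2) (F0 + ζ • V, v0) :=
    hA.wd_smooth σ k (hmem ζ hζ) hv0
  have h2 : DifferentiableAt ℂ (fun ζ : ℂ => ((F0 + ζ • V, v0) : Coef d × X2)) ζ := by
    fun_prop
  have h3 : DifferentiableAt ℂ (fun q : Coef d × X2 => A.wd q.1 σ k q.2) (F0 + ζ • V, v0) :=
    h1.differentiableAt one_ne_zero
  exact (DifferentiableAt.comp ζ (g := fun q : Coef d × X2 => A.wd q.1 σ k q.2)
    (f := fun ζ : ℂ => ((F0 + ζ • V, v0) : Coef d × X2)) h3 h2).differentiableWithinAt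

end SkewBif
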