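import Pool.Agent.SK.A4
import Pool.Agent.SK.A6
import Pool.Agent.SK.B6
import Pool.Agent.SK.D5
import Pool.Agent.SK.E5a
import Pool.Agent.SK.K1
/-! ## MP_9cfccf_an, module D8a -/
open Set Metric Filter Topology Polynomial
namespace SkewBif

/-- locally uniform Lipschitz dependence on the first variable -/
theorem D8a_lip {E1 E2 E3 : Type*} [NormedAddCommGroup E1] [NormedSpace ℂ E1]
    [NormedAddCommGroup E2] [NormedSpace ℂ E2] [NormedAddCommGroup E3] [NormedSpace ℂ E3]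
    {f : E1 × E2 → E3} {S : E1} {K : Set E2} (hK : IsCompact K)
    (hf : ∀ y ∈ K, ContDiffAt ℂ 1 f (S, y)) :
    ∃ C : ℝ, 0 ≤ C ∧ ∀ᶠ q : E1 × E1 in 𝓝 (S, S), ∀ y ∈ K,
      ‖f (q.1, y) - f (q.2, y)‖ ≤ C * ‖q.1 - q.2‖ := by
  refine hK.induction_on (p := fun s => ∃ C : ℝ, 0 ≤ C ∧ ∀ᶠ q : E1 × E1 in 𝓝 (S, S), ∀ y ∈ s,
      ‖f (q.1, y) - f (q.2, y)‖ ≤ C * ‖q.1 - q.2‖) ?_ ?_ ?_ ?_
  · exact ⟨0, le_rfl, by simp⟩
  · rintro s t hst ⟨C, h0, h1⟩
    exact ⟨C, h0, h1.mono fun q hq y hy => hq y (hst hy)⟩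
  · rintro s t ⟨C, h0, h1⟩ ⟨C', h0', h1'⟩
    refine ⟨max C C', le_max_of_le_left h0, ?_⟩
    filter_upwards [h1, h1'] with q a a' y hy
    rcases hy with hy | hy
    · exact (a y hy).trans (by gcongr; exact le_max_left _ _)
    · exact (a' y hy).trans (by gcongr; exact le_max_right _ _)
  · intro y hy
    obtain ⟨C, t, ht, hC⟩ := (hf y hy).exists_lipschitzOnWith
    rw [mem_nhds_prod_iff] at ht
    obtain ⟨u, hu, v, hv, huv⟩ := ht
    refine ⟨v, mem_nhdsWithin_of_mem_nhds hv, C, C.2, ?_⟩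
    filter_upwards [prod_mem_nhds hu hu] with q hq y' hy'
    have h1 := hC.dist_le_mul (q.1, y') (huv ⟨hq.1, hy'⟩) (q.2, y') (huv ⟨hq.2, hy'⟩)
    rw [dist_eq_norm, dist_eq_norm, Prod.mk_sub_mk, sub_self, Prod.norm_mk, norm_zero,
      max_eq_left (norm_nonneg _)] at h1
    exact h1

theorem D8a_word_const {ι X : Type} (g : ι → X → X) (o : ι) (k : ℕ) (v : X) :
    word g (fun _ => o) k v = (g o)^[k] v := by
  induction k generalizing v with
  | zero => rfl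
  | succ k ih =>
    change word g (fun _ => o) k (g o v) = _
    rw [ih, Function.iterate_succ_apply]

/-- the fixed point of the distinguished branch -/
theorem D8a_fix {d : ℕ} {ι J : Type} {A : AData d ι J} (hA : IsArena A) (hne : A.P.Nonempty)
    (o : ι) : ∃ xh : Coef d → X2, ∀ F ∈ A.Lam, xh F ∈ A.P ∧ A.G o F (xh F) = xh F ∧
      IsLimPt (fun i => A.G i F) (fun _ => o) A.P (xh F) ∧
      ∀ k, A.wd F (fun _ => o) k (xh F) = xh F := by
  have h1 : ∀ F ∈ A.Lam, ∃ e ∈ A.P, IsLimPt (fun i => A.G i F) (fun _ => o) A.P e := by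
    intro F hF
    obtain ⟨e, he, h, -⟩ := hA.exists_limPt hne hF (fun _ => o)
    exact ⟨e, he, h⟩
  choose! xh hP hL using h1
  refine ⟨xh, fun F hF => ?_⟩
  have hfix : A.G o F (xh F) = xh F := by
    obtain ⟨v, hv⟩ := hne
    have h2 := hL F hF v hv
    have h3 : (fun k => word (fun i => A.G i F) (fun _ => o) k v) = fun k => (A.G o F)^[k] v := by
      funext k
      exact D8a_word_const _ o k v
    rw [h3] at h2
    have h4 : ContinuousAt (A.G o F) (xh F) := by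
      have h5 := (hA.G_smooth o F hF (xh F) (hP F hF)).continuousAt
      exact ContinuousAt.comp (g := fun q : Coef d × X2 => A.G o q.1 q.2)
        (f := fun v : X2 => (F, v)) h5 (by fun_prop)
    exact isFixedPt_of_tendsto_iterate h2 h4
  refine ⟨hP F hF, hfix, hL F hF, fun k => ?_⟩
  unfold AData.wd
  rw [D8a_word_const]
  exact Function.iterate_fixed hfix k

/-- the fixed point is unique in `P` -/
theorem D8a_uniq {d : ℕ} {ι J : Type} {A : AData d ι J} (hA : IsArena A)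
    (o : ι) {F : Coef d} (hF : F ∈ A.Lam) {e e' : X2} (he : e ∈ A.P) (he' : e' ∈ A.P)
    (h : A.G o F e = e) (h' : A.G o F e' = e') : e = e' := by
  have h1 : ∀ k : ℕ, dist e e' ≤ A.Cc * A.θ ^ k * dist e e' := by
    intro k
    have h2 := hA.contr F hF (fun _ => o) k e he e' he'
    unfold AData.wd at h2
    rw [D8a_word_const, D8a_word_const, Function.iterate_fixed h, Function.iterate_fixed h'] at h2
    exact h2
  have h3 : Tendsto (fun k : ℕ => A.Cc * A.θ ^ k * dist e e') atTop (𝓝 (A.Cc * 0 * dist e e')) :=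
    ((tendsto_pow_atTop_nhds_zero_of_lt_one hA.th0 hA.th1).const_mul _).mul_const _
  have h4 := ge_of_tendsto' h3 h1
  rw [mul_zero, zero_mul] at h4
  exact dist_le_zero.mp h4

/-- Lipschitz dependence of the fixed point -/
theorem D8a_fix_lip {d : ℕ} {ι J : Type} {A : AData d ι J} (hA : IsArena A)
    (o : ι) {S : Coef d} (hS : S ∈ A.Lam) {xh : Coef d → X2}
    (hP : ∀ F ∈ A.Lam, xh F ∈ A.P)
    (hfix : ∀ F ∈ A.Lam, ∀ k, A.wd F (fun _ => o) k (xh F) = xh F) :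
    ∃ C : ℝ, 0 ≤ C ∧ ∀ᶠ q : Coef d × Coef d in 𝓝 (S, S), ‖xh q.1 - xh q.2‖ ≤ C * ‖q.1 - q.2‖ := by
  obtain ⟨k, hk⟩ : ∃ k : ℕ, A.Cc * A.θ ^ k < 1 / 2 := by
    have h1 : Tendsto (fun k : ℕ => A.Cc * A.θ ^ k) atTop (𝓝 (A.Cc * 0)) :=
      (tendsto_pow_atTop_nhds_zero_of_lt_one hA.th0 hA.th1).const_mul _
    rw [mul_zero] at h1
    exact (h1.eventually_lt_const (by norm_num)).exists
  obtain ⟨C, hC0, hC⟩ := D8a_lip (f := fun q : Coef d × X2 => A.wd q.1 (fun _ => o) k q.2)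
    (S := S) hA.P_compact (fun y hy => hA.wd_smooth (fun _ => o) k hS hy)
  refine ⟨2 * C, by positivity, ?_⟩
  have h2 : ∀ᶠ q : Coef d × Coef d in 𝓝 (S, S), q.1 ∈ A.Lam ∧ q.2 ∈ A.Lam :=
    prod_mem_nhds (hA.Lam_open.mem_nhds hS) (hA.Lam_open.mem_nhds hS)
  filter_upwards [hC, h2] with q a ⟨b1, b2⟩
  have e1 := a (xh q.2) (hP q.2 b2)
  have e2 := hA.contr q.1 b1 (fun _ => o) k (xh q.1) (hP _ b1) (xh q.2) (hP _ b2)
  rw [hfix q.1 b1 k, dist_eq_norm, dist_eq_norm] at e2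
  rw [hfix q.2 b2 k] at e1
  have e3 : ‖xh q.1 - xh q.2‖ ≤ 1 / 2 * ‖xh q.1 - xh q.2‖ + C * ‖q.1 - q.2‖ := by
    calc ‖xh q.1 - xh q.2‖ = ‖(xh q.1 - A.wd q.1 (fun _ => o) k (xh q.2)) +
          (A.wd q.1 (fun _ => o) k (xh q.2) - xh q.2)‖ := by rw [sub_add_sub_cancel]
      _ ≤ ‖xh q.1 - A.wd q.1 (fun _ => o) k (xh q.2)‖ +
          ‖A.wd q.1 (fun _ => o) k (xh q.2) - xh q.2‖ := norm_add_le _ _
      _ ≤ 1 / 2 * ‖xh q.1 - xh q.2‖ + C * ‖q.1 - q.2‖ := by
          refine add_le_add (e2.trans ?_) e1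
          gcongr
  linarith

theorem D8a_fib_diff (d : ℕ) (p : ℂ[X]) (b : Mon d → ℂ) (τ : ℂ) (M : ℕ) (z : ℂ) :
    Differentiable ℂ (fun w => fib d p b τ M z w) := by
  have h1 : Differentiable ℂ (sk d p b τ) := by
    unfold sk qv
    refine Differentiable.prodMk ?_ ?_
    · exact (p.differentiable.comp differentiable_fst).add_const _
    · fun_prop
  have h2 : Differentiable ℂ ((sk d p b τ)^[M]) := h1.iterate M
  exact differentiable_snd.comp (h2.comp (by fun_prop : Differentiable ℂ fun w : ℂ => ((z, w) : X2)))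

/-- D8a. Tuning: parameters `(ε, τ)`, arbitrarily small, `ε ≠ 0`, for which the rescaled graph
`γ j0` is uniformly Lipschitz and passes (almost) through the rescaled fixed point. -/
theorem tuned {d : ℕ} {p : ℂ[X]} {b : Mon d → ℂ} {n N : ℕ} {x wb ws : ℂ} {ρ R θ : ℝ}
    {q q' : ℕ} {u : ℂ → ℂ} {U : Fin q → ℂ → ℂ} {c : ℂ} {m2 : ℕ}
    {A : AData d (Option (Fin q)) (Fin (q' + 1))}
    (h : SkArena d p b n N x wb ws ρ R θ u U c m2 A) {xc : ℂ → ℂ} (hxc0 : xc 0 = x)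
    (hxc : AnalyticAt ℂ xc 0) (hfix : ∀ᶠ τ in 𝓝 (0 : ℂ), (pt p τ)^[n] (xc τ) = xc τ)
    (huniq : ∀ᶠ q : ℂ × ℂ in 𝓝 (0, x), (pt p q.1)^[n] q.2 = q.2 → q.2 = xc q.1) :
    ∃ C : ℝ, 0 ≤ C ∧ ∀ e1 > 0, ∀ η > 0, ∃ ε τ : ℂ, ε ≠ 0 ∧ ‖ε‖ < η ∧ ‖τ‖ < η ∧
      (∀ t ∈ closedBall ws (A.ρt / 2), ∀ t' ∈ closedBall ws (A.ρt / 2),
        ‖(A.γ A.j0 (fam d p b ε τ) t - xc τ) / ε - (A.γ A.j0 (fam d p b ε τ) t' - xc τ) / ε‖
          ≤ C * ‖t - t'‖) ∧
      ‖(A.γ A.j0 (fam d p b ε τ) ws - xc τ) / ε -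
        drift d p b 0 n x ws / (1 - deriv ((pt p 0)^[n]) x)‖ ≤ e1 := by
  have hA := h.arena
  have hd1 : 1 ≤ d := le_trans (by norm_num) h.hd
  obtain ⟨rP, hrP, hP⟩ := h.hP
  obtain ⟨V1, V2, hV⟩ := fam_affine p b
  have hne : A.P.Nonempty := by
    rw [hP]
    exact ⟨(x, wb), mem_closedBall_self hrP.le, mem_closedBall_self h.hρ.le⟩
  set S := skew d p b with hSdef
  have hS : S ∈ A.Lam := h.mem
  set lam := deriv ((pt p 0)^[n]) x with hlam
  have hlam0 : lam ≠ 0 := by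
    intro h0
    have := h.hmul
    rw [← hlam, h0, norm_zero] at this
    linarith
  have hlam1 : lam ≠ 1 := by
    intro h0
    have := h.hmul
    rw [← hlam, h0, norm_one] at this
    linarith
  obtain ⟨xh, hxh⟩ := D8a_fix hA hne (none : Option (Fin q))
  -- the fixed point at the skew product
  have hwsP : ((x, ws) : X2) ∈ A.P := by
    rw [hP]
    exact ⟨mem_closedBall_self hrP.le, ball_subset_closedBall h.hws⟩
  have hxhS : xh S = (x, ws) := by
    refine D8a_uniq hA none hS (hxh S hS).1 hwsP (hxh S hS).2.1 ?_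
    rw [hSdef, h.G0 ws (ball_subset_closedBall h.hws), h.huws]
  obtain ⟨C1, hC10, hC1⟩ := D8a_fix_lip hA none hS (fun F hF => (hxh F hF).1)
    (fun F hF => (hxh F hF).2.2.2)
  -- continuity of the family
  have hfamc : Continuous (fun r : ℂ × ℂ => fam d p b r.1 r.2) := by
    simp_rw [hV]
    fun_prop
  have hfam0 : fam d p b 0 0 = S := rfl
  have hfamt : Tendsto (fun r : ℂ × ℂ => fam d p b r.1 r.2) (𝓝 (0, 0)) (𝓝 S) := by
    have := hfamc.tendsto ((0 : ℂ), (0 : ℂ))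
    exact this
  have hfamt0 : Tendsto (fun r : ℂ × ℂ => fam d p b 0 r.2) (𝓝 (0, 0)) (𝓝 S) := by
    have h1 : Continuous (fun r : ℂ × ℂ => fam d p b 0 r.2) := by
      simp_rw [hV]
      fun_prop
    exact h1.tendsto ((0 : ℂ), (0 : ℂ))
  have hdiff : ∀ ε τ : ℂ, fam d p b ε τ - fam d p b 0 τ = ε • V1 := by
    intro ε τ
    rw [hV, hV 0, zero_smul, add_zero]
    abel
  -- continuity of `xh` near `S`
  have hxhc : ∀ᶠ F in 𝓝 S, ContinuousAt xh F := by
    have h1 := hC1.eventually_nhds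
    have h2 : Tendsto (fun F : Coef d => (F, F)) (𝓝 S) (𝓝 (S, S)) := by
      exact (continuous_id.prodMk continuous_id).tendsto S
    filter_upwards [h2.eventually h1] with F hF
    have h3 : Tendsto (fun F' : Coef d => (F', F)) (𝓝 F) (𝓝 (F, F)) :=
      (continuous_id.prodMk continuous_const).tendsto F
    have h4 := h3.eventually hF
    rw [ContinuousAt, tendsto_iff_norm_sub_tendsto_zero]
    refine squeeze_zero_norm' (a := fun F' => C1 * ‖F' - F‖) ?_ ?_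
    · filter_upwards [h4] with F' hF'
      rw [norm_norm]
      exact hF'
    · have h5 : Tendsto (fun F' : Coef d => C1 * ‖F' - F‖) (𝓝 F) (𝓝 (C1 * ‖F - F‖)) :=
        (((continuous_id.sub continuous_const).norm).const_mul C1).tendsto F
      simpa using h5
  have hxhS' : Tendsto xh (𝓝 S) (𝓝 (x, ws)) := by
    have h1 : ContinuousAt xh S := hxhc.self_of_nhds
    rw [← hxhS]
    exact h1
  have hxhr : Tendsto (fun r : ℂ × ℂ => xh (fam d p b r.1 r.2)) (𝓝 (0, 0)) (𝓝 (x, ws)) :=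
    hxhS'.comp hfamt
  have hxhr0 : Tendsto (fun r : ℂ × ℂ => xh (fam d p b 0 r.2)) (𝓝 (0, 0)) (𝓝 (x, ws)) :=
    hxhS'.comp hfamt0
  have hρtpos := hA.ρt_pos
  -- the first coordinate for `ε = 0`
  have hE3 : ∀ᶠ r : ℂ × ℂ in 𝓝 (0, 0), (xh (fam d p b 0 r.2)).1 = xc r.2 := by
    have h1 : Tendsto (fun r : ℂ × ℂ => (r.2, (xh (fam d p b 0 r.2)).1)) (𝓝 (0, 0))
        (𝓝 (0, x)) := by
      refine Tendsto.prodMk_nhds ?_ ?_
      · exact continuous_snd.tendsto ((0 : ℂ), (0 : ℂ))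
      · exact (continuous_fst.tendsto ((x, ws) : X2)).comp hxhr0
    filter_upwards [h1.eventually huniq, hfamt0.eventually (hA.Lam_open.mem_nhds hS)] with r a1 a2
    apply a1
    have h2 := (hA.G_inv none _ a2 _ (hxh _ a2).1).2
    rw [h.Nb0, (hxh _ a2).2.1, show xh (fam d p b 0 r.2) = ((xh (fam d p b 0 r.2)).1,
      (xh (fam d p b 0 r.2)).2) from rfl, T_skew_iter hd1 h.hp.le] at h2
    exact congrArg Prod.fst h2
  -- the graph `γ`
  obtain ⟨C2, hC20, hC2⟩ := D8a_lip (f := fun q : Coef d × ℂ => A.γ A.j0 q.1 q.2) (S := S)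
    (isCompact_closedBall ws A.ρt) (fun t ht => hA.γ_smooth A.j0 S hS t (by rw [h.hws']; exact ht))
  have hpair : Tendsto (fun r : ℂ × ℂ => (fam d p b r.1 r.2, fam d p b 0 r.2)) (𝓝 (0, 0))
      (𝓝 (S, S)) := hfamt.prodMk_nhds hfamt0
  have hE4 : ∀ᶠ r : ℂ × ℂ in 𝓝 (0, 0), ∀ t ∈ closedBall ws A.ρt,
      ‖A.γ A.j0 (fam d p b r.1 r.2) t - A.γ A.j0 (fam d p b 0 r.2) t‖ ≤ C2 * ‖V1‖ * ‖r.1‖ := by
    filter_upwards [hpair.eventually hC2] with r hr t ht
    have h1 := hr t ht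
    rw [hdiff, norm_smul] at h1
    linarith
  have hE2 : ∀ᶠ r : ℂ × ℂ in 𝓝 (0, 0),
      ‖xh (fam d p b r.1 r.2) - xh (fam d p b 0 r.2)‖ ≤ C1 * ‖V1‖ * ‖r.1‖ := by
    filter_upwards [hpair.eventually hC1] with r hr
    rw [hdiff, norm_smul] at hr
    linarith
  have hLam : ∀ᶠ r : ℂ × ℂ in 𝓝 (0, 0), fam d p b r.1 r.2 ∈ A.Lam :=
    hfamt.eventually (hA.Lam_open.mem_nhds hS)
  have hLam0 : ∀ᶠ r : ℂ × ℂ in 𝓝 (0, 0), fam d p b 0 r.2 ∈ A.Lam :=
    hfamt0.eventually (hA.Lam_open.mem_nhds hS)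
  have hw2 : Tendsto (fun r : ℂ × ℂ => (xh (fam d p b r.1 r.2)).2) (𝓝 (0, 0)) (𝓝 ws) :=
    (continuous_snd.tendsto ((x, ws) : X2)).comp hxhr
  -- the Lipschitz constant
  refine ⟨C2 * ‖V1‖ / (A.ρt - A.ρt / 2), by
    have : 0 < A.ρt - A.ρt / 2 := by linarith
    positivity, fun e1 he1 η hη => ?_⟩
  set Cst := C2 * ‖V1‖ / (A.ρt - A.ρt / 2) with hCst
  have hlm : 0 < ‖lam - 1‖ := norm_pos_iff.mpr (sub_ne_zero.mpr hlam1)
  have hln : 0 < ‖lam‖ := norm_pos_iff.mpr hlam0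
  -- the scaling limit
  have hwsd : dist ws wb < ρ := h.hws
  obtain ⟨ρ', hρ1, hρ2⟩ := exists_between hwsd
  have hsubR : ∀ w ∈ closedBall wb ρ', w ∈ ball wb R := fun w hw =>
    mem_ball.mpr (lt_of_le_of_lt (mem_closedBall.mp hw) (hρ2.trans h.hρR))
  have hsubρ : ∀ w ∈ closedBall wb ρ', w ∈ ball wb ρ := fun w hw =>
    mem_ball.mpr (lt_of_le_of_lt (mem_closedBall.mp hw) hρ2)
  obtain ⟨δ, hδ, hscale⟩ := scale hd1 h.hp.le (b := b) h.hx hlam0 hxc0 hxc.continuousAt hfix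
    (wb := wb) (ρ := ρ') (U := u)
    (by
      intro w hw
      have hwR := hsubR w hw
      refine ⟨h.huinv w hwR, fun h0 => ?_⟩
      have h1 : HasDerivAt u (deriv u w) w :=
        (h.hu.differentiableAt (isOpen_ball.mem_nhds hwR)).hasDerivAt
      have h2 := (D8a_fib_diff d p b 0 n x (u w)).hasDerivAt.comp w h1
      have h3 : HasDerivAt (fib d p b 0 n x ∘ u) 1 w := by
        refine (hasDerivAt_id w).congr_of_eventuallyEq ?_
        filter_upwards [isOpen_ball.mem_nhds hwR] with w' hw'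
        exact h.huinv w' hw'
      have h4 := h2.unique h3
      rw [show deriv (fun w => fib d p b 0 n x w) (u w) = 0 from h0, zero_mul] at h4
      exact zero_ne_one h4)
    (G := fun F v => A.G none F v)
    (by
      intro w hw
      have hwρ := hsubρ w hw
      have hmemP : ((x, w) : X2) ∈ A.P := by
        rw [hP]
        exact ⟨mem_closedBall_self hrP.le, ball_subset_closedBall hwρ⟩
      refine ⟨hA.G_smooth none S hS _ hmemP, h.G0 w (ball_subset_closedBall hwρ), ?_⟩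
      have h1 : A.P ∈ 𝓝 ((x, w) : X2) := by
        rw [hP]
        exact prod_mem_nhds (closedBall_mem_nhds x hrP)
          (mem_of_superset (isOpen_ball.mem_nhds hwρ) ball_subset_closedBall)
      filter_upwards [prod_mem_nhds (hA.Lam_open.mem_nhds hS) h1] with r hr
      have h2 := hA.G_inv none r.1 hr.1 r.2 hr.2
      rw [h.Nb0] at h2
      exact h2)
    (K := C1 * ‖V1‖) (e := e1 / 4 * ‖lam - 1‖ / ‖lam‖) (by positivity)
  -- smallness conditions
  have hwρ' : ∀ᶠ r : ℂ × ℂ in 𝓝 (0, 0), (xh (fam d p b r.1 r.2)).2 ∈ closedBall wb ρ' := by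
    refine hw2.eventually (mem_of_superset (isOpen_ball.mem_nhds ?_) ball_subset_closedBall)
    exact hρ1
  have hwρt : ∀ᶠ r : ℂ × ℂ in 𝓝 (0, 0), (xh (fam d p b r.1 r.2)).2 ∈ closedBall ws (A.ρt / 2) :=
    hw2.eventually (closedBall_mem_nhds ws (by linarith))
  have hwρt0 : ∀ᶠ r : ℂ × ℂ in 𝓝 (0, 0), (xh (fam d p b 0 r.2)).2 ∈ closedBall ws A.ρt :=
    ((continuous_snd.tendsto ((x, ws) : X2)).comp hxhr0).eventually
      (closedBall_mem_nhds ws hρtpos)
  have hwsm : ∀ᶠ r : ℂ × ℂ in 𝓝 (0, 0), Cst * ‖ws - (xh (fam d p b r.1 r.2)).2‖ < e1 / 2 := by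
    have h1 : Tendsto (fun r : ℂ × ℂ => Cst * ‖ws - (xh (fam d p b r.1 r.2)).2‖) (𝓝 (0, 0))
        (𝓝 (Cst * ‖ws - ws‖)) := ((hw2.const_sub ws).norm).const_mul Cst
    rw [sub_self, norm_zero, mul_zero] at h1
    exact h1.eventually_lt_const (by positivity)
  have huws : ContinuousAt u ws := by
    have h1 : ws ∈ ball wb R := mem_ball.mpr (hwsd.trans h.hρR)
    exact (h.hu.differentiableAt (isOpen_ball.mem_nhds h1)).continuousAt
  have hdr : ∀ᶠ r : ℂ × ℂ in 𝓝 (0, 0), ‖drift d p b 0 n x ws -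
      drift d p b 0 n x (u (xh (fam d p b r.1 r.2)).2)‖ < e1 / 4 * ‖lam - 1‖ := by
    have h1 : Tendsto (fun r : ℂ × ℂ => drift d p b 0 n x (u (xh (fam d p b r.1 r.2)).2))
        (𝓝 (0, 0)) (𝓝 (drift d p b 0 n x (u ws))) :=
      ((D5_drift_cont d p b 0 n x).tendsto (u ws)).comp (huws.tendsto.comp hw2)
    rw [h.huws] at h1
    have h2 := (h1.const_sub (drift d p b 0 n x ws)).norm
    rw [sub_self, norm_zero] at h2
    exact h2.eventually_lt_const (by positivity)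
  have hcont : ∀ᶠ r : ℂ × ℂ in 𝓝 (0, 0), ContinuousAt xh (fam d p b r.1 r.2) :=
    hfamt.eventually hxhc
  have hall := hE2.and (hE3.and (hE4.and (hLam.and (hLam0.and (hwρ'.and (hwρt.and (hwρt0.and
    (hwsm.and (hdr.and hcont)))))))))
  rw [Metric.eventually_nhds_iff] at hall
  obtain ⟨δ', hδ', hall⟩ := hall
  set R0 := min δ (min δ' η) with hR0
  have hR0pos : 0 < R0 := lt_min hδ (lt_min hδ' hη)
  have hreg : ∀ ε ∈ ball (0 : ℂ) R0, ∀ τ ∈ ball (0 : ℂ) R0, dist ((ε, τ) : ℂ × ℂ) (0, 0) < δ' := by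
    intro ε hε τ hτ
    rw [Prod.dist_eq]
    exact max_lt (lt_of_lt_of_le hε ((min_le_right _ _).trans (min_le_left _ _)))
      (lt_of_lt_of_le hτ ((min_le_right _ _).trans (min_le_left _ _)))
  let H : ℂ → ℂ → ℂ := fun ε τ =>
    A.γ A.j0 (fam d p b ε τ) (xh (fam d p b ε τ)).2 - (xh (fam d p b ε τ)).1
  have hρsub : closedBall ws (A.ρt / 2) ⊆ closedBall ws A.ρt :=
    closedBall_subset_closedBall (by linarith)
  have hzero := zero_persists (x₀ := (0 : ℂ)) (z₀ := (0 : ℂ)) (R := R0) hR0pos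
    (N := ball (0 : ℂ) R0) (isOpen_ball.mem_nhds (mem_ball_self hR0pos)) (H := H)
    (by
      rintro ⟨ε, τ⟩ ⟨hε, hτ⟩
      obtain ⟨a1, a2, a3, a4, a5, a6, a7, a8, a9, a10, a11⟩ := hall (hreg ε hε τ hτ)
      simp only at a4 a7 a11
      refine ContinuousAt.continuousWithinAt ?_
      have h1 : ContinuousAt (fun r : ℂ × ℂ => xh (fam d p b r.1 r.2)) (ε, τ) :=
        ContinuousAt.comp (g := xh) (f := fun r : ℂ × ℂ => fam d p b r.1 r.2) a11
          hfamc.continuousAt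
      have h2 : ContinuousAt (fun r : ℂ × ℂ =>
          ((fam d p b r.1 r.2, (xh (fam d p b r.1 r.2)).2) : Coef d × ℂ)) (ε, τ) :=
        hfamc.continuousAt.prodMk (continuousAt_snd.comp h1)
      have h3 : ContinuousAt (fun q : Coef d × ℂ => A.γ A.j0 q.1 q.2)
          (fam d p b ε τ, (xh (fam d p b ε τ)).2) :=
        (hA.γ_smooth A.j0 _ a4 _ (by rw [h.hws']; exact hρsub a7)).continuousAt
      have h4 := ContinuousAt.comp (g := fun q : Coef d × ℂ => A.γ A.j0 q.1 q.2)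
        (f := fun r : ℂ × ℂ => ((fam d p b r.1 r.2, (xh (fam d p b r.1 r.2)).2) : Coef d × ℂ))
        h3 h2
      exact h4.sub (continuousAt_fst.comp h1))
    (by
      intro ε hε
      have hxd : DifferentiableOn ℂ (fun τ => xh (fam d p b ε τ)) (ball 0 R0) := by
        refine hA.limPt_holo hne (fun _ => none) (F0 := S + ε • V1) (V := V2) isOpen_ball ?_ ?_
        · intro τ hτ
          have := (hall (hreg ε hε τ hτ)).2.2.2.1
          simp only at this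
          rwa [hV] at this
        · intro τ hτ
          have h5 := (hall (hreg ε hε τ hτ)).2.2.2.1
          have h6 := (hxh _ h5).2.2.1
          simp only at h6
          rw [hV ε τ] at h6
          rw [hV ε τ]
          exact h6
      intro τ hτ
      obtain ⟨a1, a2, a3, a4, a5, a6, a7, a8, a9, a10, a11⟩ := hall (hreg ε hε τ hτ)
      simp only at a4 a7
      have h1 : DifferentiableAt ℂ (fun τ => xh (fam d p b ε τ)) τ :=
        hxd.differentiableAt (isOpen_ball.mem_nhds hτ)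
      have h0 : DifferentiableAt ℂ (fun τ => fam d p b ε τ) τ := by
        have e : (fun τ => fam d p b ε τ) = fun τ : ℂ => S + ε • V1 + τ • V2 := by
          funext τ; exact hV ε τ
        rw [e]
        fun_prop
      have h2 : DifferentiableAt ℂ (fun τ =>
          ((fam d p b ε τ, (xh (fam d p b ε τ)).2) : Coef d × ℂ)) τ :=
        h0.prodMk (differentiableAt_snd.comp τ h1)
      have h3 : DifferentiableAt ℂ (fun q : Coef d × ℂ => A.γ A.j0 q.1 q.2)
          (fam d p b ε τ, (xh (fam d p b ε τ)).2) :=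
        (hA.γ_smooth A.j0 _ a4 _ (by rw [h.hws']; exact hρsub a7)).differentiableAt
          (by norm_num)
      have h4 := DifferentiableAt.comp (g := fun q : Coef d × ℂ => A.γ A.j0 q.1 q.2)
        (f := fun τ => ((fam d p b ε τ, (xh (fam d p b ε τ)).2) : Coef d × ℂ)) τ h3 h2
      exact (h4.sub (differentiableAt_fst.comp τ h1)).differentiableWithinAt)
    (by
      change A.γ A.j0 (fam d p b 0 0) (xh (fam d p b 0 0)).2 - (xh (fam d p b 0 0)).1 = 0
      rw [hfam0, hxhS]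
      have h1 := h.hγ 0 hS ws (mem_closedBall_self hρtpos.le)
      rw [hfam0] at h1
      rw [h1, h.land, sub_self])
    (by
      intro hev
      have h1 : ∀ᶠ τ in 𝓝 (0 : ℂ), τ ∈ {σ : ℂ | nac (fun _ => p) σ (m2 + n) c =
          nac (fun _ => p) σ m2 c} := by
        have hball : ∀ᶠ τ in 𝓝 (0 : ℂ), τ ∈ ball (0 : ℂ) R0 :=
          isOpen_ball.mem_nhds (mem_ball_self hR0pos)
        filter_upwards [hev, hball, hfix] with τ b1 b2 b3
        obtain ⟨a1, a2, a3, a4, a5, a6, a7, a8, a9, a10, a11⟩ :=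
          hall (hreg 0 (mem_ball_self hR0pos) τ b2)
        simp only at a2 a4 a8
        change A.γ A.j0 (fam d p b 0 τ) (xh (fam d p b 0 τ)).2 - (xh (fam d p b 0 τ)).1 = 0 at b1
        rw [h.hγ τ a4 _ a8, a2, sub_eq_zero] at b1
        rw [nac_const, nac_const, add_comm m2 n, Function.iterate_add_apply, b1, b3]
      exact infinite_of_mem_nhds (0 : ℂ) h1
        (finite_relation h.hd (fun _ => h.hp) m2 h.hn c))
    (η := R0) hR0pos
  -- choose the parameters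
  have hev2 : ∀ᶠ ε in 𝓝[≠] (0 : ℂ), ε ≠ 0 ∧ ε ∈ ball (0 : ℂ) R0 ∧ ∃ τ ∈ ball (0 : ℂ) R0, H ε τ = 0 := by
    have h1 : ∀ᶠ ε in 𝓝[≠] (0 : ℂ), ε ≠ 0 := eventually_mem_nhdsWithin
    have h2 : ∀ᶠ ε in 𝓝[≠] (0 : ℂ), ε ∈ ball (0 : ℂ) R0 :=
      nhdsWithin_le_nhds (isOpen_ball.mem_nhds (mem_ball_self hR0pos))
    exact h1.and (h2.and (nhdsWithin_le_nhds hzero))
  obtain ⟨ε, hε0, hε, τ, hτ, hH⟩ := hev2.exists
  obtain ⟨a1, a2, a3, a4, a5, a6, a7, a8, a9, a10, a11⟩ := hall (hreg ε hε τ hτ)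
  simp only at a1 a2 a3 a4 a5 a6 a7 a8 a9 a10
  have hεn : 0 < ‖ε‖ := norm_pos_iff.mpr hε0
  have hε' := mem_ball_zero_iff.mp hε
  have hτ' := mem_ball_zero_iff.mp hτ
  -- Lipschitz
  have hlip : ∀ t ∈ closedBall ws (A.ρt / 2), ∀ t' ∈ closedBall ws (A.ρt / 2),
        ‖(A.γ A.j0 (fam d p b ε τ) t - xc τ) / ε - (A.γ A.j0 (fam d p b ε τ) t' - xc τ) / ε‖
          ≤ Cst * ‖t - t'‖ := by
    intro t ht t' ht'
    have h1 := lip_of_bound_one (b := ws) (r2 := A.ρt / 2) (s2 := A.ρt) (e := C2 * ‖V1‖)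
      (by linarith)
      (g := fun t => (A.γ A.j0 (fam d p b ε τ) t - A.γ A.j0 (fam d p b 0 τ) t) / ε)
      (by
        intro t ht
        have hγd : ∀ F ∈ A.Lam, DifferentiableAt ℂ (fun t => A.γ A.j0 F t) t := by
          intro F hF
          have h3 : DifferentiableAt ℂ (fun q : Coef d × ℂ => A.γ A.j0 q.1 q.2) (F, t) :=
            (hA.γ_smooth A.j0 _ hF _ (by
              rw [h.hws']; exact ball_subset_closedBall ht)).differentiableAt (by norm_num)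
          exact DifferentiableAt.comp (g := fun q : Coef d × ℂ => A.γ A.j0 q.1 q.2)
            (f := fun t : ℂ => ((F, t) : Coef d × ℂ)) t h3 (by fun_prop)
        exact (((hγd _ a4).sub (hγd _ a5)).div_const ε).differentiableWithinAt)
      (by
        intro t ht
        rw [norm_div, div_le_iff₀ hεn]
        exact a3 t (ball_subset_closedBall ht))
      t ht t' ht'
    have h2 : ∀ t ∈ closedBall ws (A.ρt / 2), A.γ A.j0 (fam d p b 0 τ) t = (pt p τ)^[m2] c :=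
      fun t ht => h.hγ τ a5 t (hρsub ht)
    simp only [h2 t ht, h2 t' ht'] at h1
    have h3 : (A.γ A.j0 (fam d p b ε τ) t - xc τ) / ε - (A.γ A.j0 (fam d p b ε τ) t' - xc τ) / ε =
        (A.γ A.j0 (fam d p b ε τ) t - (pt p τ)^[m2] c) / ε -
        (A.γ A.j0 (fam d p b ε τ) t' - (pt p τ)^[m2] c) / ε := by ring
    rw [h3]
    exact h1
  refine ⟨ε, τ, hε0, lt_of_lt_of_le hε' ((min_le_right _ _).trans (min_le_right _ _)),
    lt_of_lt_of_le hτ' ((min_le_right _ _).trans (min_le_right _ _)), hlip, ?_⟩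
  -- the rescaled fixed point
  set X := xh (fam d p b ε τ) with hX
  set ζ := (X.1 - xc τ) / ε with hζ
  have hXζ : xc τ + ε * ζ = X.1 := by
    rw [hζ]; field_simp; ring
  have hζn : ‖ζ‖ ≤ C1 * ‖V1‖ := by
    rw [hζ, norm_div, div_le_iff₀ hεn, ← a2]
    refine le_trans ?_ a1
    rw [← Prod.fst_sub]
    exact norm_fst_le _
  have hsc := (hscale ε τ hε0 (lt_of_lt_of_le hε' (min_le_left _ _))
    (lt_of_lt_of_le hτ' (min_le_left _ _)) ζ (by rw [mem_closedBall_zero_iff]; exact hζn)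
    X.2 a6).1
  rw [hXζ, show ((X.1, X.2) : X2) = X from rfl, (hxh _ a4).2.1, ← hX, ← hζ] at hsc
  have hγX : A.γ A.j0 (fam d p b ε τ) X.2 = X.1 := sub_eq_zero.mp hH
  have h1 := hlip ws (mem_closedBall_self (by linarith)) X.2 a7
  rw [hγX, ← hζ] at h1
  have hden : lam - 1 ≠ 0 := sub_ne_zero.mpr hlam1
  have hden' : 1 - lam ≠ 0 := sub_ne_zero.mpr (Ne.symm hlam1)
  have h2 : ζ - drift d p b 0 n x ws / (1 - lam) =
      (lam * (ζ - lam⁻¹ * (ζ - drift d p b 0 n x (u X.2))) +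
        (drift d p b 0 n x ws - drift d p b 0 n x (u X.2))) / (lam - 1) := by
    have h3 : drift d p b 0 n x ws / (1 - lam) = - (drift d p b 0 n x ws / (lam - 1)) := by
      rw [← neg_sub lam 1, div_neg]
    rw [h3]
    field_simp
    ring
  have h3 : ‖ζ - drift d p b 0 n x ws / (1 - lam)‖ ≤ e1 / 2 := by
    rw [h2, norm_div, div_le_iff₀ hlm]
    refine (norm_add_le _ _).trans ?_
    rw [norm_mul]
    have h4 : ‖lam‖ * ‖ζ - lam⁻¹ * (ζ - drift d p b 0 n x (u X.2))‖ ≤ e1 / 4 * ‖lam - 1‖ := by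
      calc ‖lam‖ * ‖ζ - lam⁻¹ * (ζ - drift d p b 0 n x (u X.2))‖
          ≤ ‖lam‖ * (e1 / 4 * ‖lam - 1‖ / ‖lam‖) := by gcongr
        _ = e1 / 4 * ‖lam - 1‖ := by field_simp
    linarith
  have h5 : (A.γ A.j0 (fam d p b ε τ) ws - xc τ) / ε - drift d p b 0 n x ws / (1 - lam) =
      ((A.γ A.j0 (fam d p b ε τ) ws - xc τ) / ε - ζ) +
        (ζ - drift d p b 0 n x ws / (1 - lam)) := by ring
  rw [h5]
  refine (norm_add_le _ _).trans ?_
  linarith

end SkewBif
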