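import Pool.Agent.SK.A6
import Pool.Agent.SK.K1
/-! ## MP_9cfccf_an, module D8b -/
open Set Metric Filter Topology Polynomial
namespace SkewBif

/-- D8b. For `F'` near a fixed `F`, the rescaled words (fixed scale `ε ≠ 0`) are holomorphic and
uniformly close to those of `F`; same for the graph `γ`. -/
theorem near_words {d : ℕ} {ι J : Type} {A : AData d ι J} (hA : IsArena A) {F : Coef d}
    (hF : F ∈ A.Lam) {xc ε wb : ℂ} {K' ρ' : ℝ} (hε : ε ≠ 0)
    (hsub : ∀ v ∈ closedBall (0 : ℂ) K' ×ˢ closedBall wb ρ', (xc + ε * v.1, v.2) ∈ A.P)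
    (σ : ℕ → ι) (k : ℕ) {e : ℝ} (he : 0 < e) :
    ∀ᶠ F' in 𝓝 F, DifferentiableOn ℂ (sc xc ε (A.wd F' σ k)) (ball (0 : ℂ) K' ×ˢ ball wb ρ') ∧
      ∀ v ∈ closedBall (0 : ℂ) K' ×ˢ closedBall wb ρ',
        ‖(sc xc ε (A.wd F' σ k) v).1 - (sc xc ε (A.wd F σ k) v).1‖ ≤ e ∧
        ‖(sc xc ε (A.wd F' σ k) v).2 - (sc xc ε (A.wd F σ k) v).2‖ ≤ e := by
  have hLam : ∀ᶠ F' in 𝓝 F, F' ∈ A.Lam := hA.Lam_open.mem_nhds hF
  have hcont : ∀ F' ∈ A.Lam, ∀ v ∈ closedBall (0 : ℂ) K' ×ˢ closedBall wb ρ',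
      ContinuousAt (fun q : Coef d × X2 => sc xc ε (A.wd q.1 σ k) q.2) (F', v) := by
    intro F' hF' v hv
    have h1 := (hA.wd_smooth σ k hF' (hsub v hv)).continuousAt
    have h2 : ContinuousAt (fun q : Coef d × X2 =>
        ((q.1, (xc + ε * q.2.1, q.2.2)) : Coef d × X2)) (F', v) := by
      fun_prop
    have h3 : ContinuousAt (fun q : Coef d × X2 =>
        A.wd q.1 σ k (xc + ε * q.2.1, q.2.2)) (F', v) :=
      ContinuousAt.comp (f := fun q : Coef d × X2 =>
        ((q.1, (xc + ε * q.2.1, q.2.2)) : Coef d × X2))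
        (g := fun q : Coef d × X2 => A.wd q.1 σ k q.2) h1 h2
    unfold sc
    exact ((h3.fst.sub continuousAt_const).div_const ε).prodMk h3.snd
  have hclose : ∀ᶠ F' in 𝓝 F, ∀ v ∈ closedBall (0 : ℂ) K' ×ˢ closedBall wb ρ',
      ‖sc xc ε (A.wd F' σ k) v - sc xc ε (A.wd F σ k) v‖ < e := by
    apply IsCompact.eventually_forall_of_forall_eventually
      ((isCompact_closedBall (0 : ℂ) K').prod (isCompact_closedBall wb ρ'))
    intro v hv
    have h1 := hcont F hF v hv
    have h2 : ContinuousAt (fun q : Coef d × X2 => sc xc ε (A.wd F σ k) q.2) (F, v) := by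
      have h3 : ContinuousAt (fun q : Coef d × X2 => ((F, q.2) : Coef d × X2)) (F, v) := by
        fun_prop
      exact ContinuousAt.comp (f := fun q : Coef d × X2 => ((F, q.2) : Coef d × X2))
        (g := fun q : Coef d × X2 => sc xc ε (A.wd q.1 σ k) q.2) h1 h3
    have h3 := (h1.sub h2).norm
    have h4 : ‖sc xc ε (A.wd F σ k) v - sc xc ε (A.wd F σ k) v‖ < e := by
      rw [sub_self, norm_zero]
      exact he
    exact h3.eventually_lt_const h4
  filter_upwards [hLam, hclose] with F' hF' hc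
  refine ⟨?_, fun v hv => ?_⟩
  · rintro v ⟨hv1, hv2⟩
    have hv : v ∈ closedBall (0 : ℂ) K' ×ˢ closedBall wb ρ' :=
      ⟨ball_subset_closedBall hv1, ball_subset_closedBall hv2⟩
    have h1 := (hA.wd_smooth σ k hF' (hsub v hv)).differentiableAt one_ne_zero
    have h2 : DifferentiableAt ℂ (fun w : X2 =>
        ((F', (xc + ε * w.1, w.2)) : Coef d × X2)) v := by
      fun_prop
    have h3 : DifferentiableAt ℂ (fun w : X2 => A.wd F' σ k (xc + ε * w.1, w.2)) v :=
      DifferentiableAt.comp (f := fun w : X2 => ((F', (xc + ε * w.1, w.2)) : Coef d × X2))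
        (g := fun q : Coef d × X2 => A.wd q.1 σ k q.2) v h1 h2
    have h4 : DifferentiableAt ℂ (sc xc ε (A.wd F' σ k)) v := by
      unfold sc
      have h5 : DifferentiableAt ℂ (fun w : X2 =>
          ((A.wd F' σ k (xc + ε * w.1, w.2)).1 - xc) / ε) v := by
        simp only [div_eq_mul_inv]
        exact (h3.fst.sub_const xc).mul_const ε⁻¹
      exact h5.prodMk h3.snd
    exact h4.differentiableWithinAt
  · have h1 := hc v hv
    have h2 := norm_fst_le (sc xc ε (A.wd F' σ k) v - sc xc ε (A.wd F σ k) v)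
    have h3 := norm_snd_le (sc xc ε (A.wd F' σ k) v - sc xc ε (A.wd F σ k) v)
    rw [Prod.fst_sub] at h2
    rw [Prod.snd_sub] at h3
    exact ⟨by linarith, by linarith⟩

theorem near_gamma {d : ℕ} {ι J : Type} {A : AData d ι J} (hA : IsArena A) {F : Coef d}
    (hF : F ∈ A.Lam) (j : J) {e : ℝ} (he : 0 < e) :
    ∀ᶠ F' in 𝓝 F, ∀ t ∈ closedBall A.ws (A.ρt / 2), ‖A.γ j F' t - A.γ j F t‖ ≤ e ∧
      ∀ t' ∈ closedBall A.ws (A.ρt / 2),
        ‖(A.γ j F' t - A.γ j F t) - (A.γ j F' t' - A.γ j F t')‖ ≤ e * ‖t - t'‖ := by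
  have hρ := hA.ρt_pos
  have hLam : ∀ᶠ F' in 𝓝 F, F' ∈ A.Lam := hA.Lam_open.mem_nhds hF
  have he' : 0 < min e (e * (A.ρt / 2)) := lt_min he (by positivity)
  have hclose : ∀ᶠ F' in 𝓝 F, ∀ t ∈ closedBall A.ws A.ρt,
      ‖A.γ j F' t - A.γ j F t‖ < min e (e * (A.ρt / 2)) := by
    apply IsCompact.eventually_forall_of_forall_eventually (isCompact_closedBall A.ws A.ρt)
    intro t ht
    have h1 := (hA.γ_smooth j F hF t ht).continuousAt
    have h2 : ContinuousAt (fun q : Coef d × ℂ => A.γ j F q.2) (F, t) := by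
      have h3 : ContinuousAt (fun q : Coef d × ℂ => ((F, q.2) : Coef d × ℂ)) (F, t) := by
        fun_prop
      exact ContinuousAt.comp (f := fun q : Coef d × ℂ => ((F, q.2) : Coef d × ℂ))
        (g := fun q : Coef d × ℂ => A.γ j q.1 q.2) h1 h3
    have h3 := (h1.sub h2).norm
    have h4 : ‖A.γ j F t - A.γ j F t‖ < min e (e * (A.ρt / 2)) := by
      rw [sub_self, norm_zero]
      exact he'
    exact h3.eventually_lt_const h4
  have hdiff : ∀ F' ∈ A.Lam, DifferentiableOn ℂ (A.γ j F') (ball A.ws A.ρt) := by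
    intro F' hF' t ht
    have h1 := (hA.γ_smooth j F' hF' t (ball_subset_closedBall ht)).differentiableAt one_ne_zero
    have h2 : DifferentiableAt ℂ (fun s : ℂ => ((F', s) : Coef d × ℂ)) t := by
      fun_prop
    have h3 : DifferentiableAt ℂ (A.γ j F') t :=
      DifferentiableAt.comp (f := fun s : ℂ => ((F', s) : Coef d × ℂ))
        (g := fun q : Coef d × ℂ => A.γ j q.1 q.2) t h1 h2
    exact h3.differentiableWithinAt
  filter_upwards [hLam, hclose] with F' hF' hc
  intro t ht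
  have hsub : closedBall A.ws (A.ρt / 2) ⊆ closedBall A.ws A.ρt :=
    closedBall_subset_closedBall (by linarith)
  refine ⟨(hc t (hsub ht)).le.trans (min_le_left _ _), fun t' ht' => ?_⟩
  have h1 := lip_of_bound_one (b := A.ws) (r2 := A.ρt / 2) (s2 := A.ρt) (e := e * (A.ρt / 2))
    (by linarith) (g := fun s => A.γ j F' s - A.γ j F s)
    ((hdiff F' hF').sub (hdiff F hF))
    (fun v hv => (hc v (ball_subset_closedBall hv)).le.trans (min_le_right _ _)) t ht t' ht'
  have h2 : e * (A.ρt / 2) / (A.ρt - A.ρt / 2) = e := by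
    field_simp
    ring
  rw [h2] at h1
  exact h1

end SkewBif
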