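import Pool.Agent.SK.Arena
/-! ## MP_9cfccf_an, module D8w -/
open Set Metric Filter Topology Polynomial
namespace SkewBif

theorem word_sc {ι : Type} {xc ε : ℂ} (hε : ε ≠ 0) (g : ι → X2 → X2) (σ : ℕ → ι) (k : ℕ) (v : X2) :
    (xc + ε * (word (fun i => sc xc ε (g i)) σ k v).1, (word (fun i => sc xc ε (g i)) σ k v).2) =
      word g σ k (xc + ε * v.1, v.2) := by
  induction k generalizing v with
  | zero => rfl
  | succ k ih =>
    change (xc + ε * (word (fun i => sc xc ε (g i)) σ k (sc xc ε (g (σ k)) v)).1,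
      (word (fun i => sc xc ε (g i)) σ k (sc xc ε (g (σ k)) v)).2) =
      word g σ k (g (σ k) (xc + ε * v.1, v.2))
    rw [ih]
    congr 1
    unfold sc
    ext
    · simp only
      field_simp
      ring
    · rfl

end SkewBif
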