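import Pool.Agent.SK.C9
import Pool.Agent.SK.D5
import Pool.Agent.SK.D7
import Pool.Agent.SK.D8w
import Pool.Agent.SK.D8a
import Pool.Agent.SK.D8b
import Pool.Agent.SK.E5a
/-! ## MP_9cfccf_an, module D9 -/
open Set Metric Filter Topology Polynomial
namespace SkewBif

private theorem d9_word_add {ι X : Type} (g : ι → X → X) (σ : ℕ → ι) (m k : ℕ) (v : X) :
    word g σ (m + k) v = word g σ m (word g (fun j => σ (m + j)) k v) := by
  induction k generalizing v with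
  | zero => rfl
  | succ k ih => exact ih (g (σ (m + k)) v)

private theorem d9_word_congr {ι X : Type} (g : ι → X → X) {σ σ' : ℕ → ι} (k : ℕ)
    (h : ∀ j < k, σ j = σ' j) (v : X) : word g σ k v = word g σ' k v := by
  induction k generalizing v with
  | zero => rfl
  | succ k ih =>
    show word g σ k (g (σ k) v) = word g σ' k (g (σ' k) v)
    rw [h k (Nat.lt_succ_self k)]
    exact ih (fun j hj => h j (hj.trans (Nat.lt_succ_self k))) _

private theorem d9_word_comp {ι ι' X : Type} (g : ι → X → X) (f : ι' → ι) (σ : ℕ → ι') (k : ℕ)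
    (v : X) : word g (fun j => f (σ j)) k v = word (fun i => g (f i)) σ k v := by
  induction k generalizing v with
  | zero => rfl
  | succ k ih => exact ih (g (f (σ k)) v)

private theorem d9_deriv_ne {Q V : ℂ → ℂ} {w : ℂ} (hQ : DifferentiableAt ℂ Q (V w))
    (hV : DifferentiableAt ℂ V w) (h : ∀ᶠ z in 𝓝 w, Q (V z) = z) : deriv Q (V w) ≠ 0 := by
  intro h0
  have h1 : HasDerivAt (fun z => Q (V z)) (deriv Q (V w) * deriv V w) w :=
    hQ.hasDerivAt.comp w hV.hasDerivAt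
  have h2 : HasDerivAt (fun z => Q (V z)) 1 w := (hasDerivAt_id w).congr_of_eventuallyEq h
  have h3 := h1.unique h2
  rw [h0, zero_mul] at h3
  exact zero_ne_one h3

private theorem d9_shift_zero {d : ℕ} (b : Mon d → ℂ) : shift d b 0 = b := by
  funext m
  simp [shift]

private theorem d9_fib_diff {d : ℕ} (p : ℂ[X]) (b : Mon d → ℂ) (M : ℕ) (x : ℂ) :
    Differentiable ℂ (fib d p b 0 M x) := by
  have h1 := (fib_contDiff d p b M 1).differentiable one_ne_zero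
  have h2 : Differentiable ℂ (fun w : ℂ => ((((0 : ℂ), x, (0 : ℂ)), w) : (ℂ × ℂ × ℂ) × ℂ)) := by
    fun_prop
  have h3 := h1.comp h2
  have h4 : (fun q : (ℂ × ℂ × ℂ) × ℂ => fib d p (shift d b q.1.2.2) q.1.1 M q.1.2.1 q.2) ∘
      (fun w : ℂ => ((((0 : ℂ), x, (0 : ℂ)), w) : (ℂ × ℂ × ℂ) × ℂ)) = fib d p b 0 M x := by
    funext w
    show fib d p (shift d b 0) 0 M x w = fib d p b 0 M x w
    rw [d9_shift_zero]
  rwa [h4] at h3

private theorem d9_drift_diff {d : ℕ} (p : ℂ[X]) (b : Mon d → ℂ) (M : ℕ) (x : ℂ) :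
    Differentiable ℂ (drift d p b 0 M x) := by
  have h1 := (drift_contDiff d p b M 1).differentiable one_ne_zero
  have h2 : Differentiable ℂ (fun w : ℂ => ((((0 : ℂ), x, (0 : ℂ)), w) : (ℂ × ℂ × ℂ) × ℂ)) := by
    fun_prop
  have h3 := h1.comp h2
  have h4 : (fun q : (ℂ × ℂ × ℂ) × ℂ => drift d p (shift d b q.1.2.2) q.1.1 M q.1.2.1 q.2) ∘
      (fun w : ℂ => ((((0 : ℂ), x, (0 : ℂ)), w) : (ℂ × ℂ × ℂ) × ℂ)) = drift d p b 0 M x := by
    funext w
    show drift d p (shift d b 0) 0 M x w = drift d p b 0 M x w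
    rw [d9_shift_zero]
  rwa [h4] at h3

private theorem d9_fam_cont {d : ℕ} (p : ℂ[X]) (b : Mon d → ℂ) :
    Continuous (fun q : ℂ × ℂ => fam d p b q.1 q.2) := by
  obtain ⟨V1, V2, h⟩ := fam_affine (d := d) p b
  have h1 : (fun q : ℂ × ℂ => fam d p b q.1 q.2) =
      fun q : ℂ × ℂ => skew d p b + q.1 • V1 + q.2 • V2 := by
    funext q
    exact h q.1 q.2
  rw [h1]
  fun_prop

/-- the model of the letters: `scale` applied to a word of an arena -/
private theorem d9_scale {d : ℕ} {p : ℂ[X]} {b : Mon d → ℂ} {n N : ℕ} {x wb ws : ℂ}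
    {ρ' ρ3 R θ : ℝ} {q q' : ℕ} {u : ℂ → ℂ} {U : Fin q → ℂ → ℂ} {c : ℂ} {m2 : ℕ}
    {A : AData d (Option (Fin q)) (Fin (q' + 1))}
    (h : SkArena d p b n N x wb ws ρ3 R θ u U c m2 A) (hρ'3 : ρ' < ρ3) {xc : ℂ → ℂ}
    (hxc0 : xc 0 = x) (hxc : ContinuousAt xc 0)
    (hfix : ∀ᶠ τ in 𝓝 (0 : ℂ), (pt p τ)^[n] (xc τ) = xc τ) (σ : ℕ → Option (Fin q)) (k L : ℕ)
    (hL : ∑ i ∈ Finset.range k, A.Nb (σ i) = n * L) {V : ℂ → ℂ}
    (hV : DifferentiableOn ℂ V (ball wb ρ3))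
    (hVinv : ∀ w ∈ ball wb ρ3, fib d p b 0 (n * L) x (V w) = w)
    (hwd : ∀ w ∈ ball wb ρ3, A.wd (skew d p b) σ k (x, w) = (x, V w)) {K e : ℝ} (he : 0 < e) :
    ∃ δ > 0, ∀ ε τ : ℂ, ε ≠ 0 → ‖ε‖ < δ → ‖τ‖ < δ → ∀ v ∈ closedBall (0 : ℂ) K ×ˢ closedBall wb ρ',
      ‖(sc (xc τ) ε (A.wd (fam d p b ε τ) σ k) v).1 -
          (deriv ((pt p 0)^[n]) x)⁻¹ ^ L * (v.1 - drift d p b 0 (n * L) x (V v.2))‖ ≤ e ∧
        ‖(sc (xc τ) ε (A.wd (fam d p b ε τ) σ k) v).2 - V v.2‖ ≤ e := by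
  obtain ⟨rP, hrP, hP⟩ := h.hP
  have hlam : deriv ((pt p 0)^[n]) x ≠ 0 := by
    intro h0
    have h1 := h.hmul
    rw [h0, norm_zero] at h1
    linarith
  have hmp := mult_pow p 0 h.hx L
  have hsub : closedBall wb ρ' ⊆ ball wb ρ3 := closedBall_subset_ball hρ'3
  have hint : ∀ w ∈ ball wb ρ3, ((x, w) : X2) ∈ interior A.P := by
    intro w hw
    rw [hP]
    apply interior_mono (Set.prod_mono ball_subset_closedBall ball_subset_closedBall)
    rw [(isOpen_ball.prod isOpen_ball).interior_eq]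
    exact ⟨mem_ball_self hrP, hw⟩
  have hfib := d9_fib_diff (d := d) p b (n * L) x
  have hG : ∀ w ∈ closedBall wb ρ',
      ContDiffAt ℂ 1 (fun q : Coef d × X2 => A.wd q.1 σ k q.2) (skew d p b, (x, w)) ∧
      A.wd (skew d p b) σ k (x, w) = (x, V w) ∧
      ∀ᶠ q : Coef d × X2 in 𝓝 (skew d p b, ((x, w) : X2)),
        Good d (n * L) q.1 (A.wd q.1 σ k q.2) ∧ (T d q.1)^[n * L] (A.wd q.1 σ k q.2) = q.2 := by
    intro w hw
    refine ⟨h.arena.wd_smooth σ k h.mem (interior_subset (hint w (hsub hw))), hwd w (hsub hw), ?_⟩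
    have h1 : ∀ᶠ q : Coef d × X2 in 𝓝 (skew d p b, ((x, w) : X2)),
        q ∈ A.Lam ×ˢ interior A.P :=
      (h.arena.Lam_open.prod isOpen_interior).mem_nhds ⟨h.mem, hint w (hsub hw)⟩
    filter_upwards [h1] with q hq
    have h2 := h.arena.wd_inv hq.1 σ k (interior_subset hq.2)
    rw [hL] at h2
    exact h2
  obtain ⟨δ, hδ, hsc⟩ := scale (d := d) (by have := h.hd; omega) h.hp.le (M := n * L) hmp.1
    (by rw [hmp.2]; exact pow_ne_zero _ hlam) hxc0 hxc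
    (by filter_upwards [hfix] with τ hτ using (mult_pow p τ hτ L).1) (wb := wb) (ρ := ρ') (U := V)
    (fun w hw => ⟨hVinv w (hsub hw), d9_deriv_ne hfib.differentiableAt
      ((hV w (hsub hw)).differentiableAt (isOpen_ball.mem_nhds (hsub hw))) (by
        filter_upwards [isOpen_ball.mem_nhds (hsub hw)] with z hz using hVinv z hz)⟩)
    (G := fun F => A.wd F σ k) hG (K := K) he
  refine ⟨δ, hδ, fun ε τ hε0 hε hτ v hv => ?_⟩
  have h1 := hsc ε τ hε0 hε hτ v.1 hv.1 v.2 hv.2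
  rw [hmp.2, ← inv_pow] at h1
  exact h1

/-- points on the graph converge to a limit point on the graph -/
private theorem d9_limit {d : ℕ} {ι J : Type} {A : AData d ι J} (hA : IsArena A) {F : Coef d}
    (hF : F ∈ A.Lam) {σ : ℕ → ι} (m : ℕ)
    (hz : ∀ k, ∃ v ∈ A.P, (A.wd F σ (m + k) v).2 ∈ closedBall A.ws (A.ρt / 2) ∧
      (A.wd F σ (m + k) v).1 = A.γ A.j0 F (A.wd F σ (m + k) v).2) :
    ∃ e, IsLimPt (fun i => A.G i F) σ A.P e ∧ e.1 = A.γ A.j0 F e.2 := by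
  choose v hvP hv2 hv1 using hz
  obtain ⟨e, -, hlim, hbd⟩ := hA.exists_limPt ⟨v 0, hvP 0⟩ hF σ
  refine ⟨e, hlim, ?_⟩
  have hlim1 : Tendsto (fun k => A.wd F σ (m + k) (v k)) atTop (𝓝 e) := by
    rw [tendsto_iff_dist_tendsto_zero]
    have h1 : Tendsto (fun k : ℕ => A.Cc * A.θ ^ (m + k) * Metric.diam A.P) atTop (𝓝 0) := by
      have h2 := tendsto_pow_atTop_nhds_zero_of_lt_one hA.th0 hA.th1
      have h3 : Tendsto (fun k : ℕ => A.θ ^ (m + k)) atTop (𝓝 0) := by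
        have h4 := (tendsto_add_atTop_iff_nat m).2 h2
        simpa [add_comm] using h4
      have h5 := (h3.const_mul A.Cc).mul_const (Metric.diam A.P)
      simpa using h5
    exact squeeze_zero (fun _ => dist_nonneg) (fun k => hbd (m + k) (v k) (hvP k)) h1
  have h1 : Tendsto (fun k => (A.wd F σ (m + k) (v k)).1) atTop (𝓝 e.1) :=
    (continuous_fst.tendsto e).comp hlim1
  have h2 : Tendsto (fun k => (A.wd F σ (m + k) (v k)).2) atTop (𝓝 e.2) :=
    (continuous_snd.tendsto e).comp hlim1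
  have h3 : e.2 ∈ closedBall A.ws (A.ρt / 2) :=
    isClosed_closedBall.mem_of_tendsto h2 (Eventually.of_forall hv2)
  have h4 : e.2 ∈ closedBall A.ws A.ρt := by
    have := hA.ρt_pos
    exact closedBall_subset_closedBall (by linarith) h3
  have h5 : ContinuousAt (A.γ A.j0 F) e.2 := by
    have h6 := (hA.γ_smooth A.j0 F hF e.2 h4).continuousAt
    have h7 : ContinuousAt (fun s : ℂ => ((F, s) : Coef d × ℂ)) e.2 := by
      fun_prop
    exact ContinuousAt.comp (f := fun s : ℂ => ((F, s) : Coef d × ℂ))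
      (g := fun q : Coef d × ℂ => A.γ A.j0 q.1 q.2) h6 h7
  have h6 := h5.tendsto.comp h2
  have h7 : (fun k => (A.wd F σ (m + k) (v k)).1) =
      (A.γ A.j0 F) ∘ (fun k => (A.wd F σ (m + k) (v k)).2) := by
    funext k
    exact hv1 k
  rw [← h7] at h6
  exact tendsto_nhds_unique h1 h6

/-- D9. There is an open set of parameters `F`, arbitrarily close to the skew product, for which a
limit point of the function system is on the critical-value graph `γ j0`.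

Proof. `xc` from `exists_xc`. Apply D7 (`flatten`) with `lam = (p^[n])' x`, `S = drift n x`, `θ`, the function
`AL`, constant `C + 1` (`C` from D8a), `ρt := A.ρt/2`, `e = e0/4`, radii `ρ < ρ'`, giving `m0`; fix
`m ≥ max m0 A.M0` and let `e1` be the corresponding number. Choose `η` small, `(ε, τ)` from D8a
with `e1/2`; by D5 (`scale`, `K = K'`) applied to `A.G (some i)` (`M = n N`, section `U i`), to the word
`(A.G none)^m` (`M = n m`, section `u^[m]`), for small `(ε, τ)` the rescaled maps at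
`Fs = fam ε τ` are `e0/4`- resp. `e1/2`-close to the models (`mult_pow`, `drift_dsum`, `dsum_u`; `fib` derivatives at `U i w`, `u^[m] w` are nonzero as
`fib (U w) = w`). By D8b the same
holds for all `F` in a small ball around `Fs`, with `e0/2`, `e1`, and the rescaled `γ j0 F` is
`(C+1)`-Lipschitz and `e1`-close to `AL ws` at `ws`. For such `F`: D7 gives `φ` with
`‖φ - AL‖ ≤ e0/4`, Lipschitz `e0/4`, hence `e0/2`-close to `Ab`; the rescaled `G (some i) F` are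
`e0`-close to the neutral model (`hclose`), so `hBP` gives `σ' : ℕ → Fin q` and points `v_k`. Let `σ k = none` for `k < m`,
`σ (m + k) = some (σ' k)`. By `word_sc` the points `word (A.G · F) σ (m + k) (xc + ε v_k.1, v_k.2)` are on the
graph of `γ j0 F` over `closedBall ws (ρt/2)`; they tend to the limit point `e` (uniform
contraction `contr`), so `e.1 = γ j0 F e.2` by continuity. -/
theorem open_set {d : ℕ} {p : ℂ[X]} {b : Mon d → ℂ} {n N : ℕ} {x wb ws : ℂ}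
    {ρ ρ' ρ3 R θ K K' e0 : ℝ} {q q' : ℕ} {u : ℂ → ℂ} {U : Fin q → ℂ → ℂ} {c : ℂ} {m2 : ℕ}
    {A : AData d (Option (Fin q)) (Fin (q' + 1))}
    (h : SkArena d p b n N x wb ws ρ3 R θ u U c m2 A) (hρ : 0 < ρ) (hρρ' : ρ < ρ')
    (hρ'3 : ρ' < ρ3) (hws : ws ∈ ball wb ρ')
    (hθl : ‖deriv ((pt p 0)^[n]) x‖ * θ < 1)
    (humap : ∀ w ∈ ball wb ρ', u w ∈ ball wb ρ' ∧ ‖u w - ws‖ ≤ θ * ‖w - ws‖)
    {AL : ℂ → ℂ} (hAL : DifferentiableOn ℂ AL (ball wb ρ3))
    (hALeq : ∀ w ∈ ball wb ρ3, AL w = deriv ((pt p 0)^[n]) x * AL (u w) + drift d p b 0 n x (u w))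
    (hALb : ∀ w ∈ ball wb ρ', ‖AL w‖ + 3 / 2 < K')
    {lamb : ℂ} {Ub sb : Fin q → ℂ → ℂ} {Ab : ℂ → ℂ} (he0 : 0 < e0) (hK : 0 < K) (hKK' : K < K')
    (hBP : BlenderProp lamb wb N ρ ρ' K K' e0 Ub sb Ab)
    (hclose : ∀ i, ∀ v ∈ ball (0 : ℂ) K' ×ˢ ball wb ρ',
      ‖(deriv ((pt p 0)^[n]) x)⁻¹ ^ N * (v.1 - drift d p b 0 (n * N) x (U i v.2)) -
        lamb⁻¹ ^ N * (v.1 - sb i v.2)‖ ≤ e0 / 4 ∧ ‖U i v.2 - Ub i v.2‖ ≤ e0 / 4)
    (hcloseA : ∀ w ∈ closedBall wb ρ, ‖AL w - Ab w‖ ≤ e0 / 4 ∧ ∀ w' ∈ closedBall wb ρ,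
      ‖(AL w - Ab w) - (AL w' - Ab w')‖ ≤ e0 / 4 * ‖w - w'‖)
    {W : Set (Coef d)} (hW : IsOpen W) (hWmem : skew d p b ∈ W) :
    ∃ Fs ∈ W, ∃ δ > 0, ball Fs δ ⊆ W ∩ A.Lam ∧ ∀ F ∈ ball Fs δ, ∃ σ, A.Start σ ∧ ∃ e,
      IsLimPt (fun i => A.G i F) σ A.P e ∧ e.1 = A.γ A.j0 F e.2 := by
  have hA := h.arena
  obtain ⟨rP, hrP, hP⟩ := h.hP
  have hρt := hA.ρt_pos
  set lam := deriv ((pt p 0)^[n]) x with hlamdef
  have hlam0 : lam ≠ 0 := by
    intro h0
    have h1 := h.hmul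
    rw [← hlamdef, h0, norm_zero] at h1
    linarith
  have hlam1 : lam ≠ 1 := by
    intro h0
    have h1 := h.hmul
    rw [← hlamdef, h0, norm_one] at h1
    linarith
  have hρ'0 : 0 < ρ' := hρ.trans hρρ'
  have hρ3R := h.hρR
  have hb3R : ball wb ρ3 ⊆ ball wb R := ball_subset_ball hρ3R.le
  have hb'3 : ball wb ρ' ⊆ ball wb ρ3 := ball_subset_ball hρ'3.le
  obtain ⟨xc, hxc0, hxca, hfix, huniq⟩ := exists_xc h.hx hlam1
  obtain ⟨C, hC, htuned⟩ := tuned h hxc0 hxca hfix huniq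
  have hK'0 : 0 < K' := hK.trans hKK'
  -- D7
  obtain ⟨m0, hflat⟩ := flatten (lam := lam) (wb := wb) (ws := ws) (ρ := ρ) (ρ' := ρ') (θ := θ)
    (K' := K') (ρt := A.ρt / 2) (C := C + 1) (CA := K' - 3 / 2) (e := e0 / 4) (u := u)
    (S := drift d p b 0 n x) (A := AL) hlam0 hρ hρρ' (by linarith) (by linarith) (by linarith)
    (h.hu.mono (hb'3.trans hb3R)) (fun w hw => (humap w hw).1) h.hθ0 h.hθ hθl
    (fun w hw => (humap w hw).2) hws (hAL.mono hb'3) (fun w hw => by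
      have := hALb w hw
      linarith) (by linarith) ((d9_drift_diff p b n x).differentiableOn)
    (fun w hw => hALeq w (hb'3 hw))
  set m := max m0 A.M0 with hmdef
  obtain ⟨e1, he1, hH⟩ := hflat m (le_max_left _ _)
  -- `u` on `closedBall wb ρ3`
  have hu3 : ∀ w ∈ closedBall wb ρ3, u w ∈ ball wb ρ3 := by
    intro w hw
    have h1 := hA.G_maps none _ h.mem (x, w) (by
      rw [hP]
      exact ⟨mem_closedBall_self hrP.le, hw⟩)
    rw [h.G0 w hw, hP, interior_prod_eq, interior_closedBall _ h.hρ.ne'] at h1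
    exact h1.2
  have humd : ∀ k : ℕ, ∀ w ∈ ball wb ρ3, u^[k] w ∈ ball wb ρ3 ∧ DifferentiableAt ℂ u^[k] w ∧
      (fib d p b 0 n x)^[k] (u^[k] w) = w ∧
      A.wd (skew d p b) (fun _ => none) k (x, w) = (x, u^[k] w) := by
    intro k
    induction k with
    | zero => intro w hw; exact ⟨hw, differentiableAt_id, rfl, rfl⟩
    | succ k ih =>
      intro w hw
      obtain ⟨i1, i2, i3, i4⟩ := ih (u w) (hu3 w (ball_subset_closedBall hw))
      have h1 : DifferentiableAt ℂ u w :=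
        (h.hu w (hb3R hw)).differentiableAt (isOpen_ball.mem_nhds (hb3R hw))
      refine ⟨i1, i2.comp w h1, ?_, ?_⟩
      · rw [Function.iterate_succ_apply', Function.iterate_succ_apply, i3]
        exact h.huinv w (hb3R hw)
      · show A.wd (skew d p b) (fun _ => none) k (A.G none (skew d p b) (x, w)) = _
        rw [h.G0 w (ball_subset_closedBall hw), i4]
        rfl
  -- D5 for the word `none ^ m` and for the letters
  obtain ⟨δ0, hδ0, hsc0⟩ := d9_scale h hρ'3 hxc0 hxca.continuousAt hfix (fun _ => none) m m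
    (by simp [h.Nb0, mul_comm]) (V := u^[m])
    (fun w hw => (humd m w hw).2.1.differentiableWithinAt) (fun w hw => by
      rw [fib_iter p b 0 h.hx m]
      exact (humd m w hw).2.2.1) (fun w hw => (humd m w hw).2.2.2) (K := K') (e := e1 / 2)
    (by linarith)
  have hsc1 : ∀ i : Fin q, _ := fun i =>
    d9_scale h hρ'3 hxc0 hxca.continuousAt hfix (fun _ => some i) 1 N
    (by simp [h.Nb1]) (V := U i) ((h.hU i).mono hb3R) (fun w hw => h.hUinv i w (hb3R hw))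
    (fun w hw => h.G1 i w (ball_subset_closedBall hw)) (K := K') (e := e0 / 4) (by linarith)
  choose δ1 hδ1 hsc1 using hsc1
  -- the choice of `η`
  obtain ⟨δ2, hδ2, hδ21⟩ : ∃ δ2 > 0, ∀ i, δ2 < δ1 i := by
    have h1 : ∀ᶠ η : ℝ in 𝓝[>] 0, ∀ i, η < δ1 i :=
      eventually_all.2 (fun i => by
        filter_upwards [Ioo_mem_nhdsGT (hδ1 i)] with η hη using hη.2)
    obtain ⟨η, h2, h3⟩ := (h1.and self_mem_nhdsWithin).exists
    exact ⟨η, h3, h2⟩
  obtain ⟨δ3, hδ3, hδ31⟩ : ∃ δ3 > 0, ∀ ε τ : ℂ, ‖ε‖ < δ3 → ‖τ‖ < δ3 →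
      fam d p b ε τ ∈ W ∩ A.Lam := by
    have h1 : W ∩ A.Lam ∈ 𝓝 (fam d p b 0 0) := (hW.inter hA.Lam_open).mem_nhds ⟨hWmem, h.mem⟩
    have h2 := ((d9_fam_cont (d := d) p b).tendsto ((0 : ℂ), (0 : ℂ))) h1
    obtain ⟨δ3, hδ3, h3⟩ := Metric.mem_nhds_iff.1 h2
    refine ⟨δ3, hδ3, fun ε τ hε hτ => ?_⟩
    have h4 : ((ε, τ) : ℂ × ℂ) ∈ ball ((0 : ℂ), (0 : ℂ)) δ3 := by
      rw [mem_ball_iff_norm, Prod.mk_sub_mk, Prod.norm_mk, sub_zero, sub_zero]
      exact max_lt hε hτ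
    exact h3 h4
  obtain ⟨δ4, hδ4, hδ41⟩ : ∃ δ4 > 0, ∀ τ : ℂ, ‖τ‖ < δ4 → ‖xc τ - x‖ < rP / 2 := by
    obtain ⟨δ4, hδ4, h1⟩ := Metric.continuousAt_iff.1 hxca.continuousAt (rP / 2) (by positivity)
    refine ⟨δ4, hδ4, fun τ hτ => ?_⟩
    have h2 := h1 (x := τ) (by rwa [dist_zero_right])
    rwa [hxc0, dist_eq_norm] at h2
  set η := min δ0 (min δ2 (min δ3 (min δ4 (rP / 2 / K')))) with hηdef
  have hη : 0 < η := by positivity
  have hη0 : η ≤ δ0 := min_le_left _ _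
  have hη2 : η ≤ δ2 := (min_le_right _ _).trans (min_le_left _ _)
  have hη3 : η ≤ δ3 := (min_le_right _ _).trans ((min_le_right _ _).trans (min_le_left _ _))
  have hη4 : η ≤ δ4 := (min_le_right _ _).trans ((min_le_right _ _).trans
    ((min_le_right _ _).trans (min_le_left _ _)))
  have hη5 : η ≤ rP / 2 / K' := (min_le_right _ _).trans ((min_le_right _ _).trans
    ((min_le_right _ _).trans (min_le_right _ _)))
  obtain ⟨ε, τ, hε0, hε, hτ, hlip, hval⟩ := htuned (e1 / 2) (by linarith) η hη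
  have hFs : fam d p b ε τ ∈ W ∩ A.Lam := hδ31 ε τ (hε.trans_le hη3) (hτ.trans_le hη3)
  have hsub : ∀ v ∈ closedBall (0 : ℂ) K' ×ˢ closedBall wb ρ', (xc τ + ε * v.1, v.2) ∈ A.P := by
    rintro v ⟨hv1, hv2⟩
    rw [hP]
    refine ⟨?_, closedBall_subset_closedBall hρ'3.le hv2⟩
    rw [mem_closedBall_iff_norm]
    rw [mem_closedBall_zero_iff] at hv1
    have h1 := hδ41 τ (hτ.trans_le hη4)
    have h2 : ‖ε * v.1‖ ≤ rP / 2 := by
      rw [norm_mul]
      calc ‖ε‖ * ‖v.1‖ ≤ (rP / 2 / K') * K' :=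
            mul_le_mul (hε.le.trans hη5) hv1 (norm_nonneg _) (by positivity)
        _ = rP / 2 := by field_simp
    calc ‖xc τ + ε * v.1 - x‖ = ‖(xc τ - x) + ε * v.1‖ := by ring_nf
      _ ≤ ‖xc τ - x‖ + ‖ε * v.1‖ := norm_add_le _ _
      _ ≤ rP := by linarith
  have hεn : 0 < ‖ε‖ := norm_pos_iff.2 hε0
  -- the neighbourhood of `Fs`
  have hev0 := near_words hA hFs.2 hε0 hsub (fun _ => none) m (e := e1 / 2) (by linarith)
  have hev1 := eventually_all.2 (fun i : Fin q =>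
    near_words hA hFs.2 hε0 hsub (fun _ => some i) 1 (e := e0 / 4) (by linarith))
  have hev2 := near_gamma hA hFs.2 A.j0 (e := min ‖ε‖ (‖ε‖ * (e1 / 2))) (by positivity)
  have hev3 : ∀ᶠ F in 𝓝 (fam d p b ε τ), F ∈ W ∩ A.Lam :=
    (hW.inter hA.Lam_open).mem_nhds hFs
  obtain ⟨δ, hδ, hball⟩ := Metric.eventually_nhds_iff_ball.1
    (hev0.and (hev1.and (hev2.and hev3)))
  refine ⟨fam d p b ε τ, hFs.1, δ, hδ, fun F hF => (hball F hF).2.2.2, fun F hF => ?_⟩
  obtain ⟨⟨hd0, hc0⟩, hc1, hc2, hFW, hFL⟩ := hball F hF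
  have hs0 := hsc0 ε τ hε0 (hε.trans_le hη0) (hτ.trans_le hη0)
  have hs1 := fun i => hsc1 i ε τ hε0 ((hε.trans_le hη2).trans (hδ21 i))
    ((hτ.trans_le hη2).trans (hδ21 i))
  have hcl : ∀ v ∈ ball (0 : ℂ) K' ×ˢ ball wb ρ', v ∈ closedBall (0 : ℂ) K' ×ˢ closedBall wb ρ' :=
    fun v hv => ⟨ball_subset_closedBall hv.1, ball_subset_closedBall hv.2⟩
  have hwsb : ws ∈ closedBall ws (A.ρt / 2) := mem_closedBall_self (by linarith)
  rw [h.hws'] at hc2
  have hALws : drift d p b 0 n x ws / (1 - lam) = AL ws := by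
    have h1 := hALeq ws (hb'3 hws)
    rw [h.huws] at h1
    have h2 : (1 : ℂ) - lam ≠ 0 := sub_ne_zero.2 (Ne.symm hlam1)
    rw [div_eq_iff h2]
    linear_combination (-1 : ℂ) * h1
  obtain ⟨φ, hφ⟩ := hH (sc (xc τ) ε (A.wd F (fun _ => none) m)) hd0 (fun v hv => by
      have h1 := hc0 v (hcl v hv)
      have h2 := hs0 v (hcl v hv)
      rw [drift_dsum p b 0 h.hx m, dsum_u (D := ball wb ρ3)
        (fun w hw => hu3 w (ball_subset_closedBall hw)) (fun w hw => h.huinv w (hb3R hw)) m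
        (hb'3 hv.2)] at h2
      have h3 : ∀ a b c : ℂ, ∀ e : ℝ, ‖a - b‖ ≤ e / 2 → ‖b - c‖ ≤ e / 2 → ‖a - c‖ ≤ e := by
        intro a b c e hab hbc
        calc ‖a - c‖ = ‖(a - b) + (b - c)‖ := by ring_nf
          _ ≤ ‖a - b‖ + ‖b - c‖ := norm_add_le _ _
          _ ≤ e := by linarith
      exact ⟨h3 _ _ _ _ h1.1 h2.1, h3 _ _ _ _ h1.2 h2.2⟩)
    (fun t => (A.γ A.j0 F t - xc τ) / ε) (fun t ht t' ht' => by
      have h1 := hlip t ht t' ht'
      have h2 := (hc2 t ht).2 t' ht'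
      have h3 : (A.γ A.j0 F t - xc τ) / ε - (A.γ A.j0 F t' - xc τ) / ε =
          ((A.γ A.j0 (fam d p b ε τ) t - xc τ) / ε - (A.γ A.j0 (fam d p b ε τ) t' - xc τ) / ε) +
          ((A.γ A.j0 F t - A.γ A.j0 (fam d p b ε τ) t) -
            (A.γ A.j0 F t' - A.γ A.j0 (fam d p b ε τ) t')) / ε := by ring
      have h4 : ‖((A.γ A.j0 F t - A.γ A.j0 (fam d p b ε τ) t) -
            (A.γ A.j0 F t' - A.γ A.j0 (fam d p b ε τ) t')) / ε‖ ≤ ‖t - t'‖ := by
        rw [norm_div, div_le_iff₀ hεn]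
        calc _ ≤ _ := h2
          _ ≤ ‖ε‖ * ‖t - t'‖ := mul_le_mul_of_nonneg_right (min_le_left _ _) (norm_nonneg _)
          _ = ‖t - t'‖ * ‖ε‖ := mul_comm _ _
      show ‖(A.γ A.j0 F t - xc τ) / ε - (A.γ A.j0 F t' - xc τ) / ε‖ ≤ (C + 1) * ‖t - t'‖
      rw [h3]
      calc _ ≤ _ := norm_add_le _ _
        _ ≤ C * ‖t - t'‖ + ‖t - t'‖ := add_le_add h1 h4
        _ = (C + 1) * ‖t - t'‖ := by ring) (by
      have h1 := hval
      rw [hALws] at h1
      have h2 := (hc2 ws hwsb).1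
      have h3 : (A.γ A.j0 F ws - xc τ) / ε - AL ws =
          ((A.γ A.j0 (fam d p b ε τ) ws - xc τ) / ε - AL ws) +
          (A.γ A.j0 F ws - A.γ A.j0 (fam d p b ε τ) ws) / ε := by ring
      have h4 : ‖(A.γ A.j0 F ws - A.γ A.j0 (fam d p b ε τ) ws) / ε‖ ≤ e1 / 2 := by
        rw [norm_div, div_le_iff₀ hεn]
        calc _ ≤ _ := h2
          _ ≤ ‖ε‖ * (e1 / 2) := min_le_right _ _
          _ = e1 / 2 * ‖ε‖ := mul_comm _ _
      show ‖(A.γ A.j0 F ws - xc τ) / ε - AL ws‖ ≤ e1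
      rw [h3]
      calc _ ≤ _ := norm_add_le _ _
        _ ≤ e1 / 2 + e1 / 2 := add_le_add h1 h4
        _ = e1 := by ring)
  -- the blender
  obtain ⟨σ', hσ'⟩ := hBP (fun i => sc (xc τ) ε (A.wd F (fun _ => some i) 1))
    (fun i => (hc1 i).1) (fun i v hv => by
      have h1 := (hc1 i).2 v (hcl v hv)
      have h2 := hs1 i v (hcl v hv)
      have h3 := hclose i v hv
      have h4 : ∀ a b c e : ℂ, ‖a - b‖ ≤ e0 / 4 → ‖b - c‖ ≤ e0 / 4 → ‖c - e‖ ≤ e0 / 4 →
          ‖a - e‖ ≤ e0 := by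
        intro a b c e hab hbc hce
        calc ‖a - e‖ = ‖(a - b) + (b - c) + (c - e)‖ := by ring_nf
          _ ≤ ‖(a - b) + (b - c)‖ + ‖c - e‖ := norm_add_le _ _
          _ ≤ (‖a - b‖ + ‖b - c‖) + ‖c - e‖ := by
              have := norm_add_le (a - b) (b - c)
              linarith
          _ ≤ e0 := by linarith
      exact ⟨h4 _ _ _ _ h1.1 h2.1 h3.1, h4 _ _ _ _ h1.2 h2.2 h3.2⟩) φ (fun w hw => by
      have h1 := (hφ w hw).2.2.1
      have h2 := (hcloseA w hw).1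
      calc ‖φ w - Ab w‖ = ‖(φ w - AL w) + (AL w - Ab w)‖ := by ring_nf
        _ ≤ ‖φ w - AL w‖ + ‖AL w - Ab w‖ := norm_add_le _ _
        _ ≤ e0 := by linarith) (fun w hw w' hw' => by
      have h1 := (hφ w hw).2.2.2 w' hw'
      have h2 := (hcloseA w hw).2 w' hw'
      have h3 := norm_nonneg (w - w')
      calc ‖(φ w - Ab w) - (φ w' - Ab w')‖
          = ‖((φ w - AL w) - (φ w' - AL w')) + ((AL w - Ab w) - (AL w' - Ab w'))‖ := by ring_nf
        _ ≤ _ := norm_add_le _ _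
        _ ≤ e0 / 4 * ‖w - w'‖ + e0 / 4 * ‖w - w'‖ := add_le_add h1 h2
        _ ≤ e0 * ‖w - w'‖ := by nlinarith)
  -- the sequence of letters
  refine ⟨fun k => if k < m then none else some (σ' (k - m)), fun k hk => ?_, ?_⟩
  · have h1 : k < m := hk.trans_le (le_max_right _ _)
    show (if k < m then none else some (σ' (k - m))) = A.o
    rw [if_pos h1, h.ho]
  apply d9_limit hA hFL m
  intro k
  obtain ⟨v, hv, w, hw, hvw⟩ := hσ' k
  have hvP : (xc τ + ε * v.1, v.2) ∈ A.P :=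
    hsub v ⟨closedBall_subset_closedBall hKK'.le hv.1, closedBall_subset_closedBall hρρ'.le hv.2⟩
  refine ⟨_, hvP, ?_⟩
  have h1 : A.wd F (fun k => if k < m then none else some (σ' (k - m))) (m + k)
      (xc τ + ε * v.1, v.2) = A.wd F (fun _ => none) m (xc τ + ε * φ w, w) := by
    unfold AData.wd
    rw [d9_word_add, d9_word_congr _ (σ' := fun _ => none) m
      (fun j hj => by simp only [if_pos hj])]
    congr 1
    have h2 : (fun j => (fun k => if k < m then none else some (σ' (k - m))) (m + j)) =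
        fun j => some (σ' j) := by
      funext j
      have h3 : ¬ (m + j < m) := by omega
      have h4 : m + j - m = j := by omega
      show (if m + j < m then none else some (σ' (m + j - m))) = some (σ' j)
      rw [if_neg h3, h4]
    rw [h2, d9_word_comp (fun i => A.G i F) (fun i : Fin q => some i) σ' k,
      ← word_sc hε0]
    have h5 : word (fun i => sc (xc τ) ε (A.G (some i) F)) σ' k v = (φ w, w) := hvw
    rw [h5]
  have h2 := hφ w hw
  have h3 : sc (xc τ) ε (A.wd F (fun _ => none) m) (φ w, w) =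
      (((A.wd F (fun _ => none) m (xc τ + ε * φ w, w)).1 - xc τ) / ε,
        (A.wd F (fun _ => none) m (xc τ + ε * φ w, w)).2) := rfl
  rw [h3] at h2
  rw [h1, h.hws']
  refine ⟨h2.1, ?_⟩
  have h4 := h2.2.1
  have h5 : (A.wd F (fun _ => none) m (xc τ + ε * φ w, w)).1 - xc τ =
      A.γ A.j0 F (A.wd F (fun _ => none) m (xc τ + ε * φ w, w)).2 - xc τ := by
    have h6 := congrArg (fun z => z * ε) h4
    simp only [div_mul_cancel₀ _ hε0] at h6
    exact h6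
  exact sub_left_injective h5

end SkewBif
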