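import Mathlib

/-!
# Skew products and the bifurcation locus of P^2 (problem MP_9cfccf_an): definitions
-/

open Set Metric Filter Topology Polynomial

namespace SkewBif

/-- The phase space of the affine chart `y = 1`; a point is `(z, w)`. -/
abbrev X2 := ℂ × ℂ

/-- Monomials `x ^ i * y ^ (d - i - j) * t ^ j` of degree `d` in three variables,
indexed by the pair `(i, j)` with `i + j ≤ d`. -/
abbrev Mon (d : ℕ) := {m : Fin (d + 1) × Fin (d + 1) // (m.1 : ℕ) + (m.2 : ℕ) ≤ d}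

/-- Triples of homogeneous polynomials of degree `d` in `(x, y, t)` (coefficient space). -/
abbrev Coef (d : ℕ) := Fin 3 → Mon d → ℂ

/-- The homogeneous polynomial self-map of `ℂ³` with coefficients `F`. -/
noncomputable def ev (d : ℕ) (F : Coef d) (u : Fin 3 → ℂ) : Fin 3 → ℂ := fun k =>
  ∑ m : Mon d, F k m *
    (u 0 ^ (m.1.1 : ℕ) * u 1 ^ (d - (m.1.1 : ℕ) - (m.1.2 : ℕ)) * u 2 ^ (m.1.2 : ℕ))

/-- `F` is nondegenerate: it induces a holomorphic self-map of `P²` of algebraic degree `d`. -/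
def Nondeg (d : ℕ) (F : Coef d) : Prop := ∀ u : Fin 3 → ℂ, u ≠ 0 → ev d F u ≠ 0

/-- `u` is a point fixed by the `n`-th iterate of the lift, all eigenvalues of the derivative of
that iterate at `u` having modulus `> 1`. -/
def RepPer (d : ℕ) (F : Coef d) (n : ℕ) (u : Fin 3 → ℂ) : Prop :=
  (ev d F)^[n] u = u ∧ ∀ μ : ℂ,
    Module.End.HasEigenvalue (fderiv ℂ ((ev d F)^[n]) u : (Fin 3 → ℂ) →ₗ[ℂ] (Fin 3 → ℂ)) μ →
      1 < ‖μ‖

/-- Stability: all repelling periodic points move holomorphically near `F₀`. -/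
def Stab (d : ℕ) (F₀ : Coef d) : Prop :=
  ∃ B : Set (Coef d), IsOpen B ∧ F₀ ∈ B ∧ (∀ F ∈ B, Nondeg d F) ∧
    ∀ n : ℕ, 1 ≤ n → ∀ F₁ ∈ B, ∀ u₁ : Fin 3 → ℂ, u₁ ≠ 0 → RepPer d F₁ n u₁ →
      ∃ u : Coef d → (Fin 3 → ℂ), DifferentiableOn ℂ u B ∧ u F₁ = u₁ ∧
        ∀ F ∈ B, u F ≠ 0 ∧ RepPer d F n (u F)

/-- The bifurcation locus (in coefficient space). -/
def Bif (d : ℕ) : Set (Coef d) := {F | Nondeg d F ∧ ¬ Stab d F}

/-! ### Skew products -/

/-- Coefficients of the first component `p(z) + ε w + τ`. -/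
noncomputable def baseCoef (d : ℕ) (p : ℂ[X]) (ε τ : ℂ) : Mon d → ℂ := fun m =>
  (if (m.1.2 : ℕ) = 0 then p.coeff (m.1.1 : ℕ) else 0) +
    (if (m.1.1 : ℕ) = 0 ∧ (m.1.2 : ℕ) = 0 then τ else 0) +
    (if (m.1.1 : ℕ) = 0 ∧ (m.1.2 : ℕ) = 1 then ε else 0)

/-- The coefficient family `b + σ` (the constant monomial is shifted by `σ`). -/
noncomputable def shift (d : ℕ) (b : Mon d → ℂ) (σ : ℂ) : Mon d → ℂ := fun m =>
  b m + (if (m.1.1 : ℕ) = 0 ∧ (m.1.2 : ℕ) = 0 then σ else 0)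

/-- The perturbed skew product `[p^h(x,y) + ε t y^(d-1) + τ y^d : y^d : q^h(x,t;y)]`. -/
noncomputable def fam (d : ℕ) (p : ℂ[X]) (b : Mon d → ℂ) (ε τ : ℂ) : Coef d :=
  ![baseCoef d p ε τ, fun m => if (m.1.1 : ℕ) = 0 ∧ (m.1.2 : ℕ) = 0 then 1 else 0, b]

/-- The skew product `[p^h(x,y) : y^d : q^h(x,t;y)]`, that is `(z, w) ↦ (p(z), q(z, w))`. -/
noncomputable def skew (d : ℕ) (p : ℂ[X]) (b : Mon d → ℂ) : Coef d := fam d p b 0 0

/-- `q(z, w) = ∑ b_{ij} z^i w^j`. -/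
noncomputable def qv (d : ℕ) (b : Mon d → ℂ) (z w : ℂ) : ℂ :=
  ∑ m : Mon d, b m * (z ^ (m.1.1 : ℕ) * w ^ (m.1.2 : ℕ))

/-- The coefficient of `w ^ d` in `q`. -/
noncomputable def topCoef (d : ℕ) (b : Mon d → ℂ) : ℂ :=
  b ⟨((0 : Fin (d + 1)), Fin.last d), by simp⟩

/-- The one-dimensional family `z ↦ p(z) + τ`. -/
noncomputable def pt (p : ℂ[X]) (τ : ℂ) : ℂ → ℂ := fun z => p.eval z + τ

/-- The skew product `(z, w) ↦ (p(z) + τ, q(z, w))` as a self-map of the chart. -/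
noncomputable def sk (d : ℕ) (p : ℂ[X]) (b : Mon d → ℂ) (τ : ℂ) : X2 → X2 :=
  fun v => (p.eval v.1 + τ, qv d b v.1 v.2)

/-- Fiber composition of length `M` over the base point `z`. -/
noncomputable def fib (d : ℕ) (p : ℂ[X]) (b : Mon d → ℂ) (τ : ℂ) (M : ℕ) (z w : ℂ) : ℂ :=
  ((sk d p b τ)^[M] (z, w)).2

/-- The first order drift of the first coordinate along `M` steps, for the perturbation
`(p(z) + τ + ε w, q(z, w))`. -/
noncomputable def drift (d : ℕ) (p : ℂ[X]) (b : Mon d → ℂ) (τ : ℂ) (M : ℕ) (z w : ℂ) : ℂ :=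
  ∑ j ∈ Finset.range M,
    (∏ i ∈ Finset.Ico (j + 1) M, p.derivative.eval ((pt p τ)^[i] z)) * fib d p b τ j z w

/-! ### The chart map and inverse branches -/

/-- The lift of a point of the chart. -/
def lift (v : X2) : Fin 3 → ℂ := ![v.1, 1, v.2]

/-- The chart coordinates of a point of `ℂ³` (with second coordinate nonzero). -/
noncomputable def chart (u : Fin 3 → ℂ) : X2 := (u 0 / u 1, u 2 / u 1)

/-- The map induced by `F` in the chart `y = 1`. -/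
noncomputable def T (d : ℕ) (F : Coef d) (v : X2) : X2 := chart (ev d F (lift v))

/-- The first `N` points of the orbit of `v` are mapped into the chart. -/
def Good (d N : ℕ) (F : Coef d) (v : X2) : Prop :=
  ∀ j < N, ev d F (lift ((T d F)^[j] v)) 1 ≠ 0

/-- `word g σ k = g (σ 0) ∘ g (σ 1) ∘ ... ∘ g (σ (k - 1))`. -/
def word {ι : Type} {X : Type} (g : ι → X → X) (σ : ℕ → ι) : ℕ → X → X
  | 0 => id
  | (k + 1) => fun v => word g σ k (g (σ k) v)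

/-! ### Definitions used by single parts -/

/-- `Q` is exceptional at `a`: `Q(X) = a + c (X - a) ^ deg Q`. -/
def ExcAt (Q : ℂ[X]) (a : ℂ) : Prop := ∃ c : ℂ, Q = C a + C c * (X - C a) ^ Q.natDegree

/-- Nonautonomous composition: `nac q σ n = (q (n-1) + σ) ∘ ... ∘ (q 0 + σ)`. -/
noncomputable def nac (q : ℕ → ℂ[X]) (σ : ℂ) : ℕ → ℂ → ℂ
  | 0 => id
  | (n + 1) => fun w => (q n).eval (nac q σ n w) + σ

/-- The output of B7: near a neutral periodic point `xb` (multiplier `≠ 1`) the family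
`p + τ` is parametrised by `s`, with a periodic point `x s` of multiplier `exp s`. -/
structure LogParam (p : ℂ[X]) (n : ℕ) (s0 : ℂ) (η : ℝ) (τ x : ℂ → ℂ) : Prop where
  re0 : s0.re = 0
  pos : 0 < η
  hτ : DifferentiableOn ℂ τ (ball s0 η)
  hx : DifferentiableOn ℂ x (ball s0 η)
  inj : InjOn τ (ball s0 η)
  fix : ∀ s ∈ ball s0 η, (pt p (τ s))^[n] (x s) = x s
  mul : ∀ s ∈ ball s0 η, deriv ((pt p (τ s))^[n]) (x s) = Complex.exp s
  ne1 : ∀ s ∈ ball s0 η, Complex.exp s ≠ 1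

/-- The one-dimensional bifurcation locus: `p` is a limit of polynomials of the same degree having a
periodic point with multiplier of modulus `1` and `≠ 1`. -/
def BifBase (p : ℂ[X]) : Prop :=
  ∀ δ > 0, ∃ p' : ℂ[X], p'.natDegree = p.natDegree ∧ (∀ i, ‖p'.coeff i - p.coeff i‖ < δ) ∧
    ∃ n ≥ 1, ∃ x : ℂ, (fun z => p'.eval z)^[n] x = x ∧
      ‖deriv ((fun z => p'.eval z)^[n]) x‖ = 1 ∧ deriv ((fun z => p'.eval z)^[n]) x ≠ 1

/-- The fiber polynomial over the base point `z`. -/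
noncomputable def qpoly (d : ℕ) (b : Mon d → ℂ) (z : ℂ) : ℂ[X] :=
  ∑ m : Mon d, C (b m * z ^ (m.1.1 : ℕ)) * X ^ (m.1.2 : ℕ)

/-- Local data at a repelling fixed point `wb` of `Q`: the inverse branch `u` and the function `A`
solving `A = lam * A ∘ u + S ∘ u`. -/
structure FibLin (Q S : ℂ → ℂ) (lam wb : ℂ) (R θ : ℝ) (u A : ℂ → ℂ) : Prop where
  Rpos : 0 < R
  th0 : 0 ≤ θ
  th1 : θ < 1
  u_diff : DifferentiableOn ℂ u (ball wb R)
  u_fix : u wb = wb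
  u_der : ∀ w ∈ ball wb R, ‖deriv u w‖ ≤ θ
  u_inv : ∀ w ∈ ball wb R, Q (u w) = w
  A_diff : DifferentiableOn ℂ A (ball wb R)
  A_eq : ∀ w ∈ ball wb R, A w = lam * A (u w) + S (u w)

/-- Partial sums of the drift along `N` steps: `∑_{k<N} lam^(N-1-k) S (Q^[k] w)`. -/
noncomputable def dsum (Q S : ℂ → ℂ) (lam : ℂ) (N : ℕ) (w : ℂ) : ℂ :=
  ∑ k ∈ Finset.range N, lam ^ (N - 1 - k) * S (Q^[k] w)

/-- The blender property of a finite family of model maps `(ζ, w) ↦ (lam^(-N) (ζ - s i w), U i w)`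
with respect to graphs close to the graph of `A`. -/
def BlenderProp {ι : Type} (lam wb : ℂ) (N : ℕ) (ρ ρ' K K' e0 : ℝ) (U s : ι → ℂ → ℂ)
    (A : ℂ → ℂ) : Prop :=
  ∀ G : ι → X2 → X2,
    (∀ i, DifferentiableOn ℂ (G i) (ball (0 : ℂ) K' ×ˢ ball wb ρ')) →
    (∀ i, ∀ v ∈ ball (0 : ℂ) K' ×ˢ ball wb ρ',
      ‖(G i v).1 - lam⁻¹ ^ N * (v.1 - s i v.2)‖ ≤ e0 ∧ ‖(G i v).2 - U i v.2‖ ≤ e0) →
    ∀ φ : ℂ → ℂ, (∀ w ∈ closedBall wb ρ, ‖φ w - A w‖ ≤ e0) →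
      (∀ w ∈ closedBall wb ρ, ∀ w' ∈ closedBall wb ρ,
        ‖(φ w - A w) - (φ w' - A w')‖ ≤ e0 * ‖w - w'‖) →
      ∃ σ : ℕ → ι, ∀ k, ∃ v ∈ closedBall (0 : ℂ) K ×ˢ closedBall wb ρ,
        ∃ w ∈ closedBall wb ρ, word G σ k v = (φ w, w)

/-- Rescaling of a self-map of the chart: conjugation by `(ζ, w) ↦ (xc + ε ζ, w)`. -/
noncomputable def sc (xc ε : ℂ) (g : X2 → X2) (v : X2) : X2 :=
  (((g (xc + ε * v.1, v.2)).1 - xc) / ε, (g (xc + ε * v.1, v.2)).2)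

end SkewBif
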