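import Pool.Agent.SK.Defs
/-! ## MP_9cfccf_an, module E1a -/
open Set Metric Filter Topology Polynomial
namespace SkewBif

theorem E1a_lift_contDiff (n : WithTop ℕ∞) : ContDiff ℂ n lift := by
  rw [contDiff_pi]
  intro k
  fin_cases k
  · exact contDiff_fst
  · exact contDiff_const
  · exact contDiff_snd

theorem E1a_ev_contDiff (d : ℕ) (n : WithTop ℕ∞) :
    ContDiff ℂ n (fun q : Coef d × (Fin 3 → ℂ) => ev d q.1 q.2) := by
  rw [contDiff_pi]
  intro k
  have hu : ∀ i : Fin 3, ContDiff ℂ n (fun q : Coef d × (Fin 3 → ℂ) => q.2 i) := fun i =>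
    (contDiff_apply ℂ ℂ i).comp contDiff_snd
  have hF : ∀ m : Mon d, ContDiff ℂ n (fun q : Coef d × (Fin 3 → ℂ) => q.1 k m) := fun m =>
    ((contDiff_apply ℂ ℂ m).comp (contDiff_apply ℂ (Mon d → ℂ) k)).comp contDiff_fst
  unfold ev
  refine ContDiff.sum fun m _ => ?_
  exact (hF m).mul ((((hu 0).pow _).mul ((hu 1).pow _)).mul ((hu 2).pow _))

theorem E1a_evl_contDiff (d : ℕ) (n : WithTop ℕ∞) (k : Fin 3) :
    ContDiff ℂ n (fun q : Coef d × X2 => ev d q.1 (lift q.2) k) := by
  have h1 : ContDiff ℂ n (fun q : Coef d × X2 => (q.1, lift q.2)) :=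
    contDiff_fst.prodMk ((E1a_lift_contDiff n).comp contDiff_snd)
  exact (contDiff_apply ℂ ℂ k).comp ((E1a_ev_contDiff d n).comp h1)

theorem T_contDiffAt {d : ℕ} {F : Coef d} {v : X2} (h : ev d F (lift v) 1 ≠ 0)
    (n : WithTop ℕ∞) : ContDiffAt ℂ n (fun q : Coef d × X2 => T d q.1 q.2) (F, v) := by
  unfold T chart
  exact ContDiffAt.prodMk
    ((E1a_evl_contDiff d n 0).contDiffAt.div (E1a_evl_contDiff d n 1).contDiffAt h)
    ((E1a_evl_contDiff d n 2).contDiffAt.div (E1a_evl_contDiff d n 1).contDiffAt h)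

theorem E1a_good_succ {d N : ℕ} {F : Coef d} {v : X2} :
    Good d (N + 1) F v ↔ Good d N F v ∧ ev d F (lift ((T d F)^[N] v)) 1 ≠ 0 := by
  unfold Good
  constructor
  · intro h
    exact ⟨fun j hj => h j (by omega), h N (by omega)⟩
  · rintro ⟨h1, h2⟩ j hj
    rcases Nat.lt_succ_iff_lt_or_eq.1 hj with h | rfl
    · exact h1 j h
    · exact h2

theorem iter_contDiffAt {d N : ℕ} {F : Coef d} {v : X2} (h : Good d N F v) (n : WithTop ℕ∞) :
    ContDiffAt ℂ n (fun q : Coef d × X2 => (T d q.1)^[N] q.2) (F, v) := by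
  induction N with
  | zero => exact contDiff_snd.contDiffAt
  | succ N ih =>
    obtain ⟨h1, h2⟩ := E1a_good_succ.1 h
    have h3 := ih h1
    have h4 : ContDiffAt ℂ n (fun q : Coef d × X2 => (q.1, (T d q.1)^[N] q.2)) (F, v) :=
      contDiff_fst.contDiffAt.prodMk h3
    have h5 := T_contDiffAt h2 n
    have h6 := ContDiffAt.comp (F, v) (f := fun q : Coef d × X2 => (q.1, (T d q.1)^[N] q.2))
      (g := fun q : Coef d × X2 => T d q.1 q.2) h5 h4
    refine h6.congr_of_eventuallyEq (Filter.Eventually.of_forall fun q => ?_)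
    simp only [Function.iterate_succ_apply', Function.comp_apply]

theorem good_open (d N : ℕ) : IsOpen {q : Coef d × X2 | Good d N q.1 q.2} := by
  induction N with
  | zero =>
    have : {q : Coef d × X2 | Good d 0 q.1 q.2} = Set.univ := by
      ext q
      simp [Good]
    rw [this]
    exact isOpen_univ
  | succ N ih =>
    rw [isOpen_iff_eventually] at ih ⊢
    rintro ⟨F, v⟩ hq
    obtain ⟨h1, h2⟩ := E1a_good_succ.1 hq
    have h3 := ih (F, v) h1
    have h4 : ContinuousAt
        (fun q : Coef d × X2 => ev d q.1 (lift ((T d q.1)^[N] q.2)) 1) (F, v) := by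
      have h5 : ContDiffAt ℂ 0 (fun q : Coef d × X2 => (q.1, (T d q.1)^[N] q.2)) (F, v) :=
        contDiff_fst.contDiffAt.prodMk (iter_contDiffAt h1 0)
      exact ContinuousAt.comp (f := fun q : Coef d × X2 => (q.1, (T d q.1)^[N] q.2))
        (g := fun q : Coef d × X2 => ev d q.1 (lift q.2) 1)
        (E1a_evl_contDiff d 0 1).continuous.continuousAt h5.continuousAt
    have h6 := h4.eventually_ne h2
    filter_upwards [h3, h6] with q hq1 hq2
    exact E1a_good_succ.2 ⟨hq1, hq2⟩

theorem good_add {d M N : ℕ} {F : Coef d} {v : X2} :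
    Good d (M + N) F v ↔ Good d M F v ∧ Good d N F ((T d F)^[M] v) := by
  unfold Good
  constructor
  · intro h
    refine ⟨fun j hj => h j (by omega), fun j hj => ?_⟩
    rw [← Function.iterate_add_apply, add_comm j M]
    exact h (M + j) (by omega)
  · rintro ⟨h1, h2⟩ j hj
    rcases Nat.lt_or_ge j M with h | h
    · exact h1 j h
    · obtain ⟨i, rfl⟩ := Nat.exists_eq_add_of_le h
      have := h2 i (by omega)
      rw [← Function.iterate_add_apply, add_comm i M] at this
      exact this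

end SkewBif
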