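import Pool.Agent.SK.C1b
import Pool.Agent.SK.E1a
/-! ## MP_9cfccf_an, module E1 -/
open Set Metric Filter Topology Polynomial
namespace SkewBif

private lemma E1_sum_single {d : ℕ} (m0 : Mon d) (f : Mon d → ℂ) (h : ∀ m, m ≠ m0 → f m = 0) :
    ∑ m : Mon d, f m = f m0 :=
  Finset.sum_eq_single m0 (fun m _ hm => h m hm) (fun hm => absurd (Finset.mem_univ _) hm)

private lemma E1_ext {d : ℕ} {m m' : Mon d} (h1 : (m.1.1 : ℕ) = m'.1.1) (h2 : (m.1.2 : ℕ) = m'.1.2) :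
    m = m' := by
  apply Subtype.ext
  apply Prod.ext
  · exact Fin.ext h1
  · exact Fin.ext h2

private lemma E1_one {d : ℕ} (g : Mon d → ℂ) (i j : ℕ) (hij : i + j ≤ d) (x : ℂ) :
    ∑ m : Mon d, (if (m.1.1 : ℕ) = i ∧ (m.1.2 : ℕ) = j then x else 0) * g m =
      x * g ⟨(⟨i, by omega⟩, ⟨j, by omega⟩), hij⟩ := by
  rw [E1_sum_single (⟨(⟨i, by omega⟩, ⟨j, by omega⟩), hij⟩ : Mon d)]
  · simp
  · intro m hm
    rw [if_neg, zero_mul]
    rintro ⟨h1, h2⟩
    exact hm (E1_ext h1 h2)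

private lemma E1_poly {d : ℕ} {p : ℂ[X]} (g : Mon d → ℂ) :
    ∑ m : Mon d, (if (m.1.2 : ℕ) = 0 then p.coeff (m.1.1 : ℕ) else 0) * g m =
      ∑ i : Fin (d + 1), p.coeff (i : ℕ) * g ⟨(i, 0), by have := i.2; simp; omega⟩ := by
  symm
  apply Fintype.sum_of_injective (fun i : Fin (d + 1) =>
    (⟨(i, 0), by have := i.2; simp; omega⟩ : Mon d))
  · intro i i' h
    simp only [Subtype.mk.injEq, Prod.mk.injEq, and_true] at h
    exact h
  · intro m hm
    rw [if_neg, zero_mul]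
    intro h
    apply hm
    refine ⟨m.1.1, E1_ext rfl ?_⟩
    simp [h]
  · intro i
    simp

private lemma E1_base {d : ℕ} (hd : 1 ≤ d) (p : ℂ[X]) (ε τ : ℂ) (g : Mon d → ℂ) :
    ∑ m : Mon d, baseCoef d p ε τ m * g m =
      ∑ i : Fin (d + 1), p.coeff (i : ℕ) * g ⟨(i, 0), by have := i.2; simp; omega⟩ +
        τ * g ⟨(⟨0, by omega⟩, ⟨0, by omega⟩), by simp⟩ +
        ε * g ⟨(⟨0, by omega⟩, ⟨1, by omega⟩), by simpa using hd⟩ := by
  rw [← E1_poly, ← E1_one g 0 0 (by omega) τ, ← E1_one g 0 1 (by omega) ε,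
    ← Finset.sum_add_distrib, ← Finset.sum_add_distrib]
  apply Finset.sum_congr rfl
  intro m _
  unfold baseCoef
  ring

private lemma E1_homog {d : ℕ} (F : Coef d) (c : ℂ) (u : Fin 3 → ℂ) :
    ev d F (c • u) = c ^ d • ev d F u := by
  funext k
  simp only [ev, Pi.smul_apply, smul_eq_mul, Finset.mul_sum]
  apply Finset.sum_congr rfl
  intro m _
  have hm := m.2
  have e : c ^ d = c ^ (m.1.1 : ℕ) * c ^ (d - (m.1.1 : ℕ) - (m.1.2 : ℕ)) * c ^ (m.1.2 : ℕ) := by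
    rw [← pow_add, ← pow_add]
    congr 1
    omega
  rw [e, mul_pow, mul_pow, mul_pow]
  ring

private lemma E1_ev_cont {d : ℕ} : Continuous (fun q : Coef d × (Fin 3 → ℂ) => ev d q.1 q.2) := by
  unfold ev
  fun_prop

private lemma E1_sk_diff (d : ℕ) (p : ℂ[X]) (b : Mon d → ℂ) (τ : ℂ) :
    Differentiable ℂ (sk d p b τ) := by
  have h1 : Differentiable ℂ (fun v : X2 => p.eval v.1) := p.differentiable.comp differentiable_fst
  unfold sk qv
  exact (h1.add_const τ).prodMk (by fun_prop)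


/-- The chart map of the family `fam`. -/
theorem ev_fam {d : ℕ} (hd : 1 ≤ d) {p : ℂ[X]} (hp : p.natDegree ≤ d) (b : Mon d → ℂ)
    (ε τ : ℂ) (v : X2) :
    ev d (fam d p b ε τ) (lift v) 1 = 1 ∧
      T d (fam d p b ε τ) v = (p.eval v.1 + τ + ε * v.2, qv d b v.1 v.2) := by
  have h1 : ev d (fam d p b ε τ) (lift v) 1 = 1 := by
    have h := E1_one (d := d) (fun m => lift v 0 ^ (m.1.1 : ℕ) *
      lift v 1 ^ (d - (m.1.1 : ℕ) - (m.1.2 : ℕ)) * lift v 2 ^ (m.1.2 : ℕ)) 0 0 (by omega) 1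
    refine Eq.trans ?_ (h.trans ?_)
    · simp [ev, fam]
    · simp [lift]
  have h0 : ev d (fam d p b ε τ) (lift v) 0 = p.eval v.1 + τ + ε * v.2 := by
    have h := E1_base hd p ε τ (fun m => lift v 0 ^ (m.1.1 : ℕ) *
      lift v 1 ^ (d - (m.1.1 : ℕ) - (m.1.2 : ℕ)) * lift v 2 ^ (m.1.2 : ℕ))
    refine Eq.trans ?_ (h.trans ?_)
    · simp [ev, fam]
    · rw [Polynomial.eval_eq_sum_range' (Nat.lt_succ_of_le hp), Finset.sum_range]
      simp [lift]
  have h2 : ev d (fam d p b ε τ) (lift v) 2 = qv d b v.1 v.2 := by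
    simp [ev, fam, qv, lift]
  refine ⟨h1, ?_⟩
  unfold T chart
  rw [h0, h1, h2, div_one, div_one]

theorem T_skew {d : ℕ} (hd : 1 ≤ d) {p : ℂ[X]} (hp : p.natDegree ≤ d) (b : Mon d → ℂ)
    (τ : ℂ) : T d (fam d p b 0 τ) = sk d p b τ := by
  funext v
  rw [(ev_fam hd hp b 0 τ v).2]
  simp [sk]

theorem good_fam {d : ℕ} (hd : 1 ≤ d) {p : ℂ[X]} (hp : p.natDegree ≤ d) (b : Mon d → ℂ)
    (ε τ : ℂ) (N : ℕ) (v : X2) : Good d N (fam d p b ε τ) v := by
  intro j _
  rw [(ev_fam hd hp b ε τ _).1]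
  exact one_ne_zero

theorem T_skew_iter {d : ℕ} (hd : 1 ≤ d) {p : ℂ[X]} (hp : p.natDegree ≤ d) (b : Mon d → ℂ)
    (τ : ℂ) (N : ℕ) (z w : ℂ) :
    (T d (fam d p b 0 τ))^[N] (z, w) = ((pt p τ)^[N] z, fib d p b τ N z w) := by
  rw [T_skew hd hp b τ]
  exact Prod.ext (sk_iter_fst d p b τ N (z, w)) rfl

/-- The family is affine in `(ε, τ)`; in particular it is continuous. -/
theorem fam_affine {d : ℕ} (p : ℂ[X]) (b : Mon d → ℂ) :
    ∃ V1 V2 : Coef d, ∀ ε τ : ℂ, fam d p b ε τ = skew d p b + ε • V1 + τ • V2 := by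
  refine ⟨![fun m => if (m.1.1 : ℕ) = 0 ∧ (m.1.2 : ℕ) = 1 then 1 else 0, 0, 0],
    ![fun m => if (m.1.1 : ℕ) = 0 ∧ (m.1.2 : ℕ) = 0 then 1 else 0, 0, 0], ?_⟩
  intro ε τ
  funext k m
  fin_cases k
  · simp [skew, fam, baseCoef]
    ring
  · simp [skew, fam]
  · simp [skew, fam]

theorem nondeg_skew {d : ℕ} (hd : 1 ≤ d) {p : ℂ[X]} (hp : p.natDegree = d) {b : Mon d → ℂ}
    (hb : topCoef d b ≠ 0) : Nondeg d (skew d p b) := by
  intro u hu h
  have hd0 : d ≠ 0 := by omega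
  have g1 : u 1 = 0 := by
    have h1 : ev d (skew d p b) u 1 = 0 := by rw [h]; rfl
    have h' := E1_one (d := d) (fun m => u 0 ^ (m.1.1 : ℕ) *
      u 1 ^ (d - (m.1.1 : ℕ) - (m.1.2 : ℕ)) * u 2 ^ (m.1.2 : ℕ)) 0 0 (by omega) 1
    have h2 : ev d (skew d p b) u 1 = u 1 ^ d := by
      refine Eq.trans ?_ (h'.trans ?_)
      · simp [ev, fam, skew]
      · simp
    rw [h2] at h1
    exact pow_eq_zero_iff hd0 |>.1 h1
  have g0 : u 0 = 0 := by
    have h1 : ev d (skew d p b) u 0 = 0 := by rw [h]; rfl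
    have h' := E1_base hd p 0 0 (fun m => u 0 ^ (m.1.1 : ℕ) *
      u 1 ^ (d - (m.1.1 : ℕ) - (m.1.2 : ℕ)) * u 2 ^ (m.1.2 : ℕ))
    have h2 : ev d (skew d p b) u 0 = p.coeff d * u 0 ^ d := by
      refine Eq.trans ?_ (h'.trans ?_)
      · simp [ev, fam, skew]
      · simp only [zero_mul, add_zero]
        rw [Finset.sum_eq_single (Fin.last d)]
        · simp [g1]
        · intro i _ hi
          have hi' : (i : ℕ) < d := by
            have := i.2
            have h3 : (i : ℕ) ≠ d := fun h4 => hi (Fin.ext (by simpa using h4))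
            omega
          have h5 : d - (i : ℕ) - ((0 : Fin (d + 1)) : ℕ) ≠ 0 := by simp; omega
          rw [g1, zero_pow h5]
          ring
        · intro hm; exact absurd (Finset.mem_univ _) hm
    rw [h2] at h1
    have hc : p.coeff d ≠ 0 := by
      rw [← hp, Polynomial.coeff_natDegree]
      intro h3
      rw [Polynomial.leadingCoeff_eq_zero] at h3
      rw [h3, natDegree_zero] at hp
      omega
    exact pow_eq_zero_iff hd0 |>.1 ((mul_eq_zero.1 h1).resolve_left hc)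
  have g2 : u 2 = 0 := by
    have h1 : ev d (skew d p b) u 2 = 0 := by rw [h]; rfl
    have h2 : ev d (skew d p b) u 2 = topCoef d b * u 2 ^ d := by
      have h3 : ev d (skew d p b) u 2 = ∑ m : Mon d, b m * (u 0 ^ (m.1.1 : ℕ) *
        u 1 ^ (d - (m.1.1 : ℕ) - (m.1.2 : ℕ)) * u 2 ^ (m.1.2 : ℕ)) := by simp [ev, fam, skew]
      rw [h3, E1_sum_single (⟨((0 : Fin (d + 1)), Fin.last d), by simp⟩ : Mon d)]
      · simp [topCoef]
      · intro m hm
        by_cases hi : (m.1.1 : ℕ) = 0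
        · have hj : d - (m.1.1 : ℕ) - (m.1.2 : ℕ) ≠ 0 := by
            intro h4
            apply hm
            apply E1_ext
            · simpa using hi
            · have := m.2
              simp only [Fin.val_last]
              omega
          rw [g1, zero_pow hj]; ring
        · rw [g0, zero_pow hi]; ring
    rw [h2] at h1
    exact pow_eq_zero_iff hd0 |>.1 ((mul_eq_zero.1 h1).resolve_left hb)
  apply hu
  funext k
  fin_cases k
  · exact g0
  · exact g1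
  · exact g2

/-- Nondegeneracy is open (homogeneity and compactness of the unit sphere of `ℂ³`). -/
theorem nondeg_open {d : ℕ} (hd : 1 ≤ d) : IsOpen {F : Coef d | Nondeg d F} := by
  rw [isOpen_iff_mem_nhds]
  intro F₀ hF₀
  have hc : IsCompact (sphere (0 : Fin 3 → ℂ) 1) := isCompact_sphere _ _
  have h1 : ∀ᶠ F in 𝓝 F₀, ∀ u ∈ sphere (0 : Fin 3 → ℂ) 1, ev d F u ≠ 0 := by
    apply hc.eventually_forall_of_forall_eventually
    intro u hu
    have hu0 : u ≠ 0 := by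
      rintro rfl
      simp at hu
    exact E1_ev_cont.continuousAt.eventually_ne (hF₀ u hu0)
  filter_upwards [h1] with F hF
  intro u hu h
  have hn : ‖u‖ ≠ 0 := norm_ne_zero_iff.2 hu
  have h2 : ((‖u‖ : ℂ)⁻¹ • u) ∈ sphere (0 : Fin 3 → ℂ) 1 := by
    rw [mem_sphere_zero_iff_norm, norm_smul, norm_inv, Complex.norm_real, norm_norm,
      inv_mul_cancel₀ hn]
  apply hF _ h2
  rw [E1_homog, h, smul_zero]

/-- Replacing `p` by `p + C τ₀`. -/
theorem skew_add_C {d : ℕ} (p : ℂ[X]) (b : Mon d → ℂ) (τ₀ τ : ℂ) (M : ℕ) (z w : ℂ) :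
    pt (p + C τ₀) τ = pt p (τ₀ + τ) ∧ sk d (p + C τ₀) b τ = sk d p b (τ₀ + τ) ∧
      fib d (p + C τ₀) b τ M z w = fib d p b (τ₀ + τ) M z w ∧
      drift d (p + C τ₀) b τ M z w = drift d p b (τ₀ + τ) M z w := by
  have h1 : pt (p + C τ₀) τ = pt p (τ₀ + τ) := by
    funext z
    simp only [pt, eval_add, eval_C]
    ring
  have h2 : sk d (p + C τ₀) b τ = sk d p b (τ₀ + τ) := by
    funext v
    simp only [sk, eval_add, eval_C]
    rw [add_assoc]
  have h3 : ∀ M z w, fib d (p + C τ₀) b τ M z w = fib d p b (τ₀ + τ) M z w := by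
    intro M z w
    unfold fib
    rw [h2]
  refine ⟨h1, h2, h3 M z w, ?_⟩
  unfold drift
  rw [h1]
  simp only [h3, derivative_add, derivative_C, add_zero]

/-- The derivative of the iterated skew product is triangular. -/
theorem fderiv_skew_iter {d : ℕ} (hd : 1 ≤ d) {p : ℂ[X]} (hp : p.natDegree ≤ d)
    (b : Mon d → ℂ) (τ : ℂ) (N : ℕ) (z w : ℂ) :
    ∃ s : ℂ, ∀ a c : ℂ, fderiv ℂ ((T d (fam d p b 0 τ))^[N]) (z, w) (a, c) =
      (deriv ((pt p τ)^[N]) z * a, s * a + deriv (fib d p b τ N z) w * c) := by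
  have hΦ : Differentiable ℂ ((T d (fam d p b 0 τ))^[N]) := by
    rw [T_skew hd hp b τ]
    exact (E1_sk_diff d p b τ).iterate N
  have hpt : Differentiable ℂ ((pt p τ)^[N]) := by
    apply Differentiable.iterate
    unfold pt
    exact p.differentiable.add_const τ
  set L := fderiv ℂ ((T d (fam d p b 0 τ))^[N]) (z, w) with hL
  have hL' : HasFDerivAt ((T d (fam d p b 0 τ))^[N]) L (z, w) := (hΦ (z, w)).hasFDerivAt
  have hfst : ∀ a c : ℂ, (L (a, c)).1 = deriv ((pt p τ)^[N]) z * a := by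
    intro a c
    have e1 : HasFDerivAt (fun v : X2 => ((T d (fam d p b 0 τ))^[N] v).1)
        (ContinuousLinearMap.fst ℂ ℂ ℂ ∘L L) (z, w) := hL'.fst
    have e2 : HasFDerivAt (fun v : X2 => (pt p τ)^[N] v.1)
        ((ContinuousLinearMap.toSpanSingleton ℂ (deriv ((pt p τ)^[N]) z)) ∘L
          ContinuousLinearMap.fst ℂ ℂ ℂ) (z, w) :=
      HasFDerivAt.comp (z, w) (hpt z).hasDerivAt.hasFDerivAt hasFDerivAt_fst
    have e3 : (fun v : X2 => ((T d (fam d p b 0 τ))^[N] v).1) = fun v : X2 => (pt p τ)^[N] v.1 := by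
      funext v
      obtain ⟨v1, v2⟩ := v
      rw [T_skew_iter hd hp b τ N v1 v2]
    rw [e3] at e1
    have e4 := congrArg (fun M : X2 →L[ℂ] ℂ => M (a, c)) (e1.unique e2)
    simp only [ContinuousLinearMap.comp_apply, ContinuousLinearMap.coe_fst',
      ContinuousLinearMap.toSpanSingleton_apply, smul_eq_mul] at e4
    rw [e4, mul_comm]
  have hsnd : ∀ c : ℂ, (L (0, c)).2 = deriv (fib d p b τ N z) w * c := by
    intro c
    have e1 : HasFDerivAt (fun v : X2 => ((T d (fam d p b 0 τ))^[N] v).2)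
        (ContinuousLinearMap.snd ℂ ℂ ℂ ∘L L) (z, w) := hL'.snd
    have e2 : HasFDerivAt (fun w' : ℂ => ((T d (fam d p b 0 τ))^[N] (z, w')).2)
        ((ContinuousLinearMap.snd ℂ ℂ ℂ ∘L L) ∘L ContinuousLinearMap.inr ℂ ℂ ℂ) w :=
      e1.comp w (hasFDerivAt_prodMk_right z w)
    have e3 : (fun w' : ℂ => ((T d (fam d p b 0 τ))^[N] (z, w')).2) = fib d p b τ N z := by
      funext w'
      rw [T_skew_iter hd hp b τ N z w']
    rw [e3] at e2
    have e4 : deriv (fib d p b τ N z) w = (L (0, 1)).2 := by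
      rw [e2.hasDerivAt.deriv]
      simp
    have e5 : ((0 : ℂ), c) = c • ((0 : ℂ), (1 : ℂ)) := by simp
    rw [e4, e5, map_smul]
    simp [mul_comm]
  refine ⟨(L (1, 0)).2, fun a c => ?_⟩
  apply Prod.ext
  · exact hfst a c
  · have e5 : ((a : ℂ), c) = a • ((1 : ℂ), (0 : ℂ)) + ((0 : ℂ), c) := by simp
    rw [e5, map_add, map_smul, Prod.snd_add, Prod.smul_snd, hsnd c, smul_eq_mul, mul_comm a]

end SkewBif
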