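import Pool.Agent.SK.E2b
/-! ## MP_9cfccf_an, module E2 -/
open Set Metric Filter Topology Polynomial
namespace SkewBif

/-- E2. Motion of repelling periodic points given by stability, seen in the chart. -/
theorem stab_motion {d : ℕ} (hd : 2 ≤ d) {B : Set (Coef d)}
    (hst : ∀ n : ℕ, 1 ≤ n → ∀ F₁ ∈ B, ∀ u₁ : Fin 3 → ℂ, u₁ ≠ 0 → RepPer d F₁ n u₁ →
      ∃ u : Coef d → (Fin 3 → ℂ), DifferentiableOn ℂ u B ∧ u F₁ = u₁ ∧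
        ∀ F ∈ B, u F ≠ 0 ∧ RepPer d F n (u F))
    {P : ℕ} (hP : 1 ≤ P) {F₁ : Coef d} (hF₁ : F₁ ∈ B) {v : X2} (hg : Good d P F₁ v)
    (hv : (T d F₁)^[P] v = v)
    (hrep : ∀ μ : ℂ, Module.End.HasEigenvalue (fderiv ℂ ((T d F₁)^[P]) v : X2 →ₗ[ℂ] X2) μ →
      1 < ‖μ‖) :
    ∃ U : Coef d → (Fin 3 → ℂ), DifferentiableOn ℂ U B ∧ (∀ F ∈ B, U F ≠ 0) ∧ U F₁ 1 ≠ 0 ∧
      chart (U F₁) = v ∧
      ∀ F ∈ B, U F 1 ≠ 0 → Good d P F (chart (U F)) →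
        (T d F)^[P] (chart (U F)) = chart (U F) ∧
        ∀ μ : ℂ, Module.End.HasEigenvalue
          (fderiv ℂ ((T d F)^[P]) (chart (U F)) : X2 →ₗ[ℂ] X2) μ → 1 < ‖μ‖ := by
  obtain ⟨u, hu0, hu1, hch, hrp⟩ := lift_repelling hd hP hg hv hrep
  obtain ⟨U, hU, hUF, hUB⟩ := hst P hP F₁ hF₁ u hu0 hrp
  refine ⟨U, hU, fun F hF => (hUB F hF).1, by rw [hUF]; exact hu1, by rw [hUF]; exact hch, ?_⟩
  intro F hF h1 h2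
  obtain ⟨_, hfix, hev⟩ := hUB F hF
  refine ⟨by rw [← (ev_iter h1 h2).2, hfix], ?_⟩
  intro μ hμ
  exact hev μ (eigen_chart h1 hfix h2 hμ).2

end SkewBif
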