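import Pool.Agent.SK.E1a
/-! ## MP_9cfccf_an, module E2a -/
open Set Metric Filter Topology Polynomial
namespace SkewBif

theorem ev_smul (d : ℕ) (F : Coef d) (s : ℂ) (u : Fin 3 → ℂ) :
    ev d F (s • u) = s ^ d • ev d F u := by
  funext k
  simp only [ev, Pi.smul_apply, smul_eq_mul, Finset.mul_sum]
  refine Finset.sum_congr rfl fun m _ => ?_
  have h : s ^ d = s ^ (m.1.1 : ℕ) * s ^ (d - (m.1.1 : ℕ) - (m.1.2 : ℕ)) * s ^ (m.1.2 : ℕ) := by
    rw [← pow_add, ← pow_add]
    congr 1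
    have := m.2
    omega
  rw [h, mul_pow, mul_pow, mul_pow]
  ring

theorem E2a_lift_chart {u : Fin 3 → ℂ} (hu : u 1 ≠ 0) : u 1 • lift (chart u) = u := by
  funext k
  fin_cases k
  · simp [lift, chart]
    field_simp
  · simp [lift]
  · simp [lift, chart]
    field_simp

theorem E2a_chart_smul {s : ℂ} (hs : s ≠ 0) (u : Fin 3 → ℂ) : chart (s • u) = chart u := by
  simp only [chart, Pi.smul_apply, smul_eq_mul]
  rw [mul_div_mul_left _ _ hs, mul_div_mul_left _ _ hs]

theorem E2a_chart_lift (v : X2) : chart (lift v) = v := by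
  simp [chart, lift]

/-- The chart map and the lift: `(ev d F)^[N] (lift v)` is a nonzero multiple of the lift of the
iterate; more generally for any `u` with `u 1 ≠ 0`. -/
theorem ev_iter {d N : ℕ} {F : Coef d} {u : Fin 3 → ℂ} (hu : u 1 ≠ 0)
    (h : Good d N F (chart u)) :
    ((ev d F)^[N] u) 1 ≠ 0 ∧ chart ((ev d F)^[N] u) = (T d F)^[N] (chart u) := by
  induction N with
  | zero => exact ⟨hu, rfl⟩
  | succ N ih =>
    obtain ⟨h1, h2⟩ := E1a_good_succ.1 h
    obtain ⟨h3, h4⟩ := ih h1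
    rw [Function.iterate_succ_apply', Function.iterate_succ_apply']
    set w := (ev d F)^[N] u with hw
    have h5 : ev d F w = (w 1) ^ d • ev d F (lift (chart w)) := by
      conv_lhs => rw [← E2a_lift_chart h3]
      exact ev_smul d F (w 1) _
    have h6 : (w 1) ^ d ≠ 0 := pow_ne_zero _ h3
    constructor
    · rw [h5, Pi.smul_apply, smul_eq_mul, h4]
      exact mul_ne_zero h6 h2
    · rw [h5, E2a_chart_smul h6, h4]
      rfl

theorem E2a_ev_iter_contDiff (d : ℕ) (F : Coef d) (N : ℕ) (n : WithTop ℕ∞) :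
    ContDiff ℂ n ((ev d F)^[N]) := by
  have h1 : ContDiff ℂ n (ev d F) :=
    (E1a_ev_contDiff d n).comp (contDiff_const.prodMk contDiff_id)
  induction N with
  | zero => exact contDiff_id
  | succ N ih =>
    rw [Function.iterate_succ']
    exact h1.comp ih

theorem E2a_chart_contDiffAt {u : Fin 3 → ℂ} (hu : u 1 ≠ 0) (n : WithTop ℕ∞) :
    ContDiffAt ℂ n chart u := by
  unfold chart
  have h : ∀ i : Fin 3, ContDiffAt ℂ n (fun u : Fin 3 → ℂ => u i) u := fun i =>
    (contDiff_apply ℂ ℂ i).contDiffAt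
  exact ContDiffAt.prodMk ((h 0).div (h 1) hu) ((h 2).div (h 1) hu)

theorem E2a_iter_contDiffAt {d N : ℕ} {F : Coef d} {v : X2} (h : Good d N F v)
    (n : WithTop ℕ∞) : ContDiffAt ℂ n ((T d F)^[N]) v := by
  have h1 := iter_contDiffAt h n
  exact ContDiffAt.comp v (f := fun v : X2 => (F, v))
    (g := fun q : Coef d × X2 => (T d q.1)^[N] q.2) h1
    (contDiffAt_const.prodMk contDiffAt_id)

/-- the semiconjugacy, differentiated -/
theorem E2a_semi {d N : ℕ} {F : Coef d} {u : Fin 3 → ℂ} (hu : u 1 ≠ 0)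
    (hfix : (ev d F)^[N] u = u) (h : Good d N F (chart u)) :
    (fderiv ℂ chart u).comp (fderiv ℂ ((ev d F)^[N]) u) =
      (fderiv ℂ ((T d F)^[N]) (chart u)).comp (fderiv ℂ chart u) := by
  have hev : DifferentiableAt ℂ ((ev d F)^[N]) u :=
    ((E2a_ev_iter_contDiff d F N 1).differentiable (by simp)) u
  have hch : DifferentiableAt ℂ chart u := (E2a_chart_contDiffAt hu 1).differentiableAt (by simp)
  have hT : DifferentiableAt ℂ ((T d F)^[N]) (chart u) :=
    (E2a_iter_contDiffAt h 1).differentiableAt (by simp)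
  have h1 : fderiv ℂ (chart ∘ ((ev d F)^[N])) u =
      (fderiv ℂ chart u).comp (fderiv ℂ ((ev d F)^[N]) u) := by
    rw [fderiv_comp u (by rw [hfix]; exact hch) hev, hfix]
  have h2 : fderiv ℂ (((T d F)^[N]) ∘ chart) u =
      (fderiv ℂ ((T d F)^[N]) (chart u)).comp (fderiv ℂ chart u) :=
    fderiv_comp u hT hch
  rw [← h1, ← h2]
  apply Filter.EventuallyEq.fderiv_eq
  have h3 : ∀ᶠ u' : Fin 3 → ℂ in 𝓝 u, u' 1 ≠ 0 :=
    (continuous_apply 1).continuousAt.eventually_ne hu
  have h4 : ∀ᶠ u' : Fin 3 → ℂ in 𝓝 u, Good d N F (chart u') := by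
    have h5 : ContinuousAt (fun u' : Fin 3 → ℂ => (F, chart u')) u :=
      continuousAt_const.prodMk hch.continuousAt
    exact h5.eventually ((good_open d N).mem_nhds h)
  filter_upwards [h3, h4] with u' h5 h6
  exact (ev_iter h5 h6).2

theorem E2a_chart_section {u : Fin 3 → ℂ} (hu : u 1 ≠ 0) (x : X2) :
    ∃ e : Fin 3 → ℂ, fderiv ℂ chart u e = x := by
  let L : X2 →L[ℂ] (Fin 3 → ℂ) := ContinuousLinearMap.pi
    ![ContinuousLinearMap.fst ℂ ℂ ℂ, 0, ContinuousLinearMap.snd ℂ ℂ ℂ]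
  have hL : ∀ v : X2, lift v = ![0, 1, 0] + L v := by
    intro v
    funext k
    fin_cases k <;> simp [lift, L]
  have hch : DifferentiableAt ℂ chart u := (E2a_chart_contDiffAt hu 1).differentiableAt (by simp)
  have h1 : HasFDerivAt (fun v : X2 => u 1 • lift v) (u 1 • L) (chart u) := by
    have h2 : HasFDerivAt (fun v : X2 => u 1 • (![0, 1, 0] + L v)) (u 1 • L) (chart u) :=
      (L.hasFDerivAt.const_add _).const_smul (u 1)
    refine h2.congr_of_eventuallyEq (Filter.Eventually.of_forall fun v => ?_)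
    simp only [hL v]
  have h3 : HasFDerivAt (chart ∘ fun v : X2 => u 1 • lift v)
      ((fderiv ℂ chart u).comp (u 1 • L)) (chart u) := by
    refine HasFDerivAt.comp (chart u) ?_ h1
    rw [E2a_lift_chart hu]
    exact hch.hasFDerivAt
  have h4 : HasFDerivAt (chart ∘ fun v : X2 => u 1 • lift v)
      (ContinuousLinearMap.id ℂ X2) (chart u) := by
    refine (hasFDerivAt_id (chart u)).congr_of_eventuallyEq
      (Filter.Eventually.of_forall fun v => ?_)
    simp only [Function.comp_apply, id]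
    rw [E2a_chart_smul hu, E2a_chart_lift]
  have h5 := h3.unique h4
  refine ⟨(u 1 • L) x, ?_⟩
  have h6 := congrArg (fun A : X2 →L[ℂ] X2 => A x) h5
  exact h6

theorem E2a_linalg {V W : Type*} [AddCommGroup V] [Module ℂ V] [FiniteDimensional ℂ V]
    [AddCommGroup W] [Module ℂ W] [FiniteDimensional ℂ W] (A : V →ₗ[ℂ] V) (B : W →ₗ[ℂ] W)
    (c : V →ₗ[ℂ] W) (hc : Function.Surjective c) (h : ∀ e, c (A e) = B (c e)) {μ : ℂ}
    (hμ : Module.End.HasEigenvalue B μ) : Module.End.HasEigenvalue A μ := by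
  by_contra hcon
  have hAinj : Function.Injective (A - μ • (LinearMap.id : V →ₗ[ℂ] V)) := by
    rw [← LinearMap.ker_eq_bot, LinearMap.ker_eq_bot']
    intro x hx
    by_contra hx0
    apply hcon
    refine Module.End.hasEigenvalue_of_hasEigenvector (x := x) ?_
    rw [Module.End.hasEigenvector_iff]
    refine ⟨?_, hx0⟩
    rw [Module.End.mem_eigenspace_iff]
    simpa [sub_eq_zero] using hx
  have hAsurj : Function.Surjective (A - μ • (LinearMap.id : V →ₗ[ℂ] V)) :=
    LinearMap.injective_iff_surjective.1 hAinj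
  have hBsurj : Function.Surjective (B - μ • (LinearMap.id : W →ₗ[ℂ] W)) := by
    intro x
    obtain ⟨e, he⟩ := hc x
    obtain ⟨e', he'⟩ := hAsurj e
    refine ⟨c e', ?_⟩
    rw [← he, ← he']
    simp only [LinearMap.sub_apply, LinearMap.smul_apply, LinearMap.id_apply, map_sub, map_smul]
    rw [h]
  have hBinj : Function.Injective (B - μ • (LinearMap.id : W →ₗ[ℂ] W)) :=
    LinearMap.injective_iff_surjective.2 hBsurj
  obtain ⟨x, hx⟩ := hμ.exists_hasEigenvector
  rw [Module.End.hasEigenvector_iff, Module.End.mem_eigenspace_iff] at hx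
  apply hx.2
  apply hBinj
  rw [map_zero]
  simp [hx.1]

/-- Semiconjugacy of derivatives: if `u 1 ≠ 0`, `(ev d F)^[N] u = u` and `Good d N F (chart u)`,
then `(T d F)^[N] (chart u) = chart u` and every eigenvalue of `D (T^[N])` at `chart u` is an
eigenvalue of `D ((ev d F)^[N])` at `u`.
Proof: differentiate `chart ∘ (ev d F)^[N] = (T d F)^[N] ∘ chart` near `u`; `D chart (u)` is surjective. If
`μ` is an eigenvalue of `D T^[N]` but not of `D ev^[N]`, then `D ev^[N] - μ` is bijective, so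
`D T^[N] - μ` is surjective: contradiction in finite dimension. -/
theorem eigen_chart {d N : ℕ} {F : Coef d} {u : Fin 3 → ℂ} (hu : u 1 ≠ 0)
    (hfix : (ev d F)^[N] u = u) (h : Good d N F (chart u)) {μ : ℂ}
    (hμ : Module.End.HasEigenvalue (fderiv ℂ ((T d F)^[N]) (chart u) : X2 →ₗ[ℂ] X2) μ) :
    (T d F)^[N] (chart u) = chart u ∧
      Module.End.HasEigenvalue
        (fderiv ℂ ((ev d F)^[N]) u : (Fin 3 → ℂ) →ₗ[ℂ] (Fin 3 → ℂ)) μ := by
  refine ⟨by rw [← (ev_iter hu h).2, hfix], ?_⟩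
  refine E2a_linalg _ _ (fderiv ℂ chart u : (Fin 3 → ℂ) →ₗ[ℂ] X2)
    (fun x => E2a_chart_section hu x) (fun e => ?_) hμ
  exact congrArg (fun C : (Fin 3 → ℂ) →L[ℂ] X2 => C e) (E2a_semi hu hfix h)

end SkewBif
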