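import Pool.Agent.SK.E2a
/-! ## MP_9cfccf_an, module E2b -/
open Set Metric Filter Topology Polynomial
namespace SkewBif

/-- the kernel of the derivative of the chart map -/
theorem E2b_ker {u e : Fin 3 → ℂ} (hu : u 1 ≠ 0) (he : fderiv ℂ chart u e = 0) :
    e = (e 1 / u 1) • u := by
  let L : X2 →L[ℂ] (Fin 3 → ℂ) := ContinuousLinearMap.pi
    ![ContinuousLinearMap.fst ℂ ℂ ℂ, 0, ContinuousLinearMap.snd ℂ ℂ ℂ]
  have hL : ∀ v : X2, lift v = ![0, 1, 0] + L v := by
    intro v
    funext k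
    fin_cases k <;> simp [lift, L]
  have hch : DifferentiableAt ℂ chart u := (E2a_chart_contDiffAt hu 1).differentiableAt (by simp)
  have h1 : HasFDerivAt (fun u' : Fin 3 → ℂ => lift (chart u')) (L.comp (fderiv ℂ chart u)) u := by
    have h2 : HasFDerivAt (fun u' : Fin 3 → ℂ => ![0, 1, 0] + L (chart u'))
        (L.comp (fderiv ℂ chart u)) u :=
      (L.hasFDerivAt.comp u hch.hasFDerivAt).const_add _
    refine h2.congr_of_eventuallyEq (Filter.Eventually.of_forall fun v => ?_)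
    simp only [hL]
  have h0 : HasFDerivAt (fun u' : Fin 3 → ℂ => u' 1)
      (ContinuousLinearMap.proj (R := ℂ) (φ := fun _ : Fin 3 => ℂ) 1) u :=
    (ContinuousLinearMap.proj (R := ℂ) (φ := fun _ : Fin 3 => ℂ) 1).hasFDerivAt
  have h2 := h0.smul h1
  have h3 : HasFDerivAt (fun u' : Fin 3 → ℂ => u' 1 • lift (chart u'))
      (ContinuousLinearMap.id ℂ (Fin 3 → ℂ)) u := by
    refine (hasFDerivAt_id u).congr_of_eventuallyEq ?_
    have h4 : ∀ᶠ u' : Fin 3 → ℂ in 𝓝 u, u' 1 ≠ 0 :=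
      (continuous_apply 1).continuousAt.eventually_ne hu
    filter_upwards [h4] with u' h5
    exact E2a_lift_chart h5
  have h4 := h2.unique h3
  have h5 := congrArg (fun A : (Fin 3 → ℂ) →L[ℂ] (Fin 3 → ℂ) => A e) h4
  simp only [_root_.add_apply, _root_.smul_apply,
    ContinuousLinearMap.comp_apply, he, map_zero, smul_zero, zero_add,
    ContinuousLinearMap.smulRight_apply, ContinuousLinearMap.proj_apply,
    ContinuousLinearMap.id_apply] at h5
  have h6 : lift (chart u) = (u 1)⁻¹ • u := by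
    conv_rhs => rw [← E2a_lift_chart hu]
    rw [smul_smul, Pi.smul_apply]
    simp [lift, hu]
  rw [h6, smul_smul] at h5
  rw [div_eq_mul_inv]
  exact h5.symm

theorem E2b_iter_smul (d : ℕ) (F : Coef d) (P : ℕ) (s : ℂ) (u : Fin 3 → ℂ) :
    (ev d F)^[P] (s • u) = s ^ (d ^ P) • (ev d F)^[P] u := by
  induction P with
  | zero => simp
  | succ P ih =>
    rw [Function.iterate_succ_apply', Function.iterate_succ_apply', ih, ev_smul, ← pow_mul,
      pow_succ]

/-- Euler's identity for the iterate -/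
theorem E2b_euler {d P : ℕ} {F : Coef d} {u : Fin 3 → ℂ} (hfix : (ev d F)^[P] u = u) :
    fderiv ℂ ((ev d F)^[P]) u u = ((d : ℂ) ^ P) • u := by
  have hev : DifferentiableAt ℂ ((ev d F)^[P]) u :=
    ((E2a_ev_iter_contDiff d F P 1).differentiable (by simp)) u
  have h1 : HasDerivAt (fun s : ℂ => s • u) u 1 := by
    simpa using (hasDerivAt_id (1 : ℂ)).smul_const u
  have h2 : HasDerivAt (fun s : ℂ => (ev d F)^[P] (s • u)) (fderiv ℂ ((ev d F)^[P]) u u) 1 := by
    have h3 : HasFDerivAt ((ev d F)^[P]) (fderiv ℂ ((ev d F)^[P]) u) ((1 : ℂ) • u) := by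
      rw [one_smul]
      exact hev.hasFDerivAt
    exact h3.comp_hasDerivAt 1 h1
  have h3 : HasDerivAt (fun s : ℂ => (ev d F)^[P] (s • u)) (((d : ℂ) ^ P) • u) 1 := by
    have h4 : HasDerivAt (fun s : ℂ => s ^ (d ^ P) • u) (((d : ℂ) ^ P) • u) 1 := by
      have h5 := (hasDerivAt_pow (d ^ P) (1 : ℂ)).smul_const u
      simpa using h5
    refine h4.congr_of_eventuallyEq (Filter.Eventually.of_forall fun s => ?_)
    simp only [E2b_iter_smul, hfix]
  exact h2.unique h3

/-- A repelling periodic point in the chart lifts to a point satisfying `RepPer`.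
Proof: `(ev d F)^[P] (lift v) = a • lift v`, `a ≠ 0`; take `s` with `s ^ (d ^ P - 1) = a⁻¹`
(`d ^ P ≥ 2`), `u = s • lift v`. Eigenvectors `e` of `D (ev^[P]) (u)`: if `D chart (u) e ≠ 0` it is an
eigenvector of `D T^[P]`; otherwise `e` is a multiple of `u` and the eigenvalue is `d ^ P`
(Euler: differentiate `ev^[P] (s u) = s^(d^P) ev^[P] u` at `s = 1`). -/
theorem lift_repelling {d P : ℕ} (hd : 2 ≤ d) (hP : 1 ≤ P) {F : Coef d} {v : X2}
    (hg : Good d P F v) (hv : (T d F)^[P] v = v)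
    (hrep : ∀ μ : ℂ, Module.End.HasEigenvalue (fderiv ℂ ((T d F)^[P]) v : X2 →ₗ[ℂ] X2) μ →
      1 < ‖μ‖) :
    ∃ u : Fin 3 → ℂ, u ≠ 0 ∧ u 1 ≠ 0 ∧ chart u = v ∧ RepPer d F P u := by
  have hl1 : lift v 1 ≠ 0 := by simp [lift]
  have hg' : Good d P F (chart (lift v)) := by rw [E2a_chart_lift]; exact hg
  obtain ⟨ha, hc⟩ := ev_iter hl1 hg'
  rw [E2a_chart_lift, hv] at hc
  obtain ⟨a, haw⟩ : ∃ a, a = ((ev d F)^[P] (lift v)) 1 := ⟨_, rfl⟩
  rw [← haw] at ha
  have hw' : (ev d F)^[P] (lift v) = a • lift v := by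
    have h1 : ((ev d F)^[P] (lift v)) 1 ≠ 0 := by rw [← haw]; exact ha
    have h2 := E2a_lift_chart h1
    rw [hc, ← haw] at h2
    exact h2.symm
  have hdP : 2 ≤ d ^ P := le_trans hd (Nat.le_self_pow (by omega) d)
  obtain ⟨s, hs⟩ := IsAlgClosed.exists_pow_nat_eq a⁻¹ (n := d ^ P - 1) (by omega)
  have hs0 : s ≠ 0 := by
    rintro rfl
    rw [zero_pow (by omega)] at hs
    exact inv_ne_zero ha hs.symm
  have hu1 : (s • lift v) 1 ≠ 0 := by
    rw [Pi.smul_apply, smul_eq_mul]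
    exact mul_ne_zero hs0 hl1
  have hch : chart (s • lift v) = v := by rw [E2a_chart_smul hs0, E2a_chart_lift]
  have hfix : (ev d F)^[P] (s • lift v) = s • lift v := by
    rw [E2b_iter_smul, hw', smul_smul]
    congr 1
    rw [show d ^ P = (d ^ P - 1) + 1 by omega, pow_succ, hs]
    field_simp
  set u := s • lift v with hu
  refine ⟨u, fun h => hu1 (by rw [h]; rfl), hu1, hch, hfix, ?_⟩
  intro μ hμ
  obtain ⟨e, he⟩ := hμ.exists_hasEigenvector
  rw [Module.End.hasEigenvector_iff, Module.End.mem_eigenspace_iff] at he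
  obtain ⟨he1, he0⟩ := he
  have he1' : fderiv ℂ ((ev d F)^[P]) u e = μ • e := he1
  have hgu : Good d P F (chart u) := by rw [hch]; exact hg
  have hsemi := congrArg (fun C : (Fin 3 → ℂ) →L[ℂ] X2 => C e) (E2a_semi hu1 hfix hgu)
  simp only [ContinuousLinearMap.comp_apply] at hsemi
  rw [he1', map_smul, hch] at hsemi
  by_cases hce : fderiv ℂ chart u e = 0
  · have h1 := E2b_ker hu1 hce
    have h2 := E2b_euler hfix
    have hc0 : e 1 / u 1 ≠ 0 := by
      intro h
      rw [h, zero_smul] at h1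
      exact he0 h1
    have h3 : fderiv ℂ ((ev d F)^[P]) u e = ((d : ℂ) ^ P) • e := by
      rw [h1, map_smul, h2, smul_comm]
    have h4 : μ • e = ((d : ℂ) ^ P) • e := by rw [← he1', h3]
    have h5 : μ = (d : ℂ) ^ P := by
      by_contra hne
      apply he0
      have h6 : (μ - (d : ℂ) ^ P) • e = 0 := by rw [sub_smul, h4, sub_self]
      rcases smul_eq_zero.1 h6 with h | h
      · exact absurd (sub_eq_zero.1 h) hne
      · exact h
    rw [h5, ← Nat.cast_pow, Complex.norm_natCast]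
    exact_mod_cast hdP
  · apply hrep μ
    refine Module.End.hasEigenvalue_of_hasEigenvector (x := fderiv ℂ chart u e) ?_
    rw [Module.End.hasEigenvector_iff, Module.End.mem_eigenspace_iff]
    exact ⟨hsemi.symm, hce⟩

end SkewBif
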