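import Pool.Agent.SK.E3a
/-! ## MP_9cfccf_an, module E3 -/
open Set Metric Filter Topology Polynomial
namespace SkewBif

/-- scaling of the first coordinate -/
noncomputable def E3_L (α : ℝ) : X2 →L[ℂ] X2 :=
  ((α : ℂ) • ContinuousLinearMap.id ℂ ℂ).prodMap (ContinuousLinearMap.id ℂ ℂ)

theorem E3_L_apply (α : ℝ) (v : X2) : E3_L α v = ((α : ℂ) * v.1, v.2) := rfl

theorem E3_norm_L {α : ℝ} (hα : 0 ≤ α) (v : X2) : ‖E3_L α v‖ = max (α * ‖v.1‖) ‖v.2‖ := by
  rw [E3_L_apply, Prod.norm_def]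
  simp [abs_of_nonneg hα]

theorem E3_L_inv {α : ℝ} (hα : 0 < α) (v : X2) : E3_L α (E3_L α⁻¹ v) = v := by
  rw [E3_L_apply, E3_L_apply]
  ext
  · have h : (α : ℂ) ≠ 0 := by exact_mod_cast hα.ne'
    push_cast
    simp [h]
  · rfl

theorem E3_L_inv' {α : ℝ} (hα : 0 < α) (v : X2) : E3_L α⁻¹ (E3_L α v) = v := by
  rw [E3_L_apply, E3_L_apply]
  ext
  · have h : (α : ℂ) ≠ 0 := by exact_mod_cast hα.ne'
    push_cast
    simp [h]
  · rfl

theorem E3_le {α : ℝ} (hα : 1 ≤ α) (v : X2) : ‖v‖ ≤ ‖E3_L α v‖ := by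
  rw [E3_norm_L (by linarith), Prod.norm_def]
  exact max_le_max (le_mul_of_one_le_left (norm_nonneg _) hα) le_rfl

theorem E3_ge {α : ℝ} (hα : 1 ≤ α) (v : X2) : ‖E3_L α v‖ ≤ α * ‖v‖ := by
  rw [E3_norm_L (by linarith)]
  have h1 : ‖v.1‖ ≤ ‖v‖ := norm_fst_le v
  have h2 : ‖v.2‖ ≤ ‖v‖ := norm_snd_le v
  refine max_le (mul_le_mul_of_nonneg_left h1 (by linarith)) ?_
  calc ‖v.2‖ ≤ ‖v‖ := h2
    _ ≤ α * ‖v‖ := le_mul_of_one_le_left (norm_nonneg _) hα

/-- one branch -/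
theorem E3_single {d : ℕ} (hd : 1 ≤ d) {p : ℂ[X]} (hp : p.natDegree ≤ d) {b : Mon d → ℂ}
    {x wb : ℂ} {ρ R θ : ℝ} (hρ : 0 < ρ) (hρR : ρ < R) {M : ℕ}
    (hx : (pt p 0)^[M] x = x) (hmul : 1 < ‖deriv ((pt p 0)^[M]) x‖)
    {U : ℂ → ℂ} (hU : DifferentiableOn ℂ U (ball wb R))
    (hinv : ∀ w ∈ ball wb R, fib d p b 0 M x (U w) = w)
    (hder : ∀ w ∈ ball wb R, ‖deriv U w‖ ≤ θ) :
    ∃ δ > 0, ∃ G : Coef d → X2 → X2, ∃ C0 : ℝ, 0 ≤ C0 ∧
      (∀ w ∈ closedBall wb ρ, G (skew d p b) (x, w) = (x, U w)) ∧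
      (∀ F ∈ ball (skew d p b) δ, ∀ v ∈ ball x δ ×ˢ closedBall wb ρ,
        Good d M F (G F v) ∧ (T d F)^[M] (G F v) = v ∧
        ContDiffAt ℂ 1 (fun q : Coef d × X2 => G q.1 q.2) (F, v)) ∧
      (∀ w ∈ closedBall wb ρ, ∀ a c : ℂ,
        ‖(fderiv ℂ (fun q : Coef d × X2 => G q.1 q.2) (skew d p b, (x, w)) (0, (a, c))).1‖
          ≤ ‖deriv ((pt p 0)^[M]) x‖⁻¹ * ‖a‖ ∧
        ‖(fderiv ℂ (fun q : Coef d × X2 => G q.1 q.2) (skew d p b, (x, w)) (0, (a, c))).2‖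
          ≤ θ * ‖c‖ + C0 * ‖a‖) := by
  set F0 := skew d p b with hF0
  set Λ := deriv ((pt p 0)^[M]) x with hΛ
  have hΛ0 : Λ ≠ 0 := by
    intro h
    rw [h, norm_zero] at hmul
    linarith
  set ρ₁ := (ρ + R) / 2 with hρ₁
  have h1 : ρ < ρ₁ := by rw [hρ₁]; linarith
  have h2 : ρ₁ < R := by rw [hρ₁]; linarith
  -- derivative of the composition in the fiber
  have hfibd : ∀ w : ℂ, DifferentiableAt ℂ (fib d p b 0 M x) w := by
    intro w
    have h3 := iter_contDiffAt (good_fam hd hp b 0 0 M (x, w)) 1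
    have h4 : DifferentiableAt ℂ (fun q : Coef d × X2 => (T d q.1)^[M] q.2)
        (fam d p b 0 0, (x, w)) := h3.differentiableAt (by norm_num)
    have h5 : DifferentiableAt ℂ (fun w : ℂ => ((fam d p b 0 0, (x, w)) : Coef d × X2)) w := by
      fun_prop
    have h6 := DifferentiableAt.comp w h4 h5
    have h7 : DifferentiableAt ℂ (fun w : ℂ => ((T d (fam d p b 0 0))^[M] (x, w)).2) w :=
      h6.snd
    have h8 : (fun w : ℂ => ((T d (fam d p b 0 0))^[M] (x, w)).2) = fib d p b 0 M x := by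
      funext w
      rw [T_skew_iter hd hp]
    rwa [h8] at h7
  have hprod : ∀ w ∈ ball wb R, deriv (fib d p b 0 M x) (U w) * deriv U w = 1 := by
    intro w hw
    have h3 : DifferentiableAt ℂ U w := (hU w hw).differentiableAt (isOpen_ball.mem_nhds hw)
    have h4 := (hfibd (U w)).hasDerivAt.comp w h3.hasDerivAt
    have h5 : (fib d p b 0 M x ∘ U) =ᶠ[𝓝 w] id := by
      filter_upwards [isOpen_ball.mem_nhds hw] with w' hw'
      exact hinv w' hw'
    have h6 := h5.deriv_eq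
    rw [h4.deriv, deriv_id] at h6
    exact h6
  obtain ⟨δ, hδ, η, hη, -, G, hG0, -, hG⟩ := branch2D (b := b) (M := M) (wb := wb) (ρ := ρ₁) hd hp
    hx (by rwa [← hΛ]) (U := U)
    (hU.continuousOn.mono (closedBall_subset_ball h2))
    (fun w hw => ⟨hinv w (closedBall_subset_ball h2 hw), fun h0 => by
      have h3 := hprod w (closedBall_subset_ball h2 hw)
      rw [h0, zero_mul] at h3
      exact zero_ne_one h3⟩) (η₀ := 1) one_pos
  have hsub : closedBall wb ρ ⊆ ball wb ρ₁ := closedBall_subset_ball h1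
  have hCD : ∀ F ∈ ball F0 δ, ∀ v ∈ ball x δ ×ˢ ball wb ρ₁,
      ContDiffAt ℂ 1 (fun q : Coef d × X2 => G q.1 q.2) (F, v) := by
    intro F hF v hv
    exact (hG F hF v ⟨hv.1, ball_subset_closedBall hv.2⟩).2.2.2.2 hv.2
  have hF00 : F0 ∈ ball F0 δ := mem_ball_self hδ
  have hx0 : x ∈ ball x δ := mem_ball_self hδ
  -- the derivative
  set D : ℂ → (Coef d × X2) →L[ℂ] X2 :=
    fun w => fderiv ℂ (fun q : Coef d × X2 => G q.1 q.2) (F0, (x, w)) with hD
  have hDc : ContinuousOn D (closedBall wb ρ) := by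
    intro w hw
    have h3 := hCD F0 hF00 (x, w) ⟨hx0, hsub hw⟩
    have h4 : ContinuousAt (fderiv ℂ (fun q : Coef d × X2 => G q.1 q.2)) (F0, (x, w)) :=
      (h3.fderiv_right (m := 0) (by norm_num)).continuousAt
    have h5 : ContinuousAt (fun w : ℂ => ((F0, (x, w)) : Coef d × X2)) w := by fun_prop
    exact (ContinuousAt.comp (f := fun w : ℂ => ((F0, (x, w)) : Coef d × X2)) h4
      h5).continuousWithinAt
  obtain ⟨C0, hC0⟩ := (isCompact_closedBall wb ρ).exists_bound_of_continuousOn hDc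
  refine ⟨δ, hδ, G, max C0 0, le_max_right _ _, ?_, ?_, ?_⟩
  · intro w hw
    exact hG0 w (ball_subset_closedBall (hsub hw))
  · intro F hF v hv
    have h3 := hG F hF v ⟨hv.1, ball_subset_closedBall (hsub hv.2)⟩
    exact ⟨h3.2.1, h3.2.2.1, hCD F hF v ⟨hv.1, hsub hv.2⟩⟩
  · intro w hw
    -- the equation of the derivative
    have hwR : w ∈ ball wb R := closedBall_subset_ball hρR hw
    obtain ⟨s, hs⟩ := fderiv_skew_iter hd hp b 0 M x (U w)
    have hGd : DifferentiableAt ℂ (fun q : Coef d × X2 => G q.1 q.2) (F0, (x, w)) :=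
      (hCD F0 hF00 (x, w) ⟨hx0, hsub hw⟩).differentiableAt (by norm_num)
    have hG1 : HasFDerivAt (fun v : X2 => G F0 v)
        ((D w).comp (ContinuousLinearMap.inr ℂ (Coef d) X2)) (x, w) := by
      have h3 : HasFDerivAt (fun v : X2 => ((F0, v) : Coef d × X2))
          (ContinuousLinearMap.inr ℂ (Coef d) X2) (x, w) := hasFDerivAt_prodMk_right F0 (x, w)
      exact HasFDerivAt.comp (x, w) hGd.hasFDerivAt h3
    have hTd : DifferentiableAt ℂ ((T d (fam d p b 0 0))^[M]) (x, U w) := by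
      have h3 := (iter_contDiffAt (good_fam hd hp b 0 0 M (x, U w)) 1).differentiableAt
        (by norm_num)
      have h5 : DifferentiableAt ℂ (fun v : X2 => ((fam d p b 0 0, v) : Coef d × X2))
          (x, U w) := by fun_prop
      exact DifferentiableAt.comp (x, U w)
        (f := fun v : X2 => ((fam d p b 0 0, v) : Coef d × X2))
        (g := fun q : Coef d × X2 => (T d q.1)^[M] q.2) h3 h5
    have hGw : G F0 (x, w) = (x, U w) := hG0 w (ball_subset_closedBall (hsub hw))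
    have hTd' : HasFDerivAt ((T d F0)^[M]) (fderiv ℂ ((T d F0)^[M]) (x, U w)) (G F0 (x, w)) := by
      rw [hGw]
      exact hTd.hasFDerivAt
    have hcomp := HasFDerivAt.comp (x, w) hTd' hG1
    have hid : ((T d F0)^[M] ∘ fun v : X2 => G F0 v) =ᶠ[𝓝 (x, w)] id := by
      have h3 : ball x δ ×ˢ ball wb ρ₁ ∈ 𝓝 ((x, w) : X2) :=
        (isOpen_ball.prod isOpen_ball).mem_nhds ⟨hx0, hsub hw⟩
      filter_upwards [h3] with v hv
      exact (hG F0 hF00 v ⟨hv.1, ball_subset_closedBall hv.2⟩).2.2.1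
    have hid2 : (fderiv ℂ ((T d F0)^[M]) (x, U w)).comp
        ((D w).comp (ContinuousLinearMap.inr ℂ (Coef d) X2)) = ContinuousLinearMap.id ℂ X2 := by
      rw [← hcomp.fderiv, hid.fderiv_eq, fderiv_id]
    have hval : ∀ a c : ℂ, (Λ * (D w (0, (a, c))).1,
        s * (D w (0, (a, c))).1 + deriv (fib d p b 0 M x) (U w) * (D w (0, (a, c))).2) =
        ((a, c) : X2) := by
      intro a c
      have h3 := congrArg (fun L : X2 →L[ℂ] X2 => L (a, c)) hid2
      simp only [ContinuousLinearMap.comp_apply, ContinuousLinearMap.inr_apply,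
        ContinuousLinearMap.id_apply] at h3
      exact (hs (D w (0, (a, c))).1 (D w (0, (a, c))).2).symm.trans h3
    have hfst : ∀ a c : ℂ, (D w (0, (a, c))).1 = Λ⁻¹ * a := by
      intro a c
      have h3 := congrArg Prod.fst (hval a c)
      change Λ * (D w (0, (a, c))).1 = a at h3
      rw [eq_inv_mul_iff_mul_eq₀ hΛ0]
      exact h3
    have hsnd0 : ∀ c : ℂ, (D w (0, (0, c))).2 = deriv U w * c := by
      intro c
      have h3 := congrArg Prod.snd (hval 0 c)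
      simp only at h3
      rw [hfst, mul_zero, mul_zero, zero_add] at h3
      have h4 := hprod w hwR
      calc (D w (0, (0, c))).2 = (deriv (fib d p b 0 M x) (U w) * deriv U w) *
            (D w (0, (0, c))).2 := by rw [h4, one_mul]
        _ = deriv U w * (deriv (fib d p b 0 M x) (U w) * (D w (0, (0, c))).2) := by ring
        _ = deriv U w * c := by rw [h3]
    intro a c
    refine ⟨?_, ?_⟩
    · change ‖(D w (0, (a, c))).1‖ ≤ _
      rw [hfst, norm_mul, norm_inv]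
    · change ‖(D w (0, (a, c))).2‖ ≤ _
      have h3 : ((0 : Coef d), ((a, c) : X2)) = (0, (0, c)) + (0, (a, 0)) := by
        simp
      rw [h3, map_add, Prod.snd_add, hsnd0]
      have h4 : ‖(D w (0, (a, 0))).2‖ ≤ max C0 0 * ‖a‖ := by
        calc ‖(D w (0, (a, 0))).2‖ ≤ ‖D w (0, (a, 0))‖ := norm_snd_le _
          _ ≤ ‖D w‖ * ‖((0 : Coef d), ((a, 0) : X2))‖ := ContinuousLinearMap.le_opNorm _ _
          _ = ‖D w‖ * ‖a‖ := by
              congr 1
              rw [Prod.norm_def, Prod.norm_def]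
              simp
          _ ≤ max C0 0 * ‖a‖ :=
              mul_le_mul_of_nonneg_right ((hC0 w hw).trans (le_max_left _ _)) (norm_nonneg _)
      calc ‖deriv U w * c + (D w (0, (a, 0))).2‖ ≤ ‖deriv U w * c‖ + ‖(D w (0, (a, 0))).2‖ :=
            norm_add_le _ _
        _ ≤ θ * ‖c‖ + max C0 0 * ‖a‖ := by
            rw [norm_mul]
            exact add_le_add (mul_le_mul_of_nonneg_right (hder w hwR) (norm_nonneg _)) h4

/-- E3b. The iterated function system: finitely many sections `U i` mapping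
`closedBall wb ρ` strictly inside, contracting, with expanding base multipliers.
Proof: E3a for each `i` (`η₀` small). At the skew product, at the points `(x, w)`, the derivative of
`G i` is triangular: first row `(Λ_i⁻¹, 0)` with `‖Λ_i‖ > 1`, second row `(*, deriv (U i) w)`,
`‖deriv (U i) w‖ ≤ θ < 1` (differentiate `T^[M i] (G i F v) = v` with `fderiv_skew_iter`; `U i` is
differentiable with `deriv (U i) w = 1 / deriv (fib ...) (U i w)`). In the norm
`max (α ‖a‖) ‖c‖`, `α ≥ 1` large, all these derivatives have norm `< 1`, uniformly on the compact set; by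
continuity of the derivative the same holds with a constant `θ' < 1` for `F` near the skew product
and `v ∈ closedBall x rP ×ˢ closedBall wb ρ`, `rP` small (enlarge `ρ` to `ρ₁ > ρ` first to have
derivatives at the boundary points; the hypotheses are given on `ball wb R`, `ρ < R`). The bidisc
is convex: Lipschitz; `Cc = α`. It is mapped into its interior: the first coordinate since
`‖(G i F v).1 - x‖ ≤ θ'' rP`, the second since `U i` maps `closedBall wb ρ` into `ball wb ρ` (compactness). -/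
theorem ifs {d : ℕ} (hd : 1 ≤ d) {p : ℂ[X]} (hp : p.natDegree ≤ d) {b : Mon d → ℂ} {x wb : ℂ}
    {ρ R θ : ℝ} (hρ : 0 < ρ) (hρR : ρ < R) (hθ : θ < 1) {ι : Type} [Finite ι] {M : ι → ℕ}
    (hM : ∀ i, 1 ≤ M i)
    (hx : ∀ i, (pt p 0)^[M i] x = x) (hmul : ∀ i, 1 < ‖deriv ((pt p 0)^[M i]) x‖)
    {U : ι → ℂ → ℂ} (hU : ∀ i, DifferentiableOn ℂ (U i) (ball wb R))
    (hinv : ∀ i, ∀ w ∈ ball wb R, fib d p b 0 (M i) x (U i w) = w)
    (hder : ∀ i, ∀ w ∈ ball wb R, ‖deriv (U i) w‖ ≤ θ)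
    (hmap : ∀ i, ∀ w ∈ closedBall wb ρ, U i w ∈ ball wb ρ) {r0 : ℝ} (hr0 : 0 < r0) :
    ∃ δ > 0, ∃ rP > 0, rP ≤ r0 ∧ ∃ Cc θ' : ℝ, 0 ≤ Cc ∧ 0 ≤ θ' ∧ θ' < 1 ∧
      ∃ G : ι → Coef d → X2 → X2,
        (∀ i, ∀ w ∈ closedBall wb ρ, G i (skew d p b) (x, w) = (x, U i w)) ∧
        (∀ i, ∀ F ∈ ball (skew d p b) δ, ∀ v ∈ closedBall x rP ×ˢ closedBall wb ρ,
          G i F v ∈ ball x rP ×ˢ ball wb ρ ∧ Good d (M i) F (G i F v) ∧
          (T d F)^[M i] (G i F v) = v ∧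
          ContDiffAt ℂ 1 (fun q : Coef d × X2 => G i q.1 q.2) (F, v)) ∧
        ∀ F ∈ ball (skew d p b) δ, ∀ (σ : ℕ → ι) (k : ℕ),
          ∀ v ∈ closedBall x rP ×ˢ closedBall wb ρ, ∀ v' ∈ closedBall x rP ×ˢ closedBall wb ρ,
          dist (word (fun i => G i F) σ k v) (word (fun i => G i F) σ k v')
            ≤ Cc * θ' ^ k * dist v v' := by
  classical
  have hsing := fun i => E3_single hd hp (b := b) hρ hρR (hx i) (hmul i) (hU i) (hinv i) (hder i)
  choose δ1 hδ1 G C0 hC0 hG0 hG1 hG2 using hsing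
  set F0 := skew d p b with hF0
  obtain ⟨θ₁, h1a, h1c, h1d, h1b⟩ : ∃ θ₁ : ℝ, 0 ≤ θ₁ ∧ θ < θ₁ ∧
      (∀ i, ‖deriv ((pt p 0)^[M i]) x‖⁻¹ ≤ θ₁) ∧ θ₁ < 1 := by
    have e1 : ∀ᶠ t : ℝ in 𝓝[<] 1, 0 ≤ t :=
      (eventually_ge_nhds (show (0 : ℝ) < 1 by norm_num)).filter_mono nhdsWithin_le_nhds
    have e2 : ∀ᶠ t : ℝ in 𝓝[<] 1, θ < t :=
      (eventually_gt_nhds hθ).filter_mono nhdsWithin_le_nhds
    have e3 : ∀ᶠ t : ℝ in 𝓝[<] 1, ∀ i, ‖deriv ((pt p 0)^[M i]) x‖⁻¹ ≤ t := by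
      rw [eventually_all]
      intro i
      exact (eventually_ge_nhds (inv_lt_one_of_one_lt₀ (hmul i))).filter_mono nhdsWithin_le_nhds
    exact (e1.and (e2.and (e3.and self_mem_nhdsWithin))).exists
  set θ' := (θ₁ + 1) / 2 with hθ'
  have hθ'0 : 0 ≤ θ' := by rw [hθ']; linarith
  have hθ'1 : θ' < 1 := by rw [hθ']; linarith
  have hθ₁θ' : θ₁ < θ' := by rw [hθ']; linarith
  obtain ⟨α, hα1, hα⟩ : ∃ α : ℝ, 1 ≤ α ∧ ∀ i, θ + C0 i / α ≤ θ₁ := by
    have e1 : ∀ᶠ α : ℝ in atTop, ∀ i, θ + C0 i / α ≤ θ₁ := by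
      rw [eventually_all]
      intro i
      have h : Tendsto (fun α : ℝ => θ + C0 i / α) atTop (𝓝 (θ + 0)) :=
        tendsto_const_nhds.add (tendsto_const_nhds.div_atTop tendsto_id)
      rw [add_zero] at h
      exact h.eventually (Iic_mem_nhds h1c)
    exact ((eventually_ge_atTop 1).and e1).exists
  have hα0 : 0 < α := by linarith
  set Γ : ι → (Coef d × X2) → X2 := fun i q => G i q.1 q.2 with hΓ
  obtain ⟨E, hE⟩ : ∃ E : ι → (Coef d × X2) → (X2 →L[ℂ] X2), ∀ i q, E i q =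
    (E3_L α).comp (((fderiv ℂ (Γ i) q).comp (ContinuousLinearMap.inr ℂ (Coef d) X2)).comp
      (E3_L α⁻¹)) := ⟨_, fun _ _ => rfl⟩
  have hE0 : ∀ i, ∀ w ∈ closedBall wb ρ, ‖E i (F0, (x, w))‖ ≤ θ₁ := by
    intro i w hw
    have hθ0 : 0 ≤ θ := (norm_nonneg _).trans (hder i wb (mem_ball_self (by linarith)))
    rw [hE]
    apply ContinuousLinearMap.opNorm_le_bound _ h1a
    rintro ⟨a, c⟩
    have h2 := hG2 i w hw (((α⁻¹ : ℝ) : ℂ) * a) c
    change ‖E3_L α (fderiv ℂ (Γ i) (F0, (x, w)) (0, E3_L α⁻¹ (a, c)))‖ ≤ _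
    rw [E3_norm_L (by linarith), E3_L_apply α⁻¹]
    have hna : ‖((α⁻¹ : ℝ) : ℂ) * a‖ = α⁻¹ * ‖a‖ := by
      rw [norm_mul, Complex.norm_real, Real.norm_of_nonneg (by positivity)]
    rw [hna] at h2
    have ha : ‖a‖ ≤ ‖((a, c) : X2)‖ := norm_fst_le ((a, c) : X2)
    have hc : ‖c‖ ≤ ‖((a, c) : X2)‖ := norm_snd_le ((a, c) : X2)
    refine max_le ?_ ?_
    · calc α * ‖(fderiv ℂ (Γ i) (F0, (x, w)) (0, (((α⁻¹ : ℝ) : ℂ) * a, c))).1‖
          ≤ α * (‖deriv ((pt p 0)^[M i]) x‖⁻¹ * (α⁻¹ * ‖a‖)) :=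
            mul_le_mul_of_nonneg_left h2.1 hα0.le
        _ = ‖deriv ((pt p 0)^[M i]) x‖⁻¹ * ‖a‖ := by field_simp
        _ ≤ θ₁ * ‖((a, c) : X2)‖ := mul_le_mul (h1d i) ha (norm_nonneg _) h1a
    · calc ‖(fderiv ℂ (Γ i) (F0, (x, w)) (0, (((α⁻¹ : ℝ) : ℂ) * a, c))).2‖
          ≤ θ * ‖c‖ + C0 i * (α⁻¹ * ‖a‖) := h2.2
        _ ≤ θ * ‖((a, c) : X2)‖ + C0 i * (α⁻¹ * ‖((a, c) : X2)‖) := by
            have := hC0 i
            gcongr
        _ = (θ + C0 i / α) * ‖((a, c) : X2)‖ := by field_simp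
        _ ≤ θ₁ * ‖((a, c) : X2)‖ := mul_le_mul_of_nonneg_right (hα i) (norm_nonneg _)
  have hΓc : ∀ i, ∀ w ∈ closedBall wb ρ, ContDiffAt ℂ 1 (Γ i) (F0, (x, w)) := fun i w hw =>
    (hG1 i F0 (mem_ball_self (hδ1 i)) (x, w) ⟨mem_ball_self (hδ1 i), hw⟩).2.2
  have hEc : ∀ i, ∀ w ∈ closedBall wb ρ, ContinuousAt (E i) (F0, (x, w)) := by
    intro i w hw
    have h4 : ContinuousAt (fderiv ℂ (Γ i)) (F0, (x, w)) :=
      ((hΓc i w hw).fderiv_right (m := 0) (by norm_num)).continuousAt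
    have h5 : E i = fun q => (E3_L α).comp (((fderiv ℂ (Γ i) q).comp
        (ContinuousLinearMap.inr ℂ (Coef d) X2)).comp (E3_L α⁻¹)) := funext (hE i)
    rw [h5]
    exact continuousAt_const.clm_comp ((h4.clm_comp continuousAt_const).clm_comp
      continuousAt_const)
  have hA : ∀ᶠ y : Coef d × ℂ in 𝓝 (F0, x), ∀ w ∈ closedBall wb ρ, ∀ i,
      ‖E i (y.1, (y.2, w))‖ < θ' ∧ (G i y.1 (y.2, w)).2 ∈ ball wb ρ := by
    apply (isCompact_closedBall wb ρ).eventually_forall_of_forall_eventually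
      (P := fun (y : Coef d × ℂ) (w : ℂ) => ∀ i, ‖E i (y.1, (y.2, w))‖ < θ' ∧
        (G i y.1 (y.2, w)).2 ∈ ball wb ρ)
    intro w hw
    rw [eventually_all]
    intro i
    have hc : ContinuousAt (fun z : (Coef d × ℂ) × ℂ => ((z.1.1, (z.1.2, z.2)) : Coef d × X2))
        ((F0, x), w) := by fun_prop
    have h5 : ContinuousAt (fun z : (Coef d × ℂ) × ℂ => ‖E i (z.1.1, (z.1.2, z.2))‖)
        ((F0, x), w) :=
      (ContinuousAt.comp (f := fun z : (Coef d × ℂ) × ℂ =>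
        ((z.1.1, (z.1.2, z.2)) : Coef d × X2)) (hEc i w hw) hc).norm
    have h6 : ContinuousAt (fun z : (Coef d × ℂ) × ℂ => (G i z.1.1 (z.1.2, z.2)).2)
        ((F0, x), w) :=
      (ContinuousAt.comp (g := Γ i) (f := fun z : (Coef d × ℂ) × ℂ =>
        ((z.1.1, (z.1.2, z.2)) : Coef d × X2)) (hΓc i w hw).continuousAt hc).snd
    have h7 : ∀ᶠ z : (Coef d × ℂ) × ℂ in 𝓝 ((F0, x), w), ‖E i (z.1.1, (z.1.2, z.2))‖ < θ' :=
      h5.eventually (Iio_mem_nhds ((hE0 i w hw).trans_lt hθ₁θ'))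
    have h8 : ∀ᶠ z : (Coef d × ℂ) × ℂ in 𝓝 ((F0, x), w),
        (G i z.1.1 (z.1.2, z.2)).2 ∈ ball wb ρ := by
      apply h6.eventually
      apply isOpen_ball.mem_nhds
      change (G i F0 (x, w)).2 ∈ ball wb ρ
      rw [hG0 i w hw]
      exact hmap i w hw
    exact h7.and h8
  have hB : ∀ᶠ y : Coef d × ℂ in 𝓝 (F0, x), ∀ i, y.1 ∈ ball F0 (δ1 i) ∧ y.2 ∈ ball x (δ1 i) := by
    rw [eventually_all]
    intro i
    exact ((isOpen_ball.prod isOpen_ball).mem_nhds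
      ⟨mem_ball_self (hδ1 i), mem_ball_self (hδ1 i)⟩ :
        ball F0 (δ1 i) ×ˢ ball x (δ1 i) ∈ 𝓝 (F0, x))
  obtain ⟨δA, hδA, hAB⟩ := Metric.eventually_nhds_iff_ball.mp (hA.and hB)
  have hAB' : ∀ F ∈ ball F0 δA, ∀ z ∈ ball x δA,
      (∀ w ∈ closedBall wb ρ, ∀ i, ‖E i (F, (z, w))‖ < θ' ∧ (G i F (z, w)).2 ∈ ball wb ρ) ∧
      ∀ i, F ∈ ball F0 (δ1 i) ∧ z ∈ ball x (δ1 i) := by
    intro F hF z hz
    have h3 : ((F, z) : Coef d × ℂ) ∈ ball (F0, x) δA := by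
      rw [← ball_prod_same]
      exact ⟨hF, hz⟩
    have h4 := hAB (F, z) h3
    exact ⟨fun w hw i => h4.1 w hw i, fun i => h4.2 i⟩
  set rP := min r0 (δA / 2) with hrP
  have hrP0 : 0 < rP := lt_min hr0 (by linarith)
  have hrPδ : rP < δA := (min_le_right _ _).trans_lt (by linarith)
  have hcb : closedBall x rP ⊆ ball x δA := closedBall_subset_ball hrPδ
  set P : Set X2 := closedBall x rP ×ˢ closedBall wb ρ with hP
  have hPc : Convex ℝ P := (convex_closedBall x rP).prod (convex_closedBall wb ρ)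
  have hC : ∀ᶠ F : Coef d in 𝓝 F0, ∀ w ∈ closedBall wb ρ, ∀ i,
      ‖(G i F (x, w)).1 - x‖ < (1 - θ') * rP := by
    apply (isCompact_closedBall wb ρ).eventually_forall_of_forall_eventually
      (P := fun (F : Coef d) (w : ℂ) => ∀ i, ‖(G i F (x, w)).1 - x‖ < (1 - θ') * rP)
    intro w hw
    rw [eventually_all]
    intro i
    have hc : ContinuousAt (fun z : Coef d × ℂ => ((z.1, (x, z.2)) : Coef d × X2))
        (F0, w) := by fun_prop
    have h6 : ContinuousAt (fun z : Coef d × ℂ => ‖(G i z.1 (x, z.2)).1 - x‖) (F0, w) :=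
      ((ContinuousAt.comp (g := Γ i) (f := fun z : Coef d × ℂ =>
        ((z.1, (x, z.2)) : Coef d × X2)) (hΓc i w hw).continuousAt hc).fst.sub
          continuousAt_const).norm
    have h8 : ‖(G i F0 (x, w)).1 - x‖ < (1 - θ') * rP := by
      rw [hG0 i w hw, sub_self, norm_zero]
      exact mul_pos (by linarith) hrP0
    exact h6.eventually (Iio_mem_nhds h8)
  obtain ⟨δC, hδC, hC'⟩ := Metric.eventually_nhds_iff_ball.mp hC
  have hLip : ∀ i, ∀ F ∈ ball F0 δA, ∀ v ∈ P, ∀ v' ∈ P,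
      ‖E3_L α (G i F v - G i F v')‖ ≤ θ' * ‖E3_L α (v - v')‖ := by
    intro i F hF v hv v' hv'
    set h : X2 → X2 := fun u => E3_L α (G i F (E3_L α⁻¹ u)) with hh
    set S : Set X2 := (E3_L α⁻¹) ⁻¹' P with hS
    have hSc : Convex ℝ S :=
      hPc.linear_preimage ((E3_L α⁻¹).restrictScalars ℝ : X2 →ₗ[ℝ] X2)
    have h1 : ∀ u ∈ S, HasFDerivWithinAt h (E i (F, E3_L α⁻¹ u)) S u := by
      intro u hu
      have hu' : E3_L α⁻¹ u ∈ P := hu
      have h0 := (hAB' F hF _ (hcb hu'.1)).2 i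
      have h2 : DifferentiableAt ℂ (Γ i) (F, E3_L α⁻¹ u) :=
        (hG1 i F h0.1 _ ⟨h0.2, hu'.2⟩).2.2.differentiableAt (by norm_num)
      have h3 : HasFDerivAt (fun v : X2 => G i F v)
          ((fderiv ℂ (Γ i) (F, E3_L α⁻¹ u)).comp (ContinuousLinearMap.inr ℂ (Coef d) X2))
          (E3_L α⁻¹ u) := by
        have h4 : HasFDerivAt (fun v : X2 => ((F, v) : Coef d × X2))
            (ContinuousLinearMap.inr ℂ (Coef d) X2) (E3_L α⁻¹ u) :=
          hasFDerivAt_prodMk_right F (E3_L α⁻¹ u)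
        exact HasFDerivAt.comp (g := Γ i) (E3_L α⁻¹ u) h2.hasFDerivAt h4
      have h5 := HasFDerivAt.comp u h3 (E3_L α⁻¹).hasFDerivAt
      have h6 := HasFDerivAt.comp u (E3_L α).hasFDerivAt h5
      rw [hE]
      exact h6.hasFDerivWithinAt
    have h2 : ∀ u ∈ S, ‖E i (F, E3_L α⁻¹ u)‖ ≤ θ' := by
      intro u hu
      have hu' : E3_L α⁻¹ u ∈ P := hu
      exact (((hAB' F hF _ (hcb hu'.1)).1 _ hu'.2 i).1).le
    have hm : ∀ v ∈ P, E3_L α v ∈ S := by
      intro v hv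
      change E3_L α⁻¹ (E3_L α v) ∈ P
      rwa [E3_L_inv' hα0]
    have h3 := hSc.norm_image_sub_le_of_norm_hasFDerivWithin_le h1 h2 (hm v' hv') (hm v hv)
    have hhv : ∀ v : X2, h (E3_L α v) = E3_L α (G i F v) := by
      intro v
      rw [hh]
      simp only [E3_L_inv' hα0]
    rw [hhv, hhv, ← map_sub, ← map_sub] at h3
    exact h3
  have hmaps : ∀ i, ∀ F ∈ ball F0 (min δA δC), ∀ v ∈ P,
      G i F v ∈ ball x rP ×ˢ ball wb ρ := by
    intro i F hF v hv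
    have hFA : F ∈ ball F0 δA := ball_subset_ball (min_le_left _ _) hF
    have hFC : F ∈ ball F0 δC := ball_subset_ball (min_le_right _ _) hF
    refine ⟨?_, ((hAB' F hFA _ (hcb hv.1)).1 _ hv.2 i).2⟩
    have hv' : ((x, v.2) : X2) ∈ P := ⟨mem_closedBall_self hrP0.le, hv.2⟩
    have h3 := hLip i F hFA v hv _ hv'
    rw [E3_norm_L hα0.le, E3_norm_L hα0.le] at h3
    have h4 : α * ‖(G i F v - G i F (x, v.2)).1‖ ≤ θ' * (α * ‖v.1 - x‖) := by
      calc α * ‖(G i F v - G i F (x, v.2)).1‖ ≤ _ := le_max_left _ _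
        _ ≤ _ := h3
        _ = θ' * (α * ‖v.1 - x‖) := by
            congr 1
            have h5 : (v - ((x, v.2) : X2)).2 = 0 := sub_self _
            have h6 : (v - ((x, v.2) : X2)).1 = v.1 - x := rfl
            rw [h5, h6, norm_zero]
            exact max_eq_left (by positivity)
    have h5 : ‖(G i F v).1 - (G i F (x, v.2)).1‖ ≤ θ' * rP := by
      have h6 : α * ‖(G i F v).1 - (G i F (x, v.2)).1‖ ≤ α * (θ' * rP) := by
        calc α * ‖(G i F v).1 - (G i F (x, v.2)).1‖ ≤ θ' * (α * ‖v.1 - x‖) := h4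
          _ ≤ θ' * (α * rP) := by
              have h7 : ‖v.1 - x‖ ≤ rP := by
                rw [← dist_eq_norm]
                exact mem_closedBall.mp hv.1
              gcongr
          _ = α * (θ' * rP) := by ring
      exact le_of_mul_le_mul_left h6 hα0
    have h6 := hC' F hFC v.2 hv.2 i
    rw [mem_ball, dist_eq_norm]
    calc ‖(G i F v).1 - x‖ = ‖((G i F v).1 - (G i F (x, v.2)).1) +
          ((G i F (x, v.2)).1 - x)‖ := by
          congr 1
          ring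
      _ ≤ ‖(G i F v).1 - (G i F (x, v.2)).1‖ + ‖(G i F (x, v.2)).1 - x‖ := norm_add_le _ _
      _ < θ' * rP + (1 - θ') * rP := add_lt_add_of_le_of_lt h5 h6
      _ = rP := by ring
  refine ⟨min δA δC, lt_min hδA hδC, rP, hrP0, min_le_left _ _, α, θ', hα0.le, hθ'0, hθ'1, G, hG0,
    ?_, ?_⟩
  · intro i F hF v hv
    have hFA : F ∈ ball F0 δA := ball_subset_ball (min_le_left _ _) hF
    have h0 := (hAB' F hFA _ (hcb hv.1)).2 i
    have h1 := hG1 i F h0.1 v ⟨h0.2, hv.2⟩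
    exact ⟨hmaps i F hF v hv, h1.1, h1.2.1, h1.2.2⟩
  · intro F hF σ k v hv v' hv'
    have hFA : F ∈ ball F0 δA := ball_subset_ball (min_le_left _ _) hF
    have hPP : ∀ i, ∀ v ∈ P, G i F v ∈ P := by
      intro i v hv
      have h1 := hmaps i F hF v hv
      exact ⟨ball_subset_closedBall h1.1, ball_subset_closedBall h1.2⟩
    have hk : ∀ k : ℕ, ∀ v ∈ P, ∀ v' ∈ P,
        ‖E3_L α (word (fun i => G i F) σ k v - word (fun i => G i F) σ k v')‖ ≤
          θ' ^ k * ‖E3_L α (v - v')‖ := by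
      intro k
      induction k with
      | zero =>
        intro v _ v' _
        simp [word]
      | succ k ih =>
        intro v hv v' hv'
        calc ‖E3_L α (word (fun i => G i F) σ (k + 1) v - word (fun i => G i F) σ (k + 1) v')‖
            ≤ θ' ^ k * ‖E3_L α (G (σ k) F v - G (σ k) F v')‖ :=
              ih _ (hPP _ v hv) _ (hPP _ v' hv')
          _ ≤ θ' ^ k * (θ' * ‖E3_L α (v - v')‖) :=
              mul_le_mul_of_nonneg_left (hLip _ F hFA v hv v' hv') (by positivity)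
          _ = θ' ^ (k + 1) * ‖E3_L α (v - v')‖ := by ring
    rw [dist_eq_norm, dist_eq_norm]
    calc ‖word (fun i => G i F) σ k v - word (fun i => G i F) σ k v'‖
        ≤ ‖E3_L α (word (fun i => G i F) σ k v - word (fun i => G i F) σ k v')‖ :=
          E3_le hα1 _
      _ ≤ θ' ^ k * ‖E3_L α (v - v')‖ := hk k v hv v' hv'
      _ ≤ θ' ^ k * (α * ‖v - v'‖) := mul_le_mul_of_nonneg_left (E3_ge hα1 _) (by positivity)
      _ = α * θ' ^ k * ‖v - v'‖ := by ring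


end SkewBif
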