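import Pool.Agent.SK.A5
import Pool.Agent.SK.E1
/-! ## MP_9cfccf_an, module E3a -/
open Set Metric Filter Topology Polynomial
namespace SkewBif

private lemma E3a_equiv {d : ℕ} (hd : 1 ≤ d) {p : ℂ[X]} (hp : p.natDegree ≤ d)
    (b : Mon d → ℂ) (N : ℕ) (z w : ℂ) (h1 : deriv ((pt p 0)^[N]) z ≠ 0)
    (h2 : deriv (fib d p b 0 N z) w ≠ 0) :
    ∃ A : X2 ≃L[ℂ] X2, (A : X2 →L[ℂ] X2) = fderiv ℂ ((T d (skew d p b))^[N]) (z, w) := by
  obtain ⟨s, hs⟩ := fderiv_skew_iter hd hp b 0 N z w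
  have hinj : Function.Injective
      ((fderiv ℂ ((T d (skew d p b))^[N]) (z, w) : X2 →L[ℂ] X2) : X2 →ₗ[ℂ] X2) := by
    rw [← LinearMap.ker_eq_bot, LinearMap.ker_eq_bot']
    rintro ⟨a, c⟩ hac
    have h3 : fderiv ℂ ((T d (skew d p b))^[N]) (z, w) (a, c) = 0 := hac
    have h4 := hs a c
    unfold skew at h3
    rw [h3] at h4
    have h5 : deriv ((pt p 0)^[N]) z * a = 0 := (congrArg Prod.fst h4).symm
    have h6 : s * a + deriv (fib d p b 0 N z) w * c = 0 := (congrArg Prod.snd h4).symm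
    have ha : a = 0 := (mul_eq_zero.1 h5).resolve_left h1
    rw [ha, mul_zero, zero_add] at h6
    have hc : c = 0 := (mul_eq_zero.1 h6).resolve_left h2
    rw [ha, hc]
    rfl
  refine ⟨(LinearEquiv.ofInjectiveEndo _ hinj).toContinuousLinearEquiv, ?_⟩
  exact ContinuousLinearMap.ext fun v => rfl


/-- E3a. Extension of a fiber inverse branch `U` (over the periodic base point `x`) to an inverse
branch of `(T d F)^[M]` for `F` near the skew product and base coordinate near `x`.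
Proof: A5 with parameter `(F, z)`, `Y ∋ w`, `V = X2 ∋ v`,
`H ((F, z), w, v) = (T d F)^[M] v - (z, w)`, `s w = (x, U w)`; the derivative in `v` at the skew product is the
triangular map of `fderiv_skew_iter`, invertible. `Good` is open and holds at the skew product. -/
theorem branch2D {d : ℕ} (hd : 1 ≤ d) {p : ℂ[X]} (hp : p.natDegree ≤ d) {b : Mon d → ℂ} {M : ℕ}
    {x : ℂ} (hx : (pt p 0)^[M] x = x) (hmul : deriv ((pt p 0)^[M]) x ≠ 0) {wb : ℂ} {ρ : ℝ}
    {U : ℂ → ℂ} (hU : ContinuousOn U (closedBall wb ρ))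
    (hinv : ∀ w ∈ closedBall wb ρ, fib d p b 0 M x (U w) = w ∧
      deriv (fib d p b 0 M x) (U w) ≠ 0) {η₀ : ℝ} (hη₀ : 0 < η₀) :
    ∃ δ > 0, ∃ η > 0, η ≤ η₀ ∧ ∃ G : Coef d → X2 → X2,
      (∀ w ∈ closedBall wb ρ, G (skew d p b) (x, w) = (x, U w)) ∧
      ContinuousOn (fun q : Coef d × X2 => G q.1 q.2)
        (ball (skew d p b) δ ×ˢ (ball x δ ×ˢ closedBall wb ρ)) ∧
      ∀ F ∈ ball (skew d p b) δ, ∀ v ∈ ball x δ ×ˢ closedBall wb ρ,
        dist (G F v) (x, U v.2) < η ∧ Good d M F (G F v) ∧ (T d F)^[M] (G F v) = v ∧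
        (∀ v', dist v' (x, U v.2) < η → Good d M F v' → (T d F)^[M] v' = v → v' = G F v) ∧
        (v.2 ∈ ball wb ρ → ContDiffAt ℂ 1 (fun q : Coef d × X2 => G q.1 q.2) (F, v)) := by
  have hgood : ∀ v : X2, Good d M (skew d p b) v := fun v => good_fam hd hp b 0 0 M v
  have hT : ∀ z w : ℂ, (T d (skew d p b))^[M] (z, w) =
      ((pt p 0)^[M] z, fib d p b 0 M z w) := fun z w => T_skew_iter hd hp b 0 M z w
  have hs : ContinuousOn (fun w => ((x, U w) : X2)) (closedBall wb ρ) :=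
    continuousOn_const.prodMk hU
  -- uniform goodness
  have hcomp : IsCompact (({skew d p b} : Set (Coef d)) ×ˢ
      ((fun w => ((x, U w) : X2)) '' closedBall wb ρ)) :=
    isCompact_singleton.prod ((isCompact_closedBall _ _).image_of_continuousOn hs)
  obtain ⟨r, hr, hrsub⟩ := hcomp.exists_thickening_subset_open (good_open d M) (by
    rintro ⟨F, v⟩ ⟨hF, -⟩
    have hF' : F = skew d p b := hF
    change Good d M F v
    rw [hF']
    exact hgood v)
  have hgood2 : ∀ F ∈ ball (skew d p b) r, ∀ w ∈ closedBall wb ρ, ∀ v, dist v (x, U w) < r →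
      Good d M F v := by
    intro F hF w hw v hv
    have : (F, v) ∈ Metric.thickening r (({skew d p b} : Set (Coef d)) ×ˢ
        ((fun w => ((x, U w) : X2)) '' closedBall wb ρ)) := by
      rw [Metric.mem_thickening_iff]
      refine ⟨(skew d p b, (x, U w)), ⟨rfl, ⟨w, hw, rfl⟩⟩, ?_⟩
      rw [Prod.dist_eq]
      exact max_lt hF hv
    exact hrsub this
  obtain ⟨δ, hδ, η, hη, hηe, φ, hφ0, hφc, hφ⟩ := uib
    (H := fun q : (Coef d × ℂ) × ℂ × X2 => (T d q.1.1)^[M] q.2.2 - (q.1.2, q.2.1))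
    (p₀ := (skew d p b, x)) (K := closedBall wb ρ) (isCompact_closedBall _ _)
    (s := fun w => ((x, U w) : X2)) hs
    (by
      intro w _
      have h1 : ContDiffAt ℂ 1 (fun q : Coef d × X2 => (T d q.1)^[M] q.2)
        (skew d p b, (x, U w)) := iter_contDiffAt (hgood _) 1
      have h2 : ContDiffAt ℂ 1 (fun q : (Coef d × ℂ) × ℂ × X2 => (q.1.1, q.2.2))
        ((skew d p b, x), w, (x, U w)) := by fun_prop
      have h3 : ContDiffAt ℂ 1 (fun q : (Coef d × ℂ) × ℂ × X2 => (T d q.1.1)^[M] q.2.2)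
        ((skew d p b, x), w, (x, U w)) :=
        ContDiffAt.comp (g := fun q : Coef d × X2 => (T d q.1)^[M] q.2)
          (f := fun q : (Coef d × ℂ) × ℂ × X2 => (q.1.1, q.2.2)) _ h1 h2
      exact h3.sub (by fun_prop))
    (by
      intro w hw
      simp only
      rw [hT, hx, (hinv w hw).1, sub_self])
    (by
      intro w hw
      obtain ⟨A, hA⟩ := E3a_equiv hd hp b M x (U w) hmul (hinv w hw).2
      refine ⟨A, ?_⟩
      have h1 : ContDiffAt ℂ 1 (fun q : Coef d × X2 => (T d q.1)^[M] q.2)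
        (skew d p b, (x, U w)) := iter_contDiffAt (hgood _) 1
      have h2 : DifferentiableAt ℂ (fun v : X2 => (skew d p b, v)) (x, U w) := by fun_prop
      have h3 : DifferentiableAt ℂ ((T d (skew d p b))^[M]) (x, U w) :=
        DifferentiableAt.comp (g := fun q : Coef d × X2 => (T d q.1)^[M] q.2)
          (f := fun v : X2 => (skew d p b, v)) _ (h1.differentiableAt one_ne_zero) h2
      rw [hA]
      have h4 := h3.hasFDerivAt.sub_const ((x, w) : X2)
      exact h4)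
    (η₀ := min η₀ r) (lt_min hη₀ hr)
  refine ⟨min δ r, lt_min hδ hr, η, hη, hηe.trans (min_le_left _ _),
    fun F v => φ (F, v.1) v.2, fun w hw => hφ0 w hw, ?_, ?_⟩
  · have h1 : ContinuousOn (fun q : Coef d × X2 => (((q.1, q.2.1), q.2.2) : (Coef d × ℂ) × ℂ))
      (ball (skew d p b) (min δ r) ×ˢ (ball x (min δ r) ×ˢ closedBall wb ρ)) := by fun_prop
    refine hφc.comp h1 ?_
    rintro ⟨F, v⟩ ⟨hF, hv1, hv2⟩
    refine ⟨?_, hv2⟩
    rw [← ball_prod_same]
    exact ⟨ball_subset_ball (min_le_left _ _) hF, ball_subset_ball (min_le_left _ _) hv1⟩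
  · rintro F hF v ⟨hv1, hv2⟩
    have hFz : (F, v.1) ∈ ball (skew d p b, x) δ := by
      rw [← ball_prod_same]
      exact ⟨ball_subset_ball (min_le_left _ _) hF, ball_subset_ball (min_le_left _ _) hv1⟩
    obtain ⟨h1, h2, h3, h4⟩ := hφ _ hFz v.2 hv2
    refine ⟨h1, ?_, sub_eq_zero.1 h2, ?_, ?_⟩
    · exact hgood2 F (ball_subset_ball (min_le_right _ _) hF) v.2 hv2 _
        (h1.trans_le (hηe.trans (min_le_right _ _)))
    · intro v' hv' _ hTv
      refine h3 v' hv' ?_
      simp only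
      rw [hTv]
      exact sub_self _
    · intro hvb
      have h5 := h4 (ball_subset_interior_closedBall hvb)
      have h6 : ContDiffAt ℂ 1 (fun q : Coef d × X2 => (((q.1, q.2.1), q.2.2) : (Coef d × ℂ) × ℂ))
        (F, v) := by fun_prop
      exact h5.comp (F, v) h6

end SkewBif
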