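import Pool.Agent.SK.A5
import Pool.Agent.SK.E1
/-! ## MP_9cfccf_an, module E4a -/
open Set Metric Filter Topology Polynomial
namespace SkewBif

private lemma E4a_equiv {d : ℕ} (hd : 1 ≤ d) {p : ℂ[X]} (hp : p.natDegree ≤ d)
    (b : Mon d → ℂ) (N : ℕ) (z w : ℂ) (h1 : deriv ((pt p 0)^[N]) z ≠ 0)
    (h2 : deriv (fib d p b 0 N z) w ≠ 0) :
    ∃ A : X2 ≃L[ℂ] X2, (A : X2 →L[ℂ] X2) = fderiv ℂ ((T d (skew d p b))^[N]) (z, w) := by
  obtain ⟨s, hs⟩ := fderiv_skew_iter hd hp b 0 N z w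
  have hinj : Function.Injective
      ((fderiv ℂ ((T d (skew d p b))^[N]) (z, w) : X2 →L[ℂ] X2) : X2 →ₗ[ℂ] X2) := by
    rw [← LinearMap.ker_eq_bot, LinearMap.ker_eq_bot']
    rintro ⟨a, c⟩ hac
    have h3 : fderiv ℂ ((T d (skew d p b))^[N]) (z, w) (a, c) = 0 := hac
    have h4 := hs a c
    unfold skew at h3
    rw [h3] at h4
    have h5 : deriv ((pt p 0)^[N]) z * a = 0 := (congrArg Prod.fst h4).symm
    have h6 : s * a + deriv (fib d p b 0 N z) w * c = 0 := (congrArg Prod.snd h4).symm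
    have ha : a = 0 := (mul_eq_zero.1 h5).resolve_left h1
    rw [ha, mul_zero, zero_add] at h6
    have hc : c = 0 := (mul_eq_zero.1 h6).resolve_left h2
    rw [ha, hc]
    rfl
  refine ⟨(LinearEquiv.ofInjectiveEndo _ hinj).toContinuousLinearEquiv, ?_⟩
  exact ContinuousLinearMap.ext fun v => rfl



/-- E4a. Local inverse branch near a point where the derivative of the iterate is invertible.
(A5 with `K` a point, or the inverse function theorem for `(F, v) ↦ (F, T^[M] v)`.) -/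
theorem local_inverse {d : ℕ} (hd : 1 ≤ d) {p : ℂ[X]} (hp : p.natDegree ≤ d) {b : Mon d → ℂ}
    {M : ℕ} {y w : ℂ} (hyd : deriv ((pt p 0)^[M]) y ≠ 0) (hwd : deriv (fib d p b 0 M y) w ≠ 0)
    {O : Set X2} (hO : IsOpen O) (hyw : (y, w) ∈ O) :
    ∃ δ > 0, ∃ G : Coef d → X2 → X2, ∀ F ∈ ball (skew d p b) δ,
      ∀ u ∈ ball ((pt p 0)^[M] y, fib d p b 0 M y w) δ, G F u ∈ O ∧ Good d M F (G F u) ∧
        (T d F)^[M] (G F u) = u ∧ ContDiffAt ℂ 1 (fun q : Coef d × X2 => G q.1 q.2) (F, u) := by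
  have hgood : ∀ v : X2, Good d M (skew d p b) v := fun v => good_fam hd hp b 0 0 M v
  have hT : ∀ z w : ℂ, (T d (skew d p b))^[M] (z, w) =
      ((pt p 0)^[M] z, fib d p b 0 M z w) := fun z w => T_skew_iter hd hp b 0 M z w
  obtain ⟨A, hA⟩ := E4a_equiv hd hp b M y w hyd hwd
  set u₀ : X2 := ((pt p 0)^[M] y, fib d p b 0 M y w) with hu₀
  set f : (Coef d × X2) × X2 → X2 := fun q => (T d q.1.1)^[M] q.2 - q.1.2 with hfdef
  have hc1 : ContDiffAt ℂ 1 (fun q : Coef d × X2 => (T d q.1)^[M] q.2) (skew d p b, (y, w)) :=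
    iter_contDiffAt (hgood _) 1
  have hf : ContDiffAt ℂ 1 f ((skew d p b, u₀), (y, w)) := by
    have h2 : ContDiffAt ℂ 1 (fun q : (Coef d × X2) × X2 => (q.1.1, q.2))
      ((skew d p b, u₀), (y, w)) := by fun_prop
    have h3 : ContDiffAt ℂ 1 (fun q : (Coef d × X2) × X2 => (T d q.1.1)^[M] q.2)
      ((skew d p b, u₀), (y, w)) :=
      ContDiffAt.comp (g := fun q : Coef d × X2 => (T d q.1)^[M] q.2)
        (f := fun q : (Coef d × X2) × X2 => (q.1.1, q.2)) _ hc1 h2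
    exact h3.sub (by fun_prop)
  have h0 : f ((skew d p b, u₀), (y, w)) = 0 := by
    simp only [hfdef]
    rw [hT, hu₀, sub_self]
  have hd' : HasFDerivAt f (fderiv ℂ f ((skew d p b, u₀), (y, w))) ((skew d p b, u₀), (y, w)) :=
    (hf.differentiableAt one_ne_zero).hasFDerivAt
  have hcomp : HasFDerivAt (fun v => f ((skew d p b, u₀), v))
      (fderiv ℂ f ((skew d p b, u₀), (y, w)) ∘L ContinuousLinearMap.inr ℂ (Coef d × X2) X2) (y, w) :=
    hd'.comp (y, w) (hasFDerivAt_prodMk_right (skew d p b, u₀) (y, w))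
  have hcomp2 : HasFDerivAt (fun v => f ((skew d p b, u₀), v)) (A : X2 →L[ℂ] X2) (y, w) := by
    have h2 : DifferentiableAt ℂ (fun v : X2 => (skew d p b, v)) (y, w) := by fun_prop
    have h3 : DifferentiableAt ℂ ((T d (skew d p b))^[M]) (y, w) :=
      DifferentiableAt.comp (g := fun q : Coef d × X2 => (T d q.1)^[M] q.2)
        (f := fun v : X2 => (skew d p b, v)) _ (hc1.differentiableAt one_ne_zero) h2
    rw [hA]
    have h4 := h3.hasFDerivAt.sub_const u₀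
    exact h4
  have if₂ : (fderiv ℂ f ((skew d p b, u₀), (y, w)) ∘L
      ContinuousLinearMap.inr ℂ (Coef d × X2) X2).IsInvertible := ⟨A, hcomp2.unique hcomp⟩
  set g := hf.implicitFunction one_ne_zero if₂ with hg
  have hg0 : g (skew d p b, u₀) = (y, w) := hf.implicitFunction_apply_self one_ne_zero if₂
  have hg1 : ∀ᶠ q in 𝓝 (skew d p b, u₀), ContDiffAt ℂ 1 g q :=
    (hf.contDiffAt_implicitFunction one_ne_zero if₂).eventually (by simp)
  have hg2 : ∀ᶠ q in 𝓝 (skew d p b, u₀), f (q, g q) = 0 := by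
    have h := hf.eventually_apply_implicitFunction one_ne_zero if₂
    rw [h0] at h
    exact h
  have hgc : ContinuousAt g (skew d p b, u₀) := hg1.self_of_nhds.continuousAt
  have hg3 : ∀ᶠ q in 𝓝 (skew d p b, u₀), g q ∈ O := by
    apply hgc
    rw [hg0]
    exact hO.mem_nhds hyw
  have hg4 : ∀ᶠ q in 𝓝 (skew d p b, u₀), Good d M q.1 (g q) := by
    have h1 : ContinuousAt (fun q : Coef d × X2 => (q.1, g q)) (skew d p b, u₀) :=
      continuousAt_fst.prodMk hgc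
    have h2 : {q : Coef d × X2 | Good d M q.1 q.2} ∈
        𝓝 ((fun q : Coef d × X2 => (q.1, g q)) (skew d p b, u₀)) :=
      (good_open d M).mem_nhds (hgood _)
    exact h1 h2
  obtain ⟨δ, hδ, h⟩ := Metric.eventually_nhds_iff.1 (hg1.and (hg2.and (hg3.and hg4)))
  refine ⟨δ, hδ, fun F u => g (F, u), ?_⟩
  intro F hF u hu
  obtain ⟨h1, h2, h3, h4⟩ := h (y := (F, u)) (by rw [Prod.dist_eq]; exact max_lt hF hu)
  exact ⟨h3, h4, sub_eq_zero.1 h2, h1⟩

/-- E4b. Solving the second coordinate of the `m2`-th iterate for `w`. -/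
theorem psi_local {d : ℕ} (hd : 1 ≤ d) {p : ℂ[X]} (hp : p.natDegree ≤ d) {b : Mon d → ℂ}
    {m2 : ℕ} {c w0 : ℂ} (hfd : deriv (fib d p b 0 m2 c) w0 ≠ 0) {ρ1 : ℝ} (hρ1 : 0 < ρ1) :
    ∃ ρ0 > 0, ρ0 ≤ ρ1 ∧ ∃ δ > 0, ∃ ψ : Coef d → ℂ → ℂ → ℂ, ∀ F ∈ ball (skew d p b) δ,
      ∀ z ∈ ball c δ, (∀ w ∈ closedBall w0 ρ0, Good d m2 F (z, w)) ∧
      ∀ t ∈ ball (fib d p b 0 m2 c w0) δ,
        ψ F z t ∈ ball w0 ρ0 ∧ ((T d F)^[m2] (z, ψ F z t)).2 = t ∧
        (∀ w ∈ closedBall w0 ρ0, ((T d F)^[m2] (z, w)).2 = t → w = ψ F z t) ∧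
        ContDiffAt ℂ 1 (fun q : Coef d × ℂ × ℂ => ψ q.1 q.2.1 q.2.2) (F, z, t) := by
  have hgood : ∀ v : X2, Good d m2 (skew d p b) v := fun v => good_fam hd hp b 0 0 m2 v
  have hT : ∀ z w : ℂ, (T d (skew d p b))^[m2] (z, w) =
      ((pt p 0)^[m2] z, fib d p b 0 m2 z w) := fun z w => T_skew_iter hd hp b 0 m2 z w
  set t₀ : ℂ := fib d p b 0 m2 c w0 with ht₀
  set f : (Coef d × ℂ × ℂ) × ℂ → ℂ := fun q => ((T d q.1.1)^[m2] (q.1.2.1, q.2)).2 - q.1.2.2
    with hfdef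
  have hc1 : ContDiffAt ℂ 1 (fun q : Coef d × X2 => (T d q.1)^[m2] q.2) (skew d p b, (c, w0)) :=
    iter_contDiffAt (hgood _) 1
  have hf : ContDiffAt ℂ 1 f ((skew d p b, c, t₀), w0) := by
    have h2 : ContDiffAt ℂ 1 (fun q : (Coef d × ℂ × ℂ) × ℂ => (q.1.1, ((q.1.2.1, q.2) : X2)))
      ((skew d p b, c, t₀), w0) := by fun_prop
    have h3 : ContDiffAt ℂ 1 (fun q : (Coef d × ℂ × ℂ) × ℂ => (T d q.1.1)^[m2] (q.1.2.1, q.2))
      ((skew d p b, c, t₀), w0) :=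
      ContDiffAt.comp (g := fun q : Coef d × X2 => (T d q.1)^[m2] q.2)
        (f := fun q : (Coef d × ℂ × ℂ) × ℂ => (q.1.1, ((q.1.2.1, q.2) : X2))) _ hc1 h2
    exact h3.snd.sub (by fun_prop)
  have h0 : f ((skew d p b, c, t₀), w0) = 0 := by
    simp only [hfdef]
    rw [hT, ht₀, sub_self]
  have hd' : HasFDerivAt f (fderiv ℂ f ((skew d p b, c, t₀), w0)) ((skew d p b, c, t₀), w0) :=
    (hf.differentiableAt one_ne_zero).hasFDerivAt
  have hcomp : HasFDerivAt (fun v => f ((skew d p b, c, t₀), v))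
      (fderiv ℂ f ((skew d p b, c, t₀), w0) ∘L
        ContinuousLinearMap.inr ℂ (Coef d × ℂ × ℂ) ℂ) w0 :=
    hd'.comp w0 (hasFDerivAt_prodMk_right (skew d p b, c, t₀) w0)
  have hfun : (fun v => f ((skew d p b, c, t₀), v)) = fun v => fib d p b 0 m2 c v - t₀ := by
    funext v
    simp only [hfdef]
    rw [hT]
  have hder : deriv (fun v => fib d p b 0 m2 c v - t₀) w0 ≠ 0 := by
    rw [deriv_sub_const]
    exact hfd
  have hdiff : DifferentiableAt ℂ (fun v => fib d p b 0 m2 c v - t₀) w0 := by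
    rw [← hfun]
    exact hcomp.differentiableAt
  have hcomp2 := hdiff.hasDerivAt.hasFDerivAt_equiv hder
  rw [hfun] at hcomp
  have if₂ : (fderiv ℂ f ((skew d p b, c, t₀), w0) ∘L
      ContinuousLinearMap.inr ℂ (Coef d × ℂ × ℂ) ℂ).IsInvertible := ⟨_, hcomp2.unique hcomp⟩
  set g := hf.implicitFunction one_ne_zero if₂ with hg
  have hg0 : g (skew d p b, c, t₀) = w0 := hf.implicitFunction_apply_self one_ne_zero if₂
  have hg1 : ∀ᶠ q in 𝓝 (skew d p b, c, t₀), ContDiffAt ℂ 1 g q :=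
    (hf.contDiffAt_implicitFunction one_ne_zero if₂).eventually (by simp)
  have hg2 : ∀ᶠ q in 𝓝 (skew d p b, c, t₀), f (q, g q) = 0 := by
    have h := hf.eventually_apply_implicitFunction one_ne_zero if₂
    rw [h0] at h
    exact h
  have hgu : ∀ᶠ v in 𝓝 ((skew d p b, c, t₀), w0), f v = 0 ↔ g v.1 = v.2 := by
    have h := hf.eventually_apply_eq_iff_implicitFunction one_ne_zero if₂
    rw [h0] at h
    exact h
  have hG : ∀ᶠ v : (Coef d × ℂ × ℂ) × ℂ in 𝓝 ((skew d p b, c, t₀), w0),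
      Good d m2 v.1.1 (v.1.2.1, v.2) := by
    have h1 : ContinuousAt (fun q : (Coef d × ℂ × ℂ) × ℂ => (q.1.1, ((q.1.2.1, q.2) : X2)))
      ((skew d p b, c, t₀), w0) := by fun_prop
    exact h1 ((good_open d m2).mem_nhds (hgood _))
  obtain ⟨r, hr, hrr⟩ := Metric.eventually_nhds_iff.1 (hgu.and hG)
  obtain ⟨ρ0, hρ0, hρ01, hρr⟩ : ∃ ρ0 : ℝ, 0 < ρ0 ∧ ρ0 ≤ ρ1 ∧ ρ0 < r :=
    ⟨min ρ1 (r / 2), lt_min hρ1 (half_pos hr), min_le_left _ _,
      (min_le_right _ _).trans_lt (half_lt_self hr)⟩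
  have hg3 : ∀ᶠ q in 𝓝 (skew d p b, c, t₀), g q ∈ ball w0 ρ0 := by
    apply hg1.self_of_nhds.continuousAt
    rw [hg0]
    exact ball_mem_nhds _ hρ0
  obtain ⟨δ, hδ, h⟩ := Metric.eventually_nhds_iff.1 (hg1.and (hg2.and hg3))
  refine ⟨ρ0, hρ0, hρ01, min δ r, lt_min hδ hr, fun F z t => g (F, z, t), ?_⟩
  intro F hF z hz
  have hF1 : dist F (skew d p b) < r := ball_subset_ball (min_le_right _ _) hF
  have hz1 : dist z c < r := ball_subset_ball (min_le_right _ _) hz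
  refine ⟨?_, ?_⟩
  · intro w hw
    have hq : dist (((F, z, t₀), w) : (Coef d × ℂ × ℂ) × ℂ) ((skew d p b, c, t₀), w0) < r := by
      rw [Prod.dist_eq, Prod.dist_eq, Prod.dist_eq]
      refine max_lt (max_lt hF1 (max_lt hz1 ?_)) ?_
      · simp only
        rw [dist_self]; exact hr
      · exact lt_of_le_of_lt hw hρr
    exact (hrr hq).2
  · intro t ht
    have ht1 : dist t t₀ < r := ball_subset_ball (min_le_right _ _) ht
    have hq : dist ((F, z, t) : Coef d × ℂ × ℂ) (skew d p b, c, t₀) < δ := by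
      rw [Prod.dist_eq, Prod.dist_eq]
      exact max_lt (ball_subset_ball (min_le_left _ _) hF)
        (max_lt (ball_subset_ball (min_le_left _ _) hz) (ball_subset_ball (min_le_left _ _) ht))
    obtain ⟨h1, h2, h3⟩ := h hq
    refine ⟨h3, sub_eq_zero.1 h2, ?_, ?_⟩
    · intro w hw hTw
      have hq : dist (((F, z, t), w) : (Coef d × ℂ × ℂ) × ℂ) ((skew d p b, c, t₀), w0) < r := by
        rw [Prod.dist_eq, Prod.dist_eq, Prod.dist_eq]
        exact max_lt (max_lt hF1 (max_lt hz1 ht1)) (lt_of_le_of_lt hw hρr)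
      have h5 := ((hrr hq).1).1 (by simp only [hfdef]; rw [hTw, sub_self])
      exact h5.symm
    · exact h1

end SkewBif
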