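import Pool.Agent.SK.A5
import Pool.Agent.SK.E1
/-! ## MP_9cfccf_an, module E4b -/
open Set Metric Filter Topology Polynomial
namespace SkewBif

/-- determinant of a triangular map -/
theorem E4b_det (A : X2 →L[ℂ] X2) {α s β : ℂ} (h : ∀ a c : ℂ, A (a, c) = (α * a, s * a + β * c)) :
    A.det = α * β := by
  have h1 : (A : X2 →ₗ[ℂ] X2) =
      Matrix.toLin (Module.Basis.finTwoProd ℂ) (Module.Basis.finTwoProd ℂ) !![α, 0; s, β] := by
    rw [Matrix.toLin_finTwoProd]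
    ext
    · simp [h]
    · simp [h]
    · simp [h]
    · simp [h]
  change LinearMap.det (A : X2 →ₗ[ℂ] X2) = α * β
  rw [h1, LinearMap.det_toLin, Matrix.det_fin_two_of]
  ring

/-- a triangular map is invertible -/
theorem E4b_inv (A : X2 →L[ℂ] X2) {α s β : ℂ} (h : ∀ a c : ℂ, A (a, c) = (α * a, s * a + β * c))
    (hα : α ≠ 0) (hβ : β ≠ 0) : ∃ B : X2 ≃L[ℂ] X2, (B : X2 →L[ℂ] X2) = A := by
  have hinj : Function.Injective (A : X2 →ₗ[ℂ] X2) := by
    rw [← LinearMap.ker_eq_bot, LinearMap.ker_eq_bot']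
    rintro ⟨a, c⟩ hx
    have hx' : A (a, c) = 0 := hx
    rw [h, Prod.mk_eq_zero] at hx'
    obtain ⟨h1, h2⟩ := hx'
    have ha : a = 0 := by
      rcases mul_eq_zero.1 h1 with h | h
      · exact absurd h hα
      · exact h
    rw [ha, mul_zero, zero_add] at h2
    have hc : c = 0 := by
      rcases mul_eq_zero.1 h2 with h | h
      · exact absurd h hβ
      · exact h
    rw [ha, hc]
    rfl
  refine ⟨(LinearEquiv.ofInjectiveEndo (A : X2 →ₗ[ℂ] X2) hinj).toContinuousLinearEquiv, ?_⟩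
  ext x <;> rfl

/-- derivative of `q` in the fiber variable -/
noncomputable def E4b_qw (d : ℕ) (b : Mon d → ℂ) (v : X2) : ℂ :=
  ∑ m : Mon d, b m * (v.1 ^ (m.1.1 : ℕ) * ((m.1.2 : ℕ) * v.2 ^ ((m.1.2 : ℕ) - 1)))

theorem E4b_qw_contDiff (d : ℕ) (b : Mon d → ℂ) (n : WithTop ℕ∞) :
    ContDiff ℂ n (E4b_qw d b) := by
  unfold E4b_qw
  refine ContDiff.sum fun m _ => ?_
  exact contDiff_const.mul ((contDiff_fst.pow _).mul (contDiff_const.mul (contDiff_snd.pow _)))

theorem E4b_qv_deriv (d : ℕ) (b : Mon d → ℂ) (z w : ℂ) :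
    HasDerivAt (qv d b z) (E4b_qw d b (z, w)) w := by
  unfold E4b_qw qv
  refine HasDerivAt.fun_sum fun m _ => ?_
  exact ((hasDerivAt_pow (m.1.2 : ℕ) w).const_mul _).const_mul _

theorem E4b_fib_one (d : ℕ) (p : ℂ[X]) (b : Mon d → ℂ) (τ z w : ℂ) :
    fib d p b τ 1 z w = qv d b z w := rfl

theorem E4b_fib_succ (d : ℕ) (p : ℂ[X]) (b : Mon d → ℂ) (τ z w : ℂ) (k : ℕ) :
    fib d p b τ (k + 1) z w = fib d p b τ k (p.eval z + τ) (qv d b z w) := by
  unfold fib
  rw [Function.iterate_succ_apply]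
  rfl

theorem E4b_slice {d N : ℕ} {F : Coef d} {v : X2} (h : Good d N F v) :
    DifferentiableAt ℂ ((T d F)^[N]) v := by
  have h1 := iter_contDiffAt h 1
  have h2 : ContDiffAt ℂ 1 ((T d F)^[N]) v := ContDiffAt.comp v (f := fun v : X2 => (F, v))
    (g := fun q : Coef d × X2 => (T d q.1)^[N] q.2) h1
    (contDiffAt_const.prodMk contDiffAt_id)
  exact h2.differentiableAt (by simp)

theorem E4b_fib_diff {d : ℕ} (hd : 1 ≤ d) {p : ℂ[X]} (hp : p.natDegree ≤ d) (b : Mon d → ℂ)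
    (τ : ℂ) (N : ℕ) (z w : ℂ) : DifferentiableAt ℂ (fib d p b τ N z) w := by
  have h1 := E4b_slice (good_fam hd hp b 0 τ N (z, w))
  have h2 : DifferentiableAt ℂ (fun w => ((T d (fam d p b 0 τ))^[N] (z, w)).2) w := by
    have h3 : DifferentiableAt ℂ (fun w : ℂ => ((z, w) : X2)) w :=
      (differentiableAt_const z).prodMk differentiableAt_id
    exact (DifferentiableAt.comp w (f := fun w : ℂ => ((z, w) : X2)) h1 h3).snd
  refine h2.congr_of_eventuallyEq (Filter.Eventually.of_forall fun w => ?_)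
  simp only [T_skew_iter hd hp]

/-- the fiber derivative of the first step does not vanish -/
theorem E4b_qw_ne {d : ℕ} (hd : 1 ≤ d) {p : ℂ[X]} (hp : p.natDegree ≤ d) {b : Mon d → ℂ}
    {τ : ℂ} {k : ℕ} (hk : 1 ≤ k) {c w0 : ℂ} (hfd : deriv (fib d p b τ k c) w0 ≠ 0) :
    E4b_qw d b (c, w0) ≠ 0 := by
  intro h0
  apply hfd
  obtain ⟨j, rfl⟩ : ∃ j, k = j + 1 := ⟨k - 1, by omega⟩
  have h1 := (E4b_fib_diff hd hp b τ j (p.eval c + τ) (qv d b c w0)).hasDerivAt
  have h2 := h1.comp w0 (E4b_qv_deriv d b c w0)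
  rw [h0, mul_zero] at h2
  have h3 : fib d p b τ (j + 1) c = fib d p b τ j (p.eval c + τ) ∘ qv d b c := by
    funext w
    exact E4b_fib_succ d p b τ c w j
  rw [h3]
  exact h2.deriv

/-- the determinant of the derivative of the skew product -/
theorem E4b_det_skew {d : ℕ} (hd : 1 ≤ d) {p : ℂ[X]} (hp : p.natDegree ≤ d) (b : Mon d → ℂ)
    (τ : ℂ) (v : X2) :
    (fderiv ℂ (T d (fam d p b 0 τ)) v).det = p.derivative.eval v.1 * E4b_qw d b v := by
  obtain ⟨z, w⟩ := v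
  obtain ⟨s, hs⟩ := fderiv_skew_iter hd hp b τ 1 z w
  rw [Function.iterate_one] at hs
  have h1 : deriv ((pt p τ)^[1]) z = p.derivative.eval z := by
    rw [Function.iterate_one]
    have : HasDerivAt (pt p τ) (p.derivative.eval z) z := by
      unfold pt
      exact (p.hasDerivAt z).add_const τ
    exact this.deriv
  have h2 : deriv (fib d p b τ 1 z) w = E4b_qw d b (z, w) := by
    have : fib d p b τ 1 z = qv d b z := by
      funext w
      exact E4b_fib_one d p b τ z w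
    rw [this]
    exact (E4b_qv_deriv d b z w).deriv
  rw [h1, h2] at hs
  exact E4b_det _ hs

/-- the equation -/
noncomputable def E4b_H (d k : ℕ) (x : (Coef d × ℂ) × ℂ × X2) : X2 :=
  ((fderiv ℂ (T d x.1.1) x.2.2).det, ((T d x.1.1)^[k] x.2.2).2 - x.1.2)

theorem E4b_det_contDiff (n : WithTop ℕ∞) :
    ContDiff ℂ n (fun A : X2 →L[ℂ] X2 => A.det) := by
  have h1 : ∀ A : X2 →L[ℂ] X2, A.det = (A (1, 0)).1 * (A (0, 1)).2 - (A (0, 1)).1 * (A (1, 0)).2 := by
    intro A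
    have h2 : (A : X2 →ₗ[ℂ] X2) =
        Matrix.toLin (Module.Basis.finTwoProd ℂ) (Module.Basis.finTwoProd ℂ)
          !![(A (1, 0)).1, (A (0, 1)).1; (A (1, 0)).2, (A (0, 1)).2] := by
      rw [Matrix.toLin_finTwoProd]
      ext
      · simp
      · simp
      · simp
      · simp
    change LinearMap.det (A : X2 →ₗ[ℂ] X2) = _
    rw [h2, LinearMap.det_toLin, Matrix.det_fin_two_of]
  have h2 : ∀ x : X2, ContDiff ℂ n (fun A : X2 →L[ℂ] X2 => A x) := fun x =>
    (ContinuousLinearMap.apply ℂ X2 x).contDiff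
  have h3 : (fun A : X2 →L[ℂ] X2 => A.det) =
      fun A => (A (1, 0)).1 * (A (0, 1)).2 - (A (0, 1)).1 * (A (1, 0)).2 := funext h1
  rw [h3]
  exact (((h2 _).fst).mul ((h2 _).snd)).sub (((h2 _).fst).mul ((h2 _).snd))

theorem E4b_H_contDiffAt {d k : ℕ} (hk : 1 ≤ k) {F : Coef d} {v : X2} (h : Good d k F v)
    (t y : ℂ) : ContDiffAt ℂ 1 (E4b_H d k) ((F, t), y, v) := by
  unfold E4b_H
  refine ContDiffAt.prodMk ?_ ?_
  · have h1 : ContDiffAt ℂ 2 (fun q : Coef d × X2 => T d q.1 q.2) (F, v) :=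
      T_contDiffAt (h 0 (by omega)) 2
    have h2 : ContDiffAt ℂ 2 (Function.uncurry fun (x : (Coef d × ℂ) × ℂ × X2) (v : X2) =>
        T d x.1.1 v) (((F, t), y, v), v) := by
      have h3 : ContDiffAt ℂ 2 (fun x : ((Coef d × ℂ) × ℂ × X2) × X2 => (x.1.1.1, x.2))
          (((F, t), y, v), v) :=
        (contDiffAt_fst.fst.fst).prodMk contDiffAt_snd
      exact ContDiffAt.comp (((F, t), y, v), v)
        (f := fun x : ((Coef d × ℂ) × ℂ × X2) × X2 => (x.1.1.1, x.2))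
        (g := fun q : Coef d × X2 => T d q.1 q.2) h1 h3
    have h4 : ContDiffAt ℂ 1 (fun x : (Coef d × ℂ) × ℂ × X2 => fderiv ℂ (T d x.1.1) x.2.2)
        ((F, t), y, v) :=
      ContDiffAt.fderiv (f := fun (x : (Coef d × ℂ) × ℂ × X2) (v : X2) => T d x.1.1 v)
        (g := fun x => x.2.2) h2 (contDiffAt_snd.snd) (by norm_num)
    exact (E4b_det_contDiff 1).contDiffAt.comp _ h4
  · have h1 := iter_contDiffAt h 1
    have h3 : ContDiffAt ℂ 1 (fun x : (Coef d × ℂ) × ℂ × X2 => (x.1.1, x.2.2))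
        ((F, t), y, v) := (contDiffAt_fst.fst).prodMk contDiffAt_snd.snd
    have h4 : ContDiffAt ℂ 1 (fun x : (Coef d × ℂ) × ℂ × X2 => (T d x.1.1)^[k] x.2.2)
        ((F, t), y, v) := ContDiffAt.comp ((F, t), y, v)
        (f := fun x : (Coef d × ℂ) × ℂ × X2 => (x.1.1, x.2.2))
        (g := fun q : Coef d × X2 => (T d q.1)^[k] q.2) h1 h3
    exact h4.snd.sub contDiffAt_fst.snd

theorem E4b_hinv {d : ℕ} (hd : 1 ≤ d) {p : ℂ[X]} (hp : p.natDegree ≤ d) {b : Mon d → ℂ}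
    {k : ℕ} (hk : 1 ≤ k) {c w0 : ℂ} (hc : p.derivative.eval c = 0)
    (hc2 : p.derivative.derivative.eval c ≠ 0) (hfd : deriv (fib d p b 0 k c) w0 ≠ 0) (t y : ℂ) :
    ∃ A : X2 ≃L[ℂ] X2, HasFDerivAt (fun v => E4b_H d k ((skew d p b, t), y, v))
      (A : X2 →L[ℂ] X2) (c, w0) := by
  have hq := E4b_qw_ne hd hp hk hfd
  obtain ⟨s, hs⟩ := fderiv_skew_iter hd hp b 0 k c w0
  have h1 : HasFDerivAt (fun v : X2 => p.derivative.eval v.1)
      (p.derivative.derivative.eval c • ContinuousLinearMap.fst ℂ ℂ ℂ) ((c, w0) : X2) := by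
    have h := p.derivative.hasDerivAt c
    have h2 : HasFDerivAt (fun v : X2 => v.1) (ContinuousLinearMap.fst ℂ ℂ ℂ) ((c, w0) : X2) :=
      hasFDerivAt_fst
    exact HasDerivAt.comp_hasFDerivAt (h₂ := fun z => p.derivative.eval z) ((c, w0) : X2) h h2
  have h2 : HasFDerivAt (E4b_qw d b) (fderiv ℂ (E4b_qw d b) (c, w0)) ((c, w0) : X2) :=
    (((E4b_qw_contDiff d b 1).differentiable (by simp)) _).hasFDerivAt
  have h3 := h1.mul h2
  have h4 : HasFDerivAt (fun v : X2 => ((T d (skew d p b))^[k] v).2 - t)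
      ((ContinuousLinearMap.snd ℂ ℂ ℂ).comp (fderiv ℂ ((T d (skew d p b))^[k]) (c, w0)))
      ((c, w0) : X2) := by
    have h5 : HasFDerivAt ((T d (skew d p b))^[k])
        (fderiv ℂ ((T d (skew d p b))^[k]) (c, w0)) ((c, w0) : X2) :=
      (E4b_slice (good_fam hd hp b 0 0 k (c, w0))).hasFDerivAt
    exact (h5.snd).sub_const t
  have h5 := h3.prodMk h4
  have h6 := h5.congr_of_eventuallyEq (f₁ := fun v => E4b_H d k ((skew d p b, t), y, v)) (by
    refine Filter.Eventually.of_forall fun v => ?_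
    unfold E4b_H
    simp only [Pi.mul_apply]
    rw [← E4b_det_skew hd hp b 0 v]
    rfl)
  let A1 : X2 →L[ℂ] ℂ := p.derivative.eval c • fderiv ℂ (E4b_qw d b) (c, w0) +
    E4b_qw d b (c, w0) • (p.derivative.derivative.eval c • ContinuousLinearMap.fst ℂ ℂ ℂ)
  let A2 : X2 →L[ℂ] ℂ :=
    (ContinuousLinearMap.snd ℂ ℂ ℂ).comp (fderiv ℂ ((T d (skew d p b))^[k]) (c, w0))
  have hA : ∀ a c' : ℂ, (A1.prod A2) (a, c') =
      (p.derivative.derivative.eval c * E4b_qw d b (c, w0) * a,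
        s * a + deriv (fib d p b 0 k c) w0 * c') := by
    intro a c'
    have hs' := hs a c'
    change fderiv ℂ ((T d (skew d p b))^[k]) (c, w0) (a, c') = _ at hs'
    rw [ContinuousLinearMap.prod_apply]
    refine Prod.ext ?_ ?_
    · change p.derivative.eval c * (fderiv ℂ (E4b_qw d b) (c, w0) (a, c')) +
        E4b_qw d b (c, w0) * (p.derivative.derivative.eval c * a) = _
      rw [hc]
      ring
    · simp only [A2, ContinuousLinearMap.comp_apply, hs', ContinuousLinearMap.coe_snd']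
  obtain ⟨B, hB⟩ := E4b_inv (A1.prod A2) hA (mul_ne_zero hc2 hq) hfd
  refine ⟨B, ?_⟩
  rw [hB]
  exact h6

/-- E4c. The critical point with prescribed second coordinate of the image. `(c, w0)` with `c` a simple critical
point of `p`, `k ≥ 1`, nonzero fiber derivative along `k` steps. Solve
`det D T_F (v) = 0`, `((T d F)^[k] v).2 = t` for `v` near `(c, w0)`: at the skew product
`det D T = p'(z) ∂_w q(z, w)` has `∂_z = p''(c) ∂_w q(c, w0) ≠ 0` and `∂_w = 0` at `(c, w0)`. For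
`F = fam 0 τ` the solution has first coordinate `c`. -/
theorem gamma_local {d : ℕ} (hd : 1 ≤ d) {p : ℂ[X]} (hp : p.natDegree ≤ d) {b : Mon d → ℂ}
    {k : ℕ} (hk : 1 ≤ k) {c w0 : ℂ} (hc : p.derivative.eval c = 0)
    (hc2 : p.derivative.derivative.eval c ≠ 0) (hfd : deriv (fib d p b 0 k c) w0 ≠ 0)
    {r1 : ℝ} (hr1 : 0 < r1) :
    ∃ ρ > 0, ρ ≤ r1 ∧ ∃ δ > 0, ∃ V : Coef d → ℂ → X2, ∀ F ∈ ball (skew d p b) δ,
      ∀ t ∈ ball (fib d p b 0 k c w0) δ,
        V F t ∈ ball (c, w0) ρ ∧ Good d k F (V F t) ∧ (fderiv ℂ (T d F) (V F t)).det = 0 ∧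
        ((T d F)^[k] (V F t)).2 = t ∧
        (∀ v ∈ closedBall (c, w0) ρ, (fderiv ℂ (T d F) v).det = 0 → ((T d F)^[k] v).2 = t →
          v = V F t) ∧
        ContDiffAt ℂ 1 (fun q : Coef d × ℂ => V q.1 q.2) (F, t) ∧
        ∀ τ, F = fam d p b 0 τ → (V F t).1 = c := by
  have hq := E4b_qw_ne hd hp hk hfd
  -- the radii
  obtain ⟨ε1, hε1, hG⟩ := Metric.mem_nhds_iff.1 ((good_open d k).mem_nhds
    (show (skew d p b, ((c, w0) : X2)) ∈ {q : Coef d × X2 | Good d k q.1 q.2} from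
      good_fam hd hp b 0 0 k (c, w0)))
  obtain ⟨ε2, hε2, hQ⟩ := Metric.eventually_nhds_iff.1
    ((E4b_qw_contDiff d b 0).continuous.continuousAt.eventually_ne hq)
  have hiso : ∀ᶠ z in 𝓝 c, p.derivative.eval z = 0 → z = c := by
    have h1 := (p.derivative.hasDerivAt c).eventually_ne (c := 0) hc2
    rw [eventually_nhdsWithin_iff] at h1
    filter_upwards [h1] with z hz h0
    by_contra h
    exact hz h h0
  obtain ⟨ε3, hε3, hP⟩ := Metric.eventually_nhds_iff.1 hiso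
  obtain ⟨η₀, hη₀, hη1, hη2, hη3, hη4⟩ : ∃ η₀ > 0, η₀ ≤ r1 ∧ η₀ ≤ ε1 ∧ η₀ ≤ ε2 ∧ η₀ ≤ ε3 :=
    ⟨min (min r1 ε1) (min ε2 ε3), by positivity, (min_le_left _ _).trans (min_le_left _ _),
      (min_le_left _ _).trans (min_le_right _ _), (min_le_right _ _).trans (min_le_left _ _),
      (min_le_right _ _).trans (min_le_right _ _)⟩
  obtain ⟨δ2, hδ2, η, hη, hηη, φ, hφ0, hφc, hφ⟩ := uib (E := Coef d × ℂ) (Y := ℂ) (V := X2)
    (H := E4b_H d k) (p₀ := (skew d p b, fib d p b 0 k c w0)) (K := closedBall (0 : ℂ) 1)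
    (isCompact_closedBall _ _) (s := fun _ => (c, w0)) continuousOn_const
    (fun y _ => E4b_H_contDiffAt hk (good_fam hd hp b 0 0 k (c, w0)) _ y)
    (by
      intro y _
      unfold E4b_H
      have h1 := E4b_det_skew hd hp b 0 ((c, w0) : X2)
      have h2 := T_skew_iter hd hp b 0 k c w0
      change (fderiv ℂ (T d (skew d p b)) (c, w0)).det = _ at h1
      change (T d (skew d p b))^[k] (c, w0) = _ at h2
      simp only [h1, h2, hc, zero_mul, sub_self]
      rfl)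
    (fun y _ => E4b_hinv hd hp hk hc hc2 hfd _ y) hη₀
  have h0K : (0 : ℂ) ∈ closedBall (0 : ℂ) 1 := mem_closedBall_self zero_le_one
  have h0i : (0 : ℂ) ∈ interior (closedBall (0 : ℂ) 1) := by
    rw [interior_closedBall _ one_ne_zero]
    exact mem_ball_self one_pos
  have hcont : ContinuousAt (fun x : Coef d × ℂ => φ x 0) (skew d p b, fib d p b 0 k c w0) := by
    have h1 : ContinuousAt (fun x : (Coef d × ℂ) × ℂ => φ x.1 x.2)
        ((skew d p b, fib d p b 0 k c w0), 0) := by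
      refine hφc.continuousAt ?_
      rw [nhds_prod_eq]
      exact Filter.prod_mem_prod (ball_mem_nhds _ hδ2) (closedBall_mem_nhds _ one_pos)
    exact ContinuousAt.comp (f := fun x : Coef d × ℂ => (x, (0 : ℂ)))
      (g := fun x : (Coef d × ℂ) × ℂ => φ x.1 x.2) h1
      (continuousAt_id.prodMk continuousAt_const)
  have hev : ∀ᶠ x in 𝓝 ((skew d p b, fib d p b 0 k c w0) : Coef d × ℂ),
      dist (φ x 0) (c, w0) < η / 2 := by
    have h1 : ∀ᶠ x in 𝓝 ((skew d p b, fib d p b 0 k c w0) : Coef d × ℂ),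
        dist (φ x 0) (φ (skew d p b, fib d p b 0 k c w0) 0) < η / 2 :=
      Metric.tendsto_nhds.1 hcont (η / 2) (by positivity)
    rw [hφ0 0 h0K] at h1
    exact h1
  obtain ⟨δ3, hδ3, hδ3'⟩ := Metric.eventually_nhds_iff.1 hev
  refine ⟨η / 2, by positivity, by linarith, min ε1 (min δ2 δ3), by positivity,
    fun F t => φ (F, t) 0, ?_⟩
  intro F hF t ht
  have hF1 : dist F (skew d p b) < ε1 := lt_of_lt_of_le hF (min_le_left _ _)
  have hx2 : ((F, t) : Coef d × ℂ) ∈ ball ((skew d p b, fib d p b 0 k c w0) : Coef d × ℂ) δ2 := by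
    rw [mem_ball, Prod.dist_eq]
    exact max_lt (lt_of_lt_of_le hF ((min_le_right _ _).trans (min_le_left _ _)))
      (lt_of_lt_of_le ht ((min_le_right _ _).trans (min_le_left _ _)))
  have hx3 : dist ((F, t) : Coef d × ℂ) (skew d p b, fib d p b 0 k c w0) < δ3 := by
    rw [Prod.dist_eq]
    exact max_lt (lt_of_lt_of_le hF ((min_le_right _ _).trans (min_le_right _ _)))
      (lt_of_lt_of_le ht ((min_le_right _ _).trans (min_le_right _ _)))
  obtain ⟨h1, h2, h3, h4⟩ := hφ (F, t) hx2 0 h0K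
  have h5 := hδ3' hx3
  have hdist : dist (φ (F, t) 0) (c, w0) < η₀ := by linarith
  have hH := Prod.ext_iff.1 h2
  unfold E4b_H at hH
  obtain ⟨hH1, hH2⟩ := hH
  have hH1' : (fderiv ℂ (T d F) (φ (F, t) 0)).det = 0 := hH1
  have hH2' : ((T d F)^[k] (φ (F, t) 0)).2 = t := sub_eq_zero.1 hH2
  refine ⟨h5, ?_, hH1', hH2', ?_, ?_, ?_⟩
  · have h7 : ((F, φ (F, t) 0) : Coef d × X2) ∈ ball (skew d p b, ((c, w0) : X2)) ε1 := by
      rw [mem_ball, Prod.dist_eq]
      exact max_lt hF1 (lt_of_lt_of_le hdist hη2)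
    exact hG h7
  · intro v hv hv1 hv2
    apply h3 v (lt_of_le_of_lt (mem_closedBall.1 hv) (by linarith))
    unfold E4b_H
    exact Prod.ext hv1 (sub_eq_zero.2 hv2)
  · have h6 := h4 h0i
    exact ContDiffAt.comp (F, t) (f := fun x : Coef d × ℂ => (x, (0 : ℂ)))
      (g := fun x : (Coef d × ℂ) × ℂ => φ x.1 x.2) h6
      (contDiffAt_id.prodMk contDiffAt_const)
  · rintro τ rfl
    have h6 := E4b_det_skew hd hp b τ (φ (fam d p b 0 τ, t) 0)
    rw [hH1'] at h6
    rcases mul_eq_zero.1 h6.symm with h | h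
    · refine hP ?_ h
      refine lt_of_le_of_lt ?_ (lt_of_lt_of_le hdist hη4)
      rw [Prod.dist_eq]
      exact le_max_left _ _
    · exact absurd h (hQ (lt_of_lt_of_le hdist hη3))

end SkewBif
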