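import Pool.Agent.SK.E1a
/-! ## MP_9cfccf_an, module E4c -/
open Set Metric Filter Topology Polynomial
namespace SkewBif

theorem E4c_slice {d N : ℕ} {F : Coef d} {v : X2} (h : Good d N F v) :
    DifferentiableAt ℂ ((T d F)^[N]) v := by
  have h1 := iter_contDiffAt h 1
  have h2 : ContDiffAt ℂ 1 ((T d F)^[N]) v := ContDiffAt.comp v (f := fun v : X2 => (F, v))
    (g := fun q : Coef d × X2 => (T d q.1)^[N] q.2) h1
    (contDiffAt_const.prodMk contDiffAt_id)
  exact h2.differentiableAt (by simp)

/-- Chain rule for the determinant. -/
theorem det_iter {d N : ℕ} {F : Coef d} {v : X2} (h : Good d N F v) :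
    (fderiv ℂ ((T d F)^[N]) v).det =
      ∏ i ∈ Finset.range N, (fderiv ℂ (T d F) ((T d F)^[i] v)).det := by
  induction N with
  | zero =>
    rw [Function.iterate_zero, fderiv_id, Finset.prod_range_zero]
    exact LinearMap.det_id
  | succ N ih =>
    have h0 : Good d N F v := fun j hj => h j (by omega)
    have h1 : Good d 1 F ((T d F)^[N] v) := by
      intro j hj
      have hj0 : j = 0 := by omega
      subst hj0
      exact h N (by omega)
    have h2 := E4c_slice h1
    rw [Function.iterate_one] at h2
    have h3 := E4c_slice h0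
    rw [Function.iterate_succ', fderiv_comp v h2 h3, Finset.prod_range_succ, ← ih h0,
      mul_comm]
    exact LinearMap.det_comp _ _

end SkewBif
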