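import Pool.Agent.SK.A4
import Pool.Agent.SK.E4a
import Pool.Agent.SK.E4b
import Pool.Agent.SK.E4c
/-! ## MP_9cfccf_an, module E4 -/
open Set Metric Filter Topology Polynomial
namespace SkewBif

theorem E4_fib_diff {d : ℕ} (hd : 1 ≤ d) {p : ℂ[X]} (hp : p.natDegree ≤ d) (b : Mon d → ℂ)
    (M : ℕ) (z w : ℂ) : DifferentiableAt ℂ (fib d p b 0 M z) w := by
  have h4 : DifferentiableAt ℂ (fun q : Coef d × X2 => (T d q.1)^[M] q.2)
      (fam d p b 0 0, (z, w)) :=
    (iter_contDiffAt (good_fam hd hp b 0 0 M (z, w)) 1).differentiableAt (by norm_num)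
  have h5 : DifferentiableAt ℂ (fun w : ℂ => ((fam d p b 0 0, (z, w)) : Coef d × X2)) w := by
    fun_prop
  have h6 := DifferentiableAt.comp w h4 h5
  have h7 : DifferentiableAt ℂ (fun w : ℂ => ((T d (fam d p b 0 0))^[M] (z, w)).2) w :=
    h6.snd
  have h8 : (fun w : ℂ => ((T d (fam d p b 0 0))^[M] (z, w)).2) = fib d p b 0 M z := by
    funext w
    rw [T_skew_iter hd hp]
  rwa [h8] at h7

theorem E4_chain {d : ℕ} (hd : 1 ≤ d) {p : ℂ[X]} (hp : p.natDegree ≤ d) (b : Mon d → ℂ)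
    (M N : ℕ) (z w : ℂ) (h : deriv (fib d p b 0 (M + N) z) w ≠ 0) :
    deriv (fib d p b 0 N ((pt p 0)^[M] z)) (fib d p b 0 M z w) ≠ 0 ∧
      deriv (fib d p b 0 M z) w ≠ 0 := by
  have h1 : fib d p b 0 (M + N) z = fib d p b 0 N ((pt p 0)^[M] z) ∘ fib d p b 0 M z := by
    funext w
    exact fib_add d p b 0 M N z w
  rw [h1, deriv_comp w (E4_fib_diff hd hp b N _ _) (E4_fib_diff hd hp b M z w)] at h
  exact ⟨left_ne_zero_of_mul h, right_ne_zero_of_mul h⟩

theorem E4_finite {p : ℂ[X]} (hp : 1 ≤ p.natDegree) (m : ℕ) (S : Set ℂ) (hS : S.Finite) :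
    ((pt p 0)^[m] ⁻¹' S).Finite := by
  induction m with
  | zero => simpa using hS
  | succ m ih =>
    rw [Function.iterate_succ, preimage_comp]
    apply ih.preimage'
    intro y _
    have h1 : p - C y ≠ 0 := by
      intro h
      have h2 : (p - C y).natDegree = p.natDegree := natDegree_sub_C
      rw [h, natDegree_zero] at h2
      omega
    apply (p - C y).roots.toFinset.finite_toSet.subset
    intro z hz
    have hz' : p.eval z + 0 = y := hz
    rw [Finset.mem_coe, Multiset.mem_toFinset, mem_roots h1, IsRoot.def, eval_sub, eval_C]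
    rw [← hz']
    ring

theorem E4_det_ne {L : X2 →L[ℂ] X2} {A s B : ℂ} (h : ∀ a c : ℂ, L (a, c) = (A * a, s * a + B * c))
    (hA : A ≠ 0) (hB : B ≠ 0) : L.det ≠ 0 := by
  intro h0
  have h1 := LinearMap.bot_lt_ker_of_det_eq_zero (f := (L : X2 →ₗ[ℂ] X2)) h0
  rw [bot_lt_iff_ne_bot] at h1
  apply h1
  rw [LinearMap.ker_eq_bot']
  rintro ⟨a, c⟩ hac
  have h2 : L (a, c) = 0 := hac
  rw [h, Prod.mk_eq_zero] at h2
  have ha : a = 0 := by
    rcases mul_eq_zero.mp h2.1 with h3 | h3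
    · exact absurd h3 hA
    · exact h3
  have hc : c = 0 := by
    have h5 := h2.2
    rw [ha, mul_zero, zero_add] at h5
    rcases mul_eq_zero.mp h5 with h3 | h3
    · exact absurd h3 hB
    · exact h3
  rw [ha, hc]
  rfl

theorem E4_det_eq {L : X2 →L[ℂ] X2} {s B : ℂ} (h : ∀ a c : ℂ, L (a, c) = (0 * a, s * a + B * c)) :
    L.det = 0 := by
  by_contra h0
  have h1 : LinearMap.det (L : X2 →ₗ[ℂ] X2) ≠ 0 := h0
  set e := LinearMap.equivOfDetNeZero (L : X2 →ₗ[ℂ] X2) h1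
  obtain ⟨v, hv⟩ := e.surjective (1, 0)
  have h2 : L v = (1, 0) := hv
  have h3 := h v.1 v.2
  rw [h2, Prod.mk.injEq] at h3
  simp at h3

theorem E4_T1 {d : ℕ} (hd : 1 ≤ d) {p : ℂ[X]} (hp : p.natDegree ≤ d) (b : Mon d → ℂ) (z w : ℂ) :
    ∃ s : ℂ, ∀ a c : ℂ, fderiv ℂ (T d (skew d p b)) (z, w) (a, c) =
      (p.derivative.eval z * a, s * a + deriv (fib d p b 0 1 z) w * c) := by
  obtain ⟨s, hs⟩ := fderiv_skew_iter hd hp b 0 1 z w
  refine ⟨s, fun a c => ?_⟩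
  have h1 := hs a c
  rw [Function.iterate_one, Function.iterate_one] at h1
  have h2 : deriv (pt p 0) z = p.derivative.eval z := by
    have h3 := deriv_pt_iter p 0 1 z
    simpa using h3
  rw [h2] at h1
  exact h1

theorem E4_comp {d N : ℕ} {Z : Type*} [TopologicalSpace Z] {z0 : Z} {f : Z → Coef d} {g : Z → X2}
    (hf : ContinuousAt f z0) (hg : ContinuousAt g z0) (h : Good d N (f z0) (g z0)) :
    ContinuousAt (fun z => (T d (f z))^[N] (g z)) z0 := by
  have h1 : ContinuousAt (fun q : Coef d × X2 => (T d q.1)^[N] q.2) (f z0, g z0) :=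
    (iter_contDiffAt h 1).continuousAt
  have h2 : ContinuousAt (fun z => ((f z, g z) : Coef d × X2)) z0 := hf.prodMk hg
  exact ContinuousAt.comp (g := fun q : Coef d × X2 => (T d q.1)^[N] q.2)
    (f := fun z => ((f z, g z) : Coef d × X2)) h1 h2

/-- continuity of the determinant of the derivative -/
theorem E4_det_cont {d : ℕ} {F : Coef d} {v : X2} (h : ev d F (lift v) 1 ≠ 0) :
    ContinuousAt (fun q : Coef d × X2 => (fderiv ℂ (T d q.1) q.2).det) (F, v) := by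
  have h1 := T_contDiffAt (F := F) (v := v) h 1
  have h2 : ContinuousAt (fderiv ℂ (fun q : Coef d × X2 => T d q.1 q.2)) (F, v) :=
    (h1.fderiv_right (m := 0) (by norm_num)).continuousAt
  have h3 : ∀ᶠ q : Coef d × X2 in 𝓝 (F, v),
      ContDiffAt ℂ 1 (fun q : Coef d × X2 => T d q.1 q.2) q := h1.eventually (by norm_num)
  have h4 : (fun q : Coef d × X2 => (fderiv ℂ (T d q.1) q.2).det) =ᶠ[𝓝 (F, v)]
      fun q => ((fderiv ℂ (fun q : Coef d × X2 => T d q.1 q.2) q).comp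
        (ContinuousLinearMap.inr ℂ (Coef d) X2)).det := by
    filter_upwards [h3] with q hq
    have h5 : HasFDerivAt (fun v : X2 => ((q.1, v) : Coef d × X2))
        (ContinuousLinearMap.inr ℂ (Coef d) X2) q.2 := hasFDerivAt_prodMk_right q.1 q.2
    have h6 : HasFDerivAt (fun q : Coef d × X2 => T d q.1 q.2)
        (fderiv ℂ (fun q : Coef d × X2 => T d q.1 q.2) q) (q.1, q.2) :=
      (hq.differentiableAt (by norm_num)).hasFDerivAt
    have h7 := HasFDerivAt.comp (g := fun q : Coef d × X2 => T d q.1 q.2) q.2 h6 h5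
    have h8 : fderiv ℂ (T d q.1) q.2 = (fderiv ℂ (fun q : Coef d × X2 => T d q.1 q.2) q).comp
        (ContinuousLinearMap.inr ℂ (Coef d) X2) := h7.fderiv
    rw [h8]
  refine ContinuousAt.congr ?_ h4.symm
  exact (ContinuousLinearMap.continuous_det.continuousAt).comp
    (h2.clm_comp continuousAt_const)

/-- E4d. All local objects near the critical point together.
Proof. Let `(z_i, w_i) = T^i (c, w0)`, `i < m2`, and let `i = 0, ...` run over the indices with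
`p'(z_i) = 0` (an enumeration by `Fin (q + 1)`, first the index `0`); apply E4c at each of them with `k = m2 - i`,
`c_j = z_i`, and put `γ j F t = ((T d F)^[k] (V_j F t)).1`. For the other indices `det D T_F ≠ 0` near
`(z_i, w_i)`. Choose the critical bidisc and the parameter ball so small that the iterates `T^i u`, `i < m2`, stay in the neighbourhoods of
uniqueness; use `det_iter`. `bdry`: `(pt p 0)^[m2] z ≠ x` on the circle `‖z - c‖ = r` (isolated zeros of a nonconstant polynomial; `r` small), then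
`rt` and the parameter ball small. E4a, E4b. -/
theorem critical_local {d : ℕ} (hd : 2 ≤ d) {p : ℂ[X]} (hp : p.natDegree = d) {b : Mon d → ℂ}
    (hsimple : ∀ c, p.derivative.eval c = 0 → p.derivative.derivative.eval c ≠ 0)
    {x ws c w0 : ℂ} {m1 m2 : ℕ} (hm1 : 1 ≤ m1) (hm2 : 1 ≤ m2) (hc : p.derivative.eval c = 0)
    (hland : (pt p 0)^[m2] c = x) (hfib : fib d p b 0 m2 c w0 = ws)
    (hfd : deriv (fib d p b 0 m2 c) w0 ≠ 0) {y0 w1 : ℂ} (hy : (pt p 0)^[m1] y0 = c)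
    (hw : fib d p b 0 m1 y0 w1 = w0) (hyd : deriv ((pt p 0)^[m1]) y0 ≠ 0)
    (hwd : deriv (fib d p b 0 m1 y0) w1 ≠ 0) {O : Set X2} (hO : IsOpen O) (hO' : (y0, w1) ∈ O) :
    ∃ δ r r' ρ0 rt ρt : ℝ, 0 < δ ∧ 0 < r ∧ r < r' ∧ 0 < ρ0 ∧ 0 < rt ∧ 0 < ρt ∧
    ∃ (gret : Coef d → X2 → X2) (ψ : Coef d → ℂ → ℂ → ℂ) (q : ℕ)
      (γ : Fin (q + 1) → Coef d → ℂ → ℂ) (cj : Fin (q + 1) → ℂ) (kj : Fin (q + 1) → ℕ),
      cj 0 = c ∧ kj 0 = m2 ∧ (∀ j, 1 ≤ kj j ∧ (pt p 0)^[kj j] (cj j) = x) ∧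
      ∀ F ∈ ball (skew d p b) δ,
        (∀ u ∈ closedBall c r' ×ˢ closedBall w0 ρ0, gret F u ∈ O ∧ Good d m1 F (gret F u) ∧
          (T d F)^[m1] (gret F u) = u ∧
          ContDiffAt ℂ 1 (fun q : Coef d × X2 => gret q.1 q.2) (F, u) ∧ Good d m2 F u ∧
          ((T d F)^[m2] u ∈ closedBall x rt ×ˢ closedBall ws ρt →
            (fderiv ℂ ((T d F)^[m2]) u).det = 0 →
            ∃ j, ((T d F)^[m2] u).1 = γ j F ((T d F)^[m2] u).2)) ∧
        (∀ z ∈ closedBall c r', ∀ t ∈ closedBall ws ρt,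
          ψ F z t ∈ ball w0 ρ0 ∧ ((T d F)^[m2] (z, ψ F z t)).2 = t ∧
          (∀ w ∈ closedBall w0 ρ0, ((T d F)^[m2] (z, w)).2 = t → w = ψ F z t) ∧
          ContDiffAt ℂ 1 (fun q : Coef d × ℂ × ℂ => ψ q.1 q.2.1 q.2.2) (F, z, t)) ∧
        (∀ q ∈ closedBall x rt ×ˢ closedBall ws ρt, (∀ z ∈ sphere c r,
            ((T d F)^[m2] (z, ψ F z q.2)).1 ≠ q.1) ∧
          (q.1 = γ 0 F q.2 → ∃ u ∈ ball c r ×ˢ ball w0 ρ0, (T d F)^[m2] u = q ∧
            (fderiv ℂ ((T d F)^[m2]) u).det = 0)) ∧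
        (∀ j, ∀ t ∈ closedBall ws ρt,
          ContDiffAt ℂ 1 (fun q : Coef d × ℂ => γ j q.1 q.2) (F, t) ∧
          ∀ τ, F = fam d p b 0 τ → γ j F t = (pt p τ)^[kj j] (cj j)) := by
  classical
  have hd1 : 1 ≤ d := by omega
  have hpd : p.natDegree ≤ d := hp.le
  set F0 := skew d p b with hF0
  -- the orbit
  have horb : ∀ i : ℕ, (T d F0)^[i] (c, w0) = ((pt p 0)^[i] c, fib d p b 0 i c w0) := fun i =>
    T_skew_iter hd1 hpd b 0 i c w0
  have hsplit : ∀ i ≤ m2, deriv (fib d p b 0 (m2 - i) ((pt p 0)^[i] c)) (fib d p b 0 i c w0) ≠ 0 := by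
    intro i hi
    have h1 : m2 = i + (m2 - i) := by omega
    have h2 := hfd
    rw [h1] at h2
    exact (E4_chain hd1 hpd b i (m2 - i) c w0 h2).1
  have hval : ∀ i ≤ m2, fib d p b 0 (m2 - i) ((pt p 0)^[i] c) (fib d p b 0 i c w0) = ws := by
    intro i hi
    rw [← fib_add, show i + (m2 - i) = m2 by omega, hfib]
  have hbase : ∀ i ≤ m2, (pt p 0)^[m2 - i] ((pt p 0)^[i] c) = x := by
    intro i hi
    rw [← Function.iterate_add_apply, show m2 - i + i = m2 by omega, hland]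
  have hone : ∀ i < m2, deriv (fib d p b 0 1 ((pt p 0)^[i] c)) (fib d p b 0 i c w0) ≠ 0 := by
    intro i hi
    have h1 : m2 - i = 1 + (m2 - i - 1) := by omega
    have h2 := hsplit i hi.le
    rw [h1] at h2
    exact (E4_chain hd1 hpd b 1 (m2 - i - 1) _ _ h2).2
  obtain ⟨q, hq⟩ : ∃ q, m2 = q + 1 := ⟨m2 - 1, by omega⟩
  -- the index map
  obtain ⟨idx, hidx0, hidxlt, hidxc, hidxe⟩ : ∃ idx : Fin (q + 1) → ℕ, idx 0 = 0 ∧
      (∀ j, idx j < m2) ∧ (∀ j, p.derivative.eval ((pt p 0)^[idx j] c) = 0) ∧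
      ∀ j : Fin (q + 1), p.derivative.eval ((pt p 0)^[(j : ℕ)] c) = 0 → idx j = j := by
    refine ⟨fun j => if p.derivative.eval ((pt p 0)^[(j : ℕ)] c) = 0 then j else 0, ?_, ?_, ?_, ?_⟩
    · simp only
      split_ifs <;> rfl
    · intro j
      have := j.2
      simp only
      split_ifs <;> omega
    · intro j
      simp only
      split_ifs with h
      · exact h
      · simpa using hc
    · intro j h
      simp only [h, if_true]
  have hV := fun j : Fin (q + 1) => gamma_local (b := b) (k := m2 - idx j)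
    (c := (pt p 0)^[idx j] c) (w0 := fib d p b 0 (idx j) c w0) hd1 hpd
    (by have := hidxlt j; omega) (hidxc j) (hsimple _ (hidxc j)) (hsplit (idx j) (hidxlt j).le)
    (r1 := 1) one_pos
  choose ρj hρj _hρj1 δj hδj V hV using hV
  have hvalj : ∀ j, fib d p b 0 (m2 - idx j) ((pt p 0)^[idx j] c) (fib d p b 0 (idx j) c w0) = ws :=
    fun j => hval _ (hidxlt j).le
  have hV2 : ∀ j, ∀ F ∈ ball F0 (δj j), ∀ t ∈ ball ws (δj j),
      V j F t ∈ ball ((pt p 0)^[idx j] c, fib d p b 0 (idx j) c w0) (ρj j) ∧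
      Good d (m2 - idx j) F (V j F t) ∧ (fderiv ℂ (T d F) (V j F t)).det = 0 ∧
        ((T d F)^[m2 - idx j] (V j F t)).2 = t ∧
        (∀ v ∈ closedBall ((pt p 0)^[idx j] c, fib d p b 0 (idx j) c w0) (ρj j),
          (fderiv ℂ (T d F) v).det = 0 → ((T d F)^[m2 - idx j] v).2 = t → v = V j F t) ∧
        ContDiffAt ℂ 1 (fun q : Coef d × ℂ => V j q.1 q.2) (F, t) ∧
        ∀ τ, F = fam d p b 0 τ → (V j F t).1 = (pt p 0)^[idx j] c := by
    intro j F hF t ht
    refine hV j F hF t ?_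
    rw [hvalj j]
    exact ht
  clear hV
  -- the return branch
  obtain ⟨δg, hδg, gret, hgret⟩ := local_inverse (b := b) (M := m1) hd1 hpd hyd hwd hO hO'
  rw [hy, hw] at hgret
  -- first neighbourhood
  have hgood0 : ∀ N (v : X2), Good d N F0 v := fun N v => good_fam hd1 hpd b 0 0 N v
  have hitc : ∀ (N : ℕ) (v : X2), ContinuousAt (fun q : Coef d × X2 => (T d q.1)^[N] q.2)
      (F0, v) := fun N v => (iter_contDiffAt (hgood0 N v) 1).continuousAt
  have hN1 : ∀ᶠ q : Coef d × X2 in 𝓝 (F0, (c, w0)), Good d m2 q.1 q.2 :=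
    (good_open d m2).mem_nhds (hgood0 m2 (c, w0))
  have hN2 : ∀ᶠ q' : Coef d × X2 in 𝓝 (F0, (c, w0)), ∀ j : Fin (q + 1),
      (T d q'.1)^[(idx j)] q'.2 ∈
        ball ((pt p 0)^[idx j] c, fib d p b 0 (idx j) c w0) (ρj j) := by
    rw [eventually_all]
    intro j
    apply (hitc (idx j) (c, w0)).eventually
    apply isOpen_ball.mem_nhds
    change (T d F0)^[idx j] (c, w0) ∈ _
    rw [horb]
    exact mem_ball_self (hρj j)
  have hN3 : ∀ᶠ q' : Coef d × X2 in 𝓝 (F0, (c, w0)), ∀ j : Fin (q + 1),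
      p.derivative.eval ((pt p 0)^[(j : ℕ)] c) ≠ 0 →
        (fderiv ℂ (T d q'.1) ((T d q'.1)^[(j : ℕ)] q'.2)).det ≠ 0 := by
    rw [eventually_all]
    intro j
    by_cases hj : p.derivative.eval ((pt p 0)^[(j : ℕ)] c) = 0
    · exact Eventually.of_forall fun _ h => absurd hj h
    · obtain ⟨s, hs⟩ := E4_T1 hd1 hpd b ((pt p 0)^[(j : ℕ)] c) (fib d p b 0 j c w0)
      have h1 := E4_det_ne hs hj (hone j (by have := j.2; omega))
      have h2 : ContinuousAt (fun q : Coef d × X2 => (fderiv ℂ (T d q.1) q.2).det)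
          (F0, (T d F0)^[(j : ℕ)] (c, w0)) := by
        apply E4_det_cont
        have h3 := hgood0 1 ((T d F0)^[(j : ℕ)] (c, w0)) 0 one_pos
        simpa using h3
      have h3 : ContinuousAt (fun q' : Coef d × X2 => ((q'.1, (T d q'.1)^[(j : ℕ)] q'.2) :
          Coef d × X2)) (F0, (c, w0)) := continuousAt_fst.prodMk (hitc j (c, w0))
      have h4 : ContinuousAt (fun q' : Coef d × X2 =>
          (fderiv ℂ (T d q'.1) ((T d q'.1)^[(j : ℕ)] q'.2)).det) (F0, (c, w0)) :=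
        ContinuousAt.comp (g := fun q : Coef d × X2 => (fderiv ℂ (T d q.1) q.2).det)
          (f := fun q' : Coef d × X2 => ((q'.1, (T d q'.1)^[(j : ℕ)] q'.2) :
          Coef d × X2)) h2 h3
      have h5 : (fderiv ℂ (T d F0) ((T d F0)^[(j : ℕ)] (c, w0))).det ≠ 0 := by
        rw [horb]
        exact h1
      have h6 := h4.eventually_ne h5
      filter_upwards [h6] with q' hq' _
      exact hq'
  have hN4 : ∀ᶠ q' : Coef d × X2 in 𝓝 (F0, (c, w0)), q'.1 ∈ ball F0 δg ∧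
      q'.2 ∈ ball ((c, w0) : X2) δg :=
    ((isOpen_ball.prod isOpen_ball).mem_nhds ⟨mem_ball_self hδg, mem_ball_self hδg⟩ :
      ball F0 δg ×ˢ ball ((c, w0) : X2) δg ∈ 𝓝 (F0, (c, w0)))
  obtain ⟨εa, hεa, hNa⟩ := Metric.eventually_nhds_iff_ball.mp (hN1.and (hN2.and (hN3.and hN4)))
  have hNa' : ∀ F ∈ ball F0 εa, ∀ u ∈ ball ((c, w0) : X2) εa, Good d m2 F u ∧
      (∀ j : Fin (q + 1), (T d F)^[(idx j)] u ∈
        ball ((pt p 0)^[idx j] c, fib d p b 0 (idx j) c w0) (ρj j)) ∧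
      (∀ j : Fin (q + 1), p.derivative.eval ((pt p 0)^[(j : ℕ)] c) ≠ 0 →
        (fderiv ℂ (T d F) ((T d F)^[(j : ℕ)] u)).det ≠ 0) ∧
      F ∈ ball F0 δg ∧ u ∈ ball ((c, w0) : X2) δg := by
    intro F hF u hu
    have h3 : ((F, u) : Coef d × X2) ∈ ball (F0, (c, w0)) εa := by
      rw [← ball_prod_same]
      exact ⟨hF, hu⟩
    have h4 := hNa (F, u) h3
    exact ⟨h4.1, h4.2.1, h4.2.2.1, h4.2.2.2.1, h4.2.2.2.2⟩
  clear hNa hN1 hN2 hN3 hN4
  -- the function ψ
  obtain ⟨ρ0, hρ0, hρ0a, δψ, hδψ, ψ, hψ⟩ := psi_local (b := b) (m2 := m2) hd1 hpd hfd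
    (ρ1 := εa / 2) (by positivity)
  rw [hfib] at hψ
  -- the radius r
  have hiso : ∀ᶠ z in 𝓝[≠] c, (pt p 0)^[m2] z ≠ x := by
    have h1 := E4_finite (p := p) (by omega) m2 {x} (finite_singleton x)
    have h2 : ((pt p 0)^[m2] ⁻¹' {x} \ {c}).Finite := h1.subset sdiff_subset
    have h3 : ((pt p 0)^[m2] ⁻¹' {x} \ {c})ᶜ ∈ 𝓝 c :=
      h2.isClosed.isOpen_compl.mem_nhds (by simp)
    have h4 : ((pt p 0)^[m2] ⁻¹' {x} \ {c})ᶜ ∈ 𝓝[≠] c := mem_nhdsWithin_of_mem_nhds h3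
    filter_upwards [h4, self_mem_nhdsWithin] with z hz hzc hzx
    exact hz ⟨hzx, hzc⟩
  rw [eventually_nhdsWithin_iff] at hiso
  obtain ⟨εi, hεi, hiso⟩ := Metric.eventually_nhds_iff_ball.mp hiso
  obtain ⟨r, hr, hri, hrψ, hra⟩ : ∃ r : ℝ, 0 < r ∧ r < εi ∧ 2 * r < δψ ∧ 2 * r < εa := by
    refine ⟨min εi (min δψ εa) / 4, by positivity, ?_, ?_, ?_⟩
    · have := min_le_left εi (min δψ εa)
      linarith
    · have := (min_le_right εi (min δψ εa)).trans (min_le_left _ _)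
      have h0 : 0 < min εi (min δψ εa) := by positivity
      linarith
    · have := (min_le_right εi (min δψ εa)).trans (min_le_right _ _)
      have h0 : 0 < min εi (min δψ εa) := by positivity
      linarith
  have hRg : closedBall c (2 * r) ×ˢ closedBall w0 ρ0 ⊆ ball ((c, w0) : X2) εa := by
    rw [← ball_prod_same]
    exact prod_mono (closedBall_subset_ball hra) (closedBall_subset_ball (by linarith))
  have hcψ : closedBall c (2 * r) ⊆ ball c δψ := closedBall_subset_ball hrψ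
  -- second neighbourhood
  have hM1 : ∀ᶠ y : Coef d × X2 in 𝓝 (F0, (x, ws)), ∀ z ∈ sphere c r,
      ((T d y.1)^[m2] (z, ψ y.1 z y.2.2)).1 ≠ y.2.1 := by
    apply (isCompact_sphere c r).eventually_forall_of_forall_eventually
      (P := fun (y : Coef d × X2) (z : ℂ) => ((T d y.1)^[m2] (z, ψ y.1 z y.2.2)).1 ≠ y.2.1)
    intro z hz
    have hzψ : z ∈ ball c δψ := by
      apply hcψ
      rw [mem_closedBall, mem_sphere.mp hz]
      linarith
    have h1 : ContinuousAt (fun q : Coef d × ℂ × ℂ => ψ q.1 q.2.1 q.2.2) (F0, z, ws) :=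
      ((hψ F0 (mem_ball_self hδψ) z hzψ).2 ws (mem_ball_self hδψ)).2.2.2.continuousAt
    have h2 : ContinuousAt (fun y : (Coef d × X2) × ℂ => ((y.1.1, y.2, y.1.2.2) : Coef d × ℂ × ℂ))
        ((F0, (x, ws)), z) := by fun_prop
    have h3 : ContinuousAt (fun y : (Coef d × X2) × ℂ => ψ y.1.1 y.2 y.1.2.2)
        ((F0, (x, ws)), z) :=
      ContinuousAt.comp (g := fun q : Coef d × ℂ × ℂ => ψ q.1 q.2.1 q.2.2)
        (f := fun y : (Coef d × X2) × ℂ => ((y.1.1, y.2, y.1.2.2) : Coef d × ℂ × ℂ)) h1 h2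
    have h5a : ContinuousAt (fun y : (Coef d × X2) × ℂ => y.1.1) ((F0, (x, ws)), z) := by
      fun_prop
    have h6a : ContinuousAt (fun y : (Coef d × X2) × ℂ => y.2) ((F0, (x, ws)), z) := by
      fun_prop
    have h5b := E4_comp (N := m2) h5a (h6a.prodMk h3) (hgood0 m2 (z, ψ F0 z ws))
    have h5 : ContinuousAt (fun y : (Coef d × X2) × ℂ =>
        ((T d y.1.1)^[m2] (y.2, ψ y.1.1 y.2 y.1.2.2)).1) ((F0, (x, ws)), z) := h5b.fst
    have h6 : ContinuousAt (fun y : (Coef d × X2) × ℂ => y.1.2.1) ((F0, (x, ws)), z) := by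
      fun_prop
    have h7 := (h5.sub h6).eventually_ne (y := 0) (by
      change ((T d F0)^[m2] (z, ψ F0 z ws)).1 - x ≠ 0
      have h8 : (T d F0)^[m2] (z, ψ F0 z ws) = ((pt p 0)^[m2] z, fib d p b 0 m2 z (ψ F0 z ws)) :=
        T_skew_iter hd1 hpd b 0 m2 z _
      rw [h8, sub_ne_zero]
      apply hiso z
      · rw [mem_ball, mem_sphere.mp hz]
        exact hri
      · intro h9
        rw [mem_singleton_iff] at h9
        rw [h9, mem_sphere, dist_self] at hz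
        linarith)
    filter_upwards [h7] with y hy' h8
    exact hy' (sub_eq_zero.mpr h8)
  have hc1 : ContinuousAt (fun y : Coef d × X2 => ((y.1, y.2.2) : Coef d × ℂ)) (F0, (x, ws)) := by
    fun_prop
  have hM2 : ∀ᶠ y : Coef d × X2 in 𝓝 (F0, (x, ws)),
      V 0 y.1 y.2.2 ∈ ball c r ×ˢ ball w0 ρ0 := by
    have h0 := hV2 0 F0 (mem_ball_self (hδj 0)) ws (mem_ball_self (hδj 0))
    have h1 : V 0 F0 ws = (c, w0) := by
      symm
      apply h0.2.2.2.2.1
      · rw [hidx0]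
        exact mem_closedBall_self (hρj 0).le
      · obtain ⟨s, hs⟩ := E4_T1 hd1 hpd b c w0
        rw [hc] at hs
        exact E4_det_eq hs
      · rw [hidx0, Nat.sub_zero, horb, hfib]
    have h2 : ContinuousAt (fun y : Coef d × X2 => V 0 y.1 y.2.2) (F0, (x, ws)) :=
      ContinuousAt.comp (g := fun q : Coef d × ℂ => V 0 q.1 q.2)
        (f := fun y : Coef d × X2 => ((y.1, y.2.2) : Coef d × ℂ)) h0.2.2.2.2.2.1.continuousAt hc1
    apply h2.eventually
    apply (isOpen_ball.prod isOpen_ball).mem_nhds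
    change V 0 F0 ws ∈ _
    rw [h1]
    exact ⟨mem_ball_self hr, mem_ball_self hρ0⟩
  have hM3 : ∀ᶠ y : Coef d × X2 in 𝓝 (F0, (x, ws)), ∀ j : Fin (q + 1),
      y.1 ∈ ball F0 (δj j) ∧ y.2.2 ∈ ball ws (δj j) := by
    rw [eventually_all]
    intro j
    have h1 : ball F0 (δj j) ×ˢ ball ws (δj j) ∈ 𝓝 (F0, ws) :=
      (isOpen_ball.prod isOpen_ball).mem_nhds ⟨mem_ball_self (hδj j), mem_ball_self (hδj j)⟩
    exact hc1 h1
  have hM4 : ∀ᶠ y : Coef d × X2 in 𝓝 (F0, (x, ws)),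
      y.1 ∈ ball F0 δψ ∧ y.2.2 ∈ ball ws δψ := by
    have h1 : ball F0 δψ ×ˢ ball ws δψ ∈ 𝓝 (F0, ws) :=
      (isOpen_ball.prod isOpen_ball).mem_nhds ⟨mem_ball_self hδψ, mem_ball_self hδψ⟩
    exact hc1 h1
  obtain ⟨εb, hεb, hMb⟩ := Metric.eventually_nhds_iff_ball.mp (hM1.and (hM2.and (hM3.and hM4)))
  have hMb' : ∀ F ∈ ball F0 εb, ∀ v ∈ closedBall x (εb / 2) ×ˢ closedBall ws (εb / 2),
      (∀ z ∈ sphere c r, ((T d F)^[m2] (z, ψ F z v.2)).1 ≠ v.1) ∧
      V 0 F v.2 ∈ ball c r ×ˢ ball w0 ρ0 ∧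
      (∀ j : Fin (q + 1), F ∈ ball F0 (δj j) ∧ v.2 ∈ ball ws (δj j)) ∧
      F ∈ ball F0 δψ ∧ v.2 ∈ ball ws δψ := by
    intro F hF v hv
    have h2 : v ∈ ball ((x, ws) : X2) εb := by
      rw [← ball_prod_same]
      exact ⟨closedBall_subset_ball (by linarith) hv.1, closedBall_subset_ball (by linarith) hv.2⟩
    have h3 : ((F, v) : Coef d × X2) ∈ ball (F0, (x, ws)) εb := by
      rw [← ball_prod_same]
      exact ⟨hF, h2⟩
    have h4 := hMb (F, v) h3
    exact ⟨h4.1, h4.2.1, h4.2.2.1, h4.2.2.2.1, h4.2.2.2.2⟩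
  clear hMb hM1 hM2 hM3 hM4
  have hxm : x ∈ closedBall x (εb / 2) := mem_closedBall_self (by positivity)
  refine ⟨min εa εb, r, 2 * r, ρ0, εb / 2, εb / 2, lt_min hεa hεb, hr, by linarith, hρ0,
    by positivity, by positivity, gret, ψ, q,
    fun j F t => ((T d F)^[m2 - idx j] (V j F t)).1, fun j => (pt p 0)^[idx j] c,
    fun j => m2 - idx j, ?_, ?_, ?_, ?_⟩
  · simp only [hidx0, Function.iterate_zero, id_eq]
  · simp only [hidx0, Nat.sub_zero]
  · intro j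
    exact ⟨Nat.sub_pos_of_lt (hidxlt j), hbase _ (hidxlt j).le⟩
  · intro F hF
    have hFa : F ∈ ball F0 εa := ball_subset_ball (min_le_left _ _) hF
    have hFb : F ∈ ball F0 εb := ball_subset_ball (min_le_right _ _) hF
    refine ⟨?_, ?_, ?_, ?_⟩
    · intro u hu
      have h1 := hNa' F hFa u (hRg hu)
      have h2 := hgret F h1.2.2.2.1 u h1.2.2.2.2
      refine ⟨h2.1, h2.2.1, h2.2.2.1, h2.2.2.2, h1.1, ?_⟩
      intro hu2 hdet
      rw [det_iter h1.1, Finset.prod_eq_zero_iff] at hdet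
      obtain ⟨i, hi, hdi⟩ := hdet
      rw [Finset.mem_range] at hi
      have hi' : i < q + 1 := by omega
      have hci : p.derivative.eval ((pt p 0)^[((⟨i, hi'⟩ : Fin (q + 1)) : ℕ)] c) = 0 := by
        by_contra h3
        exact h1.2.2.1 ⟨i, hi'⟩ h3 hdi
      have hie := hidxe ⟨i, hi'⟩ hci
      change idx ⟨i, hi'⟩ = i at hie
      have h4 := hMb' F hFb _ hu2
      have h5 := h4.2.2.1 ⟨i, hi'⟩
      have h6 := hV2 ⟨i, hi'⟩ F h5.1 _ h5.2
      have h7 := h1.2.1 ⟨i, hi'⟩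
      have h8 : (T d F)^[m2 - idx ⟨i, hi'⟩] ((T d F)^[idx ⟨i, hi'⟩] u) = (T d F)^[m2] u := by
        rw [← Function.iterate_add_apply]
        congr 1
        rw [hie]
        have h9 : m2 - i + i = m2 := by omega
        rw [h9]
      have h9 : (T d F)^[idx ⟨i, hi'⟩] u = V ⟨i, hi'⟩ F ((T d F)^[m2] u).2 := by
        apply h6.2.2.2.2.1 _ (ball_subset_closedBall h7)
        · rw [hie]
          exact hdi
        · rw [h8]
      refine ⟨⟨i, hi'⟩, ?_⟩
      change ((T d F)^[m2] u).1 =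
        ((T d F)^[m2 - idx ⟨i, hi'⟩] (V ⟨i, hi'⟩ F ((T d F)^[m2] u).2)).1
      rw [← h9, h8]
    · intro z hz t ht
      have h1 := hMb' F hFb (x, t) ⟨hxm, ht⟩
      have h2 := (hψ F h1.2.2.2.1 z (hcψ hz)).2 t h1.2.2.2.2
      exact ⟨h2.1, h2.2.1, h2.2.2.1, h2.2.2.2⟩
    · intro v hv
      have h1 := hMb' F hFb v hv
      refine ⟨h1.1, ?_⟩
      intro hv1
      have h2 := h1.2.2.1 0
      have h3 := hV2 0 F h2.1 v.2 h2.2
      refine ⟨V 0 F v.2, h1.2.1, ?_, ?_⟩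
      · have h4 := h3.2.2.2.1
        change v.1 = ((T d F)^[m2 - idx 0] (V 0 F v.2)).1 at hv1
        rw [hidx0, Nat.sub_zero] at h4
        rw [hidx0, Nat.sub_zero] at hv1
        exact Prod.ext hv1.symm h4
      · have h5 : V 0 F v.2 ∈ closedBall c (2 * r) ×ˢ closedBall w0 ρ0 := by
          refine ⟨?_, ball_subset_closedBall h1.2.1.2⟩
          exact (ball_subset_closedBall.trans (closedBall_subset_closedBall (by linarith)))
            h1.2.1.1
        rw [det_iter (hNa' F hFa _ (hRg h5)).1, Finset.prod_eq_zero_iff]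
        refine ⟨0, Finset.mem_range.mpr (by omega), ?_⟩
        exact h3.2.2.1
    · intro j t ht
      have h1 := hMb' F hFb (x, t) ⟨hxm, ht⟩
      have h2 := h1.2.2.1 j
      have h3 := hV2 j F h2.1 t h2.2
      refine ⟨?_, ?_⟩
      · have h4 : ContDiffAt ℂ 1 (fun q : Coef d × ℂ => ((q.1, V j q.1 q.2) : Coef d × X2))
            (F, t) := contDiffAt_fst.prodMk h3.2.2.2.2.2.1
        have h5 := iter_contDiffAt h3.2.1 1
        exact (ContDiffAt.comp (F, t)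
          (g := fun q : Coef d × X2 => (T d q.1)^[m2 - idx j] q.2)
          (f := fun q : Coef d × ℂ => ((q.1, V j q.1 q.2) : Coef d × X2)) h5 h4).fst
      · intro τ hτ
        have h4 := h3.2.2.2.2.2.2 τ hτ
        have h5 : V j F t = ((pt p 0)^[idx j] c, (V j F t).2) := Prod.ext h4 rfl
        change ((T d F)^[m2 - idx j] (V j F t)).1 = _
        rw [h5, hτ, T_skew_iter hd1 hpd]


end SkewBif
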