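import Pool.Agent.SK.E1
import Pool.Agent.SK.Arena
/-! ## MP_9cfccf_an, module E5b -/
open Set Metric Filter Topology Polynomial
namespace SkewBif

theorem E5b_smooth (p : ℂ[X]) (m : ℕ) :
    ContDiff ℂ 1 (fun q : ℂ × ℂ => (pt p q.1)^[m] q.2) := by
  induction m with
  | zero => exact contDiff_snd
  | succ m ih =>
    have h1 : (fun q : ℂ × ℂ => (pt p q.1)^[m + 1] q.2) =
        fun q : ℂ × ℂ => p.eval ((pt p q.1)^[m] q.2) + q.1 := by
      funext q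
      rw [Function.iterate_succ_apply']
      rfl
    rw [h1]
    exact ((Polynomial.differentiable p).contDiff.comp ih).add contDiff_fst

theorem E5b_inj (p : ℂ[X]) (m : ℕ) (x : ℂ) (hx : deriv ((pt p 0)^[m]) x ≠ 0) :
    ∀ᶠ q : (ℂ × ℂ) × (ℂ × ℂ) in 𝓝 (((0 : ℂ), x), ((0 : ℂ), x)), q.1.1 = q.2.1 →
      (pt p q.1.1)^[m] q.1.2 = (pt p q.2.1)^[m] q.2.2 → q.1.2 = q.2.2 := by
  obtain ⟨f, hf⟩ : ∃ f : ℂ × ℂ → ℂ, f = fun q : ℂ × ℂ => (pt p q.1)^[m] q.2 := ⟨_, rfl⟩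
  have h1 : HasStrictFDerivAt f (fderiv ℂ f (0, x)) (0, x) := by
    rw [hf]
    exact (E5b_smooth p m).contDiffAt.hasStrictFDerivAt (by norm_num)
  obtain ⟨μ, hμ⟩ : ∃ μ, μ = deriv ((pt p 0)^[m]) x := ⟨_, rfl⟩
  rw [← hμ] at hx
  have h2 : ∀ a : ℂ, fderiv ℂ f (0, x) (0, a) = μ * a := by
    intro a
    have h3 : HasDerivAt (fun z : ℂ => f ((0 : ℂ), z)) (fderiv ℂ f (0, x) (0, 1)) x := by
      have h4 : HasDerivAt (fun z : ℂ => ((0 : ℂ), z)) ((0 : ℂ), (1 : ℂ)) x :=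
        (hasDerivAt_const x (0 : ℂ)).prodMk (hasDerivAt_id x)
      exact h1.hasFDerivAt.comp_hasDerivAt x h4
    have h5 : (fun z : ℂ => f ((0 : ℂ), z)) = (pt p 0)^[m] := by
      rw [hf]
    rw [h5] at h3
    have h6 : fderiv ℂ f (0, x) (0, 1) = μ := by rw [hμ]; exact h3.deriv.symm
    have h7 : ((0 : ℂ), a) = a • ((0 : ℂ), (1 : ℂ)) := by simp
    rw [h7, map_smul, h6, smul_eq_mul, mul_comm]
  have hc : 0 < ‖μ‖ / 2 := half_pos (norm_pos_iff.mpr hx)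
  have h8 := h1.isLittleO.def hc
  filter_upwards [h8] with q hq h9 h10
  have h11 : f q.1 - f q.2 = 0 := by
    rw [hf]
    exact sub_eq_zero.mpr h10
  have h12 : q.1 - q.2 = ((0 : ℂ), q.1.2 - q.2.2) := by
    apply Prod.ext
    · exact sub_eq_zero.mpr h9
    · rfl
  rw [h11, zero_sub, norm_neg, h12, h2, norm_mul] at hq
  have h13 : ‖((0 : ℂ), q.1.2 - q.2.2)‖ = ‖q.1.2 - q.2.2‖ := by
    rw [Prod.norm_def, norm_zero, max_eq_right (norm_nonneg _)]
  rw [h13] at hq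
  have h14 : ‖q.1.2 - q.2.2‖ = 0 := by
    by_contra h15
    have h16 : 0 < ‖q.1.2 - q.2.2‖ := lt_of_le_of_ne (norm_nonneg _) (Ne.symm h15)
    nlinarith [norm_pos_iff.mpr hx]
  exact sub_eq_zero.mp (norm_eq_zero.mp h14)

/-- E5b. On the skew products `fam 0 τ`, `τ` small, limit points of the function system have first
coordinate `xc τ`. Here the `G i` are as in `ifs`.
Proof: for `v ∈ P` with `v.1 = xc τ`, `(G i F v).1 = xc τ`: both `(G i F v).1` and `xc τ` are close to `x`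
(choose `rP` and `τ` small) and have the same image `xc τ` under `(pt p τ)^[M i]`, which is injective near `x`
uniformly for small `τ` (nonzero multiplier). So the words keep the first coordinate. -/
theorem limPt_fst {d : ℕ} (hd : 1 ≤ d) {p : ℂ[X]} (hp : p.natDegree ≤ d) {b : Mon d → ℂ}
    {n : ℕ} (hn : 1 ≤ n) {x : ℂ} (hx : (pt p 0)^[n] x = x) (hmul : 1 < ‖deriv ((pt p 0)^[n]) x‖)
    {xc : ℂ → ℂ} (hxc0 : xc 0 = x) (hxc : ContinuousAt xc 0)
    (hfix : ∀ᶠ τ in 𝓝 (0 : ℂ), (pt p τ)^[n] (xc τ) = xc τ) {ι : Type} [Finite ι] (M : ι → ℕ)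
    (hM : ∀ i, 1 ≤ M i ∧ n ∣ M i) :
    ∃ r0 > 0, ∀ rP, 0 < rP → rP ≤ r0 → ∀ (wb : ℂ) (ρ δ : ℝ), 0 < ρ → 0 < δ →
      ∀ G : ι → Coef d → X2 → X2,
      (∀ i, ∀ F ∈ ball (skew d p b) δ, ∀ v ∈ closedBall x rP ×ˢ closedBall wb ρ,
        G i F v ∈ ball x rP ×ˢ ball wb ρ ∧ Good d (M i) F (G i F v) ∧
        (T d F)^[M i] (G i F v) = v) →
      ∀ᶠ τ in 𝓝 (0 : ℂ), ∀ (σ : ℕ → ι) (e : X2),
        IsLimPt (fun i => G i (fam d p b 0 τ)) σ (closedBall x rP ×ˢ closedBall wb ρ) e →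
        e.1 = xc τ := by
  haveI : Fintype ι := Fintype.ofFinite ι
  have hder : ∀ i, deriv ((pt p 0)^[M i]) x ≠ 0 := by
    intro i
    obtain ⟨k, hk⟩ := (hM i).2
    have h0 : deriv ((pt p 0)^[n]) x ≠ 0 := fun h => by
      rw [h, norm_zero] at hmul
      linarith
    have h1 : HasDerivAt ((pt p 0)^[n]) (deriv ((pt p 0)^[n]) x) x :=
      (differentiableAt_of_deriv_ne_zero h0).hasDerivAt
    have h2 := HasDerivAt.iterate x h1 hx k
    rw [hk, Function.iterate_mul, h2.deriv]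
    exact pow_ne_zero _ h0
  have hinj : ∀ᶠ q : (ℂ × ℂ) × (ℂ × ℂ) in 𝓝 (((0 : ℂ), x), ((0 : ℂ), x)), ∀ i, q.1.1 = q.2.1 →
      (pt p q.1.1)^[M i] q.1.2 = (pt p q.2.1)^[M i] q.2.2 → q.1.2 = q.2.2 := by
    rw [eventually_all]
    exact fun i => E5b_inj p (M i) x (hder i)
  rw [Metric.eventually_nhds_iff_ball] at hinj
  obtain ⟨r1, hr1, hinj⟩ := hinj
  refine ⟨r1 / 2, half_pos hr1, fun rP hrP hrP2 wb ρ δ hρ hδ G hG => ?_⟩
  have c1 : ∀ᶠ τ : ℂ in 𝓝 0, ‖τ‖ < r1 := by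
    have := (continuous_norm (E := ℂ)).continuousAt (x := (0 : ℂ))
    have h2 := this.eventually (gt_mem_nhds (show ‖(0 : ℂ)‖ < r1 by rw [norm_zero]; exact hr1))
    exact h2
  have c2 : ∀ᶠ τ : ℂ in 𝓝 0, xc τ ∈ closedBall x rP := by
    have h1 : closedBall x rP ∈ 𝓝 (xc 0) := by
      rw [hxc0]
      exact closedBall_mem_nhds x hrP
    exact hxc h1
  have c3 : ∀ᶠ τ : ℂ in 𝓝 0, fam d p b 0 τ ∈ ball (skew d p b) δ := by
    obtain ⟨V1, V2, hV⟩ := fam_affine (d := d) p b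
    have h1 : Continuous (fun τ : ℂ => fam d p b 0 τ) := by
      simp only [hV]
      fun_prop
    have h2 : ball (skew d p b) δ ∈ 𝓝 (fam d p b 0 0) := ball_mem_nhds _ hδ
    exact h1.continuousAt h2
  filter_upwards [c1, c2, c3, hfix] with τ t1 t2 t3 t4 σ e he
  -- one step
  have step : ∀ i, ∀ v ∈ closedBall x rP ×ˢ closedBall wb ρ, v.1 = xc τ →
      G i (fam d p b 0 τ) v ∈ closedBall x rP ×ˢ closedBall wb ρ ∧
        (G i (fam d p b 0 τ) v).1 = xc τ := by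
    intro i v hv hv1
    obtain ⟨h1, _, h3⟩ := hG i _ t3 v hv
    refine ⟨⟨ball_subset_closedBall h1.1, ball_subset_closedBall h1.2⟩, ?_⟩
    rcases h' : G i (fam d p b 0 τ) v with ⟨z, w⟩
    rw [h'] at h1 h3
    rw [T_skew_iter hd hp] at h3
    have h4 : (pt p τ)^[M i] z = xc τ := by
      rw [← hv1, ← h3]
    have h5 : (pt p τ)^[M i] (xc τ) = xc τ := by
      obtain ⟨k, hk⟩ := (hM i).2
      rw [hk, Function.iterate_mul]
      exact Function.iterate_fixed t4 k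
    have h6 : dist z x < r1 := lt_of_lt_of_le h1.1 (by linarith)
    have h7 : dist (xc τ) x < r1 := lt_of_le_of_lt t2 (by linarith)
    have h8 := hinj ((τ, z), (τ, xc τ)) (by
      rw [mem_ball, Prod.dist_eq, Prod.dist_eq, Prod.dist_eq]
      simp only [dist_zero_right]
      exact max_lt (max_lt t1 h6) (max_lt t1 h7)) i rfl (by
        show (pt p τ)^[M i] z = (pt p τ)^[M i] (xc τ)
        rw [h4, h5])
    exact h8
  have hword : ∀ k : ℕ, ∀ v ∈ closedBall x rP ×ˢ closedBall wb ρ, v.1 = xc τ →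
      (word (fun i => G i (fam d p b 0 τ)) σ k v).1 = xc τ := by
    intro k
    induction k with
    | zero => intro v _ hv; exact hv
    | succ k ih =>
      intro v hv hv1
      obtain ⟨h1, h2⟩ := step (σ k) v hv hv1
      exact ih _ h1 h2
  have hv0 : ((xc τ, wb) : X2) ∈ closedBall x rP ×ˢ closedBall wb ρ :=
    ⟨t2, mem_closedBall_self hρ.le⟩
  have hlim := he _ hv0
  have hlim1 : Tendsto (fun k => (word (fun i => G i (fam d p b 0 τ)) σ k (xc τ, wb)).1) atTop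
      (𝓝 e.1) := (continuous_fst.tendsto e).comp hlim
  have hlim2 : Tendsto (fun k => (word (fun i => G i (fam d p b 0 τ)) σ k (xc τ, wb)).1) atTop
      (𝓝 (xc τ)) := by
    have h1 : (fun k => (word (fun i => G i (fam d p b 0 τ)) σ k (xc τ, wb)).1) =
        fun _ : ℕ => xc τ := by
      funext k
      exact hword k _ hv0 rfl
    rw [h1]
    exact tendsto_const_nhds
  exact tendsto_nhds_unique hlim1 hlim2

end SkewBif
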