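import Pool.Agent.SK.B6
import Pool.Agent.SK.E3
import Pool.Agent.SK.E4
import Pool.Agent.SK.E5a
import Pool.Agent.SK.E5b
/-! ## MP_9cfccf_an, module E5 -/
open Set Metric Filter Topology Polynomial
namespace SkewBif

theorem E5_word_add {ι X : Type} (g : ι → X → X) (σ : ℕ → ι) (M j : ℕ) (v : X) :
    word g σ (M + j) v = word g σ M (word g (fun i => σ (M + i)) j v) := by
  induction j generalizing v with
  | zero => rfl
  | succ j ih =>
    show word g σ (M + j) (g (σ (M + j)) v) = _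
    rw [ih]
    rfl

theorem E5_word_const {ι X : Type} (g : ι → X → X) (σ : ℕ → ι) (o : ι) (M : ℕ)
    (h : ∀ k < M, σ k = o) (v : X) : word g σ M v = (g o)^[M] v := by
  induction M generalizing v with
  | zero => rfl
  | succ M ih =>
    show word g σ M (g (σ M) v) = _
    rw [ih (fun k hk => h k (Nat.lt_succ_of_lt hk)), h M (Nat.lt_succ_self M)]
    rfl

theorem E5_word_mem {ι X : Type} (g : ι → X → X) (P : Set X) (hg : ∀ i, ∀ v ∈ P, g i v ∈ P)
    (σ : ℕ → ι) (k : ℕ) : ∀ v ∈ P, word g σ k v ∈ P := by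
  induction k with
  | zero => intro v hv; exact hv
  | succ k ih => intro v hv; exact ih _ (hg _ v hv)

theorem E5_deriv_iter {f : ℂ → ℂ} (hf : Differentiable ℂ f) {x : ℂ} (hx : f x = x) (k : ℕ) :
    deriv (f^[k]) x = (deriv f x) ^ k := by
  induction k with
  | zero => simp
  | succ k ih =>
    have h1 : f^[k] x = x := Function.iterate_fixed hx k
    rw [Function.iterate_succ', deriv_comp _ (by rw [h1]; exact hf x) ((hf.iterate k) x), h1, ih]
    ring

theorem E5_pt_diff (p : ℂ[X]) (τ : ℂ) (k : ℕ) : Differentiable ℂ ((pt p τ)^[k]) := by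
  have : Differentiable ℂ (pt p τ) := by
    unfold pt
    exact p.differentiable.add_const τ
  exact this.iterate k

/-- E5. Existence of the arena at a skew product.
Proof. Take `r0` from E5b and apply `ifs` (letters `Option κ`, `none` for `u`), with `P` the bidisc of radii `rP, ρ`. Choose the return point `(y0, w1)`
in the interior of `P` (`hret` with small `η`; `ws ∈ ball wb ρ`). `critical_local` with `O = interior P`. `M0`: for `F`
near the skew product, the map `G none F` is a contraction of `P` with a fixed point close to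
`(x, ws)`, so for `M0` large `(G none F)^[M0] P ⊆ Pt`; hence `first` (`word` with the first `M0`
letters `none`). `Lam` is a small ball around the skew product on which everything holds and
`Nondeg` holds. `F1 = fam 0 τ1` with `τ1 ≠ 0` small outside the finite sets where
`(pt p τ)^[kj j + n] (cj j) = (pt p τ)^[kj j] (cj j)` (B6 with `nac_const`), so that `(pt p τ1)^[kj j] (cj j) ≠ xc τ1`; with E5b this is `generic`. -/
theorem exists_arena {d : ℕ} (hd : 2 ≤ d) {p : ℂ[X]} (hp : p.natDegree = d) {b : Mon d → ℂ}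
    (hb : topCoef d b ≠ 0)
    (hsimple : ∀ c, p.derivative.eval c = 0 → p.derivative.derivative.eval c ≠ 0)
    {n N : ℕ} (hn : 1 ≤ n) (hN : 1 ≤ N) {x : ℂ} (hx : (pt p 0)^[n] x = x)
    (hmul : 1 < ‖deriv ((pt p 0)^[n]) x‖) {wb ws : ℂ} {ρ R θ : ℝ} (hρ : 0 < ρ) (hρR : ρ < R)
    (hθ : θ < 1) {q : ℕ} {u : ℂ → ℂ} {U : Fin q → ℂ → ℂ}
    (hu : DifferentiableOn ℂ u (ball wb R)) (hU : ∀ i, DifferentiableOn ℂ (U i) (ball wb R))
    (huinv : ∀ w ∈ ball wb R, fib d p b 0 n x (u w) = w)
    (hUinv : ∀ i, ∀ w ∈ ball wb R, fib d p b 0 (n * N) x (U i w) = w)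
    (huder : ∀ w ∈ ball wb R, ‖deriv u w‖ ≤ θ) (hUder : ∀ i, ∀ w ∈ ball wb R, ‖deriv (U i) w‖ ≤ θ)
    (humap : ∀ w ∈ closedBall wb ρ, u w ∈ ball wb ρ)
    (hUmap : ∀ i, ∀ w ∈ closedBall wb ρ, U i w ∈ ball wb ρ)
    (hws : ws ∈ ball wb ρ) (huws : u ws = ws)
    {c w0 : ℂ} {m2 : ℕ} (hm2 : 1 ≤ m2) (hc : p.derivative.eval c = 0)
    (hland : (pt p 0)^[m2] c = x) (hfib : fib d p b 0 m2 c w0 = ws)
    (hfd : deriv (fib d p b 0 m2 c) w0 ≠ 0)
    (hret : ∀ η > 0, ∃ y0 w1, dist y0 x < η ∧ dist w1 ws < η ∧ ∃ m1 ≥ 1, (pt p 0)^[m1] y0 = c ∧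
        fib d p b 0 m1 y0 w1 = w0 ∧ deriv ((pt p 0)^[m1]) y0 ≠ 0 ∧
        deriv (fib d p b 0 m1 y0) w1 ≠ 0) :
    ∃ (q' : ℕ) (A : AData d (Option (Fin q)) (Fin (q' + 1))), IsArena A ∧
      skew d p b ∈ A.Lam ∧ A.o = none ∧ A.xs = x ∧ A.ws = ws ∧ A.j0 = 0 ∧
      (∃ rP > 0, A.P = closedBall x rP ×ˢ closedBall wb ρ) ∧
      A.Nb none = n ∧ (∀ i, A.Nb (some i) = n * N) ∧
      (∀ w ∈ closedBall wb ρ, A.G none (skew d p b) (x, w) = (x, u w)) ∧
      (∀ i, ∀ w ∈ closedBall wb ρ, A.G (some i) (skew d p b) (x, w) = (x, U i w)) ∧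
      ∀ τ, fam d p b 0 τ ∈ A.Lam → ∀ t ∈ closedBall ws A.ρt,
        A.γ A.j0 (fam d p b 0 τ) t = (pt p τ)^[m2] c := by
  have hd1 : 1 ≤ d := by omega
  have hmul1 : deriv ((pt p 0)^[n]) x ≠ 1 := by
    intro h0
    rw [h0, norm_one] at hmul
    exact lt_irrefl _ hmul
  obtain ⟨xc, hxc0, hxca, hxfix, _⟩ := exists_xc hx hmul1
  let M : Option (Fin q) → ℕ := fun i => i.elim n (fun _ => n * N)
  let U' : Option (Fin q) → ℂ → ℂ := fun i => i.elim u U
  have hM : ∀ i, 1 ≤ M i ∧ n ∣ M i := by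
    rintro (_ | i)
    · exact ⟨hn, dvd_rfl⟩
    · exact ⟨Nat.mul_pos hn hN, Dvd.intro N rfl⟩
  obtain ⟨r0, hr0, hlim⟩ := limPt_fst hd1 hp.le (b := b) hn hx hmul hxc0 hxca.continuousAt hxfix M hM
  have hxM : ∀ i, (pt p 0)^[M i] x = x := by
    rintro (_ | i)
    · exact hx
    · show (pt p 0)^[n * N] x = x
      rw [Function.iterate_mul]
      exact Function.iterate_fixed hx N
  have hmulM : ∀ i, 1 < ‖deriv ((pt p 0)^[M i]) x‖ := by
    rintro (_ | i)
    · exact hmul
    · show 1 < ‖deriv ((pt p 0)^[n * N]) x‖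
      rw [Function.iterate_mul, E5_deriv_iter (E5_pt_diff p 0 n) hx, norm_pow]
      exact one_lt_pow₀ hmul (by omega)
  obtain ⟨δ1, hδ1, rP, hrP, hrP0, Cc, θ', hCc, hθ0', hθ1', G, hG0, hG1, hG2⟩ :=
    ifs hd1 hp.le (b := b) hρ hρR hθ (M := M) (fun i => (hM i).1) hxM hmulM (U := U')
      (by rintro (_ | i); exacts [hu, hU i])
      (by rintro (_ | i); exacts [huinv, hUinv i])
      (by rintro (_ | i); exacts [huder, hUder i])
      (by rintro (_ | i); exacts [humap, hUmap i]) hr0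
  set P : Set X2 := closedBall x rP ×ˢ closedBall wb ρ with hP
  have hintP : interior P = ball x rP ×ˢ ball wb ρ := by
    rw [hP, interior_prod_eq, interior_closedBall _ hrP.ne', interior_closedBall _ hρ.ne']
  have hwsP : ((x, ws) : X2) ∈ P := ⟨mem_closedBall_self hrP.le, ball_subset_closedBall hws⟩
  -- the return point
  have hη : 0 < min rP (ρ - dist ws wb) := lt_min hrP (by rw [mem_ball] at hws; linarith)
  obtain ⟨y0, w1, hy0, hw1, m1, hm1, hy0c, hw10, hyd, hwd⟩ := hret _ hη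
  have hO' : ((y0, w1) : X2) ∈ ball x rP ×ˢ ball wb ρ := by
    refine ⟨lt_of_lt_of_le hy0 (min_le_left _ _), ?_⟩
    show dist w1 wb < ρ
    have h1 := lt_of_lt_of_le hw1 (min_le_right _ _)
    have h2 := dist_triangle w1 ws wb
    linarith
  obtain ⟨δ2, r, r', ρ0, rt, ρt, hδ2, hr, hrr', hρ0, hrt, hρt, gret, ψ, q', γ, cj, kj, hcj0, hkj0,
    hkj, hloc⟩ := critical_local hd hp (b := b) hsimple hm1 hm2 hc hland hfib hfd hy0c hw10 hyd hwd
      (isOpen_ball.prod isOpen_ball) hO'
  -- the letter `none`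
  have hGmem : ∀ i, ∀ F ∈ ball (skew d p b) δ1, ∀ v ∈ P, G i F v ∈ P := fun i F hF v hv =>
    ⟨ball_subset_closedBall (hG1 i F hF v hv).1.1, ball_subset_closedBall (hG1 i F hF v hv).1.2⟩
  set ε : ℝ := min rt ρt with hε
  have hεpos : 0 < ε := lt_min hrt hρt
  obtain ⟨M0, hM0⟩ : ∃ M0 : ℕ, Cc * θ' ^ M0 * Metric.diam P < ε / 2 := by
    have h1 : Tendsto (fun k : ℕ => Cc * θ' ^ k * Metric.diam P) atTop (𝓝 0) := by
      have := ((tendsto_pow_atTop_nhds_zero_of_lt_one hθ0' hθ1').const_mul Cc).mul_const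
        (Metric.diam P)
      simpa using this
    exact (h1.eventually (gt_mem_nhds (by positivity : (0 : ℝ) < ε / 2))).exists
  have hskew1 : skew d p b ∈ ball (skew d p b) δ1 := mem_ball_self hδ1
  have hcontk : ∀ k : ℕ, (G none (skew d p b))^[k] (x, ws) = (x, ws) ∧
      ContinuousAt (fun F => (G none F)^[k] ((x, ws) : X2)) (skew d p b) := by
    intro k
    induction k with
    | zero => exact ⟨rfl, continuousAt_const⟩
    | succ k ih =>
      obtain ⟨i1, i2⟩ := ih
      constructor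
      · rw [Function.iterate_succ_apply', i1, hG0 none ws (ball_subset_closedBall hws)]
        show ((x, u ws) : X2) = (x, ws)
        rw [huws]
      · have h1 : ContinuousAt (fun q : Coef d × X2 => G none q.1 q.2)
            (skew d p b, (G none (skew d p b))^[k] ((x, ws) : X2)) := by
          rw [i1]
          exact (hG1 none _ hskew1 _ hwsP).2.2.2.continuousAt
        have h2 : ContinuousAt (fun F : Coef d => ((F, (G none F)^[k] ((x, ws) : X2)) : Coef d × X2))
            (skew d p b) := continuousAt_id.prodMk i2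
        have h3 := ContinuousAt.comp (f := fun F : Coef d =>
          ((F, (G none F)^[k] ((x, ws) : X2)) : Coef d × X2)) (g := fun q : Coef d × X2 => G none q.1 q.2)
          (x := skew d p b) h1 h2
        have e : (fun F => (G none F)^[k + 1] ((x, ws) : X2)) =
            (fun q : Coef d × X2 => G none q.1 q.2) ∘ (fun F : Coef d =>
              ((F, (G none F)^[k] ((x, ws) : X2)) : Coef d × X2)) := by
          funext F
          rw [Function.iterate_succ_apply']
          rfl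
        rw [e]
        exact h3
  have hev3 : ∀ᶠ F in 𝓝 (skew d p b), dist ((G none F)^[M0] ((x, ws) : X2)) (x, ws) < ε / 2 := by
    obtain ⟨i1, i2⟩ := hcontk M0
    have h1 : ContinuousAt (fun F => dist ((G none F)^[M0] ((x, ws) : X2)) (x, ws)) (skew d p b) :=
      i2.dist continuousAt_const
    refine h1.eventually_lt_const ?_
    show dist ((G none (skew d p b))^[M0] ((x, ws) : X2)) (x, ws) < ε / 2
    rw [i1, dist_self]
    positivity
  have hnd : ∀ᶠ F in 𝓝 (skew d p b), Nondeg d F :=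
    (nondeg_open hd1).mem_nhds (nondeg_skew hd1 hp hb)
  obtain ⟨δ3, hδ3, hball3⟩ := Metric.eventually_nhds_iff.1 (hev3.and hnd)
  set δ : ℝ := min (min δ1 δ2) δ3 with hδdef
  have hδpos : 0 < δ := lt_min (lt_min hδ1 hδ2) hδ3
  have hL1 : ∀ F ∈ ball (skew d p b) δ, F ∈ ball (skew d p b) δ1 := fun F hF =>
    mem_ball.2 (lt_of_lt_of_le (mem_ball.1 hF) ((min_le_left _ _).trans (min_le_left _ _)))
  have hL2 : ∀ F ∈ ball (skew d p b) δ, F ∈ ball (skew d p b) δ2 := fun F hF =>
    mem_ball.2 (lt_of_lt_of_le (mem_ball.1 hF) ((min_le_left _ _).trans (min_le_right _ _)))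
  have hL3 : ∀ F ∈ ball (skew d p b) δ, dist F (skew d p b) < δ3 := fun F hF =>
    lt_of_lt_of_le (mem_ball.1 hF) (min_le_right _ _)
  have hPbdd : Bornology.IsBounded P := isBounded_closedBall.prod isBounded_closedBall
  -- the first letters
  have hfirst : ∀ F ∈ ball (skew d p b) δ, ∀ σ : ℕ → Option (Fin q), (∀ k < M0, σ k = none) →
      ∀ k ≥ M0, ∀ v ∈ P, word (fun i => G i F) σ k v ∈ closedBall x rt ×ˢ closedBall ws ρt := by
    intro F hF σ hσ k hk v hv
    obtain ⟨j, rfl⟩ := Nat.exists_eq_add_of_le hk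
    rw [E5_word_add]
    have hv' : word (fun i => G i F) (fun i => σ (M0 + i)) j v ∈ P :=
      E5_word_mem _ P (fun i v hv => hGmem i F (hL1 F hF) v hv) _ j v hv
    set v' := word (fun i => G i F) (fun i => σ (M0 + i)) j v
    have h1 := hG2 F (hL1 F hF) σ M0 v' hv' (x, ws) hwsP
    have h2 : dist v' ((x, ws) : X2) ≤ Metric.diam P := Metric.dist_le_diam_of_mem hPbdd hv' hwsP
    have h3 : dist (word (fun i => G i F) σ M0 v') (word (fun i => G i F) σ M0 (x, ws)) < ε / 2 := by
      refine lt_of_le_of_lt h1 (lt_of_le_of_lt ?_ hM0)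
      exact mul_le_mul_of_nonneg_left h2 (mul_nonneg hCc (pow_nonneg hθ0' _))
    rw [E5_word_const (fun i => G i F) σ none M0 hσ ((x, ws) : X2)] at h3
    have h4 := (hball3 (hL3 F hF)).1
    have h5 : dist (word (fun i => G i F) σ M0 v') (x, ws) < ε := by
      have := dist_triangle (word (fun i => G i F) σ M0 v') ((G none F)^[M0] ((x, ws) : X2)) (x, ws)
      linarith
    rw [Prod.dist_eq, max_lt_iff] at h5
    exact ⟨(h5.1.trans_le (min_le_left _ _)).le, (h5.2.trans_le (min_le_right _ _)).le⟩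
  -- the parameter `τ1`
  obtain ⟨V1, V2, hV⟩ := fam_affine (d := d) p b
  have hfam0 : ContinuousAt (fun τ : ℂ => fam d p b 0 τ) 0 := by
    have : (fun τ : ℂ => fam d p b 0 τ) = fun τ => skew d p b + (0 : ℂ) • V1 + τ • V2 := by
      funext τ
      rw [hV]
    rw [this]
    fun_prop
  have hfamδ : ∀ᶠ τ in 𝓝 (0 : ℂ), fam d p b 0 τ ∈ ball (skew d p b) δ :=
    hfam0.eventually_mem (isOpen_ball.mem_nhds (mem_ball_self hδpos))
  have hlim' := hlim rP hrP hrP0 wb ρ δ hρ hδpos G (fun i F hF v hv => by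
    obtain ⟨g1, g2, g3, _⟩ := hG1 i F (hL1 F hF) v hv
    exact ⟨g1, g2, g3⟩)
  have hfin : ∀ j : Fin (q' + 1), ∀ᶠ τ in 𝓝[≠] (0 : ℂ),
      (pt p τ)^[kj j + n] (cj j) ≠ (pt p τ)^[kj j] (cj j) := by
    intro j
    have h1 := finite_relation hd (q := fun _ => p) (fun _ => hp) (kj j) hn (cj j)
    have h2 : {τ : ℂ | (pt p τ)^[kj j + n] (cj j) = (pt p τ)^[kj j] (cj j)}.Finite := by
      convert h1 using 3
      rw [nac_const, nac_const]
    have h3 : ({τ : ℂ | (pt p τ)^[kj j + n] (cj j) = (pt p τ)^[kj j] (cj j)} \ {0}).Finite :=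
      h2.subset diff_subset
    have h4 : ({τ : ℂ | (pt p τ)^[kj j + n] (cj j) = (pt p τ)^[kj j] (cj j)} \ {0})ᶜ ∈ 𝓝 (0 : ℂ) :=
      h3.isClosed.isOpen_compl.mem_nhds (fun h => h.2 rfl)
    filter_upwards [mem_nhdsWithin_of_mem_nhds h4, self_mem_nhdsWithin] with τ h5 h6 h7
    exact h5 ⟨h7, h6⟩
  have hall : ∀ᶠ τ in 𝓝[≠] (0 : ℂ), (∀ j : Fin (q' + 1),
      (pt p τ)^[kj j + n] (cj j) ≠ (pt p τ)^[kj j] (cj j)) := eventually_all.2 hfin
  obtain ⟨τ1, hτ1⟩ := (hall.and ((hfamδ.and (hlim'.and hxfix)).filter_mono nhdsWithin_le_nhds)).exists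
  obtain ⟨t1, t2, t3, t4⟩ := hτ1
  let A : AData d (Option (Fin q)) (Fin (q' + 1)) :=
    { Lam := ball (skew d p b) δ
      P := P
      Nb := M
      G := G
      Cc := Cc
      θ := θ'
      o := none
      M0 := M0
      c := c
      w0 := w0
      xs := x
      ws := ws
      r := r
      r' := r'
      ρ0 := ρ0
      rt := rt
      ρt := ρt
      m1 := m1
      m2 := m2
      gret := gret
      ψ := ψ
      γ := γ
      j0 := 0
      F1 := fam d p b 0 τ1 }
  refine ⟨q', A, ?_, mem_ball_self hδpos, rfl, rfl, rfl, rfl, ⟨rP, hrP, rfl⟩, rfl, fun _ => rfl,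
    hG0 none, fun i => hG0 (some i), ?_⟩
  · refine
      { Lam_open := isOpen_ball
        Lam_convex := convex_ball _ _
        nondeg := fun F hF => (hball3 (hL3 F hF)).2
        P_compact := (isCompact_closedBall _ _).prod (isCompact_closedBall _ _)
        P_convex := (convex_closedBall _ _).prod (convex_closedBall _ _)
        Nb_pos := fun i => (hM i).1
        G_maps := ?_
        G_inv := ?_
        G_smooth := ?_
        Cc_nonneg := hCc
        th0 := hθ0'
        th1 := hθ1'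
        contr := ?_
        r_pos := hr
        r_lt := hrr'
        ρ0_pos := hρ0
        rt_pos := hrt
        ρt_pos := hρt
        m1_pos := hm1
        m2_pos := hm2
        gret_maps := ?_
        gret_inv := ?_
        gret_smooth := ?_
        good2 := ?_
        ψ_mem := ?_
        ψ_uniq := ?_
        ψ_smooth := ?_
        bdry := ?_
        first := ?_
        γ_smooth := ?_
        crit := ?_
        crit0 := ?_
        F1_mem := t2
        generic := ?_ }
    · intro i F hF v hv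
      show G i F v ∈ interior P
      rw [hintP]
      exact (hG1 i F (hL1 F hF) v hv).1
    · intro i F hF v hv
      exact ⟨(hG1 i F (hL1 F hF) v hv).2.1, (hG1 i F (hL1 F hF) v hv).2.2.1⟩
    · intro i F hF v hv
      exact (hG1 i F (hL1 F hF) v hv).2.2.2
    · intro F hF σ k v hv v' hv'
      exact hG2 F (hL1 F hF) σ k v hv v' hv'
    · intro F hF u hu
      show gret F u ∈ interior P
      rw [hintP]
      exact ((hloc F (hL2 F hF)).1 u hu).1
    · intro F hF u hu
      exact ⟨((hloc F (hL2 F hF)).1 u hu).2.1, ((hloc F (hL2 F hF)).1 u hu).2.2.1⟩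
    · intro F hF u hu
      exact ((hloc F (hL2 F hF)).1 u hu).2.2.2.1
    · intro F hF u hu
      exact ((hloc F (hL2 F hF)).1 u hu).2.2.2.2.1
    · intro F hF z hz t ht
      exact ⟨((hloc F (hL2 F hF)).2.1 z hz t ht).1, ((hloc F (hL2 F hF)).2.1 z hz t ht).2.1⟩
    · intro F hF z hz w hw t ht h
      exact ((hloc F (hL2 F hF)).2.1 z hz t ht).2.2.1 w hw h
    · intro F hF z hz t ht
      exact ((hloc F (hL2 F hF)).2.1 z hz t ht).2.2.2
    · intro F hF q hq z hz
      exact ((hloc F (hL2 F hF)).2.2.1 q hq).1 z hz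
    · intro F hF σ hσ k hk v hv
      exact hfirst F hF σ hσ k hk v hv
    · intro j F hF t ht
      exact ((hloc F (hL2 F hF)).2.2.2 j t ht).1
    · intro F hF u hu hPt hdet
      exact ((hloc F (hL2 F hF)).1 u hu).2.2.2.2.2 hPt hdet
    · intro F hF q hq hq1
      exact ((hloc F (hL2 F hF)).2.2.1 q hq).2 hq1
    · intro σ hσ e he j hcon
      have h1 : e.1 = xc τ1 := t3 σ e he
      have h2 : e ∈ closedBall x rt ×ˢ closedBall ws ρt := by
        have h3 : Tendsto (fun k => word (fun i => G i (fam d p b 0 τ1)) σ k ((x, ws) : X2)) atTop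
          (𝓝 e) := he _ hwsP
        refine (isClosed_closedBall.prod isClosed_closedBall).mem_of_tendsto h3 ?_
        filter_upwards [eventually_ge_atTop M0] with k hk
        exact hfirst _ t2 σ hσ k hk _ hwsP
      have h4 := ((hloc _ (hL2 _ t2)).2.2.2 j e.2 h2.2).2 τ1 rfl
      have h5 : e.1 = γ j (fam d p b 0 τ1) e.2 := hcon
      rw [h4, h1] at h5
      apply t1 j
      rw [Nat.add_comm, Function.iterate_add_apply, ← h5]
      exact t4
  · intro τ hτ t ht
    have h4 := ((hloc _ (hL2 _ hτ)).2.2.2 0 t ht).2 τ rfl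
    rw [hcj0, hkj0] at h4
    exact h4

end SkewBif
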