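import Pool.Agent.SK.Defs
/-! ## MP_9cfccf_an, module F0 -/
open Set Metric Filter Topology Polynomial
namespace SkewBif

/-- Coefficient closeness of skew products. -/
theorem skew_near {d : ℕ} (p : ℂ[X]) (b : Mon d → ℂ) {W : Set (Coef d)} (hW : IsOpen W)
    (hmem : skew d p b ∈ W) :
    ∃ δ > 0, ∀ (p' : ℂ[X]) (σ : ℂ), (∀ i, ‖p'.coeff i - p.coeff i‖ < δ) → ‖σ‖ < δ →
      skew d p' (shift d b σ) ∈ W := by
  obtain ⟨δ, hδ, hball⟩ := Metric.isOpen_iff.1 hW _ hmem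
  refine ⟨δ, hδ, fun p' σ hp hσ => hball ?_⟩
  rw [mem_ball, dist_pi_lt_iff hδ]
  intro k
  rw [dist_pi_lt_iff hδ]
  intro m
  rw [dist_eq_norm]
  fin_cases k
  · show ‖baseCoef d p' 0 0 m - baseCoef d p 0 0 m‖ < δ
    unfold baseCoef
    by_cases h : (m.1.2 : ℕ) = 0
    · simp only [h, if_true, ite_self, add_zero]
      exact hp _
    · simp only [h, if_false, ite_self, add_zero, sub_zero, norm_zero]
      exact hδ
  · show ‖(if (m.1.1 : ℕ) = 0 ∧ (m.1.2 : ℕ) = 0 then (1 : ℂ) else 0) -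
      (if (m.1.1 : ℕ) = 0 ∧ (m.1.2 : ℕ) = 0 then (1 : ℂ) else 0)‖ < δ
    rw [sub_self, norm_zero]
    exact hδ
  · show ‖shift d b σ m - b m‖ < δ
    unfold shift
    rw [add_sub_cancel_left]
    split_ifs
    · exact hσ
    · rw [norm_zero]; exact hδ

end SkewBif
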