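import Pool.Agent.SK.Arena
import Pool.Agent.SK.B13
import Pool.Agent.SK.C2
import Pool.Agent.SK.C3
import Pool.Agent.SK.C4
import Pool.Agent.SK.C6
import Pool.Agent.SK.C9
import Pool.Agent.SK.F0
/-! ## MP_9cfccf_an, module F1 -/
open Set Metric Filter Topology Polynomial
namespace SkewBif

/-- F1. Existence of neutral data arbitrarily close to a skew product over a bifurcating base.
Proof: B13 gives `pb, n, x`; choose `σ` small outside the exceptional sets of C2, C3, C4 (for `pb`,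
`n`, `x`), `bb = shift d b σ`; C2 gives a repelling fixed point `wb` of `Q = fib n x`; C5
(`exists_fibLin`; `‖lam‖ = 1 < ‖Q' wb‖`, `lam ≠ 1`); C6 (`kappa`, polynomials from `fib_poly`,
`drift_poly`: degrees `d^n` and `d^(n-1)`) gives `l`, `y`; C4 with `z = x`, `k = n l`
(`fib_iter`) gives the nonzero derivative. -/
theorem stage1 {d : ℕ} (hd : 2 ≤ d) {p : ℂ[X]} (hp : p.natDegree = d) {b : Mon d → ℂ}
    (hb : topCoef d b ≠ 0) (hbif : BifBase p) {W : Set (Coef d)} (hW : IsOpen W)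
    (hmem : skew d p b ∈ W) :
    ∃ (pb : ℂ[X]) (bb : Mon d → ℂ) (n : ℕ) (x lam wb : ℂ) (R θ : ℝ) (u A : ℂ → ℂ) (l : ℕ) (y : ℂ),
      skew d pb bb ∈ W ∧ Neutral d pb bb n x lam wb R θ u A l y := by
  obtain ⟨δ, hδ, hnear⟩ := skew_near p b hW hmem
  obtain ⟨pb, hpb, hclose, hsimple, n, hn, x, hx, hmul, hmul2⟩ :=
    first_perturbation (by omega : 2 ≤ p.natDegree) hbif hδ
  have hpd : pb.natDegree = d := hpb.trans hp
  -- choice of `σ`
  have hcount := ((fiber_repelling hd pb hb hn x).countable.union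
    (fiber_nonexc hd pb hb hn x).countable).union
    (gen_sigma hd (by omega : 1 ≤ pb.natDegree) hb hn hx)
  obtain ⟨σ, hσ1, hσ2⟩ := (hcount.dense_compl ℂ).inter_open_nonempty (ball (0 : ℂ) δ) isOpen_ball
    ⟨0, mem_ball_self hδ⟩
  rw [mem_compl_iff, mem_union, mem_union, not_or, not_or] at hσ2
  obtain ⟨⟨hσC2, hσC3⟩, hσC4⟩ := hσ2
  have hσ : ‖σ‖ < δ := by
    rw [mem_ball, dist_zero_right] at hσ1
    exact hσ1
  set bb : Mon d → ℂ := shift d b σ with hbb
  have hbb0 : topCoef d bb ≠ 0 := by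
    rw [hbb, topCoef_shift (by omega)]
    exact hb
  have hC2 : ∃ w, fib d pb bb 0 n x w = w ∧ 1 < ‖deriv (fib d pb bb 0 n x) w‖ := by
    by_contra hc
    exact hσC2 hc
  obtain ⟨wb, hwb, hwbr⟩ := hC2
  obtain ⟨Q, hQd, hQe⟩ := fib_poly hd pb hbb0 0 n x
  obtain ⟨S, hSd, hSe⟩ := drift_poly hd pb hbb0 0 hn x
  have hQf : fib d pb bb 0 n x = fun w => Q.eval w := funext hQe
  have hSf : drift d pb bb 0 n x = fun w => S.eval w := funext hSe
  set lam : ℂ := deriv ((pt pb 0)^[n]) x with hlam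
  have hlam1 : lam ≠ 1 := by
    intro h
    exact hmul2 (by rw [h]; norm_num)
  have hlt : ‖lam‖ < ‖deriv (fib d pb bb 0 n x) wb‖ := by
    rw [hmul]
    exact hwbr
  have hQdiff : Differentiable ℂ (fib d pb bb 0 n x) := by
    rw [hQf]
    exact Q.differentiable
  have hSdiff : Differentiable ℂ (drift d pb bb 0 n x) := by
    rw [hSf]
    exact S.differentiable
  obtain ⟨R, θ, u, A, _, _, hlin⟩ := exists_fibLin hQdiff hSdiff hwb hwbr hlt hlam1 one_pos
  have hlin' : FibLin (fun w => Q.eval w) (fun w => S.eval w) lam wb R θ u A := by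
    rw [← hQf, ← hSf]
    exact hlin
  have hdn : 2 ≤ d ^ n := by
    calc 2 ≤ d := hd
      _ = d ^ 1 := (pow_one d).symm
      _ ≤ d ^ n := Nat.pow_le_pow_right (by omega) hn
  have hexc : ∀ a, ¬ ExcAt Q a := by
    intro a ha
    exact hσC3 ⟨Q, hQe, a, ha⟩
  have hrep : 1 < ‖Q.derivative.eval wb‖ := by
    have h1 : deriv (fib d pb bb 0 n x) wb = Q.derivative.eval wb := by
      rw [hQf]
      exact Q.deriv
    rw [← h1]
    exact hwbr
  have hS1 : 1 ≤ S.natDegree := by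
    rw [hSd]
    exact Nat.one_le_pow _ _ (by omega)
  have hS2 : S.natDegree < Q.natDegree := by
    rw [hSd, hQd]
    exact Nat.pow_lt_pow_right (by omega) (by omega)
  obtain ⟨l, hl1, y, hy, hQy, hne⟩ := kappa (by omega : 2 ≤ Q.natDegree) hS1 hS2 hmul hlam1
    ((hQe wb).symm.trans hwb) hrep hexc hlin'
  rw [← hQf] at hQy
  rw [← hQf, ← hSf] at hne
  refine ⟨pb, bb, n, x, lam, wb, R, θ, u, A, l, y, hnear pb σ hclose hσ, ?_⟩
  refine ⟨hpd, hbb0, hsimple, hn, hx, hlam, hmul, hmul2, hlin, hl1, hy, hQy, ?_, hne⟩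
  intro hd0
  apply hσC4
  have hit := fib_iter pb bb 0 hx l
  refine ⟨n * l, Nat.mul_pos hn hl1, x, (mult_pow pb 0 hx l).1, y, ?_, ?_⟩
  · change fib d pb bb 0 n x (fib d pb bb 0 (n * l) x y) = fib d pb bb 0 (n * l) x y
    rw [hit, hQy, hwb]
  · change deriv (fib d pb bb 0 (n * l) x) y = 0
    rw [hit]
    exact hd0

end SkewBif
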