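import Pool.Agent.SK.C9
import Pool.Agent.SK.D4a
import Pool.Agent.SK.D4b
import Pool.Agent.SK.Arena
/-! ## MP_9cfccf_an, module F2a -/
open Set Metric Filter Topology Polynomial
namespace SkewBif

private theorem f2a_shift_zero (d : ℕ) (b : Mon d → ℂ) : shift d b 0 = b := by
  funext m
  simp [shift]

private theorem f2a_unif {E : Type*} [TopologicalSpace E] {F : E × ℂ → ℂ} (hF : Continuous F)
    (p0 : E) {K : Set ℂ} (hK : IsCompact K) {ε : ℝ} (hε : 0 < ε) :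
    ∀ᶠ P in 𝓝 p0, ∀ w ∈ K, ‖F (P, w) - F (p0, w)‖ ≤ ε := by
  have hO : IsOpen {x : E × ℂ | ‖F x - F (p0, x.2)‖ < ε} := by
    have : Continuous (fun x : E × ℂ => ‖F x - F (p0, x.2)‖) :=
      (hF.sub (hF.comp (continuous_const.prodMk continuous_snd))).norm
    exact isOpen_lt this continuous_const
  obtain ⟨V, W, hV, hW, hpV, hKW, hVW⟩ := generalized_tube_lemma (s := {p0}) isCompact_singleton hK hO
    (by
      rintro ⟨a, w⟩ ⟨ha, hw⟩
      have ha' : a = p0 := ha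
      simp [ha', hε])
  filter_upwards [hV.mem_nhds (hpV rfl)] with P hP w hw
  exact (hVW (mk_mem_prod hP (hKW hw))).le

private theorem f2a_der {g g' : ℂ → ℂ} {c : ℂ} {r r' e : ℝ} (hr : r < r')
    (hg : DifferentiableOn ℂ g (ball c r')) (hg' : DifferentiableOn ℂ g' (ball c r'))
    (hb : ∀ w ∈ ball c r', ‖g' w - g w‖ ≤ e) {w : ℂ} (hw : w ∈ ball c r) :
    ‖deriv g' w‖ ≤ ‖deriv g w‖ + e / (r' - r) := by
  have hwR : w ∈ ball c r' := ball_subset_ball hr.le hw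
  have hsub : closedBall w (r' - r) ⊆ ball c r' := by
    intro v hv
    rw [mem_closedBall] at hv
    rw [mem_ball] at hw ⊢
    linarith [dist_triangle v w c]
  have hd : DifferentiableOn ℂ (fun v => g' v - g v) (ball c r') := hg'.sub hg
  have h1 : ‖deriv (fun v => g' v - g v) w‖ ≤ e / (r' - r) := by
    refine Complex.norm_deriv_le_of_forall_mem_sphere_norm_le (by linarith) ?_ ?_
    · refine (hd.mono ?_).diffContOnCl
      rw [closure_ball w (by linarith : (r' - r) ≠ 0)]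
      exact hsub
    · intro v hv
      exact hb v (hsub (sphere_subset_closedBall hv))
  have hda : DifferentiableAt ℂ g' w := (hg' w hwR).differentiableAt (isOpen_ball.mem_nhds hwR)
  have hdb : DifferentiableAt ℂ g w := (hg w hwR).differentiableAt (isOpen_ball.mem_nhds hwR)
  have h2 : deriv g' w = deriv g w + deriv (fun v => g' v - g v) w := by
    have : deriv (fun v => g' v - g v) w = deriv g' w - deriv g w := deriv_sub hda hdb
    rw [this]; ring
  rw [h2]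
  exact (norm_add_le _ _).trans (by gcongr)

/-- F2a. Persistence of the fiber data near the neutral parameter: for `(τ, x, σ)` close to
`(0, xb, 0)` with `x` periodic for `pb + τ`.
Proof: D4a for `u` (`Qf ((τ, x, σ), w) = fib ... n x w`) and for the `U i` (`Qf` the `N`-th iterate of the
return map, `= fib ... (n * N) x w` when `x` is periodic; as a `C¹` function of the parameters use the function
`fib ... (n * N)` of `fib_contDiff`), D4b for the graph function; continuity of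
`drift`, `deriv (pt^[n])` (C9). Here `ρ < ρ' < ρ3 < R3 < ρ''`. -/
theorem persist {d : ℕ} (hd : 2 ≤ d) {p : ℂ[X]} {b : Mon d → ℂ} {n : ℕ} {x lam wb : ℂ} {R θ : ℝ}
    {u A : ℂ → ℂ} {l : ℕ} {y : ℂ} (h : Neutral d p b n x lam wb R θ u A l y)
    {ρ ρ' ρ3 R3 ρ'' : ℝ} (h0 : 0 < ρ) (h1 : ρ < ρ') (h2 : ρ' < ρ3) (h3 : ρ3 < R3) (h4 : R3 < ρ'')
    (h5 : ρ'' < R) {q N : ℕ} (hN : 1 ≤ N) {U : Fin q → ℂ → ℂ}
    (hU : ∀ i, DifferentiableOn ℂ (U i) (ball wb R))
    (hUinv : ∀ i, ∀ w ∈ ball wb R, (fib d p b 0 n x)^[N] (U i w) = w ∧ U i w ∈ ball wb ρ)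
    (hUder : ∀ i, ∀ w ∈ ball wb ρ'', ‖deriv (U i) w‖ ≤ 1 / 16) (K' : ℝ) {e : ℝ} (he : 0 < e) :
    ∃ δ > 0, ∃ θ' : ℝ, 0 ≤ θ' ∧ θ' < 1 ∧ ∀ τ x' σ : ℂ, ‖τ‖ < δ → ‖x' - x‖ < δ → ‖σ‖ < δ →
      (pt p τ)^[n] x' = x' →
      ‖deriv ((pt p τ)^[n]) x'‖ * θ' < 1 ∧
      ∃ (ws : ℂ) (u' AL : ℂ → ℂ) (U' : Fin q → ℂ → ℂ), ws ∈ ball wb ρ ∧ u' ws = ws ∧
        DifferentiableOn ℂ u' (ball wb R3) ∧ DifferentiableOn ℂ AL (ball wb R3) ∧
        (∀ i, DifferentiableOn ℂ (U' i) (ball wb R3)) ∧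
        (∀ w ∈ ball wb R3, fib d p (shift d b σ) τ n x' (u' w) = w ∧ ‖deriv u' w‖ ≤ θ' ∧
          ‖u' w - ws‖ ≤ θ' * ‖w - ws‖ ∧
          AL w = deriv ((pt p τ)^[n]) x' * AL (u' w) + drift d p (shift d b σ) τ n x' (u' w) ∧
          ‖AL w - A w‖ ≤ e) ∧
        (∀ r ∈ ({ρ', ρ3, R3} : Set ℝ), ∀ w ∈ ball wb r, u' w ∈ ball wb r) ∧
        (∀ w ∈ closedBall wb ρ3, u' w ∈ ball wb ρ3) ∧
        (∀ i, ∀ w ∈ ball wb R3, fib d p (shift d b σ) τ (n * N) x' (U' i w) = w ∧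
          ‖deriv (U' i) w‖ ≤ θ' ∧ ‖U' i w - U i w‖ ≤ e) ∧
        (∀ i, ∀ w ∈ closedBall wb ρ3, U' i w ∈ ball wb ρ3) ∧
        ∀ i, ∀ v ∈ ball (0 : ℂ) K' ×ˢ ball wb ρ',
          ‖(deriv ((pt p τ)^[n]) x')⁻¹ ^ N *
              (v.1 - drift d p (shift d b σ) τ (n * N) x' (U' i v.2)) -
            lam⁻¹ ^ N * (v.1 - dsum (fib d p b 0 n x) (drift d p b 0 n x) lam N (U i v.2))‖ ≤ e := by
  classical
  have hθ0 := h.lin.th0
  have hθ1 := h.lin.th1
  have hsz := f2a_shift_zero d b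
  have hlam1 : lam ≠ 1 := by
    intro h'; exact h.hl2 (by rw [h']; norm_num)
  have hlam0 : lam ≠ 0 := by
    intro h'
    have := h.hl
    rw [h', norm_zero] at this
    exact zero_ne_one this
  set P0 : ℂ × ℂ × ℂ := (0, x, 0) with hP0
  -- restricted linearization data
  have hlin : FibLin (fib d p b 0 n x) (drift d p b 0 n x) lam wb ρ'' θ u A := by
    have hsub : ball wb ρ'' ⊆ ball wb R := ball_subset_ball h5.le
    exact ⟨by linarith, hθ0, hθ1, h.lin.u_diff.mono hsub, h.lin.u_fix,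
      fun w hw => h.lin.u_der w (hsub hw), fun w hw => h.lin.u_inv w (hsub hw),
      h.lin.A_diff.mono hsub, fun w hw => h.lin.A_eq w (hsub hw)⟩
  have hSc : ContDiff ℂ 1 (fun q : (ℂ × ℂ × ℂ) × ℂ =>
      drift d p (shift d b q.1.2.2) q.1.1 n q.1.2.1 q.2) := drift_contDiff d p b n 1
  have hS : Differentiable ℂ (drift d p b 0 n x) := by
    have h1 : Differentiable ℂ (fun w : ℂ => (fun q : (ℂ × ℂ × ℂ) × ℂ =>
        drift d p (shift d b q.1.2.2) q.1.1 n q.1.2.1 q.2) (P0, w)) :=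
      (hSc.differentiable one_ne_zero).comp ((differentiable_const P0).prodMk differentiable_id)
    have h2 : (fun w : ℂ => (fun q : (ℂ × ℂ × ℂ) × ℂ =>
        drift d p (shift d b q.1.2.2) q.1.1 n q.1.2.1 q.2) (P0, w)) = drift d p b 0 n x := by
      funext w
      simp only [hP0, hsz]
    rwa [h2] at h1
  set e3 : ℝ := min e (ρ / 2) with he3
  have he3p : 0 < e3 := lt_min he (by linarith)
  obtain ⟨δ4, hδ4, hgc⟩ := graph_close hlin hS h.hl hlam1 (R' := R3) (by linarith) h4 he3p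
  -- tolerance for u
  set e1 : ℝ := min δ4 ((1 - θ) * ρ' / 2) with he1
  have hρ'p : 0 < ρ' := by linarith
  have h1θ : 0 < 1 - θ := by linarith
  have he1p : 0 < e1 := lt_min hδ4 (by positivity)
  have hE1 : ∀ᶠ P in 𝓝 P0, ∃ u' : ℂ → ℂ, DifferentiableOn ℂ u' (ball wb ρ'') ∧
      ∀ w ∈ ball wb ρ'', fib d p (shift d b P.2.2) P.1 n P.2.1 (u' w) = w ∧ ‖u' w - u w‖ ≤ e1 := by
    obtain ⟨δ, hδ, hb⟩ := branch_close (Qf := fun q : (ℂ × ℂ × ℂ) × ℂ =>
      fib d p (shift d b q.1.2.2) q.1.1 n q.1.2.1 q.2) (fib_contDiff d p b n 1) (p0 := P0)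
      (U := u) (wb := wb) (R := R) (R' := ρ'') h5 h.lin.u_diff
      (by
        intro w hw
        simp only [hP0, hsz]
        exact h.lin.u_inv w hw) he1p
    exact Filter.eventually_of_mem (ball_mem_nhds P0 hδ) hb
  -- the drift of length n N
  have hFc : ContDiff ℂ 1 (fun q : (ℂ × ℂ × ℂ) × ℂ =>
      drift d p (shift d b q.1.2.2) q.1.1 (n * N) q.1.2.1 q.2) := drift_contDiff d p b (n * N) 1
  set F : (ℂ × ℂ × ℂ) × ℂ → ℂ := fun q =>
      drift d p (shift d b q.1.2.2) q.1.1 (n * N) q.1.2.1 q.2 with hF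
  have hF0 : ∀ w, F (P0, w) = dsum (fib d p b 0 n x) (drift d p b 0 n x) lam N w := by
    intro w
    simp only [hF, hP0, hsz]
    rw [drift_dsum p b 0 h.hx N w, h.hlam]
  have hF0c : Continuous (fun w : ℂ => F (P0, w)) :=
    hFc.continuous.comp (continuous_const.prodMk continuous_id)
  obtain ⟨M0, hM0⟩ := (isCompact_closedBall wb R).exists_bound_of_continuousOn
    (f := fun w : ℂ => F (P0, w)) hF0c.continuousOn
  set M : ℝ := |K'| + |M0| + 1 with hM
  have hMp : 0 < M := by positivity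
  set ε5 : ℝ := e / 12 with hε5
  have hε5p : 0 < ε5 := by positivity
  set ε6 : ℝ := min 1 (e / (3 * M)) with hε6
  have hε6p : 0 < ε6 := lt_min one_pos (by positivity)
  have huc : UniformContinuousOn (fun w : ℂ => F (P0, w)) (closedBall wb R) :=
    (isCompact_closedBall wb R).uniformContinuousOn_of_continuous hF0c.continuousOn
  obtain ⟨η, hη, hηF⟩ := Metric.uniformContinuousOn_iff.mp huc ε5 hε5p
  set e2 : ℝ := min (min e ((ρ3 - ρ) / 2)) (min (η / 2) ((ρ'' - R3) / 4)) with he2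
  have he2p : 0 < e2 := lt_min (lt_min he (by linarith)) (lt_min (by linarith) (by linarith))
  have hE2 : ∀ᶠ P in 𝓝 P0, ∀ i, ∃ U' : ℂ → ℂ, DifferentiableOn ℂ U' (ball wb ρ'') ∧
      ∀ w ∈ ball wb ρ'', fib d p (shift d b P.2.2) P.1 (n * N) P.2.1 (U' w) = w ∧
        ‖U' w - U i w‖ ≤ e2 := by
    rw [Filter.eventually_all]
    intro i
    obtain ⟨δ, hδ, hb⟩ := branch_close (Qf := fun q : (ℂ × ℂ × ℂ) × ℂ =>
      fib d p (shift d b q.1.2.2) q.1.1 (n * N) q.1.2.1 q.2) (fib_contDiff d p b (n * N) 1)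
      (p0 := P0) (U := U i) (wb := wb) (R := R) (R' := ρ'') h5 (hU i)
      (by
        intro w hw
        simp only [hP0, hsz]
        rw [fib_iter p b 0 h.hx N]
        exact (hUinv i w hw).1) he2p
    exact Filter.eventually_of_mem (ball_mem_nhds P0 hδ) hb
  have hmc : Continuous (fun P : ℂ × ℂ × ℂ => deriv ((pt p P.1)^[n]) P.2.1) :=
    (mult_contDiff p n 1).continuous.comp
      (continuous_fst.prodMk (continuous_fst.comp continuous_snd))
  have hm0 : deriv ((pt p P0.1)^[n]) P0.2.1 = lam := h.hlam.symm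
  have hE3 : ∀ᶠ P in 𝓝 P0, ‖deriv ((pt p P.1)^[n]) P.2.1 - lam‖ ≤ δ4 := by
    have h1 := hmc.tendsto P0
    rw [hm0] at h1
    have h2 := (tendsto_iff_norm_sub_tendsto_zero.mp h1)
    filter_upwards [h2.eventually (gt_mem_nhds hδ4)] with P hP
    exact hP.le
  have hE4 : ∀ᶠ P in 𝓝 P0, ∀ w ∈ closedBall wb ρ'',
      ‖drift d p (shift d b P.2.2) P.1 n P.2.1 w - drift d p b 0 n x w‖ ≤ δ4 := by
    have h1 := f2a_unif hSc.continuous P0 (isCompact_closedBall wb ρ'') hδ4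
    simp only [hP0, hsz] at h1
    exact h1
  have hE5 : ∀ᶠ P in 𝓝 P0, ∀ w ∈ closedBall wb R, ‖F (P, w) - F (P0, w)‖ ≤ ε5 :=
    f2a_unif hFc.continuous P0 (isCompact_closedBall wb R) hε5p
  have hE6 : ∀ᶠ P in 𝓝 P0, ‖(deriv ((pt p P.1)^[n]) P.2.1)⁻¹ ^ N - lam⁻¹ ^ N‖ ≤ ε6 := by
    have h1 := hmc.tendsto P0
    rw [hm0] at h1
    have h1' := (h1.inv₀ hlam0).pow N
    have h2 := (tendsto_iff_norm_sub_tendsto_zero.mp h1')
    filter_upwards [h2.eventually (gt_mem_nhds hε6p)] with P hP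
    exact hP.le
  obtain ⟨δ, hδ, hall⟩ := Metric.eventually_nhds_iff_ball.mp
    (hE1.and (hE2.and (hE3.and (hE4.and (hE5.and hE6)))))
  refine ⟨δ, hδ, (1 + θ) / 2, by linarith, by linarith, ?_⟩
  intro τ x' σ hτ hx' hσ hper
  have hmem : ((τ, x', σ) : ℂ × ℂ × ℂ) ∈ ball P0 δ := by
    rw [mem_ball, hP0, Prod.dist_eq, Prod.dist_eq, dist_eq_norm, dist_eq_norm, dist_eq_norm]
    simp only [sub_zero]
    exact max_lt hτ (max_lt hx' hσ)
  obtain ⟨⟨u', hu'd, hu'⟩, hU', hl', hS', hF', ha'⟩ := hall _ hmem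
  choose U' hU'd hU'p using hU'
  simp only at hu' hU'p hl' hS' ha'
  set lam' := deriv ((pt p τ)^[n]) x' with hlam'
  have hS'd : DifferentiableOn ℂ (fun w => drift d p (shift d b σ) τ n x' w) (ball wb ρ'') := by
    have h1 : Differentiable ℂ (fun w : ℂ => (fun q : (ℂ × ℂ × ℂ) × ℂ =>
        drift d p (shift d b q.1.2.2) q.1.1 n q.1.2.1 q.2) ((τ, x', σ), w)) :=
      (hSc.differentiable one_ne_zero).comp ((differentiable_const _).prodMk differentiable_id)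
    exact h1.differentiableOn
  obtain ⟨ws, hws, hwse, hfix, huw, hlθ, AL, hALd, hAL⟩ := hgc lam' u'
    (fun w => drift d p (shift d b σ) τ n x' w) hl' hu'd
    (fun w hw => ((hu' w hw).2).trans (min_le_left _ _)) hS'd
    (fun w hw => hS' w (ball_subset_closedBall hw))
  have hsub3 : ball wb R3 ⊆ ball wb ρ'' := ball_subset_ball h4.le
  have hmap : ∀ w ∈ ball wb ρ'', ∀ r : ℝ, ρ' ≤ r → ‖w - wb‖ ≤ r → ‖u' w - wb‖ < r := by
    intro w hw r hr hwr
    have a1 := (hu' w hw).2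
    have a2 := hlin.u_le hw
    have a3 : ‖u' w - wb‖ ≤ ‖u' w - u w‖ + ‖u w - wb‖ := by
      have : u' w - wb = (u' w - u w) + (u w - wb) := by ring
      rw [this]; exact norm_add_le _ _
    have a4 : θ * ‖w - wb‖ ≤ θ * r := by gcongr
    have a5 : e1 ≤ (1 - θ) * ρ' / 2 := min_le_right _ _
    have a6 : (1 - θ) * ρ' / 2 < (1 - θ) * r := by
      have : (1 - θ) * ρ' ≤ (1 - θ) * r := by gcongr
      have : 0 < (1 - θ) * ρ' := by positivity
      linarith
    linarith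
  have hUmap : ∀ i, ∀ w ∈ closedBall wb ρ3, U' i w ∈ ball wb ρ3 := by
    intro i w hw
    have hw1 : w ∈ ball wb ρ'' := closedBall_subset_ball (by linarith) hw
    have a1 := (hU'p i w hw1).2
    have a2 := (hUinv i w (ball_subset_ball h5.le hw1)).2
    rw [mem_ball, dist_eq_norm] at a2 ⊢
    have a3 : ‖U' i w - wb‖ ≤ ‖U' i w - U i w‖ + ‖U i w - wb‖ := by
      have : U' i w - wb = (U' i w - U i w) + (U i w - wb) := by ring
      rw [this]; exact norm_add_le _ _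
    have a4 : e2 ≤ (ρ3 - ρ) / 2 := (min_le_left _ _).trans (min_le_right _ _)
    linarith
  refine ⟨hlθ, ws, u', AL, U', ?_, hfix, hu'd.mono hsub3, hALd, fun i => (hU'd i).mono hsub3,
    ?_, ?_, ?_, ?_, hUmap, ?_⟩
  · rw [mem_ball, dist_eq_norm]
    have : e3 ≤ ρ / 2 := min_le_right _ _
    linarith
  · intro w hw
    exact ⟨(hu' w (hsub3 hw)).1, (huw w hw).2.1, (huw w hw).2.2, (hAL w hw).1,
      (hAL w hw).2.trans (min_le_left _ _)⟩
  · intro r hr w hw
    have hr' : ρ' ≤ r ∧ r ≤ R3 := by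
      rcases hr with rfl | rfl | hr
      · exact ⟨le_rfl, by linarith⟩
      · exact ⟨by linarith, by linarith⟩
      · rw [mem_singleton_iff] at hr
        subst hr
        exact ⟨by linarith, le_rfl⟩
    have hw1 : w ∈ ball wb ρ'' := hsub3 (ball_subset_ball hr'.2 hw)
    rw [mem_ball, dist_eq_norm] at hw ⊢
    exact hmap w hw1 r hr'.1 hw.le
  · intro w hw
    have hw1 : w ∈ ball wb ρ'' := closedBall_subset_ball (by linarith) hw
    rw [mem_closedBall, dist_eq_norm] at hw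
    rw [mem_ball, dist_eq_norm]
    exact hmap w hw1 ρ3 h2.le hw
  · intro i w hw
    refine ⟨(hU'p i w (hsub3 hw)).1, ?_, ((hU'p i w (hsub3 hw)).2).trans
      ((min_le_left _ _).trans (min_le_left _ _))⟩
    have a1 := f2a_der (g := U i) (g' := U' i) h4 ((hU i).mono (ball_subset_ball h5.le)) (hU'd i)
      (fun w hw => (hU'p i w hw).2) hw
    have a2 := hUder i w (hsub3 hw)
    have a3 : e2 / (ρ'' - R3) ≤ 1 / 4 := by
      rw [div_le_iff₀ (by linarith)]
      have : e2 ≤ (ρ'' - R3) / 4 := (min_le_right _ _).trans (min_le_right _ _)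
      linarith
    linarith
  · rintro i ⟨ζ, w⟩ ⟨hζ, hw⟩
    simp only at hζ hw ⊢
    have hw1 : w ∈ ball wb ρ'' := ball_subset_ball (by linarith) hw
    have hwR : w ∈ ball wb R := ball_subset_ball h5.le hw1
    have hU1 : U' i w ∈ closedBall wb R := by
      have := hUmap i w (ball_subset_closedBall (ball_subset_ball h2.le hw))
      exact ball_subset_closedBall (ball_subset_ball (by linarith) this)
    have hU2 : U i w ∈ closedBall wb R :=
      ball_subset_closedBall (ball_subset_ball (by linarith) (hUinv i w hwR).2)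
    have hd12 : dist (U' i w) (U i w) < η := by
      rw [dist_eq_norm]
      have a1 := (hU'p i w hw1).2
      have a2 : e2 ≤ η / 2 := (min_le_right _ _).trans (min_le_left _ _)
      linarith
    have b1 : ‖F ((τ, x', σ), U' i w) - F (P0, U' i w)‖ ≤ ε5 := hF' _ hU1
    have b2 : ‖F (P0, U' i w) - F (P0, U i w)‖ ≤ ε5 := by
      have := hηF _ hU1 _ hU2 hd12
      rw [dist_eq_norm] at this
      exact this.le
    have b3 : ‖ζ - F (P0, U i w)‖ ≤ M := by
      have c1 : ‖ζ‖ ≤ |K'| := by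
        rw [mem_ball, dist_zero_right] at hζ
        exact hζ.le.trans (le_abs_self _)
      have c2 : ‖F (P0, U i w)‖ ≤ |M0| := (hM0 _ hU2).trans (le_abs_self _)
      calc ‖ζ - F (P0, U i w)‖ ≤ ‖ζ‖ + ‖F (P0, U i w)‖ := norm_sub_le _ _
        _ ≤ M := by rw [hM]; linarith
    have b4 : ‖lam'⁻¹ ^ N‖ ≤ 2 := by
      have c1 : ‖lam⁻¹ ^ N‖ = 1 := by rw [norm_pow, norm_inv, h.hl]; simp
      calc ‖lam'⁻¹ ^ N‖ = ‖(lam'⁻¹ ^ N - lam⁻¹ ^ N) + lam⁻¹ ^ N‖ := by ring_nf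
        _ ≤ ‖lam'⁻¹ ^ N - lam⁻¹ ^ N‖ + ‖lam⁻¹ ^ N‖ := norm_add_le _ _
        _ ≤ 1 + 1 := by rw [c1]; gcongr; exact ha'.trans (min_le_left _ _)
        _ = 2 := by norm_num
    rw [← hF0]
    have e7 : lam'⁻¹ ^ N * (ζ - drift d p (shift d b σ) τ (n * N) x' (U' i w)) -
        lam⁻¹ ^ N * (ζ - F (P0, U i w)) =
        (lam'⁻¹ ^ N - lam⁻¹ ^ N) * (ζ - F (P0, U i w)) -
          lam'⁻¹ ^ N * ((F ((τ, x', σ), U' i w) - F (P0, U' i w)) +
            (F (P0, U' i w) - F (P0, U i w))) := by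
      simp only [hF]
      ring
    rw [e7]
    calc ‖(lam'⁻¹ ^ N - lam⁻¹ ^ N) * (ζ - F (P0, U i w)) -
          lam'⁻¹ ^ N * ((F ((τ, x', σ), U' i w) - F (P0, U' i w)) +
            (F (P0, U' i w) - F (P0, U i w)))‖
        ≤ ‖(lam'⁻¹ ^ N - lam⁻¹ ^ N) * (ζ - F (P0, U i w))‖ +
          ‖lam'⁻¹ ^ N * ((F ((τ, x', σ), U' i w) - F (P0, U' i w)) +
            (F (P0, U' i w) - F (P0, U i w)))‖ := norm_sub_le _ _
      _ ≤ ε6 * M + 2 * (ε5 + ε5) := by
          rw [norm_mul, norm_mul]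
          gcongr
          exact (norm_add_le _ _).trans (by gcongr)
      _ ≤ e / (3 * M) * M + 2 * (ε5 + ε5) := by gcongr; exact min_le_right _ _
      _ = e / 3 + e / 3 := by rw [hε5]; field_simp; ring
      _ ≤ e := by linarith

end SkewBif
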