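import Pool.Agent.SK.C3
import Pool.Agent.SK.C4
/-! ## MP_9cfccf_an, module F2b -/
open Set Metric Filter Topology Polynomial
namespace SkewBif

/-- F2b. Genericity at the second stage: choice of `σ` small, generic for `(pL, x)`.
(C3, C4 for the polynomial `pL` and its periodic point.) -/
theorem choose_sigma {d : ℕ} (hd : 2 ≤ d) {p : ℂ[X]} (hp : p.natDegree = d) {b : Mon d → ℂ}
    (hb : topCoef d b ≠ 0) {n : ℕ} (hn : 1 ≤ n) {x : ℂ} (hx : (pt p 0)^[n] x = x) {δ : ℝ}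
    (hδ : 0 < δ) :
    ∃ σ : ℂ, ‖σ‖ < δ ∧
      (∀ Q : ℂ[X], (∀ w, fib d p (shift d b σ) 0 n x w = Q.eval w) → ∀ a, ¬ ExcAt Q a) ∧
      ∀ ws, fib d p (shift d b σ) 0 n x ws = ws → ∀ k ≥ 1, ∀ z, (pt p 0)^[k] z = x →
        ∀ w, fib d p (shift d b σ) 0 k z w = ws → deriv (fib d p (shift d b σ) 0 k z) w ≠ 0 := by
  have h3 := (fiber_nonexc hd p hb hn x).countable
  have h4 := gen_sigma hd (p := p) (by omega) hb hn hx
  have hdense := (h3.union h4).dense_compl ℝ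
  obtain ⟨σ, hσb, hσ⟩ := hdense.inter_open_nonempty _ isOpen_ball ⟨(0 : ℂ), mem_ball_self hδ⟩
  rw [mem_ball_zero_iff] at hσb
  rw [mem_compl_iff, mem_union, not_or] at hσ
  obtain ⟨hσ3, hσ4⟩ := hσ
  refine ⟨σ, hσb, ?_, ?_⟩
  · intro Q hQ a ha
    exact hσ3 ⟨Q, hQ, a, ha⟩
  · intro ws hws k hk z hz w hw hder
    refine hσ4 ⟨k, hk, z, hz, w, ?_, hder⟩
    rw [hw, hws]

end SkewBif
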