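import Pool.Agent.SK.K1
/-! ## MP_9cfccf_an, module K1g -/
open Set Metric Filter Topology Polynomial
namespace SkewBif
variable {d : ℕ} {ι J : Type} {A : AData d ι J}

theorem K1g_zeros {Ω : Set ℂ} (hΩ : IsOpen Ω) (hc : IsPreconnected Ω) {h : ℂ → ℂ}
    (hh : DifferentiableOn ℂ h Ω) (h0 : (0 : ℂ) ∈ Ω) (h1 : (1 : ℂ) ∈ Ω) (hne : h 1 ≠ 0) :
    ∀ᶠ ζ in 𝓝[≠] (0 : ℂ), h ζ ≠ 0 := by
  have hA : AnalyticOnNhd ℂ h Ω := hh.analyticOnNhd hΩ
  rcases (hA 0 h0).eventually_eq_zero_or_eventually_ne_zero with h2 | h2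
  · exact absurd (hA.eqOn_zero_of_preconnected_of_eventuallyEq_zero hc h0 h2 h1) hne
  · exact h2

/-- K1'. Genericity on small discs: if `F' ∈ Lam`, then on every small disc around `0` of the line
`ζ ↦ F' + ζ • (F1 - F')` there is a parameter at which the limit point of `σ` avoids all the
graphs `γ j` (`J` finite).
Proof: let `Ω = {ζ : F' + ζ • (F1 - F') ∈ Lam}`, open and convex, containing `0` and `1`. The function
`ζ ↦ (e ζ).1 - γ j (F ζ) (e ζ).2` is holomorphic on `Ω` and nonzero at `ζ = 1` (`generic`), so its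
zeros are isolated; finitely many `j`. -/
theorem IsArena.exists_generic (hA : IsArena A) [Finite J] (hne : A.P.Nonempty) {F' : Coef d}
    (hF' : F' ∈ A.Lam) {σ : ℕ → ι} (hσ : A.Start σ) {δ : ℝ} (hδ : 0 < δ) :
    ∃ ζ ∈ ball (0 : ℂ) δ, F' + ζ • (A.F1 - F') ∈ A.Lam ∧
      ∀ e, IsLimPt (fun i => A.G i (F' + ζ • (A.F1 - F'))) σ A.P e →
        ∀ j, e.1 ≠ A.γ j (F' + ζ • (A.F1 - F')) e.2 := by
  classical
  set V : Coef d := A.F1 - F' with hV
  let Ω : Set ℂ := {ζ | F' + ζ • V ∈ A.Lam}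
  have hcont : Continuous (fun ζ : ℂ => F' + ζ • V) := by fun_prop
  have hΩo : IsOpen Ω := hA.Lam_open.preimage hcont
  have hΩc : Convex ℝ Ω := by
    intro x hx y hy a b ha hb hab
    show F' + (a • x + b • y) • V ∈ A.Lam
    have h1 : F' + (a • x + b • y) • V = a • (F' + x • V) + b • (F' + y • V) := by
      have h2 : F' = a • F' + b • F' := by rw [← add_smul, hab, one_smul]
      have h3 : (a • x + b • y) • V = a • (x • V) + b • (y • V) := by
        rw [add_smul, smul_assoc, smul_assoc]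
      rw [h3, smul_add, smul_add]
      nth_rewrite 1 [h2]
      abel
    rw [h1]
    exact hA.Lam_convex hx hy ha hb hab
  have h0 : (0 : ℂ) ∈ Ω := by
    show F' + (0 : ℂ) • V ∈ A.Lam
    rw [zero_smul, add_zero]
    exact hF'
  have hF1 : F' + (1 : ℂ) • V = A.F1 := by
    rw [one_smul, hV]
    abel
  have h1 : (1 : ℂ) ∈ Ω := by
    show F' + (1 : ℂ) • V ∈ A.Lam
    rw [hF1]
    exact hA.F1_mem
  have hex : ∀ ζ : ℂ, ∃ e : X2, ζ ∈ Ω → IsLimPt (fun i => A.G i (F' + ζ • V)) σ A.P e := by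
    intro ζ
    by_cases hζ : ζ ∈ Ω
    · obtain ⟨e, -, he, -⟩ := hA.exists_limPt hne hζ σ
      exact ⟨e, fun _ => he⟩
    · exact ⟨0, fun h => absurd h hζ⟩
  choose e he using hex
  have heD : DifferentiableOn ℂ e Ω := hA.limPt_holo hne σ hΩo (fun ζ hζ => hζ) he
  have hj : ∀ j : J, ∀ᶠ ζ in 𝓝[≠] (0 : ℂ), (e ζ).1 - A.γ j (F' + ζ • V) (e ζ).2 ≠ 0 := by
    intro j
    refine K1g_zeros hΩo hΩc.isPreconnected ?_ h0 h1 ?_
    · intro ζ hζ
      have hmem : e ζ ∈ A.Pt := hA.limPt_mem hne hζ hσ (he ζ hζ)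
      have hγ := hA.γ_smooth j (F' + ζ • V) hζ (e ζ).2 hmem.2
      have hed : DifferentiableAt ℂ e ζ := (heD ζ hζ).differentiableAt (hΩo.mem_nhds hζ)
      have hp : DifferentiableAt ℂ (fun ζ : ℂ => ((F' + ζ • V, (e ζ).2) : Coef d × ℂ)) ζ := by
        refine DifferentiableAt.prodMk ?_ ?_
        · fun_prop
        · exact hed.snd
      have hc : DifferentiableAt ℂ (fun ζ : ℂ => A.γ j (F' + ζ • V) (e ζ).2) ζ :=
        DifferentiableAt.comp ζ (g := fun q : Coef d × ℂ => A.γ j q.1 q.2)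
          (f := fun ζ : ℂ => ((F' + ζ • V, (e ζ).2) : Coef d × ℂ))
          (hγ.differentiableAt one_ne_zero) hp
      exact (hed.fst.sub hc).differentiableWithinAt
    · have hl : IsLimPt (fun i => A.G i A.F1) σ A.P (e 1) := by
        have := he 1 h1
        rwa [hF1] at this
      have := hA.generic σ hσ (e 1) hl j
      rw [hF1]
      exact sub_ne_zero.2 this
  have hall : ∀ᶠ ζ in 𝓝[≠] (0 : ℂ), ∀ j : J, (e ζ).1 - A.γ j (F' + ζ • V) (e ζ).2 ≠ 0 :=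
    Filter.eventually_all.2 hj
  have hb : ∀ᶠ ζ in 𝓝[≠] (0 : ℂ), ζ ∈ ball (0 : ℂ) δ ∩ Ω := by
    apply mem_nhdsWithin_of_mem_nhds
    exact Filter.inter_mem (ball_mem_nhds 0 hδ) (hΩo.mem_nhds h0)
  obtain ⟨ζ, hζ1, hζ2⟩ := (hall.and hb).exists
  refine ⟨ζ, hζ2.1, hζ2.2, ?_⟩
  intro e' he' j
  have heq : e' = e ζ := by
    obtain ⟨v0, hv0⟩ := hne
    exact tendsto_nhds_unique (he' v0 hv0) (he ζ hζ2.2 v0 hv0)
  rw [heq]
  exact sub_ne_zero.1 (hζ1 j)

end SkewBif
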