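import Pool.Agent.SK.K2a
/-! ## MP_9cfccf_an, module K2b -/
open Set Metric Filter Topology Polynomial
namespace SkewBif
variable {d : ℕ} {ι J : Type} {A : AData d ι J}

theorem K2b_invertible {B : ℂ →L[ℂ] ℂ} (h : B 1 ≠ 0) : B.IsInvertible := by
  refine ⟨ContinuousLinearEquiv.unitsEquivAut ℂ (Units.mk0 _ h), ?_⟩
  ext
  simp

theorem K2b_banach {f : ℂ → ℂ} {w0 : ℂ} {ρ : ℝ} (hρ : 0 ≤ ρ)
    (hm : ∀ w ∈ closedBall w0 ρ, f w ∈ closedBall w0 ρ)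
    (hc : ∀ w ∈ closedBall w0 ρ, ∀ w' ∈ closedBall w0 ρ, dist (f w) (f w') ≤ 1 / 2 * dist w w') :
    ∃ w ∈ closedBall w0 ρ, w = f w := by
  have hcc : ContractingWith (1 / 2 : NNReal)
      ((show MapsTo f (closedBall w0 ρ) (closedBall w0 ρ) from hm).restrict f _ _) := by
    refine ⟨by
      rw [← NNReal.coe_lt_coe]
      norm_num, LipschitzWith.of_dist_le_mul ?_⟩
    rintro ⟨x, hx⟩ ⟨y, hy⟩
    have := hc x hx y hy
    rw [Subtype.dist_eq, Subtype.dist_eq]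
    have h2 : ((1 / 2 : NNReal) : ℝ) = 1 / 2 := by norm_num
    rw [h2]
    exact this
  obtain ⟨y, hy, hfy, -⟩ := ContractingWith.exists_fixedPoint'
    (isClosed_closedBall.isComplete) (show MapsTo f (closedBall w0 ρ) (closedBall w0 ρ) from hm)
    hcc (mem_closedBall_self hρ) (edist_ne_top _ _)
  exact ⟨y, hy, hfy.symm⟩

/-- `ψ` is uniformly Lipschitz on the compact pieces. -/
theorem K2b_psi (hA : IsArena A) {F' V : Coef d} {δ : ℝ}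
    (hmem : ∀ ζ ∈ closedBall (0 : ℂ) δ, F' + ζ • V ∈ A.Lam) :
    ∃ M : ℝ, 0 ≤ M ∧ ∀ ζ ∈ closedBall (0 : ℂ) δ, ∀ z ∈ closedBall A.c A.r',
      ∀ t ∈ closedBall A.ws A.ρt, ∀ t' ∈ closedBall A.ws A.ρt,
        dist (A.ψ (F' + ζ • V) z t) (A.ψ (F' + ζ • V) z t') ≤ M * dist t t' := by
  obtain ⟨M, hM0, hM⟩ := K2a_fderiv_bdd
    (g := fun q : Coef d × ℂ × ℂ => A.ψ q.1 q.2.1 q.2.2)
    ((K2a_seg_compact F' V δ).prod
      ((isCompact_closedBall A.c A.r').prod (isCompact_closedBall A.ws A.ρt))) (by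
      rintro ⟨F, z, t⟩ ⟨⟨ζ, hζ, rfl⟩, hz, ht⟩
      exact hA.ψ_smooth _ (hmem ζ hζ) z hz t ht)
  refine ⟨M, hM0, fun ζ hζ z hz t ht t' ht' => ?_⟩
  have hconv : Convex ℝ (closedBall A.c A.r' ×ˢ closedBall A.ws A.ρt) :=
    (convex_closedBall _ _).prod (convex_closedBall _ _)
  have hd : ∀ x ∈ closedBall A.c A.r' ×ˢ closedBall A.ws A.ρt,
      DifferentiableAt ℂ (fun x : ℂ × ℂ => A.ψ (F' + ζ • V) x.1 x.2) x ∧
      ‖fderiv ℂ (fun x : ℂ × ℂ => A.ψ (F' + ζ • V) x.1 x.2) x‖ ≤ M := by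
    rintro ⟨z1, t1⟩ ⟨hz1, ht1⟩
    have h1 := K2a_partial (g := fun q : Coef d × ℂ × ℂ => A.ψ q.1 q.2.1 q.2.2)
      ((hA.ψ_smooth _ (hmem ζ hζ) z1 hz1 t1 ht1).differentiableAt one_ne_zero)
    exact ⟨h1.1, h1.2.trans (hM _ ⟨⟨ζ, hζ, rfl⟩, hz1, ht1⟩)⟩
  have h2 := hconv.norm_image_sub_le_of_norm_fderiv_le (𝕜 := ℂ)
    (f := fun x : ℂ × ℂ => A.ψ (F' + ζ • V) x.1 x.2) (fun x hx => (hd x hx).1)
    (fun x hx => (hd x hx).2) (x := (z, t')) (y := (z, t)) ⟨hz, ht'⟩ ⟨hz, ht⟩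
  have h3 : ‖((z, t) : ℂ × ℂ) - (z, t')‖ = dist t t' := by
    rw [Prod.mk_sub_mk, sub_self, Prod.norm_mk, norm_zero, dist_eq_norm]
    exact max_eq_right (norm_nonneg _)
  rw [h3] at h2
  rw [dist_eq_norm]
  exact h2

/-- K2b. Existence of the reduction for large `L`. Proof: for large `L` the map
`w ↦ ψ (F ζ) z (KL (z, w)).2` maps `closedBall w0 ρ0` into `ball w0 ρ0` and is a
`1/2`-contraction (`ψ` is uniformly Lipschitz in `t` on the compact set, `KL` has Lipschitz constant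
`C θ^L`); smoothness by the implicit function theorem (the derivative in `w` of
`w - ψ(...)` is invertible) and uniqueness. -/
theorem IsArena.exists_reduced (hA : IsArena A) {F' V : Coef d} {δ : ℝ}
    (hmem : ∀ ζ ∈ closedBall (0 : ℂ) δ, F' + ζ • V ∈ A.Lam) {σ : ℕ → ι} (hσ : A.Start σ) :
    ∃ L0 ≥ A.M0, ∃ ω : ℕ → ℂ → ℂ → ℂ, ∀ L ≥ L0, Reduced A F' V σ δ L (ω L) := by
  classical
  obtain ⟨hKL, C, hC0, hC⟩ := hA.KL_props hmem hσ
  obtain ⟨M, hM0, hM⟩ := K2b_psi hA hmem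
  have htend : Tendsto (fun L : ℕ => M * (C * A.θ ^ L)) atTop (𝓝 0) := by
    have h := ((tendsto_pow_atTop_nhds_zero_of_lt_one hA.th0 hA.th1).const_mul C).const_mul M
    simpa using h
  obtain ⟨L1, hL1⟩ := Filter.eventually_atTop.1
    (htend.eventually (gt_mem_nhds (show (0 : ℝ) < 1 / 2 by norm_num)))
  have hRg : ∀ z ∈ closedBall A.c A.r', ∀ w ∈ closedBall A.w0 A.ρ0, ((z, w) : X2) ∈ A.Rg :=
    fun z hz w hw => ⟨hz, hw⟩
  -- the contraction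
  have hcontr : ∀ L ≥ max A.M0 L1, ∀ ζ ∈ closedBall (0 : ℂ) δ, ∀ z ∈ closedBall A.c A.r',
      ∀ w ∈ closedBall A.w0 A.ρ0, ∀ w' ∈ closedBall A.w0 A.ρ0,
      dist (A.ψ (F' + ζ • V) z (A.KL (F' + ζ • V) σ L (z, w)).2)
        (A.ψ (F' + ζ • V) z (A.KL (F' + ζ • V) σ L (z, w')).2) ≤ 1 / 2 * dist w w' := by
    intro L hL ζ hζ z hz w hw w' hw'
    have hLM : A.M0 ≤ L := (le_max_left _ _).trans hL
    have hLL : L1 ≤ L := (le_max_right _ _).trans hL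
    have h1 := ((hKL L ζ hζ _ (hRg z hz w hw)).2.1 hLM).2
    have h2 := ((hKL L ζ hζ _ (hRg z hz w' hw')).2.1 hLM).2
    have h3 := hM ζ hζ z hz _ h1 _ h2
    have h4 := (hC L ζ hζ _ (hRg z hz w hw)).1 _ (hRg z hz w' hw')
    have h5 : dist ((z, w) : X2) (z, w') = dist w w' := by
      rw [Prod.dist_eq, dist_self]
      exact max_eq_right dist_nonneg
    rw [h5] at h4
    have h6 : dist (A.KL (F' + ζ • V) σ L (z, w)).2 (A.KL (F' + ζ • V) σ L (z, w')).2 ≤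
        C * A.θ ^ L * dist w w' := by
      refine le_trans ?_ h4
      rw [Prod.dist_eq]
      exact le_max_right _ _
    refine h3.trans ?_
    calc M * dist (A.KL (F' + ζ • V) σ L (z, w)).2 (A.KL (F' + ζ • V) σ L (z, w')).2
        ≤ M * (C * A.θ ^ L * dist w w') := mul_le_mul_of_nonneg_left h6 hM0
      _ = M * (C * A.θ ^ L) * dist w w' := by ring
      _ ≤ 1 / 2 * dist w w' := mul_le_mul_of_nonneg_right (hL1 L hLL).le dist_nonneg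
  have hmaps : ∀ L ≥ max A.M0 L1, ∀ ζ ∈ closedBall (0 : ℂ) δ, ∀ z ∈ closedBall A.c A.r',
      ∀ w ∈ closedBall A.w0 A.ρ0,
      A.ψ (F' + ζ • V) z (A.KL (F' + ζ • V) σ L (z, w)).2 ∈ ball A.w0 A.ρ0 := by
    intro L hL ζ hζ z hz w hw
    have hLM : A.M0 ≤ L := (le_max_left _ _).trans hL
    have h1 := ((hKL L ζ hζ _ (hRg z hz w hw)).2.1 hLM).2
    exact (hA.ψ_mem _ (hmem ζ hζ) z hz _ h1).1
  have hex : ∀ (L : ℕ) (ζ z : ℂ), ∃ w : ℂ, L ≥ max A.M0 L1 → ζ ∈ closedBall (0 : ℂ) δ →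
      z ∈ closedBall A.c A.r' → w ∈ closedBall A.w0 A.ρ0 ∧
        w = A.ψ (F' + ζ • V) z (A.KL (F' + ζ • V) σ L (z, w)).2 := by
    intro L ζ z
    by_cases h : L ≥ max A.M0 L1 ∧ ζ ∈ closedBall (0 : ℂ) δ ∧ z ∈ closedBall A.c A.r'
    · obtain ⟨hL, hζ, hz⟩ := h
      obtain ⟨w, hw, he⟩ := K2b_banach
        (f := fun w => A.ψ (F' + ζ • V) z (A.KL (F' + ζ • V) σ L (z, w)).2) hA.ρ0_pos.le
        (fun w hw => ball_subset_closedBall (hmaps L hL ζ hζ z hz w hw))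
        (fun w hw w' hw' => hcontr L hL ζ hζ z hz w hw w' hw')
      exact ⟨w, fun _ _ _ => ⟨hw, he⟩⟩
    · exact ⟨0, fun h1 h2 h3 => absurd ⟨h1, h2, h3⟩ h⟩
  choose ω hω using hex
  refine ⟨max A.M0 L1, le_max_left _ _, ω, fun L hL => ?_⟩
  have hball : ∀ ζ ∈ closedBall (0 : ℂ) δ, ∀ z ∈ closedBall A.c A.r',
      ω L ζ z ∈ ball A.w0 A.ρ0 := by
    intro ζ hζ z hz
    rw [(hω L ζ z hL hζ hz).2]
    exact hmaps L hL ζ hζ z hz _ (hω L ζ z hL hζ hz).1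
  have huniq : ∀ ζ ∈ closedBall (0 : ℂ) δ, ∀ z ∈ closedBall A.c A.r',
      ∀ w ∈ closedBall A.w0 A.ρ0,
      w = A.ψ (F' + ζ • V) z (A.KL (F' + ζ • V) σ L (z, w)).2 → w = ω L ζ z := by
    intro ζ hζ z hz w hw he
    have h1 := hcontr L hL ζ hζ z hz w hw _ (hω L ζ z hL hζ hz).1
    rw [← he, ← (hω L ζ z hL hζ hz).2] at h1
    have h2 : dist w (ω L ζ z) ≤ 0 := by linarith
    exact dist_le_zero.1 h2
  refine ⟨hball, fun ζ hζ z hz => (hω L ζ z hL hζ hz).2, huniq, ?_⟩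
  -- smoothness
  rintro ⟨ζ0, z0⟩ ⟨hζ0, hz0⟩
  have hζ0' : ζ0 ∈ closedBall (0 : ℂ) δ := ball_subset_closedBall hζ0
  have hz0' : z0 ∈ closedBall A.c A.r' := ball_subset_closedBall hz0
  have hw0 := hball ζ0 hζ0' z0 hz0'
  have hw0' := ball_subset_closedBall hw0
  set w1 : ℂ := ω L ζ0 z0 with hw1
  let f : (ℂ × ℂ) × ℂ → ℂ := fun q =>
    q.2 - A.ψ (F' + q.1.1 • V) q.1.2 (A.KL (F' + q.1.1 • V) σ L (q.1.2, q.2)).2
  have hfs : ContDiffAt ℂ 1 f ((ζ0, z0), w1) := by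
    have hLM : A.M0 ≤ L := (le_max_left _ _).trans hL
    have h1 : ContDiffAt ℂ 1 (fun q : (ℂ × ℂ) × ℂ =>
        (A.KL (F' + q.1.1 • V) σ L (q.1.2, q.2)).2) ((ζ0, z0), w1) := by
      have h2 := (hKL L ζ0 hζ0' _ (hRg z0 hz0' w1 hw0')).2.2.1
      have h3 : ContDiffAt ℂ 1 (fun q : (ℂ × ℂ) × ℂ =>
          ((F' + q.1.1 • V, (q.1.2, q.2)) : Coef d × X2)) ((ζ0, z0), w1) := by
        fun_prop
      have h4 := ContDiffAt.comp ((ζ0, z0), w1) (g := fun q : Coef d × X2 => A.KL q.1 σ L q.2)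
        (f := fun q : (ℂ × ℂ) × ℂ => ((F' + q.1.1 • V, (q.1.2, q.2)) : Coef d × X2)) h2 h3
      exact contDiffAt_snd.comp ((ζ0, z0), w1) h4
    have h5 : ContDiffAt ℂ 1 (fun q : (ℂ × ℂ) × ℂ =>
        ((F' + q.1.1 • V, q.1.2, (A.KL (F' + q.1.1 • V) σ L (q.1.2, q.2)).2) : Coef d × ℂ × ℂ))
        ((ζ0, z0), w1) := by
      refine ContDiffAt.prodMk ?_ (ContDiffAt.prodMk ?_ h1)
      · fun_prop
      · fun_prop
    have h6 := hA.ψ_smooth _ (hmem ζ0 hζ0') z0 hz0' _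
      ((hKL L ζ0 hζ0' _ (hRg z0 hz0' w1 hw0')).2.1 hLM).2
    have h7 := ContDiffAt.comp ((ζ0, z0), w1)
      (g := fun q : Coef d × ℂ × ℂ => A.ψ q.1 q.2.1 q.2.2)
      (f := fun q : (ℂ × ℂ) × ℂ =>
        ((F' + q.1.1 • V, q.1.2, (A.KL (F' + q.1.1 • V) σ L (q.1.2, q.2)).2) : Coef d × ℂ × ℂ))
      h6 h5
    exact contDiffAt_snd.sub h7
  have hfw : ∀ w, f ((ζ0, z0), w) =
      w - A.ψ (F' + ζ0 • V) z0 (A.KL (F' + ζ0 • V) σ L (z0, w)).2 := fun w => rfl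
  have hfd : HasFDerivAt (fun w => f ((ζ0, z0), w))
      ((fderiv ℂ f ((ζ0, z0), w1)).comp (ContinuousLinearMap.inr ℂ (ℂ × ℂ) ℂ)) w1 :=
    (hfs.differentiableAt one_ne_zero).hasFDerivAt.comp w1 (hasFDerivAt_prodMk_right _ _)
  have hinv : ((fderiv ℂ f ((ζ0, z0), w1)).comp
      (ContinuousLinearMap.inr ℂ (ℂ × ℂ) ℂ)).IsInvertible := by
    apply K2b_invertible
    set B := (fderiv ℂ f ((ζ0, z0), w1)).comp (ContinuousLinearMap.inr ℂ (ℂ × ℂ) ℂ) with hB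
    -- the derivative of `w - f`
    have h1 : HasFDerivAt (fun w => A.ψ (F' + ζ0 • V) z0 (A.KL (F' + ζ0 • V) σ L (z0, w)).2)
        (ContinuousLinearMap.id ℂ ℂ - B) w1 := by
      have h2 := (hasFDerivAt_id w1).sub hfd
      refine h2.congr_of_eventuallyEq (Filter.Eventually.of_forall fun w => ?_)
      show _ = w - f ((ζ0, z0), w)
      rw [hfw]
      ring
    have h3 : ‖fderiv ℂ (fun w => A.ψ (F' + ζ0 • V) z0 (A.KL (F' + ζ0 • V) σ L (z0, w)).2) w1‖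
        ≤ 1 / 2 := by
      refine norm_fderiv_le_of_lip' ℂ (by norm_num) ?_
      filter_upwards [isOpen_ball.mem_nhds hw0] with w hw
      have h4 := hcontr L hL ζ0 hζ0' z0 hz0' w (ball_subset_closedBall hw) w1 hw0'
      rwa [dist_eq_norm, dist_eq_norm] at h4
    rw [h1.fderiv] at h3
    intro h0
    have h5 : ‖(ContinuousLinearMap.id ℂ ℂ - B) 1‖ ≤ 1 / 2 * ‖(1 : ℂ)‖ :=
      (ContinuousLinearMap.le_opNorm _ _).trans (mul_le_mul_of_nonneg_right h3 (norm_nonneg _))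
    rw [_root_.sub_apply, h0] at h5
    simp at h5
    norm_num at h5
  have himp := hfs.contDiffAt_implicitFunction one_ne_zero hinv
  have hself := hfs.implicitFunction_apply_self one_ne_zero hinv
  have hev := hfs.eventually_apply_implicitFunction one_ne_zero hinv
  set Ψ := hfs.implicitFunction one_ne_zero hinv with hΨ
  have hf0 : f ((ζ0, z0), w1) = 0 := by
    rw [hfw, sub_eq_zero]
    exact (hω L ζ0 z0 hL hζ0' hz0').2
  have heq : (fun q : ℂ × ℂ => ω L q.1 q.2) =ᶠ[𝓝 (ζ0, z0)] Ψ := by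
    have hcont : ContinuousAt Ψ (ζ0, z0) := himp.continuousAt
    have h1 : ∀ᶠ q in 𝓝 ((ζ0, z0) : ℂ × ℂ), Ψ q ∈ ball A.w0 A.ρ0 := by
      apply hcont.eventually_mem
      have : Ψ (ζ0, z0) = w1 := hself
      rw [this]
      exact isOpen_ball.mem_nhds hw0
    have h2 : ∀ᶠ q in 𝓝 ((ζ0, z0) : ℂ × ℂ), q ∈ ball (0 : ℂ) δ ×ˢ ball A.c A.r' :=
      (isOpen_ball.prod isOpen_ball).mem_nhds ⟨hζ0, hz0⟩
    filter_upwards [h1, h2, hev] with q hq1 hq2 hq3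
    symm
    apply huniq q.1 (ball_subset_closedBall hq2.1) q.2 (ball_subset_closedBall hq2.2) _
      (ball_subset_closedBall hq1)
    rw [hf0] at hq3
    exact sub_eq_zero.1 hq3
  exact (himp.congr_of_eventuallyEq heq).contDiffWithinAt

end SkewBif
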