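import Pool.Agent.SK.K2a
/-! ## MP_9cfccf_an, module K3 -/
open Set Metric Filter Topology Polynomial
namespace SkewBif
variable {d : ℕ} {ι J : Type} {A : AData d ι J}

/-- determinant of a linear self-map of the plane -/
theorem K3_det (B : X2 →L[ℂ] X2) :
    B.det = (B (1, 0)).1 * (B (0, 1)).2 - (B (0, 1)).1 * (B (1, 0)).2 := by
  rw [ContinuousLinearMap.det, ← LinearMap.det_toMatrix (Module.Basis.finTwoProd ℂ),
    Matrix.det_fin_two]
  simp [LinearMap.toMatrix_apply]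

theorem K3_det_smooth {E : Type*} [NormedAddCommGroup E] [NormedSpace ℂ E] {f : E → (X2 →L[ℂ] X2)}
    {x : E} (hf : ContDiffAt ℂ 1 f x) : ContDiffAt ℂ 1 (fun y => (f y).det) x := by
  have h1 : (fun y => (f y).det) = fun y => (f y (1, 0)).1 * (f y (0, 1)).2
      - (f y (0, 1)).1 * (f y (1, 0)).2 := by
    funext y
    exact K3_det (f y)
  rw [h1]
  have h2 : ∀ v : X2, ContDiffAt ℂ 1 (fun y => f y v) x := fun v =>
    hf.clm_apply contDiffAt_const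
  exact ((h2 _).fst.mul (h2 _).snd).sub ((h2 _).fst.mul (h2 _).snd)

theorem K3_fderiv_eq {N : ℕ} {F : Coef d} {v : X2} (h : Good d N F v) :
    fderiv ℂ ((T d F)^[N]) v =
      (fderiv ℂ (fun q : Coef d × X2 => (T d q.1)^[N] q.2) (F, v)).comp
        (ContinuousLinearMap.inr ℂ (Coef d) X2) := by
  have h1 := (iter_contDiffAt h 1).differentiableAt (by norm_num)
  have h2 : HasFDerivAt (fun w : X2 => ((F, w) : Coef d × X2))
      (ContinuousLinearMap.inr ℂ (Coef d) X2) v := hasFDerivAt_prodMk_right F v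
  exact (h1.hasFDerivAt.comp v h2).fderiv

theorem K3_fderiv_smooth {N : ℕ} {F : Coef d} {v : X2} (h : Good d N F v) :
    ContDiffAt ℂ 1 (fun q : Coef d × X2 => fderiv ℂ ((T d q.1)^[N]) q.2) (F, v) := by
  have h1 : ContDiffAt ℂ 1 (fun q : Coef d × X2 =>
      (fderiv ℂ (fun q : Coef d × X2 => (T d q.1)^[N] q.2) q).comp
        (ContinuousLinearMap.inr ℂ (Coef d) X2)) (F, v) :=
    ((iter_contDiffAt h 2).fderiv_right (by norm_num)).clm_comp contDiffAt_const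
  refine h1.congr_of_eventuallyEq ?_
  filter_upwards [(good_open d N).mem_nhds h] with q hq
  exact K3_fderiv_eq hq

theorem K3_iter_diff {N : ℕ} {F : Coef d} {v : X2} (h : Good d N F v) :
    DifferentiableAt ℂ ((T d F)^[N]) v := by
  have h1 := (iter_contDiffAt h 1).differentiableAt (by norm_num)
  exact h1.comp v (hasFDerivAt_prodMk_right F v).differentiableAt

/-- the point of the reduced curve is in the bidisc -/
theorem K3_mem {F' V : Coef d} {δ : ℝ} {σ : ℕ → ι} {L : ℕ} {ω : ℂ → ℂ → ℂ}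
    (hω : Reduced A F' V σ δ L ω) {ζ z : ℂ} (hζ : ζ ∈ closedBall (0 : ℂ) δ)
    (hz : z ∈ closedBall A.c A.r') : (z, ω ζ z) ∈ A.Rg :=
  ⟨hz, ball_subset_closedBall (hω.mem ζ hζ z hz)⟩

theorem K3_curve {F' V : Coef d} {δ : ℝ} {σ : ℕ → ι} {L : ℕ} {ω : ℂ → ℂ → ℂ}
    (hω : Reduced A F' V σ δ L ω) {q : ℂ × ℂ} (hq : q ∈ ball (0 : ℂ) δ ×ˢ ball A.c A.r') :
    ContDiffAt ℂ 1 (fun q : ℂ × ℂ => ((F' + q.1 • V, (q.2, ω q.1 q.2)) : Coef d × X2)) q := by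
  have h1 : ContDiffAt ℂ 1 (fun q : ℂ × ℂ => ω q.1 q.2) q :=
    (hω.smooth q hq).contDiffAt ((isOpen_ball.prod isOpen_ball).mem_nhds hq)
  have h2 : ContDiffAt ℂ 1 (fun q : ℂ × ℂ => F' + q.1 • V) q :=
    contDiffAt_const.add (contDiffAt_fst.smul contDiffAt_const)
  exact h2.prodMk (contDiffAt_snd.prodMk h1)

theorem K3_detT_smooth {N : ℕ} {p : Coef d × X2} (h : Good d N p.1 p.2) :
    ContDiffAt ℂ 1 (fun q : Coef d × X2 => (fderiv ℂ ((T d q.1)^[N]) q.2).det) p :=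
  K3_det_smooth (K3_fderiv_smooth h)

theorem K3_comp_det {N : ℕ} {γ : ℂ × ℂ → Coef d × X2} {x : ℂ × ℂ}
    (hg : Good d N (γ x).1 (γ x).2) (hγ : ContDiffAt ℂ 1 γ x) :
    DifferentiableAt ℂ (fun y => (fderiv ℂ ((T d (γ y).1)^[N]) (γ y).2).det) x := by
  have h1 := K3_detT_smooth hg
  obtain ⟨Φ, hΦ⟩ : ∃ Φ : Coef d × X2 → ℂ, Φ = fun q => (fderiv ℂ ((T d q.1)^[N]) q.2).det :=
    ⟨_, rfl⟩
  have h2 : (fun y => (fderiv ℂ ((T d (γ y).1)^[N]) (γ y).2).det) = Φ ∘ γ := by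
    rw [hΦ]; rfl
  rw [h2]
  rw [← hΦ] at h1
  exact (h1.comp x hγ).differentiableAt (by norm_num)

theorem K3_comp {E₁ E₂ E₃ : Type*} [NormedAddCommGroup E₁] [NormedSpace ℂ E₁]
    [NormedAddCommGroup E₂] [NormedSpace ℂ E₂] [NormedAddCommGroup E₃] [NormedSpace ℂ E₃]
    (Φ : E₂ → E₃) (γ : E₁ → E₂) {x : E₁} (h : ContDiffAt ℂ 1 Φ (γ x)) (hγ : ContDiffAt ℂ 1 γ x) :
    ContDiffAt ℂ 1 (fun y => Φ (γ y)) x := h.comp x hγ

theorem K3_right {E₁ E₂ E₃ : Type*} [NormedAddCommGroup E₁] [NormedSpace ℂ E₁]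
    [NormedAddCommGroup E₂] [NormedSpace ℂ E₂] [NormedAddCommGroup E₃] [NormedSpace ℂ E₃]
    {Φ : E₁ × E₂ → E₃} {x : E₁} {y : E₂} (h : ContDiffAt ℂ 1 Φ (x, y)) :
    DifferentiableAt ℂ (fun y => Φ (x, y)) y :=
  (h.differentiableAt (by norm_num)).comp y (hasFDerivAt_prodMk_right x y).differentiableAt

theorem K3_item {f g : X2 → X2} {ω : ℂ → ℂ} {z : ℂ} (hf : DifferentiableAt ℂ f (z, ω z))
    (hg : DifferentiableAt ℂ g (z, ω z)) (hω : DifferentiableAt ℂ ω z)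
    (h2 : ∀ᶠ y in 𝓝 z, (f (y, ω y)).2 = (g (y, ω y)).2)
    (hdet : (fderiv ℂ f (z, ω z) - fderiv ℂ g (z, ω z)).det ≠ 0) :
    deriv (fun y => (f (y, ω y)).1 - (g (y, ω y)).1) z ≠ 0 := by
  intro hder
  have hγ : HasDerivAt (fun z : ℂ => ((z, ω z) : X2)) ((1, deriv ω z) : X2) z :=
    (hasDerivAt_id z).prodMk hω.hasDerivAt
  have hD1 : HasDerivAt (fun z : ℂ => f (z, ω z) - g (z, ω z))
      (fderiv ℂ f (z, ω z) (1, deriv ω z) - fderiv ℂ g (z, ω z) (1, deriv ω z)) z :=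
    (hf.hasFDerivAt.comp_hasDerivAt (f := fun z : ℂ => ((z, ω z) : X2)) z hγ).sub
      (hg.hasFDerivAt.comp_hasDerivAt (f := fun z : ℂ => ((z, ω z) : X2)) z hγ)
  have hD2 : HasDerivAt (fun z : ℂ => f (z, ω z) - g (z, ω z)) ((0, 0) : X2) z := by
    have h1 : HasDerivAt (fun y => (f (y, ω y)).1 - (g (y, ω y)).1) 0 z := by
      rw [← hder]
      have h3 : DifferentiableAt ℂ (fun y => (f (y, ω y)).1 - (g (y, ω y)).1) z := by
        have h4 := hD1.differentiableAt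
        exact h4.fst
      exact h3.hasDerivAt
    have h3 : HasDerivAt (fun y : ℂ => (((f (y, ω y)).1 - (g (y, ω y)).1, 0) : X2))
        ((0, 0) : X2) z := h1.prodMk (hasDerivAt_const z 0)
    refine h3.congr_of_eventuallyEq ?_
    filter_upwards [h2] with y hy
    refine Prod.ext rfl ?_
    simp only [Prod.snd_sub]
    rw [hy, sub_self]
  have hker := hD1.unique hD2
  apply hdet
  rw [K3_det]
  obtain ⟨B, hB⟩ : ∃ B : X2 →L[ℂ] X2, B = fderiv ℂ f (z, ω z) - fderiv ℂ g (z, ω z) := ⟨_, rfl⟩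
  rw [← hB]
  have hker' : B (1, deriv ω z) = (0, 0) := by
    rw [hB]; exact hker
  have h5 : ((1, deriv ω z) : X2) = (1, 0) + deriv ω z • ((0, 1) : X2) := by
    ext <;> simp
  rw [h5, map_add, map_smul] at hker'
  have h6 : (B (1, 0)).1 = - (deriv ω z * (B (0, 1)).1) := by
    have := congrArg Prod.fst hker'
    simp only [Prod.fst_add, Prod.smul_fst, smul_eq_mul] at this
    exact eq_neg_of_add_eq_zero_left this
  have h7 : (B (1, 0)).2 = - (deriv ω z * (B (0, 1)).2) := by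
    have := congrArg Prod.snd hker'
    simp only [Prod.snd_add, Prod.smul_snd, smul_eq_mul] at this
    exact eq_neg_of_add_eq_zero_left this
  rw [h6, h7]
  ring

/-- K3. Properties of the reduced functions. In the last item, if `redA` had a zero derivative at
`z` then `(1, ∂_z ω)` would be in the kernel of `D T^[m2] - D KL` at `(z, ω)` (the second component of
`T^[m2] (z, ω) - KL (z, ω)` vanishes identically in `z`). -/
theorem IsArena.red_props (hA : IsArena A) {F' V : Coef d} {δ : ℝ} (hδ : 0 < δ)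
    (hmem : ∀ ζ ∈ closedBall (0 : ℂ) δ, F' + ζ • V ∈ A.Lam) {σ : ℕ → ι} (hσ : A.Start σ) {L : ℕ}
    (hL : A.M0 ≤ L) {ω : ℂ → ℂ → ℂ} (hω : Reduced A F' V σ δ L ω) :
    ContDiffOn ℂ 1 (fun q : ℂ × ℂ => redA A F' V σ L ω q.1 q.2) (ball 0 δ ×ˢ ball A.c A.r') ∧
    DifferentiableOn ℂ (fun q : ℂ × ℂ => redH A F' V ω q.1 q.2) (ball 0 δ ×ˢ ball A.c A.r') ∧
    (∀ ζ ∈ ball (0 : ℂ) δ, ∀ z ∈ sphere A.c A.r, redA A F' V σ L ω ζ z ≠ 0) ∧
    (∀ ζ ∈ ball (0 : ℂ) δ, ∀ z ∈ closedBall A.c A.r', redA A F' V σ L ω ζ z = 0 →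
      (T d (F' + ζ • V))^[A.m2] (z, ω ζ z) = A.KL (F' + ζ • V) σ L (z, ω ζ z)) ∧
    (∀ ζ ∈ ball (0 : ℂ) δ, ∀ u ∈ A.Rg, (T d (F' + ζ • V))^[A.m2] u = A.KL (F' + ζ • V) σ L u →
      u.2 = ω ζ u.1 ∧ redA A F' V σ L ω ζ u.1 = 0) ∧
    (∀ ζ ∈ ball (0 : ℂ) δ, ∀ z ∈ ball A.c A.r', redA A F' V σ L ω ζ z = 0 →
      (fderiv ℂ ((T d (F' + ζ • V))^[A.m2]) (z, ω ζ z) -
        fderiv ℂ (A.KL (F' + ζ • V) σ L) (z, ω ζ z)).det ≠ 0 →
      deriv (redA A F' V σ L ω ζ) z ≠ 0) := by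
  obtain ⟨hK, -⟩ := hA.KL_props hmem hσ
  have hbc : ∀ {ζ : ℂ}, ζ ∈ ball (0 : ℂ) δ → ζ ∈ closedBall (0 : ℂ) δ := fun h =>
    ball_subset_closedBall h
  -- the second component vanishes
  have hsnd : ∀ ζ ∈ ball (0 : ℂ) δ, ∀ z ∈ closedBall A.c A.r',
      ((T d (F' + ζ • V))^[A.m2] (z, ω ζ z)).2 = (A.KL (F' + ζ • V) σ L (z, ω ζ z)).2 := by
    intro ζ hζ z hz
    have h1 := (hK L ζ (hbc hζ) _ (K3_mem hω (hbc hζ) hz)).2.1 hL
    have h2 := (hA.ψ_mem _ (hmem ζ (hbc hζ)) z hz _ h1.2).2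
    rwa [← hω.eq ζ (hbc hζ) z hz] at h2
  -- smoothness of the two maps
  have hT : ∀ q ∈ ball (0 : ℂ) δ ×ˢ ball A.c A.r', ContDiffAt ℂ 1
      (fun q : ℂ × ℂ => (T d (F' + q.1 • V))^[A.m2] (q.2, ω q.1 q.2)) q := by
    intro q hq
    have hg : Good d A.m2 (F' + q.1 • V) (q.2, ω q.1 q.2) :=
      hA.good2 _ (hmem _ (hbc hq.1)) _ (K3_mem hω (hbc hq.1) (ball_subset_closedBall hq.2))
    exact K3_comp (fun p : Coef d × X2 => (T d p.1)^[A.m2] p.2)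
      (fun q : ℂ × ℂ => ((F' + q.1 • V, (q.2, ω q.1 q.2)) : Coef d × X2))
      (iter_contDiffAt hg 1) (K3_curve hω hq)
  have hKs : ∀ q ∈ ball (0 : ℂ) δ ×ˢ ball A.c A.r', ContDiffAt ℂ 1
      (fun q : ℂ × ℂ => A.KL (F' + q.1 • V) σ L (q.2, ω q.1 q.2)) q := by
    intro q hq
    have h1 := (hK L q.1 (hbc hq.1) _
      (K3_mem hω (hbc hq.1) (ball_subset_closedBall hq.2))).2.2.1
    exact K3_comp (fun p : Coef d × X2 => A.KL p.1 σ L p.2)
      (fun q : ℂ × ℂ => ((F' + q.1 • V, (q.2, ω q.1 q.2)) : Coef d × X2)) h1 (K3_curve hω hq)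
  refine ⟨?_, ?_, ?_, ?_, ?_, ?_⟩
  · intro q hq
    exact ((hT q hq).fst.sub (hKs q hq).fst).contDiffWithinAt
  · intro q hq
    have hg : Good d A.m2 (F' + q.1 • V) (q.2, ω q.1 q.2) :=
      hA.good2 _ (hmem _ (hbc hq.1)) _ (K3_mem hω (hbc hq.1) (ball_subset_closedBall hq.2))
    exact (K3_comp_det (N := A.m2)
      (γ := fun q : ℂ × ℂ => ((F' + q.1 • V, (q.2, ω q.1 q.2)) : Coef d × X2)) hg
      (K3_curve hω hq)).differentiableWithinAt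
  · intro ζ hζ z hz h
    have hz' : z ∈ closedBall A.c A.r' :=
      closedBall_subset_closedBall hA.r_lt.le (sphere_subset_closedBall hz)
    have h1 := (hK L ζ (hbc hζ) _ (K3_mem hω (hbc hζ) hz')).2.1 hL
    have h2 := hA.bdry _ (hmem ζ (hbc hζ)) _ h1 z hz
    rw [← hω.eq ζ (hbc hζ) z hz'] at h2
    exact h2 (sub_eq_zero.mp h)
  · intro ζ hζ z hz h
    exact Prod.ext (sub_eq_zero.mp h) (hsnd ζ hζ z hz)
  · intro ζ hζ u hu h
    have hz : u.1 ∈ closedBall A.c A.r' := hu.1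
    have h1 := (hK L ζ (hbc hζ) u hu).2.1 hL
    have h2 : u.2 = A.ψ (F' + ζ • V) u.1 (A.KL (F' + ζ • V) σ L u).2 := by
      refine hA.ψ_uniq _ (hmem ζ (hbc hζ)) u.1 hz u.2 hu.2 _ h1.2 ?_
      rw [← h]
    have h3 : u.2 = ω ζ u.1 := hω.uniq ζ (hbc hζ) u.1 hz u.2 hu.2 h2
    refine ⟨h3, ?_⟩
    have h4 : (u.1, ω ζ u.1) = u := Prod.ext rfl h3.symm
    unfold redA
    rw [h4, h, sub_self]
  · intro ζ hζ z hz _ hdet
    have hq : ((ζ, z) : ℂ × ℂ) ∈ ball (0 : ℂ) δ ×ˢ ball A.c A.r' := ⟨hζ, hz⟩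
    have hmemR := K3_mem hω (hbc hζ) (ball_subset_closedBall hz)
    have hg : Good d A.m2 (F' + ζ • V) (z, ω ζ z) := hA.good2 _ (hmem _ (hbc hζ)) _ hmemR
    have hT1 : DifferentiableAt ℂ ((T d (F' + ζ • V))^[A.m2]) (z, ω ζ z) := K3_iter_diff hg
    have hK1 : DifferentiableAt ℂ (A.KL (F' + ζ • V) σ L) (z, ω ζ z) :=
      K3_right (hK L ζ (hbc hζ) _ hmemR).2.2.1
    have hω1 : DifferentiableAt ℂ (ω ζ) z :=
      K3_right ((hω.smooth _ hq).contDiffAt ((isOpen_ball.prod isOpen_ball).mem_nhds hq))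
    refine K3_item hT1 hK1 hω1 ?_ hdet
    filter_upwards [isOpen_ball.mem_nhds hz] with y hy
    exact hsnd ζ hζ y (ball_subset_closedBall hy)

end SkewBif
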