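import Pool.Agent.SK.K3
/-! ## MP_9cfccf_an, module K3b -/
open Set Metric Filter Topology Polynomial
namespace SkewBif
variable {d : ℕ} {ι J : Type} {A : AData d ι J}

/-- K3'. A uniform bound for `redH`. Proof: `fderiv (T^[m2])` is continuous and bounded on the compact set
`{F' + ζ V} × Rg`. -/
theorem IsArena.redH_bound (hA : IsArena A) {F' V : Coef d} {δ : ℝ}
    (hmem : ∀ ζ ∈ closedBall (0 : ℂ) δ, F' + ζ • V ∈ A.Lam) :
    ∃ M : ℝ, 0 < M ∧ ∀ (σ : ℕ → ι) (L : ℕ) (ω : ℂ → ℂ → ℂ), Reduced A F' V σ δ L ω →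
      ∀ ζ ∈ ball (0 : ℂ) δ, ∀ z ∈ closedBall A.c A.r, ‖redH A F' V ω ζ z‖ ≤ M := by
  have hcomp : IsCompact (closedBall (0 : ℂ) δ ×ˢ A.Rg) :=
    (isCompact_closedBall _ _).prod ((isCompact_closedBall _ _).prod (isCompact_closedBall _ _))
  have hcont : ContinuousOn (fun q : ℂ × X2 =>
      (fderiv ℂ ((T d (F' + q.1 • V))^[A.m2]) q.2).det) (closedBall (0 : ℂ) δ ×ˢ A.Rg) := by
    intro q hq
    have hg := hA.good2 _ (hmem q.1 hq.1) q.2 hq.2
    have h1 : ContDiffAt ℂ 1 (fun q : ℂ × X2 => ((F' + q.1 • V, q.2) : Coef d × X2)) q :=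
      (contDiffAt_const.add (contDiffAt_fst.smul contDiffAt_const)).prodMk contDiffAt_snd
    exact (K3_comp (fun p : Coef d × X2 => (fderiv ℂ ((T d p.1)^[A.m2]) p.2).det)
      (fun q : ℂ × X2 => ((F' + q.1 • V, q.2) : Coef d × X2))
      (K3_detT_smooth hg) h1).continuousAt.continuousWithinAt
  obtain ⟨M, hM⟩ := hcomp.exists_bound_of_continuousOn hcont
  refine ⟨max M 0 + 1, by positivity, ?_⟩
  intro σ L ω hω ζ hζ z hz
  have hz' : z ∈ closedBall A.c A.r' := closedBall_subset_closedBall hA.r_lt.le hz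
  have h1 := hM (ζ, (z, ω ζ z))
    ⟨ball_subset_closedBall hζ, K3_mem hω (ball_subset_closedBall hζ) hz'⟩
  have h2 : ‖redH A F' V ω ζ z‖ ≤ M := h1
  have h3 := le_max_left M 0
  linarith

end SkewBif
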