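import Pool.Agent.SK.K2a
/-! ## MP_9cfccf_an, module K4 -/
open Set Metric Filter Topology Polynomial
namespace SkewBif
variable {d : ℕ} {ι J : Type} {A : AData d ι J}

theorem K4_iter (hA : IsArena A) {F : Coef d} (hF : F ∈ A.Lam) {u : X2} (hu : u ∈ A.Rg) :
    ContDiffAt ℂ 1 ((T d F)^[A.m2]) u := by
  have h1 := iter_contDiffAt (hA.good2 F hF u hu) 1
  have h2 : ContDiffAt ℂ 1 (fun v : X2 => ((F, v) : Coef d × X2)) u :=
    contDiffAt_const.prodMk contDiffAt_id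
  exact ContDiffAt.comp u (g := fun q : Coef d × X2 => (T d q.1)^[A.m2] q.2)
    (f := fun v : X2 => ((F, v) : Coef d × X2)) h1 h2

theorem K4_det (hA : IsArena A) {F : Coef d} (hF : F ∈ A.Lam) {u : X2} (hu : u ∈ A.Rg) :
    ContinuousAt (fun v => (fderiv ℂ ((T d F)^[A.m2]) v).det) u := by
  have h1 : ContDiffAt ℂ 0 (fderiv ℂ ((T d F)^[A.m2])) u :=
    (K4_iter hA hF hu).fderiv_right (m := 0) (by norm_num)
  exact ContinuousLinearMap.continuous_det.continuousAt.comp h1.continuousAt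

theorem K4_psi (hA : IsArena A) {F : Coef d} (hF : F ∈ A.Lam) {z : ℂ}
    (hz : z ∈ closedBall A.c A.r') {t : ℂ} (ht : t ∈ closedBall A.ws A.ρt) :
    ContDiffAt ℂ 1 (fun z => A.ψ F z t) z := by
  have h1 := hA.ψ_smooth F hF z hz t ht
  have h2 : ContDiffAt ℂ 1 (fun z : ℂ => ((F, z, t) : Coef d × ℂ × ℂ)) z :=
    contDiffAt_const.prodMk (contDiffAt_id.prodMk contDiffAt_const)
  exact ContDiffAt.comp z (g := fun q : Coef d × ℂ × ℂ => A.ψ q.1 q.2.1 q.2.2)
    (f := fun z : ℂ => ((F, z, t) : Coef d × ℂ × ℂ)) h1 h2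

/-- Uniform convergence of compositions. -/
theorem K4_unif {Y : Type*} [PseudoMetricSpace Y] {R : Set X2} (hR : IsCompact R) {g : X2 → Y}
    (hg : ∀ u ∈ R, ContinuousAt g u) {S : Set ℂ} {Φ : ℕ → ℂ → X2} {φ : ℂ → X2}
    (hΦ : ∀ᶠ L in atTop, ∀ z ∈ S, Φ L z ∈ R) (hφ : ∀ z ∈ S, φ z ∈ R)
    (hu : TendstoUniformlyOn Φ φ atTop S) :
    TendstoUniformlyOn (fun L z => g (Φ L z)) (fun z => g (φ z)) atTop S := by
  have h1 : UniformContinuousOn g R := hR.uniformContinuousOn_of_continuous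
    (fun u hu => (hg u hu).continuousWithinAt)
  rw [Metric.tendstoUniformlyOn_iff] at hu ⊢
  rw [Metric.uniformContinuousOn_iff] at h1
  intro ε hε
  obtain ⟨η, hη, h2⟩ := h1 ε hε
  filter_upwards [hu η hη, hΦ] with L hL1 hL2 z hz
  exact h2 _ (hφ z hz) _ (hL2 z hz) (hL1 z hz)

/-- K4. Limits at a fixed parameter `ζ` as `L → ∞`: with `e` the limit point of `σ`,
`ω L ζ z → ψ F z e.2`, uniformly in `z ∈ closedBall c r'`. -/
theorem IsArena.red_limits (hA : IsArena A) {F' V : Coef d} {δ : ℝ} (hδ : 0 < δ)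
    (hmem : ∀ ζ ∈ closedBall (0 : ℂ) δ, F' + ζ • V ∈ A.Lam) {σ : ℕ → ι} (hσ : A.Start σ) {L0 : ℕ}
    (hL0 : A.M0 ≤ L0) {ω : ℕ → ℂ → ℂ → ℂ} (hω : ∀ L ≥ L0, Reduced A F' V σ δ L (ω L))
    {ζ : ℂ} (hζ : ζ ∈ ball (0 : ℂ) δ) {e : X2}
    (he : IsLimPt (fun i => A.G i (F' + ζ • V)) σ A.P e) :
    DifferentiableOn ℂ (fun z => ((T d (F' + ζ • V))^[A.m2] (z, A.ψ (F' + ζ • V) z e.2)).1 - e.1)
      (ball A.c A.r') ∧
    ContinuousOn (fun z =>
      (fderiv ℂ ((T d (F' + ζ • V))^[A.m2]) (z, A.ψ (F' + ζ • V) z e.2)).det)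
      (closedBall A.c A.r) ∧
    TendstoUniformlyOn (fun L => redA A F' V σ L (ω L) ζ)
      (fun z => ((T d (F' + ζ • V))^[A.m2] (z, A.ψ (F' + ζ • V) z e.2)).1 - e.1) atTop
      (closedBall A.c A.r) ∧
    TendstoUniformlyOn (fun L => redH A F' V (ω L) ζ)
      (fun z => (fderiv ℂ ((T d (F' + ζ • V))^[A.m2]) (z, A.ψ (F' + ζ • V) z e.2)).det) atTop
      (closedBall A.c A.r) := by
  have hζ' : ζ ∈ closedBall (0 : ℂ) δ := ball_subset_closedBall hζ
  have hF := hmem ζ hζ'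
  set F : Coef d := F' + ζ • V with hFdef
  have hr' : 0 < A.r' := hA.r_pos.trans hA.r_lt
  have hcw : ((A.c, A.w0) : X2) ∈ A.Rg :=
    ⟨mem_closedBall_self hr'.le, mem_closedBall_self hA.ρ0_pos.le⟩
  have hgret : ∀ u ∈ A.Rg, A.gret F u ∈ A.P := fun u hu =>
    interior_subset (hA.gret_maps F hF u hu)
  have hne : A.P.Nonempty := ⟨_, hgret _ hcw⟩
  have hePt : e ∈ A.Pt := hA.limPt_mem hne hF hσ he
  have hsub : closedBall A.c A.r ⊆ closedBall A.c A.r' := closedBall_subset_closedBall hA.r_lt.le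
  have hRg : ∀ z ∈ closedBall A.c A.r', ∀ w ∈ closedBall A.w0 A.ρ0, ((z, w) : X2) ∈ A.Rg :=
    fun z hz w hw => ⟨hz, hw⟩
  have hψm : ∀ z ∈ closedBall A.c A.r', ∀ t ∈ closedBall A.ws A.ρt,
      ((z, A.ψ F z t) : X2) ∈ A.Rg := fun z hz t ht =>
    ⟨hz, ball_subset_closedBall (hA.ψ_mem F hF z hz t ht).1⟩
  -- speed of convergence of `KL`
  have hKLe : ∀ L, ∀ u ∈ A.Rg, dist (A.KL F σ L u) e ≤ A.Cc * A.θ ^ L * Metric.diam A.P := by
    intro L u hu
    obtain ⟨e', -, he', hb⟩ := hA.exists_limPt hne hF σ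
    have heq : e = e' := tendsto_nhds_unique (he _ (hgret u hu)) (he' _ (hgret u hu))
    rw [heq]
    exact hb L _ (hgret u hu)
  have htend := K1_tendsto hA
  -- convergence of `KL`
  have hKLu : ∀ Φ : ℕ → ℂ → X2, (∀ᶠ L in atTop, ∀ z ∈ closedBall A.c A.r', Φ L z ∈ A.Rg) →
      TendstoUniformlyOn (fun L z => A.KL F σ L (Φ L z)) (fun _ => e) atTop
        (closedBall A.c A.r') := by
    intro Φ hΦ
    rw [Metric.tendstoUniformlyOn_iff]
    intro ε hε
    filter_upwards [hΦ, htend.eventually (gt_mem_nhds hε)] with L hL1 hL2 z hz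
    rw [dist_comm]
    exact (hKLe L _ (hL1 z hz)).trans_lt hL2
  have hωR : ∀ L ≥ L0, ∀ z ∈ closedBall A.c A.r', ((z, ω L ζ z) : X2) ∈ A.Rg := fun L hL z hz =>
    ⟨hz, ball_subset_closedBall ((hω L hL).mem ζ hζ' z hz)⟩
  have hωR' : ∀ᶠ L in atTop, ∀ z ∈ closedBall A.c A.r', ((z, ω L ζ z) : X2) ∈ A.Rg := by
    filter_upwards [Filter.eventually_ge_atTop L0] with L hL z hz
    exact hωR L hL z hz
  have hK := hKLu (fun L z => (z, ω L ζ z)) hωR'
  -- convergence of `ω`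
  have hωu : TendstoUniformlyOn (fun L z => ((z, ω L ζ z) : X2)) (fun z => (z, A.ψ F z e.2)) atTop
      (closedBall A.c A.r') := by
    have hcomp : IsCompact (closedBall A.c A.r' ×ˢ closedBall A.ws A.ρt) :=
      (isCompact_closedBall _ _).prod (isCompact_closedBall _ _)
    have hψc : ∀ u ∈ closedBall A.c A.r' ×ˢ closedBall A.ws A.ρt,
        ContinuousAt (fun u : X2 => ((u.1, A.ψ F u.1 u.2) : X2)) u := by
      rintro ⟨z, t⟩ ⟨hz, ht⟩
      have h1 := (hA.ψ_smooth F hF z hz t ht).continuousAt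
      have h2 : ContinuousAt (fun u : X2 => ((F, u.1, u.2) : Coef d × ℂ × ℂ)) (z, t) := by
        fun_prop
      have h3 : ContinuousAt (fun u : X2 => A.ψ F u.1 u.2) (z, t) :=
        ContinuousAt.comp (g := fun q : Coef d × ℂ × ℂ => A.ψ q.1 q.2.1 q.2.2)
          (f := fun u : X2 => ((F, u.1, u.2) : Coef d × ℂ × ℂ)) h1 h2
      exact continuousAt_fst.prodMk h3
    have h4 : TendstoUniformlyOn (fun L z => ((z, (A.KL F σ L (z, ω L ζ z)).2) : X2))
        (fun z => (z, e.2)) atTop (closedBall A.c A.r') := by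
      rw [Metric.tendstoUniformlyOn_iff] at hK ⊢
      intro ε hε
      filter_upwards [hK ε hε] with L hL z hz
      have h5 := hL z hz
      rw [Prod.dist_eq] at h5 ⊢
      simp only [dist_self]
      exact max_lt hε ((le_max_right _ _).trans_lt h5)
    have h6 := K4_unif hcomp hψc (Φ := fun L z => ((z, (A.KL F σ L (z, ω L ζ z)).2) : X2))
      (φ := fun z => (z, e.2)) (S := closedBall A.c A.r') (by
        filter_upwards [Filter.eventually_ge_atTop L0] with L hL z hz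
        refine ⟨hz, ?_⟩
        exact (hA.first F hF σ hσ L (hL0.trans hL) _ (hgret _ (hωR L hL z hz))).2)
      (fun z hz => ⟨hz, hePt.2⟩) h4
    refine h6.congr ?_
    filter_upwards [Filter.eventually_ge_atTop L0] with L hL z hz
    show ((z, A.ψ F z (A.KL F σ L (z, ω L ζ z)).2) : X2) = (z, ω L ζ z)
    rw [← (hω L hL).eq ζ hζ' z hz]
  refine ⟨?_, ?_, ?_, ?_⟩
  · intro z hz
    have hz' := ball_subset_closedBall hz
    have h1 := K4_iter hA hF (hψm z hz' e.2 hePt.2)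
    have h2 : ContDiffAt ℂ 1 (fun z => ((z, A.ψ F z e.2) : X2)) z :=
      contDiffAt_id.prodMk (K4_psi hA hF hz' hePt.2)
    have h3 := ContDiffAt.comp z (g := (T d F)^[A.m2]) (f := fun z => ((z, A.ψ F z e.2) : X2)) h1 h2
    exact (((contDiffAt_fst.comp z h3).sub contDiffAt_const).differentiableAt
      one_ne_zero).differentiableWithinAt
  · intro z hz
    have hz' := hsub hz
    have h1 := K4_det hA hF (hψm z hz' e.2 hePt.2)
    have h2 : ContinuousAt (fun z => ((z, A.ψ F z e.2) : X2)) z :=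
      continuousAt_id.prodMk (K4_psi hA hF hz' hePt.2).continuousAt
    exact (ContinuousAt.comp (g := fun v => (fderiv ℂ ((T d F)^[A.m2]) v).det)
      (f := fun z => ((z, A.ψ F z e.2) : X2)) h1 h2).continuousWithinAt
  · have h1 := K4_unif (K2a_Rg_compact A) (g := (T d F)^[A.m2])
      (fun u hu => (K4_iter hA hF hu).continuousAt) hωR'
      (fun z hz => hψm z hz e.2 hePt.2) hωu
    rw [Metric.tendstoUniformlyOn_iff] at h1 hK ⊢
    intro ε hε
    filter_upwards [h1 (ε / 2) (half_pos hε), hK (ε / 2) (half_pos hε)] with L hL1 hL2 z hz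
    have h3 := hL1 z (hsub hz)
    have h4 := hL2 z (hsub hz)
    have h5 : dist ((T d F)^[A.m2] (z, A.ψ F z e.2)).1 ((T d F)^[A.m2] (z, ω L ζ z)).1 < ε / 2 := by
      refine lt_of_le_of_lt ?_ h3
      rw [Prod.dist_eq]
      exact le_max_left _ _
    have h6 : dist e.1 (A.KL F σ L (z, ω L ζ z)).1 < ε / 2 := by
      refine lt_of_le_of_lt ?_ h4
      rw [Prod.dist_eq]
      exact le_max_left _ _
    show dist (((T d F)^[A.m2] (z, A.ψ F z e.2)).1 - e.1)
      (((T d F)^[A.m2] (z, ω L ζ z)).1 - (A.KL F σ L (z, ω L ζ z)).1) < ε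
    calc _ ≤ _ := dist_sub_sub_le _ _ _ _
      _ < ε / 2 + ε / 2 := add_lt_add h5 h6
      _ = ε := add_halves ε
  · have h1 := K4_unif (K2a_Rg_compact A) (g := fun v => (fderiv ℂ ((T d F)^[A.m2]) v).det)
      (fun u hu => K4_det hA hF hu) hωR'
      (fun z hz => hψm z hz e.2 hePt.2) hωu
    exact h1.mono hsub

end SkewBif
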