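import Pool.Agent.SK.K2a
/-! ## MP_9cfccf_an, module K5a -/
open Set Metric Filter Topology Polynomial
namespace SkewBif
variable {d : ℕ} {ι J : Type} {A : AData d ι J}

theorem K5a_KL_inv (hA : IsArena A) {F : Coef d} (hF : F ∈ A.Lam) (σ : ℕ → ι) (L : ℕ)
    {u : X2} (hu : u ∈ A.Rg) :
    Good d (∑ i ∈ Finset.range L, A.Nb (σ i) + A.m1) F (A.KL F σ L u) ∧
      (T d F)^[∑ i ∈ Finset.range L, A.Nb (σ i) + A.m1] (A.KL F σ L u) = u := by
  have hg := interior_subset (hA.gret_maps F hF u hu)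
  obtain ⟨h1, h2⟩ := hA.wd_inv hF σ L hg
  obtain ⟨h3, h4⟩ := hA.gret_inv F hF u hu
  constructor
  · rw [good_add]
    refine ⟨h1, ?_⟩
    show Good d A.m1 F ((T d F)^[_] (A.wd F σ L (A.gret F u)))
    rw [h2]
    exact h3
  · show (T d F)^[_] (A.wd F σ L (A.gret F u)) = u
    rw [Nat.add_comm, Function.iterate_add_apply, h2, h4]

/-- K5a. A solution of `T^[m2] u = KL u` is a periodic point of period `Per`. -/
theorem IsArena.sol_periodic (hA : IsArena A) {F : Coef d} (hF : F ∈ A.Lam) (σ : ℕ → ι) (L : ℕ)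
    {u : X2} (hu : u ∈ A.Rg) (heq : (T d F)^[A.m2] u = A.KL F σ L u) :
    Good d (A.Per σ L) F u ∧ (T d F)^[A.Per σ L] u = u := by
  obtain ⟨h1, h2⟩ := K5a_KL_inv hA hF σ L hu
  unfold AData.Per
  constructor
  · rw [good_add]
    refine ⟨hA.good2 F hF u hu, ?_⟩
    rw [heq]
    exact h1
  · rw [Nat.add_comm, Function.iterate_add_apply, heq, h2]

theorem K5a_diff_T {N : ℕ} {F : Coef d} {v : X2} (h : Good d N F v) :
    DifferentiableAt ℂ ((T d F)^[N]) v := by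
  have h1 : ContDiffAt ℂ 1 (fun q : Coef d × X2 => (T d q.1)^[N] q.2) (F, v) := iter_contDiffAt h 1
  have h2 : DifferentiableAt ℂ (fun q : Coef d × X2 => (T d q.1)^[N] q.2) (F, v) :=
    h1.differentiableAt one_ne_zero
  have h3 : DifferentiableAt ℂ (fun v : X2 => ((F, v) : Coef d × X2)) v :=
    (differentiableAt_const F).prodMk differentiableAt_id
  have e : (T d F)^[N] = (fun q : Coef d × X2 => (T d q.1)^[N] q.2) ∘
      (fun v : X2 => ((F, v) : Coef d × X2)) := by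
    funext v
    simp only [Function.comp_apply]
  rw [e]
  exact DifferentiableAt.comp v h2 h3

theorem K5a_diff_KL (hA : IsArena A) {F : Coef d} (hF : F ∈ A.Lam) (σ : ℕ → ι) (L : ℕ)
    {u : X2} (hu : u ∈ A.Rg) : DifferentiableAt ℂ (A.KL F σ L) u := by
  have hg := interior_subset (hA.gret_maps F hF u hu)
  have h1 : DifferentiableAt ℂ (fun q : Coef d × X2 => A.gret q.1 q.2) (F, u) :=
    (hA.gret_smooth F hF u hu).differentiableAt one_ne_zero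
  have h2 : DifferentiableAt ℂ (fun q : Coef d × X2 => A.wd q.1 σ L q.2) (F, A.gret F u) :=
    (hA.wd_smooth σ L hF hg).differentiableAt one_ne_zero
  have h3 : DifferentiableAt ℂ (fun v : X2 => ((F, v) : Coef d × X2)) u :=
    (differentiableAt_const F).prodMk differentiableAt_id
  have h4 : DifferentiableAt ℂ (fun v : X2 => A.gret F v) u :=
    DifferentiableAt.comp (g := fun q : Coef d × X2 => A.gret q.1 q.2) u h1 h3
  have h5 : DifferentiableAt ℂ (fun v : X2 => ((F, A.gret F v) : Coef d × X2)) u :=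
    (differentiableAt_const F).prodMk h4
  have e : A.KL F σ L = (fun q : Coef d × X2 => A.wd q.1 σ L q.2) ∘
      (fun v : X2 => ((F, A.gret F v) : Coef d × X2)) := by
    funext v
    simp only [Function.comp_apply, AData.KL]
  rw [e]
  exact DifferentiableAt.comp u h2 h5

theorem K5a_ker (D : X2 →L[ℂ] X2) (h : D.det = 0) : ∃ ξ : X2, ξ ≠ 0 ∧ D ξ = 0 := by
  have h1 : LinearMap.det (D : X2 →ₗ[ℂ] X2) = 0 := h
  have h2 := LinearMap.bot_lt_ker_of_det_eq_zero h1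
  obtain ⟨ξ, hξ, hne⟩ := Submodule.exists_mem_ne_zero_of_ne_bot h2.ne'
  exact ⟨ξ, hne, hξ⟩

theorem K5a_eig (D : X2 →L[ℂ] X2) (μ : ℂ) {ξ : X2} (hξ : ξ ≠ 0) (h : D ξ = μ • ξ) :
    Module.End.HasEigenvalue (D : X2 →ₗ[ℂ] X2) μ :=
  Module.End.hasEigenvalue_of_hasEigenvector (x := ξ)
    ⟨Module.End.mem_eigenspace_iff.2 h, hξ⟩

/-- K5b. Spectral relations at a solution `u ∈ Rg` in the interior: with `N' = ∑ Nb + m1`, near
`u` we have `T^[Per] = T^[N'] ∘ T^[m2]` and `D T^[N'] (KL u) ∘ D KL (u) = id`. Hence: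
(i) if no eigenvalue of `D T^[Per] (u)` is equal to `1` then `det (D T^[m2] - D KL) ≠ 0`;
(ii) if `0` is not an eigenvalue of `D T^[Per] (u)` then `det D T^[m2] (u) ≠ 0`;
(iii) if `‖D T^[m2] (u) ξ‖ ≥ s ‖ξ‖` for all `ξ` and `‖D KL (u)‖ < s` then all eigenvalues of
`D T^[Per] (u)` have modulus `> 1`
(`D T^[Per] ξ = μ ξ` gives `D T^[m2] ξ = μ D KL ξ`). -/
theorem IsArena.spectral (hA : IsArena A) {F : Coef d} (hF : F ∈ A.Lam) (σ : ℕ → ι) (L : ℕ)
    {u : X2} (hu : u ∈ ball A.c A.r' ×ˢ ball A.w0 A.ρ0)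
    (heq : (T d F)^[A.m2] u = A.KL F σ L u) :
    ((∀ μ : ℂ, Module.End.HasEigenvalue
        (fderiv ℂ ((T d F)^[A.Per σ L]) u : X2 →ₗ[ℂ] X2) μ → 1 < ‖μ‖) →
      (fderiv ℂ ((T d F)^[A.m2]) u - fderiv ℂ (A.KL F σ L) u).det ≠ 0 ∧
      (fderiv ℂ ((T d F)^[A.m2]) u).det ≠ 0) ∧
    ∀ s : ℝ, (∀ ξ : X2, s * ‖ξ‖ ≤ ‖fderiv ℂ ((T d F)^[A.m2]) u ξ‖) →
      ‖fderiv ℂ (A.KL F σ L) u‖ < s →
      ∀ μ : ℂ, Module.End.HasEigenvalue
        (fderiv ℂ ((T d F)^[A.Per σ L]) u : X2 →ₗ[ℂ] X2) μ → 1 < ‖μ‖ := by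
  have hRg : u ∈ A.Rg := ⟨ball_subset_closedBall hu.1, ball_subset_closedBall hu.2⟩
  have hnhds : ball A.c A.r' ×ˢ ball A.w0 A.ρ0 ∈ 𝓝 u := (isOpen_ball.prod isOpen_ball).mem_nhds hu
  set N' := ∑ i ∈ Finset.range L, A.Nb (σ i) + A.m1 with hN'
  have hT2 : DifferentiableAt ℂ ((T d F)^[A.m2]) u := K5a_diff_T (hA.good2 F hF u hRg)
  have hK : DifferentiableAt ℂ (A.KL F σ L) u := K5a_diff_KL hA hF σ L hRg
  have hTN : DifferentiableAt ℂ ((T d F)^[N']) (A.KL F σ L u) :=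
    K5a_diff_T (K5a_KL_inv hA hF σ L hRg).1
  set D2 := fderiv ℂ ((T d F)^[A.m2]) u with hD2
  set DK := fderiv ℂ (A.KL F σ L) u with hDK
  set B := fderiv ℂ ((T d F)^[N']) (A.KL F σ L u) with hB
  have hBK : B.comp DK = ContinuousLinearMap.id ℂ X2 := by
    rw [hB, hDK, ← fderiv_comp u hTN hK]
    have : (T d F)^[N'] ∘ A.KL F σ L =ᶠ[𝓝 u] id := by
      filter_upwards [hnhds] with v hv
      exact (K5a_KL_inv hA hF σ L ⟨ball_subset_closedBall hv.1, ball_subset_closedBall hv.2⟩).2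
    rw [this.fderiv_eq, fderiv_id]
  have hKB : DK.comp B = ContinuousLinearMap.id ℂ X2 := by
    have h1 : (B : X2 →ₗ[ℂ] X2) ∘ₗ (DK : X2 →ₗ[ℂ] X2) = LinearMap.id :=
      LinearMap.ext fun v => congrArg (fun f : X2 →L[ℂ] X2 => f v) hBK
    have h2 := (LinearMap.comp_eq_id_comm ℂ X2).1 h1
    exact ContinuousLinearMap.ext fun v => congrArg (fun f : X2 →ₗ[ℂ] X2 => f v) h2
  have hPer : fderiv ℂ ((T d F)^[A.Per σ L]) u = B.comp D2 := by
    have e : (T d F)^[A.Per σ L] = (T d F)^[N'] ∘ (T d F)^[A.m2] := by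
      unfold AData.Per
      rw [← hN', Nat.add_comm, Function.iterate_add]
    rw [e, fderiv_comp u (by rw [heq]; exact hTN) hT2, heq]
  have hBKv : ∀ v, B (DK v) = v := fun v => congrArg (fun f : X2 →L[ℂ] X2 => f v) hBK
  have hKBv : ∀ v, DK (B v) = v := fun v => congrArg (fun f : X2 →L[ℂ] X2 => f v) hKB
  rw [hPer]
  refine ⟨fun h => ⟨fun h0 => ?_, fun h0 => ?_⟩, fun s hs hs' μ hμ => ?_⟩
  · obtain ⟨ξ, hξ, h1⟩ := K5a_ker _ h0
    have h2 : D2 ξ = DK ξ := by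
      rw [sub_apply] at h1
      exact sub_eq_zero.1 h1
    have h3 : (B.comp D2) ξ = (1 : ℂ) • ξ := by
      rw [ContinuousLinearMap.comp_apply, h2, hBKv, one_smul]
    have h4 := h 1 (K5a_eig _ 1 hξ h3)
    simp at h4
  · obtain ⟨ξ, hξ, h1⟩ := K5a_ker _ h0
    have h3 : (B.comp D2) ξ = (0 : ℂ) • ξ := by
      rw [ContinuousLinearMap.comp_apply, h1, map_zero, zero_smul]
    have h4 := h 0 (K5a_eig _ 0 hξ h3)
    rw [norm_zero] at h4
    linarith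
  · obtain ⟨ξ, hξ⟩ := hμ.exists_hasEigenvector
    have h1 : (B.comp D2) ξ = μ • ξ := hξ.apply_eq_smul
    have h2 : D2 ξ = μ • DK ξ := by
      rw [← map_smul, ← h1, ContinuousLinearMap.comp_apply, hKBv]
    by_contra hcon
    push Not at hcon
    have h3 := hs ξ
    have h4 : 0 < ‖ξ‖ := norm_pos_iff.2 hξ.2
    have h5 : ‖D2 ξ‖ ≤ ‖DK‖ * ‖ξ‖ := by
      rw [h2, norm_smul]
      calc ‖μ‖ * ‖DK ξ‖ ≤ 1 * ‖DK ξ‖ := mul_le_mul_of_nonneg_right hcon (norm_nonneg _)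
        _ = ‖DK ξ‖ := one_mul _
        _ ≤ ‖DK‖ * ‖ξ‖ := DK.le_opNorm ξ
    have h6 : ‖DK‖ * ‖ξ‖ < s * ‖ξ‖ := mul_lt_mul_of_pos_right hs' h4
    linarith

end SkewBif
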