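import Pool.Agent.SK.K3
import Pool.Agent.SK.K4
import Pool.Agent.SK.K5a
/-! ## MP_9cfccf_an, module K5 -/
open Set Metric Filter Topology Polynomial
namespace SkewBif
variable {d : ℕ} {ι J : Type} {A : AData d ι J}

theorem K5_det (D : X2 →L[ℂ] X2) :
    D.det = (D (1, 0)).1 * (D (0, 1)).2 - (D (0, 1)).1 * (D (1, 0)).2 := by
  have h1 : D.det = LinearMap.det (D : X2 →ₗ[ℂ] X2) := rfl
  rw [h1, ← LinearMap.det_toMatrix (Module.Basis.finTwoProd ℂ), Matrix.det_fin_two]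
  simp [LinearMap.toMatrix_apply]

theorem K5_bound (D : X2 →L[ℂ] X2) (ξ : X2) : ‖D.det‖ * ‖ξ‖ ≤ 2 * ‖D‖ * ‖D ξ‖ := by
  have e1 : ‖D (1, 0)‖ ≤ ‖D‖ := by
    have := D.le_opNorm (1, 0)
    simpa [Prod.norm_def] using this
  have e2 : ‖D (0, 1)‖ ≤ ‖D‖ := by
    have := D.le_opNorm (0, 1)
    simpa [Prod.norm_def] using this
  have a1 : ‖(D (1, 0)).1‖ ≤ ‖D‖ := (norm_fst_le _).trans e1
  have a2 : ‖(D (1, 0)).2‖ ≤ ‖D‖ := (norm_snd_le _).trans e1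
  have a3 : ‖(D (0, 1)).1‖ ≤ ‖D‖ := (norm_fst_le _).trans e2
  have a4 : ‖(D (0, 1)).2‖ ≤ ‖D‖ := (norm_snd_le _).trans e2
  have hD : D ξ = ξ.1 • D (1, 0) + ξ.2 • D (0, 1) := by
    rw [← map_smul, ← map_smul, ← map_add]
    congr 1
    ext <;> simp
  have f1 : D.det * ξ.1 = (D (0, 1)).2 * (D ξ).1 - (D (0, 1)).1 * (D ξ).2 := by
    rw [K5_det, hD]
    simp only [Prod.fst_add, Prod.snd_add, Prod.smul_fst, Prod.smul_snd, smul_eq_mul]
    ring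
  have f2 : D.det * ξ.2 = (D (1, 0)).1 * (D ξ).2 - (D (1, 0)).2 * (D ξ).1 := by
    rw [K5_det, hD]
    simp only [Prod.fst_add, Prod.snd_add, Prod.smul_fst, Prod.smul_snd, smul_eq_mul]
    ring
  have g1 : ‖(D ξ).1‖ ≤ ‖D ξ‖ := norm_fst_le _
  have g2 : ‖(D ξ).2‖ ≤ ‖D ξ‖ := norm_snd_le _
  have h1 : ‖D.det‖ * ‖ξ.1‖ ≤ 2 * ‖D‖ * ‖D ξ‖ := by
    rw [← norm_mul, f1]
    calc _ ≤ ‖(D (0, 1)).2 * (D ξ).1‖ + ‖(D (0, 1)).1 * (D ξ).2‖ := norm_sub_le _ _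
      _ ≤ ‖D‖ * ‖D ξ‖ + ‖D‖ * ‖D ξ‖ := by
        rw [norm_mul, norm_mul]
        gcongr
      _ = 2 * ‖D‖ * ‖D ξ‖ := by ring
  have h2 : ‖D.det‖ * ‖ξ.2‖ ≤ 2 * ‖D‖ * ‖D ξ‖ := by
    rw [← norm_mul, f2]
    calc _ ≤ ‖(D (1, 0)).1 * (D ξ).2‖ + ‖(D (1, 0)).2 * (D ξ).1‖ := norm_sub_le _ _
      _ ≤ ‖D‖ * ‖D ξ‖ + ‖D‖ * ‖D ξ‖ := by
        rw [norm_mul, norm_mul]
        gcongr
      _ = 2 * ‖D‖ * ‖D ξ‖ := by ring
  rw [Prod.norm_def]
  rcases max_cases ‖ξ.1‖ ‖ξ.2‖ with h | h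
  · rw [h.1]; exact h1
  · rw [h.1]; exact h2

/-- uniform bound for the derivative of the iterate on `Rg` -/
theorem K5_derivBound (hA : IsArena A) {F : Coef d} (hF : F ∈ A.Lam) :
    ∃ C : ℝ, ∀ u ∈ A.Rg, ‖fderiv ℂ ((T d F)^[A.m2]) u‖ ≤ C := by
  have hc : IsCompact A.Rg := (isCompact_closedBall _ _).prod (isCompact_closedBall _ _)
  apply hc.exists_bound_of_continuousOn
  intro u hu
  have h1 : ContDiffAt ℂ 1 (fun q : Coef d × X2 => (T d q.1)^[A.m2] q.2) (F, u) :=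
    iter_contDiffAt (hA.good2 F hF u hu) 1
  have h3 : ContDiffAt ℂ 1 (fun v : X2 => ((F, v) : Coef d × X2)) u :=
    contDiffAt_const.prodMk contDiffAt_id
  have e : (T d F)^[A.m2] = (fun q : Coef d × X2 => (T d q.1)^[A.m2] q.2) ∘
      (fun v : X2 => ((F, v) : Coef d × X2)) := by
    funext v
    simp only [Function.comp_apply]
  have h4 : ContDiffAt ℂ 1 ((T d F)^[A.m2]) u := by
    rw [e]
    exact ContDiffAt.comp u h1 h3
  have h5 : ContDiffAt ℂ 0 (fderiv ℂ ((T d F)^[A.m2])) u := h4.fderiv_right (by norm_num)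
  exact h5.continuousAt.continuousWithinAt

/-- K5. At a generic parameter `ζ1` (limit point off all the graphs) the solutions are repelling for
large `L`, with a lower bound for the critical determinant.
Proof: by contradiction and compactness: if `redA L ζ1 z_L = 0` and `redH L ζ1 z_L → 0` along a
subsequence, `z_L → z`, K4 gives `T^[m2] (z, ψ z e.2) = e` and a zero determinant, so by `crit` `e` is
on some `γ j`: contradiction with `hgen`. So `‖redH‖ ≥ c`; a linear map `D` on `ℂ²` with `‖det D‖ ≥ c` and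
`‖D‖ ≤ C1` satisfies `‖D ξ‖ ≥ s ‖ξ‖` with `s = s(c, C1) > 0`; K5b (iii) and K2a. -/
theorem IsArena.generic_repelling (hA : IsArena A) {F' V : Coef d} {δ : ℝ} (hδ : 0 < δ)
    (hmem : ∀ ζ ∈ closedBall (0 : ℂ) δ, F' + ζ • V ∈ A.Lam) {σ : ℕ → ι} (hσ : A.Start σ) {L0 : ℕ}
    (hL0 : A.M0 ≤ L0) {ω : ℕ → ℂ → ℂ → ℂ} (hω : ∀ L ≥ L0, Reduced A F' V σ δ L (ω L))
    {ζ1 : ℂ} (hζ1 : ζ1 ∈ ball (0 : ℂ) δ)
    (hgen : ∀ e, IsLimPt (fun i => A.G i (F' + ζ1 • V)) σ A.P e →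
      ∀ j, e.1 ≠ A.γ j (F' + ζ1 • V) e.2) :
    ∃ c > 0, ∃ L1 ≥ L0, ∀ L ≥ L1, ∀ z ∈ closedBall A.c A.r, redA A F' V σ L (ω L) ζ1 z = 0 →
      c ≤ ‖redH A F' V (ω L) ζ1 z‖ ∧
      ∀ μ : ℂ, Module.End.HasEigenvalue
        (fderiv ℂ ((T d (F' + ζ1 • V))^[A.Per σ L]) (z, ω L ζ1 z) : X2 →ₗ[ℂ] X2) μ →
        1 < ‖μ‖ := by
  set F := F' + ζ1 • V with hFdef
  have hζc : ζ1 ∈ closedBall (0 : ℂ) δ := ball_subset_closedBall hζ1
  have hF : F ∈ A.Lam := hmem ζ1 hζc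
  have hr'0 : 0 < A.r' := lt_trans hA.r_pos hA.r_lt
  have hu0 : ((A.c, A.w0) : X2) ∈ A.Rg :=
    ⟨mem_closedBall_self hr'0.le, mem_closedBall_self hA.ρ0_pos.le⟩
  have hne : A.P.Nonempty := ⟨_, interior_subset (hA.gret_maps F hF _ hu0)⟩
  obtain ⟨e, heP, heL, _⟩ := hA.exists_limPt hne hF σ
  have hePt := hA.limPt_mem hne hF hσ heL
  obtain ⟨hadiff, hhcont, haunif, hhunif⟩ := hA.red_limits hδ hmem hσ hL0 hω hζ1 heL
  set a : ℂ → ℂ := fun z => ((T d F)^[A.m2] (z, A.ψ F z e.2)).1 - e.1 with ha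
  set h : ℂ → ℂ := fun z => (fderiv ℂ ((T d F)^[A.m2]) (z, A.ψ F z e.2)).det with hh
  have hsub : closedBall A.c A.r ⊆ ball A.c A.r' := closedBall_subset_ball hA.r_lt
  have he2 : e.2 ∈ closedBall A.ws A.ρt := hePt.2
  -- no common zero
  have hnz : ∀ z ∈ closedBall A.c A.r, 0 < ‖a z‖ + ‖h z‖ := by
    intro z hz
    by_contra hcon
    have h1 : a z = 0 := by
      have := norm_nonneg (a z)
      have := norm_nonneg (h z)
      exact norm_eq_zero.1 (by linarith)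
    have h2 : h z = 0 := by
      have := norm_nonneg (a z)
      have := norm_nonneg (h z)
      exact norm_eq_zero.1 (by linarith)
    have hz' : z ∈ closedBall A.c A.r' := ball_subset_closedBall (hsub hz)
    obtain ⟨h3, h4⟩ := hA.ψ_mem F hF z hz' e.2 he2
    have hu : ((z, A.ψ F z e.2) : X2) ∈ A.Rg := ⟨hz', ball_subset_closedBall h3⟩
    have h5 : (T d F)^[A.m2] (z, A.ψ F z e.2) = e := Prod.ext (sub_eq_zero.1 h1) h4
    obtain ⟨j, hj⟩ := hA.crit F hF _ hu (by rw [h5]; exact hePt) h2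
    rw [h5] at hj
    exact hgen e heL j hj
  have hcomp : IsCompact (closedBall A.c A.r) := isCompact_closedBall _ _
  have hcont : ContinuousOn (fun z => ‖a z‖ + ‖h z‖) (closedBall A.c A.r) :=
    ((hadiff.continuousOn.mono hsub).norm).add hhcont.norm
  obtain ⟨z0, hz0, hmin⟩ := hcomp.exists_isMinOn ⟨A.c, mem_closedBall_self hA.r_pos.le⟩ hcont
  set c1 := (‖a z0‖ + ‖h z0‖) / 4 with hc1
  have hc1pos : 0 < c1 := by
    have := hnz z0 hz0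
    positivity
  have hlow : ∀ z ∈ closedBall A.c A.r, 4 * c1 ≤ ‖a z‖ + ‖h z‖ := by
    intro z hz
    have := hmin hz
    simp only [mem_setOf_eq] at this
    rw [hc1]
    linarith
  obtain ⟨C, hC⟩ := K5_derivBound hA hF
  obtain ⟨_, CK, hCK, hK⟩ := hA.KL_props hmem hσ
  have hC0 : 0 ≤ C := (norm_nonneg _).trans (hC _ hu0)
  set s := c1 / (2 * (C + 1)) with hs
  have hspos : 0 < s := by positivity
  have e1 := (Metric.tendstoUniformlyOn_iff.1 haunif) c1 hc1pos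
  have e2 := (Metric.tendstoUniformlyOn_iff.1 hhunif) c1 hc1pos
  have e3 : ∀ᶠ L : ℕ in atTop, CK * A.θ ^ L < s := by
    have : Tendsto (fun L : ℕ => CK * A.θ ^ L) atTop (𝓝 0) := by
      simpa using (tendsto_pow_atTop_nhds_zero_of_lt_one hA.th0 hA.th1).const_mul CK
    exact this.eventually (gt_mem_nhds hspos)
  obtain ⟨L1, hL1⟩ := (e1.and (e2.and e3)).exists_forall_of_atTop
  refine ⟨c1, hc1pos, max L0 L1, le_max_left _ _, fun L hL z hz hzero => ?_⟩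
  obtain ⟨f1, f2, f3⟩ := hL1 L ((le_max_right _ _).trans hL)
  have hLL0 : L0 ≤ L := (le_max_left _ _).trans hL
  have g1 := f1 z hz
  have g2 := f2 z hz
  rw [hzero, dist_zero_right] at g1
  rw [dist_eq_norm] at g2
  have g3 := hlow z hz
  have g4 : c1 ≤ ‖redH A F' V (ω L) ζ1 z‖ := by
    have := norm_sub_norm_le (h z) (redH A F' V (ω L) ζ1 z)
    linarith
  refine ⟨g4, ?_⟩
  have hz' : z ∈ closedBall A.c A.r' := ball_subset_closedBall (hsub hz)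
  have hωm := (hω L hLL0).mem ζ1 hζc z hz'
  have hu : ((z, ω L ζ1 z) : X2) ∈ ball A.c A.r' ×ˢ ball A.w0 A.ρ0 := ⟨hsub hz, hωm⟩
  have huR : ((z, ω L ζ1 z) : X2) ∈ A.Rg := ⟨hz', ball_subset_closedBall hωm⟩
  have heq := (hA.red_props hδ hmem hσ (hL0.trans hLL0) (hω L hLL0)).2.2.2.1 ζ1 hζ1 z hz' hzero
  refine (hA.spectral hF σ L hu heq).2 s (fun ξ => ?_) ?_
  · have k1 := K5_bound (fderiv ℂ ((T d F)^[A.m2]) (z, ω L ζ1 z)) ξ
    have k2 := hC _ huR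
    have k3 : c1 ≤ ‖(fderiv ℂ ((T d F)^[A.m2]) (z, ω L ζ1 z)).det‖ := g4
    have k4 : c1 * ‖ξ‖ ≤ 2 * (C + 1) * ‖fderiv ℂ ((T d F)^[A.m2]) (z, ω L ζ1 z) ξ‖ := by
      calc c1 * ‖ξ‖ ≤ ‖(fderiv ℂ ((T d F)^[A.m2]) (z, ω L ζ1 z)).det‖ * ‖ξ‖ :=
            mul_le_mul_of_nonneg_right k3 (norm_nonneg _)
        _ ≤ _ := k1
        _ ≤ 2 * (C + 1) * ‖fderiv ℂ ((T d F)^[A.m2]) (z, ω L ζ1 z) ξ‖ := by
          refine mul_le_mul_of_nonneg_right ?_ (norm_nonneg _)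
          linarith
    rw [hs, div_mul_eq_mul_div, div_le_iff₀ (by positivity)]
    linarith
  · exact lt_of_le_of_lt (hK L ζ1 hζc _ huR).2 f3

end SkewBif
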