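import Pool.Agent.SK.E2a
import Pool.Agent.SK.K3
import Pool.Agent.SK.K5a
/-! ## MP_9cfccf_an, module K6 -/
open Set Metric Filter Topology Polynomial
namespace SkewBif
variable {d : ℕ} {ι J : Type} {A : AData d ι J}

/-- local injectivity with parameters -/
theorem K6_inj {E : Type*} [NormedAddCommGroup E] [NormedSpace ℂ E] [FiniteDimensional ℂ E]
    {Ψ : E × X2 → X2} {e : E} {q0 : X2} (hΨ : ContDiffAt ℂ 1 Ψ (e, q0))
    (hinj : ∀ x : X2, fderiv ℂ (fun q => Ψ (e, q)) q0 x = 0 → x = 0) :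
    ∀ᶠ a in 𝓝 ((e, q0), q0), Ψ (a.1.1, a.1.2) = Ψ (a.1.1, a.2) → a.1.2 = a.2 := by
  have : CompleteSpace E := FiniteDimensional.complete ℂ E
  set Θ : E × X2 → E × X2 := fun q => (q.1, Ψ q) with hΘ
  have hΘc : ContDiffAt ℂ 1 Θ (e, q0) := contDiffAt_fst.prodMk hΨ
  have hΨd : HasFDerivAt Ψ (fderiv ℂ Ψ (e, q0)) (e, q0) :=
    (hΨ.differentiableAt one_ne_zero).hasFDerivAt
  have hΘd : HasFDerivAt Θ ((ContinuousLinearMap.fst ℂ E X2).prod (fderiv ℂ Ψ (e, q0))) (e, q0) :=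
    hasFDerivAt_fst.prodMk hΨd
  have hpart : ∀ x : X2, fderiv ℂ (fun q => Ψ (e, q)) q0 x = fderiv ℂ Ψ (e, q0) (0, x) := by
    intro x
    have h1 : HasFDerivAt (fun q : X2 => (e, q)) (ContinuousLinearMap.inr ℂ E X2) q0 :=
      hasFDerivAt_prodMk_right e q0
    have h2 := HasFDerivAt.comp q0 (f := fun q : X2 => (e, q)) (g := Ψ) hΨd h1
    have h3 : fderiv ℂ (fun q => Ψ (e, q)) q0 =
        (fderiv ℂ Ψ (e, q0)).comp (ContinuousLinearMap.inr ℂ E X2) := h2.fderiv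
    rw [h3]
    rfl
  set D : E × X2 →L[ℂ] E × X2 := (ContinuousLinearMap.fst ℂ E X2).prod (fderiv ℂ Ψ (e, q0))
    with hD
  have hDinj : Function.Injective D := by
    rw [injective_iff_map_eq_zero]
    rintro ⟨f, x⟩ h
    have h1 : f = 0 := congrArg Prod.fst h
    subst h1
    have h2 : fderiv ℂ Ψ (e, q0) (0, x) = 0 := congrArg Prod.snd h
    rw [← hpart] at h2
    rw [hinj x h2]
    rfl
  have hDsurj : Function.Surjective D :=
    (LinearMap.injective_iff_surjective (f := (D : E × X2 →ₗ[ℂ] E × X2))).1 hDinj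
  set D' : (E × X2) ≃L[ℂ] (E × X2) := ContinuousLinearEquiv.ofBijective D
    (LinearMap.ker_eq_bot.2 hDinj) (LinearMap.range_eq_top.2 hDsurj) with hD'
  have hD'c : (D' : E × X2 →L[ℂ] E × X2) = D := ContinuousLinearEquiv.coe_ofBijective _ _ _
  have hs : HasStrictFDerivAt Θ (D' : E × X2 →L[ℂ] E × X2) (e, q0) := by
    rw [hD'c]
    exact hΘc.hasStrictFDerivAt' hΘd one_ne_zero
  have hli := hs.eventually_left_inverse
  have c1 : Tendsto (fun a : (E × X2) × X2 => (a.1.1, a.1.2)) (𝓝 ((e, q0), q0)) (𝓝 (e, q0)) := by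
    have : Continuous (fun a : (E × X2) × X2 => (a.1.1, a.1.2)) := by fun_prop
    exact this.tendsto ((e, q0), q0)
  have c2 : Tendsto (fun a : (E × X2) × X2 => (a.1.1, a.2)) (𝓝 ((e, q0), q0)) (𝓝 (e, q0)) := by
    have : Continuous (fun a : (E × X2) × X2 => (a.1.1, a.2)) := by fun_prop
    exact this.tendsto ((e, q0), q0)
  filter_upwards [c1.eventually hli, c2.eventually hli] with a h1 h2 h3
  have h4 : Θ (a.1.1, a.1.2) = Θ (a.1.1, a.2) := by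
    rw [hΘ]
    simp only
    rw [h3]
  rw [h4, h2] at h1
  exact (congrArg Prod.snd h1).symm

/-- the derivative of the iterate at `KL u` is injective -/
theorem K6_deriv (hA : IsArena A) {F' V : Coef d} {δ : ℝ}
    (hmem : ∀ ζ ∈ closedBall (0 : ℂ) δ, F' + ζ • V ∈ A.Lam) {σ : ℕ → ι} (hσ : A.Start σ) {L : ℕ}
    {ζ : ℂ} (hζ : ζ ∈ closedBall (0 : ℂ) δ) {u : X2} (hu : A.Rg ∈ 𝓝 u) (x : X2)
    (hx : fderiv ℂ ((T d (F' + ζ • V))^[∑ i ∈ Finset.range L, A.Nb (σ i) + A.m1])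
      (A.KL (F' + ζ • V) σ L u) x = 0) : x = 0 := by
  obtain ⟨hK, _⟩ := hA.KL_props hmem hσ
  have huR : u ∈ A.Rg := mem_of_mem_nhds hu
  obtain ⟨_, _, hKc, hKg, _⟩ := hK L ζ hζ u huR
  set F := F' + ζ • V with hF
  set N' := ∑ i ∈ Finset.range L, A.Nb (σ i) + A.m1 with hN'
  have hKd : DifferentiableAt ℂ (A.KL F σ L) u := (K2a_partial
    (g := fun q : Coef d × X2 => A.KL q.1 σ L q.2) (hKc.differentiableAt one_ne_zero)).1
  have hTd : DifferentiableAt ℂ ((T d F)^[N']) (A.KL F σ L u) :=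
    (K2a_partial (g := fun q : Coef d × X2 => (T d q.1)^[N'] q.2)
      ((iter_contDiffAt hKg 1).differentiableAt one_ne_zero)).1
  have h1 : HasFDerivAt (fun y => (T d F)^[N'] (A.KL F σ L y))
      ((fderiv ℂ ((T d F)^[N']) (A.KL F σ L u)).comp (fderiv ℂ (A.KL F σ L) u)) u :=
    HasFDerivAt.comp u hTd.hasFDerivAt hKd.hasFDerivAt
  have h2 : (fun y => (T d F)^[N'] (A.KL F σ L y)) =ᶠ[𝓝 u] (fun y => y) := by
    filter_upwards [hu] with y hy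
    exact (hK L ζ hζ y hy).2.2.2.2
  have h3 := (h1.congr_of_eventuallyEq h2.symm).unique (hasFDerivAt_id u)
  have hsurj : Function.Surjective (fderiv ℂ ((T d F)^[N']) (A.KL F σ L u)) := by
    intro y
    refine ⟨fderiv ℂ (A.KL F σ L) u y, ?_⟩
    exact congrArg (fun M : X2 →L[ℂ] X2 => M y) h3
  have hinj : Function.Injective (fderiv ℂ ((T d F)^[N']) (A.KL F σ L u)) :=
    (LinearMap.injective_iff_surjective
      (f := (fderiv ℂ ((T d F)^[N']) (A.KL F σ L u) : X2 →ₗ[ℂ] X2))).2 hsurj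
  exact hinj (hx.trans (map_zero _).symm)


/-- K6. Motion. Let `U : Coef d → ℂ³` be the motion given by `stab_motion` for the period
`Per σ L`, along a disc of parameters contained in `B ∩ Lam`. Then the chart point stays in the
critical bidisc and solves `T^[m2] v = KL v` for all `ζ ∈ ball 0 δ`.
Proof: let `E` be the set of `ζ ∈ ball 0 δ` with `U 1 ≠ 0`, `v = chart U ∈ ball c r ×ˢ ball w0 ρ0`,
`T^[m2] v = KL v`. `ζ1 ∈ E`. Open: near `ζ0 ∈ E`, `v ζ` is close to `v ζ0`, `Good d Per`, so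
`T^[Per] v = v` by the property of `U`; both `T^[m2] v` and `KL v` are close to `q0 = KL (v ζ0)` and have
the same image `v` under `T^[N']` (`N' = ∑ Nb + m1`), which is injective near `q0`, locally uniformly in `ζ` (its derivative at
`q0` is invertible). Closed: `ζ_k → ζ`, `v ζ_k ∈ closedBall c r ×ˢ closedBall w0 ρ0` bounded, hence
`U 1 (ζ) ≠ 0` (else `U (ζ) = 0`), `v ζ` in the closed bidisc and `T^[m2] v = KL v` by continuity; then
`v.2 = ω ζ v.1 ∈ ball w0 ρ0` and `redA ζ v.1 = 0`, so `v.1` is not on the circle (K3). -/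
theorem IsArena.motion (hA : IsArena A) {F' V : Coef d} {δ : ℝ} (hδ : 0 < δ)
    (hmem : ∀ ζ ∈ closedBall (0 : ℂ) δ, F' + ζ • V ∈ A.Lam) {σ : ℕ → ι} (hσ : A.Start σ) {L : ℕ}
    (hL : A.M0 ≤ L) {ω : ℂ → ℂ → ℂ} (hω : Reduced A F' V σ δ L ω) {B : Set (Coef d)}
    (hB : ∀ ζ ∈ ball (0 : ℂ) δ, F' + ζ • V ∈ B) (hBo : IsOpen B)
    {ζ1 z1 : ℂ} (hζ1 : ζ1 ∈ ball (0 : ℂ) δ) (hz1 : z1 ∈ closedBall A.c A.r)
    (hsol : redA A F' V σ L ω ζ1 z1 = 0) {U : Coef d → (Fin 3 → ℂ)}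
    (hU : DifferentiableOn ℂ U B) (hU0 : ∀ F ∈ B, U F ≠ 0) (hU1 : U (F' + ζ1 • V) 1 ≠ 0)
    (hchart : chart (U (F' + ζ1 • V)) = (z1, ω ζ1 z1))
    (hUper : ∀ F ∈ B, U F 1 ≠ 0 → Good d (A.Per σ L) F (chart (U F)) →
      (T d F)^[A.Per σ L] (chart (U F)) = chart (U F) ∧
      ∀ μ : ℂ, Module.End.HasEigenvalue
        (fderiv ℂ ((T d F)^[A.Per σ L]) (chart (U F)) : X2 →ₗ[ℂ] X2) μ → 1 < ‖μ‖) :
    ∃ zc : ℂ → ℂ, DifferentiableOn ℂ zc (ball 0 δ) ∧ zc ζ1 = z1 ∧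
      ∀ ζ ∈ ball (0 : ℂ) δ, zc ζ ∈ closedBall A.c A.r ∧ redA A F' V σ L ω ζ (zc ζ) = 0 ∧
        deriv (redA A F' V σ L ω ζ) (zc ζ) ≠ 0 ∧ redH A F' V ω ζ (zc ζ) ≠ 0 := by
  obtain ⟨_, _, hcirc, hsolT, hTsol, hder⟩ := hA.red_props hδ hmem hσ hL hω
  obtain ⟨hK, _⟩ := hA.KL_props hmem hσ
  set Fz : ℂ → Coef d := fun ζ => F' + ζ • V with hFz
  have hFzc : Continuous Fz := by
    rw [hFz]
    fun_prop
  have hFzd : Differentiable ℂ Fz := by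
    rw [hFz]
    exact (differentiable_const _).add (differentiable_id.smul_const V)
  have hb2c : ∀ ζ ∈ ball (0 : ℂ) δ, ζ ∈ closedBall (0 : ℂ) δ := fun ζ h => ball_subset_closedBall h
  have hLam : ∀ ζ ∈ ball (0 : ℂ) δ, Fz ζ ∈ A.Lam := fun ζ h => hmem ζ (hb2c ζ h)
  set W : ℂ → Fin 3 → ℂ := fun ζ => U (Fz ζ) with hW
  have hWd : DifferentiableOn ℂ W (ball 0 δ) := hU.comp hFzd.differentiableOn hB
  have hWc : ∀ ζ ∈ ball (0 : ℂ) δ, ContinuousAt W ζ := fun ζ h =>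
    (hWd.differentiableAt (isOpen_ball.mem_nhds h)).continuousAt
  have hW1c : ∀ ζ ∈ ball (0 : ℂ) δ, ContinuousAt (fun ζ => W ζ 1) ζ := fun ζ h =>
    (continuous_apply (1 : Fin 3)).continuousAt.comp (hWc ζ h)
  set v : ℂ → X2 := fun ζ => chart (W ζ) with hv
  have hvc : ∀ ζ ∈ ball (0 : ℂ) δ, W ζ 1 ≠ 0 → ContinuousAt v ζ := fun ζ h h1 =>
    ContinuousAt.comp (g := chart) (E2a_chart_contDiffAt h1 1).continuousAt (hWc ζ h)
  have hsub : ball A.c A.r ×ˢ ball A.w0 A.ρ0 ⊆ A.Rg := fun u hu =>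
    ⟨(ball_subset_closedBall hu.1 : u.1 ∈ closedBall A.c A.r) |> fun h =>
      closedBall_subset_closedBall hA.r_lt.le h, ball_subset_closedBall hu.2⟩
  have hsubc : closedBall A.c A.r ×ˢ closedBall A.w0 A.ρ0 ⊆ A.Rg := fun u hu =>
    ⟨closedBall_subset_closedBall hA.r_lt.le hu.1, hu.2⟩
  have hopen : IsOpen (ball A.c A.r ×ˢ ball A.w0 A.ρ0 : Set X2) := isOpen_ball.prod isOpen_ball
  -- continuity of both sides
  set N' := ∑ i ∈ Finset.range L, A.Nb (σ i) + A.m1 with hN'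
  have hPer : A.Per σ L = A.m2 + N' := rfl
  obtain ⟨Tm, hTm, hTcont⟩ : ∃ g : Coef d × X2 → X2, (∀ F u, g (F, u) = (T d F)^[A.m2] u) ∧
      (∀ ζ ∈ ball (0 : ℂ) δ, ∀ u ∈ A.Rg, ContinuousAt g (Fz ζ, u)) :=
    ⟨fun q => (T d q.1)^[A.m2] q.2, fun _ _ => rfl, fun ζ h u hu =>
      (iter_contDiffAt (hA.good2 (Fz ζ) (hLam ζ h) u hu) 1).continuousAt⟩
  obtain ⟨Km, hKm, hKcont⟩ : ∃ g : Coef d × X2 → X2, (∀ F u, g (F, u) = A.KL F σ L u) ∧
      (∀ ζ ∈ ball (0 : ℂ) δ, ∀ u ∈ A.Rg, ContinuousAt g (Fz ζ, u)) :=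
    ⟨fun q => A.KL q.1 σ L q.2, fun _ _ => rfl, fun ζ h u hu =>
      (hK L ζ (hb2c ζ h) u hu).2.2.1.continuousAt⟩
  obtain ⟨Tn, hTn, hTnf, hTnc⟩ : ∃ g : Coef d × X2 → X2, (∀ F u, g (F, u) = (T d F)^[N'] u) ∧
      (∀ F, (fun u => g (F, u)) = (T d F)^[N']) ∧
      (∀ F u, Good d N' F u → ContDiffAt ℂ 1 g (F, u)) :=
    ⟨fun q => (T d q.1)^[N'] q.2, fun _ _ => rfl, fun _ => rfl, fun F u h => iter_contDiffAt h 1⟩
  set E : Set ℂ := {ζ | ζ ∈ ball (0 : ℂ) δ ∧ W ζ 1 ≠ 0 ∧ v ζ ∈ ball A.c A.r ×ˢ ball A.w0 A.ρ0 ∧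
    Tm (Fz ζ, v ζ) = Km (Fz ζ, v ζ)} with hE
  -- a point of the closed bidisc which solves the equation is in the open one
  have hclosed_open : ∀ ζ ∈ ball (0 : ℂ) δ, ∀ u ∈ closedBall A.c A.r ×ˢ closedBall A.w0 A.ρ0,
      Tm (Fz ζ, u) = Km (Fz ζ, u) → u ∈ ball A.c A.r ×ˢ ball A.w0 A.ρ0 := by
    intro ζ hζ u hu heq
    rw [hTm, hKm] at heq
    obtain ⟨h1, h2⟩ := hTsol ζ hζ u (hsubc hu) heq
    constructor
    · have h3 := hu.1
      rw [mem_closedBall] at h3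
      rw [mem_ball]
      refine lt_of_le_of_ne h3 (fun h4 => ?_)
      exact hcirc ζ hζ u.1 (mem_sphere.2 h4) h2
    · rw [h1]
      exact hω.mem ζ (hb2c ζ hζ) u.1 (closedBall_subset_closedBall hA.r_lt.le hu.1)
  -- `ζ1 ∈ E`
  have hE1 : ζ1 ∈ E := by
    have h1 : v ζ1 = (z1, ω ζ1 z1) := hchart
    have h2 := hsolT ζ1 hζ1 z1 (closedBall_subset_closedBall hA.r_lt.le hz1) hsol
    have h3 : Tm (Fz ζ1, v ζ1) = Km (Fz ζ1, v ζ1) := by
      rw [hTm, hKm, h1]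
      exact h2
    refine ⟨hζ1, hU1, ?_, h3⟩
    refine hclosed_open ζ1 hζ1 _ ?_ h3
    rw [h1]
    exact ⟨hz1, ball_subset_closedBall
      (hω.mem ζ1 (hb2c ζ1 hζ1) z1 (closedBall_subset_closedBall hA.r_lt.le hz1))⟩
  -- open
  have hEo : IsOpen E := by
    rw [isOpen_iff_mem_nhds]
    rintro ζ0 ⟨hζ0, hW0, hv0, heq0⟩
    have hvR := hsub hv0
    obtain ⟨_, _, hKc0, hKg0, _⟩ := hK L ζ0 (hb2c ζ0 hζ0) (v ζ0) hvR
    have hvcont := hvc ζ0 hζ0 hW0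
    have hpair : ContinuousAt (fun ζ => (Fz ζ, v ζ)) ζ0 := hFzc.continuousAt.prodMk hvcont
    set q0 : X2 := A.KL (Fz ζ0) σ L (v ζ0) with hq0
    have heq0' : (T d (Fz ζ0))^[A.m2] (v ζ0) = A.KL (Fz ζ0) σ L (v ζ0) := by
      rw [← hTm, ← hKm]
      exact heq0
    have hgood0 : Good d (A.Per σ L) (Fz ζ0) (v ζ0) :=
      (hA.sol_periodic (hLam ζ0 hζ0) σ L hvR heq0').1
    have e1 : ∀ᶠ ζ in 𝓝 ζ0, Good d (A.Per σ L) (Fz ζ) (v ζ) :=
      hpair.eventually_mem ((good_open d (A.Per σ L)).mem_nhds hgood0)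
    have e2 : ∀ᶠ ζ in 𝓝 ζ0, ζ ∈ ball (0 : ℂ) δ := isOpen_ball.mem_nhds hζ0
    have e3 : ∀ᶠ ζ in 𝓝 ζ0, W ζ 1 ≠ 0 := (hW1c ζ0 hζ0).eventually_ne hW0
    have e4 : ∀ᶠ ζ in 𝓝 ζ0, v ζ ∈ ball A.c A.r ×ˢ ball A.w0 A.ρ0 :=
      hvcont.eventually_mem (hopen.mem_nhds hv0)
    have hinj0 : ∀ x : X2, fderiv ℂ (fun q => Tn (Fz ζ0, q)) q0 x = 0 → x = 0 := by
      intro x hx
      rw [hTnf] at hx
      exact K6_deriv hA hmem hσ (hb2c ζ0 hζ0)
        (Filter.mem_of_superset (hopen.mem_nhds hv0) hsub) x hx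
    have hinj := K6_inj (Ψ := Tn) (e := Fz ζ0) (q0 := q0) (hTnc _ _ hKg0) hinj0
    have hT0 : Tendsto (fun ζ => Tm (Fz ζ, v ζ)) (𝓝 ζ0) (𝓝 (Tm (Fz ζ0, v ζ0))) :=
      (hTcont ζ0 hζ0 (v ζ0) hvR).tendsto.comp hpair.tendsto
    have hK0 : Tendsto (fun ζ => Km (Fz ζ, v ζ)) (𝓝 ζ0) (𝓝 (Km (Fz ζ0, v ζ0))) :=
      (hKcont ζ0 hζ0 (v ζ0) hvR).tendsto.comp hpair.tendsto
    have hq0' : Km (Fz ζ0, v ζ0) = q0 := hKm _ _
    rw [heq0, hq0'] at hT0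
    rw [hq0'] at hK0
    have htr : Tendsto (fun ζ => ((Fz ζ, Tm (Fz ζ, v ζ)), Km (Fz ζ, v ζ)))
        (𝓝 ζ0) (𝓝 ((Fz ζ0, q0), q0)) :=
      ((hFzc.tendsto ζ0).prodMk_nhds hT0).prodMk_nhds hK0
    have e5 := htr.eventually hinj
    filter_upwards [e1, e2, e3, e4, e5] with ζ h1 h2 h3 h4 h5
    refine ⟨h2, h3, h4, h5 ?_⟩
    have hper := (hUper (Fz ζ) (hB ζ h2) h3 h1).1
    have h6 : (T d (Fz ζ))^[N' + A.m2] (v ζ) = v ζ := by
      rw [Nat.add_comm]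
      exact hper
    rw [Function.iterate_add_apply] at h6
    have h7 : Tn (Fz ζ, Tm (Fz ζ, v ζ)) = v ζ := by
      rw [hTn, hTm]
      exact h6
    have h8 : Tn (Fz ζ, Km (Fz ζ, v ζ)) = v ζ := by
      rw [hTn, hKm]
      exact (hK L ζ (hb2c ζ h2) (v ζ) (hsub h4)).2.2.2.2
    exact h7.trans h8.symm
  -- closed
  have hEc : closure E ∩ ball (0 : ℂ) δ ⊆ E := by
    rintro ζ ⟨hζc, hζ⟩
    obtain ⟨x, hx, hxlim⟩ := mem_closure_iff_seq_limit.1 hζc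
    have hWlim : Tendsto (fun k => W (x k)) atTop (𝓝 (W ζ)) := (hWc ζ hζ).tendsto.comp hxlim
    have hW1lim : Tendsto (fun k => W (x k) 1) atTop (𝓝 (W ζ 1)) :=
      (hW1c ζ hζ).tendsto.comp hxlim
    have hcomp : IsCompact (closedBall A.c A.r ×ˢ closedBall A.w0 A.ρ0 : Set X2) :=
      (isCompact_closedBall _ _).prod (isCompact_closedBall _ _)
    have hxmem : ∀ k, v (x k) ∈ closedBall A.c A.r ×ˢ closedBall A.w0 A.ρ0 := fun k =>
      ⟨ball_subset_closedBall (hx k).2.2.1.1, ball_subset_closedBall (hx k).2.2.1.2⟩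
    have hWζ : W ζ 1 ≠ 0 := by
      intro h0
      obtain ⟨C, hC⟩ := hcomp.exists_bound_of_continuousOn
        (E1a_lift_contDiff 1).continuous.continuousOn
      have h1 : Tendsto (fun k => ‖W (x k) 1‖ * C) atTop (𝓝 0) := by
        have := hW1lim.norm.mul_const C
        rw [h0, norm_zero, zero_mul] at this
        exact this
      have h2 : Tendsto (fun k => ‖W (x k)‖) atTop (𝓝 0) := by
        refine squeeze_zero (fun k => norm_nonneg _) (fun k => ?_) h1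
        rw [← E2a_lift_chart (hx k).2.1, norm_smul, E2a_lift_chart (hx k).2.1]
        exact mul_le_mul_of_nonneg_left (hC _ (hxmem k)) (norm_nonneg _)
      have h3 := tendsto_nhds_unique hWlim.norm h2
      exact hU0 (Fz ζ) (hB ζ hζ) (norm_eq_zero.1 h3)
    have hvcont := hvc ζ hζ hWζ
    have hvlim : Tendsto (fun k => v (x k)) atTop (𝓝 (v ζ)) := hvcont.tendsto.comp hxlim
    have hvmem : v ζ ∈ closedBall A.c A.r ×ˢ closedBall A.w0 A.ρ0 :=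
      hcomp.isClosed.mem_of_tendsto hvlim (Eventually.of_forall hxmem)
    have hpair : Tendsto (fun k => (Fz (x k), v (x k))) atTop (𝓝 (Fz ζ, v ζ)) :=
      ((hFzc.tendsto ζ).comp hxlim).prodMk_nhds hvlim
    have h1 : Tendsto (fun k => Tm (Fz (x k), v (x k))) atTop (𝓝 (Tm (Fz ζ, v ζ))) :=
      (hTcont ζ hζ _ (hsubc hvmem)).tendsto.comp hpair
    have h2 : Tendsto (fun k => Km (Fz (x k), v (x k))) atTop (𝓝 (Km (Fz ζ, v ζ))) :=
      (hKcont ζ hζ _ (hsubc hvmem)).tendsto.comp hpair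
    have heq : Tm (Fz ζ, v ζ) = Km (Fz ζ, v ζ) :=
      tendsto_nhds_unique h1 (h2.congr fun k => (hx k).2.2.2.symm)
    exact ⟨hζ, hWζ, hclosed_open ζ hζ _ hvmem heq, heq⟩
  have hall : ball (0 : ℂ) δ ⊆ E :=
    (convex_ball (0 : ℂ) δ).isPreconnected.subset_of_closure_inter_subset hEo ⟨ζ1, hζ1, hE1⟩ hEc
  refine ⟨fun ζ => (v ζ).1, ?_, ?_, ?_⟩
  · intro ζ hζ
    have h1 := (hall hζ).2.1
    have h2 : DifferentiableAt ℂ v ζ :=
      DifferentiableAt.comp (g := chart) ζ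
        ((E2a_chart_contDiffAt h1 1).differentiableAt one_ne_zero)
        (hWd.differentiableAt (isOpen_ball.mem_nhds hζ))
    exact (DifferentiableAt.fst h2).differentiableWithinAt
  · exact congrArg Prod.fst hchart
  · intro ζ hζ
    obtain ⟨_, hW1, hvm, heq⟩ := hall hζ
    rw [hTm, hKm] at heq
    have hvR := hsub hvm
    obtain ⟨h1, h2⟩ := hTsol ζ hζ (v ζ) hvR heq
    obtain ⟨hg, _⟩ := hA.sol_periodic (hLam ζ hζ) σ L hvR heq
    obtain ⟨_, hspec⟩ := hUper (Fz ζ) (hB ζ hζ) hW1 hg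
    have hvm' : v ζ ∈ ball A.c A.r' ×ˢ ball A.w0 A.ρ0 :=
      ⟨ball_subset_ball hA.r_lt.le hvm.1, hvm.2⟩
    obtain ⟨h3, h4⟩ := (hA.spectral (hLam ζ hζ) σ L hvm' heq).1 hspec
    have h5 : ((v ζ).1, ω ζ (v ζ).1) = v ζ := by
      rw [← h1]
    refine ⟨ball_subset_closedBall hvm.1, h2, ?_, ?_⟩
    · refine hder ζ hζ (v ζ).1 hvm'.1 h2 ?_
      rw [h5]
      exact h3
    · unfold redH
      rw [h5]
      exact h4

end SkewBif
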