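import Pool.Agent.SK.A7
import Pool.Agent.SK.E2
import Pool.Agent.SK.K1g
import Pool.Agent.SK.K2b
import Pool.Agent.SK.K3
import Pool.Agent.SK.K3b
import Pool.Agent.SK.K4
import Pool.Agent.SK.K5
import Pool.Agent.SK.K6
/-! ## MP_9cfccf_an, module K7 -/
open Set Metric Filter Topology Polynomial
namespace SkewBif
variable {d : ℕ} {ι J : Type} {A : AData d ι J}

/-- K7 (CRITERION). A parameter at which a limit point is on the critical-value graph `γ j0` is in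
the bifurcation locus.
Proof: `crit0` gives `u' ∈ ball c r ×ˢ ball w0 ρ0` with `T^[m2] u' = e` and zero determinant. Suppose
`F'` is stable, with `B` as in the definition; choose `δ` with `F' + ζ (F1 - F') ∈ Lam ∩ B` for
`ζ ∈ closedBall 0 δ`; K2b gives `ω`; `exists_generic` gives `ζ1`; apply A7 (`criterion_contradiction`)
to `redA`, `redH` with `zs = u'.1`: `ψ F' zs e.2 = u'.2` by `ψ_uniq`; `hcirc` from K3, bound from K3',
limits from K4, boundary values `a0 ≠ 0` on the circle by `bdry` (`e ∈ Pt`), motions from K5, `stab_motion` (E2) and K6. -/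
theorem criterion (hd : 2 ≤ d) (hA : IsArena A) [Finite J] (hne : A.P.Nonempty) {F' : Coef d}
    (hF' : F' ∈ A.Lam) {σ : ℕ → ι} (hσ : A.Start σ) {e : X2}
    (he : IsLimPt (fun i => A.G i F') σ A.P e) (hcrit : e.1 = A.γ A.j0 F' e.2) :
    F' ∈ Bif d := by
  refine ⟨hA.nondeg F' hF', ?_⟩
  rintro ⟨B, hBo, hF'B, -, hst⟩
  set V : Coef d := A.F1 - F' with hV
  -- choice of `δ`
  have hcont : Continuous (fun ζ : ℂ => F' + ζ • V) := by fun_prop
  have hopen : IsOpen ((fun ζ : ℂ => F' + ζ • V) ⁻¹' (A.Lam ∩ B)) :=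
    (hA.Lam_open.inter hBo).preimage hcont
  have h0mem : (0 : ℂ) ∈ (fun ζ : ℂ => F' + ζ • V) ⁻¹' (A.Lam ∩ B) := by
    show F' + (0 : ℂ) • V ∈ A.Lam ∩ B
    rw [zero_smul, add_zero]
    exact ⟨hF', hF'B⟩
  obtain ⟨δ, hδ, hδsub⟩ := Metric.nhds_basis_closedBall.mem_iff.1 (hopen.mem_nhds h0mem)
  have hmem : ∀ ζ ∈ closedBall (0 : ℂ) δ, F' + ζ • V ∈ A.Lam := fun ζ hζ => (hδsub hζ).1
  have hmemB : ∀ ζ ∈ closedBall (0 : ℂ) δ, F' + ζ • V ∈ B := fun ζ hζ => (hδsub hζ).2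
  have hFz : F' + (0 : ℂ) • V = F' := by rw [zero_smul, add_zero]
  -- the reduction, the generic parameter
  obtain ⟨L0, hL0, ω, hω⟩ := hA.exists_reduced hmem hσ
  obtain ⟨ζ1, hζ1, hζ1mem, hgen⟩ := hA.exists_generic hne hF' hσ hδ
  rw [← hV] at hζ1mem hgen
  obtain ⟨c, hc, L1, hL1, hrep⟩ := hA.generic_repelling hδ hmem hσ hL0 hω hζ1 hgen
  obtain ⟨M, hM0, hM⟩ := hA.redH_bound hmem
  have he' : IsLimPt (fun i => A.G i (F' + (0 : ℂ) • V)) σ A.P e := by rw [hFz]; exact he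
  have h0δ : (0 : ℂ) ∈ ball (0 : ℂ) δ := mem_ball_self hδ
  obtain ⟨hlim1, hlim2, hlim3, hlim4⟩ := hA.red_limits hδ hmem hσ hL0 hω h0δ he'
  have hePt : e ∈ A.Pt := hA.limPt_mem hne hF' hσ he
  obtain ⟨u', hu', hTu', hdet⟩ := hA.crit0 F' hF' e hePt hcrit
  have hu1 : u'.1 ∈ ball A.c A.r := hu'.1
  have hu2 : u'.2 ∈ ball A.w0 A.ρ0 := hu'.2
  have hrr : closedBall A.c A.r ⊆ closedBall A.c A.r' := closedBall_subset_closedBall hA.r_lt.le
  have hu1' : u'.1 ∈ closedBall A.c A.r' := hrr (ball_subset_closedBall hu1)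
  have hψ : A.ψ F' u'.1 e.2 = u'.2 := by
    refine (hA.ψ_uniq F' hF' u'.1 hu1' u'.2 (ball_subset_closedBall hu2) e.2 hePt.2 ?_).symm
    show ((T d F')^[A.m2] (u'.1, u'.2)).2 = e.2
    rw [Prod.mk.eta, hTu']
  have hζ1c : ζ1 ∈ closedBall (0 : ℂ) δ := ball_subset_closedBall hζ1
  have hMu : ∀ L ≥ L1, A.M0 ≤ L := fun L hL => hL0.le.trans ((show L0 ≤ L1 from hL1).trans hL)
  have hωu : ∀ L ≥ L1, Reduced A F' V σ δ L (ω L) := fun L hL => hω L (le_trans hL1 hL)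
  refine criterion_contradiction (δ := δ) (r := A.r) (R := A.r') (M := M) (c := c) (cc := A.c)
    (ζ1 := ζ1) (zs := u'.1) hδ hA.r_pos hA.r_lt hM0 hc hζ1
    (a := fun L => redA A F' V σ L (ω L)) (h := fun L => redH A F' V (ω L))
    (L0 := L1) ?_ ?_ ?_ ?_ hlim1 ?_ hlim2 hlim3 hlim4 hu1 ?_ ?_ ?_
  · intro L hL
    exact (hA.red_props hδ hmem hσ (hMu L hL) (hωu L hL)).1
  · intro L hL
    exact (hA.red_props hδ hmem hσ (hMu L hL) (hωu L hL)).2.1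
  · intro L hL
    exact (hA.red_props hδ hmem hσ (hMu L hL) (hωu L hL)).2.2.1
  · intro L hL ζ hζ z hz
    exact hM σ L (ω L) (hωu L hL) ζ hζ z hz
  · intro z hz
    rw [hFz]
    exact sub_ne_zero.2 (hA.bdry F' hF' e hePt z hz)
  · show ((T d (F' + (0 : ℂ) • V))^[A.m2] (u'.1, A.ψ (F' + (0 : ℂ) • V) u'.1 e.2)).1 - e.1 = 0
    rw [hFz, hψ, Prod.mk.eta, hTu', sub_self]
  · show (fderiv ℂ ((T d (F' + (0 : ℂ) • V))^[A.m2])
      (u'.1, A.ψ (F' + (0 : ℂ) • V) u'.1 e.2)).det = 0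
    rw [hFz, hψ, Prod.mk.eta, hdet]
  · intro L hL z1 hz1 hzero
    obtain ⟨hc1, hrep1⟩ := hrep L hL z1 hz1 hzero
    refine ⟨hc1, ?_⟩
    have hz1' : z1 ∈ closedBall A.c A.r' := hrr hz1
    have hvRg : ((z1, ω L ζ1 z1) : X2) ∈ A.Rg :=
      ⟨hz1', ball_subset_closedBall ((hωu L hL).mem ζ1 hζ1c z1 hz1')⟩
    have heq := (hA.red_props hδ hmem hσ (hMu L hL) (hωu L hL)).2.2.2.1 ζ1 hζ1 z1 hz1' hzero
    obtain ⟨-, -, -, hKg, hKi⟩ := (hA.KL_props hmem hσ).1 L ζ1 hζ1c _ hvRg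
    have hgood : Good d (A.Per σ L) (F' + ζ1 • V) (z1, ω L ζ1 z1) := by
      unfold AData.Per
      rw [good_add]
      refine ⟨hA.good2 _ (hmem ζ1 hζ1c) _ hvRg, ?_⟩
      rw [heq]
      exact hKg
    have hper : (T d (F' + ζ1 • V))^[A.Per σ L] (z1, ω L ζ1 z1) = (z1, ω L ζ1 z1) := by
      unfold AData.Per
      rw [Nat.add_comm A.m2, Function.iterate_add_apply, heq, hKi]
    have hPer1 : 1 ≤ A.Per σ L := by
      unfold AData.Per
      have := hA.m2_pos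
      omega
    obtain ⟨U, hU, hU0, hU1, hch, hUper⟩ := stab_motion hd hst hPer1 (hmemB ζ1 hζ1c) hgood hper
      hrep1
    exact hA.motion hδ hmem hσ (hMu L hL) (hωu L hL)
      (fun ζ hζ => hmemB ζ (ball_subset_closedBall hζ)) hBo hζ1 hz1 hzero hU hU0 hU1 hch hUper

end SkewBif
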