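import Pool.Agent.SK.A6
import Pool.Agent.SK.B12
import Pool.Agent.SK.C8
import Pool.Agent.SK.D3
import Pool.Agent.SK.D9
import Pool.Agent.SK.E5
import Pool.Agent.SK.F0
import Pool.Agent.SK.F1
import Pool.Agent.SK.F2a
import Pool.Agent.SK.F2b
import Pool.Agent.SK.K7
/-! ## MP_9cfccf_an, module F3 -/
open Set Metric Filter Topology Polynomial
namespace SkewBif

theorem F3_deriv_gt {Q u : ℂ → ℂ} {ws wb : ℂ} {R θ : ℝ} (hQ : Differentiable ℂ Q)
    (hu : DifferentiableOn ℂ u (ball wb R)) (hws : ws ∈ ball wb R) (huws : u ws = ws)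
    (hinv : ∀ w ∈ ball wb R, Q (u w) = w) (hder : ‖deriv u ws‖ ≤ θ) (hθ : θ < 1) :
    1 < ‖deriv Q ws‖ := by
  have h1 : HasDerivAt u (deriv u ws) ws :=
    (hu.differentiableAt (isOpen_ball.mem_nhds hws)).hasDerivAt
  have h2 : HasDerivAt Q (deriv Q ws) (u ws) := by
    rw [huws]
    exact (hQ ws).hasDerivAt
  have h3 : HasDerivAt (fun w => Q (u w)) (deriv Q ws * deriv u ws) ws := h2.comp ws h1
  have h4 : HasDerivAt (fun w => Q (u w)) 1 ws := by
    refine (hasDerivAt_id ws).congr_of_eventuallyEq ?_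
    filter_upwards [isOpen_ball.mem_nhds hws] with w hw
    exact hinv w hw
  have h5 : ‖deriv Q ws‖ * ‖deriv u ws‖ = 1 := by
    rw [← norm_mul, h3.unique h4, norm_one]
  by_contra hcon
  push Not at hcon
  have h6 : ‖deriv Q ws‖ * ‖deriv u ws‖ ≤ 1 * θ :=
    mul_le_mul hcon hder (norm_nonneg _) zero_le_one
  linarith

/-- F3. Near every skew product over a bifurcating base there is an open set of bifurcating maps.

Proof. `stage1` gives neutral data close to `skew d p b`. `neutral_blender` (D3b) gives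
`ρ < ρ' < ρ'' < R`, `N`, `U`, `K`, `K'`, `e0`, `BlenderProp`. Choose `ρ3, R3` in between. `persist` with
`e` small (`e ≤ e0 / 4`, and by Cauchy (A6, one variable, `ρ < ρ'`) the Lipschitz closeness of `AL` to `A` on `closedBall wb ρ`
is `≤ e0/4`; `e ≤ 1/4` for the bound on `AL`). `base_landing` (B12) with the `δ` of `persist` (and of `skew_near`) gives `τ, x', c0, m`.
Put `pL = pb + C τ`; `choose_sigma` for `pL`; `bL = shift d bb σ`. Use `skew_add_C` to translate between `(pb, τ)` and `(pL, 0)`. The critical points of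
`pL` are those of `pb`. `persist` gives `ws, u', AL, U'`. The fixed point `ws` of the return map is repelling
(`deriv u' ws` has modulus `≤ θ' < 1` and is the inverse). `ret` (C8) gives `c, m2, w0` and the return property;
`exists_arena` (radii `ρ3 < R3`) and `open_set` (D9) give the ball of parameters `F`; `criterion` (K7) shows
`F ∈ Bif d`. -/
theorem main_open {d : ℕ} (hd : 2 ≤ d) {p : ℂ[X]} (hp : p.natDegree = d) {b : Mon d → ℂ}
    (hb : topCoef d b ≠ 0) (hbif : BifBase p) {W : Set (Coef d)} (hW : IsOpen W)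
    (hmem : skew d p b ∈ W) :
    ∃ U : Set (Coef d), IsOpen U ∧ U.Nonempty ∧ U ⊆ W ∧ U ⊆ Bif d := by
  obtain ⟨pb, bb, n, x, lam, wb, R, θ, u, A, l, y, hmemb, h⟩ := stage1 hd hp hb hbif hW hmem
  have hd1 : 1 ≤ d := by omega
  -- the neutral blender
  have hQ : Differentiable ℂ (fib d pb bb 0 n x) := by
    obtain ⟨Q, _, hQ⟩ := fib_poly hd pb h.hb 0 n x
    have h1 : fib d pb bb 0 n x = fun w => Q.eval w := funext hQ
    rw [h1]
    exact Q.differentiable
  have hS : Differentiable ℂ (drift d pb bb 0 n x) := by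
    obtain ⟨Q, _, hQ⟩ := drift_poly hd pb h.hb 0 h.hn x
    have h1 : drift d pb bb 0 n x = fun w => Q.eval w := funext hQ
    rw [h1]
    exact Q.differentiable
  obtain ⟨ρ, ρ', ρ'', hρ, hρρ', hρ'', hρR, q, N, U, hN, hUall, K, K', e0, he0, hK, hKK', hAK,
    hBP⟩ := neutral_blender hQ hS h.lin h.hl h.hl2 h.hl1 h.hy h.hQy h.hder h.hne
  obtain ⟨ρ3, hρ3, hρ3'⟩ := exists_between hρ''
  obtain ⟨R3, hR3, hR3'⟩ := exists_between hρ3'
  -- persistence
  obtain ⟨e, he, he1, he2, he3⟩ : ∃ e : ℝ, 0 < e ∧ e ≤ 1 / 4 ∧ e ≤ e0 / 4 ∧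
      e ≤ e0 / 4 * (ρ' - ρ) := by
    have h1 : 0 < e0 / 4 * (ρ' - ρ) := mul_pos (by linarith) (by linarith)
    refine ⟨min (1 / 4) (min (e0 / 4) (e0 / 4 * (ρ' - ρ))), ?_, min_le_left _ _,
      le_trans (min_le_right _ _) (min_le_left _ _), le_trans (min_le_right _ _) (min_le_right _ _)⟩
    exact lt_min (by norm_num) (lt_min (by linarith) h1)
  obtain ⟨δ1, hδ1, θ', hθ0, hθ1, hper⟩ := persist hd h hρ hρρ' hρ3 hR3 hR3' hρR hN
    (fun i => (hUall i).1) (fun i => (hUall i).2.1) (fun i => (hUall i).2.2) K' he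
  obtain ⟨δ2, hδ2, hnear⟩ := skew_near pb bb hW hmemb
  obtain ⟨δ, hδ, hδ1', hδ2'⟩ : ∃ δ : ℝ, 0 < δ ∧ δ ≤ δ1 ∧ δ ≤ δ2 :=
    ⟨min δ1 δ2, lt_min hδ1 hδ2, min_le_left _ _, min_le_right _ _⟩
  -- the base
  have hlam1 : deriv ((pt pb 0)^[n]) x ≠ 1 := by
    rw [← h.hlam]
    intro h1
    apply h.hl2
    rw [h1]
    norm_num
  obtain ⟨τ, x', c0, m, hm, hτ, hx'x, hfix, hmul, _, hc0, hland⟩ :=
    base_landing (by rw [h.hp]; exact hd) h.hn h.hx (by rw [← h.hlam]; exact h.hl) hlam1 hδ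
  obtain ⟨pL, hpL⟩ : ∃ pL, pL = pb + C τ := ⟨_, rfl⟩
  have hpLd : pL.natDegree = d := by
    rw [hpL, natDegree_add_C, h.hp]
  have hpLder : pL.derivative = pb.derivative := by
    rw [hpL, derivative_add, derivative_C, add_zero]
  have e_pt : pt pL 0 = pt pb τ := by
    have h1 := (skew_add_C pb bb τ 0 0 0 0).1
    rw [add_zero] at h1
    rw [hpL, h1]
  have hfixL : (pt pL 0)^[n] x' = x' := by rw [e_pt]; exact hfix
  have hmulL : 1 < ‖deriv ((pt pL 0)^[n]) x'‖ := by rw [e_pt]; exact hmul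
  obtain ⟨σ, hσ, hexc, hgen⟩ := choose_sigma hd hpLd h.hb h.hn hfixL hδ
  obtain ⟨bL, hbL⟩ : ∃ bL, bL = shift d bb σ := ⟨_, rfl⟩
  have htop : topCoef d bL ≠ 0 := by
    rw [hbL, topCoef_shift hd1]
    exact h.hb
  have e_fib : ∀ (M : ℕ) (z w : ℂ), fib d pL bL 0 M z w = fib d pb bL τ M z w := by
    intro M z w
    have h1 := (skew_add_C pb bL τ 0 M z w).2.2.1
    rw [add_zero] at h1
    rw [hpL, h1]
  have e_drift : ∀ (M : ℕ) (z w : ℂ), drift d pL bL 0 M z w = drift d pb bL τ M z w := by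
    intro M z w
    have h1 := (skew_add_C pb bL τ 0 M z w).2.2.2
    rw [add_zero] at h1
    rw [hpL, h1]
  obtain ⟨hθl, ws, u', AL, U', hws, huws, hud, hALd, hUd, hall, hmapr, humap, hUall', hUmap, hcl⟩ :=
    hper τ x' σ (lt_of_lt_of_le hτ hδ1') (lt_of_lt_of_le hx'x hδ1') (lt_of_lt_of_le hσ hδ1') hfix
  rw [← hbL] at hall hUall' hcl hexc hgen
  simp only [← e_fib, ← e_drift] at hall hUall' hcl
  rw [← e_pt] at hθl hall hcl
  have hwsR3 : ws ∈ ball wb R3 := ball_subset_ball (by linarith) hws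
  have hws3 : ws ∈ ball wb ρ3 := ball_subset_ball (by linarith) hws
  have hws' : ws ∈ ball wb ρ' := ball_subset_ball hρρ'.le hws
  have hfibws : fib d pL bL 0 n x' ws = ws := by
    have h1 := (hall ws hwsR3).1
    rwa [huws] at h1
  have hQL : Differentiable ℂ (fib d pL bL 0 n x') := by
    obtain ⟨Q, _, hQ⟩ := fib_poly hd pL htop 0 n x'
    have h1 : fib d pL bL 0 n x' = fun w => Q.eval w := funext hQ
    rw [h1]
    exact Q.differentiable
  have hw' : 1 < ‖deriv (fib d pL bL 0 n x') ws‖ :=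
    F3_deriv_gt hQL hud hwsR3 huws (fun w hw => (hall w hw).1) (hall ws hwsR3).2.1 hθ1
  -- the return path
  obtain ⟨c, hc, m2, hm2, hland2, w0, hw0, hw0', hret⟩ := ret hd hpLd htop h.hn hfixL hmulL hfibws hw'
    hexc (fun k hk z hz w hw => hgen ws hfibws k hk z hz w hw)
    (c0 := c0) (by rw [hpLder]; exact hc0) hm (by rw [e_pt]; exact hland)
  -- the arena
  obtain ⟨q', AA, hAr, hmemA, hAo, hAxs, hAws, hAj0, hAP, hANb0, hANb1, hAG0, hAG1, hAγ⟩ :=
    exists_arena hd hpLd htop (by rw [hpLder]; exact h.simple) h.hn hN hfixL hmulL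
      (wb := wb) (ws := ws) (ρ := ρ3) (R := R3) (θ := θ') (by linarith) hR3 hθ1 (q := q)
      (u := u') (U := U') hud hUd (fun w hw => (hall w hw).1) (fun i w hw => (hUall' i w hw).1)
      (fun w hw => (hall w hw).2.1) (fun i w hw => (hUall' i w hw).2.1) humap hUmap hws3 huws
      hm2 hc hland2 hw0 hw0' hret
  have hsk : SkArena d pL bL n N x' wb ws ρ3 R3 θ' u' U' c m2 AA :=
    { arena := hAr
      hd := hd
      hp := hpLd
      hn := h.hn
      hN := hN
      hx := hfixL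
      hmul := hmulL
      hρ := by linarith
      hρR := hR3
      hu := hud
      hU := hUd
      huinv := fun w hw => (hall w hw).1
      hUinv := fun i w hw => (hUall' i w hw).1
      hθ0 := hθ0
      hθ := hθ1
      huder := fun w hw => (hall w hw).2.1
      hUder := fun i w hw => (hUall' i w hw).2.1
      hws := hws3
      huws := huws
      mem := hmemA
      ho := hAo
      hxs := hAxs
      hws' := hAws
      hP := hAP
      Nb0 := hANb0
      Nb1 := hANb1
      G0 := hAG0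
      G1 := hAG1
      hγ := hAγ
      land := hland2 }
  have hWmem : skew d pL bL ∈ W := by
    rw [hbL]
    refine hnear pL σ (fun i => ?_) (lt_of_lt_of_le hσ hδ2')
    rw [hpL, coeff_add, add_sub_cancel_left, coeff_C]
    split_ifs
    · exact lt_of_lt_of_le hτ hδ2'
    · rw [norm_zero]
      exact hδ2
  have hsub : ∀ w, w ∈ ball wb ρ' → w ∈ ball wb R3 := fun w hw =>
    ball_subset_ball (by linarith) hw
  have hALA : ∀ w ∈ ball wb R3, ‖AL w - A w‖ ≤ e := fun w hw => (hall w hw).2.2.2.2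
  have hlip := lip_of_bound_one (b := wb) (r2 := ρ) (s2 := ρ') (e := e) hρρ'
    (g := fun w => AL w - A w)
    ((hALd.mono fun w hw => hsub w hw).sub
      (h.lin.A_diff.mono fun w hw => ball_subset_ball (by linarith) hw))
    (fun w hw => hALA w (hsub w hw))
  obtain ⟨Fs, hFs, δ', hδ', hball, hlim⟩ := open_set hsk hρ hρρ' hρ3 hws' hθl
    (fun w hw => ⟨hmapr ρ' (by simp) w hw, (hall w (hsub w hw)).2.2.1⟩)
    (AL := AL) (hALd.mono (ball_subset_ball hR3.le))
    (fun w hw => (hall w (ball_subset_ball hR3.le hw)).2.2.2.1)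
    (K' := K') (fun w hw => by
      have h1 := hALA w (hsub w hw)
      have h2 := hAK w (ball_subset_ball hρ''.le hw)
      have h3 : ‖AL w‖ ≤ ‖A w‖ + ‖AL w - A w‖ := by
        have h4 := norm_add_le (A w) (AL w - A w)
        rwa [add_sub_cancel] at h4
      linarith)
    he0 hK hKK' hBP
    (fun i v hv => ⟨le_trans (hcl i v hv) he2,
      le_trans (hUall' i v.2 (hsub _ hv.2)).2.2 he2⟩)
    (fun w hw => ⟨le_trans (hALA w (ball_subset_ball (by linarith)
        (closedBall_subset_ball hρρ' hw))) he2, fun w' hw' => by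
      refine le_trans (hlip w hw w' hw') (mul_le_mul_of_nonneg_right ?_ (norm_nonneg _))
      rw [div_le_iff₀ (by linarith)]
      exact he3⟩)
    hW hWmem
  refine ⟨ball Fs δ', isOpen_ball, ⟨Fs, mem_ball_self hδ'⟩, fun F hF => (hball hF).1,
    fun F hF => ?_⟩
  obtain ⟨σ', hσ', e', he', hcrit⟩ := hlim F hF
  have hne : AA.P.Nonempty := by
    obtain ⟨rP, hrP, hPeq⟩ := hAP
    rw [hPeq]
    exact ⟨(x', wb), mem_closedBall_self hrP.le, mem_closedBall_self (by linarith)⟩
  exact criterion hd hAr hne (hball hF).2 hσ' he' hcrit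

/-- The result: a regular polynomial skew product over a base in the bifurcation locus is in the
closure of the interior of the bifurcation locus of `P²`. -/
theorem skew_mem_closure_interior {d : ℕ} (hd : 2 ≤ d) {p : ℂ[X]} (hp : p.natDegree = d)
    {b : Mon d → ℂ} (hb : topCoef d b ≠ 0) (hbif : BifBase p) :
    skew d p b ∈ closure (interior (Bif d)) := by
  rw [_root_.mem_closure_iff]
  intro W hW hmem
  obtain ⟨U, hUo, ⟨F, hF⟩, hUW, hUB⟩ := main_open hd hp hb hbif hW hmem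
  exact ⟨F, hUW hF, mem_interior.2 ⟨U, hUB, hUo, hF⟩⟩

end SkewBif
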