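import Pool.Agent.SK.K1
/-! ## MP_9cfccf_an, module K2a -/
open Set Metric Filter Topology Polynomial
namespace SkewBif
variable {d : ℕ} {ι J : Type} {A : AData d ι J}

/-- The derivative of a `C¹` map is bounded on a compact set. -/
theorem K2a_fderiv_bdd {E Y : Type*} [NormedAddCommGroup E] [NormedSpace ℂ E]
    [NormedAddCommGroup Y] [NormedSpace ℂ Y] {g : E → Y} {S : Set E} (hS : IsCompact S)
    (hg : ∀ q ∈ S, ContDiffAt ℂ 1 g q) : ∃ M : ℝ, 0 ≤ M ∧ ∀ q ∈ S, ‖fderiv ℂ g q‖ ≤ M := by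
  have hc : ContinuousOn (fun q => fderiv ℂ g q) S := by
    intro q hq
    have h1 : ContDiffAt ℂ 0 (fderiv ℂ g) q := (hg q hq).fderiv_right (m := 0) (by norm_num)
    exact h1.continuousAt.continuousWithinAt
  obtain ⟨M, hM⟩ := hS.exists_bound_of_continuousOn hc
  exact ⟨max M 0, le_max_right _ _, fun q hq => (hM q hq).trans (le_max_left _ _)⟩

/-- The partial derivative is bounded by the total derivative. -/
theorem K2a_partial {E X Y : Type*} [NormedAddCommGroup E] [NormedSpace ℂ E]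
    [NormedAddCommGroup X] [NormedSpace ℂ X] [NormedAddCommGroup Y] [NormedSpace ℂ Y]
    {g : E × X → Y} {e : E} {x : X} (hg : DifferentiableAt ℂ g (e, x)) :
    DifferentiableAt ℂ (fun x' => g (e, x')) x ∧
      ‖fderiv ℂ (fun x' => g (e, x')) x‖ ≤ ‖fderiv ℂ g (e, x)‖ := by
  have h1 : HasFDerivAt (fun x' : X => ((e, x') : E × X)) (ContinuousLinearMap.inr ℂ E X) x :=
    hasFDerivAt_prodMk_right e x
  have h2 : HasFDerivAt (fun x' => g (e, x'))
      ((fderiv ℂ g (e, x)).comp (ContinuousLinearMap.inr ℂ E X)) x :=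
    hg.hasFDerivAt.comp x h1
  refine ⟨h2.differentiableAt, ?_⟩
  rw [h2.fderiv]
  refine (ContinuousLinearMap.opNorm_comp_le _ _).trans ?_
  have h3 : ‖ContinuousLinearMap.inr ℂ E X‖ ≤ 1 := ContinuousLinearMap.norm_inr_le_one ℂ E X
  calc ‖fderiv ℂ g (e, x)‖ * ‖ContinuousLinearMap.inr ℂ E X‖
      ≤ ‖fderiv ℂ g (e, x)‖ * 1 := mul_le_mul_of_nonneg_left h3 (norm_nonneg _)
    _ = ‖fderiv ℂ g (e, x)‖ := mul_one _

theorem K2a_Rg_compact (A : AData d ι J) : IsCompact A.Rg :=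
  (isCompact_closedBall _ _).prod (isCompact_closedBall _ _)

theorem K2a_Rg_convex (A : AData d ι J) : Convex ℝ A.Rg :=
  (convex_closedBall _ _).prod (convex_closedBall _ _)

theorem K2a_Pt_convex (A : AData d ι J) : Convex ℝ A.Pt :=
  (convex_closedBall _ _).prod (convex_closedBall _ _)

/-- The compact set of the parameters `F' + ζ V`. -/
theorem K2a_seg_compact (F' V : Coef d) (δ : ℝ) :
    IsCompact ((fun ζ : ℂ => F' + ζ • V) '' closedBall (0 : ℂ) δ) := by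
  refine (isCompact_closedBall _ _).image ?_
  fun_prop

/-- `gret` has uniformly bounded derivative. -/
theorem K2a_gret (hA : IsArena A) {F' V : Coef d} {δ : ℝ}
    (hmem : ∀ ζ ∈ closedBall (0 : ℂ) δ, F' + ζ • V ∈ A.Lam) :
    ∃ M : ℝ, 0 ≤ M ∧ ∀ ζ ∈ closedBall (0 : ℂ) δ, ∀ u ∈ A.Rg,
      DifferentiableAt ℂ (A.gret (F' + ζ • V)) u ∧ ‖fderiv ℂ (A.gret (F' + ζ • V)) u‖ ≤ M := by
  obtain ⟨M, hM0, hM⟩ := K2a_fderiv_bdd
    (g := fun q : Coef d × X2 => A.gret q.1 q.2)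
    ((K2a_seg_compact F' V δ).prod (K2a_Rg_compact A)) (by
      rintro ⟨F, u⟩ ⟨⟨ζ, hζ, rfl⟩, hu⟩
      exact hA.gret_smooth _ (hmem ζ hζ) u hu)
  refine ⟨M, hM0, fun ζ hζ u hu => ?_⟩
  have h1 := hA.gret_smooth _ (hmem ζ hζ) u hu
  have h2 := K2a_partial (g := fun q : Coef d × X2 => A.gret q.1 q.2)
    (h1.differentiableAt one_ne_zero)
  exact ⟨h2.1, h2.2.trans (hM _ ⟨⟨ζ, hζ, rfl⟩, hu⟩)⟩

/-- K2a. `KL` is `C¹`, takes its values in `P` (in `Pt` for `L ≥ M0` and `σ` starting with `o`s), is an inverse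
branch, and is a strong contraction, uniformly on compact pieces of parameter lines.
Proof: `contr`, and `gret` is uniformly Lipschitz on the compact convex `Rg`, `ζ ∈ closedBall 0 δ`
(`C¹` on a neighbourhood of a compact set, mean value inequality). -/
theorem IsArena.KL_props (hA : IsArena A) {F' V : Coef d} {δ : ℝ}
    (hmem : ∀ ζ ∈ closedBall (0 : ℂ) δ, F' + ζ • V ∈ A.Lam) {σ : ℕ → ι} (hσ : A.Start σ) :
    (∀ L, ∀ ζ ∈ closedBall (0 : ℂ) δ, ∀ u ∈ A.Rg,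
      A.KL (F' + ζ • V) σ L u ∈ A.P ∧ (A.M0 ≤ L → A.KL (F' + ζ • V) σ L u ∈ A.Pt) ∧
      ContDiffAt ℂ 1 (fun q : Coef d × X2 => A.KL q.1 σ L q.2) (F' + ζ • V, u) ∧
      Good d (∑ i ∈ Finset.range L, A.Nb (σ i) + A.m1) (F' + ζ • V) (A.KL (F' + ζ • V) σ L u) ∧
      (T d (F' + ζ • V))^[∑ i ∈ Finset.range L, A.Nb (σ i) + A.m1]
        (A.KL (F' + ζ • V) σ L u) = u) ∧
    ∃ C : ℝ, 0 < C ∧ ∀ L, ∀ ζ ∈ closedBall (0 : ℂ) δ, ∀ u ∈ A.Rg,
      (∀ u' ∈ A.Rg, dist (A.KL (F' + ζ • V) σ L u) (A.KL (F' + ζ • V) σ L u')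
        ≤ C * A.θ ^ L * dist u u') ∧
      ‖fderiv ℂ (A.KL (F' + ζ • V) σ L) u‖ ≤ C * A.θ ^ L := by
  constructor
  · intro L ζ hζ u hu
    have hF := hmem ζ hζ
    have hg : A.gret (F' + ζ • V) u ∈ A.P := interior_subset (hA.gret_maps _ hF u hu)
    have hinv := hA.wd_inv hF σ L hg
    have hginv := hA.gret_inv _ hF u hu
    refine ⟨(hA.wd_maps hF σ L hg).1, fun hL => hA.first _ hF σ hσ L hL _ hg, ?_, ?_, ?_⟩
    · have h1 := hA.wd_smooth σ L hF hg
      have h2 : ContDiffAt ℂ 1 (fun q : Coef d × X2 => (q.1, A.gret q.1 q.2)) (F' + ζ • V, u) :=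
        contDiffAt_fst.prodMk (hA.gret_smooth _ hF u hu)
      exact ContDiffAt.comp (F' + ζ • V, u) (g := fun q : Coef d × X2 => A.wd q.1 σ L q.2)
        (f := fun q : Coef d × X2 => (q.1, A.gret q.1 q.2)) h1 h2
    · refine good_add.2 ⟨hinv.1, ?_⟩
      show Good d A.m1 _ ((T d (F' + ζ • V))^[∑ i ∈ Finset.range L, A.Nb (σ i)]
        (A.wd (F' + ζ • V) σ L (A.gret (F' + ζ • V) u)))
      rw [hinv.2]
      exact hginv.1
    · rw [add_comm (∑ i ∈ Finset.range L, A.Nb (σ i)) A.m1, Function.iterate_add_apply]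
      show (T d (F' + ζ • V))^[A.m1] ((T d (F' + ζ • V))^[∑ i ∈ Finset.range L, A.Nb (σ i)]
        (A.wd (F' + ζ • V) σ L (A.gret (F' + ζ • V) u))) = u
      rw [hinv.2]
      exact hginv.2
  · obtain ⟨M, hM0, hM⟩ := K2a_gret hA hmem
    refine ⟨A.Cc * M + 1, by have := mul_nonneg hA.Cc_nonneg hM0; linarith, ?_⟩
    intro L ζ hζ u hu
    have hF := hmem ζ hζ
    have hg : ∀ u ∈ A.Rg, A.gret (F' + ζ • V) u ∈ A.P := fun u hu =>
      interior_subset (hA.gret_maps _ hF u hu)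
    have hθL : 0 ≤ A.θ ^ L := pow_nonneg hA.th0 L
    have hCθ : 0 ≤ A.Cc * A.θ ^ L := mul_nonneg hA.Cc_nonneg hθL
    constructor
    · intro u' hu'
      have h1 : dist (A.gret (F' + ζ • V) u) (A.gret (F' + ζ • V) u') ≤ M * dist u u' := by
        have h2 := (K2a_Rg_convex A).norm_image_sub_le_of_norm_fderiv_le (𝕜 := ℂ)
          (f := A.gret (F' + ζ • V)) (fun x hx => (hM ζ hζ x hx).1)
          (fun x hx => (hM ζ hζ x hx).2) hu' hu
        rwa [← dist_eq_norm, ← dist_eq_norm] at h2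
      have h3 : dist (A.KL (F' + ζ • V) σ L u) (A.KL (F' + ζ • V) σ L u') ≤
          A.Cc * A.θ ^ L * dist (A.gret (F' + ζ • V) u) (A.gret (F' + ζ • V) u') :=
        hA.contr _ hF σ L _ (hg u hu) _ (hg u' hu')
      calc dist (A.KL (F' + ζ • V) σ L u) (A.KL (F' + ζ • V) σ L u')
          ≤ A.Cc * A.θ ^ L * (M * dist u u') := h3.trans (mul_le_mul_of_nonneg_left h1 hCθ)
        _ ≤ (A.Cc * M + 1) * A.θ ^ L * dist u u' := by
            have := mul_nonneg hθL (dist_nonneg (x := u) (y := u'))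
            nlinarith
    · have h1 : DifferentiableAt ℂ (A.wd (F' + ζ • V) σ L) (A.gret (F' + ζ • V) u) :=
        (K2a_partial (g := fun q : Coef d × X2 => A.wd q.1 σ L q.2)
          ((hA.wd_smooth σ L hF (hg u hu)).differentiableAt one_ne_zero)).1
      have h2 : ‖fderiv ℂ (A.wd (F' + ζ • V) σ L) (A.gret (F' + ζ • V) u)‖ ≤ A.Cc * A.θ ^ L := by
        refine norm_fderiv_le_of_lip' ℂ hCθ ?_
        have h3 : ∀ᶠ x in 𝓝 (A.gret (F' + ζ • V) u), x ∈ A.P :=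
          mem_interior_iff_mem_nhds.1 (hA.gret_maps _ hF u hu)
        filter_upwards [h3] with x hx
        have h4 := hA.contr _ hF σ L x hx _ (hg u hu)
        rwa [dist_eq_norm, dist_eq_norm] at h4
      have h5 : fderiv ℂ (A.KL (F' + ζ • V) σ L) u =
          (fderiv ℂ (A.wd (F' + ζ • V) σ L) (A.gret (F' + ζ • V) u)).comp
            (fderiv ℂ (A.gret (F' + ζ • V)) u) :=
        fderiv_comp u h1 (hM ζ hζ u hu).1
      rw [h5]
      calc _ ≤ ‖fderiv ℂ (A.wd (F' + ζ • V) σ L) (A.gret (F' + ζ • V) u)‖ *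
            ‖fderiv ℂ (A.gret (F' + ζ • V)) u‖ := ContinuousLinearMap.opNorm_comp_le _ _
        _ ≤ (A.Cc * A.θ ^ L) * M :=
            mul_le_mul h2 (hM ζ hζ u hu).2 (norm_nonneg _) hCθ
        _ ≤ (A.Cc * M + 1) * A.θ ^ L := by nlinarith

end SkewBif
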